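import Mathlib

/-!
# Extension of scalars for left modules over noncommutative rings (P11, block A, helper39)
-/

set_option autoImplicit false

namespace Pool.Agent.Ep

open TensorProduct

variable {S T : Type} [Ring S] [Ring T] (ι : S →+* T) (N : Type) [AddCommGroup N] [Module S N]

/-- the relations `b ι(a) ⊗ n = b ⊗ a n` -/
def extRel : Submodule T (T ⊗[ℤ] N) :=
  Submodule.span T {z | ∃ (b : T) (a : S) (n : N), z = (b * ι a) ⊗ₜ[ℤ] n - b ⊗ₜ[ℤ] (a • n)}

/-- the tensor product `T ⊗_S N`, a left `T`-module -/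
def Ext : Type := (T ⊗[ℤ] N) ⧸ extRel ι N

noncomputable instance : AddCommGroup (Ext ι N) := inferInstanceAs (AddCommGroup (_ ⧸ extRel ι N))
noncomputable instance : Module T (Ext ι N) := inferInstanceAs (Module T (_ ⧸ extRel ι N))

variable {N}

/-- `b ⊗ n` -/
noncomputable def tm (b : T) (n : N) : Ext ι N := (extRel ι N).mkQ (b ⊗ₜ[ℤ] n)

/-! ## row x1 -/

lemma tm_mul (b : T) (a : S) (n : N) : tm ι (b * ι a) n = tm ι b (a • n) :=
  (Submodule.Quotient.eq _).2 (Submodule.subset_span ⟨b, a, n, rfl⟩)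
lemma tm_smul (b c : T) (n : N) : c • tm ι b n = tm ι (c * b) n := by
  have h : c • (b ⊗ₜ[ℤ] n) = (c * b) ⊗ₜ[ℤ] n := by
    rw [TensorProduct.smul_tmul', smul_eq_mul]
  exact ((extRel ι N).mkQ.map_smul c (b ⊗ₜ[ℤ] n)).symm.trans (congrArg _ h)
lemma tm_add_left (b b' : T) (n : N) : tm ι (b + b') n = tm ι b n + tm ι b' n :=
  (congrArg (extRel ι N).mkQ (TensorProduct.add_tmul b b' n)).trans (map_add _ _ _)
lemma tm_add_right (b : T) (n n' : N) : tm ι b (n + n') = tm ι b n + tm ι b n' :=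
  (congrArg (extRel ι N).mkQ (TensorProduct.tmul_add b n n')).trans (map_add _ _ _)
lemma tm_zero_right (b : T) : tm ι b (0 : N) = 0 :=
  (congrArg (extRel ι N).mkQ (TensorProduct.tmul_zero N b)).trans (map_zero _)
lemma tm_sum_right {κ : Type} (s : Finset κ) (b : T) (n : κ → N) :
    tm ι b (∑ k ∈ s, n k) = ∑ k ∈ s, tm ι b (n k) := by
  classical
  induction s using Finset.induction_on with
  | empty => simp only [Finset.sum_empty, tm_zero_right]
  | insert a s ha ih => rw [Finset.sum_insert ha, Finset.sum_insert ha, tm_add_right, ih]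
lemma tm_sum_left {κ : Type} (s : Finset κ) (b : κ → T) (n : N) :
    tm ι (∑ k ∈ s, b k) n = ∑ k ∈ s, tm ι (b k) n := by
  classical
  induction s using Finset.induction_on with
  | empty =>
    rw [Finset.sum_empty, Finset.sum_empty]
    exact (congrArg (extRel ι N).mkQ (TensorProduct.zero_tmul T n)).trans (map_zero _)
  | insert a s ha ih => rw [Finset.sum_insert ha, Finset.sum_insert ha, tm_add_left, ih]

/-- universal property -/
lemma exists_lift {L : Type} [AddCommGroup L] [Module T L] (φ : N →+ L)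
    (h : ∀ (a : S) n, φ (a • n) = ι a • φ n) :
    ∃ F : Ext ι N →ₗ[T] L, ∀ b n, F (tm ι b n) = b • φ n := by
  let G : T ⊗[ℤ] N →ₗ[T] L := TensorProduct.AlgebraTensorModule.lift
    (LinearMap.toSpanSingleton T (N →ₗ[ℤ] L) φ.toIntLinearMap)
  have hG : ∀ (b : T) (n : N), G (b ⊗ₜ[ℤ] n) = b • φ n := fun b n => rfl
  have hle : extRel ι N ≤ LinearMap.ker G := by
    refine Submodule.span_le.2 ?_
    rintro _ ⟨b, a, n, rfl⟩
    simp only [SetLike.mem_coe, LinearMap.mem_ker, map_sub, hG, h, mul_smul, sub_self]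
  exact ⟨(extRel ι N).liftQ G hle, fun b n => hG b n⟩

lemma ext_induction {p : Ext ι N → Prop} (h1 : ∀ b n, p (tm ι b n)) (h2 : ∀ u v, p u → p v → p (u + v))
    (u : Ext ι N) : p u := by
  obtain ⟨z, rfl⟩ := (extRel ι N).mkQ_surjective u
  induction z using TensorProduct.induction_on with
  | zero =>
    have h := h1 0 0
    rw [tm_zero_right] at h
    have h0 : (extRel ι N).mkQ (0 : T ⊗[ℤ] N) = 0 := map_zero _
    rw [h0]
    exact h
  | tmul b n => exact h1 b n
  | add a b ha hb =>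
    have h0 : (extRel ι N).mkQ (a + b) = (extRel ι N).mkQ a + (extRel ι N).mkQ b := map_add _ _ _
    rw [h0]
    exact h2 _ _ ha hb

/-- if `n` generates `N`, every element is `∑ f i ⊗ n i` -/
lemma exists_tm {m : ℕ} (n : Fin m → N) (hn : ∀ v : N, ∃ a : Fin m → S, v = ∑ i, a i • n i)
    (u : Ext ι N) : ∃ f : Fin m → T, u = ∑ i, tm ι (f i) (n i) := by
  refine ext_induction ι (p := fun u => ∃ f : Fin m → T, u = ∑ i, tm ι (f i) (n i)) ?_ ?_ u
  · intro b v
    obtain ⟨a, rfl⟩ := hn v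
    refine ⟨fun i => b * ι (a i), ?_⟩
    rw [tm_sum_right]
    exact Finset.sum_congr rfl fun i _ => (tm_mul ι b (a i) (n i)).symm
  · rintro u v ⟨f, rfl⟩ ⟨g, rfl⟩
    refine ⟨fun i => f i + g i, ?_⟩
    rw [← Finset.sum_add_distrib]
    exact Finset.sum_congr rfl fun i _ => (tm_add_left ι (f i) (g i) (n i)).symm

/-! ## row x2 -/

/-- Criterion: `n` generates `N`, `φ n` generates `L`, and the relations between the `φ n i` over `T`
are generated by the relations between the `n i` over `S`. -/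
theorem ext_equiv {L : Type} [AddCommGroup L] [Module T L] (φ : N →+ L)
    (h : ∀ (a : S) n, φ (a • n) = ι a • φ n) {m : ℕ} (n : Fin m → N)
    (h1 : ∀ v : N, ∃ a : Fin m → S, v = ∑ i, a i • n i)
    (h2 : ∀ u : L, ∃ f : Fin m → T, u = ∑ i, f i • φ (n i))
    (h3 : ∀ f : Fin m → T, ∑ i, f i • φ (n i) = 0 → ∃ (q : ℕ) (c : Fin q → T) (b : Fin q → Fin m → S),
      (∀ l, ∑ i, b l i • n i = 0) ∧ ∀ i, f i = ∑ l, c l * ι (b l i)) :
    ∃ F : Ext ι N ≃ₗ[T] L, ∀ b n, F (tm ι b n) = b • φ n := by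
  obtain ⟨F, hF⟩ := exists_lift ι φ h
  refine ⟨LinearEquiv.ofBijective F ⟨?_, ?_⟩, fun b n => hF b n⟩
  · rw [injective_iff_map_eq_zero]
    intro u hu
    obtain ⟨f, rfl⟩ := exists_tm ι n h1 u
    rw [map_sum] at hu
    simp only [hF] at hu
    obtain ⟨q, c, b, hb, hf⟩ := h3 f hu
    have e1 : ∀ i, tm ι (f i) (n i) = ∑ l, tm ι (c l) (b l i • n i) := by
      intro i
      rw [hf i, tm_sum_left]
      exact Finset.sum_congr rfl fun l _ => tm_mul ι (c l) (b l i) (n i)
    rw [Finset.sum_congr rfl fun i _ => e1 i, Finset.sum_comm]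
    refine Finset.sum_eq_zero fun l _ => ?_
    rw [← tm_sum_right, hb l, tm_zero_right]
  · intro u
    obtain ⟨f, rfl⟩ := h2 u
    refine ⟨∑ i, tm ι (f i) (n i), ?_⟩
    rw [map_sum]
    exact Finset.sum_congr rfl fun i _ => hF _ _

end Pool.Agent.Ep
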