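import Pool.Agent.Ep.NrmA

/-!
# The rings `E_p(0)` and `hat E_p(0)` (P11, block A, helper39)
-/

set_option autoImplicit false

namespace Pool.Agent.Ep

open MvPowerSeries

variable {d : ℕ}

/-- `hat E_p(0)`: the ring of formal microdifferential operators of order `≤ 0` at `p` -/
def hatE (d : ℕ) : Subring (Op d) where
  carrier := {P | IsFormal P.sym}
  mul_mem' h h' := isFormal_comp h h'
  one_mem' := by
    have h := isFormal_C (d := d) 1
    rw [map_one] at h
    exact h
  add_mem' h h' := isFormal_add h h'
  zero_mem' := by
    have h := isFormal_C (d := d) 0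
    rw [map_zero] at h
    exact h
  neg_mem' h := isFormal_neg h

/-- `E_p(0)`: the ring of microdifferential operators of order `≤ 0` at `p` -/
def micE (d : ℕ) : Subring (Op d) where
  carrier := {P | IsMicro P.sym}
  mul_mem' h h' := isMicro_comp h h'
  one_mem' := by
    have h := isMicro_C (d := d) 1
    rw [map_one] at h
    exact h
  add_mem' h h' := isMicro_add h h'
  zero_mem' := by
    have h := isMicro_C (d := d) 0
    rw [map_zero] at h
    exact h
  neg_mem' h := isMicro_neg h

lemma micE_le : micE d ≤ hatE d := fun _ h => IsMicro.formal h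

end Pool.Agent.Ep
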