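import Pool.Agent.Ep.Mod
import Pool.Agent.Ep.Ext
import Pool.Agent.Fbc.NGh

/-!
# The descent for modules over the rings of operators (P11, block A, helper39)
-/

set_option autoImplicit false

namespace Pool.Agent.Ep

open MvPowerSeries
open Pool.Fml (Ser SymRing formal micro micro_le_formal)

variable {d : ℕ}

/-- the inclusion of the microdifferential symbols in the formal symbols -/
noncomputable def ic (d : ℕ) : (micro d).alg →+* (formal d).alg :=
  (Subalgebra.inclusion micro_le_formal).toRingHom

/-- a finitely generated lattice over a ring of symbols in `x`, `s` -/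
structure FL (A : SymRing d) (L : Type) [AddCommGroup L] [Module A.alg L] (T : AddMonoid.End L)
    (P : Fin d → AddMonoid.End L) : Prop where
  fin : Module.Finite A.alg L
  sinj : ∀ u : L, A.var none • u = 0 → u = 0
  T_smul : ∀ (f : A.alg) (u : L), T (f • u) = f • T u + (A.var none ^ 2 * A.pd none f) • u
  P_smul : ∀ (i : Fin d) (f : A.alg) (u : L),
    P i (f • u) = f • P i u + (A.var none * A.pd (some i) f) • u
  P_T : ∀ (i : Fin d) (u : L), P i (T u) - T (P i u) = - (A.var none • P i u)
  P_P : ∀ (i j : Fin d) (u : L), P i (P j u) = P j (P i u)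

/-- the ring of operators generated by the symbols, `T` and the `P i` -/
noncomputable def flops (A : SymRing d) (L : Type) [AddCommGroup L] [Module A.alg L]
    (T : AddMonoid.End L) (P : Fin d → AddMonoid.End L) : Subring (AddMonoid.End L) :=
  Subring.closure ((Set.range fun f : A.alg => DistribSMul.toAddMonoidHom L f) ∪ ({T} ∪ Set.range P))

/-- regularity -/
def FLReg (A : SymRing d) (L : Type) [AddCommGroup L] [Module A.alg L]
    (T : AddMonoid.End L) (P : Fin d → AddMonoid.End L) : Prop :=
  ∀ F ∈ flops A L T P, (∃ n : ℕ, ∀ u, ∃ v : L, (F ^ n) u = A.var none • v) →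
    ∀ u, ∃ v : L, F u = A.var none • v

section bB

open TensorProduct

/-- relations in an extension of scalars come from relations -/
private lemma bB_rel {R S : Type} [CommRing R] [CommRing S] [Algebra R S] {N M : Type}
    [AddCommGroup N] [Module R N] [AddCommGroup M] [Module R M] [Module S M] [IsScalarTower R S M]
    {φ : N →ₗ[R] M} (hb : IsBaseChange S φ) {k : ℕ} (w : Fin k → N)
    (hw : Submodule.span R (Set.range w) = ⊤) (r : Fin k → S) (hr : ∑ j, r j • φ (w j) = 0) :
    ∃ (q : ℕ) (c : Fin q → S) (b : Fin q → Fin k → R), (∀ l, ∑ j, b l j • φ (w j) = 0) ∧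
      ∀ j, r j = ∑ l, c l * algebraMap R S (b l j) := by
  classical
  obtain ⟨g, hg⟩ : ∃ g : (Fin k → R) →ₗ[R] N, g = Fintype.linearCombination R w := ⟨_, rfl⟩
  have hgs : Function.Surjective g := by
    rw [← LinearMap.range_eq_top, hg, Fintype.range_linearCombination, hw]
  have hgw : ∀ v, g v = ∑ j, v j • w j := fun v => by
    rw [hg, Fintype.linearCombination_apply]
  have hex : Function.Exact (LinearMap.ker g).subtype g := g.exact_subtype_ker_map
  have hex2 := lTensor_exact S hex hgs
  set t : S ⊗[R] (Fin k → R) := ∑ j, r j ⊗ₜ[R] (Pi.single j 1 : Fin k → R) with ht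
  have h1 : g.lTensor S t = 0 := by
    have h2 : g.lTensor S t = ∑ j, r j ⊗ₜ[R] w j := by
      rw [ht, map_sum]
      refine Finset.sum_congr rfl fun j _ => ?_
      rw [LinearMap.lTensor_tmul, hg, Fintype.linearCombination_apply_single, one_smul]
    rw [h2]
    apply hb.equiv.injective
    rw [map_sum, map_zero, ← hr]
    refine Finset.sum_congr rfl fun j _ => ?_
    rw [IsBaseChange.equiv_tmul]
  obtain ⟨t', ht'⟩ := (hex2 t).1 h1
  obtain ⟨s, hs⟩ := TensorProduct.exists_finset t'
  obtain ⟨q, e⟩ : ∃ q, Nonempty (Fin q ≃ s) := ⟨_, ⟨s.equivFin.symm⟩⟩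
  obtain ⟨e⟩ := e
  refine ⟨q, fun l => (e l).1.1, fun l j => ((e l).1.2 : Fin k → R) j, fun l => ?_, fun j => ?_⟩
  · have h3 : g ((e l).1.2 : Fin k → R) = 0 := LinearMap.mem_ker.1 (e l).1.2.2
    have h4 := congrArg φ ((hgw _).symm.trans h3)
    rw [map_sum, map_zero] at h4
    rw [← h4]
    refine Finset.sum_congr rfl fun j _ => ?_
    exact (map_smul φ _ _).symm
  · have hpi : ∀ (a : S) (v : Fin k → R) (i : Fin k),
        TensorProduct.piScalarRight R S S (Fin k) (a ⊗ₜ[R] v) i = a * algebraMap R S (v i) := by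
      intro a v i
      rw [TensorProduct.piScalarRight_apply, TensorProduct.piScalarRightHom_tmul]
      show v i • a = _
      rw [Algebra.smul_def, mul_comm]
    have h5 : TensorProduct.piScalarRight R S S (Fin k) t j = r j := by
      rw [ht, map_sum, Finset.sum_apply, Finset.sum_eq_single j]
      · rw [hpi, Pi.single_eq_same, map_one, mul_one]
      · intro i _ hi
        rw [hpi, Pi.single_eq_of_ne hi.symm, map_zero, mul_zero]
      · intro h
        exact absurd (Finset.mem_univ _) h
    rw [← h5, ← ht', hs, map_sum, map_sum, Finset.sum_apply, ← Finset.sum_coe_sort, ← e.sum_comp]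
    refine Finset.sum_congr rfl fun l _ => ?_
    rw [LinearMap.lTensor_tmul, hpi]
    rfl

attribute [local instance] Pool.Agent.Fbc.micAlg Pool.Agent.Fbc.FLat.micMod
  Pool.Agent.Fbc.FLat.micTower

private lemma bB_ext {N : Pool.Agent.Fbc.FLat (micro d)} {M : Pool.Agent.Fbc.FLat (formal d)}
    (h : Pool.Agent.Fbc.FExt N M) :
    ∃ (k : ℕ) (n : Fin k → M.L),
      (∀ i, ∃ a : Fin k → (micro d).alg, M.T (n i) = ∑ j, ic d (a j) • n j) ∧
      (∀ l i, ∃ a : Fin k → (micro d).alg, M.P l (n i) = ∑ j, ic d (a j) • n j) ∧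
      (∀ u, ∃ r : Fin k → (formal d).alg, u = ∑ j, r j • n j) ∧
      (∀ r : Fin k → (formal d).alg, ∑ j, r j • n j = 0 → ∃ (q : ℕ) (c : Fin q → (formal d).alg)
        (b : Fin q → Fin k → (micro d).alg), (∀ l, ∑ j, ic d (b l j) • n j = 0) ∧
          ∀ j, r j = ∑ l, c l * ic d (b l j)) := by
  classical
  obtain ⟨φ, hT, hP, hb⟩ := h
  obtain ⟨k, w, hw⟩ := Module.Finite.exists_fin (R := (micro d).alg) (M := N.L)
  have hex : ∀ u : N.L, ∃ a : Fin k → (micro d).alg, φ u = ∑ j, ic d (a j) • φ (w j) := by
    intro u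
    have hu : u ∈ Submodule.span (micro d).alg (Set.range w) := by rw [hw]; trivial
    obtain ⟨a, ha⟩ := (Submodule.mem_span_range_iff_exists_fun _).1 hu
    refine ⟨a, ?_⟩
    rw [← ha, map_sum]
    exact Finset.sum_congr rfl fun j _ => map_smul φ _ _
  refine ⟨k, fun j => φ (w j), fun i => ?_, fun l i => ?_, fun u => ?_, fun r hr => ?_⟩
  · obtain ⟨a, ha⟩ := hex (N.T (w i))
    exact ⟨a, (hT _).symm.trans ha⟩
  · obtain ⟨a, ha⟩ := hex (N.P l (w i))
    exact ⟨a, (hP l _).symm.trans ha⟩
  · induction u using hb.inductionOn with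
    | zero => exact ⟨0, by simp⟩
    | tmul m =>
      obtain ⟨a, ha⟩ := hex m
      exact ⟨fun j => ic d (a j), ha⟩
    | smul f u hu =>
      obtain ⟨a, ha⟩ := hu
      refine ⟨fun j => f * a j, ?_⟩
      rw [ha, Finset.smul_sum]
      exact Finset.sum_congr rfl fun j _ => smul_smul _ _ _
    | add u v hu hv =>
      obtain ⟨a, ha⟩ := hu
      obtain ⟨a', ha'⟩ := hv
      refine ⟨fun j => a j + a' j, ?_⟩
      rw [ha, ha', ← Finset.sum_add_distrib]
      exact Finset.sum_congr rfl fun j _ => (add_smul _ _ _).symm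
  · obtain ⟨q, c, b, h1, h2⟩ := bB_rel hb w hw r hr
    exact ⟨q, c, b, h1, h2⟩

end bB

/-- Block B (helper49), in the form needed here -/
theorem blockB {L : Type} [AddCommGroup L] [Module (formal d).alg L] {T : AddMonoid.End L}
    {P : Fin d → AddMonoid.End L} (h : FL (formal d) L T P) (hr : FLReg (formal d) L T P) :
    ∃ (k : ℕ) (n : Fin k → L),
      (∀ i, ∃ a : Fin k → (micro d).alg, T (n i) = ∑ j, ic d (a j) • n j) ∧
      (∀ l i, ∃ a : Fin k → (micro d).alg, P l (n i) = ∑ j, ic d (a j) • n j) ∧
      (∀ u, ∃ r : Fin k → (formal d).alg, u = ∑ j, r j • n j) ∧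
      (∀ r : Fin k → (formal d).alg, ∑ j, r j • n j = 0 → ∃ (q : ℕ) (c : Fin q → (formal d).alg)
        (b : Fin q → Fin k → (micro d).alg), (∀ l, ∑ j, ic d (b l j) • n j = 0) ∧
          ∀ j, r j = ∑ l, c l * ic d (b l j)) := by
  obtain ⟨N, -, hN⟩ := Pool.Agent.Fbc.FLat.descent (d := d)
    { L := L, fin := h.fin, sinj := h.sinj, T := T, P := P, T_smul := h.T_smul,
      P_smul := h.P_smul, P_T := h.P_T, P_P := h.P_P } hr
  exact bB_ext hN


/-! ## row r1: from a module over `hat E(0)` to a lattice over the formal symbols -/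

section
variable (L : Type) [AddCommGroup L] [Module (Formal d).ring L]

private lemma r1_mul {d : ℕ} (f g : (formal d).alg) : fe (f * g) = fe f * fe g := by
  apply Subtype.ext
  apply Op.ext
  change emb ((f : Ser d) * (g : Ser d)) = comp (emb (f : Ser d)) (emb (g : Ser d))
  rw [comp_emb_emb]

private lemma r1_add {d : ℕ} (f g : (formal d).alg) : fe (f + g) = fe f + fe g := by
  apply Subtype.ext
  apply Op.ext
  change emb ((f : Ser d) + (g : Ser d)) = emb (f : Ser d) + emb (g : Ser d)
  rw [emb_add]

/-- `fe` is a homomorphism of rings -/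
noncomputable def feHom (d : ℕ) : (formal d).alg →+* (Formal d).ring where
  toFun := fe
  map_one' := by
    apply Subtype.ext
    apply Op.ext
    change emb (1 : Ser d) = 1
    have h := emb_C (d := d) 1
    rwa [map_one, map_one] at h
  map_mul' := r1_mul
  map_zero' := by
    have h := r1_add (d := d) 0 0
    rw [add_zero] at h
    exact left_eq_add.1 h
  map_add' := r1_add

/-- the operators `t` and `P_i` -/
noncomputable def vEnd (j : Option (Fin d)) : AddMonoid.End L :=
  DistribSMul.toAddMonoidHom L ((Formal d).v j)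

private lemma r1_var {d : ℕ} : fe ((formal d).var none) = (Formal d).s := by
  apply Subtype.ext
  apply Op.ext
  change emb (X none : Ser d) = vs
  rw [emb_X]
  rfl

private lemma r1_T {d : ℕ} (f : (formal d).alg) :
    (Formal d).v none * fe f = fe f * (Formal d).v none +
      fe ((formal d).var none ^ 2 * (formal d).pd none f) := by
  apply Subtype.ext
  exact rel_T (f : Ser d)

private lemma r1_P {d : ℕ} (i : Fin d) (f : (formal d).alg) :
    (Formal d).v (some i) * fe f = fe f * (Formal d).v (some i) +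
      fe ((formal d).var none * (formal d).pd (some i) f) := by
  apply Subtype.ext
  exact rel_P i (f : Ser d)

private lemma r1_PT {d : ℕ} (i : Fin d) :
    (Formal d).v (some i) * (Formal d).v none - (Formal d).v none * (Formal d).v (some i) =
      - ((Formal d).s * (Formal d).v (some i)) := by
  apply Subtype.ext
  exact rel_PT i

private lemma r1_PP {d : ℕ} (i j : Fin d) :
    (Formal d).v (some i) * (Formal d).v (some j) = (Formal d).v (some j) * (Formal d).v (some i) := by
  apply Subtype.ext
  exact rel_PP i j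

theorem fl_of_lattice (h : (Formal d).RegLattice L) :
    letI : Module (formal d).alg L := Module.compHom L (feHom d)
    FL (formal d) L (vEnd (d := d) L none) (fun i => vEnd (d := d) L (some i)) ∧
      FLReg (formal d) L (vEnd (d := d) L none) (fun i => vEnd (d := d) L (some i)) := by
  letI : Module (formal d).alg L := Module.compHom L (feHom d)
  have hs : ∀ (f : (formal d).alg) (u : L), f • u = fe f • u := fun _ _ => rfl
  have hv : ∀ (j : Option (Fin d)) (u : L), vEnd (d := d) L j u = (Formal d).v j • u :=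
    fun _ _ => rfl
  refine ⟨⟨?_, ?_, ?_, ?_, ?_, ?_⟩, ?_⟩
  · classical
    obtain ⟨m, e, N, -, -, h1, h2, -⟩ := (Formal d).exists_basis L h.gen
    refine ⟨⟨Finset.univ.image e, ?_⟩⟩
    rw [eq_top_iff]
    intro u _
    obtain ⟨r, hr⟩ := exists_fe h.fin h.gen e h1 h2 u
    rw [hr]
    refine Submodule.sum_mem _ fun i _ => ?_
    exact Submodule.smul_mem _ (r i) (Submodule.subset_span (by simp))
  · intro u hu
    apply h.sinj u
    rw [← r1_var]
    exact hu
  · intro f u
    rw [hv, hv, hs, hs, hs, ← mul_smul, ← mul_smul, ← add_smul, ← r1_T]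
  · intro i f u
    rw [hv, hv, hs, hs, hs, ← mul_smul, ← mul_smul, ← add_smul, ← r1_P]
  · intro i u
    rw [hv, hv, hv, hv, hs, r1_var, ← mul_smul, ← mul_smul, ← mul_smul, ← sub_smul, r1_PT,
      neg_smul]
  · intro i j u
    rw [hv, hv, hv, hv, ← mul_smul, ← mul_smul, r1_PP]
  · intro F hF
    have h3 : ∃ Q : (Formal d).ring, ∀ u : L, F u = Q • u := by
      have h4 : flops (formal d) L (vEnd (d := d) L none) (fun i => vEnd (d := d) L (some i)) ≤
          (Module.toAddMonoidEnd (Formal d).ring L).range := by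
        refine Subring.closure_le.2 ?_
        rintro G (⟨f, rfl⟩ | (hG | ⟨i, rfl⟩))
        · exact ⟨fe f, by ext u; rfl⟩
        · rw [Set.mem_singleton_iff] at hG
          subst hG
          exact ⟨(Formal d).v none, by ext u; rfl⟩
        · exact ⟨(Formal d).v (some i), by ext u; rfl⟩
      obtain ⟨Q, rfl⟩ := h4 hF
      exact ⟨Q, fun u => rfl⟩
    obtain ⟨Q, hQ⟩ := h3
    rintro ⟨n, hn⟩
    have h5 : ∀ (k : ℕ) (u : L), (F ^ k) u = (Q ^ k) • u := by
      intro k
      induction k with
      | zero => intro u; rw [pow_zero, pow_zero, one_smul]; rfl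
      | succ k ih =>
        intro u
        rw [pow_succ, pow_succ, mul_smul, ← hQ u, ← ih]
        rfl
    have h6 := h.reg Q ⟨n, fun u => by
      obtain ⟨w, hw⟩ := hn u
      refine ⟨w, ?_⟩
      rw [← h5, hw, hs, r1_var]⟩
    intro u
    obtain ⟨w, hw⟩ := h6 u
    refine ⟨w, ?_⟩
    rw [hQ, hw, hs, r1_var]

end

/-! ## row r2: a minimal family -/

/-! ### row r2: private helpers -/

/-- the inverse of a microdifferential symbol -/
private lemma r2_isMicro_inv {f g : Ser d} (hf : Pool.Fml.IsMicro f)
    (hf0 : MvPowerSeries.constantCoeff (σ := Option (Fin d)) (R := ℂ) f = 1) (h : f * g = 1) :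
    Pool.Fml.IsMicro g := by
  classical
  rw [Pool.Fml.isMicro_iff] at hf ⊢
  obtain ⟨ρ, hρ, hs⟩ := hf
  set S : ℝ := ∑' m : Option (Fin d) →₀ ℕ,
    ‖MvPowerSeries.coeff m f‖ / (m none).factorial * Pool.Fml.om ρ (fun _ => 1) m with hS
  have hS0 : 0 ≤ S := tsum_nonneg fun m => mul_nonneg (by positivity) (by
    rw [Pool.Fml.om]; positivity)
  set θ : ℝ := 1 / (2 * (S + 1)) with hθ
  have hθ0 : 0 < θ := by positivity
  have hθ1 : θ ≤ 1 := by
    rw [hθ, div_le_one (by positivity)]
    linarith
  have hθS : θ * S < 1 := by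
    rw [hθ, div_mul_eq_mul_div, div_lt_one (by positivity)]
    linarith
  have hρ' : 0 < ρ * θ := by positivity
  set u : (Option (Fin d) →₀ ℕ) → ℝ := fun m =>
    if m = 0 then 0 else ‖MvPowerSeries.coeff m f‖ / (m none).factorial with hu
  have hu0 : ∀ m, 0 ≤ u m := by
    intro m
    simp only [hu]
    split_ifs
    · exact le_rfl
    · positivity
  have hul : ∀ m, u m * Pool.Fml.om (ρ * θ) (fun _ => 1) m ≤
      θ * (‖MvPowerSeries.coeff m f‖ / (m none).factorial * Pool.Fml.om ρ (fun _ => 1) m) := by
    intro m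
    simp only [hu]
    split_ifs with hm
    · rw [zero_mul]
      exact mul_nonneg hθ0.le (mul_nonneg (by positivity) (by rw [Pool.Fml.om]; positivity))
    · have h1 : 1 ≤ m.degree := by
        rw [Nat.one_le_iff_ne_zero]
        intro h1
        exact hm ((Finsupp.degree_eq_zero_iff m).1 h1)
      have h2 : θ ^ m.degree ≤ θ := pow_le_of_le_one hθ0.le hθ1 (by omega)
      have h3 : Pool.Fml.om (ρ * θ) (fun _ => 1) m ≤ θ * Pool.Fml.om ρ (fun _ => 1) m := by
        rw [Pool.Fml.om, Pool.Fml.om, mul_one, mul_one, mul_pow, mul_comm]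
        exact mul_le_mul_of_nonneg_right h2 (by positivity)
      calc ‖MvPowerSeries.coeff m f‖ / (m none).factorial * Pool.Fml.om (ρ * θ) (fun _ => 1) m
          ≤ ‖MvPowerSeries.coeff m f‖ / (m none).factorial *
            (θ * Pool.Fml.om ρ (fun _ => 1) m) :=
            mul_le_mul_of_nonneg_left h3 (by positivity)
        _ = _ := by ring
  have hus : Summable fun m => u m * Pool.Fml.om (ρ * θ) (fun _ => 1) m :=
    Summable.of_nonneg_of_le (fun m => mul_nonneg (hu0 m) (by rw [Pool.Fml.om]; positivity)) hul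
      (hs.mul_left _)
  have hulim : ∑' m, u m * Pool.Fml.om (ρ * θ) (fun _ => 1) m < 1 := by
    refine lt_of_le_of_lt (hus.tsum_le_tsum hul (hs.mul_left _)) ?_
    rw [tsum_mul_left]
    exact hθS
  set δ : (Option (Fin d) →₀ ℕ) → ℝ := fun m => if m = 0 then 1 else 0 with hδ
  have hδ0 : ∀ m, 0 ≤ δ m := by
    intro m
    simp only [hδ]
    split_ifs
    · exact zero_le_one
    · exact le_rfl
  have hδs : Summable fun m => δ m * Pool.Fml.om (ρ * θ) (fun _ => 1) m := by
    refine summable_of_ne_finset_zero (s := {0}) fun m hm => ?_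
    rw [Finset.mem_singleton] at hm
    simp only [hδ]
    rw [if_neg hm, zero_mul]
  refine ⟨ρ * θ, hρ', Pool.Fml.basic_est (Pool.Fml.om_sub_one hρ') 1
    (a := fun m => ‖MvPowerSeries.coeff m g‖ / (m none).factorial) (u := u) (f := δ)
    (fun m => by positivity) hu0 hδ0 hus hδs hulim fun m => ?_⟩
  have h5 := congrArg (MvPowerSeries.coeff m) h
  rw [MvPowerSeries.coeff_mul, MvPowerSeries.coeff_one] at h5
  have hmem : ((0 : Option (Fin d) →₀ ℕ), m) ∈ Finset.HasAntidiagonal.antidiagonal m := by
    rw [Finset.HasAntidiagonal.mem_antidiagonal]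
    exact zero_add m
  rw [← Finset.add_sum_erase _ _ hmem] at h5
  simp only at h5
  rw [MvPowerSeries.coeff_zero_eq_constantCoeff_apply, hf0, one_mul] at h5
  have h6 : MvPowerSeries.coeff m g =
      (if m = 0 then 1 else 0) - ∑ p ∈ (Finset.HasAntidiagonal.antidiagonal m).erase (0, m),
        MvPowerSeries.coeff p.1 f * MvPowerSeries.coeff p.2 g := eq_sub_of_add_eq h5
  have h7 : ‖MvPowerSeries.coeff m g‖ ≤ (if m = 0 then 1 else 0) +
      ∑ p ∈ (Finset.HasAntidiagonal.antidiagonal m).erase (0, m),
        ‖MvPowerSeries.coeff p.1 f‖ * ‖MvPowerSeries.coeff p.2 g‖ := by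
    rw [h6]
    refine (norm_sub_le _ _).trans (add_le_add ?_ ((norm_sum_le _ _).trans (le_of_eq
      (Finset.sum_congr rfl fun p _ => norm_mul _ _))))
    split_ifs <;> simp
  have hfac : (0 : ℝ) < (m none).factorial := by exact_mod_cast Nat.factorial_pos _
  have h8 : ‖MvPowerSeries.coeff m g‖ / (m none).factorial ≤ δ m +
      ∑ p ∈ (Finset.HasAntidiagonal.antidiagonal m).erase (0, m),
        u p.1 * (‖MvPowerSeries.coeff p.2 g‖ / (p.2 none).factorial) := by
    rw [div_le_iff₀ hfac]
    refine h7.trans ?_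
    rw [add_mul, Finset.sum_mul]
    refine add_le_add ?_ (Finset.sum_le_sum fun p hp => ?_)
    · simp only [hδ]
      split_ifs with hm
      · rw [hm]
        simp
      · simp
    · obtain ⟨hp1, hp2⟩ := Finset.mem_erase.1 hp
      rw [Finset.HasAntidiagonal.mem_antidiagonal] at hp2
      have hp0 : p.1 ≠ 0 := by
        intro h0
        refine hp1 (Prod.ext h0 ?_)
        rw [h0, zero_add] at hp2
        exact hp2
      simp only [hu]
      rw [if_neg hp0]
      have h9 : ((p.1 none).factorial : ℝ) * (p.2 none).factorial ≤ (m none).factorial := by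
        rw [← hp2, Finsupp.add_apply]
        exact_mod_cast Nat.le_of_dvd (Nat.factorial_pos _)
          (Nat.factorial_mul_factorial_dvd_factorial_add _ _)
      have h10 : (0 : ℝ) < (p.1 none).factorial * (p.2 none).factorial := by positivity
      rw [div_mul_div_comm, div_mul_eq_mul_div, le_div_iff₀ h10]
      exact mul_le_mul_of_nonneg_left h9 (by positivity)
  rw [one_mul]
  refine h8.trans ?_
  rw [add_comm]
  refine add_le_add ?_ le_rfl
  refine Finset.sum_le_sum_of_subset_of_nonneg (Finset.erase_subset _ _) fun p _ _ => ?_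
  exact mul_nonneg (hu0 _) (by positivity)

/-- the constant term -/
private noncomputable def r2_cc (d : ℕ) : (micro d).alg →+* ℂ :=
  (MvPowerSeries.constantCoeff (σ := Option (Fin d)) (R := ℂ)).comp (micro d).alg.toSubring.subtype

private lemma r2_isUnit {f : (micro d).alg} (h : r2_cc d f = 1) : IsUnit f := by
  have h1 : MvPowerSeries.constantCoeff (σ := Option (Fin d)) (R := ℂ) (f : Ser d) = 1 := h
  have h2 : (f : Ser d) * (f : Ser d)⁻¹ = 1 :=
    MvPowerSeries.mul_inv_cancel _ (by rw [h1]; exact one_ne_zero)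
  exact IsUnit.of_mul_eq_one (⟨(f : Ser d)⁻¹, r2_isMicro_inv f.2 h1 h2⟩ : (micro d).alg)
    (Subtype.ext h2)

private lemma r2_jac : RingHom.ker (r2_cc d) ≤ Ideal.jacobson (⊥ : Ideal (micro d).alg) := by
  intro f hf
  rw [RingHom.mem_ker] at hf
  rw [Ideal.mem_jacobson_bot]
  intro y
  refine r2_isUnit ?_
  rw [map_add, map_mul, hf, zero_mul, map_one, zero_add]

/-- the constants -/
private noncomputable def r2_cst (A : OpRing d) : ℂ →+* A.ring where
  toFun := A.cst
  map_one' := A.cst_one
  map_mul' c c' := (A.cst_mul_cst c c').symm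
  map_zero' := A.cst_zero
  map_add' := A.cst_add

/-- choice of a basis modulo `Z` -/
private lemma r2_basis (A : OpRing d) {L : Type} [AddCommGroup L] [Module A.ring L] {k : ℕ}
    (n : Fin k → L) (hs : ∀ u : L, ∃ c : Fin k → ℂ, u - ∑ i, A.cst (c i) • n i ∈ A.Z L) :
    ∃ (m : ℕ) (a : Fin m → Fin k), Function.Injective a ∧
      (∀ u : L, ∃ c : Fin m → ℂ, u - ∑ i, A.cst (c i) • n (a i) ∈ A.Z L) ∧
      (∀ c : Fin m → ℂ, ∑ i, A.cst (c i) • n (a i) ∈ A.Z L → c = 0) := by
  classical
  let _ : Module ℂ (L ⧸ A.Z L) := Module.compHom (L ⧸ A.Z L) (r2_cst A)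
  have hsm : ∀ (c : ℂ) (u : L), c • (A.Z L).mkQ u = (A.Z L).mkQ (A.cst c • u) := fun _ _ => rfl
  have hsum : ∀ {p : ℕ} (c : Fin p → ℂ) (v : Fin p → L),
      ∑ i, c i • (A.Z L).mkQ (v i) = (A.Z L).mkQ (∑ i, A.cst (c i) • v i) := fun c v => by
    rw [map_sum]
    exact Finset.sum_congr rfl fun i _ => hsm _ _
  have hmk : ∀ u : L, (A.Z L).mkQ u = 0 ↔ u ∈ A.Z L := fun u =>
    Submodule.Quotient.mk_eq_zero _
  obtain ⟨κ, a, ha, hspan, hli⟩ := exists_linearIndependent' ℂ (fun i => (A.Z L).mkQ (n i))
  have : Finite κ := Finite.of_injective a ha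
  obtain ⟨m, ⟨e⟩⟩ := Finite.exists_equiv_fin κ
  have htop : ∀ u : L, (A.Z L).mkQ u ∈ Submodule.span ℂ (Set.range
      ((fun i => (A.Z L).mkQ (n i)) ∘ a ∘ e.symm)) := by
    intro u
    have h1 : Set.range ((fun i => (A.Z L).mkQ (n i)) ∘ a ∘ e.symm) =
        Set.range ((fun i => (A.Z L).mkQ (n i)) ∘ a) := by
      rw [← Function.comp_assoc]
      exact e.symm.surjective.range_comp _
    rw [h1, hspan]
    obtain ⟨c, hc⟩ := hs u
    have h2 : (A.Z L).mkQ u = ∑ i, c i • (A.Z L).mkQ (n i) := by
      rw [hsum, ← sub_eq_zero, ← map_sub, hmk]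
      exact hc
    rw [h2]
    exact Submodule.sum_mem _ fun i _ => Submodule.smul_mem _ _ (Submodule.subset_span ⟨i, rfl⟩)
  have hli' : LinearIndependent ℂ ((fun i => (A.Z L).mkQ (n i)) ∘ a ∘ e.symm) := by
    rw [← Function.comp_assoc]
    exact hli.comp _ e.symm.injective
  refine ⟨m, a ∘ e.symm, ha.comp e.symm.injective, fun u => ?_, fun c hc => ?_⟩
  · obtain ⟨c, hc⟩ := (Submodule.mem_span_range_iff_exists_fun ℂ).1 (htop u)
    refine ⟨c, ?_⟩
    rw [← hmk, map_sub, ← hsum, ← hc, sub_eq_zero]
    rfl
  · rw [Fintype.linearIndependent_iff] at hli'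
    refine funext fun i => hli' c ?_ i
    rw [← hmk, ← hsum] at hc
    exact hc

/-- the constant term -/
private noncomputable def r2_cf (d : ℕ) : (formal d).alg →+* ℂ :=
  (MvPowerSeries.constantCoeff (σ := Option (Fin d)) (R := ℂ)).comp (formal d).alg.toSubring.subtype

private lemma r2_cf_ic (f : (micro d).alg) : r2_cf d (ic d f) = r2_cc d f := rfl

private lemma r2_cf_alg (c : ℂ) : r2_cf d (algebraMap ℂ (formal d).alg c) = c := by
  show MvPowerSeries.constantCoeff (algebraMap ℂ (Ser d) c) = c
  rw [MvPowerSeries.algebraMap_apply, MvPowerSeries.constantCoeff_C]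
  rfl

private lemma r2_cc_alg (c : ℂ) : r2_cc d (algebraMap ℂ (micro d).alg c) = c := by
  show MvPowerSeries.constantCoeff (algebraMap ℂ (Ser d) c) = c
  rw [MvPowerSeries.algebraMap_apply, MvPowerSeries.constantCoeff_C]
  rfl

private lemma r2_cf_var (v : Option (Fin d)) : r2_cf d ((formal d).var v) = 0 := by
  show MvPowerSeries.constantCoeff (X v : Ser d) = 0
  exact MvPowerSeries.constantCoeff_X v

private lemma r2_cst_eq (c : ℂ) : (Formal d).cst c = fe (algebraMap ℂ (formal d).alg c) := by
  refine Subtype.ext ?_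
  show op (C c) = op (emb (algebraMap ℂ (Ser d) c))
  rw [MvPowerSeries.algebraMap_apply, emb_C]
  rfl

private lemma r2_x_eq (i : Fin d) : (Formal d).x i = fe ((formal d).var (some i)) := by
  refine Subtype.ext ?_
  show op (vx i) = op (emb (X (some i)))
  rw [emb_X]
  rfl

private lemma r2_s_eq : (Formal d).s = fe ((formal d).var none) := by
  refine Subtype.ext ?_
  show op vs = op (emb (X none))
  rw [emb_X]
  rfl

private lemma r2_small {p : Ser d}
    (hp : MvPowerSeries.constantCoeff (σ := Option (Fin d)) (R := ℂ) p = 0) :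
    Small (emb p) := by
  classical
  intro m h1 h2
  have h3 : MvPowerSeries.coeff m (emb p) =
      if m (some .t) = 0 ∧ ∀ i, m (some (.y i)) = 0 then MvPowerSeries.coeff (mres m) p else 0 :=
    rfl
  rw [h3]
  split_ifs with h4
  · have h5 : mres m = 0 := by
      ext v
      cases v with
      | none => exact h1
      | some i => exact h2 i
    rw [h5, MvPowerSeries.coeff_zero_eq_constantCoeff_apply, hp]
  · rfl

section

variable {L : Type} [AddCommGroup L] [Module (Formal d).ring L]

private lemma r2_Z {p : (formal d).alg} (hp : r2_cf d p = 0) (u : L) :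
    fe p • u ∈ (Formal d).Z L := by
  obtain ⟨Q, Q0, h⟩ := (Formal d).exists_of_small (isFormal_emb.2 p.2) (r2_small hp)
  refine ((Formal d).mem_Z L _).2 ⟨fun i => Q i • u, Q0 • u, ?_⟩
  have h1 : fe p = ∑ i, (Formal d).x i * Q i + (Formal d).s * Q0 := h
  rw [h1, add_smul, Finset.sum_smul, mul_smul]
  simp only [mul_smul]

private lemma r2_of_Z {k : ℕ} {n : Fin k → L}
    (h3 : ∀ u, ∃ r : Fin k → (formal d).alg, u = ∑ j, fe (r j) • n j) {z : L}
    (hz : z ∈ (Formal d).Z L) :
    ∃ p : Fin k → (formal d).alg, (∀ j, r2_cf d (p j) = 0) ∧ z = ∑ j, fe (p j) • n j := by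
  obtain ⟨v, w, rfl⟩ := ((Formal d).mem_Z L z).1 hz
  choose r hr using fun i => h3 (v i)
  obtain ⟨r', hr'⟩ := h3 w
  refine ⟨fun j => ∑ i, (formal d).var (some i) * r i j + (formal d).var none * r' j,
    fun j => ?_, ?_⟩
  · rw [map_add, map_sum, map_mul, r2_cf_var, zero_mul, add_zero]
    refine Finset.sum_eq_zero fun i _ => ?_
    rw [map_mul, r2_cf_var, zero_mul]
  · have h4 : ∀ j, fe (∑ i, (formal d).var (some i) * r i j + (formal d).var none * r' j) • n j =
        (∑ i, (Formal d).x i • fe (r i j) • n j) + (Formal d).s • fe (r' j) • n j := by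
      intro j
      have h5 : fe (∑ i, (formal d).var (some i) * r i j + (formal d).var none * r' j) =
          (∑ i, (Formal d).x i * fe (r i j)) + (Formal d).s * fe (r' j) := by
        have h6 := map_add (feHom d) (∑ i, (formal d).var (some i) * r i j)
          ((formal d).var none * r' j)
        rw [map_sum, map_mul] at h6
        rw [r2_s_eq]
        refine h6.trans (congrArg₂ (· + ·) (Finset.sum_congr rfl fun i _ => ?_) rfl)
        rw [map_mul, r2_x_eq]
        rfl
      rw [h5, add_smul, Finset.sum_smul, mul_smul]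
      simp only [mul_smul]
    rw [Finset.sum_congr rfl fun j _ => h4 j, Finset.sum_add_distrib, Finset.sum_comm]
    congr 1
    · refine Finset.sum_congr rfl fun i _ => ?_
      conv_lhs => rw [hr i]
      rw [Finset.smul_sum]
    · conv_lhs => rw [hr']
      rw [Finset.smul_sum]

/-- `blockB` in the form of the operators -/
private lemma r2_block (h : (Formal d).RegLattice L) : ∃ (k : ℕ) (n : Fin k → L),
    (∀ j i, ∃ a : Fin k → (micro d).alg, (Formal d).v j • n i = ∑ i', fe (ic d (a i')) • n i') ∧
    (∀ u, ∃ r : Fin k → (formal d).alg, u = ∑ i, fe (r i) • n i) ∧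
    (∀ r : Fin k → (formal d).alg, ∑ i, fe (r i) • n i = 0 → ∃ (q : ℕ)
      (c : Fin q → (formal d).alg) (b : Fin q → Fin k → (micro d).alg),
      (∀ l, ∑ i, fe (ic d (b l i)) • n i = 0) ∧ ∀ i, r i = ∑ l, c l * ic d (b l i)) := by
  obtain ⟨h1, h2⟩ := fl_of_lattice L h
  let _ : Module (formal d).alg L := Module.compHom L (feHom d)
  obtain ⟨k, n, h3, h4, h5, h6⟩ := blockB h1 h2
  refine ⟨k, n, fun j i => ?_, h5, h6⟩
  cases j with
  | none => exact h3 i
  | some l => exact h4 l i

/-- the family is generated over the microdifferential symbols by a basis modulo `Z` -/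
private lemma r2_nak {k m : ℕ} {n : Fin k → L} {a : Fin m → Fin k}
    (hgen : ∀ u, ∃ r : Fin k → (formal d).alg, u = ∑ i, fe (r i) • n i)
    (hrel : ∀ r : Fin k → (formal d).alg, ∑ i, fe (r i) • n i = 0 → ∃ (q : ℕ)
      (c : Fin q → (formal d).alg) (b : Fin q → Fin k → (micro d).alg),
      (∀ l, ∑ i, fe (ic d (b l i)) • n i = 0) ∧ ∀ i, r i = ∑ l, c l * ic d (b l i))
    (hs : ∀ u : L, ∃ c : Fin m → ℂ, u - ∑ i, (Formal d).cst (c i) • n (a i) ∈ (Formal d).Z L)
    (j : Fin k) : ∃ v : Fin m → (micro d).alg, n j = ∑ i, fe (ic d (v i)) • n (a i) := by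
  classical
  let _ : Module (micro d).alg L := Module.compHom L ((feHom d).comp (ic d))
  have hsm : ∀ (f : (micro d).alg) (u : L), f • u = fe (ic d f) • u := fun _ _ => rfl
  have key : ∀ j, n j ∈ Submodule.span (micro d).alg (Set.range (n ∘ a)) ⊔
      RingHom.ker (r2_cc d) • Submodule.span (micro d).alg (Set.range n) := by
    intro j
    obtain ⟨c, hc⟩ := hs (n j)
    obtain ⟨p, hp, hz⟩ := r2_of_Z hgen hc
    set r : Fin k → (formal d).alg := fun j' => Pi.single (M := fun _ => (formal d).alg) j 1 j' -
      (∑ i, if a i = j' then algebraMap ℂ (formal d).alg (c i) else 0) - p j' with hr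
    have hsum0 : ∀ (g : Fin k → (formal d).alg) (u : Fin k → L),
        ∑ i, fe (g i) • u i = ∑ i, feHom d (g i) • u i := fun _ _ => rfl
    have h1 : ∑ j', fe (r j') • n j' = 0 := by
      rw [hsum0]
      simp only [hr, map_sub, sub_smul, Finset.sum_sub_distrib]
      have h2 : ∑ j', feHom d (Pi.single (M := fun _ => (formal d).alg) j 1 j') • n j' = n j := by
        rw [Finset.sum_eq_single j]
        · rw [Pi.single_eq_same, map_one, one_smul]
        · intro j' _ hj'
          rw [Pi.single_eq_of_ne hj', map_zero, zero_smul]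
        · intro hj
          exact absurd (Finset.mem_univ j) hj
      have h3 : ∑ j', feHom d (∑ i, if a i = j' then algebraMap ℂ (formal d).alg (c i) else 0) •
          n j' = ∑ i, (Formal d).cst (c i) • n (a i) := by
        simp only [map_sum, Finset.sum_smul]
        rw [Finset.sum_comm]
        refine Finset.sum_congr rfl fun i _ => ?_
        rw [Finset.sum_eq_single (a i)]
        · rw [if_pos rfl, r2_cst_eq]
          rfl
        · intro j' _ hj'
          rw [if_neg hj'.symm, map_zero, zero_smul]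
        · intro hj
          exact absurd (Finset.mem_univ (a i)) hj
      rw [h2, h3, ← hsum0, ← hz, sub_self]
    obtain ⟨q, cc, b, hb, hrb⟩ := hrel r h1
    set β : Fin k → (micro d).alg := fun j' =>
      ∑ l, algebraMap ℂ (micro d).alg (r2_cf d (cc l)) * b l j' with hβ
    have hβ0 : ∑ j', β j' • n j' = 0 := by
      simp only [hβ, Finset.sum_smul, mul_smul]
      rw [Finset.sum_comm]
      refine Finset.sum_eq_zero fun l _ => ?_
      rw [← Finset.smul_sum]
      have h2 : ∑ j', b l j' • n j' = 0 := hb l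
      rw [h2, smul_zero]
    have hβ1 : ∀ j', r2_cc d (β j') = r2_cf d (r j') := by
      intro j'
      rw [hrb j']
      simp only [hβ, map_sum, map_mul, r2_cc_alg, r2_cf_ic]
    set ε : Fin k → (micro d).alg := fun j' => Pi.single (M := fun _ => (micro d).alg) j 1 j' -
      (∑ i, if a i = j' then algebraMap ℂ (micro d).alg (c i) else 0) - β j' with hε
    have hε0 : ∀ j', ε j' ∈ RingHom.ker (r2_cc d) := by
      intro j'
      rw [RingHom.mem_ker]
      simp only [hε, map_sub, hβ1, hr, hp, sub_zero]
      have h2 : r2_cc d (Pi.single (M := fun _ => (micro d).alg) j 1 j') =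
          r2_cf d (Pi.single (M := fun _ => (formal d).alg) j 1 j') := by
        by_cases hj : j' = j
        · rw [hj, Pi.single_eq_same, Pi.single_eq_same, map_one, map_one]
        · rw [Pi.single_eq_of_ne hj, Pi.single_eq_of_ne hj, map_zero, map_zero]
      have h3 : r2_cc d (∑ i, if a i = j' then algebraMap ℂ (micro d).alg (c i) else 0) =
          r2_cf d (∑ i, if a i = j' then algebraMap ℂ (formal d).alg (c i) else 0) := by
        rw [map_sum, map_sum]
        refine Finset.sum_congr rfl fun i _ => ?_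
        split_ifs
        · rw [r2_cc_alg, r2_cf_alg]
        · rw [map_zero, map_zero]
      rw [h2, h3, sub_self]
    have h4 : n j = ∑ i, algebraMap ℂ (micro d).alg (c i) • n (a i) + ∑ j', ε j' • n j' := by
      simp only [hε, sub_smul, Finset.sum_sub_distrib, hβ0, sub_zero]
      have h2 : ∑ j', Pi.single (M := fun _ => (micro d).alg) j 1 j' • n j' = n j := by
        rw [Finset.sum_eq_single j]
        · rw [Pi.single_eq_same, one_smul]
        · intro j' _ hj'
          rw [Pi.single_eq_of_ne hj', zero_smul]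
        · intro hj
          exact absurd (Finset.mem_univ j) hj
      have h3 : ∑ j', (∑ i, if a i = j' then algebraMap ℂ (micro d).alg (c i) else 0) •
          n j' = ∑ i, algebraMap ℂ (micro d).alg (c i) • n (a i) := by
        simp only [Finset.sum_smul]
        rw [Finset.sum_comm]
        refine Finset.sum_congr rfl fun i _ => ?_
        rw [Finset.sum_eq_single (a i)]
        · rw [if_pos rfl]
        · intro j' _ hj'
          rw [if_neg hj'.symm, zero_smul]
        · intro hj
          exact absurd (Finset.mem_univ (a i)) hj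
      rw [h2, h3, add_sub_cancel]
    rw [h4]
    refine Submodule.add_mem_sup ?_ ?_
    · exact Submodule.sum_mem _ fun i _ => Submodule.smul_mem _ _
        (Submodule.subset_span ⟨i, rfl⟩)
    · exact Submodule.sum_mem _ fun j' _ => Submodule.smul_mem_smul (hε0 j')
        (Submodule.subset_span ⟨j', rfl⟩)
  have hNak : Submodule.span (micro d).alg (Set.range n) ≤
      Submodule.span (micro d).alg (Set.range (n ∘ a)) :=
    Submodule.le_of_le_smul_of_le_jacobson_bot (Submodule.fg_span (Set.finite_range n)) r2_jac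
      (Submodule.span_le.2 (by
        rintro _ ⟨j, rfl⟩
        exact key j))
  obtain ⟨v, hv⟩ := (Submodule.mem_span_range_iff_exists_fun (micro d).alg).1
    (hNak (Submodule.subset_span ⟨j, rfl⟩))
  exact ⟨v, hv.symm⟩

end

/-- The data of `blockB`, transported to a minimal family: there are `m`, `n : Fin m → L`, a basis
modulo `Z`, such that `V_j n_i` is a combination of the `n` over the microdifferential symbols,
and with the same relations property. Proof: choose among the `n` of `blockB` a basis modulo `Z`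
(they generate `L / Z`); by the relations property `Z ∩ N = ∑ x_i N + s N` (reduce a relation
modulo `(x, s)`), and Nakayama over the local ring `(micro d).alg` (`isMicro` inverse of a series
with nonzero constant coefficient: see `isFormal_inv` in `Pool/Agent/Fbc/NFc.lean`; the same for
`micro` with Neumann series, `1 - f` invertible for `f` without constant term). -/
theorem exists_minimal {L : Type} [AddCommGroup L] [Module (Formal d).ring L]
    (h : (Formal d).RegLattice L) : ∃ (m : ℕ) (n : Fin m → L),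
      (∀ u : L, ∃ c : Fin m → ℂ, u - ∑ i, (Formal d).cst (c i) • n i ∈ (Formal d).Z L) ∧
      (∀ c : Fin m → ℂ, ∑ i, (Formal d).cst (c i) • n i ∈ (Formal d).Z L → c = 0) ∧
      (∀ j i, ∃ a : Fin m → (micro d).alg, (Formal d).v j • n i = ∑ i', fe (ic d (a i')) • n i') ∧
      (∀ u, ∃ r : Fin m → (formal d).alg, u = ∑ i, fe (r i) • n i) ∧
      (∀ r : Fin m → (formal d).alg, ∑ i, fe (r i) • n i = 0 → ∃ (q : ℕ)
        (c : Fin q → (formal d).alg) (b : Fin q → Fin m → (micro d).alg),
        (∀ l, ∑ i, fe (ic d (b l i)) • n i = 0) ∧ ∀ i, r i = ∑ l, c l * ic d (b l i)) := by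
  classical
  obtain ⟨k, n, hV, hgen, hrel⟩ := r2_block h
  have hspan : ∀ u : L, ∃ c : Fin k → ℂ, u - ∑ i, (Formal d).cst (c i) • n i ∈ (Formal d).Z L := by
    intro u
    obtain ⟨r, hr⟩ := hgen u
    refine ⟨fun i => r2_cf d (r i), ?_⟩
    have h1 : u - ∑ i, (Formal d).cst (r2_cf d (r i)) • n i =
        ∑ i, fe (r i - algebraMap ℂ (formal d).alg (r2_cf d (r i))) • n i := by
      conv_lhs => rw [hr]
      rw [← Finset.sum_sub_distrib]
      refine Finset.sum_congr rfl fun i _ => ?_
      rw [r2_cst_eq, ← sub_smul]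
      exact congrArg (· • n i) (map_sub (feHom d) _ _).symm
    rw [h1]
    refine Submodule.sum_mem _ fun i _ => r2_Z ?_ _
    rw [map_sub, r2_cf_alg, sub_self]
  obtain ⟨m, a, ha, hs1, hs2⟩ := r2_basis (Formal d) n hspan
  have hA : ∀ j, ∃ v : Fin m → (micro d).alg, n j = ∑ i, fe (ic d (v i)) • n (a i) ∧
      ∀ i0, a i0 = j → v = Pi.single i0 1 := by
    intro j
    by_cases hj : ∃ i0, a i0 = j
    · obtain ⟨i0, rfl⟩ := hj
      refine ⟨Pi.single i0 1, ?_, fun i1 h1 => by rw [ha h1]⟩
      rw [Finset.sum_eq_single i0]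
      · rw [Pi.single_eq_same]
        have h1 : fe (ic d (1 : (micro d).alg)) = 1 := by
          rw [map_one]
          exact map_one (feHom d)
        rw [h1, one_smul]
      · intro i1 _ h1
        rw [Pi.single_eq_of_ne h1, map_zero]
        have h2 : fe (0 : (formal d).alg) = 0 := map_zero (feHom d)
        rw [h2, zero_smul]
      · intro h1
        exact absurd (Finset.mem_univ i0) h1
    · obtain ⟨v, hv⟩ := r2_nak hgen hrel hs1 j
      exact ⟨v, hv, fun i0 h0 => absurd ⟨i0, h0⟩ hj⟩
  choose A hA1 hA2 using hA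
  have hfe : ∀ f : (formal d).alg, fe f = feHom d f := fun _ => rfl
  have hcomb : ∀ r : Fin k → (formal d).alg, ∑ j, fe (r j) • n j =
      ∑ i, fe (∑ j, r j * ic d (A j i)) • n (a i) := by
    intro r
    simp only [hfe, map_sum, map_mul, Finset.sum_smul, mul_smul]
    rw [Finset.sum_comm]
    refine Finset.sum_congr rfl fun j _ => ?_
    conv_lhs => rw [hA1 j]
    rw [Finset.smul_sum]
    rfl
  refine ⟨m, fun i => n (a i), hs1, hs2, ?_, ?_, ?_⟩
  · intro j i
    obtain ⟨b, hb⟩ := hV j (a i)
    refine ⟨fun i' => ∑ j', b j' * A j' i', ?_⟩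
    rw [hb, hcomb]
    refine Finset.sum_congr rfl fun i' _ => ?_
    rw [map_sum]
    simp only [map_mul]
  · intro u
    obtain ⟨r, hr⟩ := hgen u
    exact ⟨fun i => ∑ j, r j * ic d (A j i), by rw [← hcomb]; exact hr⟩
  · intro r hr
    have h1 : ∑ j, fe (∑ i, if a i = j then r i else 0) • n j = 0 := by
      simp only [hfe, map_sum, Finset.sum_smul]
      rw [Finset.sum_comm, ← hr]
      refine Finset.sum_congr rfl fun i _ => ?_
      rw [Finset.sum_eq_single (a i)]
      · rw [if_pos rfl]
        rfl
      · intro j' _ hj'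
        rw [if_neg hj'.symm, map_zero, zero_smul]
      · intro hj
        exact absurd (Finset.mem_univ (a i)) hj
    obtain ⟨q, c, b, hb, hrb⟩ := hrel _ h1
    refine ⟨q, c, fun l i => ∑ j, b l j * A j i, fun l => ?_, fun i => ?_⟩
    · have h2 := hcomb fun j => ic d (b l j)
      rw [hb l] at h2
      rw [h2]
      refine Finset.sum_congr rfl fun i _ => ?_
      rw [map_sum]
      simp only [map_mul]
    · have h3 : ∀ j, ∑ l, c l * ic d (b l j) * ic d (A j i) =
          if j = a i then r i else 0 := by
        intro j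
        rw [← Finset.sum_mul, ← hrb j]
        split_ifs with hj
        · rw [hj, hA2 (a i) i rfl, Pi.single_eq_same, map_one, mul_one,
            Finset.sum_eq_single i]
          · rw [if_pos rfl]
          · intro i' _ hi'
            rw [if_neg fun h0 => hi' (ha h0)]
          · intro h0
            exact absurd (Finset.mem_univ i) h0
        · rw [Finset.sum_mul]
          refine Finset.sum_eq_zero fun i' _ => ?_
          split_ifs with hi'
          · rw [hA2 j i' hi', Pi.single_eq_of_ne, map_zero, mul_zero]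
            intro h0
            exact hj (by rw [← hi', h0])
          · rw [zero_mul]
      simp only [map_sum, map_mul, Finset.mul_sum, ← mul_assoc]
      rw [Finset.sum_comm, Finset.sum_congr rfl fun j _ => h3 j, Finset.sum_ite_eq',
        if_pos (Finset.mem_univ _)]

/-! ## row r3: relations over `hat E(0)` -/

private lemma r3_small (g : Ser d) : Small (emb g - C (constantCoeff g)) := by
  classical
  intro m h0 hx
  have e1 : coeff m (emb g) = if m (some .t) = 0 ∧ ∀ i, m (some (.y i)) = 0 then
    coeff (mres m) g else 0 := rfl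
  rw [map_sub, e1, coeff_C]
  by_cases h : m (some .t) = 0 ∧ ∀ i, m (some (.y i)) = 0
  · have hm : m = 0 := by
      ext v
      match v with
      | none => exact h0
      | some (.x i) => exact hx i
      | some .t => exact h.1
      | some (.y i) => exact h.2 i
    have hr : mres (0 : Option (Var d) →₀ ℕ) = 0 := by
      ext v
      rfl
    rw [if_pos h, if_pos hm, hm, hr, coeff_zero_eq_constantCoeff_apply, sub_self]
  · have hm : m ≠ 0 := fun hm => h (by rw [hm]; simp)
    rw [if_neg h, if_neg hm, sub_zero]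

private lemma r3_mem {L : Type} [AddCommGroup L] [Module (Formal d).ring L]
    (g : (formal d).alg) (u : L) :
    fe g • u - (Formal d).cst (constantCoeff (g : Ser d)) • u ∈ (Formal d).Z L := by
  have hs := r3_small (g : Ser d)
  have hm : op (emb (g : Ser d) - C (constantCoeff (g : Ser d))) ∈ (Formal d).ring :=
    (fe g - (Formal d).cst (constantCoeff (g : Ser d))).2
  obtain ⟨Q, Q0, hQ⟩ := (Formal d).exists_of_small hm hs
  have e : fe g - (Formal d).cst (constantCoeff (g : Ser d)) =
      ∑ i, (Formal d).x i * Q i + (Formal d).s * Q0 := hQ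
  rw [← sub_smul, e]
  refine ((Formal d).mem_Z L _).2 ⟨fun i => Q i • u, Q0 • u, ?_⟩
  rw [add_smul, Finset.sum_smul]
  simp only [mul_smul]

/-- from `exists_minimal`, `exists_matrices` (constant terms of the matrices), `exists_div` -/
theorem core {L : Type} [AddCommGroup L] [Module (Formal d).ring L]
    (h : (Formal d).RegLattice L) : ∃ (m : ℕ) (n : Fin m → L),
      (∀ u : L, ∃ c : Fin m → ℂ, u - ∑ i, (Formal d).cst (c i) • n i ∈ (Formal d).Z L) ∧
      (∀ c : Fin m → ℂ, ∑ i, (Formal d).cst (c i) • n i ∈ (Formal d).Z L → c = 0) ∧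
      (∀ j i, ∃ a : Fin m → (micro d).alg,
        (Formal d).v j • n i = ∑ i', iot d (me (a i')) • n i') ∧
      (∀ u, ∃ f : Fin m → (Formal d).ring, u = ∑ i, f i • n i) ∧
      (∀ f : Fin m → (Formal d).ring, ∑ i, f i • n i = 0 → ∃ (q : ℕ) (c : Fin q → (Formal d).ring)
        (b : Fin q → Fin m → (Micro d).ring), (∀ l, ∑ i, iot d (b l i) • n i = 0) ∧
          ∀ i, f i = ∑ l, c l * iot d (b l i)) := by
  classical
  obtain ⟨m, n, h1, h2, h3, h4, h5⟩ := exists_minimal h
  obtain ⟨N, hN1, hN2, hN3⟩ := (Formal d).exists_matrices L h.gen n h1 h2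
  refine ⟨m, n, h1, h2, h3, fun u => ?_, fun f hf => ?_⟩
  · obtain ⟨r, hr⟩ := h4 u
    exact ⟨fun i => fe (r i), hr⟩
  choose a ha using h3
  have hcc : ∀ j i i', constantCoeff ((ic d (a j i i') : (formal d).alg) : Ser d) = N j i i' := by
    intro j i
    have e1 : ∑ i', (Formal d).cst (constantCoeff ((ic d (a j i i') : (formal d).alg) : Ser d) -
        N j i i') • n i' ∈ (Formal d).Z L := by
      have e2 : ∑ i', (fe (ic d (a j i i')) • n i' -
          (Formal d).cst (constantCoeff ((ic d (a j i i') : (formal d).alg) : Ser d)) • n i') ∈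
          (Formal d).Z L := Submodule.sum_mem _ fun i' _ => r3_mem _ _
      have e3 := Submodule.sub_mem _ (hN3 j i) e2
      convert e3 using 1
      have e4 : ∀ c c' : ℂ, (Formal d).cst (c - c') = (Formal d).cst c - (Formal d).cst c' := by
        intro c c'
        rw [eq_sub_iff_add_eq, ← (Formal d).cst_add, sub_add_cancel]
      simp only [e4, sub_smul, Finset.sum_sub_distrib, ha j i]
      abel
    have e5 := h2 _ e1
    intro i'
    exact sub_eq_zero.1 (congrFun e5 i')
  obtain ⟨r, H, hr⟩ := exists_div (fun j => Matrix.of fun i i' => ic d (a j i i')) N hcc hN1 hN2 f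
  have hr' : ∀ i', f i' = fe (r i') + ∑ j, (H j i' * (Formal d).v j -
    ∑ i, H j i * fe (ic d (a j i i'))) := hr
  have e6 : ∑ i', fe (r i') • n i' = 0 := by
    have e7 : ∑ i', (∑ j, (H j i' * (Formal d).v j - ∑ i, H j i * fe (ic d (a j i i')))) • n i'
        = 0 := by
      simp only [Finset.sum_smul, sub_smul, mul_smul]
      rw [Finset.sum_comm]
      refine Finset.sum_eq_zero fun j _ => ?_
      rw [Finset.sum_sub_distrib, sub_eq_zero, Finset.sum_comm]
      refine Finset.sum_congr rfl fun i _ => ?_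
      rw [ha j i, Finset.smul_sum]
    have e8 : ∑ i', f i' • n i' = ∑ i', fe (r i') • n i' +
        ∑ i', (∑ j, (H j i' * (Formal d).v j - ∑ i, H j i * fe (ic d (a j i i')))) • n i' := by
      rw [← Finset.sum_add_distrib]
      exact Finset.sum_congr rfl fun i' _ => by rw [← add_smul, ← hr' i']
    rw [hf, e7, add_zero] at e8
    exact e8.symm
  obtain ⟨q, c, b, hb, hc⟩ := h5 r e6
  let κ := Fin q ⊕ (Option (Fin d) × Fin m)
  let e := Fintype.equivFin κ
  let c' : κ → (Formal d).ring := Sum.elim (fun l => fe (c l)) (fun p => H p.1 p.2)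
  let b' : κ → Fin m → (Micro d).ring := Sum.elim (fun l i => me (b l i))
    (fun p i' => (if p.2 = i' then (Micro d).v p.1 else 0) - me (a p.1 p.2 i'))
  have hb' : ∀ k, ∑ i, iot d (b' k i) • n i = 0 := by
    rintro (l | ⟨j, i⟩)
    · exact hb l
    · change ∑ i', iot d ((if i = i' then (Micro d).v j else 0) - me (a j i i')) • n i' = 0
      simp only [map_sub, sub_smul, Finset.sum_sub_distrib]
      rw [sub_eq_zero]
      have e9 : ∀ i', iot d (if i = i' then (Micro d).v j else 0) • n i' =
          if i = i' then (Formal d).v j • n i' else 0 := by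
        intro i'
        split_ifs with hi
        · rfl
        · rw [map_zero, zero_smul]
      simp only [e9]
      rw [Finset.sum_ite_eq, if_pos (Finset.mem_univ i)]
      exact ha j i
  have hc' : ∀ i, f i = ∑ k, c' k * iot d (b' k i) := by
    intro i'
    rw [hr' i', Fintype.sum_sum_type, Fintype.sum_prod_type]
    congr 1
    · rw [hc i']
      have e10 : fe (∑ l, c l * ic d (b l i')) = ∑ l, fe (c l) * fe (ic d (b l i')) := by
        have := map_sum (feHom d) (fun l => c l * ic d (b l i')) Finset.univ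
        refine Eq.trans this (Finset.sum_congr rfl fun l _ => ?_)
        exact map_mul (feHom d) _ _
      exact e10
    · refine Finset.sum_congr rfl fun j _ => ?_
      change _ = ∑ i, H j i * iot d ((if i = i' then (Micro d).v j else 0) - me (a j i i'))
      simp only [map_sub, mul_sub, Finset.sum_sub_distrib]
      congr 1
      have e11 : ∀ i, H j i * iot d (if i = i' then (Micro d).v j else 0) =
          if i = i' then H j i * (Formal d).v j else 0 := by
        intro i
        split_ifs with hi
        · rfl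
        · rw [map_zero, mul_zero]
      simp only [e11]
      rw [Finset.sum_ite_eq', if_pos (Finset.mem_univ i')]
  refine ⟨Fintype.card κ, fun l => c' (e.symm l), fun l => b' (e.symm l), fun l => hb' _,
    fun i => ?_⟩
  rw [hc' i]
  exact (Equiv.sum_comp e.symm fun k => c' k * iot d (b' k i)).symm

/-! ## row r4: the microdifferential module -/

/-- restriction of scalars to `E(0)` -/
def Res (L : Type) : Type := L
instance {L : Type} [h : AddCommGroup L] : AddCommGroup (Res L) := h
noncomputable instance {L : Type} [AddCommGroup L] [Module (Formal d).ring L] :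
    Module (Micro d).ring (Res L) := Module.compHom L (iot d)

/-- an element of `L` as an element of `Res L` -/
def Res.of {L : Type} (u : L) : Res L := u
/-- an element of `Res L` as an element of `L` -/
def Res.out {L : Type} (u : Res L) : L := u

/-- the action of `E(0)` on `Res L` -/
lemma Res.smul_def {L : Type} [AddCommGroup L] [Module (Formal d).ring L] (a : (Micro d).ring)
    (u : Res L) : a • u = Res.of (iot d a • Res.out u) := rfl

/-- the `E(0)`-module generated by the family `n` -/
noncomputable def spn {L : Type} [AddCommGroup L] [Module (Formal d).ring L] {m : ℕ}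
    (n : Fin m → L) : Submodule (Micro d).ring (Res L) :=
  Submodule.span (Micro d).ring (Set.range fun i => Res.of (n i))

/-- the part of level `0` in `s` -/
private noncomputable def r4_lev (f : Sym d) : Sym d := fun m => if m none = 0 then coeff m f else 0

private lemma r4_coeff_lev (f : Sym d) (m : Option (Var d) →₀ ℕ) :
    coeff m (r4_lev f) = if m none = 0 then coeff m f else 0 := rfl

private lemma r4_coeff_shf (f : Sym d) (v : Option (Var d)) (m : Option (Var d) →₀ ℕ) :
    coeff m (shf v f) = coeff (m + Finsupp.single v 1) f := rfl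

private lemma r4_coeff_mul_vs (f : Sym d) (m : Option (Var d) →₀ ℕ) :
    coeff m (f * vs) = if m none = 0 then 0 else coeff (m - Finsupp.single none 1) f := by
  classical
  rw [vs, X_def, coeff_mul_monomial, mul_one]
  by_cases h : m none = 0
  · rw [if_pos h, if_neg]
    rw [Finsupp.single_le_iff, h]
    omega
  · rw [if_neg h, if_pos]
    rw [Finsupp.single_le_iff]
    omega

private lemma r4_split (f : Sym d) : f = r4_lev f + shf none f * vs := by
  ext m
  rw [map_add, r4_coeff_lev, r4_coeff_mul_vs]
  by_cases h : m none = 0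
  · rw [if_pos h, if_pos h, add_zero]
  · rw [if_neg h, if_neg h, zero_add, r4_coeff_shf, tsub_add_cancel_of_le]
    rw [Finsupp.single_le_iff]
    omega

private lemma r4_micro_lev {f : Sym d} (hf : IsFormal f) : IsMicro (r4_lev f) := by
  obtain ⟨R, hR, h⟩ := hf
  obtain ⟨C, hC⟩ := h 0
  refine ⟨max |C| 1 * max R 1, fun m => ?_⟩
  rw [r4_coeff_lev]
  have h1 : (1 : ℝ) ≤ (m none).factorial := by exact_mod_cast Nat.factorial_pos _
  have h2 : (0 : ℝ) ≤ (max |C| 1 * max R 1) ^ (m.degree + 1) := by positivity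
  split_ifs with h0
  · refine (hC m h0).trans (le_trans ?_ (le_mul_of_one_le_right h2 h1))
    rw [mul_pow]
    refine mul_le_mul ?_ ?_ (by positivity) (by positivity)
    · exact (le_abs_self C).trans ((le_max_left _ _).trans
        (le_self_pow₀ (le_max_right _ _) (by omega)))
    · exact (pow_le_pow_left₀ hR.le (le_max_left _ _) _).trans
        (pow_le_pow_right₀ (le_max_right _ _) (by omega))
  · rw [norm_zero]
    positivity

private lemma r4_left (g : Sym d) : g * vs = comp vs (g + vs * B none g) := by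
  rw [rho_inv, comp_vs_right]

/-- The level `0` part in `s` of a formal operator is a microdifferential operator, and the rest is
divisible by `s`. -/
lemma exists_level_zero (Q : (Formal d).ring) : ∃ (Q0 : (Micro d).ring) (Q1 : (Formal d).ring),
    Q = iot d Q0 + (Formal d).s * Q1 := by
  have hQ : IsFormal Q.1.sym := Q.2
  refine ⟨⟨op (r4_lev Q.1.sym), r4_micro_lev hQ⟩,
    ⟨op (shf none Q.1.sym + vs * B none (shf none Q.1.sym)),
      isFormal_rho_inv (isFormal_shf hQ none)⟩, ?_⟩
  apply Subtype.ext
  change Q.1.sym = r4_lev Q.1.sym + comp vs (shf none Q.1.sym + vs * B none (shf none Q.1.sym))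
  rw [← r4_left]
  exact r4_split _

/-- if `iot a` is divisible by `s`, so is `a` -/
lemma exists_div_s {a : (Micro d).ring} {Q : (Formal d).ring} (h : iot d a = (Formal d).s * Q) :
    ∃ b : (Micro d).ring, a = (Micro d).s * b := by
  have ha : IsMicro a.1.sym := a.2
  refine ⟨⟨op (shf none a.1.sym + vs * B none (shf none a.1.sym)),
      isMicro_rho_inv (isMicro_shf ha none)⟩, ?_⟩
  apply Subtype.ext
  change a.1.sym = comp vs (shf none a.1.sym + vs * B none (shf none a.1.sym))
  rw [← r4_left]
  have h1 : a.1.sym = comp vs Q.1.sym := congrArg (fun z : (Formal d).ring => z.1.sym) h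
  rw [comp_vs_left, comp_vs_right] at h1
  have h2 : r4_lev a.1.sym = 0 := by
    ext m
    rw [r4_coeff_lev, map_zero]
    split_ifs with h0
    · rw [h1, r4_coeff_mul_vs, if_pos h0]
    · rfl
  have h3 := r4_split a.1.sym
  rw [h2, zero_add] at h3
  exact h3

/-- `s L ∩ N = s N`: if `∑ a_i n_i = s u`, `u = ∑ f_i n_i`, then `a - s f` is a relation, reduce
modulo `s`. -/
theorem sat {L : Type} [AddCommGroup L] [Module (Formal d).ring L] {m : ℕ} (n : Fin m → L)
    (h1 : ∀ u, ∃ f : Fin m → (Formal d).ring, u = ∑ i, f i • n i)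
    (h2 : ∀ f : Fin m → (Formal d).ring, ∑ i, f i • n i = 0 → ∃ (q : ℕ)
        (c : Fin q → (Formal d).ring) (b : Fin q → Fin m → (Micro d).ring),
        (∀ l, ∑ i, iot d (b l i) • n i = 0) ∧ ∀ i, f i = ∑ l, c l * iot d (b l i))
    (v : spn (d := d) n) (u : L) (h : Res.out v.1 = (Formal d).s • u) :
    ∃ w : spn (d := d) n, v = (Micro d).s • w := by
  obtain ⟨a, ha⟩ := (Submodule.mem_span_range_iff_exists_fun (Micro d).ring).1 v.2
  have ha' : Res.out v.1 = ∑ i, iot d (a i) • n i := ha.symm
  obtain ⟨f, hf⟩ := h1 u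
  have e1 : ∑ i, (iot d (a i) - (Formal d).s * f i) • n i = 0 := by
    simp only [sub_smul, Finset.sum_sub_distrib, mul_smul]
    rw [← ha', h, hf, Finset.smul_sum, sub_self]
  obtain ⟨q, c, b, hb, hc⟩ := h2 _ e1
  choose c0 c1 hc01 using fun l => exists_level_zero (c l)
  have e2 : ∀ i, iot d (a i - ∑ l, c0 l * b l i) =
      (Formal d).s * (f i + ∑ l, c1 l * iot d (b l i)) := by
    intro i
    have := hc i
    rw [map_sub, map_sum, mul_add, Finset.mul_sum]
    rw [sub_eq_iff_eq_add] at this
    rw [this, sub_eq_iff_eq_add, add_assoc, add_comm, add_left_cancel_iff.2]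
    rw [← Finset.sum_add_distrib]
    refine Finset.sum_congr rfl fun l _ => ?_
    rw [hc01 l, add_mul, map_mul, ← mul_assoc, add_comm]
  choose w hw using fun i => exists_div_s (e2 i)
  have hmem : ∑ i, w i • (Res.of (n i) : Res L) ∈ spn (d := d) n :=
    Submodule.sum_mem _ fun i _ => Submodule.smul_mem _ _ (Submodule.subset_span ⟨i, rfl⟩)
  refine ⟨⟨_, hmem⟩, ?_⟩
  apply Subtype.ext
  change v.1 = (Micro d).s • ∑ i, w i • (Res.of (n i) : Res L)
  rw [← ha, Finset.smul_sum]
  have e3 : ∀ i, a i = (Micro d).s * w i + ∑ l, c0 l * b l i := fun i => by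
    rw [← hw i, sub_add_cancel]
  have e4 : ∑ i, (∑ l, c0 l * b l i) • (Res.of (n i) : Res L) = 0 := by
    simp only [Finset.sum_smul, mul_smul]
    rw [Finset.sum_comm]
    refine Finset.sum_eq_zero fun l _ => ?_
    rw [← Finset.smul_sum]
    have : ∑ i, b l i • (Res.of (n i) : Res L) = 0 := hb l
    rw [this, smul_zero]
  calc ∑ i, a i • (Res.of (n i) : Res L)
      = ∑ i, ((Micro d).s * w i + ∑ l, c0 l * b l i) • (Res.of (n i) : Res L) :=
        Finset.sum_congr rfl fun i _ => by rw [← e3 i]
    _ = _ := by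
        simp only [add_smul, Finset.sum_add_distrib, mul_smul] at e4 ⊢
        rw [e4, add_zero]

/-! ## row r5 -/

private theorem r5_split {ι : Type} [DecidableEq ι] {R : Type} [Ring R] (N : ι → R)
    (hc : ∀ i j, N i * N j = N j * N i) (j : ι) (w : List ι) :
    (w.map N).prod = N j ^ (w.count j) * ((w.filter (fun i => i ≠ j)).map N).prod := by
  induction w with
  | nil => simp
  | cons a w ih =>
    rw [List.map_cons, List.prod_cons, ih]
    by_cases h : a = j
    · subst h
      rw [List.count_cons_self, List.filter_cons_of_neg (by simp), pow_succ', mul_assoc]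
    · rw [List.count_cons_of_ne h, List.filter_cons_of_pos (by simpa using h), List.map_cons,
        List.prod_cons, ← mul_assoc, ← mul_assoc]
      congr 1
      exact ((show Commute (N a) (N j) from hc a j).pow_right _).eq

private theorem r5_len {ι : Type} [DecidableEq ι] (j : ι) (w : List ι) :
    w.length = w.count j + (w.filter (fun i => i ≠ j)).length := by
  induction w with
  | nil => simp
  | cons a w ih =>
    by_cases h : a = j
    · subst h
      rw [List.count_cons_self, List.filter_cons_of_neg (by simp), List.length_cons, ih]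
      omega
    · rw [List.count_cons_of_ne h, List.filter_cons_of_pos (by simpa using h), List.length_cons,
        List.length_cons, ih]
      omega

/-- long words in commuting nilpotent elements vanish -/
private theorem r5_words {ι : Type} [Fintype ι] {R : Type} [Ring R] (N : ι → R)
    (hc : ∀ i j, N i * N j = N j * N i) (hn : ∀ i, IsNilpotent (N i)) :
    ∃ K : ℕ, ∀ w : List ι, K ≤ w.length → (w.map N).prod = 0 := by
  classical
  suffices H : ∀ J : Finset ι, ∃ K : ℕ, ∀ w : List ι, (∀ i ∈ w, i ∈ J) → K ≤ w.length →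
      (w.map N).prod = 0 by
    obtain ⟨K, hK⟩ := H Finset.univ
    exact ⟨K, fun w hw => hK w (fun _ _ => Finset.mem_univ _) hw⟩
  intro J
  induction J using Finset.induction_on with
  | empty =>
    refine ⟨1, fun w hw hl => ?_⟩
    cases w with
    | nil => simp at hl
    | cons a w => exact absurd (hw a (by simp)) (by simp)
  | insert j J hj ih =>
    obtain ⟨K, hK⟩ := ih
    obtain ⟨P, hP⟩ := hn j
    refine ⟨K + P, fun w hw hl => ?_⟩
    rw [r5_split N hc j w]
    have hlen := r5_len j w
    by_cases h : P ≤ w.count j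
    · rw [pow_eq_zero_of_le h hP, zero_mul]
    · rw [hK _ (fun i hi => ?_) (by omega), mul_zero]
      rw [List.mem_filter] at hi
      have h1 := hw i hi.1
      rw [Finset.mem_insert] at h1
      rcases h1 with h1 | h1
      · exact absurd h1 (by simpa using hi.2)
      · exact h1

private theorem r5_small (A : OpRing d) {M : Type} [AddCommGroup M] [Module A.ring M]
    (f : A.ring) (hf : Small f.1.sym) (u : M) : f • u ∈ A.Z M := by
  obtain ⟨Q, Q0, h⟩ := A.exists_of_small (f := f.1.sym) f.2 hf
  have h' : f = ∑ i, A.x i * Q i + A.s * Q0 := h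
  rw [h', add_smul, Finset.sum_smul, A.mem_Z]
  refine ⟨fun i => Q i • u, Q0 • u, ?_⟩
  simp only [mul_smul]

private theorem r5_me (f : (micro d).alg) :
    Small (me f - (Micro d).cst (constantCoeff (f : Ser d))).1.sym := by
  intro m h0 hx
  have e : (me f - (Micro d).cst (constantCoeff (f : Ser d))).1.sym
      = emb (f : Ser d) - C (constantCoeff (f : Ser d)) := rfl
  rw [e, map_sub, coeff_C]
  have e2 : coeff m (emb (f : Ser d)) =
      if m (some .t) = 0 ∧ ∀ i, m (some (.y i)) = 0 then coeff (mres m) (f : Ser d) else 0 := rfl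
  rw [e2]
  have hmres : mres m = 0 := by
    ext v
    change m (vmap v) = 0
    rcases v with _ | i
    · exact h0
    · exact hx i
  by_cases h : m (some .t) = 0 ∧ ∀ i, m (some (.y i)) = 0
  · have hm : m = 0 := by
      ext v
      rcases v with _ | v
      · exact h0
      · cases v with
        | x i => exact hx i
        | t => exact h.1
        | y i => exact h.2 i
    rw [if_pos h, if_pos hm, hmres, coeff_zero_eq_constantCoeff, sub_self]
  · have hm : m ≠ 0 := fun hm => h (by subst hm; exact ⟨rfl, fun _ => rfl⟩)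
    rw [if_neg h, if_neg hm, sub_self]

private theorem r5_cst_sub (A : OpRing d) (c c' : ℂ) : A.cst (c - c') = A.cst c - A.cst c' := by
  rw [eq_sub_iff_add_eq, ← A.cst_add, sub_add_cancel]

/-- the generic position part, for a module over `A` generated by `n` -/
private theorem r5_gen (A : OpRing d) {M : Type} [AddCommGroup M] [Module A.ring M] {m : ℕ}
    (n : Fin m → M) (hspan : ∀ u : M, ∃ q : Fin m → A.ring, u = ∑ i, q i • n i)
    (N : Option (Fin d) → Matrix (Fin m) (Fin m) ℂ) (hc : ∀ i j, N i * N j = N j * N i)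
    (hn : ∀ i, IsNilpotent (N i))
    (hv : ∀ j i, A.v j • n i - ∑ i', A.cst (N j i i') • n i' ∈ A.Z M) : A.Generic M := by
  classical
  let W : AddSubgroup M :=
    { carrier := {u | ∃ c : Fin m → ℂ, u - ∑ i, A.cst (c i) • n i ∈ A.Z M}
      zero_mem' := ⟨0, by
        have : ∑ i, A.cst ((0 : Fin m → ℂ) i) • n i = 0 :=
          Finset.sum_eq_zero fun i _ => by rw [Pi.zero_apply, A.cst_zero, zero_smul]
        rw [this, sub_zero]
        exact zero_mem _⟩
      add_mem' := by
        rintro u v ⟨c, hc⟩ ⟨c', hc'⟩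
        refine ⟨fun i => c i + c' i, ?_⟩
        have : u + v - ∑ i, A.cst (c i + c' i) • n i =
            (u - ∑ i, A.cst (c i) • n i) + (v - ∑ i, A.cst (c' i) • n i) := by
          simp only [A.cst_add, add_smul, Finset.sum_add_distrib]
          abel
        rw [this]
        exact add_mem hc hc'
      neg_mem' := by
        rintro u ⟨c, hc⟩
        refine ⟨fun i => 0 - c i, ?_⟩
        have : -u - ∑ i, A.cst (0 - c i) • n i = -(u - ∑ i, A.cst (c i) • n i) := by
          simp only [r5_cst_sub, A.cst_zero, sub_smul, zero_smul, Finset.sum_sub_distrib,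
            Finset.sum_const_zero]
          abel
        rw [this]
        exact neg_mem hc }
  have hW : ∀ u, u ∈ W ↔ ∃ c : Fin m → ℂ, u - ∑ i, A.cst (c i) • n i ∈ A.Z M := fun _ => Iff.rfl
  have hWZ : ∀ u ∈ A.Z M, u ∈ W := fun u hu => (hW u).2 ⟨0, by
    have : ∑ i, A.cst ((0 : Fin m → ℂ) i) • n i = 0 :=
      Finset.sum_eq_zero fun i _ => by rw [Pi.zero_apply, A.cst_zero, zero_smul]
    rw [this, sub_zero]
    exact hu⟩
  have hWn : ∀ (c : ℂ) (i : Fin m), A.cst c • n i ∈ W := fun c i => (hW _).2 ⟨Pi.single i c, by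
    rw [Finset.sum_eq_single i (fun i' _ h => by
      rw [Pi.single_eq_of_ne h, A.cst_zero, zero_smul]) (fun h => absurd (Finset.mem_univ i) h),
      Pi.single_eq_same, sub_self]
    exact zero_mem _⟩
  -- the statement which is proved by descending induction
  let X : Matrix (Fin m) (Fin m) ℂ → Fin m → M := fun Y i => ∑ i', A.cst (Y i i') • n i'
  have hXdef : ∀ Y i, X Y i = ∑ i', A.cst (Y i i') • n i' := fun _ _ => rfl
  have hXW : ∀ (c : ℂ) Y i, A.cst c • X Y i ∈ W := fun c Y i => by
    rw [hXdef, Finset.smul_sum]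
    refine sum_mem fun i' _ => ?_
    rw [← mul_smul, A.cst_mul_cst]
    exact hWn _ _
  have hvX : ∀ j Y i, A.v j • X Y i - X (Y * N j) i ∈ A.Z M := fun j Y i => by
    have e1 : A.v j • X Y i - X (Y * N j) i = ∑ i', A.cst (Y i i') •
        (A.v j • n i' - ∑ i'', A.cst (N j i' i'') • n i'') := by
      simp only [smul_sub, Finset.sum_sub_distrib]
      congr 1
      · rw [hXdef, Finset.smul_sum]
        refine Finset.sum_congr rfl fun i' _ => ?_
        rw [← mul_smul, ← mul_smul, A.cst_mul]
      · rw [hXdef]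
        have e2 : ∀ i'', A.cst ((Y * N j) i i'') • n i'' =
            ∑ i', A.cst (Y i i') • A.cst (N j i' i'') • n i'' := fun i'' => by
          rw [Matrix.mul_apply]
          have e3 : A.cst (∑ k, Y i k * N j k i'') = ∑ k, A.cst (Y i k) * A.cst (N j k i'') := by
            induction (Finset.univ : Finset (Fin m)) using Finset.induction_on with
            | empty => rw [Finset.sum_empty, Finset.sum_empty, A.cst_zero]
            | insert a s ha ih =>
              rw [Finset.sum_insert ha, Finset.sum_insert ha, A.cst_add, A.cst_mul_cst, ih]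
          rw [e3, Finset.sum_smul]
          exact Finset.sum_congr rfl fun k _ => by rw [mul_smul]
        rw [Finset.sum_congr rfl fun i'' _ => e2 i'', Finset.sum_comm]
        refine Finset.sum_congr rfl fun i' _ => ?_
        rw [Finset.smul_sum]
    rw [e1]
    exact sum_mem fun i' _ => (A.Z M).smul_mem _ (hv j i')
  have hstep : ∀ Y, (∀ j, ∀ q : Fin m → A.ring, ∑ i, q i • X (Y * N j) i ∈ W) →
      ∀ q : Fin m → A.ring, ∑ i, q i • X Y i ∈ W := fun Y hY q => by
    choose c h f hf hq using fun i => A.exists_decomp (q i)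
    have e1 : ∑ i, q i • X Y i = ∑ i, A.cst (c i) • X Y i
        + ∑ j, ∑ i, h i j • X (Y * N j) i
        + (∑ j, ∑ i, h i j • (A.v j • X Y i - X (Y * N j) i) + ∑ i, f i • X Y i) := by
      have e2 : ∀ i, q i • X Y i = A.cst (c i) • X Y i + ∑ j, h i j • X (Y * N j) i
          + (∑ j, h i j • (A.v j • X Y i - X (Y * N j) i) + f i • X Y i) := fun i => by
        have e3 : ∑ j, h i j • (A.v j • X Y i - X (Y * N j) i) =
            ∑ j, (h i j * A.v j) • X Y i - ∑ j, h i j • X (Y * N j) i := by
          rw [← Finset.sum_sub_distrib]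
          refine Finset.sum_congr rfl fun j _ => ?_
          rw [smul_sub, mul_smul]
        rw [e3, ← Finset.sum_smul]
        conv_lhs => rw [hq i, add_smul, add_smul]
        abel
      rw [Finset.sum_congr rfl fun i _ => e2 i, Finset.sum_add_distrib, Finset.sum_add_distrib,
        Finset.sum_add_distrib, Finset.sum_comm, Finset.sum_comm (f := fun i j =>
          h i j • (A.v j • X Y i - X (Y * N j) i))]
    rw [e1]
    refine add_mem (add_mem (sum_mem fun i _ => hXW _ _ _) (sum_mem fun j _ => hY j _)) ?_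
    refine hWZ _ (add_mem (sum_mem fun j _ => sum_mem fun i _ => (A.Z M).smul_mem _ (hvX j Y i))
      (sum_mem fun i _ => r5_small A (f i) (hf i) _))
  obtain ⟨K, hK⟩ := r5_words N hc hn
  have hind : ∀ t : ℕ, ∀ w : List (Option (Fin d)), K ≤ w.length + t →
      ∀ q : Fin m → A.ring, ∑ i, q i • X ((w.map N).prod) i ∈ W := fun t => by
    induction t with
    | zero =>
      intro w hw q
      rw [hK w (by omega)]
      have : ∑ i, q i • X 0 i = 0 := Finset.sum_eq_zero fun i _ => by
        rw [hXdef, Finset.sum_eq_zero fun i' _ => by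
          rw [Matrix.zero_apply, A.cst_zero, zero_smul], smul_zero]
      rw [this]
      exact zero_mem _
    | succ t ih =>
      intro w hw
      refine hstep _ fun j => ?_
      have e : (w.map N).prod * N j = ((w ++ [j]).map N).prod := by simp
      rw [e]
      exact ih _ (by rw [List.length_append, List.length_singleton]; omega)
  have hall : ∀ u : M, u ∈ W := fun u => by
    obtain ⟨q, hq⟩ := hspan u
    have h1 := hind K [] (by simp) q
    have e : ∀ i, X (([] : List (Option (Fin d))).map N).prod i = n i := fun i => by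
      rw [List.map_nil, List.prod_nil, hXdef, Finset.sum_eq_single i (fun i' _ h => by
        rw [Matrix.one_apply_ne h.symm, A.cst_zero, zero_smul])
        (fun h => absurd (Finset.mem_univ i) h), Matrix.one_apply_eq, A.cst_one, one_smul]
    rw [Finset.sum_congr rfl fun i _ => by rw [e i]] at h1
    rwa [hq]
  refine ⟨m, n, fun u => ?_⟩
  obtain ⟨c, hcu⟩ := (hW u).1 (hall u)
  obtain ⟨v, w, hvw⟩ := (A.mem_Z M _).1 hcu
  refine ⟨c, v, w, ?_⟩
  rw [add_assoc, ← hvw]
  abel

/-- the `E(0)`-module generated by `n` is a regular lattice. `gen`: the additive subgroup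
`W = ∑ ℂ n_i + ∑ x_i N + s N` is stable under the `V_j` and small operators map `N` to
`∑ x_i N + s N`; a power of `V_j` maps `n_i` to `∑ x_i N + s N` (nilpotent matrices of constant
terms); decompose an operator (`exists_decomp`, iterated) as a polynomial in the `V_j`, plus
multiples of high powers of `V_j`, plus a small operator. `reg`: `Q ^ n N ⊆ s N` implies
`Q ^ n L ⊆ s L` (operators commute modulo `s`: `exists_comm`), so `Q L ⊆ s L`, `Q N ⊆ s L ∩ N = s N`. -/
theorem regLattice_spn {L : Type} [AddCommGroup L] [Module (Formal d).ring L]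
    (h : (Formal d).RegLattice L) {m : ℕ} (n : Fin m → L)
    (h1 : ∀ u : L, ∃ c : Fin m → ℂ, u - ∑ i, (Formal d).cst (c i) • n i ∈ (Formal d).Z L)
    (h2 : ∀ c : Fin m → ℂ, ∑ i, (Formal d).cst (c i) • n i ∈ (Formal d).Z L → c = 0)
    (h3 : ∀ j i, ∃ a : Fin m → (micro d).alg,
        (Formal d).v j • n i = ∑ i', iot d (me (a i')) • n i')
    (h4 : ∀ u, ∃ f : Fin m → (Formal d).ring, u = ∑ i, f i • n i)
    (h5 : ∀ f : Fin m → (Formal d).ring, ∑ i, f i • n i = 0 → ∃ (q : ℕ)
        (c : Fin q → (Formal d).ring) (b : Fin q → Fin m → (Micro d).ring),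
        (∀ l, ∑ i, iot d (b l i) • n i = 0) ∧ ∀ i, f i = ∑ l, c l * iot d (b l i)) :
    (Micro d).RegLattice (spn (d := d) n) := by
  classical
  choose a ha using h3
  obtain ⟨N, hNc, hNn, hNm⟩ := (Formal d).exists_matrices L h.gen n h1 h2
  have hcst : ∀ c : ℂ, iot d ((Micro d).cst c) = (Formal d).cst c := fun c => rfl
  -- the matrices are the constant terms
  have hNa : ∀ j i i', N j i i' = constantCoeff (a j i i' : Ser d) := by
    intro j i
    have e1 : ∑ i', (Formal d).cst (N j i i' - constantCoeff (a j i i' : Ser d)) • n i' =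
        ((Formal d).v j • n i - ∑ i', (Formal d).cst (constantCoeff (a j i i' : Ser d)) • n i')
          - ((Formal d).v j • n i - ∑ i', (Formal d).cst (N j i i') • n i') := by
      simp only [r5_cst_sub, sub_smul, Finset.sum_sub_distrib]
      abel
    have e2 : (Formal d).v j • n i - ∑ i', (Formal d).cst (constantCoeff (a j i i' : Ser d)) • n i'
        ∈ (Formal d).Z L := by
      rw [ha, ← Finset.sum_sub_distrib]
      refine sum_mem fun i' _ => ?_
      rw [← hcst, ← sub_smul, ← map_sub]
      exact r5_small (Formal d) _ (r5_me (a j i i')) _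
    have e3 := h2 (fun i' => N j i i' - constantCoeff (a j i i' : Ser d)) (by
      rw [e1]; exact sub_mem e2 (hNm j i))
    intro i'
    exact sub_eq_zero.1 (congrFun e3 i')
  let n' : Fin m → spn (d := d) n := fun i => ⟨Res.of (n i), Submodule.subset_span ⟨i, rfl⟩⟩
  have hspan : ∀ u : spn (d := d) n, ∃ q : Fin m → (Micro d).ring, u = ∑ i, q i • n' i := by
    intro u
    obtain ⟨q, hq⟩ := (Submodule.mem_span_range_iff_exists_fun (Micro d).ring).1 u.2
    refine ⟨q, Subtype.ext ?_⟩
    rw [← hq, Submodule.coe_sum]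
    rfl
  have hv : ∀ j i, (Micro d).v j • n' i - ∑ i', (Micro d).cst (N j i i') • n' i' ∈
      (Micro d).Z (spn (d := d) n) := by
    intro j i
    have e1 : (Micro d).v j • n' i = ∑ i', me (a j i i') • n' i' := by
      refine Subtype.ext ?_
      rw [Submodule.coe_sum]
      exact ha j i
    rw [e1, ← Finset.sum_sub_distrib]
    refine sum_mem fun i' _ => ?_
    rw [← sub_smul, hNa]
    exact r5_small (Micro d) _ (r5_me (a j i i')) _
  refine ⟨?_, ?_, ?_, ?_⟩
  · exact Module.Finite.iff_fg.2 (Submodule.fg_span (Set.finite_range _))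
  · intro u hu
    refine Subtype.ext ?_
    exact h.sinj _ (congrArg (fun v : spn (d := d) n => Res.out v.1) hu)
  · exact r5_gen (Micro d) n' hspan N hNc hNn hv
  · rintro Q ⟨k, hk⟩ v
    have hQL : (Formal d).Kills L (iot d Q) := by
      refine h.reg _ ⟨k, fun u => ?_⟩
      obtain ⟨f, hf⟩ := h4 u
      choose w hw using fun i => hk (n' i)
      have hw' : ∀ i, (iot d Q) ^ k • n i = (Formal d).s • Res.out (w i).1 := fun i => by
        rw [← map_pow]
        exact congrArg (fun v : spn (d := d) n => Res.out v.1) (hw i)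
      choose S hS using fun i => (Formal d).exists_comm ((iot d Q) ^ k) (f i)
      choose g hg using fun i => (Formal d).mul_s (f i)
      refine ⟨∑ i, (g i • Res.out (w i).1 + S i • n i), ?_⟩
      conv_lhs => rw [hf]
      rw [Finset.smul_sum, Finset.smul_sum]
      refine Finset.sum_congr rfl fun i _ => ?_
      have e : (iot d Q) ^ k * f i = f i * (iot d Q) ^ k + (Formal d).s * S i := by
        rw [← hS i]; abel
      rw [← mul_smul, e, add_smul, mul_smul, hw', ← mul_smul, hg, smul_add, mul_smul, mul_smul]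
    obtain ⟨u, hu⟩ := hQL (Res.out v.1)
    exact sat n h4 h5 (Q • v) u hu

/-- a family with the properties of `core` (the part needed below) -/
structure Fam (d : ℕ) (L : Type) [AddCommGroup L] [Module (Formal d).ring L] {m : ℕ}
    (n : Fin m → L) : Prop where
  lat : (Micro d).RegLattice (spn (d := d) n)
  gen : ∀ u : L, ∃ f : Fin m → (Formal d).ring, u = ∑ i, f i • n i
  rel : ∀ f : Fin m → (Formal d).ring, ∑ i, f i • n i = 0 → ∃ (q : ℕ)
        (c : Fin q → (Formal d).ring) (b : Fin q → Fin m → (Micro d).ring),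
        (∀ l, ∑ i, iot d (b l i) • n i = 0) ∧ ∀ i, f i = ∑ l, c l * iot d (b l i)

/-- the lattice theorem -/
theorem exists_fam {L : Type} [AddCommGroup L] [Module (Formal d).ring L]
    (h : (Formal d).RegLattice L) : ∃ (m : ℕ) (n : Fin m → L), Fam d L n := by
  obtain ⟨m, n, h1, h2, h3, h4, h5⟩ := core h
  exact ⟨m, n, regLattice_spn h n h1 h2 h3 h4 h5, h4, h5⟩

/-- the inclusion of the module generated by `n` in `L` -/
private def r6_phi {L : Type} [AddCommGroup L] [Module (Formal d).ring L] {m : ℕ}
    (n : Fin m → L) : spn (d := d) n →+ L where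
  toFun v := Res.out v.1
  map_zero' := rfl
  map_add' _ _ := rfl

private lemma r6_inj {L : Type} [AddCommGroup L] [Module (Formal d).ring L] {m : ℕ}
    (n : Fin m → L) {v : spn (d := d) n} (h : r6_phi n v = 0) : v = 0 := Subtype.ext h

/-- the form with the tensor product -/
theorem exists_ext {L : Type} [AddCommGroup L] [Module (Formal d).ring L]
    (h : (Formal d).RegLattice L) : ∃ (N : Type) (_ : AddCommGroup N) (_ : Module (Micro d).ring N),
      (Micro d).RegLattice N ∧ Nonempty (Ext (iot d) N ≃ₗ[(Formal d).ring] L) := by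
  obtain ⟨m, n, hlat, hgen, hrel⟩ := exists_fam h
  refine ⟨spn (d := d) n, inferInstance, inferInstance, hlat, ?_⟩
  have hφ : ∀ (a : (Micro d).ring) (v : spn (d := d) n),
      r6_phi n (a • v) = iot d a • r6_phi n v := fun _ _ => rfl
  let n' : Fin m → spn (d := d) n := fun i => ⟨Res.of (n i), Submodule.subset_span ⟨i, rfl⟩⟩
  have hn' : ∀ i, r6_phi n (n' i) = n i := fun _ => rfl
  obtain ⟨F, -⟩ := ext_equiv (iot d) (r6_phi n) hφ n' (by
    intro v
    obtain ⟨a, ha⟩ := (Submodule.mem_span_range_iff_exists_fun (Micro d).ring).1 v.2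
    refine ⟨a, Subtype.ext ?_⟩
    rw [← ha, AddSubmonoidClass.coe_finsetSum]
    rfl) hgen (by
    intro f hf
    obtain ⟨q, c, b, hb, hc⟩ := hrel f hf
    refine ⟨q, c, b, fun l => r6_inj n ?_, hc⟩
    rw [map_sum]
    simp only [hφ, hn']
    exact hb l)
  exact ⟨F⟩

/-! ## rows m1, m2: modules over `E = E(0)[1/s]` -/

/-- A regular holonomic module in generic position over `E_p = E_p(0)[∂_t]`, that is a module over
`E_p(0)` on which `s = ∂_t⁻¹` is bijective: it contains a regular lattice which generates it. -/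
structure OpRing.RegHol (A : OpRing d) (M : Type) [AddCommGroup M] [Module A.ring M] : Prop where
  bij : Function.Bijective fun u : M => A.s • u
  lat : ∃ L : Submodule A.ring M, A.RegLattice L ∧ ∀ u : M, ∃ k : ℕ, A.s ^ k • u ∈ L

-- mods_ep row m1 (helper3): replaces the stub exists_ext_M in Core.lean (inside namespace Pool.Agent.Ep)
/-! ### row m1: private helpers -/

private lemma m1_s_mul_pow (A : OpRing d) (k : ℕ) (Q : A.ring) :
    ∃ Q' : A.ring, A.s ^ k * Q = Q' * A.s ^ k := by
  induction k generalizing Q with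
  | zero => exact ⟨Q, by rw [pow_zero, one_mul, mul_one]⟩
  | succ k ih =>
    obtain ⟨Q1, h1⟩ := A.s_mul Q
    obtain ⟨Q2, h2⟩ := ih Q1
    exact ⟨Q2, by rw [pow_succ, mul_assoc, h1, ← mul_assoc, h2, mul_assoc]⟩

private lemma m1_mul_s_pow (A : OpRing d) (k : ℕ) (Q : A.ring) :
    ∃ Q' : A.ring, Q * A.s ^ k = A.s ^ k * Q' := by
  induction k generalizing Q with
  | zero => exact ⟨Q, by rw [pow_zero, one_mul, mul_one]⟩
  | succ k ih =>
    obtain ⟨Q1, h1⟩ := A.mul_s Q
    obtain ⟨Q2, h2⟩ := ih Q1
    exact ⟨Q2, by rw [pow_succ', ← mul_assoc, h1, mul_assoc, h2, ← mul_assoc]⟩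

private lemma m1_s_inj (A : OpRing d) (k : ℕ) {Q Q' : A.ring} (h : A.s ^ k * Q = A.s ^ k * Q') :
    Q = Q' := by
  induction k with
  | zero => simpa using h
  | succ k ih =>
    apply ih
    rw [pow_succ', mul_assoc, mul_assoc] at h
    have h1 : A.s * (A.s ^ k * Q - A.s ^ k * Q') = 0 := by rw [mul_sub, h, sub_self]
    have h2 : (A.s ^ k * Q - A.s ^ k * Q').1.sym = 0 :=
      comp_vs_left_inj (congrArg (fun x : A.ring => x.1.sym) h1)
    have h3 : A.s ^ k * Q - A.s ^ k * Q' = 0 := Subtype.ext h2
    exact sub_eq_zero.1 h3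

/-- transport of lattices -/
private lemma m1_transport (A : OpRing d) {L L' : Type} [AddCommGroup L] [Module A.ring L]
    [AddCommGroup L'] [Module A.ring L'] (e : L ≃ₗ[A.ring] L') (h : A.RegLattice L) :
    A.RegLattice L' := by
  have hk : ∀ Q : A.ring, A.Kills L' Q → A.Kills L Q := fun Q hQ u => by
    obtain ⟨w, hw⟩ := hQ (e u)
    refine ⟨e.symm w, e.injective ?_⟩
    rw [map_smul, map_smul, hw, LinearEquiv.apply_symm_apply]
  have hk' : ∀ Q : A.ring, A.Kills L Q → A.Kills L' Q := fun Q hQ u => by
    obtain ⟨w, hw⟩ := hQ (e.symm u)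
    refine ⟨e w, ?_⟩
    rw [← map_smul, ← hw, map_smul, LinearEquiv.apply_symm_apply]
  refine ⟨?_, ?_, ?_, ?_⟩
  · have := h.fin
    exact Module.Finite.equiv e
  · intro u hu
    have h1 : A.s • e.symm u = 0 := by rw [← map_smul, hu, map_zero]
    have h2 := h.sinj _ h1
    rwa [LinearEquiv.map_eq_zero_iff] at h2
  · obtain ⟨m, b, hb⟩ := h.gen
    refine ⟨m, fun i => e (b i), fun u => ?_⟩
    obtain ⟨c, v, w, hu⟩ := hb (e.symm u)
    refine ⟨c, fun i => e (v i), e w, ?_⟩
    have h1 := congrArg e hu
    rw [LinearEquiv.apply_symm_apply] at h1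
    rw [h1, map_add, map_add, map_sum, map_sum, map_smul]
    simp only [map_smul]
  · rintro Q ⟨n, hn⟩
    exact hk' Q (h.reg Q ⟨n, hk _ hn⟩)


private lemma m1_pow_inj {M : Type} [AddCommGroup M] [Module (Formal d).ring M]
    (hb : Function.Bijective fun u : M => (Formal d).s • u) (k : ℕ) {u u' : M}
    (h : (Formal d).s ^ k • u = (Formal d).s ^ k • u') : u = u' := by
  induction k generalizing u u' with
  | zero => simpa using h
  | succ k ih =>
    rw [pow_succ, mul_smul, mul_smul] at h
    exact hb.1 (ih h)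

private lemma m1_pow_surj {M : Type} [AddCommGroup M] [Module (Formal d).ring M]
    (hb : Function.Bijective fun u : M => (Formal d).s • u) (k : ℕ) (u : M) :
    ∃ w : M, (Formal d).s ^ k • w = u := by
  induction k generalizing u with
  | zero => exact ⟨u, by rw [pow_zero, one_smul]⟩
  | succ k ih =>
    obtain ⟨w, hw⟩ := ih u
    obtain ⟨w', hw'⟩ := hb.2 w
    refine ⟨w', ?_⟩
    have h1 : (Formal d).s • w' = w := hw'
    rw [pow_succ, mul_smul, h1, hw]

private lemma m1_smul_pow {M : Type} [AddCommGroup M] [Module (Formal d).ring M] (k : ℕ) (u : M) :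
    (Micro d).s ^ k • (Res.of u : Res M) = Res.of ((Formal d).s ^ k • u) := by
  rw [Res.smul_def, map_pow]
  rfl

section

variable {M : Type} [AddCommGroup M] [Module (Formal d).ring M]
  {L : Submodule (Formal d).ring M} {m : ℕ}

/-- the inclusion of the span of the family -/
private noncomputable def m1_inc (n : Fin m → L) : spn (d := d) n →ₗ[(Micro d).ring] Res M where
  toFun v := Res.of ((Res.out v.1 : L) : M)
  map_add' _ _ := rfl
  map_smul' _ _ := rfl

private lemma m1_inc_inj (n : Fin m → L) : Function.Injective (m1_inc (d := d) n) := by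
  intro u v h
  exact Subtype.ext (Subtype.ext h)

/-- the module over `E(0)[1/s]` -/
private noncomputable def m1_N (n : Fin m → L) : Submodule (Micro d).ring (Res M) where
  carrier := {u | ∃ (k : ℕ) (v : spn (d := d) n), (Micro d).s ^ k • u = m1_inc n v}
  add_mem' := by
    rintro u u' ⟨k, v, hv⟩ ⟨k', v', hv'⟩
    refine ⟨k + k', (Micro d).s ^ k' • v + (Micro d).s ^ k • v', ?_⟩
    rw [map_add, map_smul, map_smul, ← hv, ← hv', smul_add, smul_smul, smul_smul, ← pow_add,
      ← pow_add, add_comm k' k]
  zero_mem' := ⟨0, 0, by rw [smul_zero, map_zero]⟩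
  smul_mem' := by
    rintro a u ⟨k, v, hv⟩
    obtain ⟨a', ha'⟩ := m1_s_mul_pow (Micro d) k a
    refine ⟨k, a' • v, ?_⟩
    rw [smul_smul, ha', mul_smul, hv, map_smul]

private lemma m1_bij (hb : Function.Bijective fun u : M => (Formal d).s • u) (n : Fin m → L) :
    Function.Bijective fun u : m1_N (d := d) n => (Micro d).s • u := by
  constructor
  · intro u v h
    have h1 : (Formal d).s • Res.out u.1 = (Formal d).s • Res.out v.1 := congrArg Subtype.val h
    exact Subtype.ext (hb.1 h1)
  · rintro ⟨u, k, v, hv⟩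
    obtain ⟨w, hw⟩ := hb.2 (Res.out u)
    have hw' : (Micro d).s • (Res.of w : Res M) = u := hw
    refine ⟨⟨Res.of w, k + 1, v, ?_⟩, Subtype.ext hw'⟩
    rw [pow_succ, mul_smul, hw', hv]

/-- the lattice in the module -/
private noncomputable def m1_lat (n : Fin m → L) :
    spn (d := d) n →ₗ[(Micro d).ring] m1_N (d := d) n :=
  (m1_inc n).codRestrict _ fun v => ⟨0, v, by rw [pow_zero, one_smul]⟩

private lemma m1_lat_inj (n : Fin m → L) : Function.Injective (m1_lat (d := d) n) := by
  intro u v h
  have h1 : m1_inc n u = m1_inc n v := congrArg (fun x : m1_N (d := d) n => x.1) h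
  exact m1_inc_inj n h1

private lemma m1_hol (hb : Function.Bijective fun u : M => (Formal d).s • u) (n : Fin m → L)
    (h : (Micro d).RegLattice (spn (d := d) n)) : (Micro d).RegHol (m1_N (d := d) n) := by
  refine ⟨m1_bij hb n, LinearMap.range (m1_lat n), ?_, ?_⟩
  · exact m1_transport (Micro d) (LinearEquiv.ofInjective (m1_lat n) (m1_lat_inj n)) h
  · rintro ⟨u, k, v, hv⟩
    exact ⟨k, v, Subtype.ext hv.symm⟩

/-- the family divided by `s ^ k` -/
private lemma m1_exists_nu (hb : Function.Bijective fun u : M => (Formal d).s • u)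
    (n : Fin m → L) (k : ℕ) (i : Fin m) :
    ∃ ν : m1_N (d := d) n, (Formal d).s ^ k • Res.out ν.1 = (n i : M) := by
  obtain ⟨w, hw⟩ := m1_pow_surj hb k (n i : M)
  refine ⟨⟨Res.of w, k, ⟨Res.of (n i), Submodule.subset_span ⟨i, rfl⟩⟩, ?_⟩, hw⟩
  rw [m1_smul_pow, hw]
  rfl

private lemma m1_rep (hb : Function.Bijective fun u : M => (Formal d).s • u) (n : Fin m → L)
    (ν : ℕ → Fin m → m1_N (d := d) n)
    (hν : ∀ k i, (Formal d).s ^ k • Res.out (ν k i).1 = (n i : M)) (u : m1_N (d := d) n) :
    ∃ K : ℕ, ∀ k, K ≤ k → ∃ a : Fin m → (Micro d).ring, u = ∑ i, a i • ν k i := by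
  obtain ⟨u, K, v, hv⟩ := u
  refine ⟨K, fun k hk => ?_⟩
  have h1 : (Micro d).s ^ k • u = m1_inc n ((Micro d).s ^ (k - K) • v) := by
    rw [map_smul, ← hv, smul_smul, ← pow_add, Nat.sub_add_cancel hk]
  obtain ⟨a, ha⟩ := (Submodule.mem_span_range_iff_exists_fun (Micro d).ring).1
    ((Micro d).s ^ (k - K) • v).2
  have h2 : (Micro d).s ^ k • u = ∑ i, a i • (Res.of (n i : M) : Res M) := by
    rw [h1]
    have h3 : (m1_inc n ((Micro d).s ^ (k - K) • v) : M) =
        ((Res.out ((Micro d).s ^ (k - K) • v : spn (d := d) n).1 : L) : M) := rfl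
    have h4 : ((Res.out (∑ i, a i • (Res.of (n i) : Res L)) : L) : M) =
        Res.out (∑ i, a i • (Res.of (n i : M) : Res M)) := by
      have h5 : ∀ s : Finset (Fin m), ((Res.out (∑ i ∈ s, a i • (Res.of (n i) : Res L)) : L) : M) =
          Res.out (∑ i ∈ s, a i • (Res.of (n i : M) : Res M)) := by
        intro s
        induction s using Finset.induction_on with
        | empty => rfl
        | insert i s hi ih =>
          rw [Finset.sum_insert hi, Finset.sum_insert hi]
          exact congrArg₂ (fun x y : M => x + y) rfl ih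
      exact h5 Finset.univ
    rw [ha] at h4
    exact h3.trans h4
  choose a' ha' using fun i => m1_mul_s_pow (Micro d) k (a i)
  refine ⟨a', ?_⟩
  have h6 : (Micro d).s ^ k • u = (Micro d).s ^ k • (∑ i, a' i • ν k i : m1_N (d := d) n).1 := by
    rw [h2, Submodule.coe_sum, Finset.smul_sum]
    refine Finset.sum_congr rfl fun i _ => ?_
    have h7 : (Res.of (n i : M) : Res M) = (Micro d).s ^ k • (ν k i).1 := by
      have h8 := m1_smul_pow (d := d) k (Res.out (ν k i).1)
      rw [hν k i] at h8
      exact h8.symm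
    rw [h7, smul_smul, ha', mul_smul, Submodule.coe_smul]
  have h9 := m1_smul_pow (d := d) k (Res.out u)
  have h10 := m1_smul_pow (d := d) k (Res.out (∑ i, a' i • ν k i : m1_N (d := d) n).1)
  exact Subtype.ext (m1_pow_inj hb k (h9.symm.trans (h6.trans h10)))

end

/-- row m1: from a family in the lattice `L ⊆ M`, `N = {u : s^k u ∈ span of the family for some k}` -/
theorem exists_ext_M {M : Type} [AddCommGroup M] [Module (Formal d).ring M]
    (h : (Formal d).RegHol M) : ∃ (N : Type) (_ : AddCommGroup N) (_ : Module (Micro d).ring N),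
      (Micro d).RegHol N ∧ Nonempty (Ext (iot d) N ≃ₗ[(Formal d).ring] M) := by
  classical
  obtain ⟨L, hL, hLM⟩ := h.lat
  obtain ⟨m, n, hn⟩ := exists_fam hL
  have hb := h.bij
  choose ν hν using m1_exists_nu (d := d) hb n
  refine ⟨m1_N (d := d) n, inferInstance, inferInstance, m1_hol hb n hn.lat, ?_⟩
  let φ : m1_N (d := d) n →+ M :=
    { toFun := fun u => Res.out u.1
      map_zero' := rfl
      map_add' := fun _ _ => rfl }
  have hφ : ∀ (a : (Micro d).ring) (u : m1_N (d := d) n), φ (a • u) = iot d a • φ u :=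
    fun _ _ => rfl
  obtain ⟨F, hF⟩ := exists_lift (iot d) φ hφ
  have hφν : ∀ k i, (Formal d).s ^ k • φ (ν k i) = (n i : M) := hν
  -- representation of the elements
  have hrep : ∀ z : Ext (iot d) (m1_N (d := d) n), ∃ K : ℕ, ∀ k, K ≤ k →
      ∃ f : Fin m → (Formal d).ring, z = ∑ i, tm (iot d) (f i) (ν k i) := by
    intro z
    refine ext_induction (iot d) (p := fun z => ∃ K : ℕ, ∀ k, K ≤ k →
      ∃ f : Fin m → (Formal d).ring, z = ∑ i, tm (iot d) (f i) (ν k i)) ?_ ?_ z
    · intro b u
      obtain ⟨K, hK⟩ := m1_rep hb n ν hν u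
      refine ⟨K, fun k hk => ?_⟩
      obtain ⟨a, ha⟩ := hK k hk
      refine ⟨fun i => b * iot d (a i), ?_⟩
      rw [ha, tm_sum_right]
      exact Finset.sum_congr rfl fun i _ => (tm_mul (iot d) b (a i) (ν k i)).symm
    · rintro u v ⟨K, hK⟩ ⟨K', hK'⟩
      refine ⟨max K K', fun k hk => ?_⟩
      obtain ⟨f, hf⟩ := hK k ((le_max_left _ _).trans hk)
      obtain ⟨g, hg⟩ := hK' k ((le_max_right _ _).trans hk)
      refine ⟨fun i => f i + g i, ?_⟩
      rw [hf, hg, ← Finset.sum_add_distrib]
      exact Finset.sum_congr rfl fun i _ => (tm_add_left (iot d) (f i) (g i) (ν k i)).symm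
  have hinj : Function.Injective F := by
    rw [injective_iff_map_eq_zero]
    intro z hz
    obtain ⟨k, hk⟩ := hrep z
    obtain ⟨f, hf⟩ := hk k le_rfl
    have h1 : ∑ i, f i • φ (ν k i) = 0 := by
      rw [← hz, hf, map_sum]
      exact Finset.sum_congr rfl fun i _ => (hF (f i) (ν k i)).symm
    choose f'' hf'' using fun i => m1_s_mul_pow (Formal d) k (f i)
    have h2 : ∑ i, f'' i • n i = 0 := by
      refine Subtype.ext ?_
      rw [Submodule.coe_sum, Submodule.coe_zero]
      have h3 : ∀ i, ((f'' i • n i : L) : M) = (Formal d).s ^ k • f i • φ (ν k i) := fun i => by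
        rw [Submodule.coe_smul, ← hφν k i, smul_smul, ← hf'', mul_smul]
      rw [Finset.sum_congr rfl fun i _ => h3 i, ← Finset.smul_sum, h1, smul_zero]
    obtain ⟨q, c, b, hb0, hfb⟩ := hn.rel f'' h2
    choose b' hb' using fun l i => m1_mul_s_pow (Micro d) k (b l i)
    choose c' hc' using fun l => m1_mul_s_pow (Formal d) k (c l)
    have hib : ∀ l i, iot d (b l i) * (Formal d).s ^ k = (Formal d).s ^ k * iot d (b' l i) := by
      intro l i
      have h3 := congrArg (iot d) (hb' l i)
      rw [map_mul, map_mul, map_pow] at h3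
      exact h3
    have h4 : ∀ l, ∑ i, b' l i • ν k i = 0 := by
      intro l
      refine Subtype.ext ?_
      have h5 : φ (∑ i, b' l i • ν k i) = 0 := by
        refine m1_pow_inj hb k ?_
        rw [map_sum, smul_zero, Finset.smul_sum]
        have h6 := congrArg (fun x : L => (x : M)) (hb0 l)
        simp only [Submodule.coe_sum, Submodule.coe_zero, Submodule.coe_smul] at h6
        rw [← h6]
        refine Finset.sum_congr rfl fun i _ => ?_
        rw [hφ, smul_smul, ← hib, mul_smul, hφν]
      exact h5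
    have h7 : ∀ i, f i = ∑ l, c' l * iot d (b' l i) := by
      intro i
      refine m1_s_inj (Formal d) k ?_
      rw [hf'', hfb, Finset.sum_mul, Finset.mul_sum]
      refine Finset.sum_congr rfl fun l _ => ?_
      rw [mul_assoc, hib, ← mul_assoc, hc', mul_assoc]
    rw [hf]
    have h8 : ∀ i, tm (iot d) (f i) (ν k i) = ∑ l, tm (iot d) (c' l) (b' l i • ν k i) := by
      intro i
      rw [h7 i, tm_sum_left]
      exact Finset.sum_congr rfl fun l _ => tm_mul (iot d) (c' l) (b' l i) (ν k i)
    rw [Finset.sum_congr rfl fun i _ => h8 i, Finset.sum_comm]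
    refine Finset.sum_eq_zero fun l _ => ?_
    rw [← tm_sum_right, h4, tm_zero_right]
  have hsurj : Function.Surjective F := by
    intro u
    obtain ⟨k, hk⟩ := hLM u
    obtain ⟨f, hf⟩ := hn.gen ⟨(Formal d).s ^ k • u, hk⟩
    have hf1 : (Formal d).s ^ k • u = ∑ i, f i • (n i : M) := by
      have h3 := congrArg (fun x : L => (x : M)) hf
      simp only [Submodule.coe_sum, Submodule.coe_smul] at h3
      exact h3
    choose f' hf' using fun i => m1_mul_s_pow (Formal d) k (f i)
    refine ⟨∑ i, tm (iot d) (f' i) (ν k i), m1_pow_inj hb k ?_⟩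
    rw [hf1, map_sum, Finset.smul_sum]
    refine Finset.sum_congr rfl fun i _ => ?_
    rw [hF, ← hφν k i, smul_smul, smul_smul, hf']
  exact ⟨LinearEquiv.ofBijective F ⟨hinj, hsurj⟩⟩

end Pool.Agent.Ep
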