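import Mathlib

/-!
# The Leibniz product, algebraic part (P11, block A, helper39)

`A` is a commutative `ℂ`-algebra with finitely many derivations `D i`, `B i`, all of which commute.
`leib n f g = ∑_{|α| = n} (1/α!) (D^α f) (B^α g)`, defined by the recursion
`(n+1) leib (n+1) f g = ∑_i leib n (D i f) (B i g)`.
-/

set_option autoImplicit false

namespace Pool.Agent.Ep

variable {A : Type} [CommRing A] [Algebra ℂ A] {ι : Type} [Fintype ι]

/-- the terms of order `n` of the Leibniz formula,
`leib n f g = ∑_{|α| = n} (1/α!) (D^α f) (B^α g)` -/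
noncomputable def leib (D B : ι → Derivation ℂ A A) : ℕ → A → A → A
  | 0, f, g => f * g
  | n + 1, f, g => ((n : ℂ) + 1)⁻¹ • ∑ i, leib D B n (D i f) (B i g)

/-- all derivations commute -/
structure Com (D B : ι → Derivation ℂ A A) : Prop where
  DD : ∀ i j f, D i (D j f) = D j (D i f)
  BB : ∀ i j f, B i (B j f) = B j (B i f)
  DB : ∀ i j f, D i (B j f) = B j (D i f)

section leib

variable (D B : ι → Derivation ℂ A A)

/-! ## row l1 -/

lemma leib_zero (f g : A) : leib D B 0 f g = f * g := rfl

lemma leib_succ (n : ℕ) (f g : A) :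
    leib D B (n + 1) f g = ((n : ℂ) + 1)⁻¹ • ∑ i, leib D B n (D i f) (B i g) := rfl

lemma leib_add_left (n : ℕ) (f f' g : A) :
    leib D B n (f + f') g = leib D B n f g + leib D B n f' g := by
  induction n generalizing f f' g with
  | zero => simp only [leib_zero, add_mul]
  | succ n ih => simp only [leib_succ, map_add, ih, Finset.sum_add_distrib, smul_add]

lemma leib_add_right (n : ℕ) (f g g' : A) :
    leib D B n f (g + g') = leib D B n f g + leib D B n f g' := by
  induction n generalizing f g g' with
  | zero => simp only [leib_zero, mul_add]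
  | succ n ih => simp only [leib_succ, map_add, ih, Finset.sum_add_distrib, smul_add]

lemma leib_smul_left (n : ℕ) (c : ℂ) (f g : A) :
    leib D B n (c • f) g = c • leib D B n f g := by
  induction n generalizing f g with
  | zero => simp only [leib_zero, smul_mul_assoc]
  | succ n ih =>
    simp only [leib_succ, Derivation.map_smul, ih, ← Finset.smul_sum]
    rw [smul_comm]

lemma leib_smul_right (n : ℕ) (c : ℂ) (f g : A) :
    leib D B n f (c • g) = c • leib D B n f g := by
  induction n generalizing f g with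
  | zero => simp only [leib_zero, mul_smul_comm]
  | succ n ih =>
    simp only [leib_succ, Derivation.map_smul, ih, ← Finset.smul_sum]
    rw [smul_comm]

lemma leib_zero_left (n : ℕ) (g : A) : leib D B n 0 g = 0 := by
  have h := leib_smul_left D B n 0 0 g
  rwa [zero_smul, zero_smul] at h

lemma leib_zero_right (n : ℕ) (f : A) : leib D B n f 0 = 0 := by
  have h := leib_smul_right D B n 0 f 0
  rwa [zero_smul, zero_smul] at h

lemma leib_sum_left {κ : Type} (s : Finset κ) (n : ℕ) (f : κ → A) (g : A) :
    leib D B n (∑ k ∈ s, f k) g = ∑ k ∈ s, leib D B n (f k) g := by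
  classical
  induction s using Finset.induction_on with
  | empty => simp only [Finset.sum_empty, leib_zero_left]
  | insert a s ha ih => rw [Finset.sum_insert ha, Finset.sum_insert ha, leib_add_left, ih]

lemma leib_sum_right {κ : Type} (s : Finset κ) (n : ℕ) (f : A) (g : κ → A) :
    leib D B n f (∑ k ∈ s, g k) = ∑ k ∈ s, leib D B n f (g k) := by
  classical
  induction s using Finset.induction_on with
  | empty => simp only [Finset.sum_empty, leib_zero_right]
  | insert a s ha ih => rw [Finset.sum_insert ha, Finset.sum_insert ha, leib_add_right, ih]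

/-- if all `D i f` vanish, only the term of order `0` remains -/
lemma leib_eq_zero_left {f : A} (h : ∀ i, D i f = 0) (n : ℕ) (g : A) :
    leib D B (n + 1) f g = 0 := by
  rw [leib_succ, Finset.sum_eq_zero fun i _ => by rw [h i, leib_zero_left], smul_zero]

lemma leib_eq_zero_right {g : A} (h : ∀ i, B i g = 0) (n : ℕ) (f : A) :
    leib D B (n + 1) f g = 0 := by
  rw [leib_succ, Finset.sum_eq_zero fun i _ => by rw [h i, leib_zero_right], smul_zero]

/-! ## row l2 -/

/-- a derivation which commutes with all `D i`, `B i` satisfies the product rule for `leib n` -/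
lemma der_leib (E : Derivation ℂ A A) (hD : ∀ i f, E (D i f) = D i (E f))
    (hB : ∀ i f, E (B i f) = B i (E f)) (n : ℕ) (f g : A) :
    E (leib D B n f g) = leib D B n (E f) g + leib D B n f (E g) := by
  induction n generalizing f g with
  | zero =>
    simp only [leib_zero, Derivation.leibniz, smul_eq_mul]
    ring
  | succ n ih =>
    rw [leib_succ, leib_succ, leib_succ, Derivation.map_smul, map_sum, ← smul_add,
      ← Finset.sum_add_distrib]
    simp only [ih, hD, hB]

private lemma l2_succ (n : ℕ) (f g : A) :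
    ((n : ℂ) + 1) • leib D B (n + 1) f g = ∑ i, leib D B n (D i f) (B i g) := by
  have hn : ((n : ℂ) + 1) ≠ 0 := by exact_mod_cast Nat.succ_ne_zero n
  rw [leib_succ, smul_smul, mul_inv_cancel₀ hn, one_smul]

private lemma l2_split (N : ℕ) (F : ℕ × ℕ → A) :
    ((N : ℂ) + 1) • ∑ p ∈ Finset.HasAntidiagonal.antidiagonal (N + 1), F p =
      ∑ p ∈ Finset.HasAntidiagonal.antidiagonal N, ((p.1 : ℂ) + 1) • F (p.1 + 1, p.2) +
      ∑ p ∈ Finset.HasAntidiagonal.antidiagonal N, ((p.2 : ℂ) + 1) • F (p.1, p.2 + 1) := by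
  have h1 : ((N : ℂ) + 1) • ∑ p ∈ Finset.HasAntidiagonal.antidiagonal (N + 1), F p =
      ∑ p ∈ Finset.HasAntidiagonal.antidiagonal (N + 1), (p.1 : ℂ) • F p +
      ∑ p ∈ Finset.HasAntidiagonal.antidiagonal (N + 1), (p.2 : ℂ) • F p := by
    rw [Finset.smul_sum, ← Finset.sum_add_distrib]
    refine Finset.sum_congr rfl fun p hp => ?_
    rw [← add_smul]
    congr 1
    have := Finset.HasAntidiagonal.mem_antidiagonal.1 hp
    have h2 : ((p.1 + p.2 : ℕ) : ℂ) = ((N + 1 : ℕ) : ℂ) := by rw [this]
    push_cast at h2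
    exact h2.symm
  rw [h1, Finset.Nat.sum_antidiagonal_succ, Finset.Nat.sum_antidiagonal_succ']
  simp

private lemma l2_X (h : Com D B) (N : ℕ) (f g k : A) :
    ((N : ℂ) + 1) • ∑ p ∈ Finset.HasAntidiagonal.antidiagonal (N + 1),
        leib D B p.1 (leib D B p.2 f g) k =
      ∑ i, ((∑ p ∈ Finset.HasAntidiagonal.antidiagonal N,
          leib D B p.1 (leib D B p.2 (D i f) g) (B i k)) +
        (∑ p ∈ Finset.HasAntidiagonal.antidiagonal N,
          leib D B p.1 (leib D B p.2 f (D i g)) (B i k)) +
        ∑ p ∈ Finset.HasAntidiagonal.antidiagonal N,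
          leib D B p.1 (leib D B p.2 (D i f) (B i g)) k) := by
  rw [l2_split N (fun p => leib D B p.1 (leib D B p.2 f g) k)]
  rw [Finset.sum_add_distrib, Finset.sum_add_distrib]
  congr 1
  · rw [← Finset.sum_add_distrib, Finset.sum_congr rfl (fun p _ => l2_succ D B p.1 _ _),
      Finset.sum_comm]
    refine Finset.sum_congr rfl fun i _ => ?_
    rw [← Finset.sum_add_distrib]
    refine Finset.sum_congr rfl fun p _ => ?_
    rw [der_leib D B (D i) (fun j x => h.DD i j x) (fun j x => h.DB i j x), leib_add_left]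
  · rw [Finset.sum_comm]
    refine Finset.sum_congr rfl fun p _ => ?_
    simp only
    rw [← leib_smul_left, l2_succ, leib_sum_left]

private lemma l2_Y (h : Com D B) (N : ℕ) (f g k : A) :
    ((N : ℂ) + 1) • ∑ p ∈ Finset.HasAntidiagonal.antidiagonal (N + 1),
        leib D B p.1 f (leib D B p.2 g k) =
      ∑ i, ((∑ p ∈ Finset.HasAntidiagonal.antidiagonal N,
          leib D B p.1 (D i f) (leib D B p.2 g (B i k))) +
        (∑ p ∈ Finset.HasAntidiagonal.antidiagonal N,
          leib D B p.1 f (leib D B p.2 (D i g) (B i k))) +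
        ∑ p ∈ Finset.HasAntidiagonal.antidiagonal N,
          leib D B p.1 (D i f) (leib D B p.2 (B i g) k)) := by
  rw [l2_split N (fun p => leib D B p.1 f (leib D B p.2 g k))]
  have h1 : ∑ p ∈ Finset.HasAntidiagonal.antidiagonal N,
      ((p.1 : ℂ) + 1) • leib D B (p.1 + 1) f (leib D B p.2 g k) =
      ∑ i, ((∑ p ∈ Finset.HasAntidiagonal.antidiagonal N,
          leib D B p.1 (D i f) (leib D B p.2 g (B i k))) +
        ∑ p ∈ Finset.HasAntidiagonal.antidiagonal N,
          leib D B p.1 (D i f) (leib D B p.2 (B i g) k)) := by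
    rw [Finset.sum_congr rfl (fun p _ => l2_succ D B p.1 _ _), Finset.sum_comm]
    refine Finset.sum_congr rfl fun i _ => ?_
    rw [← Finset.sum_add_distrib]
    refine Finset.sum_congr rfl fun p _ => ?_
    rw [der_leib D B (B i) (fun j x => (h.DB j i x).symm) (fun j x => h.BB i j x), leib_add_right,
      add_comm]
  have h2 : ∑ p ∈ Finset.HasAntidiagonal.antidiagonal N,
      ((p.2 : ℂ) + 1) • leib D B p.1 f (leib D B (p.2 + 1) g k) =
      ∑ i, ∑ p ∈ Finset.HasAntidiagonal.antidiagonal N,
          leib D B p.1 f (leib D B p.2 (D i g) (B i k)) := by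
    rw [Finset.sum_comm]
    refine Finset.sum_congr rfl fun p _ => ?_
    rw [← leib_smul_right, l2_succ, leib_sum_right]
  simp only
  rw [h1, h2, ← Finset.sum_add_distrib]
  refine Finset.sum_congr rfl fun i _ => ?_
  abel

/-- associativity, order by order. Proof by induction on `N` for all `f`, `g`, `h`: both sides `X N`
satisfy `(N+1) X (N+1) (f,g,h) = ∑_i X N (D i f, B i g, h) + X N (D i f, g, B i h) + X N (f, D i g, B i h)`:
write `N + 1 = p.1 + p.2`, use `(p.1) leib p.1 (u) h = ∑ leib (p.1 - 1) (D i u) (B i h)` together with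
`der_leib`, and `(p.2) leib p.2 f g = ∑ leib (p.2 - 1) (D i f) (B i g)`. -/
theorem leib_assoc (h : Com D B) (N : ℕ) (f g k : A) :
    ∑ p ∈ Finset.HasAntidiagonal.antidiagonal N, leib D B p.1 (leib D B p.2 f g) k
      = ∑ p ∈ Finset.HasAntidiagonal.antidiagonal N, leib D B p.1 f (leib D B p.2 g k) := by
  induction N generalizing f g k with
  | zero =>
    simp only [Finset.HasAntidiagonal.antidiagonal_zero, Finset.sum_singleton, leib_zero]
    exact mul_assoc _ _ _
  | succ N ih =>
    have hN : ((N : ℂ) + 1) ≠ 0 := by exact_mod_cast Nat.succ_ne_zero N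
    have key : ((N : ℂ) + 1) • ∑ p ∈ Finset.HasAntidiagonal.antidiagonal (N + 1),
          leib D B p.1 (leib D B p.2 f g) k =
        ((N : ℂ) + 1) • ∑ p ∈ Finset.HasAntidiagonal.antidiagonal (N + 1),
          leib D B p.1 f (leib D B p.2 g k) := by
      rw [l2_X D B h, l2_Y D B h]
      refine Finset.sum_congr rfl fun i _ => ?_
      rw [ih, ih, ih]
    have := congrArg (fun u => ((N : ℂ) + 1)⁻¹ • u) key
    simpa [smul_smul, inv_mul_cancel₀ hN] using this

end leib

end Pool.Agent.Ep
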