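import Pool.Agent.Ep.Var
import Pool.Agent.Ep.Leib

/-!
# Microdifferential operators of order `≤ 0` at `p = (0; dt)` (P11, block A, helper39)

`X = ℂ^d × ℂ`, coordinates `x_1, …, x_d, t`, dual coordinates `ξ_i`, `τ`. Near `p = (0; dt)` a
homogeneous function of degree `-j` is `a(x, t, y) s^j` with `s = 1/τ`, `y_i = ξ_i/τ`. An operator
of order `≤ 0` is given by its total symbol `f = ∑_j a_j(x, t, y) s^j`, a power series in `x, t, y, s`.
The product of operators is the Leibniz formula
`f ∘ g = ∑_α (1/α!) (∂_{ξ,τ}^α f) (∂_{x,t}^α g)`, where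
`∂_{ξ_i} = s ∂_{y_i}` and `∂_τ = - s (s ∂_s + ∑ y_i ∂_{y_i})`.
-/

set_option autoImplicit false

namespace Pool.Agent.Ep

open MvPowerSeries

variable {d : ℕ}

/-- `∂_τ` (for `none`) and `∂_{ξ_i}` (for `some i`) on symbols -/
noncomputable def D : Option (Fin d) → Derivation ℂ (Sym d) (Sym d)
  | none => -((vs : Sym d) • ((vs : Sym d) • pderiv ℂ none + ∑ i, vy i • pderiv ℂ (some (.y i))))
  | some i => (vs : Sym d) • pderiv ℂ (some (.y i))

/-- `∂_t` (for `none`) and `∂_{x_i}` (for `some i`) on symbols -/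
noncomputable def B : Option (Fin d) → Derivation ℂ (Sym d) (Sym d)
  | none => pderiv ℂ (some .t)
  | some i => pderiv ℂ (some (.x i))

/-- the terms of order `n` of the Leibniz formula -/
noncomputable abbrev lb (n : ℕ) (f g : Sym d) : Sym d := leib D B n f g

/-- The total symbol of the composition of two operators, `∑_n lb n f g`. The term `lb n f g` is
divisible by `s ^ n`, so that each coefficient is a finite sum. -/
noncomputable def comp (f g : Sym d) : Sym d :=
  fun m => ∑ n ∈ Finset.range (m none + 1), coeff m (lb n f g)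

/-- formal operators of order `≤ 0` without any condition on the coefficients; the product is the
Leibniz product -/
def Op (d : ℕ) : Type := Sym d

noncomputable instance : AddCommGroup (Op d) := inferInstanceAs (AddCommGroup (Sym d))
noncomputable instance : Module ℂ (Op d) := inferInstanceAs (Module ℂ (Sym d))

/-- the operator with a given symbol -/
def op (f : Sym d) : Op d := f
/-- the symbol of an operator -/
def Op.sym (P : Op d) : Sym d := P

@[simp] lemma sym_op (f : Sym d) : (op f).sym = f := rfl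
@[simp] lemma op_sym (P : Op d) : op P.sym = P := rfl
@[ext] lemma Op.ext {P Q : Op d} (h : P.sym = Q.sym) : P = Q := h
@[simp] lemma sym_add (P Q : Op d) : (P + Q).sym = P.sym + Q.sym := rfl
@[simp] lemma sym_zero : (0 : Op d).sym = 0 := rfl
@[simp] lemma sym_neg (P : Op d) : (-P).sym = -P.sym := rfl
@[simp] lemma sym_sub (P Q : Op d) : (P - Q).sym = P.sym - Q.sym := rfl
@[simp] lemma sym_smul (c : ℂ) (P : Op d) : (c • P).sym = c • P.sym := rfl
@[simp] lemma op_add (f g : Sym d) : op (f + g) = op f + op g := rfl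
@[simp] lemma op_zero : op (0 : Sym d) = 0 := rfl
@[simp] lemma op_neg (f : Sym d) : op (-f) = -op f := rfl
@[simp] lemma op_sub (f g : Sym d) : op (f - g) = op f - op g := rfl
@[simp] lemma op_smul (c : ℂ) (f : Sym d) : op (c • f) = c • op f := rfl
@[simp] lemma op_sum {κ : Type} (s : Finset κ) (f : κ → Sym d) :
    op (∑ k ∈ s, f k) = ∑ k ∈ s, op (f k) := rfl
@[simp] lemma sym_sum {κ : Type} (s : Finset κ) (f : κ → Op d) :
    (∑ k ∈ s, f k).sym = ∑ k ∈ s, (f k).sym := rfl

/-! ## row c1: all derivations commute -/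

-- row c1 of Defs.lean (helper75): paste in place of the stub com_DB (needs open MvPowerSeries, variable {d : ℕ})
private lemma c1_comm {σ : Type} (i j : σ) (f : MvPowerSeries σ ℂ) :
    pderiv ℂ i (pderiv ℂ j f) = pderiv ℂ j (pderiv ℂ i f) := by
  classical
  ext n
  rw [coeff_pderiv, coeff_pderiv, coeff_pderiv, coeff_pderiv]
  by_cases h : i = j
  · subst h; rfl
  · have h1 : (n + Finsupp.single i 1 : σ →₀ ℕ) j = n j := by
      simp [Finsupp.add_apply, h]
    have h2 : (n + Finsupp.single j 1 : σ →₀ ℕ) i = n i := by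
      simp [Finsupp.add_apply, Ne.symm h]
    have h3 : n + Finsupp.single i 1 + Finsupp.single j 1
        = n + Finsupp.single j 1 + Finsupp.single i 1 := by
      rw [add_assoc, add_assoc, add_comm (Finsupp.single i 1)]
    rw [h1, h2, h3]
    ring

private lemma c1_Dnone (f : Sym d) : D none f = -(vs * (vs * pderiv ℂ none f
    + ∑ i : Fin d, vy i * pderiv ℂ (some (Var.y i)) f)) := by
  simp only [D, Derivation.neg_apply, Derivation.smul_apply, Derivation.add_apply, smul_eq_mul]
  congr 3
  rw [← Derivation.coeFnAddMonoidHom_apply, map_sum, Finset.sum_apply]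
  rfl

private lemma c1_Dsome (i : Fin d) (f : Sym d) :
    D (some i) f = vs * pderiv ℂ (some (Var.y i)) f := by
  simp [D, Derivation.smul_apply, smul_eq_mul]

private lemma c1_s {v : Option (Var d)} (h : v ≠ none) : pderiv ℂ v (vs : Sym d) = 0 :=
  pderiv_X_of_ne (Ne.symm h)

private lemma c1_y {v : Option (Var d)} {i : Fin d} (h : v ≠ some (Var.y i)) :
    pderiv ℂ v (vy i : Sym d) = 0 :=
  pderiv_X_of_ne (Ne.symm h)

private lemma c1_bsome (i j : Option (Fin d)) (f : Sym d) : B i (B j f) = B j (B i f) := by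
  cases i <;> cases j <;> simp only [B] <;> exact c1_comm _ _ _

private lemma c1_D_of (v : Option (Var d)) (h0 : v ≠ none) (h1 : ∀ i, v ≠ some (Var.y i))
    (i : Option (Fin d)) (f : Sym d) : D i (pderiv ℂ v f) = pderiv ℂ v (D i f) := by
  cases i with
  | none =>
    rw [c1_Dnone, c1_Dnone, map_neg, Derivation.leibniz, c1_s h0, map_add, map_sum]
    simp only [Derivation.leibniz, c1_s h0, c1_y (h1 _), smul_eq_mul, mul_zero, add_zero]
    simp only [c1_comm _ v]
  | some i =>
    rw [c1_Dsome, c1_Dsome, Derivation.leibniz, c1_s h0]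
    simp only [smul_eq_mul, mul_zero, add_zero, c1_comm _ v]

lemma com_DB : Com (D : Option (Fin d) → _) B := by
  have hsn : pderiv ℂ (none : Option (Var d)) (vs : Sym d) = 1 := pderiv_X_self
  have hss : ∀ j : Fin d, pderiv ℂ (some (Var.y j)) (vs : Sym d) = 0 := fun j => c1_s (by simp)
  have key : ∀ (j : Fin d) (f : Sym d), D none (D (some j) f) = D (some j) (D none f) := by
    intro j f
    classical
    rw [c1_Dsome, c1_Dnone, c1_Dsome, c1_Dnone]
    have hy : ∀ i : Fin d, pderiv ℂ (some (Var.y j)) (vy i : Sym d)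
        = if i = j then 1 else 0 := by
      intro i
      by_cases h : i = j
      · subst h; simp only [if_true]; exact pderiv_X_self
      · rw [if_neg h]; exact c1_y (by simpa using Ne.symm h)
    simp only [map_neg, map_add, map_sum, Derivation.leibniz, hsn, hss, hy, smul_eq_mul, mul_zero, add_zero, mul_one,
      Finset.sum_add_distrib, mul_ite, Finset.sum_ite_eq', Finset.mem_univ,
      if_true, c1_comm _ (some (Var.y j))]
    have e1 : ∑ x : Fin d, vy x * (vs * pderiv ℂ (some (Var.y j)) (pderiv ℂ (some (Var.y x)) f))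
        = vs * ∑ x : Fin d, vy x * pderiv ℂ (some (Var.y j)) (pderiv ℂ (some (Var.y x)) f) := by
      rw [Finset.mul_sum]; exact Finset.sum_congr rfl fun x _ => by ring
    rw [e1]
    ring
  refine ⟨?_, c1_bsome, ?_⟩
  · intro i j f
    cases i with
    | none =>
      cases j with
      | none => rfl
      | some j => exact key j f
    | some i =>
      cases j with
      | none => exact (key i f).symm
      | some j =>
        rw [c1_Dsome, c1_Dsome, c1_Dsome, c1_Dsome, Derivation.leibniz, Derivation.leibniz,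
          hss, hss]
        simp only [smul_eq_mul, mul_zero, add_zero]
        rw [c1_comm]
  · intro i j f
    cases j with
    | none => exact c1_D_of _ (by simp) (by simp) i f
    | some j => exact c1_D_of _ (by simp) (by simp) i f

/-! ## row c2: the `s`-adic filtration -/

/-- the series divisible by `s ^ N` -/
def Fil (N : ℕ) (f : Sym d) : Prop := ∀ m, m none < N → coeff m f = 0

lemma Fil.zero (N : ℕ) : Fil N (0 : Sym d) := fun m _ => by simp
lemma Fil.mono {N M : ℕ} (h : M ≤ N) {f : Sym d} (hf : Fil N f) : Fil M f :=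
  fun m hm => hf m (by omega)
lemma fil_zero (f : Sym d) : Fil 0 f := fun m hm => by omega
lemma Fil.add {N : ℕ} {f g : Sym d} (hf : Fil N f) (hg : Fil N g) : Fil N (f + g) := by
  intro m hm
  rw [map_add, hf m hm, hg m hm, add_zero]

lemma Fil.smul {N : ℕ} {f : Sym d} (hf : Fil N f) (c : ℂ) : Fil N (c • f) := by
  intro m hm
  rw [map_smul, hf m hm, smul_zero]

lemma Fil.neg {N : ℕ} {f : Sym d} (hf : Fil N f) : Fil N (-f) := by
  intro m hm
  rw [map_neg, hf m hm, neg_zero]

lemma Fil.sum {N : ℕ} {κ : Type} (s : Finset κ) {f : κ → Sym d} (hf : ∀ k ∈ s, Fil N (f k)) :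
    Fil N (∑ k ∈ s, f k) := by
  intro m hm
  rw [map_sum]
  exact Finset.sum_eq_zero fun k hk => hf k hk m hm

lemma Fil.mul {N M : ℕ} {f g : Sym d} (hf : Fil N f) (hg : Fil M g) : Fil (N + M) (f * g) := by
  classical
  intro m hm
  rw [coeff_mul]
  refine Finset.sum_eq_zero fun p hp => ?_
  have h1 : p.1 + p.2 = m := Finset.HasAntidiagonal.mem_antidiagonal.1 hp
  have h2 : p.1 none + p.2 none = m none := by
    rw [← h1]
    rfl
  rcases Nat.lt_or_ge (p.1 none) N with h3 | h3
  · rw [hf _ h3, zero_mul]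
  · rw [hg _ (by omega), mul_zero]

private lemma c2_vs : Fil 1 (vs : Sym d) := by
  classical
  intro m hm
  unfold vs
  rw [coeff_X, if_neg]
  intro h
  rw [h] at hm
  simp at hm

private lemma c2_pd {N : ℕ} {f : Sym d} (hf : Fil N f) (v : Var d) :
    Fil N (pderiv ℂ (some v) f) := by
  intro m hm
  rw [coeff_pderiv, hf, zero_mul]
  have : (m + Finsupp.single (some v) 1 : Option (Var d) →₀ ℕ) none = m none := by
    rw [Finsupp.add_apply, Finsupp.single_apply, if_neg (by simp)]
    rfl
  rw [this]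
  exact hm

private lemma c2_pn {N : ℕ} {f : Sym d} (hf : Fil N f) : Fil (N - 1) (pderiv ℂ none f) := by
  intro m hm
  rw [coeff_pderiv, hf, zero_mul]
  rw [Finsupp.add_apply, Finsupp.single_apply, if_pos rfl]
  omega

private lemma c2_sum {κ : Type} (s : Finset κ) (F : κ → Derivation ℂ (Sym d) (Sym d))
    (f : Sym d) : (∑ i ∈ s, F i) f = ∑ i ∈ s, F i f := by
  have h := congrFun (map_sum (Derivation.coeFnAddMonoidHom :
    Derivation ℂ (Sym d) (Sym d) →+ _) F s) f
  rw [Finset.sum_apply] at h
  exact h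

lemma Fil.D {N : ℕ} {f : Sym d} (hf : Fil N f) (i : Option (Fin d)) : Fil (N + 1) (D i f) := by
  cases i with
  | some i =>
    have h := c2_vs.mul (c2_pd hf (.y i))
    rw [add_comm] at h
    exact h
  | none =>
    have h1 : Fil N (vs * pderiv ℂ none f) := by
      rcases Nat.eq_zero_or_pos N with h | h
      · subst h
        exact fil_zero _
      · have h2 := c2_vs.mul (c2_pn hf)
        rw [show 1 + (N - 1) = N by omega] at h2
        exact h2
    have h2 : Fil N (vs * pderiv ℂ none f + ∑ i, vy i * pderiv ℂ (some (.y i)) f) := by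
      refine h1.add (Fil.sum _ fun i _ => ?_)
      have h3 := (fil_zero (vy i)).mul (c2_pd hf (.y i))
      rw [zero_add] at h3
      exact h3
    have h3 := c2_vs.mul h2
    rw [add_comm] at h3
    have h4 : Ep.D none f =
        -(vs * (vs * pderiv ℂ none f + ∑ i, vy i * pderiv ℂ (some (.y i)) f)) := by
      change (-((vs : Sym d) • ((vs : Sym d) • pderiv ℂ none +
        ∑ i : Fin d, vy i • pderiv ℂ (some (Var.y i)))) : Derivation ℂ (Sym d) (Sym d)) f = _
      rw [Derivation.neg_apply, Derivation.smul_apply, Derivation.add_apply,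
        Derivation.smul_apply, c2_sum]
      rfl
    rw [h4]
    exact h3.neg

lemma Fil.B {N : ℕ} {f : Sym d} (hf : Fil N f) (i : Option (Fin d)) : Fil N (B i f) := by
  cases i with
  | some i => exact c2_pd hf (.x i)
  | none => exact c2_pd hf .t

lemma Fil.lb {N M : ℕ} {f g : Sym d} (hf : Fil N f) (hg : Fil M g) (n : ℕ) :
    Fil (N + M + n) (lb n f g) := by
  induction n generalizing N f g with
  | zero => exact hf.mul hg
  | succ n ih =>
    change Fil _ (((n : ℂ) + 1)⁻¹ • ∑ i, Ep.lb n (Ep.D i f) (Ep.B i g))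
    refine Fil.smul (Fil.sum _ fun i _ => ?_) _
    have h := ih (hf.D i) (hg.B i)
    rw [show N + 1 + M + n = N + M + (n + 1) by ring] at h
    exact h

lemma eq_of_fil {f g : Sym d} (h : ∀ N, Fil N (f - g)) : f = g := by
  ext m
  have h1 := h (m none + 1) m (by omega)
  rw [map_sub, sub_eq_zero] at h1
  exact h1

/-! ## row c3: the composition -/

lemma coeff_comp (f g : Sym d) (m : Option (Var d) →₀ ℕ) :
    coeff m (comp f g) = ∑ n ∈ Finset.range (m none + 1), coeff m (lb n f g) := rfl

private lemma c3_coeff_lb {f g : Sym d} {n : ℕ} {m : Option (Var d) →₀ ℕ} (h : m none < n) :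
    coeff m (lb n f g) = 0 :=
  Fil.lb (fil_zero f) (fil_zero g) n m (by omega)

/-- modulo `s ^ N` the composition is a finite sum -/
lemma comp_fil (f g : Sym d) (N : ℕ) :
    Fil N (comp f g - ∑ n ∈ Finset.range N, lb n f g) := by
  intro m hm
  rw [map_sub, coeff_comp, map_sum, sub_eq_zero]
  apply Finset.sum_subset
  · intro n hn
    simp only [Finset.mem_range] at hn ⊢
    omega
  · intro n _ hn
    simp only [Finset.mem_range] at hn
    exact c3_coeff_lb (by omega)

lemma comp_add_left (f f' g : Sym d) : comp (f + f') g = comp f g + comp f' g := by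
  ext m
  rw [map_add, coeff_comp, coeff_comp, coeff_comp, ← Finset.sum_add_distrib]
  exact Finset.sum_congr rfl fun n _ => by
    rw [lb, leib_add_left, map_add]

lemma comp_add_right (f g g' : Sym d) : comp f (g + g') = comp f g + comp f g' := by
  ext m
  rw [map_add, coeff_comp, coeff_comp, coeff_comp, ← Finset.sum_add_distrib]
  exact Finset.sum_congr rfl fun n _ => by
    rw [lb, leib_add_right, map_add]

lemma comp_smul_left (c : ℂ) (f g : Sym d) : comp (c • f) g = c • comp f g := by
  ext m
  rw [coeff_smul, coeff_comp, coeff_comp, Finset.mul_sum]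
  exact Finset.sum_congr rfl fun n _ => by
    rw [lb, leib_smul_left, coeff_smul]

lemma comp_smul_right (c : ℂ) (f g : Sym d) : comp f (c • g) = c • comp f g := by
  ext m
  rw [coeff_smul, coeff_comp, coeff_comp, Finset.mul_sum]
  exact Finset.sum_congr rfl fun n _ => by
    rw [lb, leib_smul_right, coeff_smul]

lemma comp_zero_left (g : Sym d) : comp 0 g = 0 := by
  ext m
  rw [coeff_comp, map_zero]
  exact Finset.sum_eq_zero fun n _ => by
    rw [lb, leib_zero_left, map_zero]

lemma comp_zero_right (f : Sym d) : comp f 0 = 0 := by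
  ext m
  rw [coeff_comp, map_zero]
  exact Finset.sum_eq_zero fun n _ => by
    rw [lb, leib_zero_right, map_zero]

private lemma c3_left {f : Sym d} (h : ∀ i, D i f = 0) (g : Sym d) : comp f g = f * g := by
  ext m
  have h0 : ∀ n ∈ Finset.range (m none), coeff m (lb (n + 1) f g) = 0 := fun n _ => by
    rw [lb, leib_eq_zero_left D B h, map_zero]
  rw [coeff_comp, Finset.sum_range_succ', Finset.sum_eq_zero h0, zero_add]
  rfl

private lemma c3_right {g : Sym d} (h : ∀ i, B i g = 0) (f : Sym d) : comp f g = f * g := by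
  ext m
  have h0 : ∀ n ∈ Finset.range (m none), coeff m (lb (n + 1) f g) = 0 := fun n _ => by
    rw [lb, leib_eq_zero_right D B h, map_zero]
  rw [coeff_comp, Finset.sum_range_succ', Finset.sum_eq_zero h0, zero_add]
  rfl

lemma comp_one_left (f : Sym d) : comp 1 f = f := by
  rw [c3_left (fun i => Derivation.map_one_eq_zero (D i)), one_mul]

lemma comp_one_right (f : Sym d) : comp f 1 = f := by
  rw [c3_right (fun i => Derivation.map_one_eq_zero (B i)), mul_one]

/-- if `D i f = 0` for all `i` or `B i g = 0` for all `i`, the composition is the product -/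
lemma comp_eq_mul_left {f : Sym d} (h : ∀ i, D i f = 0) (g : Sym d) : comp f g = f * g :=
  c3_left h g

lemma comp_eq_mul_right {g : Sym d} (h : ∀ i, B i g = 0) (f : Sym d) : comp f g = f * g :=
  c3_right h f

/-! ## row c4: associativity -/

private lemma c4_sum (F : ℕ → ℕ → Sym d) (hF : ∀ m n, Fil (m + n) (F m n)) (N : ℕ) :
    Fil N (∑ m ∈ Finset.range N, ∑ n ∈ Finset.range N, F m n -
      ∑ K ∈ Finset.range N, ∑ p ∈ Finset.HasAntidiagonal.antidiagonal K, F p.1 p.2) := by
  have h1 : ∑ K ∈ Finset.range N, ∑ p ∈ Finset.HasAntidiagonal.antidiagonal K, F p.1 p.2 =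
      ∑ m ∈ Finset.range N, ∑ n ∈ Finset.range (N - m), F m n := by
    rw [← Finset.sum_range_diag_flip]
    exact Finset.sum_congr rfl fun K _ => Finset.Nat.sum_antidiagonal_eq_sum_range_succ F K
  rw [h1, ← Finset.sum_sub_distrib]
  refine Fil.sum _ fun m hm => ?_
  rw [← Finset.sum_Ico_eq_sub _ (Nat.sub_le N m)]
  refine Fil.sum _ fun n hn => (hF m n).mono ?_
  have h2 := (Finset.mem_Ico.1 hn).1
  omega

private lemma c4_sub_left (m N : ℕ) (u h : Sym d) (F : ℕ → Sym d) :
    lb m u h - ∑ n ∈ Finset.range N, lb m (F n) h = lb m (u - ∑ n ∈ Finset.range N, F n) h := by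
  have h4 : lb m (∑ n ∈ Finset.range N, F n) h = ∑ n ∈ Finset.range N, lb m (F n) h :=
    leib_sum_left D B _ _ _ _
  have h5 : lb m ((u - ∑ n ∈ Finset.range N, F n) + ∑ n ∈ Finset.range N, F n) h =
      lb m (u - ∑ n ∈ Finset.range N, F n) h + lb m (∑ n ∈ Finset.range N, F n) h :=
    leib_add_left D B _ _ _ _
  rw [sub_add_cancel] at h5
  rw [h5, h4, add_sub_cancel_right]

private lemma c4_sub_right (m N : ℕ) (f u : Sym d) (F : ℕ → Sym d) :
    lb m f u - ∑ n ∈ Finset.range N, lb m f (F n) = lb m f (u - ∑ n ∈ Finset.range N, F n) := by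
  have h4 : lb m f (∑ n ∈ Finset.range N, F n) = ∑ n ∈ Finset.range N, lb m f (F n) :=
    leib_sum_right D B _ _ _ _
  have h5 : lb m f ((u - ∑ n ∈ Finset.range N, F n) + ∑ n ∈ Finset.range N, F n) =
      lb m f (u - ∑ n ∈ Finset.range N, F n) + lb m f (∑ n ∈ Finset.range N, F n) :=
    leib_add_right D B _ _ _ _
  rw [sub_add_cancel] at h5
  rw [h5, h4, add_sub_cancel_right]

private lemma c4_left (f g h : Sym d) (N : ℕ) :
    Fil N (comp (comp f g) h - ∑ K ∈ Finset.range N,
      ∑ p ∈ Finset.HasAntidiagonal.antidiagonal K, lb p.1 (lb p.2 f g) h) := by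
  have h1 := comp_fil (comp f g) h N
  have h2 : Fil N (∑ m ∈ Finset.range N, lb m (comp f g) h -
      ∑ m ∈ Finset.range N, ∑ n ∈ Finset.range N, lb m (lb n f g) h) := by
    rw [← Finset.sum_sub_distrib]
    refine Fil.sum _ fun m _ => ?_
    rw [c4_sub_left]
    exact (Fil.lb (comp_fil f g N) (fil_zero h) m).mono (by omega)
  have h3 := c4_sum (fun m n => lb m (lb n f g) h) (fun m n =>
    (Fil.lb (Fil.lb (fil_zero f) (fil_zero g) n) (fil_zero h) m).mono (by omega)) N
  have h4 := (h1.add h2).add h3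
  refine (congrArg (Fil N) ?_).mp h4
  abel

private lemma c4_right (f g h : Sym d) (N : ℕ) :
    Fil N (comp f (comp g h) - ∑ K ∈ Finset.range N,
      ∑ p ∈ Finset.HasAntidiagonal.antidiagonal K, lb p.1 f (lb p.2 g h)) := by
  have h1 := comp_fil f (comp g h) N
  have h2 : Fil N (∑ m ∈ Finset.range N, lb m f (comp g h) -
      ∑ m ∈ Finset.range N, ∑ n ∈ Finset.range N, lb m f (lb n g h)) := by
    rw [← Finset.sum_sub_distrib]
    refine Fil.sum _ fun m _ => ?_
    rw [c4_sub_right]
    exact (Fil.lb (fil_zero f) (comp_fil g h N) m).mono (by omega)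
  have h3 := c4_sum (fun m n => lb m f (lb n g h)) (fun m n =>
    (Fil.lb (fil_zero f) (Fil.lb (fil_zero g) (fil_zero h) n) m).mono (by omega)) N
  have h4 := (h1.add h2).add h3
  refine (congrArg (Fil N) ?_).mp h4
  abel

theorem comp_assoc (f g h : Sym d) : comp (comp f g) h = comp f (comp g h) := by
  refine eq_of_fil fun N => ?_
  have h1 := c4_left f g h N
  have h2 := c4_right f g h N
  have h3 : ∑ K ∈ Finset.range N, ∑ p ∈ Finset.HasAntidiagonal.antidiagonal K,
      lb p.1 (lb p.2 f g) h = ∑ K ∈ Finset.range N,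
        ∑ p ∈ Finset.HasAntidiagonal.antidiagonal K, lb p.1 f (lb p.2 g h) :=
    Finset.sum_congr rfl fun K _ => leib_assoc D B com_DB K f g h
  rw [h3] at h1
  have h4 := h1.add h2.neg
  refine (congrArg (Fil N) ?_).mp h4
  abel

/-! ## the ring of operators -/

noncomputable instance : One (Op d) := ⟨op 1⟩
noncomputable instance : Mul (Op d) := ⟨fun P Q => op (comp P.sym Q.sym)⟩

@[simp] lemma sym_one : (1 : Op d).sym = 1 := rfl
@[simp] lemma sym_mul (P Q : Op d) : (P * Q).sym = comp P.sym Q.sym := rfl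

noncomputable instance : Ring (Op d) where
  __ := (inferInstance : AddCommGroup (Op d))
  one := 1
  mul := (· * ·)
  mul_assoc P Q R := Op.ext (comp_assoc _ _ _)
  one_mul P := Op.ext (comp_one_left _)
  mul_one P := Op.ext (comp_one_right _)
  left_distrib P Q R := Op.ext (comp_add_right _ _ _)
  right_distrib P Q R := Op.ext (comp_add_left _ _ _)
  zero_mul P := Op.ext (comp_zero_left _)
  mul_zero P := Op.ext (comp_zero_right _)

lemma smul_mul (c : ℂ) (P Q : Op d) : (c • P) * Q = c • (P * Q) := Op.ext (comp_smul_left _ _ _)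
lemma mul_smul' (c : ℂ) (P Q : Op d) : P * (c • Q) = c • (P * Q) := Op.ext (comp_smul_right _ _ _)

noncomputable instance : Algebra ℂ (Op d) := Algebra.ofModule smul_mul mul_smul'

/-! ## row k1: the constants, formal and microdifferential operators are stable under sums -/

lemma algebraMap_sym (c : ℂ) : (algebraMap ℂ (Op d) c).sym = C c := by
  have h : algebraMap ℂ (Op d) c = c • (1 : Op d) := Algebra.algebraMap_eq_smul_one c
  rw [h, sym_smul, sym_one]
  ext m
  rw [map_smul, coeff_one, coeff_C]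
  split_ifs <;> simp

private lemma k1_add {a b : ℝ} (ha : 0 ≤ a) (hb : 0 ≤ b) (n : ℕ) :
    a ^ (n + 1) + b ^ (n + 1) ≤ (a + b) ^ (n + 1) := by
  induction n with
  | zero => simp
  | succ n ih =>
    have h1 := mul_le_mul_of_nonneg_right ih (add_nonneg ha hb)
    have h2 : 0 ≤ a ^ (n + 1) * b := by positivity
    have h3 : 0 ≤ b ^ (n + 1) * a := by positivity
    rw [pow_succ a, pow_succ b, pow_succ (a + b)]
    nlinarith

lemma isFormal_add {f g : Sym d} (hf : IsFormal f) (hg : IsFormal g) : IsFormal (f + g) := by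
  obtain ⟨R, hR, hf⟩ := hf
  obtain ⟨R', hR', hg⟩ := hg
  refine ⟨max R R', lt_max_of_lt_left hR, fun j => ?_⟩
  obtain ⟨C, hC⟩ := hf j
  obtain ⟨C', hC'⟩ := hg j
  refine ⟨|C| + |C'|, fun m hm => ?_⟩
  rw [map_add]
  refine (norm_add_le _ _).trans ?_
  rw [add_mul]
  refine add_le_add ((hC m hm).trans ?_) ((hC' m hm).trans ?_)
  · exact mul_le_mul (le_abs_self _) (pow_le_pow_left₀ hR.le (le_max_left _ _) _)
      (by positivity) (abs_nonneg _)
  · exact mul_le_mul (le_abs_self _) (pow_le_pow_left₀ hR'.le (le_max_right _ _) _)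
      (by positivity) (abs_nonneg _)

private lemma k1_nonneg {f : Sym d} {C : ℝ}
    (h : ∀ m : Option (Var d) →₀ ℕ, ‖coeff m f‖ ≤ C ^ (m.degree + 1) * (m none).factorial) :
    0 ≤ C := by
  have h1 := (norm_nonneg _).trans (h 0)
  simpa using h1

lemma isMicro_add {f g : Sym d} (hf : IsMicro f) (hg : IsMicro g) : IsMicro (f + g) := by
  obtain ⟨C, hC⟩ := hf
  obtain ⟨C', hC'⟩ := hg
  have h1 := k1_nonneg hC
  have h2 := k1_nonneg hC'
  refine ⟨C + C', fun m => ?_⟩
  rw [map_add]
  refine (norm_add_le _ _).trans ((add_le_add (hC m) (hC' m)).trans ?_)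
  rw [← add_mul]
  exact mul_le_mul_of_nonneg_right (k1_add h1 h2 _) (by positivity)

lemma isFormal_neg {f : Sym d} (hf : IsFormal f) : IsFormal (-f) := by
  obtain ⟨R, hR, hf⟩ := hf
  refine ⟨R, hR, fun j => ?_⟩
  obtain ⟨C, hC⟩ := hf j
  refine ⟨C, fun m hm => ?_⟩
  rw [map_neg, norm_neg]
  exact hC m hm

lemma isMicro_neg {f : Sym d} (hf : IsMicro f) : IsMicro (-f) := by
  obtain ⟨C, hC⟩ := hf
  refine ⟨C, fun m => ?_⟩
  rw [map_neg, norm_neg]
  exact hC m

lemma IsMicro.formal {f : Sym d} (hf : IsMicro f) : IsFormal f := by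
  obtain ⟨C, hC⟩ := hf
  have h1 := k1_nonneg hC
  refine ⟨C + 1, by linarith, fun j => ⟨(C + 1) * j.factorial, fun m hm => ?_⟩⟩
  refine (hC m).trans ?_
  rw [hm]
  calc C ^ (m.degree + 1) * (j.factorial : ℝ) ≤ (C + 1) ^ (m.degree + 1) * j.factorial :=
        mul_le_mul_of_nonneg_right (pow_le_pow_left₀ h1 (by linarith) _) (by positivity)
    _ = (C + 1) * j.factorial * (C + 1) ^ m.degree := by ring

lemma isMicro_C (c : ℂ) : IsMicro (C c : Sym d) := by
  classical
  refine ⟨‖c‖, fun m => ?_⟩
  rw [coeff_C]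
  split_ifs with h
  · subst h
    simp
  · rw [norm_zero]
    positivity

lemma isFormal_C (c : ℂ) : IsFormal (C c : Sym d) := (isMicro_C c).formal

lemma isMicro_X (v : Option (Var d)) : IsMicro (X v : Sym d) := by
  classical
  refine ⟨1, fun m => ?_⟩
  rw [coeff_X, one_pow, one_mul]
  have h1 : (1 : ℝ) ≤ (m none).factorial := by
    exact_mod_cast Nat.one_le_iff_ne_zero.2 (Nat.factorial_ne_zero _)
  split_ifs with h
  · rw [norm_one]
    exact h1
  · rw [norm_zero]
    linarith

lemma isFormal_X (v : Option (Var d)) : IsFormal (X v : Sym d) := (isMicro_X v).formal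

end Pool.Agent.Ep
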