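import Pool.Agent.Ep.Nrm

/-!
# Adapted norms for commuting nilpotent matrices (P11, block A, helper39)

`E` is a complex vector space with a seminorm `p : E → [0, ∞]`, `N j` (`j` in a finite set) are
commuting nilpotent `m × m` matrices which act on `E ^ m` from the right,
`(F * N) i' = ∑ i, N i i' • F i`. `sn ℓ F = ∑_{|w| = ℓ} ∑_i p ((F N^w) i)`,
`vn ε L F = ∑_{ℓ < L} ε^(-ℓ) sn ℓ F`. For `L` large, `vn (F N_j) ≤ ε vn F`.
-/

set_option autoImplicit false

namespace Pool.Agent.Ep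

open scoped ENNReal NNReal

/-- a seminorm with values in `[0, ∞]` -/
structure SN {E : Type} [AddCommGroup E] [Module ℂ E] (p : E → ℝ≥0∞) : Prop where
  zero : p 0 = 0
  add : ∀ a b, p (a + b) ≤ p a + p b
  smul : ∀ (c : ℂ) a, p (c • a) = ‖c‖₊ * p a

variable {E : Type} [AddCommGroup E] [Module ℂ E] {ι : Type} [Fintype ι] {m : ℕ}

/-- the action of a matrix of constants from the right -/
def rmul (F : Fin m → E) (N : Matrix (Fin m) (Fin m) ℂ) : Fin m → E := fun i' => ∑ i, N i i' • F i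

/-- the sum over all words of length `ℓ` -/
noncomputable def sn (p : E → ℝ≥0∞) (N : ι → Matrix (Fin m) (Fin m) ℂ) : ℕ → (Fin m → E) → ℝ≥0∞
  | 0, F => ∑ i, p (F i)
  | ℓ + 1, F => ∑ j, sn p N ℓ (rmul F (N j))

/-- the adapted norm -/
noncomputable def vn (p : E → ℝ≥0∞) (N : ι → Matrix (Fin m) (Fin m) ℂ) (ε : ℝ) (L : ℕ)
    (F : Fin m → E) : ℝ≥0∞ :=
  ∑ ℓ ∈ Finset.range L, ENNReal.ofReal ((1 / ε) ^ ℓ) * sn p N ℓ F

/-! ## row v1 -/

lemma rmul_rmul (F : Fin m → E) (M M' : Matrix (Fin m) (Fin m) ℂ) :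
    rmul (rmul F M) M' = rmul F (M * M') := by
  funext k
  simp only [rmul, Finset.smul_sum, smul_smul, Matrix.mul_apply, Finset.sum_smul]
  rw [Finset.sum_comm]
  refine Finset.sum_congr rfl fun i _ => Finset.sum_congr rfl fun i' _ => ?_
  rw [mul_comm]
lemma rmul_add (F G : Fin m → E) (M : Matrix (Fin m) (Fin m) ℂ) :
    rmul (F + G) M = rmul F M + rmul G M := by
  funext k
  simp [rmul, smul_add, Finset.sum_add_distrib]

private lemma v1_rmul_smul (c : ℂ) (F : Fin m → E) (M : Matrix (Fin m) (Fin m) ℂ) :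
    rmul (c • F) M = c • rmul F M := by
  funext k
  simp only [rmul, Pi.smul_apply, Finset.smul_sum]
  exact Finset.sum_congr rfl fun i _ => smul_comm _ _ _

private lemma v1_sn_sum {p : E → ℝ≥0∞} (hp : SN p) {κ : Type} (s : Finset κ) (f : κ → E) :
    p (∑ k ∈ s, f k) ≤ ∑ k ∈ s, p (f k) := by
  classical
  induction s using Finset.induction_on with
  | empty => simp [hp.zero]
  | insert a s ha ih =>
    rw [Finset.sum_insert ha, Finset.sum_insert ha]
    exact (hp.add _ _).trans (add_le_add le_rfl ih)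

private lemma v1_sn_le (N : ι → Matrix (Fin m) (Fin m) ℂ) (ℓ : ℕ) : ∃ C : ℝ≥0,
    ∀ {p : E → ℝ≥0∞}, SN p → ∀ F : Fin m → E, sn p N ℓ F ≤ C * ∑ i, p (F i) := by
  induction ℓ with
  | zero => exact ⟨1, fun _ F => by simp [sn]⟩
  | succ ℓ ih =>
    obtain ⟨C, hC⟩ := ih
    refine ⟨C * ∑ j, ∑ i', ∑ i, ‖N j i i'‖₊, fun {p} hp F => ?_⟩
    calc sn p N (ℓ + 1) F = ∑ j, sn p N ℓ (rmul F (N j)) := rfl
      _ ≤ ∑ j, (C : ℝ≥0∞) * ∑ i', p (rmul F (N j) i') :=
          Finset.sum_le_sum fun j _ => hC hp _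
      _ ≤ ∑ j, (C : ℝ≥0∞) * ∑ i', ((∑ i, ‖N j i i'‖₊ : ℝ≥0) : ℝ≥0∞) * ∑ i, p (F i) := by
          refine Finset.sum_le_sum fun j _ => mul_le_mul le_rfl
            (Finset.sum_le_sum fun i' _ => ?_) zero_le zero_le
          refine (v1_sn_sum hp _ _).trans ?_
          rw [ENNReal.ofNNReal_finsetSum, Finset.sum_mul]
          refine Finset.sum_le_sum fun i _ => ?_
          rw [hp.smul]
          exact mul_le_mul le_rfl
            (Finset.single_le_sum (f := fun i => p (F i)) (fun _ _ => zero_le) (Finset.mem_univ i))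
            zero_le zero_le
      _ = _ := by
          simp only [← Finset.mul_sum, ← Finset.sum_mul, ENNReal.coe_mul, ENNReal.ofNNReal_finsetSum,
            mul_assoc]

/-- an upper bound, the constant does not depend on `p` -/
lemma vn_le (N : ι → Matrix (Fin m) (Fin m) ℂ) (ε : ℝ) (L : ℕ) : ∃ C : ℝ, 0 < C ∧ ∀ {p : E → ℝ≥0∞}, SN p → ∀ F : Fin m → E,
    vn p N ε L F ≤ ENNReal.ofReal C * ∑ i, p (F i) := by
  choose C hC using fun ℓ => v1_sn_le (E := E) N ℓ
  refine ⟨1 + ∑ ℓ ∈ Finset.range L, ((1 / ε) ^ ℓ).toNNReal * C ℓ, by positivity,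
    fun {p} hp F => ?_⟩
  have h1 : vn p N ε L F
      ≤ ((∑ ℓ ∈ Finset.range L, ((1 / ε) ^ ℓ).toNNReal * C ℓ : ℝ≥0) : ℝ≥0∞) * ∑ i, p (F i) := by
    rw [vn, ENNReal.ofNNReal_finsetSum, Finset.sum_mul]
    refine Finset.sum_le_sum fun ℓ _ => ?_
    rw [ENNReal.coe_mul, mul_assoc]
    exact mul_le_mul le_rfl (hC ℓ hp F) zero_le zero_le
  refine h1.trans (mul_le_mul ?_ le_rfl zero_le zero_le)
  rw [← ENNReal.ofReal_coe_nnreal]
  refine ENNReal.ofReal_le_ofReal ?_
  push_cast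
  linarith

section
variable {p : E → ℝ≥0∞} (hp : SN p) (N : ι → Matrix (Fin m) (Fin m) ℂ)
include hp

private lemma v1_sn_add (ℓ : ℕ) (F G : Fin m → E) :
    sn p N ℓ (F + G) ≤ sn p N ℓ F + sn p N ℓ G := by
  induction ℓ generalizing F G with
  | zero =>
    simp only [sn, Pi.add_apply, ← Finset.sum_add_distrib]
    exact Finset.sum_le_sum fun i _ => hp.add _ _
  | succ ℓ ih =>
    simp only [sn, ← Finset.sum_add_distrib]
    refine Finset.sum_le_sum fun j _ => ?_
    rw [rmul_add]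
    exact ih _ _

private lemma v1_sn_smul (ℓ : ℕ) (c : ℂ) (F : Fin m → E) :
    sn p N ℓ (c • F) = ‖c‖₊ * sn p N ℓ F := by
  induction ℓ generalizing F with
  | zero =>
    simp only [sn, Pi.smul_apply, Finset.mul_sum]
    exact Finset.sum_congr rfl fun i _ => hp.smul _ _
  | succ ℓ ih =>
    simp only [sn, Finset.mul_sum]
    refine Finset.sum_congr rfl fun j _ => ?_
    rw [v1_rmul_smul]
    exact ih _

lemma vn_add_le (ε : ℝ) (L : ℕ) (F G : Fin m → E) :
    vn p N ε L (F + G) ≤ vn p N ε L F + vn p N ε L G := by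
  simp only [vn, ← Finset.sum_add_distrib, ← mul_add]
  exact Finset.sum_le_sum fun ℓ _ => mul_le_mul le_rfl (v1_sn_add hp N ℓ F G) zero_le zero_le
lemma vn_smul (ε : ℝ) (L : ℕ) (c : ℂ) (F : Fin m → E) :
    vn p N ε L (c • F) = ‖c‖₊ * vn p N ε L F := by
  simp only [vn, Finset.mul_sum]
  refine Finset.sum_congr rfl fun ℓ _ => ?_
  rw [v1_sn_smul hp N, mul_left_comm]
lemma vn_sum_le (ε : ℝ) (L : ℕ) {κ : Type} (s : Finset κ) (F : κ → Fin m → E) :
    vn p N ε L (∑ k ∈ s, F k) ≤ ∑ k ∈ s, vn p N ε L (F k) := by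
  classical
  induction s using Finset.induction_on with
  | empty =>
    have h := vn_smul hp N ε L 0 (0 : Fin m → E)
    rw [zero_smul, nnnorm_zero, ENNReal.coe_zero, zero_mul] at h
    simp [h]
  | insert a s ha ih =>
    rw [Finset.sum_insert ha, Finset.sum_insert ha]
    exact (vn_add_le hp N ε L _ _).trans (add_le_add le_rfl ih)
/-- `p (F i) ≤ vn F` -/
lemma le_vn {ε : ℝ} {L : ℕ} (hL : 0 < L) (F : Fin m → E) : ∑ i, p (F i) ≤ vn p N ε L F := by
  have h := Finset.single_le_sum (f := fun ℓ => ENNReal.ofReal ((1 / ε) ^ ℓ) * sn p N ℓ F)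
    (fun _ _ => zero_le) (Finset.mem_range.2 hL)
  simpa [sn, vn] using h
/-- operators on `E` -/
lemma vn_map_le (ε : ℝ) (L : ℕ) {p' : E → ℝ≥0∞} (T : E →ₗ[ℂ] E) {c : ℝ≥0∞}
    (h : ∀ a, p' (T a) ≤ c * p a) (F : Fin m → E) :
    vn p' N ε L (fun i => T (F i)) ≤ c * vn p N ε L F := by
  have key : ∀ (ℓ : ℕ) (F : Fin m → E), sn p' N ℓ (fun i => T (F i)) ≤ c * sn p N ℓ F := by
    intro ℓ
    induction ℓ with
    | zero =>
      intro F
      simp only [sn, Finset.mul_sum]
      exact Finset.sum_le_sum fun i _ => h _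
    | succ ℓ ih =>
      intro F
      simp only [sn, Finset.mul_sum]
      refine Finset.sum_le_sum fun j _ => ?_
      have e : rmul (fun i => T (F i)) (N j) = fun i => T (rmul F (N j) i) := by
        funext k
        simp [rmul, map_sum]
      rw [e]
      exact ih _
  simp only [vn, Finset.mul_sum]
  refine Finset.sum_le_sum fun ℓ _ => ?_
  calc ENNReal.ofReal ((1 / ε) ^ ℓ) * sn p' N ℓ (fun i => T (F i))
      ≤ ENNReal.ofReal ((1 / ε) ^ ℓ) * (c * sn p N ℓ F) :=
        mul_le_mul le_rfl (key ℓ F) zero_le zero_le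
    _ = c * (ENNReal.ofReal ((1 / ε) ^ ℓ) * sn p N ℓ F) := mul_left_comm _ _ _

end

/-! ## row v2 -/

private lemma v2_words (N : ι → Matrix (Fin m) (Fin m) ℂ) (hc : ∀ i j, N i * N j = N j * N i)
    (hn : ∀ i, IsNilpotent (N i)) :
    ∃ L : ℕ, 0 < L ∧ ∀ w : List ι, w.length = L → (w.map N).prod = 0 := by
  classical
  have hcomm : ∀ a ∈ Set.range N, ∀ b ∈ Set.range N, a * b = b * a := by
    rintro _ ⟨i, rfl⟩ _ ⟨j, rfl⟩
    exact hc i j
  let A := Algebra.adjoin ℂ (Set.range N)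
  have hmc : IsMulCommutative A := Algebra.isMulCommutative_adjoin ℂ hcomm
  let _ : CommRing A := { (inferInstance : Ring A) with mul_comm := fun a b => mul_comm' a b }
  let N' : ι → A := fun i => ⟨N i, Algebra.subset_adjoin ⟨i, rfl⟩⟩
  have hN' : ∀ i, IsNilpotent (N' i) := by
    intro i
    obtain ⟨k, hk⟩ := hn i
    refine ⟨k, Subtype.ext ?_⟩
    exact hk
  let I : Ideal A := Ideal.span (Set.range N')
  have hfg : I.FG := ⟨Finset.univ.image N', by simp [I]⟩
  have hle : I ≤ nilradical A := by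
    rw [Ideal.span_le]
    rintro _ ⟨i, rfl⟩
    exact mem_nilradical.2 (hN' i)
  obtain ⟨L, hL⟩ := (Ideal.FG.isNilpotent_iff_le_nilradical hfg).2 hle
  refine ⟨L + 1, Nat.succ_pos _, fun w hw => ?_⟩
  have h1 : ∀ w : List ι, (w.map N').prod ∈ I ^ w.length := by
    intro w
    induction w with
    | nil => simp
    | cons a w ih =>
      rw [List.map_cons, List.prod_cons, List.length_cons, pow_succ']
      exact Ideal.mul_mem_mul (Ideal.subset_span ⟨a, rfl⟩) ih
  have h2 : (w.map N').prod = 0 := by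
    have h3 := h1 w
    rw [hw, pow_succ, hL] at h3
    simpa using h3
  have h4 : ∀ w : List ι, ((w.map N').prod : Matrix (Fin m) (Fin m) ℂ) = (w.map N).prod := by
    intro w
    induction w with
    | nil => rfl
    | cons a w ih =>
      rw [List.map_cons, List.prod_cons, List.map_cons, List.prod_cons, ← ih]
      rfl
  rw [← h4, h2]
  rfl

/-- commuting nilpotent matrices: all long words vanish -/
lemma sn_eq_zero (N : ι → Matrix (Fin m) (Fin m) ℂ) (hc : ∀ i j, N i * N j = N j * N i)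
    (hn : ∀ i, IsNilpotent (N i)) :
    ∃ L : ℕ, 0 < L ∧ ∀ {p : E → ℝ≥0∞}, SN p → ∀ F : Fin m → E, sn p N L F = 0 := by
  obtain ⟨L, hL, hw⟩ := v2_words N hc hn
  refine ⟨L, hL, fun {p} hp F => ?_⟩
  have key : ∀ (ℓ : ℕ) (F : Fin m → E),
      (∀ w : List ι, w.length = ℓ → rmul F ((w.map N).prod) = 0) → sn p N ℓ F = 0 := by
    intro ℓ
    induction ℓ with
    | zero =>
      intro F hF
      have h := hF [] rfl
      have hF0 : F = 0 := by
        funext k
        have := congrFun h k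
        simpa [rmul, Matrix.one_apply] using this
      simp [sn, hF0, hp.zero]
    | succ ℓ ih =>
      intro F hF
      simp only [sn]
      refine Finset.sum_eq_zero fun j _ => ih _ fun w hw => ?_
      rw [rmul_rmul]
      have := hF (j :: w) (by simp [hw])
      simpa using this
  refine key L F fun w hwL => ?_
  rw [hw w hwL]
  funext k
  simp [rmul]

/-- the matrices have norm at most `ε` for the adapted norm -/
lemma vn_rmul_le {p : E → ℝ≥0∞} (hp : SN p) (N : ι → Matrix (Fin m) (Fin m) ℂ) {ε : ℝ}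
    (hε : 0 < ε) {L : ℕ} (hL : ∀ F : Fin m → E, sn p N L F = 0) (j : ι) (F : Fin m → E) :
    vn p N ε L (rmul F (N j)) ≤ ENNReal.ofReal ε * vn p N ε L F := by
  have h1 : vn p N ε L (rmul F (N j))
      ≤ ∑ ℓ ∈ Finset.range L, ENNReal.ofReal ε *
        (ENNReal.ofReal ((1 / ε) ^ (ℓ + 1)) * sn p N (ℓ + 1) F) := by
    refine Finset.sum_le_sum fun ℓ _ => ?_
    have h2 : ENNReal.ofReal ((1 / ε) ^ ℓ)
        = ENNReal.ofReal ε * ENNReal.ofReal ((1 / ε) ^ (ℓ + 1)) := by
      rw [← ENNReal.ofReal_mul hε.le]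
      congr 1
      rw [pow_succ']
      field_simp
    rw [h2, mul_assoc]
    refine mul_le_mul le_rfl (mul_le_mul le_rfl ?_ zero_le zero_le) zero_le zero_le
    exact Finset.single_le_sum (f := fun j => sn p N ℓ (rmul F (N j))) (fun _ _ => zero_le)
      (Finset.mem_univ j)
  refine h1.trans ?_
  rw [← Finset.mul_sum]
  refine mul_le_mul le_rfl ?_ zero_le zero_le
  have h3 : ∑ ℓ ∈ Finset.range L, ENNReal.ofReal ((1 / ε) ^ (ℓ + 1)) * sn p N (ℓ + 1) F
      ≤ ∑ ℓ ∈ Finset.range (L + 1), ENNReal.ofReal ((1 / ε) ^ ℓ) * sn p N ℓ F := by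
    rw [Finset.sum_range_succ']
    exact le_add_right le_rfl
  refine h3.trans ?_
  rw [Finset.sum_range_succ, hL F, mul_zero, add_zero]
  exact le_rfl

end Pool.Agent.Ep
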