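import Pool.Agent.Ep.Rel
import Pool.Agent.Ep.Vn

/-!
# Formal Weierstrass division by `t - A_0, y_i - A_i` (P11, block A, helper39)

Norms: for `k : ℕ` the level `k` norm with weight
`wk k κ r m = κ ^ e * ∏ v, (r v * θ k e) ^ (m v)`, `e = m none < k`, `θ k e = 1 - e / (2k)`, and `0`
for `e ≥ k`. Radii `r : Var d → ℝ`, `0 < r v ≤ 1`. The radii shrink with `e`, so that the
derivatives in the Leibniz formula, which raise `e`, are bounded with small norm (`κ` small).
-/

set_option autoImplicit false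

namespace Pool.Agent.Ep

open MvPowerSeries
open scoped ENNReal NNReal
open Pool.Fml (Ser)

variable {d : ℕ}

noncomputable def th (k e : ℕ) : ℝ := 1 - (e : ℝ) / (2 * k)

/-- the level `k` weight -/
noncomputable def wk (k : ℕ) (κ : ℝ) (r : Var d → ℝ) (m : Option (Var d) →₀ ℕ) : ℝ≥0∞ :=
  if m none < k then ENNReal.ofReal (κ ^ (m none) * ∏ v, (r v * th k (m none)) ^ (m (some v))) else 0

/-- admissible radii -/
def Rad (r : Var d → ℝ) : Prop := ∀ v, 0 < r v ∧ r v ≤ 1

/-- radii `ρ` for the `x_i` and `σ` for `t` and the `y_i` -/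
def rad (ρ σ : ℝ) : Var d → ℝ
  | .x _ => ρ
  | .t => σ
  | .y _ => σ

/-! ## row d1: the seminorm, products, derivatives -/

lemma sn_wk (k : ℕ) (κ : ℝ) (r : Var d → ℝ) : SN (nrm (wk k κ r) : Sym d → ℝ≥0∞) :=
  ⟨nrm_zero _, nrm_add_le _, nrm_smul _⟩

private lemma d1_th_nonneg {k e : ℕ} (h : e < k) : 0 ≤ th k e := by
  have h1 : (0 : ℝ) < 2 * k := by
    have : (0 : ℝ) < k := by exact_mod_cast (by omega : 0 < k)
    linarith
  rw [th, sub_nonneg, div_le_one h1]
  have h2 : (e : ℝ) ≤ k := by exact_mod_cast h.le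
  have h3 : (0 : ℝ) ≤ e := e.cast_nonneg
  linarith

private lemma d1_th_anti {k e e' : ℕ} (h : e ≤ e') : th k e' ≤ th k e := by
  rw [th, th]
  have h2 : (e : ℝ) ≤ e' := by exact_mod_cast h
  have h3 := div_le_div_of_nonneg_right h2 (by positivity : (0 : ℝ) ≤ 2 * k)
  linarith

private lemma d1_th_le (k e : ℕ) : th k e ≤ 1 := by
  rw [th]
  have : (0 : ℝ) ≤ (e : ℝ) / (2 * k) := by positivity
  linarith

private lemma d1_wk {k : ℕ} {κ : ℝ} {r : Var d → ℝ} {m : Option (Var d) →₀ ℕ}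
    (h : m none < k) : wk k κ r m =
      ENNReal.ofReal (κ ^ (m none) * ∏ v, (r v * th k (m none)) ^ (m (some v))) := if_pos h

private lemma d1_wk0 {k : ℕ} {κ : ℝ} {r : Var d → ℝ} {m : Option (Var d) →₀ ℕ}
    (h : ¬ m none < k) : wk k κ r m = 0 := if_neg h

private lemma d1_nonneg {k e : ℕ} (h : e < k) {r : Var d → ℝ} (hr : Rad r) (v : Var d) :
    0 ≤ r v * th k e := mul_nonneg (hr v).1.le (d1_th_nonneg h)

lemma wk_add_le {k : ℕ} {κ : ℝ} (hκ : 0 < κ) {r : Var d → ℝ} (hr : Rad r)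
    (m m' : Option (Var d) →₀ ℕ) : wk k κ r (m + m') ≤ wk k κ r m * wk k κ r m' := by
  by_cases h : (m + m') none < k
  · have h1 : (m + m') none = m none + m' none := rfl
    have h2 : m none < k := by omega
    have h3 : m' none < k := by omega
    have h4 : 0 ≤ κ ^ (m none) * ∏ v, (r v * th k (m none)) ^ (m (some v)) :=
      mul_nonneg (by positivity) (Finset.prod_nonneg fun v _ => pow_nonneg (d1_nonneg h2 hr v) _)
    rw [d1_wk h, d1_wk h2, d1_wk h3, ← ENNReal.ofReal_mul h4]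
    apply ENNReal.ofReal_le_ofReal
    have h5 : ∏ v, (r v * th k ((m + m') none)) ^ ((m + m') (some v)) ≤
        ∏ v, ((r v * th k (m none)) ^ (m (some v)) * (r v * th k (m' none)) ^ (m' (some v))) := by
      refine Finset.prod_le_prod (fun v _ => pow_nonneg (d1_nonneg h hr v) _) fun v _ => ?_
      rw [Finsupp.add_apply m m' (some v), pow_add]
      refine mul_le_mul ?_ ?_ (pow_nonneg (d1_nonneg h hr v) _)
        (pow_nonneg (d1_nonneg h2 hr v) _)
      · exact pow_le_pow_left₀ (d1_nonneg h hr v)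
          (mul_le_mul_of_nonneg_left (d1_th_anti (by omega)) (hr v).1.le) _
      · exact pow_le_pow_left₀ (d1_nonneg h hr v)
          (mul_le_mul_of_nonneg_left (d1_th_anti (by omega)) (hr v).1.le) _
    rw [Finset.prod_mul_distrib] at h5
    calc κ ^ ((m + m') none) * ∏ v, (r v * th k ((m + m') none)) ^ ((m + m') (some v))
        ≤ κ ^ ((m + m') none) * ((∏ v, (r v * th k (m none)) ^ (m (some v))) *
            ∏ v, (r v * th k (m' none)) ^ (m' (some v))) :=
          mul_le_mul_of_nonneg_left h5 (by positivity)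
      _ = _ := by
          rw [h1, pow_add]
          ring
  · rw [d1_wk0 h]
    exact zero_le

lemma nrm_wk_mul_le {k : ℕ} {κ : ℝ} (hκ : 0 < κ) {r : Var d → ℝ} (hr : Rad r) (f g : Sym d) :
    nrm (wk k κ r) (f * g) ≤ nrm (wk k κ r) f * nrm (wk k κ r) g :=
  nrm_mul_le _ (wk_add_le hκ hr) f g

private lemma d1_euler (v : Option (Var d)) (f : Sym d) (m : Option (Var d) →₀ ℕ) :
    coeff m (X v * pderiv ℂ v f) = (m v : ℂ) * coeff m f := by
  classical
  change coeff m (monomial (Finsupp.single v 1) 1 * pderiv ℂ v f) = _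
  rw [coeff_monomial_mul]
  by_cases h : m v = 0
  · rw [if_neg, h, Nat.cast_zero, zero_mul]
    intro h1
    have h2 := h1 v
    rw [Finsupp.single_eq_same] at h2
    omega
  · have h1 : Finsupp.single v 1 ≤ m := by
      rw [Finsupp.single_le_iff]
      omega
    rw [if_pos h1, coeff_pderiv, tsub_add_cancel_of_le h1, one_mul, mul_comm]
    congr 1
    rw [Finsupp.tsub_apply, Finsupp.single_eq_same]
    have h2 : m v - 1 + 1 = m v := by omega
    exact_mod_cast h2

private lemma d1_sum {κ : Type} (s : Finset κ) (F : κ → Derivation ℂ (Sym d) (Sym d))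
    (f : Sym d) : (∑ i ∈ s, F i) f = ∑ i ∈ s, F i f := by
  have h := congrFun (map_sum (Derivation.coeFnAddMonoidHom :
    Derivation ℂ (Sym d) (Sym d) →+ _) F s) f
  rw [Finset.sum_apply] at h
  exact h

private lemma d1_D (f : Sym d) : D none f =
    monomial (Finsupp.single none 1) 1 *
      -(X none * pderiv ℂ none f + ∑ i, X (some (.y i)) * pderiv ℂ (some (.y i)) f) := by
  have h4 : D none f =
      -(vs * (vs * pderiv ℂ none f + ∑ i, vy i * pderiv ℂ (some (.y i)) f)) := by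
    change (-((vs : Sym d) • ((vs : Sym d) • pderiv ℂ none +
      ∑ i : Fin d, vy i • pderiv ℂ (some (Var.y i)))) : Derivation ℂ (Sym d) (Sym d)) f = _
    rw [Derivation.neg_apply, Derivation.smul_apply, Derivation.add_apply,
      Derivation.smul_apply, d1_sum]
    rfl
  rw [h4, mul_neg]
  rfl

private lemma d1_coeff (f : Sym d) (m : Option (Var d) →₀ ℕ) :
    coeff (m + Finsupp.single none 1) (D none f) = -((m none + ydeg m : ℕ) : ℂ) * coeff m f := by
  rw [d1_D, add_comm, coeff_add_monomial_mul, one_mul, map_neg, map_add, map_sum, d1_euler]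
  simp only [d1_euler]
  rw [← Finset.sum_mul, ← add_mul, neg_mul]
  unfold ydeg
  push_cast
  rfl

private lemma d1_coeff0 (f : Sym d) (m : Option (Var d) →₀ ℕ)
    (h : m ∉ Set.range fun m : Option (Var d) →₀ ℕ => m + Finsupp.single none 1) :
    coeff m (D none f) = 0 := by
  classical
  rw [d1_D, coeff_monomial_mul, if_neg]
  intro h1
  exact h ⟨m - Finsupp.single none 1, tsub_add_cancel_of_le h1⟩

private lemma d1_ydeg (m : Option (Var d) →₀ ℕ) : ydeg m ≤ ∑ v, m (some v) := by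
  have h := degree_eq m
  rw [Finsupp.degree_eq_sum, Fintype.sum_option] at h
  omega

private lemma d1_q {k : ℕ} (hk : 0 < k) (n : ℕ) : (n : ℝ) * (1 - 1 / (2 * k : ℝ)) ^ n ≤ 2 * k := by
  have hk' : (1 : ℝ) ≤ k := by exact_mod_cast hk
  set x : ℝ := 1 / (2 * k) with hx
  have hx0 : 0 < x := by positivity
  have hx1 : x ≤ 1 := by
    rw [hx, div_le_one (by linarith)]
    linarith
  have h1 : 1 + (n : ℝ) * x ≤ (1 + x) ^ n := one_add_mul_le_pow (by linarith) n
  have h2 : (1 - x) ^ n * (1 + x) ^ n ≤ 1 := by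
    rw [← mul_pow]
    exact pow_le_one₀ (mul_nonneg (by linarith) (by linarith)) (by nlinarith)
  have h3 : 0 ≤ (1 - x) ^ n := pow_nonneg (by linarith) n
  have h4 : (1 - x) ^ n * (1 + n * x) ≤ 1 := (mul_le_mul_of_nonneg_left h1 h3).trans h2
  have h5 : (1 - x) ^ n * (n * x) ≤ 1 := by nlinarith
  have h6 : x * (2 * k) = 1 := by
    rw [hx]
    field_simp
  calc (n : ℝ) * (1 - x) ^ n = (1 - x) ^ n * (n * x) * (2 * k) := by
        linear_combination (-(n : ℝ) * (1 - x) ^ n) * h6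
    _ ≤ 1 * (2 * k) := mul_le_mul_of_nonneg_right h5 (by linarith)
    _ = 2 * k := one_mul _

private lemma d1_prod {k e : ℕ} (h : e + 1 < k) {r : Var d → ℝ} (hr : Rad r)
    (a : Var d → ℕ) : ∏ v, (r v * th k (e + 1)) ^ (a v) ≤
      (1 - 1 / (2 * k : ℝ)) ^ (∑ v, a v) * ∏ v, (r v * th k e) ^ (a v) := by
  have hk : (0 : ℝ) < k := by exact_mod_cast (by omega : 0 < k)
  have h1 : th k (e + 1) ≤ (1 - 1 / (2 * k : ℝ)) * th k e := by
    have h2 : th k (e + 1) = th k e - 1 / (2 * k) := by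
      rw [th, th]
      push_cast
      ring
    have h3 := d1_th_le k e
    have h4 : (0 : ℝ) < 1 / (2 * k) := by positivity
    rw [h2]
    nlinarith
  rw [← Finset.prod_pow_eq_pow_sum, ← Finset.prod_mul_distrib]
  refine Finset.prod_le_prod (fun v _ => pow_nonneg (d1_nonneg h hr v) _) fun v _ => ?_
  rw [← mul_pow]
  refine pow_le_pow_left₀ (d1_nonneg h hr v) ?_ _
  calc r v * th k (e + 1) ≤ r v * ((1 - 1 / (2 * k : ℝ)) * th k e) :=
        mul_le_mul_of_nonneg_left h1 (hr v).1.le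
    _ = _ := by ring

private lemma d1_real {k : ℕ} {κ : ℝ} (hκ : 0 < κ) {r : Var d → ℝ} (hr : Rad r)
    (m : Option (Var d) →₀ ℕ) (h : m none + 1 < k) :
    ((m none + ydeg m : ℕ) : ℝ) * (κ ^ (m none + 1) *
      ∏ v, (r v * th k (m none + 1)) ^ (m (some v))) ≤
    ((3 * k + 1) * κ) * (κ ^ (m none) * ∏ v, (r v * th k (m none)) ^ (m (some v))) := by
  have hk : (1 : ℝ) ≤ k := by exact_mod_cast (by omega : 1 ≤ k)
  have h1 := d1_prod h hr fun v => m (some v)
  set P0 := ∏ v, (r v * th k (m none)) ^ (m (some v)) with hP0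
  set P1 := ∏ v, (r v * th k (m none + 1)) ^ (m (some v)) with hP1
  set n := ∑ v, m (some v) with hn
  have hP : 0 ≤ P0 := Finset.prod_nonneg fun v _ => pow_nonneg (d1_nonneg (by omega) hr v) _
  have h2 : ydeg m ≤ n := d1_ydeg m
  have h3 := d1_q (by omega : 0 < k) n
  set q : ℝ := 1 - 1 / (2 * k) with hq
  have hx1 : 1 / (2 * k : ℝ) ≤ 1 := by
    rw [div_le_one (by linarith)]
    linarith
  have hx0 : 0 < 1 / (2 * k : ℝ) := by positivity
  have h4 : 0 ≤ q ^ n := pow_nonneg (by linarith) n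
  have h5 : q ^ n ≤ 1 := pow_le_one₀ (by linarith) (by linarith)
  have h6 : ((m none + ydeg m : ℕ) : ℝ) * q ^ n ≤ 3 * k + 1 := by
    have h7 : ((m none + ydeg m : ℕ) : ℝ) ≤ k + n := by exact_mod_cast (by omega)
    calc ((m none + ydeg m : ℕ) : ℝ) * q ^ n ≤ (k + n) * q ^ n :=
          mul_le_mul_of_nonneg_right h7 h4
      _ = k * q ^ n + n * q ^ n := by ring
      _ ≤ k * 1 + 2 * k := add_le_add (mul_le_mul_of_nonneg_left h5 (by linarith)) h3
      _ ≤ 3 * k + 1 := by linarith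
  have h8 : 0 ≤ κ ^ (m none) := by positivity
  calc ((m none + ydeg m : ℕ) : ℝ) * (κ ^ (m none + 1) * P1)
      ≤ ((m none + ydeg m : ℕ) : ℝ) * (κ ^ (m none + 1) * (q ^ n * P0)) :=
        mul_le_mul_of_nonneg_left (mul_le_mul_of_nonneg_left h1 (by positivity))
          (Nat.cast_nonneg _)
    _ = (((m none + ydeg m : ℕ) : ℝ) * q ^ n) * (κ * (κ ^ (m none) * P0)) := by
        rw [pow_succ]
        ring
    _ ≤ (3 * k + 1) * (κ * (κ ^ (m none) * P0)) :=
        mul_le_mul_of_nonneg_right h6 (mul_nonneg hκ.le (mul_nonneg h8 hP))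
    _ = _ := by ring

/-- `D none` raises the level by one -/
lemma nrm_wk_D_none {k : ℕ} (r : Var d → ℝ) (hr : Rad r) : ∃ C : ℝ, 0 < C ∧ ∀ κ : ℝ, 0 < κ → κ ≤ 1 →
    ∀ f : Sym d, nrm (wk k κ r) (D none f) ≤ ENNReal.ofReal (C * κ) * nrm (wk k κ r) f := by
  refine ⟨3 * k + 1, by positivity, fun κ hκ _ f => ?_⟩
  refine nrm_shift_le (T := fun f => D none f) (wk k κ r) f
    (fun m => m + Finsupp.single none 1) (add_left_injective _)
    (fun m => -((m none + ydeg m : ℕ) : ℂ)) (fun m => d1_coeff f m)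
    (fun m hm => d1_coeff0 f m hm) fun m => ?_
  have h0 : (m + Finsupp.single none 1 : Option (Var d) →₀ ℕ) none = m none + 1 := by
    rw [Finsupp.add_apply, Finsupp.single_eq_same]
  by_cases h : m none + 1 < k
  · have h1 : (m + Finsupp.single none 1 : Option (Var d) →₀ ℕ) none < k := by omega
    have h2 : m none < k := by omega
    rw [d1_wk h1, d1_wk h2]
    have h3 : ((‖(-((m none + ydeg m : ℕ) : ℂ))‖₊ : ℝ≥0) : ℝ≥0∞) =
        ENNReal.ofReal ((m none + ydeg m : ℕ) : ℝ) := by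
      rw [← ENNReal.ofReal_coe_nnreal, coe_nnnorm, norm_neg, Complex.norm_natCast]
    rw [h3, ← ENNReal.ofReal_mul (Nat.cast_nonneg _), ← ENNReal.ofReal_mul (by positivity)]
    apply ENNReal.ofReal_le_ofReal
    have h4 := d1_real hκ hr m h
    have h5 : ∀ v : Var d, (m + Finsupp.single none 1 : Option (Var d) →₀ ℕ) (some v) =
        m (some v) := by
      intro v
      rw [Finsupp.add_apply, Finsupp.single_apply, if_neg (by simp), add_zero]
    simp only [h0, h5]
    exact h4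
  · rw [d1_wk0 (by omega), mul_zero]
    exact zero_le

/-! ## row d2: the composition is a small perturbation of the product -/

private lemma d2_comp_le (w : (Option (Var d) →₀ ℕ) → ℝ≥0∞) (f g : Sym d) :
    nrm w (comp f g) ≤ ∑' n, nrm w (lb n f g) := by
  unfold nrm
  rw [ENNReal.tsum_comm]
  apply ENNReal.tsum_le_tsum
  intro m
  rw [ENNReal.tsum_mul_right]
  apply mul_le_mul_left
  rw [coeff_comp]
  calc ((‖∑ n ∈ Finset.range (m none + 1), coeff m (lb n f g)‖₊ : ℝ≥0) : ℝ≥0∞)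
      ≤ ((∑ n ∈ Finset.range (m none + 1), ‖coeff m (lb n f g)‖₊ : ℝ≥0) : ℝ≥0∞) := by
        exact_mod_cast nnnorm_sum_le _ _
    _ = ∑ n ∈ Finset.range (m none + 1), ((‖coeff m (lb n f g)‖₊ : ℝ≥0) : ℝ≥0∞) := by
        push_cast; rfl
    _ ≤ _ := ENNReal.sum_le_tsum _

private lemma d2_bound {q : ℝ} (h0 : 0 < q) (h1 : q < 1) (n k : ℕ) :
    ∃ B : ℝ, 0 < B ∧ ∀ a : ℕ, ((a : ℝ) + k) ^ n * q ^ a ≤ B := by
  have ht := tendsto_pow_const_mul_const_pow_of_abs_lt_one n
    (abs_lt.2 ⟨by linarith, h1⟩ : |q| < 1)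
  obtain ⟨B0, hB0⟩ := ht.bddAbove_range
  refine ⟨|B0| / q ^ k + 1, by positivity, fun a => ?_⟩
  have hb := hB0 ⟨a + k, rfl⟩
  simp only at hb
  have : ((a : ℝ) + k) ^ n * q ^ a = (((a + k : ℕ) : ℝ) ^ n * q ^ (a + k)) / q ^ k := by
    push_cast
    rw [pow_add]
    field_simp
  rw [this]
  calc (((a + k : ℕ) : ℝ) ^ n * q ^ (a + k)) / q ^ k ≤ |B0| / q ^ k := by
        apply div_le_div_of_nonneg_right _ (by positivity)
        exact hb.trans (le_abs_self _)
    _ ≤ _ := by linarith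

private lemma d2_fac (N b n a a' k : ℕ) (hN : N ≤ a + k) (hb : b ≤ a') :
    ((N.ascFactorial n * b.descFactorial n : ℕ) : ℝ) / (n.factorial : ℝ)
      ≤ ((a : ℝ) + k) ^ n * ((a' : ℝ) + k) ^ n := by
  have hf : (0 : ℝ) < n.factorial := by exact_mod_cast Nat.factorial_pos n
  rw [div_le_iff₀ hf]
  have h1 : N.ascFactorial n ≤ n.factorial * (a + k) ^ n :=
    (Nat.ascFactorial_le_factorial_mul_pow N n).trans
      (Nat.mul_le_mul_left _ (Nat.pow_le_pow_left hN n))
  have h2 : b.descFactorial n ≤ (a' + k) ^ n :=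
    (Nat.descFactorial_le_pow b n).trans (Nat.pow_le_pow_left (by omega) n)
  calc ((N.ascFactorial n * b.descFactorial n : ℕ) : ℝ)
      ≤ ((n.factorial * (a + k) ^ n * (a' + k) ^ n : ℕ) : ℝ) := by
        exact_mod_cast Nat.mul_le_mul h1 h2
    _ = _ := by push_cast; ring

private lemma d2_deg (m : Option (Var d) →₀ ℕ) : (∑ v, m (some v)) = bdeg m + ydeg m := by
  have h1 := degree_eq m
  have h2 : m.degree = m none + ∑ v, m (some v) := by
    rw [Finsupp.degree_eq_sum, Fintype.sum_option]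
  omega

/-- one coordinate -/
private lemma d2_one {k : ℕ} (hk : 0 < k) {r : ℝ} (hr : 0 < r) (hr1 : r ≤ 1) {e e' n : ℕ}
    (hn : 1 ≤ n) (he : e + e' + n < k) {M m m' : ℕ} (h : m + m' ≤ M + n) :
    (r * th k (e + e' + n)) ^ M
      ≤ (2 / r) ^ n * (1 - 1 / (2 * (k : ℝ))) ^ (m + m') * (r * th k e) ^ m * (r * th k e') ^ m' := by
  have hk' : (0 : ℝ) < k := by exact_mod_cast hk
  have hn' : (1 : ℝ) ≤ n := by exact_mod_cast hn
  have he' : (e : ℝ) + e' + n < k := by exact_mod_cast he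
  have hce : (0 : ℝ) ≤ e := Nat.cast_nonneg _
  have hce' : (0 : ℝ) ≤ e' := Nat.cast_nonneg _
  set q : ℝ := 1 - 1 / (2 * (k : ℝ)) with hq
  have hk1 : (1 : ℝ) ≤ k := by exact_mod_cast hk
  have hq0 : 0 < q := by
    rw [hq, sub_pos, div_lt_one (by positivity)]
    linarith
  have hth0 : (1 : ℝ) / 2 ≤ th k (e + e' + n) := by
    unfold th
    push_cast
    have : ((e : ℝ) + e' + n) / (2 * k) ≤ 1 / 2 := by
      rw [div_le_iff₀ (by positivity)]; linarith
    linarith
  have hth1 : th k (e + e' + n) ≤ 1 := by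
    unfold th
    push_cast
    have : 0 ≤ ((e : ℝ) + e' + n) / (2 * k) := by positivity
    linarith
  have aux : ∀ a b : ℝ, 0 ≤ a → 0 ≤ b → a + b + 1 ≤ (e : ℝ) + e' + n → a ≤ k →
      1 - ((e : ℝ) + e' + n) / (2 * k) ≤ q * (1 - a / (2 * k)) := by
    intro a b ha hb hab hak
    have e1 : q * (1 - a / (2 * k)) = 1 - (a + 1) / (2 * k) + a / (2 * k) * (1 / (2 * k)) := by
      rw [hq]
      have hk2 : (k : ℝ) ≠ 0 := hk'.ne'
      field_simp
      ring
    rw [e1]
    have e2 : (a + 1) / (2 * (k : ℝ)) ≤ ((e : ℝ) + e' + n) / (2 * k) := by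
      apply div_le_div_of_nonneg_right _ (by positivity)
      linarith
    have e3 : 0 ≤ a / (2 * (k : ℝ)) * (1 / (2 * k)) := by positivity
    linarith
  have hqe : th k (e + e' + n) ≤ q * th k e := by
    have := aux e e' hce hce' (by linarith) (by linarith)
    unfold th
    push_cast
    exact this
  have hqe' : th k (e + e' + n) ≤ q * th k e' := by
    have := aux e' e hce' hce (by linarith) (by linarith)
    unfold th
    push_cast
    exact this
  set x : ℝ := r * th k (e + e' + n) with hx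
  have hx0 : 0 < x := by
    rw [hx]; exact mul_pos hr (by linarith)
  have hx1 : x ≤ 1 := by
    rw [hx]
    calc r * th k (e + e' + n) ≤ 1 * 1 := mul_le_mul hr1 hth1 (by linarith) (by norm_num)
      _ = 1 := one_mul 1
  have hx2 : 1 ≤ 2 / r * x := by
    rw [hx]
    have : 2 / r * (r * th k (e + e' + n)) = 2 * th k (e + e' + n) := by field_simp
    rw [this]; linarith
  have s1 : x ^ M ≤ (2 / r) ^ n * x ^ (m + m') := by
    calc x ^ M = x ^ M * 1 := (mul_one _).symm
      _ ≤ x ^ M * (2 / r * x) ^ n := by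
          apply mul_le_mul_of_nonneg_left (one_le_pow₀ hx2) (by positivity)
      _ = (2 / r) ^ n * x ^ (M + n) := by rw [mul_pow, pow_add]; ring
      _ ≤ (2 / r) ^ n * x ^ (m + m') := by
          apply mul_le_mul_of_nonneg_left _ (by positivity)
          exact pow_le_pow_of_le_one hx0.le hx1 h
  have s2 : x ≤ q * (r * th k e) := by
    rw [hx]; nlinarith
  have s3 : x ≤ q * (r * th k e') := by
    rw [hx]; nlinarith
  calc x ^ M ≤ (2 / r) ^ n * x ^ (m + m') := s1
    _ = (2 / r) ^ n * (x ^ m * x ^ m') := by rw [pow_add]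
    _ ≤ (2 / r) ^ n * ((q * (r * th k e)) ^ m * (q * (r * th k e')) ^ m') := by
        apply mul_le_mul_of_nonneg_left _ (by positivity)
        apply mul_le_mul (pow_le_pow_left₀ hx0.le s2 _) (pow_le_pow_left₀ hx0.le s3 _)
          (by positivity)
        exact pow_nonneg (hx0.le.trans s2) _
    _ = _ := by rw [mul_pow q, mul_pow q, pow_add]; ring

private lemma d2_th_nonneg {k e : ℕ} (he : e < k) : 0 ≤ th k e := by
  unfold th
  have hk : (0 : ℝ) < k := by exact_mod_cast (by omega : 0 < k)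
  have he' : (e : ℝ) < k := by exact_mod_cast he
  have : (e : ℝ) / (2 * k) ≤ 1 / 2 := by
    rw [div_le_iff₀ (by positivity)]; linarith
  linarith

private lemma d2_term {k : ℕ} (r : Var d → ℝ) (hr : Rad r) (n : ℕ) (hn : 1 ≤ n) :
    ∃ C : ℝ, 0 ≤ C ∧ ∀ κ : ℝ, 0 < κ → κ ≤ 1 → ∀ f g : Sym d, nrm (wk k κ r) (lb n f g)
      ≤ ENNReal.ofReal (C * κ) * (nrm (wk k κ r) f * nrm (wk k κ r) g) := by
  rcases Nat.eq_zero_or_pos k with hk0 | hk
  · subst hk0
    refine ⟨0, le_rfl, fun κ _ _ f g => ?_⟩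
    have : nrm (wk 0 κ r) (lb n f g) = 0 := by
      unfold nrm wk
      simp
    rw [this]
    exact bot_le
  have hk' : (1 : ℝ) ≤ k := by exact_mod_cast hk
  have hq0 : (0 : ℝ) < 1 - 1 / (2 * (k : ℝ)) := by
    rw [sub_pos, div_lt_one (by positivity)]; linarith
  have hq1 : (1 : ℝ) - 1 / (2 * (k : ℝ)) < 1 := by
    have : (0 : ℝ) < 1 / (2 * (k : ℝ)) := by positivity
    linarith
  obtain ⟨B, hB0, hB⟩ := d2_bound hq0 hq1 n k
  have hP0 : (0 : ℝ) ≤ ∏ v : Var d, (2 / r v) :=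
    Finset.prod_nonneg fun v _ => by have := (hr v).1; positivity
  refine ⟨(∏ v, (2 / r v)) ^ n * (B * B), by positivity, fun κ hκ hκ1 f g => ?_⟩
  apply nrm_lb_le
  intro m m'
  by_cases hlt : m none + m' none + n < k
  swap
  · refine (nrm_lb_monomial _ 0 n m m' ?_).trans (by simp)
    intro M h1 _ _ _ _
    unfold wk
    rw [if_neg (by omega)]
  have he : m none < k := by omega
  have he' : m' none < k := by omega
  set q : ℝ := 1 - 1 / (2 * (k : ℝ)) with hq
  set P : ℝ := ∏ v, (2 / r v) with hP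
  set W : ℝ := κ ^ (m none) * ∏ v, (r v * th k (m none)) ^ (m (some v)) with hW
  set W' : ℝ := κ ^ (m' none) * ∏ v, (r v * th k (m' none)) ^ (m' (some v)) with hW'
  have hW0 : 0 ≤ W := by
    rw [hW]
    refine mul_nonneg (by positivity) (Finset.prod_nonneg fun v _ => pow_nonneg ?_ _)
    exact mul_nonneg (hr v).1.le (d2_th_nonneg he)
  have hW0' : 0 ≤ W' := by
    rw [hW']
    refine mul_nonneg (by positivity) (Finset.prod_nonneg fun v _ => pow_nonneg ?_ _)
    exact mul_nonneg (hr v).1.le (d2_th_nonneg he')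
  have hw : wk k κ r m = ENNReal.ofReal W := by unfold wk; rw [if_pos he]
  have hw' : wk k κ r m' = ENNReal.ofReal W' := by unfold wk; rw [if_pos he']
  set A : ℕ := ∑ v, m (some v) with hA
  set A' : ℕ := ∑ v, m' (some v) with hA'
  refine (nrm_lb_monomial _ (ENNReal.ofReal (κ ^ n * P ^ n * q ^ (A + A') * (W * W'))) n m m'
    ?_).trans ?_
  · intro M h1 h2 h3 h4 h5
    unfold wk
    rw [if_pos (by omega)]
    apply ENNReal.ofReal_le_ofReal
    rw [h1]
    have hprod : ∏ v, (r v * th k (m none + m' none + n)) ^ (M (some v))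
        ≤ ∏ v, ((2 / r v) ^ n * q ^ (m (some v) + m' (some v)) * (r v * th k (m none)) ^ (m (some v))
          * (r v * th k (m' none)) ^ (m' (some v))) := by
      apply Finset.prod_le_prod
      · intro v _
        exact pow_nonneg (mul_nonneg (hr v).1.le (d2_th_nonneg hlt)) _
      · intro v _
        exact d2_one hk (hr v).1 (hr v).2 hn hlt (h4 v)
    have hsplit : ∏ v, ((2 / r v) ^ n * q ^ (m (some v) + m' (some v))
          * (r v * th k (m none)) ^ (m (some v)) * (r v * th k (m' none)) ^ (m' (some v)))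
        = P ^ n * q ^ (A + A') * (∏ v, (r v * th k (m none)) ^ (m (some v)))
          * ∏ v, (r v * th k (m' none)) ^ (m' (some v)) := by
      rw [Finset.prod_mul_distrib, Finset.prod_mul_distrib, Finset.prod_mul_distrib,
        Finset.prod_pow, Finset.prod_pow_eq_pow_sum, Finset.sum_add_distrib]
    rw [hsplit] at hprod
    calc κ ^ (m none + m' none + n) * ∏ v, (r v * th k (m none + m' none + n)) ^ (M (some v))
        ≤ κ ^ (m none + m' none + n) * (P ^ n * q ^ (A + A')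
          * (∏ v, (r v * th k (m none)) ^ (m (some v)))
          * ∏ v, (r v * th k (m' none)) ^ (m' (some v))) :=
          mul_le_mul_of_nonneg_left hprod (by positivity)
      _ = κ ^ n * P ^ n * q ^ (A + A') * (W * W') := by
          rw [hW, hW', pow_add, pow_add]; ring
  · rw [hw, hw']
    have hd := d2_deg m
    have hd' := d2_deg m'
    have hfac := d2_fac (ydeg m + m none) (bdeg m') n A A' k (by omega) (by omega)
    rw [← ENNReal.ofReal_mul (by positivity), ← ENNReal.ofReal_mul hW0,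
      ← ENNReal.ofReal_mul (by positivity)]
    apply ENNReal.ofReal_le_ofReal
    calc κ ^ n * P ^ n * q ^ (A + A') * (W * W')
          * ((((ydeg m + m none).ascFactorial n * (bdeg m').descFactorial n : ℕ) : ℝ)
            / (n.factorial : ℝ))
        ≤ κ ^ n * P ^ n * q ^ (A + A') * (W * W') * (((A : ℝ) + k) ^ n * ((A' : ℝ) + k) ^ n) :=
          mul_le_mul_of_nonneg_left hfac (by positivity)
      _ = κ ^ n * (P ^ n * ((((A : ℝ) + k) ^ n * q ^ A) * (((A' : ℝ) + k) ^ n * q ^ A'))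
            * (W * W')) := by rw [pow_add]; ring
      _ ≤ κ ^ n * (P ^ n * (B * B) * (W * W')) := by
          apply mul_le_mul_of_nonneg_left _ (by positivity)
          apply mul_le_mul_of_nonneg_right _ (by positivity)
          apply mul_le_mul_of_nonneg_left _ (by positivity)
          exact mul_le_mul (hB A) (hB A') (by positivity) hB0.le
      _ ≤ κ * (P ^ n * (B * B) * (W * W')) := by
          apply mul_le_mul_of_nonneg_right _ (by positivity)
          calc κ ^ n ≤ κ ^ 1 := pow_le_pow_of_le_one hκ.le hκ1 hn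
            _ = κ := pow_one κ
      _ = _ := by ring

theorem nrm_wk_comp {k : ℕ} (r : Var d → ℝ) (hr : Rad r) : ∃ C : ℝ, 0 < C ∧ ∀ κ : ℝ, 0 < κ → κ ≤ 1 →
    ∀ f g : Sym d, nrm (wk k κ r) (comp f g)
      ≤ ENNReal.ofReal (1 + C * κ) * (nrm (wk k κ r) f * nrm (wk k κ r) g) := by
  choose C hC0 hC using fun n : ℕ => d2_term (k := k) r hr (n + 1) (by omega)
  have hS : 0 ≤ ∑ n ∈ Finset.range k, C n := Finset.sum_nonneg fun n _ => hC0 n
  refine ⟨(∑ n ∈ Finset.range k, C n) + 1, by positivity, fun κ hκ hκ1 f g => ?_⟩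
  set X := nrm (wk k κ r) f * nrm (wk k κ r) g with hX
  have h0 : nrm (wk k κ r) (lb 0 f g) ≤ X := by
    have := nrm_wk_mul_le hκ hr (k := k) f g
    exact this
  have hbig : ∀ n, k ≤ n → nrm (wk k κ r) (lb n f g) = 0 := by
    intro n hn
    unfold nrm
    rw [ENNReal.tsum_eq_zero]
    intro m
    by_cases hm : m none < k
    · have hfil := Fil.lb (fil_zero f) (fil_zero g) n
      rw [hfil m (by omega)]
      simp
    · unfold wk
      rw [if_neg hm, mul_zero]
  calc nrm (wk k κ r) (comp f g) ≤ ∑' n, nrm (wk k κ r) (lb n f g) := d2_comp_le _ _ _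
    _ = ∑ n ∈ Finset.range (k + 1), nrm (wk k κ r) (lb n f g) := by
        rw [tsum_eq_sum]
        intro n hn
        exact hbig n (by simp at hn; omega)
    _ = (∑ n ∈ Finset.range k, nrm (wk k κ r) (lb (n + 1) f g)) + nrm (wk k κ r) (lb 0 f g) :=
        Finset.sum_range_succ' _ _
    _ ≤ (∑ n ∈ Finset.range k, ENNReal.ofReal (C n * κ) * X) + X :=
        add_le_add (Finset.sum_le_sum fun n _ => hC n κ hκ hκ1 f g) h0
    _ = ENNReal.ofReal (1 + (∑ n ∈ Finset.range k, C n) * κ) * X := by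
        rw [← Finset.sum_mul, ← ENNReal.ofReal_sum_of_nonneg
          (fun n _ => mul_nonneg (hC0 n) hκ.le), ← Finset.sum_mul,
          ENNReal.ofReal_add zero_le_one (by positivity), ENNReal.ofReal_one, add_mul, one_mul,
          add_comm]
    _ ≤ _ := by
        apply mul_le_mul_left
        apply ENNReal.ofReal_le_ofReal
        nlinarith

/-! ## row d3: division by `t`, `y_i` -/

/-- the variable `t` (for `none`), `y_i` (for `some i`) -/
def vV : Option (Fin d) → Var d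
  | none => .t
  | some i => .y i

/-- `f = base f + ∑ j, V j * quo j f`: `quo none f` is the part of `f` divisible by `t`, divided by
`t`; `quo (some i) f` the part free of `t`, `y_0, …, y_(i-1)` and divisible by `y_i`, divided by `y_i` -/
noncomputable def quo (j : Option (Fin d)) : Sym d →ₗ[ℂ] Sym d where
  toFun f := fun m => match j with
    | none => coeff (m + Finsupp.single (some .t) 1) f
    | some i => if m (some .t) = 0 ∧ ∀ l, l < i → m (some (.y l)) = 0 then
        coeff (m + Finsupp.single (some (.y i)) 1) f else 0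
  map_add' f g := by
    ext m
    cases j with
    | none => exact map_add (coeff (m + Finsupp.single (some .t) 1)) f g
    | some i =>
      change (if m (some .t) = 0 ∧ ∀ l, l < i → m (some (.y l)) = 0 then
          coeff (m + Finsupp.single (some (.y i)) 1) (f + g) else 0) =
        (if m (some .t) = 0 ∧ ∀ l, l < i → m (some (.y l)) = 0 then
          coeff (m + Finsupp.single (some (.y i)) 1) f else 0) +
        (if m (some .t) = 0 ∧ ∀ l, l < i → m (some (.y l)) = 0 then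
          coeff (m + Finsupp.single (some (.y i)) 1) g else 0)
      split_ifs
      · rw [map_add]
      · rw [add_zero]
  map_smul' c f := by
    ext m
    cases j with
    | none => exact map_smul (coeff (m + Finsupp.single (some .t) 1)) c f
    | some i =>
      change (if m (some .t) = 0 ∧ ∀ l, l < i → m (some (.y l)) = 0 then
          coeff (m + Finsupp.single (some (.y i)) 1) (c • f) else 0) =
        c • (if m (some .t) = 0 ∧ ∀ l, l < i → m (some (.y l)) = 0 then
          coeff (m + Finsupp.single (some (.y i)) 1) f else 0)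
      split_ifs
      · rw [map_smul]
      · rw [smul_zero]

/-- the part of `f` in `x`, `s` only -/
noncomputable def bas : Sym d →ₗ[ℂ] Sym d where
  toFun f := fun m => if m (some .t) = 0 ∧ ∀ i, m (some (.y i)) = 0 then coeff m f else 0
  map_add' f g := by
    ext m
    change (if m (some .t) = 0 ∧ ∀ i, m (some (.y i)) = 0 then coeff m (f + g) else 0) =
      (if m (some .t) = 0 ∧ ∀ i, m (some (.y i)) = 0 then coeff m f else 0) +
      (if m (some .t) = 0 ∧ ∀ i, m (some (.y i)) = 0 then coeff m g else 0)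
    split_ifs
    · rw [map_add]
    · rw [add_zero]
  map_smul' c f := by
    ext m
    change (if m (some .t) = 0 ∧ ∀ i, m (some (.y i)) = 0 then coeff m (c • f) else 0) =
      c • (if m (some .t) = 0 ∧ ∀ i, m (some (.y i)) = 0 then coeff m f else 0)
    split_ifs
    · rw [map_smul]
    · rw [smul_zero]

/-- private helper of row d3 -/
private lemma d3_bas (f : Sym d) (m : Option (Var d) →₀ ℕ) : coeff m (bas f) =
    if m (some .t) = 0 ∧ ∀ i, m (some (.y i)) = 0 then coeff m f else 0 := rfl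

/-- private helper of row d3 -/
private lemma d3_quo_none (f : Sym d) (m : Option (Var d) →₀ ℕ) :
    coeff m (quo none f) = coeff (m + Finsupp.single (some .t) 1) f := rfl

/-- private helper of row d3 -/
private lemma d3_quo_some (f : Sym d) (i : Fin d) (m : Option (Var d) →₀ ℕ) :
    coeff m (quo (some i) f) = if m (some .t) = 0 ∧ ∀ l, l < i → m (some (.y l)) = 0 then
        coeff (m + Finsupp.single (some (.y i)) 1) f else 0 := rfl

/-- private helper of row d3: the coefficients of a product with a variable -/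
private lemma d3_coeff_mul_X (f : Sym d) (v : Option (Var d)) (m : Option (Var d) →₀ ℕ) :
    coeff m (f * X v) = if 1 ≤ m v then coeff (m - Finsupp.single v 1) f else 0 := by
  have h1 : (X v : Sym d) = monomial (Finsupp.single v 1) 1 := rfl
  classical
  rw [h1, coeff_mul_monomial, mul_one]
  simp only [Finsupp.single_le_iff]

lemma base_bas (f : Sym d) : Base (bas f) := by
  intro m hm
  rw [d3_bas, if_neg]
  rintro ⟨h1, h2⟩
  rcases hm with hm | ⟨i, hi⟩
  · exact hm h1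
  · exact hi (h2 i)

/-- private helper of row d3 -/
private lemma d3_sub_self (m : Option (Var d) →₀ ℕ) (v : Option (Var d)) (h : 1 ≤ m v) :
    m - Finsupp.single v 1 + Finsupp.single v 1 = m :=
  tsub_add_cancel_of_le (by rwa [Finsupp.single_le_iff])

/-- private helper of row d3 -/
private lemma d3_sub_apply (m : Option (Var d) →₀ ℕ) (v u : Option (Var d)) (h : u ≠ v) :
    (m - Finsupp.single v 1 : Option (Var d) →₀ ℕ) u = m u := by
  classical
  rw [Finsupp.tsub_apply, Finsupp.single_eq_of_ne h, tsub_zero]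

/-- private helper of row d3 -/
private lemma d3_decomp (f : Sym d) :
    f = bas f + (quo none f * X (some .t) + ∑ i, quo (some i) f * X (some (.y i))) := by
  ext m
  rw [map_add, map_add, map_sum, d3_bas, d3_coeff_mul_X]
  simp only [d3_coeff_mul_X, d3_quo_none, d3_quo_some]
  by_cases ht : m (some .t) = 0
  · rw [if_neg (by omega : ¬ 1 ≤ m (some .t)), zero_add]
    by_cases hy : ∀ i, m (some (.y i)) = 0
    · rw [if_pos ⟨ht, hy⟩, Finset.sum_eq_zero, add_zero]
      intro i _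
      rw [if_neg (by rw [hy i]; omega)]
    · rw [if_neg (fun h => hy h.2), zero_add]
      push Not at hy
      classical
      obtain ⟨i0, h0, hmin⟩ : ∃ i0 : Fin d, m (some (.y i0)) ≠ 0 ∧
          ∀ l, l < i0 → m (some (.y l)) = 0 := by
        have hne : ∃ i, m (some (.y i)) ≠ 0 := hy
        refine ⟨Fin.find (fun i => m (some (.y i)) ≠ 0) hne,
          Fin.find_spec (p := fun i => m (some (.y i)) ≠ 0) hne, fun l hl => ?_⟩
        exact not_not.1 (Fin.find_min hne hl)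
      rw [Finset.sum_eq_single i0]
      · rw [if_pos (by omega), if_pos, d3_sub_self _ _ (by omega)]
        refine ⟨by
          rw [d3_sub_apply m (some (.y i0)) (some .t) (by simp)]; exact ht, fun l hl => ?_⟩
        rw [d3_sub_apply m (some (.y i0)) (some (.y l)) (by simpa using hl.ne)]
        exact hmin l hl
      · intro i _ hi
        split_ifs with h1 h2
        · exfalso
          rcases lt_trichotomy i i0 with hlt | heq | hgt
          · have := hmin i hlt
            omega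
          · exact hi heq
          · have h3 := h2.2 i0 hgt
            rw [d3_sub_apply m (some (.y i)) (some (.y i0)) (by simpa using hgt.ne)] at h3
            exact h0 h3
        · rfl
        · rfl
      · intro h
        exact absurd (Finset.mem_univ i0) h
  · rw [if_neg (fun h => ht h.1), zero_add, if_pos (by omega : 1 ≤ m (some .t)),
      d3_sub_self _ _ (by omega), Finset.sum_eq_zero, add_zero]
    intro i _
    split_ifs with h1 h2
    · exfalso
      have h3 := h2.1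
      rw [d3_sub_apply m (some (.y i)) (some .t) (by simp)] at h3
      exact ht h3
    · rfl
    · rfl

/-- in terms of the composition -/
lemma quo_eq (f : Sym d) : f = bas f + ∑ j, comp (quo j f) (V j) - D none (quo none f) := by
  have h1 := d3_decomp f
  rw [Fintype.sum_option]
  have h2 : comp (quo none f) (V none) = quo none f * X (some .t) + D none (quo none f) :=
    comp_vt_right _
  have h3 : ∀ i : Fin d, comp (quo (some i) f) (V (some i)) =
      quo (some i) f * X (some (.y i)) := fun i => comp_vy_right _ i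
  rw [h2, Finset.sum_congr rfl fun i _ => h3 i]
  nth_rewrite 1 [h1]
  ring
lemma nrm_bas_le (w : (Option (Var d) →₀ ℕ) → ℝ≥0∞) (f : Sym d) : nrm w (bas f) ≤ nrm w f := by
  refine nrm_le_of_coeff w fun m => ?_
  rw [d3_bas]
  split_ifs
  · exact le_rfl
  · rw [norm_zero]; exact norm_nonneg _

/-- private helper of row d3 -/
private lemma d3_th {k e : ℕ} (h : e < k) : 1 / 2 ≤ th k e := by
  rw [th]
  have hk : (0 : ℝ) < k := by exact_mod_cast (Nat.zero_le e).trans_lt h
  have : (e : ℝ) / (2 * k) ≤ 1 / 2 := by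
    rw [div_le_div_iff₀ (by positivity) (by norm_num)]
    have : (e : ℝ) ≤ k := by exact_mod_cast h.le
    linarith
  linarith

/-- private helper of row d3 -/
private lemma d3_wk {k : ℕ} {κ : ℝ} (hκ : 0 < κ) {r : Var d → ℝ} (hr : Rad r) (v : Var d)
    (m : Option (Var d) →₀ ℕ) :
    wk k κ r m ≤ ENNReal.ofReal (2 / r v) * wk k κ r (m + Finsupp.single (some v) 1) := by
  classical
  have h0 : (m + Finsupp.single (some v) 1 : Option (Var d) →₀ ℕ) none = m none := by
    rw [Finsupp.add_apply, Finsupp.single_eq_of_ne (by simp), add_zero]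
  rw [wk, wk, h0]
  split_ifs with h
  · rw [← ENNReal.ofReal_mul (by have := (hr v).1; positivity)]
    refine ENNReal.ofReal_le_ofReal ?_
    have hth := d3_th h
    have h1 : ∏ u, (r u * th k (m none)) ^
          ((m + Finsupp.single (some v) 1 : Option (Var d) →₀ ℕ) (some u)) =
        (∏ u, (r u * th k (m none)) ^ (m (some u))) * (r v * th k (m none)) := by
      have h2 : ∀ u : Var d, (r u * th k (m none)) ^
          ((m + Finsupp.single (some v) 1 : Option (Var d) →₀ ℕ) (some u)) =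
          (r u * th k (m none)) ^ (m (some u)) *
            (if u = v then (r u * th k (m none)) else 1) := fun u => by
        rw [Finsupp.add_apply, pow_add]
        congr 1
        split_ifs with huv
        · rw [huv, Finsupp.single_eq_same, pow_one]
        · rw [Finsupp.single_eq_of_ne (by simpa using huv), pow_zero]
      rw [Finset.prod_congr rfl fun u _ => h2 u, Finset.prod_mul_distrib,
        Finset.prod_ite_eq' Finset.univ v, if_pos (Finset.mem_univ v)]
    rw [h1]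
    have hrv := (hr v).1
    have h3 : (0 : ℝ) ≤ κ ^ (m none) * ∏ u, (r u * th k (m none)) ^ (m (some u)) := by
      refine mul_nonneg (pow_nonneg hκ.le _) (Finset.prod_nonneg fun u _ => pow_nonneg ?_ _)
      exact mul_nonneg (hr u).1.le (by linarith)
    have h4 : 1 ≤ 2 / r v * (r v * th k (m none)) := by
      have h5 : 2 / r v * (r v * th k (m none)) = 2 * th k (m none) := by field_simp
      rw [h5]; linarith
    calc κ ^ (m none) * ∏ u, (r u * th k (m none)) ^ (m (some u))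
        ≤ (κ ^ (m none) * ∏ u, (r u * th k (m none)) ^ (m (some u))) *
            (2 / r v * (r v * th k (m none))) := le_mul_of_one_le_right h3 h4
      _ = _ := by ring
  · exact zero_le

/-- private helper of row d3 -/
private lemma d3_nrm {k : ℕ} {κ : ℝ} (hκ : 0 < κ) {r : Var d → ℝ} (hr : Rad r) (v : Var d)
    (f g : Sym d) (h : ∀ m, ‖coeff m g‖ ≤ ‖coeff (m + Finsupp.single (some v) 1) f‖) :
    nrm (wk k κ r) g ≤ ENNReal.ofReal (2 / r v) * nrm (wk k κ r) f := by
  have hinj : Function.Injective fun m : Option (Var d) →₀ ℕ => m + Finsupp.single (some v) 1 :=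
    add_left_injective _
  calc nrm (wk k κ r) g = ∑' m, (‖coeff m g‖₊ : ℝ≥0∞) * wk k κ r m := rfl
    _ ≤ ∑' m, ENNReal.ofReal (2 / r v) *
          ((‖coeff (m + Finsupp.single (some v) 1) f‖₊ : ℝ≥0∞) *
            wk k κ r (m + Finsupp.single (some v) 1)) := by
        refine ENNReal.tsum_le_tsum fun m => ?_
        have h1 : (‖coeff m g‖₊ : ℝ≥0∞) ≤ ‖coeff (m + Finsupp.single (some v) 1) f‖₊ := by
          exact_mod_cast h m
        calc (‖coeff m g‖₊ : ℝ≥0∞) * wk k κ r m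
            ≤ ‖coeff (m + Finsupp.single (some v) 1) f‖₊ *
              (ENNReal.ofReal (2 / r v) * wk k κ r (m + Finsupp.single (some v) 1)) :=
              mul_le_mul' h1 (d3_wk hκ hr v m)
          _ = _ := by ring
    _ = ENNReal.ofReal (2 / r v) * ∑' m, ((‖coeff (m + Finsupp.single (some v) 1) f‖₊ : ℝ≥0∞) *
            wk k κ r (m + Finsupp.single (some v) 1)) := ENNReal.tsum_mul_left
    _ ≤ ENNReal.ofReal (2 / r v) * nrm (wk k κ r) f :=
        mul_le_mul' le_rfl (ENNReal.tsum_comp_le_tsum_of_injective hinj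
          (fun m => (‖coeff m f‖₊ : ℝ≥0∞) * wk k κ r m))

lemma nrm_wk_quo {k : ℕ} {κ : ℝ} (hκ : 0 < κ) {r : Var d → ℝ} (hr : Rad r) (j : Option (Fin d))
    (f : Sym d) :
    nrm (wk k κ r) (quo j f) ≤ ENNReal.ofReal (2 / r (vV j)) * nrm (wk k κ r) f := by
  cases j with
  | none => exact d3_nrm hκ hr .t f _ fun m => by rw [d3_quo_none]
  | some i =>
    refine d3_nrm hκ hr (.y i) f _ fun m => ?_
    rw [d3_quo_some]
    split_ifs
    · exact le_rfl
    · rw [norm_zero]; exact norm_nonneg _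

/-! ## row d4: smallness -/

/-- no coefficient at monomials in `t`, `y` only: `f ∈ ∑ x_i Sym + s Sym` -/
def Small (f : Sym d) : Prop :=
  ∀ m, m none = 0 → (∀ i, m (some (.x i)) = 0) → coeff m f = 0

private lemma d4_deg (m : Option (Var d) →₀ ℕ) : m.degree = m none + ∑ v, m (some v) := by
  rw [Finsupp.degree_eq_sum, Fintype.sum_option]

private lemma d4_th {k e : ℕ} (h : e < k) : 1 / 2 ≤ th k e ∧ th k e ≤ 1 := by
  have hk : (0 : ℝ) < k := by exact_mod_cast (by omega : 0 < k)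
  have he : (e : ℝ) ≤ k := by exact_mod_cast h.le
  unfold th
  have h1 : (e : ℝ) / (2 * k) ≤ 1 / 2 := by
    rw [div_le_iff₀ (by positivity)]; linarith
  have h2 : 0 ≤ (e : ℝ) / (2 * k) := by positivity
  constructor <;> linarith

/-- upper bound for the weight -/
private lemma d4_upper {k : ℕ} {κ : ℝ} {r : Var d → ℝ} {ρ : ℝ} (hκ : 0 < κ) (hr : ∀ v, 0 < r v)
    (h : ∀ v, r v ≤ ρ) {m : Option (Var d) →₀ ℕ} (hm : m none < k) :
    κ ^ (m none) * ∏ v, (r v * th k (m none)) ^ (m (some v)) ≤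
      κ ^ (m none) * ρ ^ (∑ v, m (some v)) := by
  refine mul_le_mul_of_nonneg_left ?_ (by positivity)
  rw [← Finset.prod_pow_eq_pow_sum]
  obtain ⟨h1, h2⟩ := d4_th hm
  refine Finset.prod_le_prod (fun v _ => ?_) (fun v _ => ?_)
  · have := hr v; positivity
  · refine pow_le_pow_left₀ (by have := hr v; positivity) ?_ _
    have := hr v; have := h v
    nlinarith

/-- comparison of the norms -/
private lemma d4_nrm_le {w w' : (Option (Var d) →₀ ℕ) → ℝ≥0∞} {c : ℝ≥0∞} {f : Sym d}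
    (h : ∀ m, coeff m f ≠ 0 → w m ≤ c * w' m) : nrm w f ≤ c * nrm w' f := by
  unfold nrm
  rw [← ENNReal.tsum_mul_left]
  refine ENNReal.tsum_le_tsum fun m => ?_
  by_cases hm : coeff m f = 0
  · simp [hm]
  · calc (‖coeff m f‖₊ : ℝ≥0∞) * w m ≤ (‖coeff m f‖₊ : ℝ≥0∞) * (c * w' m) := by
          gcongr; exact h m hm
      _ = c * ((‖coeff m f‖₊ : ℝ≥0∞) * w' m) := by ring

/-- the constant `C_k` -/
private lemma d4_const {ρ : ℝ} (hρ : 0 < ρ) {τ : ℕ → ℝ} (hτ : ∀ e, 0 < τ e) (k : ℕ) :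
    ∃ C : ℝ, 0 < C ∧ ∀ e, e < k → 1 ≤ C * (ρ ^ e * τ e) := by
  induction k with
  | zero => exact ⟨1, one_pos, fun e he => absurd he (by omega)⟩
  | succ k ih =>
    obtain ⟨C, hC, h⟩ := ih
    have hx : 0 < ρ ^ k * τ k := mul_pos (pow_pos hρ k) (hτ k)
    refine ⟨C + (ρ ^ k * τ k)⁻¹, by positivity, fun e he => ?_⟩
    rw [add_mul]
    have hy : 0 < ρ ^ e * τ e := mul_pos (pow_pos hρ e) (hτ e)
    rcases Nat.lt_succ_iff_lt_or_eq.mp he with he | he
    · have := h e he
      have : 0 < (ρ ^ k * τ k)⁻¹ * (ρ ^ e * τ e) := by positivity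
      linarith
    · subst he
      rw [inv_mul_cancel₀ hx.ne']
      have : 0 < C * (ρ ^ e * τ e) := by positivity
      linarith

private lemma d4_rad_pos {ρ σ : ℝ} (hρ : 0 < ρ) (hσ : 0 < σ) (v : Var d) : 0 < rad ρ σ v := by
  cases v <;> assumption

private lemma d4_rad_le {ρ σ R : ℝ} (hρ : ρ ≤ R) (hσ : σ ≤ R) (v : Var d) : rad ρ σ v ≤ R := by
  cases v <;> assumption

/-- lower bound for the weight -/
private lemma d4_lower {r : Var d → ℝ} (hr : Rad r) : ∃ ρ : ℝ, 0 < ρ ∧ ρ ≤ 1 ∧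
    ∀ (k : ℕ) (κ : ℝ), 0 < κ → ∀ m : Option (Var d) →₀ ℕ, m none < k →
      κ ^ (m none) * ρ ^ m.degree ≤ κ ^ (m none) * ∏ v, (r v * th k (m none)) ^ (m (some v)) := by
  obtain ⟨v0, _, hv0⟩ := Finset.exists_min_image (Finset.univ : Finset (Var d)) r ⟨.t, by simp⟩
  refine ⟨r v0 / 2, by have := (hr v0).1; positivity, by have := (hr v0).2; linarith, ?_⟩
  intro k κ hκ m hm
  refine mul_le_mul_of_nonneg_left ?_ (by positivity)
  have h0 : 0 < r v0 / 2 := by have := (hr v0).1; positivity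
  have h1 : r v0 / 2 ≤ 1 := by have := (hr v0).2; linarith
  obtain ⟨ht1, ht2⟩ := d4_th hm
  calc (r v0 / 2) ^ m.degree ≤ (r v0 / 2) ^ (∑ v, m (some v)) := by
        apply pow_le_pow_of_le_one h0.le h1
        rw [d4_deg m]; omega
    _ = ∏ v, (r v0 / 2) ^ (m (some v)) := (Finset.prod_pow_eq_pow_sum _ _ _).symm
    _ ≤ _ := by
        refine Finset.prod_le_prod (fun v _ => by positivity) (fun v _ => ?_)
        refine pow_le_pow_left₀ h0.le ?_ _
        have := hv0 v (Finset.mem_univ v)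
        have := (hr v).1
        nlinarith

/-- a bound for the coefficients from the norm -/
private lemma d4_coeff {r : Var d → ℝ} {ρ : ℝ} (hρ : 0 < ρ)
    (hlow : ∀ (k : ℕ) (κ : ℝ), 0 < κ → ∀ m : Option (Var d) →₀ ℕ, m none < k →
      κ ^ (m none) * ρ ^ m.degree ≤ κ ^ (m none) * ∏ v, (r v * th k (m none)) ^ (m (some v)))
    {k : ℕ} {κ B : ℝ} (hκ : 0 < κ) (hB : 0 ≤ B) {f : Sym d}
    (h : nrm (wk k κ r) f ≤ ENNReal.ofReal B) {m : Option (Var d) →₀ ℕ} (hm : m none < k) :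
    ‖coeff m f‖ ≤ B * (κ⁻¹) ^ (m none) * (ρ⁻¹) ^ m.degree := by
  have h1 : (‖coeff m f‖₊ : ℝ≥0∞) * wk k κ r m ≤ ENNReal.ofReal B :=
    (coeff_le_nrm _ f m).trans h
  have h2 : ENNReal.ofReal (κ ^ (m none) * ρ ^ m.degree) ≤ wk k κ r m := by
    unfold wk
    rw [if_pos hm]
    exact ENNReal.ofReal_le_ofReal (hlow k κ hκ m hm)
  have h3 : (‖coeff m f‖₊ : ℝ≥0∞) * ENNReal.ofReal (κ ^ (m none) * ρ ^ m.degree) ≤
      ENNReal.ofReal B := (by gcongr : _ ≤ (‖coeff m f‖₊ : ℝ≥0∞) * wk k κ r m).trans h1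
  have h4 : (‖coeff m f‖₊ : ℝ≥0∞) = ENNReal.ofReal ‖coeff m f‖ := by
    rw [ofReal_norm]; rfl
  rw [h4, ← ENNReal.ofReal_mul (norm_nonneg _)] at h3
  have h5 := (ENNReal.ofReal_le_ofReal_iff hB).mp h3
  have h6 : 0 < κ ^ (m none) * ρ ^ m.degree := by positivity
  rw [inv_pow, inv_pow, mul_assoc, ← mul_inv]
  rw [← div_eq_mul_inv, le_div_iff₀ h6]
  exact h5

/-- formal symbols have finite norms for small radii -/
lemma exists_radius {f : Sym d} (hf : IsFormal f) : ∃ R : ℝ, 0 < R ∧ R ≤ 1 ∧ ∀ ρ σ : ℝ, 0 < ρ → ρ ≤ R →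
    0 < σ → σ ≤ R → ∀ k κ, 0 < κ → κ ≤ 1 → nrm (wk k κ (rad ρ σ)) f < ∞ := by
  obtain ⟨ρ1, hρ1, τ, hτ, hfin⟩ := (isFormal_iff f).mp hf
  refine ⟨min 1 ρ1, lt_min one_pos hρ1, min_le_left _ _, ?_⟩
  intro ρ σ hρ hρR hσ hσR k κ hκ hκ1
  obtain ⟨C, hC, hCk⟩ := d4_const hρ1 hτ k
  refine lt_of_le_of_lt (d4_nrm_le (c := ENNReal.ofReal C) (w' := wt ρ1 τ) fun m _ => ?_)
    (ENNReal.mul_lt_top ENNReal.ofReal_lt_top hfin)
  unfold wk wt
  split_ifs with hm
  · rw [← ENNReal.ofReal_mul hC.le]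
    apply ENNReal.ofReal_le_ofReal
    refine (d4_upper hκ (d4_rad_pos hρ hσ) (d4_rad_le (hρR.trans (min_le_right _ _))
      (hσR.trans (min_le_right _ _))) hm).trans ?_
    have h1 : κ ^ (m none) ≤ 1 := pow_le_one₀ hκ.le hκ1
    have h2 : 0 < ρ1 ^ (∑ v, m (some v)) := by positivity
    calc κ ^ (m none) * ρ1 ^ (∑ v, m (some v)) ≤ 1 * ρ1 ^ (∑ v, m (some v)) := by gcongr
      _ ≤ (C * (ρ1 ^ (m none) * τ (m none))) * ρ1 ^ (∑ v, m (some v)) := by
          gcongr; exact hCk _ hm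
      _ = C * (ρ1 ^ m.degree * τ (m none)) := by
          rw [d4_deg m, pow_add]; ring
  · exact zero_le

/-- `Small` symbols have small norms, after `σ` choose `ρ`, after `k` choose `κ` -/
lemma exists_small {f : Sym d} (hf : IsFormal f) (hs : Small f) : ∃ R : ℝ, 0 < R ∧ R ≤ 1 ∧
    ∀ σ : ℝ, 0 < σ → σ ≤ R → ∀ ε : ℝ, 0 < ε → ∃ ρ0 : ℝ, 0 < ρ0 ∧ ρ0 ≤ σ ∧ ∀ ρ, 0 < ρ → ρ ≤ ρ0 → ∀ k,
      ∃ κ0 : ℝ, 0 < κ0 ∧ κ0 ≤ 1 ∧ ∀ κ, 0 < κ → κ ≤ κ0 →
        nrm (wk k κ (rad ρ σ)) f ≤ ENNReal.ofReal ε := by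
  obtain ⟨ρ1, hρ1, τ, hτ, hfin⟩ := (isFormal_iff f).mp hf
  set A : ℝ := (nrm (wt ρ1 τ) f).toReal with hA
  have hA0 : 0 ≤ A := ENNReal.toReal_nonneg
  have hAeq : nrm (wt ρ1 τ) f = ENNReal.ofReal A := (ENNReal.ofReal_toReal hfin.ne).symm
  refine ⟨min 1 ρ1, lt_min one_pos hρ1, min_le_left _ _, ?_⟩
  intro σ hσ hσR ε hε
  have hσ1 : σ ≤ ρ1 := hσR.trans (min_le_right _ _)
  set a : ℝ := 2 * (A + 1) / (ρ1 * τ 0) with ha
  have ha0 : 0 < a := by have := hτ 0; positivity
  refine ⟨min σ (ε / a), lt_min hσ (by positivity), min_le_left _ _, ?_⟩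
  intro ρ hρ hρ0 k
  have hρσ : ρ ≤ σ := hρ0.trans (min_le_left _ _)
  have hρε : ρ ≤ ε / a := hρ0.trans (min_le_right _ _)
  obtain ⟨C, hC, hCk⟩ := d4_const hρ1 hτ k
  refine ⟨min 1 (ε / (2 * C * (A + 1))), lt_min one_pos (by positivity), min_le_left _ _, ?_⟩
  intro κ hκ hκ0
  have hκ1 : κ ≤ 1 := hκ0.trans (min_le_left _ _)
  have hκε : κ ≤ ε / (2 * C * (A + 1)) := hκ0.trans (min_le_right _ _)
  set c : ℝ := ρ / (ρ1 * τ 0) + κ * C with hc
  have hc0 : 0 ≤ c := by have := hτ 0; positivity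
  have hle : nrm (wk k κ (rad ρ σ)) f ≤ ENNReal.ofReal c * nrm (wt ρ1 τ) f := by
    refine d4_nrm_le fun m hm0 => ?_
    unfold wk wt
    split_ifs with hm
    · rw [← ENNReal.ofReal_mul hc0]
      apply ENNReal.ofReal_le_ofReal
      by_cases he : m none = 0
      · -- some `x` exponent is positive
        have hex : ∃ i, m (some (.x i)) ≠ 0 := by
          by_contra hcon
          push Not at hcon
          exact hm0 (hs m he hcon)
        obtain ⟨i, hi⟩ := hex
        have h1 : κ ^ (m none) * ∏ v, (rad ρ σ v * th k (m none)) ^ (m (some v)) ≤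
            (ρ / ρ1) * ρ1 ^ (∑ v, m (some v)) := by
          rw [he, pow_zero, one_mul]
          rw [← Finset.prod_pow_eq_pow_sum]
          rw [← Finset.mul_prod_erase _ _ (Finset.mem_univ (Var.x i)),
            ← Finset.mul_prod_erase _ _ (Finset.mem_univ (Var.x i))]
          have hk0 : (0 : ℕ) < k := by omega
          obtain ⟨ht1, ht2⟩ := d4_th hk0
          have e1 : ∏ v ∈ Finset.univ.erase (Var.x i), (rad ρ σ v * th k 0) ^ (m (some v)) ≤
              ∏ v ∈ Finset.univ.erase (Var.x i), ρ1 ^ (m (some v)) := by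
            refine Finset.prod_le_prod (fun v _ => ?_) (fun v _ => ?_)
            · have := d4_rad_pos hρ hσ v; positivity
            · refine pow_le_pow_left₀ (by have := d4_rad_pos hρ hσ v; positivity) ?_ _
              have h3 := d4_rad_pos hρ hσ v
              have h4 := d4_rad_le (hρσ.trans hσ1) hσ1 v
              nlinarith
          have e2 : (rad ρ σ (Var.x i) * th k 0) ^ (m (some (.x i))) ≤
              (ρ / ρ1) * ρ1 ^ (m (some (.x i))) := by
            obtain ⟨q, hq⟩ := Nat.exists_eq_succ_of_ne_zero hi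
            rw [hq, pow_succ, pow_succ]
            have h5 : rad ρ σ (Var.x i) = ρ := rfl
            rw [h5]
            have h6 : (ρ * th k 0) ^ q ≤ ρ1 ^ q := by
              refine pow_le_pow_left₀ (by positivity) ?_ _
              nlinarith [hρσ.trans hσ1]
            have h7 : ρ * th k 0 ≤ ρ := by nlinarith
            calc (ρ * th k 0) ^ q * (ρ * th k 0) ≤ ρ1 ^ q * ρ := by
                  refine mul_le_mul h6 h7 (by positivity) (by positivity)
              _ = ρ / ρ1 * (ρ1 ^ q * ρ1) := by field_simp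
          calc _ ≤ ((ρ / ρ1) * ρ1 ^ (m (some (.x i)))) *
                ∏ v ∈ Finset.univ.erase (Var.x i), ρ1 ^ (m (some v)) := by
                refine mul_le_mul e2 e1 ?_ (by positivity)
                exact Finset.prod_nonneg fun v _ => by
                  have := d4_rad_pos hρ hσ v; positivity
            _ = _ := by ring
        refine h1.trans ?_
        have h8 : ρ1 ^ m.degree * τ (m none) = ρ1 ^ (∑ v, m (some v)) * τ 0 := by
          rw [d4_deg m, he, zero_add]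
        rw [h8, hc, add_mul]
        have h9 : ρ / (ρ1 * τ 0) * (ρ1 ^ (∑ v, m (some v)) * τ 0) =
            (ρ / ρ1) * ρ1 ^ (∑ v, m (some v)) := by
          have := (hτ 0).ne'
          field_simp
        rw [h9]
        have h10 : 0 ≤ κ * C * (ρ1 ^ (∑ v, m (some v)) * τ 0) := by
          have := hτ 0; positivity
        linarith
      · refine (d4_upper hκ (d4_rad_pos hρ hσ) (d4_rad_le (hρσ.trans hσ1) hσ1) hm).trans ?_
        obtain ⟨q, hq⟩ := Nat.exists_eq_succ_of_ne_zero he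
        have h1 : κ ^ (m none) ≤ κ := by
          rw [hq, pow_succ]
          have : κ ^ q ≤ 1 := pow_le_one₀ hκ.le hκ1
          nlinarith
        calc κ ^ (m none) * ρ1 ^ (∑ v, m (some v)) ≤ κ * ρ1 ^ (∑ v, m (some v)) := by gcongr
          _ = κ * (1 * ρ1 ^ (∑ v, m (some v))) := by ring
          _ ≤ κ * ((C * (ρ1 ^ (m none) * τ (m none))) * ρ1 ^ (∑ v, m (some v))) := by
              gcongr; exact hCk _ hm
          _ = κ * C * (ρ1 ^ m.degree * τ (m none)) := by
              rw [d4_deg m, pow_add]; ring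
          _ ≤ c * (ρ1 ^ m.degree * τ (m none)) := by
              have h2 : 0 < ρ1 ^ m.degree * τ (m none) := by
                have := hτ (m none); positivity
              have h3 : 0 ≤ ρ / (ρ1 * τ 0) := by have := hτ 0; positivity
              rw [hc]; nlinarith
    · exact zero_le
  refine hle.trans ?_
  rw [hAeq, ← ENNReal.ofReal_mul hc0]
  apply ENNReal.ofReal_le_ofReal
  rw [hc, add_mul]
  have h1 : ρ / (ρ1 * τ 0) * A ≤ ε / 2 := by
    have h2 : ρ * a ≤ ε := by rwa [le_div_iff₀ ha0] at hρε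
    have h3 : ρ / (ρ1 * τ 0) * (A + 1) * 2 = ρ * a := by
      rw [ha]; ring
    have h4 : 0 ≤ ρ / (ρ1 * τ 0) := by have := hτ 0; positivity
    nlinarith
  have h5 : κ * C * A ≤ ε / 2 := by
    rw [le_div_iff₀ (by positivity)] at hκε
    have h6 : 0 ≤ κ * C := by positivity
    nlinarith
  linarith

/-- finite norms at all levels with the same radii: formal -/
lemma isFormal_of_wk {f : Sym d} {r : Var d → ℝ} (hr : Rad r)
    (h : ∀ k, ∃ κ : ℝ, 0 < κ ∧ nrm (wk k κ r) f < ∞) : IsFormal f := by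
  obtain ⟨ρ, hρ, hρ1, hlow⟩ := d4_lower hr
  refine ⟨ρ⁻¹, by positivity, fun j => ?_⟩
  obtain ⟨κ, hκ, hfin⟩ := h (j + 1)
  refine ⟨(nrm (wk (j + 1) κ r) f).toReal * (κ⁻¹) ^ j, fun m hm => ?_⟩
  have := d4_coeff hρ hlow hκ ENNReal.toReal_nonneg
    (f := f) (k := j + 1) (B := (nrm (wk (j + 1) κ r) f).toReal)
    (by rw [ENNReal.ofReal_toReal hfin.ne]) (m := m) (by omega)
  rw [hm] at this
  exact this

/-! ## row d5: the contraction -/

/-- the `I` part of one step of the division -/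
noncomputable def stepI {m q : ℕ} (N : Option (Fin d) → Matrix (Fin m) (Fin m) ℂ)
    (c : Matrix (Fin q) (Fin m) ℂ) (F : Fin m → Sym d) (G : Fin q → Sym d) : Fin m → Sym d :=
  fun i' => (∑ j, rmul (fun i => quo j (F i)) (N j) i') - D none (quo none (F i')) + ∑ k, c k i' • G k

/-- the `J` part of one step of the division -/
noncomputable def stepJ {m q : ℕ} (K : Option (Fin d) → Matrix (Fin m) (Fin q) (Sym d))
    (Θ : Matrix (Fin q) (Fin q) (Sym d)) (F : Fin m → Sym d) (G : Fin q → Sym d) : Fin q → Sym d :=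
  fun k' => (∑ j, ∑ i, comp (quo j (F i)) (K j i k')) + ∑ k, comp (G k) (Θ k k')

section d5
open Filter Topology

private lemma d5_ev {P : ℝ → Prop} (h : ∃ R : ℝ, 0 < R ∧ ∀ x, 0 < x → x ≤ R → P x) :
    ∀ᶠ x in 𝓝[>] (0:ℝ), P x := by
  obtain ⟨R, hR, h⟩ := h
  filter_upwards [Ioc_mem_nhdsGT hR] with x hx using h x hx.1 hx.2

/-- the conclusion of `exists_small` for a given `σ` -/
private def d5_Q (f : Sym d) (σ : ℝ) : Prop :=
  ∀ ε : ℝ, 0 < ε → ∃ ρ0 : ℝ, 0 < ρ0 ∧ ρ0 ≤ σ ∧ ∀ ρ, 0 < ρ → ρ ≤ ρ0 → ∀ k,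
      ∃ κ0 : ℝ, 0 < κ0 ∧ κ0 ≤ 1 ∧ ∀ κ, 0 < κ → κ ≤ κ0 →
        nrm (wk k κ (rad ρ σ)) f ≤ ENNReal.ofReal ε

private lemma d5_Q_ev {f : Sym d} (hf : IsFormal f ∧ Small f) : ∀ᶠ σ in 𝓝[>] (0:ℝ), d5_Q f σ := by
  obtain ⟨R, hR, -, h⟩ := exists_small hf.1 hf.2
  exact d5_ev ⟨R, hR, fun σ h1 h2 => h σ h1 h2⟩

private lemma d5_F_ev {f : Sym d} (hf : IsFormal f) : ∀ᶠ σ in 𝓝[>] (0:ℝ),
    ∀ ρ : ℝ, 0 < ρ → ρ ≤ σ → ∀ k κ, 0 < κ → κ ≤ 1 → nrm (wk k κ (rad ρ σ)) f < ∞ := by
  obtain ⟨R, hR, -, h⟩ := exists_radius hf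
  exact d5_ev ⟨R, hR, fun σ h1 h2 ρ h3 h4 => h ρ σ h3 (h4.trans h2) h1 h2⟩

private lemma d5_stepI {m q : ℕ} (N : Option (Fin d) → Matrix (Fin m) (Fin m) ℂ)
    (c : Matrix (Fin q) (Fin m) ℂ) {p : Sym d → ℝ≥0∞} (hp : SN p) {ε σ δ C : ℝ} (hε : 0 < ε)
    {L : ℕ} (hL : ∀ F : Fin m → Sym d, sn p N L F = 0)
    (hq : ∀ j (f : Sym d), p (quo j f) ≤ ENNReal.ofReal (2 / σ) * p f)
    (hD : ∀ f : Sym d, p (D none f) ≤ ENNReal.ofReal δ * p f)
    (hC : ∀ F : Fin m → Sym d, vn p N ε L F ≤ ENNReal.ofReal C * ∑ i, p (F i))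
    (F : Fin m → Sym d) (G : Fin q → Sym d) :
    vn p N ε L (stepI N c F G) ≤
      ((d + 1 : ℕ) : ℝ≥0∞) * (ENNReal.ofReal ε * (ENNReal.ofReal (2 / σ) * vn p N ε L F))
        + ENNReal.ofReal δ * (ENNReal.ofReal (2 / σ) * vn p N ε L F)
        + ENNReal.ofReal C * ((∑ i, ∑ k, (‖c k i‖₊ : ℝ≥0∞)) * ∑ k, p (G k)) := by
  have hsplit : stepI N c F G = (∑ j, rmul (fun i => quo j (F i)) (N j))
      + (-1 : ℂ) • (fun i' => D none (quo none (F i'))) + (fun i' => ∑ k, c k i' • G k) := by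
    funext i'
    simp only [stepI, Pi.add_apply, Pi.neg_apply, Finset.sum_apply, neg_smul, one_smul]
    rw [sub_eq_add_neg]
  rw [hsplit]
  refine (vn_add_le hp N ε L _ _).trans (add_le_add ((vn_add_le hp N ε L _ _).trans
    (add_le_add ?_ ?_)) ?_)
  · refine (vn_sum_le hp N ε L _ _).trans ?_
    have h1 : ∀ j : Option (Fin d), vn p N ε L (rmul (fun i => quo j (F i)) (N j)) ≤
        ENNReal.ofReal ε * (ENNReal.ofReal (2 / σ) * vn p N ε L F) := by
      intro j
      refine (vn_rmul_le hp N hε hL j _).trans (mul_le_mul_right ?_ _)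
      exact vn_map_le hp N ε L (quo j) (hq j) F
    calc ∑ j, vn p N ε L (rmul (fun i => quo j (F i)) (N j))
        ≤ ∑ _j : Option (Fin d), ENNReal.ofReal ε * (ENNReal.ofReal (2 / σ) * vn p N ε L F) :=
          Finset.sum_le_sum fun j _ => h1 j
      _ = _ := by
          rw [Finset.sum_const, Finset.card_univ, Fintype.card_option, Fintype.card_fin,
            nsmul_eq_mul]
  · rw [vn_smul hp]
    have h2 : (‖(-1 : ℂ)‖₊ : ℝ≥0∞) = 1 := by simp
    rw [h2, one_mul]
    have h3 : vn p N ε L (fun i' => ((D none).toLinearMap ∘ₗ quo none) (F i')) ≤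
        (ENNReal.ofReal δ * ENNReal.ofReal (2 / σ)) * vn p N ε L F := by
      refine vn_map_le hp N ε L _ ?_ F
      intro a
      rw [mul_assoc]
      exact (hD _).trans (mul_le_mul_right (hq none a) _)
    rw [mul_assoc] at h3
    exact h3
  · refine (hC _).trans (mul_le_mul_right ?_ _)
    have h4 : ∀ i, p (∑ k, c k i • G k) ≤ ∑ k, (‖c k i‖₊ : ℝ≥0∞) * p (G k) := by
      intro i
      have : ∀ s : Finset (Fin q), p (∑ k ∈ s, c k i • G k) ≤ ∑ k ∈ s, (‖c k i‖₊ : ℝ≥0∞) * p (G k) := by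
        intro s
        induction s using Finset.induction_on with
        | empty => simp [hp.zero]
        | insert a s ha ih =>
          rw [Finset.sum_insert ha, Finset.sum_insert ha]
          exact (hp.add _ _).trans (add_le_add (hp.smul _ _).le ih)
      exact this _
    calc ∑ i, p (∑ k, c k i • G k) ≤ ∑ i, ∑ k, (‖c k i‖₊ : ℝ≥0∞) * p (G k) :=
          Finset.sum_le_sum fun i _ => h4 i
      _ ≤ ∑ i, ∑ k, (‖c k i‖₊ : ℝ≥0∞) * ∑ k, p (G k) := by
          refine Finset.sum_le_sum fun i _ => Finset.sum_le_sum fun k _ => mul_le_mul_right ?_ _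
          exact Finset.single_le_sum (f := fun k => p (G k)) (fun _ _ => zero_le) (Finset.mem_univ k)
      _ = _ := by
          rw [Finset.sum_mul]
          refine Finset.sum_congr rfl fun i _ => ?_
          rw [Finset.sum_mul]

private lemma d5_stepJ {m q : ℕ} (K : Option (Fin d) → Matrix (Fin m) (Fin q) (Sym d))
    (Θ : Matrix (Fin q) (Fin q) (Sym d)) {p : Sym d → ℝ≥0∞} (hp : SN p) {σ ε' : ℝ}
    (hq : ∀ j (f : Sym d), p (quo j f) ≤ ENNReal.ofReal (2 / σ) * p f)
    (hcomp : ∀ f g : Sym d, p (comp f g) ≤ 2 * (p f * p g))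
    (hK : ∀ j i k, p (K j i k) ≤ ENNReal.ofReal ε') (hΘ : ∀ k l, p (Θ k l) ≤ ENNReal.ofReal ε')
    (F : Fin m → Sym d) (G : Fin q → Sym d) :
    ∑ i, p (stepJ K Θ F G i) ≤
      (q : ℝ≥0∞) * ((((d + 1 : ℕ) : ℝ≥0∞) * (2 * ENNReal.ofReal (2 / σ) * ENNReal.ofReal ε')
          * ∑ i, p (F i))
        + 2 * ENNReal.ofReal ε' * ∑ k, p (G k)) := by
  have hsum : ∀ {α : Type} (s : Finset α) (f : α → Sym d), p (∑ k ∈ s, f k) ≤ ∑ k ∈ s, p (f k) := by
    intro α s f
    classical
    induction s using Finset.induction_on with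
    | empty => simp [hp.zero]
    | insert a s ha ih =>
      rw [Finset.sum_insert ha, Finset.sum_insert ha]
      exact (hp.add _ _).trans (add_le_add le_rfl ih)
  have h1 : ∀ k', p (stepJ K Θ F G k') ≤
      (((d + 1 : ℕ) : ℝ≥0∞) * (2 * ENNReal.ofReal (2 / σ) * ENNReal.ofReal ε')
          * ∑ i, p (F i))
        + 2 * ENNReal.ofReal ε' * ∑ k, p (G k) := by
    intro k'
    refine (hp.add _ _).trans (add_le_add ?_ ?_)
    · refine (hsum _ _).trans ?_
      have h2 : ∀ j, p (∑ i, comp (quo j (F i)) (K j i k')) ≤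
          (2 * ENNReal.ofReal (2 / σ) * ENNReal.ofReal ε') * ∑ i, p (F i) := by
        intro j
        refine (hsum _ _).trans ?_
        rw [Finset.mul_sum]
        refine Finset.sum_le_sum fun i _ => ?_
        calc p (comp (quo j (F i)) (K j i k')) ≤ 2 * (p (quo j (F i)) * p (K j i k')) := hcomp _ _
          _ ≤ 2 * ((ENNReal.ofReal (2 / σ) * p (F i)) * ENNReal.ofReal ε') :=
              mul_le_mul_right (mul_le_mul' (hq j _) (hK j i k')) _
          _ = _ := by ring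
      calc ∑ j, p (∑ i, comp (quo j (F i)) (K j i k')) ≤
          ∑ _j : Option (Fin d), (2 * ENNReal.ofReal (2 / σ) * ENNReal.ofReal ε') * ∑ i, p (F i) :=
            Finset.sum_le_sum fun j _ => h2 j
        _ = _ := by
          rw [Finset.sum_const, Finset.card_univ, Fintype.card_option, Fintype.card_fin,
            nsmul_eq_mul]
          ring
    · refine (hsum _ _).trans ?_
      rw [Finset.mul_sum]
      refine Finset.sum_le_sum fun k _ => ?_
      calc p (comp (G k) (Θ k k')) ≤ 2 * (p (G k) * p (Θ k k')) := hcomp _ _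
        _ ≤ 2 * (p (G k) * ENNReal.ofReal ε') :=
            mul_le_mul_right (mul_le_mul_right (hΘ k k') _) _
        _ = _ := by ring
  calc ∑ i, p (stepJ K Θ F G i) ≤ ∑ _i : Fin q, ((((d + 1 : ℕ) : ℝ≥0∞) *
        (2 * ENNReal.ofReal (2 / σ) * ENNReal.ofReal ε') * ∑ i, p (F i))
        + 2 * ENNReal.ofReal ε' * ∑ k, p (G k)) := Finset.sum_le_sum fun k _ => h1 k
    _ = _ := by
      rw [Finset.sum_const, Finset.card_univ, Fintype.card_fin, nsmul_eq_mul]

/-- There are radii, `ε`, `L`, `Λ` such that for each level `k` there is `κ` for which the step is a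
contraction with factor `1/2` for the norm `vn ε L F + Λ ∑ p (G k)`, and `f` has finite norm.
Order of the choices: `L` from `sn_eq_zero`; `σ` below all radii of convergence; `ε = σ/(16 (d+1))`;
`C` from `vn_le`; `Λ` large against `C ∑ ‖c k i‖`; `ρ` by `exists_small` with a small bound; then
for each `k`, `κ`. -/
theorem contraction {m q : ℕ} (N : Option (Fin d) → Matrix (Fin m) (Fin m) ℂ)
    (hc : ∀ i j, N i * N j = N j * N i) (hn : ∀ i, IsNilpotent (N i))
    (c : Matrix (Fin q) (Fin m) ℂ) (K : Option (Fin d) → Matrix (Fin m) (Fin q) (Sym d))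
    (Θ : Matrix (Fin q) (Fin q) (Sym d)) (hK : ∀ j i k, IsFormal (K j i k) ∧ Small (K j i k))
    (hΘ : ∀ k l, IsFormal (Θ k l) ∧ Small (Θ k l)) (f : Fin q → Sym d) (hf : ∀ k, IsFormal (f k)) :
    ∃ (r : Var d → ℝ) (ε : ℝ) (L : ℕ) (Λ : ℝ), Rad r ∧ 0 < ε ∧ 0 < L ∧ 0 < Λ ∧ ∀ k : ℕ, ∃ κ : ℝ,
      0 < κ ∧ κ ≤ 1 ∧ (∀ i, nrm (wk k κ r) (f i) < ∞) ∧
      ∀ (F : Fin m → Sym d) (G : Fin q → Sym d),
        vn (nrm (wk k κ r)) N ε L (stepI N c F G)
            + ENNReal.ofReal Λ * ∑ i, nrm (wk k κ r) (stepJ K Θ F G i)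
          ≤ 1 / 2 * (vn (nrm (wk k κ r)) N ε L F + ENNReal.ofReal Λ * ∑ i, nrm (wk k κ r) (G i)) := by
  obtain ⟨L, hL0, hL⟩ := sn_eq_zero (E := Sym d) N hc hn
  -- choice of `σ`
  have e1 : ∀ᶠ σ in 𝓝[>] (0:ℝ), ∀ j i k, d5_Q (K j i k) σ := by
    simp only [eventually_all]
    exact fun j i k => d5_Q_ev (hK j i k)
  have e2 : ∀ᶠ σ in 𝓝[>] (0:ℝ), ∀ k l, d5_Q (Θ k l) σ := by
    simp only [eventually_all]
    exact fun k l => d5_Q_ev (hΘ k l)
  have e3 : ∀ᶠ σ in 𝓝[>] (0:ℝ), ∀ i, ∀ ρ : ℝ, 0 < ρ → ρ ≤ σ → ∀ k κ, 0 < κ → κ ≤ 1 →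
      nrm (wk k κ (rad ρ σ)) (f i) < ∞ := by
    rw [eventually_all]
    exact fun i => d5_F_ev (hf i)
  have e4 : ∀ᶠ σ in 𝓝[>] (0:ℝ), 0 < σ ∧ σ ≤ 1 := d5_ev ⟨1, one_pos, fun x h1 h2 => ⟨h1, h2⟩⟩
  obtain ⟨σ, hσK, hσΘ, hσf, hσ0, hσ1⟩ := (e1.and (e2.and (e3.and e4))).exists
  clear e1 e2 e3 e4
  -- `ε`, `Λ`
  set ε : ℝ := σ / (16 * (d + 1)) with hεdef
  have hd : (0 : ℝ) < 16 * (d + 1) := by positivity
  have hε : 0 < ε := div_pos hσ0 hd
  obtain ⟨C, hC0, hC⟩ := vn_le (E := Sym d) N ε L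
  set c' : ℝ := ∑ i, ∑ k, ‖c k i‖ with hc'
  have hc'0 : 0 ≤ c' := Finset.sum_nonneg fun i _ => Finset.sum_nonneg fun k _ => norm_nonneg _
  set Λ : ℝ := 8 * (C * c') + 1 with hΛ
  have hCc : 0 ≤ C * c' := mul_nonneg hC0.le hc'0
  have hΛ0 : 0 < Λ := by positivity
  -- `ε'`
  set ε' : ℝ := min (1 / (16 * (q + 1))) (σ / (32 * Λ * (q + 1) * (d + 1))) with hε'
  have hε'0 : 0 < ε' := lt_min (by positivity) (by positivity)
  have hε'1 : (q : ℝ) * (2 * ε') ≤ 1 / 8 := by
    have h1 : ε' ≤ 1 / (16 * (q + 1)) := min_le_left _ _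
    have h2 : (0 : ℝ) < 16 * (q + 1) := by positivity
    have h3 : ε' * (16 * (q + 1)) ≤ 1 := by
      rwa [le_div_iff₀ h2] at h1
    nlinarith
  have hε'2 : Λ * (q * ((d + 1) * (2 * (2 / σ) * ε'))) ≤ 1 / 8 := by
    have h1 : ε' ≤ σ / (32 * Λ * (q + 1) * (d + 1)) := min_le_right _ _
    have h2 : (0 : ℝ) < 32 * Λ * (q + 1) * (d + 1) := by positivity
    have h3 : ε' * (32 * Λ * (q + 1) * (d + 1)) ≤ σ := by
      rwa [le_div_iff₀ h2] at h1
    have h4 : Λ * (q * ((d + 1) * (2 * (2 / σ) * ε'))) = (ε' * (32 * Λ * q * (d + 1))) / (8 * σ) := by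
      field_simp
      ring
    rw [h4, div_le_div_iff₀ (by positivity) (by norm_num)]
    have h5 : ε' * (32 * Λ * q * (d + 1)) ≤ ε' * (32 * Λ * (q + 1) * (d + 1)) := by
      refine mul_le_mul_of_nonneg_left ?_ hε'0.le
      refine mul_le_mul_of_nonneg_right ?_ (by positivity)
      exact mul_le_mul_of_nonneg_left (by linarith) (by positivity)
    linarith
  -- choice of `ρ`
  have e1 : ∀ᶠ ρ in 𝓝[>] (0:ℝ), ∀ j i l, ∀ k, ∃ κ0 : ℝ, 0 < κ0 ∧ κ0 ≤ 1 ∧ ∀ κ, 0 < κ → κ ≤ κ0 →
      nrm (wk k κ (rad ρ σ)) (K j i l) ≤ ENNReal.ofReal ε' := by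
    simp only [eventually_all (ι := Option (Fin d)), eventually_all (ι := Fin m),
      eventually_all (ι := Fin q)]
    intro j i l
    obtain ⟨ρ0, h1, -, h2⟩ := hσK j i l ε' hε'0
    exact d5_ev ⟨ρ0, h1, h2⟩
  have e2 : ∀ᶠ ρ in 𝓝[>] (0:ℝ), ∀ i l, ∀ k, ∃ κ0 : ℝ, 0 < κ0 ∧ κ0 ≤ 1 ∧ ∀ κ, 0 < κ → κ ≤ κ0 →
      nrm (wk k κ (rad ρ σ)) (Θ i l) ≤ ENNReal.ofReal ε' := by
    simp only [eventually_all (ι := Fin q)]
    intro i l
    obtain ⟨ρ0, h1, -, h2⟩ := hσΘ i l ε' hε'0
    exact d5_ev ⟨ρ0, h1, h2⟩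
  have e3 : ∀ᶠ ρ in 𝓝[>] (0:ℝ), 0 < ρ ∧ ρ ≤ σ := d5_ev ⟨σ, hσ0, fun x h1 h2 => ⟨h1, h2⟩⟩
  obtain ⟨ρ, hρK, hρΘ, hρ0, hρσ⟩ := (e1.and (e2.and e3)).exists
  clear e1 e2 e3
  have hRad : Rad (d := d) (rad ρ σ) := by
    intro v
    cases v with
    | x i => exact ⟨hρ0, hρσ.trans hσ1⟩
    | t => exact ⟨hσ0, hσ1⟩
    | y i => exact ⟨hσ0, hσ1⟩
  refine ⟨rad ρ σ, ε, L, Λ, hRad, hε, hL0, hΛ0, fun k => ?_⟩
  -- choice of `κ`
  obtain ⟨C1, hC1, hcomp⟩ := nrm_wk_comp (k := k) (rad ρ σ) hRad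
  obtain ⟨C2, hC2, hDn⟩ := nrm_wk_D_none (k := k) (rad ρ σ) hRad
  have e1 : ∀ᶠ κ in 𝓝[>] (0:ℝ), ∀ j i l, nrm (wk k κ (rad ρ σ)) (K j i l) ≤ ENNReal.ofReal ε' := by
    simp only [eventually_all]
    intro j i l
    obtain ⟨κ0, h1, -, h2⟩ := hρK j i l k
    exact d5_ev ⟨κ0, h1, h2⟩
  have e2 : ∀ᶠ κ in 𝓝[>] (0:ℝ), ∀ i l, nrm (wk k κ (rad ρ σ)) (Θ i l) ≤ ENNReal.ofReal ε' := by
    simp only [eventually_all]
    intro i l
    obtain ⟨κ0, h1, -, h2⟩ := hρΘ i l k
    exact d5_ev ⟨κ0, h1, h2⟩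
  have e3 : ∀ᶠ κ in 𝓝[>] (0:ℝ), 0 < κ ∧ κ ≤ 1 := d5_ev ⟨1, one_pos, fun x h1 h2 => ⟨h1, h2⟩⟩
  have e4 : ∀ᶠ κ in 𝓝[>] (0:ℝ), C1 * κ ≤ 1 :=
    d5_ev ⟨1 / C1, by positivity, fun x h1 h2 => by
      rw [le_div_iff₀ hC1] at h2; linarith⟩
  have e5 : ∀ᶠ κ in 𝓝[>] (0:ℝ), C2 * κ * (2 / σ) ≤ 1 / 8 :=
    d5_ev ⟨σ / (16 * C2), by positivity, fun x h1 h2 => by
      rw [le_div_iff₀ (by positivity)] at h2
      have : C2 * x * (2 / σ) = (C2 * x * 2) / σ := by ring
      rw [this, div_le_div_iff₀ hσ0 (by norm_num)]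
      linarith⟩
  obtain ⟨κ, hκK, hκΘ, ⟨hκ0, hκ1⟩, hκ4, hκ5⟩ := (e1.and (e2.and (e3.and (e4.and e5)))).exists
  clear e1 e2 e3 e4 e5
  refine ⟨κ, hκ0, hκ1, fun i => hσf i ρ hρ0 hρσ k κ hκ0 hκ1, fun F G => ?_⟩
  set p : Sym d → ℝ≥0∞ := nrm (wk k κ (rad ρ σ)) with hpdef
  have hp : SN p := sn_wk k κ (rad ρ σ)
  have hq : ∀ j (g : Sym d), p (quo j g) ≤ ENNReal.ofReal (2 / σ) * p g := by
    intro j g
    have h := nrm_wk_quo (k := k) hκ0 hRad j g
    cases j with
    | none => exact h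
    | some i => exact h
  have hcomp2 : ∀ f g : Sym d, p (comp f g) ≤ 2 * (p f * p g) := by
    intro f g
    refine (hcomp κ hκ0 hκ1 f g).trans (mul_le_mul_left ?_ _)
    calc ENNReal.ofReal (1 + C1 * κ) ≤ ENNReal.ofReal 2 := ENNReal.ofReal_le_ofReal (by linarith)
      _ = 2 := by norm_num
  have hI := d5_stepI N c hp (σ := σ) (δ := C2 * κ) (C := C) hε (hL hp) hq (hDn κ hκ0 hκ1)
    (hC hp) F G
  have hJ := d5_stepJ K Θ hp (σ := σ) (ε' := ε') hq hcomp2 hκK hκΘ F G
  have hb : ∑ i, p (F i) ≤ vn p N ε L F := le_vn hp N hL0 F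
  generalize hv : vn p N ε L F = v at *
  generalize hg : ∑ i, p (G i) = g at *
  generalize hvI : vn p N ε L (stepI N c F G) = vI at *
  generalize hgJ : ∑ i, p (stepJ K Θ F G i) = gJ at *
  generalize hbb : ∑ i, p (F i) = b at *
  have hd1 : ((d + 1 : ℕ) : ℝ≥0∞) = ENNReal.ofReal (d + 1) := by
    rw [← ENNReal.ofReal_natCast]; push_cast; rfl
  have hq1 : (q : ℝ≥0∞) = ENNReal.ofReal q := by
    rw [← ENNReal.ofReal_natCast]
  have h2 : (2 : ℝ≥0∞) = ENNReal.ofReal 2 := by norm_num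
  have hcc : (∑ i, ∑ k, (‖c k i‖₊ : ℝ≥0∞)) = ENNReal.ofReal c' := by
    rw [hc', ENNReal.ofReal_sum_of_nonneg fun i _ => Finset.sum_nonneg fun k _ => norm_nonneg _]
    refine Finset.sum_congr rfl fun i _ => ?_
    rw [ENNReal.ofReal_sum_of_nonneg fun k _ => norm_nonneg _]
    refine Finset.sum_congr rfl fun k _ => ?_
    rw [← enorm_eq_nnnorm, ofReal_norm]
  -- the bound for `vI`
  have hI2 : vI ≤ ENNReal.ofReal (1 / 4) * v + ENNReal.ofReal (Λ / 8) * g := by
    refine hI.trans (add_le_add ?_ ?_)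
    · rw [hd1]
      have : ENNReal.ofReal (d + 1) * (ENNReal.ofReal ε * (ENNReal.ofReal (2 / σ) * v))
          + ENNReal.ofReal (C2 * κ) * (ENNReal.ofReal (2 / σ) * v)
          = ENNReal.ofReal ((d + 1) * (ε * (2 / σ)) + C2 * κ * (2 / σ)) * v := by
        rw [ENNReal.ofReal_add (p := (d + 1) * (ε * (2 / σ))) (q := C2 * κ * (2 / σ))
            (by positivity) (by positivity), ENNReal.ofReal_mul (p := (d : ℝ) + 1) (by positivity),
          ENNReal.ofReal_mul (p := ε) (by positivity), ENNReal.ofReal_mul (p := C2 * κ) (by positivity)]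
        ring
      rw [this]
      refine mul_le_mul_left (ENNReal.ofReal_le_ofReal ?_) _
      have h3 : (d + 1) * (ε * (2 / σ)) = 1 / 8 := by
        rw [hεdef]; field_simp; norm_num
      rw [h3]; linarith
    · rw [hcc, ← mul_assoc, ← ENNReal.ofReal_mul hC0.le]
      refine mul_le_mul_left (ENNReal.ofReal_le_ofReal ?_) _
      rw [hΛ]; linarith
  have hJ2 : ENNReal.ofReal Λ * gJ ≤ ENNReal.ofReal (1 / 8) * v + ENNReal.ofReal (Λ / 8) * g := by
    calc ENNReal.ofReal Λ * gJ ≤ ENNReal.ofReal Λ * (ENNReal.ofReal q *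
          ((ENNReal.ofReal (d + 1) * (ENNReal.ofReal 2 * ENNReal.ofReal (2 / σ) *
            ENNReal.ofReal ε') * v) + ENNReal.ofReal 2 * ENNReal.ofReal ε' * g)) := by
          refine mul_le_mul_right (hJ.trans ?_) _
          rw [hq1, hd1, h2]
          exact mul_le_mul_right (add_le_add (mul_le_mul_right hb _) le_rfl) _
      _ = ENNReal.ofReal (Λ * (q * ((d + 1) * (2 * (2 / σ) * ε')))) * v
          + ENNReal.ofReal (Λ * (q * (2 * ε'))) * g := by
          rw [ENNReal.ofReal_mul hΛ0.le, ENNReal.ofReal_mul (Nat.cast_nonneg q),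
            ENNReal.ofReal_mul (p := (d : ℝ) + 1) (by positivity), ENNReal.ofReal_mul (p := 2 * (2 / σ)) (by positivity),
            ENNReal.ofReal_mul (p := 2) (q := 2 / σ) (by norm_num),
            ENNReal.ofReal_mul (p := Λ) hΛ0.le, ENNReal.ofReal_mul (p := (q : ℝ)) (Nat.cast_nonneg q),
            ENNReal.ofReal_mul (p := 2) (q := ε') (by norm_num)]
          ring
      _ ≤ _ := by
          refine add_le_add (mul_le_mul_left (ENNReal.ofReal_le_ofReal hε'2) _)
            (mul_le_mul_left (ENNReal.ofReal_le_ofReal ?_) _)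
          calc Λ * (q * (2 * ε')) ≤ Λ * (1 / 8) := mul_le_mul_of_nonneg_left hε'1 hΛ0.le
            _ = Λ / 8 := by ring
  calc vI + ENNReal.ofReal Λ * gJ
      ≤ (ENNReal.ofReal (1 / 4) * v + ENNReal.ofReal (Λ / 8) * g)
        + (ENNReal.ofReal (1 / 8) * v + ENNReal.ofReal (Λ / 8) * g) := add_le_add hI2 hJ2
    _ = ENNReal.ofReal (3 / 8) * v + ENNReal.ofReal (Λ / 4) * g := by
        have h3 : (3 / 8 : ℝ) = 1 / 4 + 1 / 8 := by norm_num
        have h4 : Λ / 4 = Λ / 8 + Λ / 8 := by ring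
        rw [h3, h4, ENNReal.ofReal_add (by norm_num) (by norm_num),
          ENNReal.ofReal_add (by positivity) (by positivity)]
        ring
    _ ≤ ENNReal.ofReal (1 / 2) * v + ENNReal.ofReal (Λ / 2) * g :=
        add_le_add (mul_le_mul_left (ENNReal.ofReal_le_ofReal (by norm_num)) _)
          (mul_le_mul_left (ENNReal.ofReal_le_ofReal (by linarith)) _)
    _ = 1 / 2 * (v + ENNReal.ofReal Λ * g) := by
        have h5 : ENNReal.ofReal (1 / 2) = 1 / 2 := by
          rw [ENNReal.ofReal_div_of_pos (by norm_num)]; norm_num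
        have h6 : Λ / 2 = 1 / 2 * Λ := by ring
        rw [h6, ENNReal.ofReal_mul (by norm_num), h5]
        ring

end d5

/-! ## row d6: coefficientwise convergent series -/

/-- A sequence whose level `k` norms decrease geometrically, for each `k`, is coefficientwise
summable; the sum has finite level `k` norms. -/
lemma exists_sum {r : Var d → ℝ} (hr : Rad r) (F : ℕ → Sym d)
    (h : ∀ k : ℕ, ∃ (κ : ℝ) (C : ℝ), 0 < κ ∧ ∀ n, nrm (wk k κ r) (F n) ≤ ENNReal.ofReal (C * (1 / 2) ^ n)) :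
    ∃ S : Sym d, IsFormal S ∧ ∀ m, HasSum (fun n => coeff m (F n)) (coeff m S) := by
  obtain ⟨ρ, hρ, hρ1, hlow⟩ := d4_lower hr
  have hb : ∀ j : ℕ, ∃ C : ℝ, 0 ≤ C ∧ ∀ n, ∀ m : Option (Var d) →₀ ℕ, m none = j →
      ‖coeff m (F n)‖ ≤ (C * (ρ⁻¹) ^ m.degree) * (1 / 2) ^ n := by
    intro j
    obtain ⟨κ, C, hκ, hC⟩ := h (j + 1)
    refine ⟨|C| * (κ⁻¹) ^ j, by positivity, fun n m hm => ?_⟩
    have h1 := d4_coeff hρ hlow hκ (B := |C| * (1 / 2) ^ n) (by positivity) (f := F n) (k := j + 1)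
      ((hC n).trans (ENNReal.ofReal_le_ofReal (by gcongr; exact le_abs_self C))) (m := m) (by omega)
    rw [hm] at h1
    refine h1.trans (le_of_eq (by ring))
  have hgeo : Summable fun n : ℕ => ((1 : ℝ) / 2) ^ n := summable_geometric_two
  have hsum : ∀ m : Option (Var d) →₀ ℕ, Summable fun n => coeff m (F n) := by
    intro m
    obtain ⟨C, hC, hb⟩ := hb (m none)
    exact Summable.of_norm_bounded (hgeo.mul_left (C * (ρ⁻¹) ^ m.degree)) fun n => hb n m rfl
  refine ⟨fun m => ∑' n, coeff m (F n), ?_, fun m => ?_⟩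
  · refine ⟨ρ⁻¹, by positivity, fun j => ?_⟩
    obtain ⟨C, hC, hb⟩ := hb j
    refine ⟨2 * C, fun m hm => ?_⟩
    have h1 : ‖∑' n, coeff m (F n)‖ ≤ (C * (ρ⁻¹) ^ m.degree) * 2 := by
      refine tsum_of_norm_bounded ?_ fun n => hb n m hm
      exact hasSum_geometric_two.mul_left _
    refine (le_of_eq ?_).trans (h1.trans (le_of_eq (by ring)))
    rfl
  · exact (hsum m).hasSum

/-- composition with a fixed right factor commutes with coefficientwise convergent series
(`coeff_lb`: finitely many coefficients) -/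
lemma hasSum_comp_left {F : ℕ → Sym d} {S : Sym d} (h : ∀ m, HasSum (fun n => coeff m (F n)) (coeff m S))
    (g : Sym d) (m : Option (Var d) →₀ ℕ) :
    HasSum (fun n => coeff m (comp (F n) g)) (coeff m (comp S g)) := by
  have e : ∀ f : Sym d, coeff m (comp f g) = ∑ n ∈ Finset.range (m none + 1),
      ∑ a ∈ Finset.Iic (Finsupp.equivFunOnFinite.symm fun v => m v + n : Option (Var d) →₀ ℕ),
      ∑ b ∈ Finset.Iic (Finsupp.equivFunOnFinite.symm fun v => m v + n : Option (Var d) →₀ ℕ),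
        coeff a f * coeff b g * coeff m (lb n (monomial a 1) (monomial b 1)) := by
    intro f
    rw [coeff_comp]
    exact Finset.sum_congr rfl fun n _ => coeff_lb n f g m _ fun v => rfl
  rw [e S, show (fun n => coeff m (comp (F n) g)) = _ from funext fun n => e (F n)]
  exact hasSum_sum fun n _ => hasSum_sum fun a _ => hasSum_sum fun b _ =>
    ((h a).mul_right _).mul_right _

/-! ## row d7: the division theorem -/

section d7

/-- the iteration -/
private noncomputable def d7_seq {m q : ℕ} (N : Option (Fin d) → Matrix (Fin m) (Fin m) ℂ)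
    (c : Matrix (Fin q) (Fin m) ℂ) (K : Option (Fin d) → Matrix (Fin m) (Fin q) (Sym d))
    (Θ : Matrix (Fin q) (Fin q) (Sym d)) (f : Fin q → Sym d) :
    ℕ → (Fin m → Sym d) × (Fin q → Sym d)
  | 0 => (0, f)
  | n + 1 => (stepI N c (d7_seq N c K Θ f n).1 (d7_seq N c K Θ f n).2,
      stepJ K Θ (d7_seq N c K Θ f n).1 (d7_seq N c K Θ f n).2)

private lemma d7_tele {a : ℕ → ℂ} {A : ℂ} (h : HasSum a A) :
    HasSum (fun n => a n - a (n + 1)) (a 0) := by
  have h1 : HasSum (fun n => a (n + 1)) (A - a 0) := by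
    have := (hasSum_nat_add_iff' 1).2 h
    simpa using this
  have h2 := h.sub h1
  simpa using h2

/-- Formal Weierstrass division. Proof: `F 0 = 0`, `G 0 = f`,
`(F (n+1), G (n+1)) = (stepI, stepJ) (F n, G n)`; by `contraction` the norms decrease geometrically at
each level; `r = ∑ bas (F n)`, `H j = ∑ quo j (F n)`, `G = ∑ G n` (`exists_sum`, `nrm_wk_quo`,
`le_vn`); the identities are the sums of
`F n i' - stepI … i' = bas (F n i') + ∑ j, (comp (quo j (F n i')) (V j) - rmul …) - ∑ c k i' • G n k`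
(`quo_eq`) and `G n k' - stepJ … k' = …` (`hasSum_comp_left`), telescoping. -/
theorem fd {m q : ℕ} (N : Option (Fin d) → Matrix (Fin m) (Fin m) ℂ)
    (hc : ∀ i j, N i * N j = N j * N i) (hn : ∀ i, IsNilpotent (N i))
    (c : Matrix (Fin q) (Fin m) ℂ) (K : Option (Fin d) → Matrix (Fin m) (Fin q) (Sym d))
    (Θ : Matrix (Fin q) (Fin q) (Sym d)) (hK : ∀ j i k, IsFormal (K j i k) ∧ Small (K j i k))
    (hΘ : ∀ k l, IsFormal (Θ k l) ∧ Small (Θ k l)) (f : Fin q → Sym d) (hf : ∀ k, IsFormal (f k)) :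
    ∃ (r : Fin m → Sym d) (H : Option (Fin d) → Fin m → Sym d) (G : Fin q → Sym d),
      (∀ i, IsFormal (r i) ∧ Base (r i)) ∧ (∀ j i, IsFormal (H j i)) ∧ (∀ k, IsFormal (G k)) ∧
      (∀ i', r i' + ∑ j, (comp (H j i') (V j) - ∑ i, N j i i' • H j i) - ∑ k, c k i' • G k = 0) ∧
      (∀ k', G k' - (∑ j, ∑ i, comp (H j i) (K j i k')) - ∑ k, comp (G k) (Θ k k') = f k') := by
  obtain ⟨ρ, ε, L, Λ, hρ, hε, hL, hΛ, hcon⟩ := contraction N hc hn c K Θ hK hΘ f hf
  set S := d7_seq N c K Θ f with hS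
  -- the norms decrease geometrically
  have hbd : ∀ k : ℕ, ∃ (κ : ℝ) (C : ℝ), 0 < κ ∧ 0 ≤ C ∧ ∀ n,
      (∀ i, nrm (wk k κ ρ) ((S n).1 i) ≤ ENNReal.ofReal (C * (1 / 2) ^ n)) ∧
      (∀ i, nrm (wk k κ ρ) ((S n).2 i) ≤ ENNReal.ofReal (C / Λ * (1 / 2) ^ n)) := by
    intro k
    obtain ⟨κ, hκ0, hκ1, hfin, hstep⟩ := hcon k
    set p : Sym d → ℝ≥0∞ := nrm (wk k κ ρ) with hp
    have hsn : SN p := sn_wk k κ ρ
    set Φ : ℕ → ℝ≥0∞ := fun n => vn p N ε L (S n).1 + ENNReal.ofReal Λ * ∑ i, p ((S n).2 i) with hΦ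
    have h0 : vn p N ε L (0 : Fin m → Sym d) = 0 := by
      have := vn_smul hsn N ε L 0 (0 : Fin m → Sym d)
      simpa using this
    have hΦ0 : Φ 0 ≠ ∞ := by
      have : Φ 0 = ENNReal.ofReal Λ * ∑ i, p (f i) := by
        simp only [hΦ, hS, d7_seq, h0, zero_add]
      rw [this]
      exact ENNReal.mul_ne_top ENNReal.ofReal_ne_top
        (ENNReal.sum_ne_top.2 fun i _ => (hfin i).ne)
    have hΦs : ∀ n, Φ (n + 1) ≤ 1 / 2 * Φ n := fun n => hstep (S n).1 (S n).2
    have hΦn : ∀ n, Φ n ≤ ENNReal.ofReal ((Φ 0).toReal * (1 / 2) ^ n) := by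
      intro n
      induction n with
      | zero => simp [ENNReal.ofReal_toReal hΦ0]
      | succ n ih =>
        calc Φ (n + 1) ≤ 1 / 2 * Φ n := hΦs n
          _ ≤ 1 / 2 * ENNReal.ofReal ((Φ 0).toReal * (1 / 2) ^ n) := mul_le_mul_right ih _
          _ = ENNReal.ofReal ((Φ 0).toReal * (1 / 2) ^ (n + 1)) := by
            have h5 : (1 / 2 : ℝ≥0∞) = ENNReal.ofReal (1 / 2) := by
              rw [ENNReal.ofReal_div_of_pos (by norm_num)]; norm_num
            rw [h5, ← ENNReal.ofReal_mul (by norm_num)]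
            congr 1
            ring
    refine ⟨κ, (Φ 0).toReal, hκ0, ENNReal.toReal_nonneg, fun n => ⟨fun i => ?_, fun i => ?_⟩⟩
    · calc p ((S n).1 i) ≤ ∑ i, p ((S n).1 i) :=
            Finset.single_le_sum (f := fun i => p ((S n).1 i)) (fun _ _ => zero_le)
              (Finset.mem_univ i)
        _ ≤ vn p N ε L (S n).1 := le_vn hsn N hL _
        _ ≤ Φ n := le_self_add
        _ ≤ _ := hΦn n
    · have h1 : ENNReal.ofReal Λ * p ((S n).2 i) ≤ ENNReal.ofReal ((Φ 0).toReal * (1 / 2) ^ n) :=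
        calc ENNReal.ofReal Λ * p ((S n).2 i) ≤ ENNReal.ofReal Λ * ∑ i, p ((S n).2 i) :=
              mul_le_mul_right (Finset.single_le_sum (f := fun i => p ((S n).2 i))
                (fun _ _ => zero_le) (Finset.mem_univ i)) _
          _ ≤ Φ n := le_add_self
          _ ≤ _ := hΦn n
      have h2 : (Φ 0).toReal / Λ * (1 / 2) ^ n = ((Φ 0).toReal * (1 / 2) ^ n) / Λ := by ring
      rw [h2, ENNReal.ofReal_div_of_pos hΛ, ENNReal.le_div_iff_mul_le
        (Or.inl (by simpa using hΛ)) (Or.inl ENNReal.ofReal_ne_top), mul_comm]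
      exact h1
  -- the sums
  have hF : ∀ i, ∃ T : Sym d, IsFormal T ∧ ∀ m', HasSum (fun n => coeff m' ((S n).1 i)) (coeff m' T) := by
    intro i
    refine exists_sum hρ (fun n => (S n).1 i) fun k => ?_
    obtain ⟨κ, C, h1, -, h3⟩ := hbd k
    exact ⟨κ, C, h1, fun n => (h3 n).1 i⟩
  have hr : ∀ i, ∃ T : Sym d, IsFormal T ∧
      ∀ m', HasSum (fun n => coeff m' (bas ((S n).1 i))) (coeff m' T) := by
    intro i
    refine exists_sum hρ (fun n => bas ((S n).1 i)) fun k => ?_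
    obtain ⟨κ, C, h1, -, h3⟩ := hbd k
    exact ⟨κ, C, h1, fun n => (nrm_bas_le _ _).trans ((h3 n).1 i)⟩
  have hH : ∀ j i, ∃ T : Sym d, IsFormal T ∧
      ∀ m', HasSum (fun n => coeff m' (quo j ((S n).1 i))) (coeff m' T) := by
    intro j i
    refine exists_sum hρ (fun n => quo j ((S n).1 i)) fun k => ?_
    obtain ⟨κ, C, h1, h2, h3⟩ := hbd k
    refine ⟨κ, 2 / ρ (vV j) * C, h1, fun n => (nrm_wk_quo h1 hρ j _).trans ?_⟩
    have h4 : 0 ≤ 2 / ρ (vV j) := by have := (hρ (vV j)).1; positivity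
    rw [mul_assoc, ENNReal.ofReal_mul h4]
    exact mul_le_mul_right ((h3 n).1 i) _
  have hG : ∀ i, ∃ T : Sym d, IsFormal T ∧ ∀ m', HasSum (fun n => coeff m' ((S n).2 i)) (coeff m' T) := by
    intro i
    refine exists_sum hρ (fun n => (S n).2 i) fun k => ?_
    obtain ⟨κ, C, h1, -, h3⟩ := hbd k
    exact ⟨κ, C / Λ, h1, fun n => (h3 n).2 i⟩
  choose Fs hFs hFs' using hF
  choose r hr1 hr2 using hr
  choose H hH1 hH2 using hH
  choose G hG1 hG2 using hG
  refine ⟨r, H, G, fun i => ⟨hr1 i, fun m' hm' => ?_⟩, hH1, hG1, fun i' => ?_, fun k' => ?_⟩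
  · have h1 : (fun n => coeff m' (bas ((S n).1 i))) = fun _ => (0 : ℂ) := by
      funext n
      exact base_bas _ m' hm'
    have h2 := hr2 i m'
    rw [h1] at h2
    exact h2.unique hasSum_zero
  · ext m'
    have h1 : ∀ n, coeff m' (bas ((S n).1 i')) + ∑ j, (coeff m' (comp (quo j ((S n).1 i')) (V j))
          - ∑ i, N j i i' * coeff m' (quo j ((S n).1 i))) - ∑ k, c k i' * coeff m' ((S n).2 k)
        = coeff m' ((S n).1 i') - coeff m' ((S (n + 1)).1 i') := by
      intro n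
      have h2 : (S (n + 1)).1 i' = (∑ j, ∑ i, N j i i' • quo j ((S n).1 i))
          - D none (quo none ((S n).1 i')) + ∑ k, c k i' • (S n).2 k := rfl
      have h3 := congrArg (coeff m') (quo_eq ((S n).1 i'))
      have h4 := congrArg (coeff m') h2
      simp only [map_add, map_sub, map_sum, map_smul, smul_eq_mul] at h3 h4
      rw [h4, Finset.sum_sub_distrib]
      rw [h3]
      ring
    have h5 : HasSum (fun n => coeff m' (bas ((S n).1 i'))
          + ∑ j, (coeff m' (comp (quo j ((S n).1 i')) (V j))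
          - ∑ i, N j i i' * coeff m' (quo j ((S n).1 i))) - ∑ k, c k i' * coeff m' ((S n).2 k))
        (coeff m' (r i') + ∑ j, (coeff m' (comp (H j i') (V j))
          - ∑ i, N j i i' * coeff m' (H j i)) - ∑ k, c k i' * coeff m' (G k)) := by
      refine ((hr2 i' m').add (hasSum_sum fun j _ => (hasSum_comp_left (hH2 j i') (V j) m').sub
        (hasSum_sum fun i _ => (hH2 j i m').mul_left _))).sub
        (hasSum_sum fun k _ => (hG2 k m').mul_left _)
    have h6 := d7_tele (hFs' i' m')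
    simp only [h1] at h5
    have h7 := h5.unique h6
    have h8 : coeff m' ((S 0).1 i') = 0 := by
      simp [hS, d7_seq]
    rw [h8] at h7
    simpa only [map_add, map_sub, map_sum, map_smul, smul_eq_mul, map_zero] using h7
  · ext m'
    have h1 : ∀ n, coeff m' ((S n).2 k')
          - (∑ j, ∑ i, coeff m' (comp (quo j ((S n).1 i)) (K j i k')))
          - ∑ k, coeff m' (comp ((S n).2 k) (Θ k k'))
        = coeff m' ((S n).2 k') - coeff m' ((S (n + 1)).2 k') := by
      intro n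
      have h2 : (S (n + 1)).2 k' = (∑ j, ∑ i, comp (quo j ((S n).1 i)) (K j i k'))
          + ∑ k, comp ((S n).2 k) (Θ k k') := rfl
      rw [h2, map_add, map_sum, map_sum]
      simp only [map_sum]
      ring
    have h5 : HasSum (fun n => coeff m' ((S n).2 k')
          - (∑ j, ∑ i, coeff m' (comp (quo j ((S n).1 i)) (K j i k')))
          - ∑ k, coeff m' (comp ((S n).2 k) (Θ k k')))
        (coeff m' (G k') - (∑ j, ∑ i, coeff m' (comp (H j i) (K j i k')))
          - ∑ k, coeff m' (comp (G k) (Θ k k'))) := by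
      refine ((hG2 k' m').sub (hasSum_sum fun j _ => hasSum_sum fun i _ =>
        hasSum_comp_left (hH2 j i) (K j i k') m')).sub
        (hasSum_sum fun k _ => hasSum_comp_left (hG2 k) (Θ k k') m')
    have h6 := d7_tele (hG2 k' m')
    simp only [h1] at h5
    have h7 := h5.unique h6
    have h8 : coeff m' ((S 0).2 k') = coeff m' (f k') := rfl
    rw [h8] at h7
    simpa only [map_add, map_sub, map_sum] using h7

end d7

end Pool.Agent.Ep
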