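import Mathlib

/-!
# Generic position: commutative algebra (P11, block E, helper50)

`O` is a noetherian local `ℂ`-algebra. For a prime ideal `P` the number `Order.coheight P` (in
`PrimeSpectrum O`) is the dimension of `O / P`.
-/

set_option autoImplicit false

namespace Pool.Agent.Ep

open IsLocalRing

section CA

variable {O : Type} [CommRing O] [Algebra ℂ O]

/-- all primes which contain `I` have dimension `≤ D` -/
def DimLE (I : Ideal O) (D : ℕ) : Prop :=
  ∀ P : PrimeSpectrum O, I ≤ P.asIdeal → Order.coheight P ≤ (D : ℕ∞)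

/-- ROW a1. From the Krull dimension of the quotient
(`PrimeSpectrum` of `O ⧸ I` is the set of primes which contain `I`; chains above `P`). -/
theorem dimLE_of_ringKrullDim {I : Ideal O} {D : ℕ} (h : ringKrullDim (O ⧸ I) ≤ D) :
    DimLE I D := by
  intro P hP
  rw [ringKrullDim_quotient] at h
  have h1 : Order.krullDim (Set.Ici P) ≤ Order.krullDim (PrimeSpectrum.zeroLocus (R := O) I) := by
    refine Order.krullDim_le_of_strictMono
      (fun Q : Set.Ici P => (⟨Q.1, fun x hx => Q.2 (hP hx)⟩ :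
        PrimeSpectrum.zeroLocus (R := O) (I : Set O))) ?_
    intro a b hab
    exact hab
  rw [← Order.coheight_eq_krullDim_Ici] at h1
  have h2 := h1.trans h
  exact_mod_cast h2

/-- ROW a1. A strictly larger prime has smaller dimension. -/
theorem coheight_lt {P Q : PrimeSpectrum O} {D : ℕ} (h : P < Q)
    (hP : Order.coheight P ≤ ((D + 1 : ℕ) : ℕ∞)) : Order.coheight Q ≤ (D : ℕ∞) := by
  have h1 := (Order.coheight_add_one_le h).trans hP
  rw [Nat.cast_add, Nat.cast_one] at h1
  exact (ENat.add_le_add_iff_right ENat.one_ne_top).1 h1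

/-- ROW a1. A prime of dimension `0` of a local ring is the maximal ideal. -/
theorem eq_max_of_coheight [IsLocalRing O] {P : PrimeSpectrum O} (h : Order.coheight P ≤ 0) :
    P.asIdeal = maximalIdeal O := by
  by_contra hne
  have h1 : P.asIdeal ≤ maximalIdeal O := le_maximalIdeal P.isPrime.ne_top
  have h2 : P < IsLocalRing.closedPoint O := by
    rw [← PrimeSpectrum.asIdeal_lt_asIdeal]
    exact lt_of_le_of_ne h1 hne
  have h3 := (Order.coheight_add_one_le h2).trans h
  simp at h3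

/-- ROW a2. Two values: if `z + c u` and `z + c' u` are in `P`, `c ≠ c'`, then `z, u ∈ P`. -/
theorem mem_of_two {P : Ideal O} {z u : O} {c c' : ℂ} (hc : c ≠ c') (h : z + c • u ∈ P)
    (h' : z + c' • u ∈ P) : z ∈ P ∧ u ∈ P := by
  have h1 : (c - c') • u ∈ P := by
    have := P.sub_mem h h'
    rwa [add_sub_add_left_eq_sub, ← sub_smul] at this
  have h2 : u ∈ P := by
    have h3 := P.mul_mem_left (algebraMap ℂ O (c - c')⁻¹) h1
    rwa [← Algebra.smul_def, smul_smul, inv_mul_cancel₀ (sub_ne_zero.2 hc), one_smul] at h3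
  refine ⟨?_, h2⟩
  have h4 : c • u ∈ P := by
    rw [Algebra.smul_def]
    exact P.mul_mem_left _ h2
  have := P.sub_mem h h4
  rwa [add_sub_cancel_right] at this

/-- ROW a2. One generic equation: for all but finitely many `c`, for all primes `P ⊇ I` with
`z + c u ∈ P`, `u ∉ P` we have `dim ≤ D` if all primes `P ⊇ I` with `u ∉ P` have `dim ≤ D + 1`.
Proof: `P` contains a minimal prime `P'` of `I`; `u ∉ P'`; exclude the (at most one) `c` with
`z + c u ∈ P'` for each of the finitely many minimal primes; so `P' < P`, `coheight_lt`. -/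
theorem generic_one [IsNoetherianRing O] (I : Ideal O) (z u : O) (D : ℕ)
    (h : ∀ P : PrimeSpectrum O, I ≤ P.asIdeal → u ∉ P.asIdeal → Order.coheight P ≤ ((D + 1 : ℕ) : ℕ∞)) :
    ∃ F : Finset ℂ, ∀ c ∉ F, ∀ P : PrimeSpectrum O, I ≤ P.asIdeal → u ∉ P.asIdeal →
      z + c • u ∈ P.asIdeal → Order.coheight P ≤ (D : ℕ∞) := by
  classical
  have hfin := I.finite_minimalPrimes_of_isNoetherianRing
  let φ : Ideal O → ℂ := fun J => if hJ : ∃ c : ℂ, z + c • u ∈ J then hJ.choose else 0
  refine ⟨hfin.toFinset.image φ, fun c hc P hP hu hz => ?_⟩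
  have := P.isPrime
  obtain ⟨J, hJ, hJP⟩ := Ideal.exists_minimalPrimes_le hP
  have hJu : u ∉ J := fun h' => hu (hJP h')
  have hJz : z + c • u ∉ J := by
    intro h'
    apply hc
    refine Finset.mem_image.2 ⟨J, hfin.mem_toFinset.2 hJ, ?_⟩
    have hex : ∃ c : ℂ, z + c • u ∈ J := ⟨c, h'⟩
    have h2 : φ J = hex.choose := dif_pos hex
    rw [h2]
    by_contra hne
    exact hJu (mem_of_two hne hex.choose_spec h').2
  have hlt : (⟨J, hJ.1.1⟩ : PrimeSpectrum O) < P := by
    rw [← PrimeSpectrum.asIdeal_lt_asIdeal]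
    exact lt_of_le_of_ne hJP fun he => hJz (by rw [show J = P.asIdeal from he]; exact hz)
  exact coheight_lt hlt (h ⟨J, hJ.1.1⟩ hJ.1.2 hJu)

/-- ROW a3. LEMMA S. `r ≤ D` equations `z_k + c_k u`, with generic `c_k` chosen one after the other,
and such that moreover `y_0 - ∑ c_k y_k` is in none of the finitely many primes of a set `QQ`, each
of which does not contain all the elements `y_0, y_1, …, y_r`. Induction on `r` (the last `c` is
chosen by `generic_one` for the ideal `I + (z_k + c_k u)_{k < r}`; a prime `Q ∈ QQ` with `y_r ∈ Q` is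
handled by the induction hypothesis, a prime with `y_r ∉ Q` excludes one value of `c_r`). -/
theorem lemma_S [IsNoetherianRing O] (r : ℕ) : ∀ (I : Ideal O) (D : ℕ) (u : O) (z : Fin r → O)
    (y0 : O) (y : Fin r → O) (QQ : Finset (PrimeSpectrum O)),
    (∀ P : PrimeSpectrum O, I ≤ P.asIdeal → u ∉ P.asIdeal → Order.coheight P ≤ ((D + r : ℕ) : ℕ∞)) →
    (∀ Q ∈ QQ, y0 ∈ Q.asIdeal → ∃ k, y k ∉ Q.asIdeal) →
    ∃ c : Fin r → ℂ,
      (∀ P : PrimeSpectrum O, I ≤ P.asIdeal → u ∉ P.asIdeal → (∀ k, z k + c k • u ∈ P.asIdeal) →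
        Order.coheight P ≤ (D : ℕ∞)) ∧
      ∀ Q ∈ QQ, y0 - ∑ k, c k • y k ∉ Q.asIdeal := by
  classical
  induction r with
  | zero =>
    intro I D u z y0 y QQ h hQ
    refine ⟨fun k => k.elim0, ?_, ?_⟩
    · intro P hI hu _
      simpa using h P hI hu
    · intro Q hQQ hmem
      simp only [Finset.univ_eq_empty, Finset.sum_empty, sub_zero] at hmem
      obtain ⟨k, _⟩ := hQ Q hQQ hmem
      exact k.elim0
  | succ r ih =>
    intro I D u z y0 y QQ h hQ
    obtain ⟨c', h1, h2⟩ := ih I (D + 1) u (fun k => z k.castSucc) y0 (fun k => y k.castSucc)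
      (QQ.filter fun Q => y (Fin.last r) ∈ Q.asIdeal) (by
        intro P hI hu
        have h3 := h P hI hu
        have h4 : D + (r + 1) = D + 1 + r := by omega
        rwa [h4] at h3) (by
        intro Q hQQ hy0
        rw [Finset.mem_filter] at hQQ
        obtain ⟨k, hk⟩ := hQ Q hQQ.1 hy0
        rcases Fin.eq_castSucc_or_eq_last k with ⟨k', rfl⟩ | rfl
        · exact ⟨k', hk⟩
        · exact absurd hQQ.2 hk)
    obtain ⟨F, hF⟩ := generic_one
      (I ⊔ Ideal.span (Set.range fun k : Fin r => z k.castSucc + c' k • u))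
      (z (Fin.last r)) u D (by
        intro P hP hu
        exact h1 P (le_sup_left.trans hP) hu fun k =>
          hP (Ideal.mem_sup_right (Ideal.subset_span ⟨k, rfl⟩)))
    have hB : {c : ℂ | ∃ Q ∈ QQ, y (Fin.last r) ∉ Q.asIdeal ∧
        (y0 - ∑ k : Fin r, c' k • y k.castSucc) - c • y (Fin.last r) ∈ Q.asIdeal}.Finite := by
      refine Set.Finite.subset (Set.Finite.biUnion QQ.finite_toSet
        (t := fun Q => {c : ℂ | y (Fin.last r) ∉ Q.asIdeal ∧
        (y0 - ∑ k : Fin r, c' k • y k.castSucc) - c • y (Fin.last r) ∈ Q.asIdeal})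
        fun Q _ => ?_) ?_
      · refine Set.Subsingleton.finite ?_
        rintro c ⟨hc1, hc2⟩ c1 ⟨_, hc3⟩
        by_contra hne
        have h5 : (c1 - c) • y (Fin.last r) ∈ Q.asIdeal := by
          have h6 := Q.asIdeal.sub_mem hc2 hc3
          have h7 : (y0 - ∑ k : Fin r, c' k • y k.castSucc) - c • y (Fin.last r) -
              ((y0 - ∑ k : Fin r, c' k • y k.castSucc) - c1 • y (Fin.last r)) =
              (c1 - c) • y (Fin.last r) := by
            rw [sub_smul]
            abel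
          rwa [h7] at h6
        have hne' : c1 - c ≠ 0 := sub_ne_zero.2 fun h => hne h.symm
        have h8 := Q.asIdeal.mul_mem_left (algebraMap ℂ O (c1 - c)⁻¹) h5
        rw [← Algebra.smul_def, smul_smul, inv_mul_cancel₀ hne', one_smul] at h8
        exact hc1 h8
      · rintro c ⟨Q, hQ1, hQ2⟩
        exact Set.mem_biUnion (Finset.mem_coe.2 hQ1) hQ2
    obtain ⟨c0, hc0⟩ := (F.finite_toSet.union hB).infinite_compl.nonempty
    rw [Set.mem_compl_iff, Set.mem_union, not_or] at hc0
    obtain ⟨hcF, hcB⟩ := hc0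
    obtain ⟨c, hc1, hc2⟩ : ∃ c : Fin (r + 1) → ℂ, (∀ k : Fin r, c k.castSucc = c' k) ∧
        c (Fin.last r) = c0 :=
      ⟨Fin.snoc (α := fun _ => ℂ) c' c0, fun k => Fin.snoc_castSucc (α := fun _ => ℂ) _ _ _,
        Fin.snoc_last (α := fun _ => ℂ) _ _⟩
    refine ⟨c, ?_, ?_⟩
    · intro P hI hu hk
      refine hF c0 (fun h => hcF (Finset.mem_coe.2 h)) P ?_ hu ?_
      · refine sup_le hI (Ideal.span_le.2 ?_)
        rintro _ ⟨k, rfl⟩
        have h9 := hk k.castSucc
        rw [hc1] at h9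
        exact h9
      · have h9 := hk (Fin.last r)
        rwa [hc2] at h9
    · intro Q hQQ hmem
      rw [Fin.sum_univ_castSucc, hc2, ← sub_sub] at hmem
      have h10 : ∑ k : Fin r, c k.castSucc • y k.castSucc = ∑ k : Fin r, c' k • y k.castSucc :=
        Finset.sum_congr rfl fun k _ => by rw [hc1]
      rw [h10] at hmem
      by_cases hy : y (Fin.last r) ∈ Q.asIdeal
      · refine h2 Q (Finset.mem_filter.2 ⟨hQQ, hy⟩) ?_
        have h11 : c0 • y (Fin.last r) ∈ Q.asIdeal := by
          rw [Algebra.smul_def]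
          exact Q.asIdeal.mul_mem_left _ hy
        have h12 := Q.asIdeal.add_mem hmem h11
        rwa [sub_add_cancel] at h12
      · exact hcB ⟨Q, hQQ, hy, hmem⟩

/-- ROW a4. GENERIC BASE CHANGE. If the only prime which contains `I`, all `x_i` and `t` is the
maximal ideal, then for suitable `b` the only prime which contains `I` and all `x_i + b_i t` is the
maximal ideal. Proof: `lemma_S` with `r = d`, `D = 0`, `u = t`, `z = x`, `QQ = ∅`: a prime `P` which
contains `I`, `x_i + b_i t` but not `t` has dimension `0`, so it is the maximal ideal, which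
contains `t`. -/
theorem exists_base [IsNoetherianRing O] [IsLocalRing O] {d : ℕ} (I : Ideal O) (hI : DimLE I d)
    (x : Fin d → O) (t : O) (ht : t ∈ maximalIdeal O)
    (hm : ∀ P : PrimeSpectrum O, I ≤ P.asIdeal → (∀ i, x i ∈ P.asIdeal) → t ∈ P.asIdeal →
      P.asIdeal = maximalIdeal O) :
    ∃ b : Fin d → ℂ, ∀ P : PrimeSpectrum O, I ≤ P.asIdeal →
      (∀ i, x i + b i • t ∈ P.asIdeal) → P.asIdeal = maximalIdeal O := by
  have _ := ht
  obtain ⟨b, hb, -⟩ := lemma_S d I 0 t x 1 (fun _ => 0) ∅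
    (fun P hP _ => by rw [zero_add]; exact hI P hP) (fun Q hQ => absurd hQ (Finset.notMem_empty Q))
  refine ⟨b, fun P hP hx => ?_⟩
  by_cases htP : t ∈ P.asIdeal
  · refine hm P hP (fun i => ?_) htP
    have h1 : b i • t ∈ P.asIdeal := by
      rw [Algebra.smul_def]; exact P.asIdeal.mul_mem_left _ htP
    have h2 := P.asIdeal.sub_mem (hx i) h1
    rwa [add_sub_cancel_right] at h2
  · exact eq_max_of_coheight (by simpa using hb P hP htP hx)

private lemma a5_smul_mem (J : Ideal O) (c : ℂ) {u : O} (h : u ∈ J) : c • u ∈ J := by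
  rw [Algebra.smul_def]; exact J.mul_mem_left _ h

omit [Algebra ℂ O] in
private lemma a5_fin [IsNoetherianRing O] (J : Ideal O) (p : PrimeSpectrum O → Prop) :
    ∃ QQ : Finset (PrimeSpectrum O), ∀ Q, Q ∈ QQ ↔ Q.asIdeal ∈ J.minimalPrimes ∧ p Q := by
  have hf : {Q : PrimeSpectrum O | Q.asIdeal ∈ J.minimalPrimes ∧ p Q}.Finite := by
    refine Set.Finite.subset ((Ideal.finite_minimalPrimes_of_isNoetherianRing O J).preimage
      (f := PrimeSpectrum.asIdeal) (fun a _ b _ h => PrimeSpectrum.ext h)) ?_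
    rintro Q ⟨hQ, -⟩
    exact hQ
  exact ⟨hf.toFinset, fun Q => hf.mem_toFinset⟩

omit [Algebra ℂ O] in
private lemma a5_min {J : Ideal O} (P : PrimeSpectrum O) (h : J ≤ P.asIdeal) :
    ∃ Q : PrimeSpectrum O, Q.asIdeal ∈ J.minimalPrimes ∧ Q ≤ P := by
  obtain ⟨p, hp, hle⟩ := Ideal.exists_minimalPrimes_le h
  exact ⟨⟨p, hp.1.1⟩, hp, hle⟩

/-- finitely many primes exclude finitely many values -/
private lemma a5_lam (z u : O) (QQ : Finset (PrimeSpectrum O)) :
    ∃ lam : ℂ, ∀ Q ∈ QQ, z + lam • u ∈ Q.asIdeal → z ∈ Q.asIdeal ∧ u ∈ Q.asIdeal := by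
  have hf : (⋃ Q ∈ QQ, {lam : ℂ | z + lam • u ∈ Q.asIdeal ∧
      ¬ (z ∈ Q.asIdeal ∧ u ∈ Q.asIdeal)}).Finite := by
    refine Set.Finite.biUnion QQ.finite_toSet (fun Q _ => Set.Subsingleton.finite ?_)
    rintro a ⟨ha, hn⟩ b ⟨hb, -⟩
    by_contra hab
    exact hn (mem_of_two hab ha hb)
  obtain ⟨lam, hlam⟩ := hf.infinite_compl.nonempty
  refine ⟨lam, fun Q hQ h => ?_⟩
  by_contra hn
  exact hlam (Set.mem_biUnion hQ ⟨h, hn⟩)

/-- ROW a5. One step of the induction for the shear. The hypothesis holds for `x` with `e + 1`; we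
find a vector `v` and `lam` such that it holds with `e` for `x_i + lam v_i (∑ v_j y_j)`.
Proof. `d = 0` is trivial (no `y_k`). `d = d' + 1`: let `QQ` = the minimal primes of `I + (x)` which
do not contain all the `y_k`. `lemma_S` with `r = d'`, `D = 1`, `u = x_0`, `z_k = x_(k+1)`,
`y0 = y_0`, `y_k = y_(k+1)` gives `c`; `v = (1, -c)`, so that `x_(k+1) + lam v_(k+1) w + c_k
(x_0 + lam v_0 w) = x_(k+1) + c_k x_0` with `w = ∑ v_j y_j`. For each of the finitely many minimal
primes `P'` of `J = I + (x_(k+1) + c_k x_0)_k` exclude the at most one `lam` with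
`x_0 + lam w ∈ P'` unless both `x_0, w ∈ P'`. Let `P ⊇ I + (x + lam v w)`, `P` not containing all
`y_k`; `P' ⊆ P` a minimal prime of `J`. If `x_0 ∉ P'` then `dim P' ≤ 1` (lemma S) and `P' < P`, so
`dim P ≤ 0 ≤ e`. If `x_0 ∈ P'` then `P' ⊇ I + (x)`, so `dim P' ≤ e + 1`; if `w ∉ P'` then again
`P' < P`. If `w ∈ P'`: `P'` contains a minimal prime `Q` of `I + (x)`, `Q ∈ QQ`, `dim Q ≤ e + 1`,
`w ∉ Q`, so `Q < P'`, `dim P ≤ dim P' ≤ e`. -/
theorem shear_step [IsNoetherianRing O] {d : ℕ} (I : Ideal O) (hI : DimLE I d)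
    (x y : Fin d → O) (e : ℕ)
    (h : ∀ P : PrimeSpectrum O, I ≤ P.asIdeal → (∀ i, x i ∈ P.asIdeal) → (∃ k, y k ∉ P.asIdeal) →
      Order.coheight P ≤ ((e + 1 : ℕ) : ℕ∞)) :
    ∃ (v : Fin d → ℂ) (lam : ℂ), ∀ P : PrimeSpectrum O, I ≤ P.asIdeal →
      (∀ i, x i + (lam * v i) • ∑ j, v j • y j ∈ P.asIdeal) → (∃ k, y k ∉ P.asIdeal) →
      Order.coheight P ≤ (e : ℕ∞) := by
  classical
  cases d with
  | zero => exact ⟨fun _ => 0, 0, fun P _ _ ⟨k, _⟩ => k.elim0⟩
  | succ d =>
    obtain ⟨QQ, hQQ⟩ := a5_fin (I ⊔ Ideal.span (Set.range x)) (fun Q => ∃ k, y k ∉ Q.asIdeal)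
    obtain ⟨c, hc1, hc2⟩ := lemma_S d I 1 (x 0) (fun k => x k.succ) (y 0) (fun k => y k.succ) QQ
      (fun P hP _ => by rw [add_comm 1 d]; exact hI P hP)
      (by
        intro Q hQ h0
        obtain ⟨-, k, hk⟩ := (hQQ Q).1 hQ
        cases k using Fin.cases with
        | zero => exact absurd h0 hk
        | succ k => exact ⟨k, hk⟩)
    set v : Fin (d + 1) → ℂ := Fin.cons 1 (fun k => - c k) with hv
    have hv0 : v 0 = 1 := rfl
    have hvs : ∀ k : Fin d, v k.succ = - c k := fun k => rfl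
    set w : O := ∑ j, v j • y j with hw
    have hw' : w = y 0 - ∑ k, c k • y k.succ := by
      rw [hw, Fin.sum_univ_succ, hv0, one_smul, sub_eq_add_neg, ← Finset.sum_neg_distrib]
      simp only [hvs, neg_smul]
    have hwn : ∀ P : PrimeSpectrum O, w ∉ P.asIdeal → ∃ k, y k ∉ P.asIdeal := by
      intro P hP
      by_contra hne
      push Not at hne
      exact hP (Ideal.sum_mem _ fun j _ => a5_smul_mem _ _ (hne j))
    obtain ⟨MM, hMM⟩ := a5_fin (I ⊔ Ideal.span (Set.range fun k : Fin d => x k.succ + c k • x 0))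
      (fun _ => True)
    obtain ⟨lam, hlam⟩ := a5_lam (x 0) w MM
    refine ⟨v, lam, fun P hIP hxP hyP => ?_⟩
    have hx0 : x 0 + lam • w ∈ P.asIdeal := by
      have := hxP 0
      rwa [hv0, mul_one] at this
    have hJ : I ⊔ Ideal.span (Set.range fun k : Fin d => x k.succ + c k • x 0) ≤ P.asIdeal := by
      refine sup_le hIP (Ideal.span_le.2 ?_)
      rintro _ ⟨k, rfl⟩
      have h1 := P.asIdeal.add_mem (hxP k.succ) (a5_smul_mem _ (c k) hx0)
      have h2 : x k.succ + (lam * v k.succ) • w + c k • (x 0 + lam • w)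
          = x k.succ + c k • x 0 := by
        rw [hvs, smul_add, smul_smul, mul_neg, neg_smul, mul_comm lam (c k)]
        abel
      rw [h2] at h1
      exact h1
    obtain ⟨P', hP'm, hP'P⟩ := a5_min P hJ
    have hP'M : P' ∈ MM := (hMM P').2 ⟨hP'm, trivial⟩
    have hJ' := hP'm.1.2
    have hI' : I ≤ P'.asIdeal := le_trans le_sup_left hJ'
    have hz' : ∀ k : Fin d, x k.succ + c k • x 0 ∈ P'.asIdeal := fun k =>
      hJ' (Ideal.mem_sup_right (Ideal.subset_span ⟨k, rfl⟩))
    have hyP' : ∃ k, y k ∉ P'.asIdeal := by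
      obtain ⟨k, hk⟩ := hyP
      exact ⟨k, fun h => hk (hP'P h)⟩
    have hlt : x 0 + lam • w ∉ P'.asIdeal → P' < P := fun hn =>
      lt_of_le_of_ne hP'P (fun he => hn (by rw [he]; exact hx0))
    by_cases h0 : x 0 ∈ P'.asIdeal
    · have hxP' : ∀ i, x i ∈ P'.asIdeal := by
        intro i
        cases i using Fin.cases with
        | zero => exact h0
        | succ k =>
          have := P'.asIdeal.sub_mem (hz' k) (a5_smul_mem _ (c k) h0)
          rwa [add_sub_cancel_right] at this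
      by_cases hwP : w ∈ P'.asIdeal
      · have hJx : I ⊔ Ideal.span (Set.range x) ≤ P'.asIdeal := by
          refine sup_le hI' (Ideal.span_le.2 ?_)
          rintro _ ⟨i, rfl⟩
          exact hxP' i
        obtain ⟨Q, hQm, hQP⟩ := a5_min P' hJx
        have hQy : ∃ k, y k ∉ Q.asIdeal := by
          obtain ⟨k, hk⟩ := hyP'
          exact ⟨k, fun h => hk (hQP h)⟩
        have hQQ' : Q ∈ QQ := (hQQ Q).2 ⟨hQm, hQy⟩
        have hwQ : w ∉ Q.asIdeal := by rw [hw']; exact hc2 Q hQQ'
        have hQ1 := h Q (le_trans le_sup_left hQm.1.2)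
          (fun i => hQm.1.2 (Ideal.mem_sup_right (Ideal.subset_span ⟨i, rfl⟩))) hQy
        have hQlt : Q < P' := lt_of_le_of_ne hQP (fun he => hwQ (by rw [he]; exact hwP))
        exact le_trans (Order.coheight_anti hP'P) (coheight_lt hQlt hQ1)
      · have h1 := h P' hI' hxP' hyP'
        exact coheight_lt (hlt fun hn => hwP (hlam P' hP'M hn).2) h1
    · have h1 := hc1 P' hI' h0 hz'
      have h2 : Order.coheight P ≤ ((0 : ℕ) : ℕ∞) :=
        coheight_lt (hlt fun hn => h0 (hlam P' hP'M hn).1) h1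
      exact le_trans h2 (by exact_mod_cast Nat.zero_le e)

private theorem a6_aux [IsNoetherianRing O] {d : ℕ} (I : Ideal O) (hI : DimLE I d)
    (x y : Fin d → O) : ∀ n e : ℕ, n + e = d →
    ∃ a : Matrix (Fin d) (Fin d) ℂ, (∀ i j, a i j = a j i) ∧ ∀ P : PrimeSpectrum O,
      I ≤ P.asIdeal → (∀ i, x i + ∑ j, a i j • y j ∈ P.asIdeal) → (∃ k, y k ∉ P.asIdeal) →
      Order.coheight P ≤ (e : ℕ∞) := by
  intro n
  induction n with
  | zero =>
    intro e he
    rw [zero_add] at he
    subst he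
    exact ⟨0, fun _ _ => rfl, fun P hP _ _ => hI P hP⟩
  | succ n ih =>
    intro e he
    obtain ⟨a, ha, h1⟩ := ih (e + 1) (by omega)
    obtain ⟨v, lam, h2⟩ := shear_step I hI (fun i => x i + ∑ j, a i j • y j) y e h1
    refine ⟨Matrix.of fun i j => a i j + lam * v i * v j, fun i j => ?_, fun P hP hx hk => ?_⟩
    · simp only [Matrix.of_apply]
      rw [ha i j]
      ring
    · refine h2 P hP (fun i => ?_) hk
      have h3 := hx i
      have h4 : ∑ j, (Matrix.of fun i j => a i j + lam * v i * v j) i j • y j =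
          ∑ j, a i j • y j + (lam * v i) • ∑ j, v j • y j := by
        rw [Finset.smul_sum, ← Finset.sum_add_distrib]
        refine Finset.sum_congr rfl fun j _ => ?_
        rw [Matrix.of_apply, add_smul, smul_smul]
      rw [h4, ← add_assoc] at h3
      exact h3

/-- ROW a6. GENERIC SHEAR. There is a symmetric matrix `a` such that every prime which contains `I`
and all `x_i + ∑ a_ij y_j` contains all the `y_k`. Proof: by induction on `d - e` (from
`shear_step`) there is a symmetric `a` such that all primes `P` which contain `I`, `x + a y` but not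
all the `y_k` have dimension `≤ e`, for `e = d, d - 1, …, 0`; for `e = 0` such a `P` is the maximal
ideal, which contains all the `y_k`. (The new matrix is `a + lam v vᵀ`.) -/
theorem exists_shearM [IsNoetherianRing O] [IsLocalRing O] {d : ℕ} (I : Ideal O) (hI : DimLE I d)
    (x y : Fin d → O) (hy : ∀ k, y k ∈ maximalIdeal O) :
    ∃ a : Matrix (Fin d) (Fin d) ℂ, (∀ i j, a i j = a j i) ∧ ∀ P : PrimeSpectrum O,
      I ≤ P.asIdeal → (∀ i, x i + ∑ j, a i j • y j ∈ P.asIdeal) → ∀ k, y k ∈ P.asIdeal := by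
  obtain ⟨a, ha, h1⟩ := a6_aux I hI x y d 0 (add_zero d)
  refine ⟨a, ha, fun P hP hx k => ?_⟩
  by_contra hk
  have h2 := eq_max_of_coheight (P := P) (by simpa using h1 P hP hx ⟨k, hk⟩)
  exact hk (h2 ▸ hy k)

/-- ROW a1. If the only prime which contains `I` is the maximal ideal then `I` contains a power of
the maximal ideal. -/
theorem exists_pow_le [IsNoetherianRing O] [IsLocalRing O] (I : Ideal O)
    (h : ∀ P : PrimeSpectrum O, I ≤ P.asIdeal → P.asIdeal = maximalIdeal O) :
    ∃ N, maximalIdeal O ^ N ≤ I := by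
  refine Ideal.exists_pow_le_of_le_radical_of_fg ?_ ((isNoetherianRing_iff_ideal_fg O).1 inferInstance _)
  rw [Ideal.radical_eq_sInf]
  refine le_sInf fun J hJ => ?_
  exact (h ⟨J, hJ.2⟩ hJ.1).ge

end CA

end Pool.Agent.Ep
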