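import Pool.Agent.Ep.Rel

/-!
# Generic position: exponentials of derivations (P11, block E, helper50)
-/

set_option autoImplicit false

namespace Pool.Agent.Ep

open MvPowerSeries

variable {d : ℕ}

/-- the weight: `x_i`, `y_i` have weight `1`; `t`, `s` have weight `2` -/
def wgt (m : Option (Var d) →₀ ℕ) : ℕ :=
  (∑ i, m (some (.x i))) + (∑ i, m (some (.y i))) + 2 * m (some .t) + 2 * m none

/-- the weight filtration -/
def Wf (K : ℕ) (f : Sym d) : Prop := ∀ m, wgt m < K → coeff m f = 0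

/-! ## row b1: the weight filtration -/

lemma wgt_add (m m' : Option (Var d) →₀ ℕ) : wgt (m + m') = wgt m + wgt m' := by
  unfold wgt
  simp only [Finsupp.add_apply, Finset.sum_add_distrib]
  ring

lemma wgt_finite (K : ℕ) : {m : Option (Var d) →₀ ℕ | wgt m < K}.Finite := by
  classical
  refine (Set.finite_Iic (Finsupp.equivFunOnFinite.symm (fun _ : Option (Var d) => K))).subset ?_
  intro m hm
  have h1 : wgt m < K := hm
  unfold wgt at h1
  rw [Set.mem_Iic]
  intro v
  rw [Finsupp.equivFunOnFinite_symm_apply_apply]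
  rcases v with _ | v
  · omega
  · cases v with
    | x i =>
      have h2 : m (some (.x i)) ≤ ∑ i, m (some (.x i)) :=
        Finset.single_le_sum (f := fun i => m (some (.x i))) (fun _ _ => Nat.zero_le _)
          (Finset.mem_univ i)
      omega
    | y i =>
      have h2 : m (some (.y i)) ≤ ∑ i, m (some (.y i)) :=
        Finset.single_le_sum (f := fun i => m (some (.y i))) (fun _ _ => Nat.zero_le _)
          (Finset.mem_univ i)
      omega
    | t => omega

lemma wf_zero (f : Sym d) : Wf 0 f := fun m hm => by omega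
lemma Wf.zero (K : ℕ) : Wf K (0 : Sym d) := fun m _ => by simp
lemma Wf.mono {K L : ℕ} (h : L ≤ K) {f : Sym d} (hf : Wf K f) : Wf L f := fun m hm => hf m (by omega)
lemma Wf.add {K : ℕ} {f g : Sym d} (hf : Wf K f) (hg : Wf K g) : Wf K (f + g) := by
  intro m hm
  rw [map_add, hf m hm, hg m hm, add_zero]

lemma Wf.neg {K : ℕ} {f : Sym d} (hf : Wf K f) : Wf K (-f) := by
  intro m hm
  rw [map_neg, hf m hm, neg_zero]

lemma Wf.sub {K : ℕ} {f g : Sym d} (hf : Wf K f) (hg : Wf K g) : Wf K (f - g) := by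
  intro m hm
  rw [map_sub, hf m hm, hg m hm, sub_zero]

lemma Wf.smul {K : ℕ} {f : Sym d} (hf : Wf K f) (c : ℂ) : Wf K (c • f) := by
  intro m hm
  rw [map_smul, hf m hm, smul_zero]

lemma Wf.sum {K : ℕ} {κ : Type} (s : Finset κ) {f : κ → Sym d} (hf : ∀ k ∈ s, Wf K (f k)) :
    Wf K (∑ k ∈ s, f k) := by
  intro m hm
  rw [map_sum]
  exact Finset.sum_eq_zero fun k hk => hf k hk m hm

lemma Wf.mul {K L : ℕ} {f g : Sym d} (hf : Wf K f) (hg : Wf L g) : Wf (K + L) (f * g) := by
  classical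
  intro m hm
  rw [coeff_mul]
  refine Finset.sum_eq_zero fun p hp => ?_
  have h1 : p.1 + p.2 = m := Finset.HasAntidiagonal.mem_antidiagonal.1 hp
  have h2 : wgt p.1 + wgt p.2 = wgt m := by rw [← wgt_add, h1]
  rcases Nat.lt_or_ge (wgt p.1) K with h3 | h3
  · rw [hf _ h3, zero_mul]
  · rw [hg _ (by omega), mul_zero]

lemma eq_of_wf {f g : Sym d} (h : ∀ K, Wf K (f - g)) : f = g := by
  ext m
  have h1 := h (wgt m + 1) m (by omega)
  rw [map_sub, sub_eq_zero] at h1
  exact h1

/-! ## row b2: derivations and the composition -/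

private lemma b2_wx (m : Option (Var d) →₀ ℕ) (i : Fin d) :
    wgt (m + Finsupp.single (some (.x i)) 1) = wgt m + 1 := by
  rw [wgt_add]
  congr 1
  simp [wgt, Finsupp.single_apply]

private lemma b2_wy (m : Option (Var d) →₀ ℕ) (i : Fin d) :
    wgt (m + Finsupp.single (some (.y i)) 1) = wgt m + 1 := by
  rw [wgt_add]
  congr 1
  simp [wgt, Finsupp.single_apply]

private lemma b2_wt (m : Option (Var d) →₀ ℕ) :
    wgt (m + Finsupp.single (some .t) 1) = wgt m + 2 := by
  rw [wgt_add]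
  congr 1
  simp [wgt]

private lemma b2_ws (m : Option (Var d) →₀ ℕ) :
    wgt (m + Finsupp.single none 1) = wgt m + 2 := by
  rw [wgt_add]
  congr 1
  simp [wgt]

/-- `s` has weight two. -/
private lemma b2_s {K : ℕ} {f : Sym d} (hf : Wf K f) : Wf (K + 2) (vs * f) := by
  classical
  intro m hm
  change coeff m (monomial (Finsupp.single none 1) 1 * f) = 0
  rw [coeff_monomial_mul]
  split_ifs with h
  · have h1 := b2_ws (m - Finsupp.single none 1)
    rw [tsub_add_cancel_of_le h] at h1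
    rw [hf _ (by omega), mul_zero]
  · rfl

private lemma b2_y {K : ℕ} {f : Sym d} (hf : Wf K f) (i : Fin d) : Wf (K + 1) (vy i * f) := by
  classical
  intro m hm
  change coeff m (monomial (Finsupp.single (some (.y i)) 1) 1 * f) = 0
  rw [coeff_monomial_mul]
  split_ifs with h
  · have h1 := b2_wy (m - Finsupp.single (some (.y i)) 1) i
    rw [tsub_add_cancel_of_le h] at h1
    rw [hf _ (by omega), mul_zero]
  · rfl

private lemma b2_sum {κ : Type} (s : Finset κ) (F : κ → Derivation ℂ (Sym d) (Sym d))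
    (f : Sym d) : (∑ i ∈ s, F i) f = ∑ i ∈ s, F i f := by
  have h := congrFun (map_sum (Derivation.coeFnAddMonoidHom :
    Derivation ℂ (Sym d) (Sym d) →+ _) F s) f
  rw [Finset.sum_apply] at h
  exact h

private lemma b2_D (f : Sym d) : D none f =
    -(vs * (vs * pderiv ℂ none f + ∑ i, vy i * pderiv ℂ (some (.y i)) f)) := by
  change (-((vs : Sym d) • ((vs : Sym d) • pderiv ℂ none +
    ∑ i : Fin d, vy i • pderiv ℂ (some (Var.y i)))) : Derivation ℂ (Sym d) (Sym d)) f = _
  rw [Derivation.neg_apply, Derivation.smul_apply, Derivation.add_apply,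
    Derivation.smul_apply, b2_sum]
  rfl

private lemma b2_ds {K : ℕ} {f : Sym d} (hf : Wf K f) : Wf K (vs * pderiv ℂ none f) := by
  have h : Wf (K - 2) (pderiv ℂ none f) := fun m hm => by
    rw [coeff_pderiv, hf, zero_mul]
    rw [b2_ws]
    omega
  exact (b2_s h).mono (by omega)

private lemma b2_dy {K : ℕ} {f : Sym d} (hf : Wf K f) (i : Fin d) :
    Wf (K - 1) (pderiv ℂ (some (.y i)) f) := fun m hm => by
  rw [coeff_pderiv, hf, zero_mul]
  rw [b2_wy]
  omega

lemma Wf.D_some {K : ℕ} {f : Sym d} (hf : Wf K f) (i : Fin d) : Wf (K + 1) (D (some i) f) := by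
  have h : D (some i) f = vs * pderiv ℂ (some (.y i)) f := rfl
  rw [h]
  exact (b2_s (b2_dy hf i)).mono (by omega)

lemma Wf.D_none {K : ℕ} {f : Sym d} (hf : Wf K f) : Wf (K + 2) (D none f) := by
  rw [b2_D]
  refine Wf.neg (b2_s ((b2_ds hf).add (Wf.sum _ fun i _ => ?_)))
  exact (b2_y (b2_dy hf i) i).mono (by omega)

lemma Wf.B_some {K : ℕ} {f : Sym d} (hf : Wf (K + 1) f) (i : Fin d) : Wf K (B (some i) f) := by
  intro m hm
  change coeff m (pderiv ℂ (some (.x i)) f) = 0
  rw [coeff_pderiv, hf, zero_mul]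
  rw [b2_wx]
  omega

lemma Wf.B_none {K : ℕ} {f : Sym d} (hf : Wf (K + 2) f) : Wf K (B none f) := by
  intro m hm
  change coeff m (pderiv ℂ (some .t) f) = 0
  rw [coeff_pderiv, hf, zero_mul]
  rw [b2_wt]
  omega

/-- Induction on `n`; `D i`, `B i` raise and lower the weight by the same number (if the weight `L`
of `g` is too small use `wf_zero`). -/
lemma Wf.lb {K L : ℕ} {f g : Sym d} (hf : Wf K f) (hg : Wf L g) (n : ℕ) :
    Wf (K + L) (lb n f g) := by
  induction n generalizing K L f g with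
  | zero => exact hf.mul hg
  | succ n ih =>
    change Wf _ (((n : ℂ) + 1)⁻¹ • ∑ i, Ep.lb n (D i f) (B i g))
    refine Wf.smul (Wf.sum _ fun i _ => ?_) _
    rcases i with _ | i
    · by_cases hL : 2 ≤ L
      · have h1 : Wf ((L - 2) + 2) g := hg.mono (by omega)
        exact (ih hf.D_none h1.B_none).mono (by omega)
      · exact (ih hf.D_none (wf_zero _)).mono (by omega)
    · by_cases hL : 1 ≤ L
      · have h1 : Wf ((L - 1) + 1) g := hg.mono (by omega)
        exact (ih (hf.D_some i) (h1.B_some i)).mono (by omega)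
      · exact (ih (hf.D_some i) (wf_zero _)).mono (by omega)

lemma Wf.comp {K L : ℕ} {f g : Sym d} (hf : Wf K f) (hg : Wf L g) : Wf (K + L) (comp f g) := by
  intro m hm
  rw [coeff_comp]
  exact Finset.sum_eq_zero fun n _ => hf.lb hg n m hm

/-! ## row b3: exponentials -/

/-- a derivation of the ring of operators which preserves the weight filtration and is
topologically nilpotent -/
structure WD (N : Sym d →ₗ[ℂ] Sym d) : Prop where
  leib : ∀ f g, N (comp f g) = comp (N f) g + comp f (N g)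
  wf : ∀ K f, Wf K f → Wf K (N f)
  nil : ∀ K, ∃ k : ℕ, ∀ f, Wf K ((N ^ k) f)

/-- the exponential series, coefficient by coefficient -/
noncomputable def expo (N : Sym d →ₗ[ℂ] Sym d) (f : Sym d) : Sym d :=
  fun m => ∑ᶠ k : ℕ, ((k.factorial : ℂ)⁻¹) * coeff m ((N ^ k) f)

lemma WD.neg {N : Sym d →ₗ[ℂ] Sym d} (h : WD N) : WD (-N) := by
  have hneg : ∀ f g : Sym d, comp (-f) g = -comp f g := fun f g => by
    have h1 := comp_smul_left (-1 : ℂ) f g
    rwa [neg_one_smul, neg_one_smul] at h1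
  have hneg' : ∀ f g : Sym d, comp f (-g) = -comp f g := fun f g => by
    have h1 := comp_smul_right (-1 : ℂ) f g
    rwa [neg_one_smul, neg_one_smul] at h1
  refine ⟨fun f g => ?_, fun K f hf => ?_, fun K => ?_⟩
  · rw [LinearMap.neg_apply, LinearMap.neg_apply, LinearMap.neg_apply, h.leib, hneg, hneg', neg_add]
  · rw [LinearMap.neg_apply]
    exact (h.wf K f hf).neg
  · obtain ⟨k, hk⟩ := h.nil K
    refine ⟨k, fun f => ?_⟩
    have h1 : (-N) ^ k = (-1 : ℂ) ^ k • N ^ k := by
      rw [← smul_pow, neg_one_smul]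
    rw [h1, LinearMap.smul_apply]
    exact (hk f).smul _

/-- modulo `Wf K` the exponential is a finite sum -/
lemma expo_fin {N : Sym d →ₗ[ℂ] Sym d} (h : WD N) (K k0 : ℕ) (hk : ∀ f, Wf K ((N ^ k0) f))
    (f : Sym d) :
    Wf K (expo N f - ∑ k ∈ Finset.range k0, ((k.factorial : ℂ)⁻¹) • (N ^ k) f) := by
  intro m hm
  rw [map_sub, map_sum, sub_eq_zero]
  have h1 : coeff m (expo N f) = ∑ᶠ k : ℕ, ((k.factorial : ℂ)⁻¹) * coeff m ((N ^ k) f) := rfl
  have h2 : Function.support (fun k : ℕ => ((k.factorial : ℂ)⁻¹) * coeff m ((N ^ k) f)) ⊆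
      (Finset.range k0 : Set ℕ) := by
    intro k hk'
    by_contra hne
    refine hk' ?_
    rw [Finset.coe_range, Set.mem_Iio, not_lt] at hne
    have h3 : N ^ k = N ^ k0 * N ^ (k - k0) := by rw [← pow_add, Nat.add_sub_cancel' hne]
    show ((k.factorial : ℂ)⁻¹) * coeff m ((N ^ k) f) = 0
    rw [h3, Module.End.mul_apply, hk _ m hm, mul_zero]
  rw [h1, finsum_eq_sum_of_support_subset _ h2]
  refine Finset.sum_congr rfl fun k _ => ?_
  rw [MvPowerSeries.coeff_smul]

private lemma b3_coeff {N : Sym d →ₗ[ℂ] Sym d} (h : WD N) (m : Option (Var d) →₀ ℕ) (k0 : ℕ)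
    (hk : ∀ f, Wf (wgt m + 1) ((N ^ k0) f)) (f : Sym d) :
    coeff m (expo N f) = ∑ k ∈ Finset.range k0, ((k.factorial : ℂ)⁻¹) * coeff m ((N ^ k) f) := by
  have h1 := expo_fin h (wgt m + 1) k0 hk f m (Nat.lt_succ_self _)
  rw [map_sub, map_sum, sub_eq_zero] at h1
  rw [h1]
  refine Finset.sum_congr rfl fun k _ => ?_
  rw [MvPowerSeries.coeff_smul]

lemma expo_add {N : Sym d →ₗ[ℂ] Sym d} (h : WD N) (f g : Sym d) :
    expo N (f + g) = expo N f + expo N g := by
  ext m
  obtain ⟨k0, hk⟩ := h.nil (wgt m + 1)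
  rw [map_add, b3_coeff h m k0 hk, b3_coeff h m k0 hk, b3_coeff h m k0 hk, ← Finset.sum_add_distrib]
  refine Finset.sum_congr rfl fun k _ => ?_
  rw [map_add, map_add, mul_add]
lemma expo_smul {N : Sym d →ₗ[ℂ] Sym d} (h : WD N) (c : ℂ) (f : Sym d) :
    expo N (c • f) = c • expo N f := by
  ext m
  obtain ⟨k0, hk⟩ := h.nil (wgt m + 1)
  rw [MvPowerSeries.coeff_smul, b3_coeff h m k0 hk, b3_coeff h m k0 hk, Finset.mul_sum]
  refine Finset.sum_congr rfl fun k _ => ?_
  rw [map_smul, MvPowerSeries.coeff_smul]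
  ring
lemma Wf.expo {N : Sym d →ₗ[ℂ] Sym d} (h : WD N) {K : ℕ} {f : Sym d} (hf : Wf K f) :
    Wf K (expo N f) := by
  intro m hm
  have h1 : coeff m (Pool.Agent.Ep.expo N f) =
      ∑ᶠ k : ℕ, ((k.factorial : ℂ)⁻¹) * coeff m ((N ^ k) f) := rfl
  rw [h1]
  refine finsum_eq_zero_of_forall_eq_zero fun k => ?_
  have h2 : Wf K ((N ^ k) f) := by
    induction k with
    | zero => exact hf
    | succ k ih =>
      rw [pow_succ', Module.End.mul_apply]
      exact h.wf K _ ih
  rw [h2 m hm, mul_zero]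

/-- if `N f = 0` then `exp N f = f` -/
lemma expo_of_zero {N : Sym d →ₗ[ℂ] Sym d} {f : Sym d} (hf : N f = 0) : expo N f = f := by
  ext m
  have h1 : coeff m (expo N f) = ∑ᶠ k : ℕ, ((k.factorial : ℂ)⁻¹) * coeff m ((N ^ k) f) := rfl
  rw [h1, finsum_eq_single _ 0]
  · simp
  · intro k hk
    obtain ⟨l, rfl⟩ : ∃ l, k = l + 1 := ⟨k - 1, by omega⟩
    rw [pow_succ, Module.End.mul_apply, hf, map_zero, map_zero, mul_zero]

/-- if `N (N f) = 0` then `exp N f = f + N f` -/
lemma expo_of_two {N : Sym d →ₗ[ℂ] Sym d} {f : Sym d} (hf : N (N f) = 0) :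
    expo N f = f + N f := by
  ext m
  have h1 : coeff m (expo N f) = ∑ᶠ k : ℕ, ((k.factorial : ℂ)⁻¹) * coeff m ((N ^ k) f) := rfl
  have h2 : Function.support (fun k : ℕ => ((k.factorial : ℂ)⁻¹) * coeff m ((N ^ k) f)) ⊆
      (Finset.range 2 : Set ℕ) := by
    intro k hk'
    by_contra hne
    refine hk' ?_
    rw [Finset.coe_range, Set.mem_Iio, not_lt] at hne
    obtain ⟨l, rfl⟩ : ∃ l, k = l + 2 := ⟨k - 2, by omega⟩
    show (((l + 2).factorial : ℂ)⁻¹) * coeff m ((N ^ (l + 2)) f) = 0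
    rw [pow_add, Module.End.mul_apply, pow_two, Module.End.mul_apply, hf, map_zero, map_zero,
      mul_zero]
  rw [h1, finsum_eq_sum_of_support_subset _ h2, Finset.sum_range_succ, Finset.sum_range_one]
  simp

/-- `N 1 = 0` (`N (1 ∘ 1) = 2 N 1`) -/
lemma WD.one {N : Sym d →ₗ[ℂ] Sym d} (h : WD N) : N 1 = 0 := by
  have h1 := h.leib 1 1
  rw [comp_one_left, comp_one_right, comp_one_left] at h1
  have h2 : N 1 + N 1 = N 1 + 0 := by rw [← h1, add_zero]
  exact add_left_cancel h2

private noncomputable def b4_E (N : Sym d →ₗ[ℂ] Sym d) (k : ℕ) (f : Sym d) : Sym d :=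
  ((k.factorial : ℂ)⁻¹) • (N ^ k) f

private lemma b4_N (N : Sym d →ₗ[ℂ] Sym d) (k : ℕ) (f : Sym d) :
    N (b4_E N k f) = ((k : ℂ) + 1) • b4_E N (k + 1) f := by
  unfold b4_E
  have h0 : (k.factorial : ℂ) ≠ 0 := Nat.cast_ne_zero.2 (Nat.factorial_ne_zero k)
  have h1 : (k : ℂ) + 1 ≠ 0 := Nat.cast_add_one_ne_zero k
  rw [map_smul, smul_smul, Nat.factorial_succ, pow_succ', Module.End.mul_apply]
  congr 1
  push_cast
  field_simp

private noncomputable def b4_cl (g : Sym d) : Sym d →ₗ[ℂ] Sym d where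
  toFun f := comp f g
  map_add' f f' := comp_add_left f f' g
  map_smul' c f := comp_smul_left c f g

private noncomputable def b4_cr (f : Sym d) : Sym d →ₗ[ℂ] Sym d where
  toFun g := comp f g
  map_add' g g' := comp_add_right f g g'
  map_smul' c g := comp_smul_right c f g

private lemma b4_sum_left {κ : Type} (s : Finset κ) (F : κ → Sym d) (g : Sym d) :
    comp (∑ k ∈ s, F k) g = ∑ k ∈ s, comp (F k) g := map_sum (b4_cl g) F s

private lemma b4_sum_right {κ : Type} (s : Finset κ) (f : Sym d) (G : κ → Sym d) :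
    comp f (∑ k ∈ s, G k) = ∑ k ∈ s, comp f (G k) := map_sum (b4_cr f) G s

private lemma b4_sub (f f' g g' : Sym d) :
    comp f g - comp f' g' = comp (f - f') g + comp f' (g - g') := by
  have h1 : comp (f - f') g = comp f g - comp f' g := map_sub (b4_cl g) f f'
  have h2 : comp f' (g - g') = comp f' g - comp f' g' := map_sub (b4_cr f') g g'
  rw [h1, h2]
  abel

/-- the Leibniz formula -/
private lemma b4_leib {N : Sym d →ₗ[ℂ] Sym d} (h : WD N) (k : ℕ) (f g : Sym d) :
    b4_E N k (comp f g) =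
      ∑ p ∈ Finset.HasAntidiagonal.antidiagonal k, comp (b4_E N p.1 f) (b4_E N p.2 g) := by
  induction k with
  | zero => simp [b4_E]
  | succ k ih =>
    have h1 : (k : ℂ) + 1 ≠ 0 := Nat.cast_add_one_ne_zero k
    have h2 : ((k : ℂ) + 1) • b4_E N (k + 1) (comp f g) = ((k : ℂ) + 1) •
        ∑ p ∈ Finset.HasAntidiagonal.antidiagonal (k + 1), comp (b4_E N p.1 f) (b4_E N p.2 g) := by
      rw [← b4_N, ih, map_sum, Finset.smul_sum]
      have e1 : ∀ p ∈ Finset.HasAntidiagonal.antidiagonal (k + 1),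
          ((k : ℂ) + 1) • comp (b4_E N p.1 f) (b4_E N p.2 g) =
            (p.1 : ℂ) • comp (b4_E N p.1 f) (b4_E N p.2 g) +
            (p.2 : ℂ) • comp (b4_E N p.1 f) (b4_E N p.2 g) := by
        intro p hp
        rw [← add_smul]
        have h3 : p.1 + p.2 = k + 1 := Finset.HasAntidiagonal.mem_antidiagonal.1 hp
        have h4 : (k : ℂ) + 1 = (p.1 : ℂ) + (p.2 : ℂ) := by exact_mod_cast h3.symm
        rw [h4]
      rw [Finset.sum_congr rfl e1, Finset.sum_add_distrib,
        Finset.Nat.sum_antidiagonal_succ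
          (f := fun p => (p.1 : ℂ) • comp (b4_E N p.1 f) (b4_E N p.2 g)),
        Finset.Nat.sum_antidiagonal_succ'
          (f := fun p => (p.2 : ℂ) • comp (b4_E N p.1 f) (b4_E N p.2 g))]
      simp only [Nat.cast_zero, zero_smul, zero_add, Nat.cast_add, Nat.cast_one]
      rw [← Finset.sum_add_distrib]
      refine Finset.sum_congr rfl fun p _ => ?_
      rw [h.leib, b4_N, b4_N, comp_smul_left, comp_smul_right]
    have h3 := congrArg (fun z => ((k : ℂ) + 1)⁻¹ • z) h2
    simpa only [smul_smul, inv_mul_cancel₀ h1, one_smul] using h3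

private lemma b4_tri {K k0 : ℕ} (c : ℕ → ℕ → Sym d) (hc : ∀ i j, (k0 ≤ i ∨ k0 ≤ j) → Wf K (c i j)) :
    Wf K ((∑ k ∈ Finset.range (k0 + k0), ∑ p ∈ Finset.HasAntidiagonal.antidiagonal k, c p.1 p.2) -
      ∑ i ∈ Finset.range k0, ∑ j ∈ Finset.range k0, c i j) := by
  have e1 : ∑ k ∈ Finset.range (k0 + k0), ∑ p ∈ Finset.HasAntidiagonal.antidiagonal k, c p.1 p.2 =
      ∑ m ∈ Finset.range (k0 + k0), ∑ j ∈ Finset.range (k0 + k0 - m), c m j := by
    rw [← Finset.sum_range_diag_flip]
    exact Finset.sum_congr rfl fun k _ => Finset.Nat.sum_antidiagonal_eq_sum_range_succ c k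
  rw [e1, Finset.sum_range_add]
  have e2 : ∀ m ∈ Finset.range k0, ∑ j ∈ Finset.range (k0 + k0 - m), c m j =
      (∑ j ∈ Finset.range k0, c m j) + ∑ j ∈ Finset.range (k0 - m), c m (k0 + j) := by
    intro m hm
    have h1 := Finset.mem_range.1 hm
    rw [show k0 + k0 - m = k0 + (k0 - m) by omega, Finset.sum_range_add]
  rw [Finset.sum_congr rfl e2, Finset.sum_add_distrib, add_assoc, add_sub_cancel_left]
  exact (Wf.sum _ fun m _ => Wf.sum _ fun j _ => hc _ _ (Or.inr (Nat.le_add_right _ _))).add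
    (Wf.sum _ fun m _ => Wf.sum _ fun j _ => hc _ _ (Or.inl (Nat.le_add_right _ _)))

private lemma b4_nil {N : Sym d →ₗ[ℂ] Sym d} {K k0 : ℕ} (hk : ∀ f, Wf K ((N ^ k0) f)) {k : ℕ}
    (hle : k0 ≤ k) (f : Sym d) : Wf K ((N ^ k) f) := by
  obtain ⟨l, rfl⟩ := Nat.exists_eq_add_of_le hle
  rw [pow_add, Module.End.mul_apply]
  exact hk _

/-! ## row b4: the exponential of a derivation is a ring automorphism -/

/-- Modulo `Wf K` (Leibniz formula for `N ^ k (f ∘ g)`, Cauchy product). -/
lemma expo_comp {N : Sym d →ₗ[ℂ] Sym d} (h : WD N) (f g : Sym d) :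
    expo N (comp f g) = comp (expo N f) (expo N g) := by
  refine eq_of_wf fun K => ?_
  obtain ⟨k0, hk⟩ := h.nil K
  have h1 := expo_fin h K (k0 + k0) (b4_nil hk (Nat.le_add_left _ _)) (comp f g)
  have h2 := expo_fin h K k0 hk f
  have h3 := expo_fin h K k0 hk g
  set F := ∑ k ∈ Finset.range k0, ((k.factorial : ℂ)⁻¹) • (N ^ k) f with hF
  set G := ∑ k ∈ Finset.range k0, ((k.factorial : ℂ)⁻¹) • (N ^ k) g with hG
  have h4 : Wf K (comp (expo N f) (expo N g) - comp F G) := by
    rw [b4_sub]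
    refine Wf.add ?_ ?_
    · have h5 := h2.comp (wf_zero (expo N g))
      exact h5
    · have h5 := (wf_zero F).comp h3
      rw [zero_add] at h5
      exact h5
  have h5 : ∑ k ∈ Finset.range (k0 + k0), ((k.factorial : ℂ)⁻¹) • (N ^ k) (comp f g) =
      ∑ k ∈ Finset.range (k0 + k0), ∑ p ∈ Finset.HasAntidiagonal.antidiagonal k,
        comp (b4_E N p.1 f) (b4_E N p.2 g) :=
    Finset.sum_congr rfl fun k _ => b4_leib h k f g
  have h6 : comp F G = ∑ i ∈ Finset.range k0, ∑ j ∈ Finset.range k0,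
      comp (b4_E N i f) (b4_E N j g) := by
    rw [hF, b4_sum_left]
    refine Finset.sum_congr rfl fun i _ => ?_
    rw [hG, b4_sum_right]
    rfl
  have h7 : Wf K ((∑ k ∈ Finset.range (k0 + k0), ∑ p ∈ Finset.HasAntidiagonal.antidiagonal k,
      comp (b4_E N p.1 f) (b4_E N p.2 g)) - ∑ i ∈ Finset.range k0, ∑ j ∈ Finset.range k0,
      comp (b4_E N i f) (b4_E N j g)) := by
    refine b4_tri (fun i j => comp (b4_E N i f) (b4_E N j g)) fun i j hij => ?_
    rcases hij with hij | hij
    · exact ((b4_nil hk hij f).smul _).comp (wf_zero _)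
    · have h8 := (wf_zero (b4_E N i f)).comp ((b4_nil hk hij g).smul ((j.factorial : ℂ)⁻¹))
      rw [zero_add] at h8
      exact h8
  rw [h5] at h1
  rw [← h6] at h7
  have h8 := (h1.add h7).sub h4
  rw [sub_add_sub_cancel, sub_sub_sub_cancel_right] at h8
  exact h8

private lemma b4_coef (k : ℕ) : ∑ p ∈ Finset.HasAntidiagonal.antidiagonal k,
    ((p.2.factorial : ℂ)⁻¹ * (-1) ^ p.2) * (p.1.factorial : ℂ)⁻¹ = if k = 0 then 1 else 0 := by
  have h0 : (k.factorial : ℂ) ≠ 0 := Nat.cast_ne_zero.2 (Nat.factorial_ne_zero k)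
  have h1 := (Commute.all (1 : ℂ) (-1)).add_pow' k
  rw [add_neg_cancel] at h1
  have h2 : (k.factorial : ℂ) * ∑ p ∈ Finset.HasAntidiagonal.antidiagonal k,
      ((p.2.factorial : ℂ)⁻¹ * (-1) ^ p.2) * (p.1.factorial : ℂ)⁻¹ = 0 ^ k := by
    rw [h1, Finset.mul_sum]
    refine Finset.sum_congr rfl fun p hp => ?_
    have h3 : p.1 + p.2 = k := Finset.HasAntidiagonal.mem_antidiagonal.1 hp
    have h4 : (p.1.factorial : ℂ) ≠ 0 := Nat.cast_ne_zero.2 (Nat.factorial_ne_zero _)
    have h5 : (p.2.factorial : ℂ) ≠ 0 := Nat.cast_ne_zero.2 (Nat.factorial_ne_zero _)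
    have h6 : (k.choose p.1 : ℂ) * (p.1.factorial : ℂ) * (p.2.factorial : ℂ) =
        (k.factorial : ℂ) := by
      have h7 := Nat.choose_mul_factorial_mul_factorial (n := k) (k := p.1) (by omega)
      rw [show k - p.1 = p.2 by omega] at h7
      exact_mod_cast h7
    rw [one_pow, one_mul, nsmul_eq_mul, ← h6]
    field_simp
  by_cases hk : k = 0
  · subst hk
    simp
  · rw [if_neg hk]
    rw [zero_pow hk] at h2
    exact (mul_eq_zero.1 h2).resolve_left h0

lemma expo_neg_expo {N : Sym d →ₗ[ℂ] Sym d} (h : WD N) (f : Sym d) : expo (-N) (expo N f) = f := by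
  refine eq_of_wf fun K => ?_
  obtain ⟨k0, hk⟩ := h.nil K
  have hneg : ∀ (k : ℕ) (g : Sym d), ((-N) ^ k) g = ((-1 : ℂ) ^ k) • (N ^ k) g := by
    intro k g
    have h1 : (-N : Sym d →ₗ[ℂ] Sym d) = (-1 : ℂ) • N := LinearMap.ext fun x => by
      rw [LinearMap.neg_apply, LinearMap.smul_apply, neg_smul, one_smul]
    rw [h1, smul_pow, LinearMap.smul_apply]
  have hk' : ∀ g, Wf K (((-N) ^ k0) g) := fun g => by
    rw [hneg]
    exact (hk g).smul _
  have h2 := expo_fin h K k0 hk f
  set F := ∑ k ∈ Finset.range k0, ((k.factorial : ℂ)⁻¹) • (N ^ k) f with hF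
  have h3 : Wf K (expo (-N) (expo N f) - expo (-N) F) := by
    have h4 := expo_add h.neg (expo N f - F) F
    rw [sub_add_cancel] at h4
    rw [h4, add_sub_cancel_right]
    exact h2.expo h.neg
  have h4 := expo_fin h.neg K k0 hk' F
  have h5 : ∑ k ∈ Finset.range k0, ((k.factorial : ℂ)⁻¹) • ((-N) ^ k) F =
      ∑ i ∈ Finset.range k0, ∑ j ∈ Finset.range k0,
        (((j.factorial : ℂ)⁻¹ * (-1) ^ j) * (i.factorial : ℂ)⁻¹) • (N ^ (i + j)) f := by
    rw [Finset.sum_comm]
    refine Finset.sum_congr rfl fun j _ => ?_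
    rw [hneg, hF, map_sum, smul_smul, Finset.smul_sum]
    refine Finset.sum_congr rfl fun i _ => ?_
    rw [map_smul, smul_smul, ← Module.End.mul_apply, ← pow_add, add_comm j i]
  have h6 := b4_tri (K := K) (k0 := k0) (fun i j =>
    (((j.factorial : ℂ)⁻¹ * (-1) ^ j) * (i.factorial : ℂ)⁻¹) • (N ^ (i + j)) f)
    fun i j hij => (b4_nil hk (by omega) f).smul _
  have h7 : ∀ k ∈ Finset.range (k0 + k0), ∑ p ∈ Finset.HasAntidiagonal.antidiagonal k,
      (((p.2.factorial : ℂ)⁻¹ * (-1) ^ p.2) * (p.1.factorial : ℂ)⁻¹) • (N ^ (p.1 + p.2)) f =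
      if k = 0 then f else 0 := by
    intro k _
    have e1 : ∀ p ∈ Finset.HasAntidiagonal.antidiagonal k,
        (((p.2.factorial : ℂ)⁻¹ * (-1) ^ p.2) * (p.1.factorial : ℂ)⁻¹) • (N ^ (p.1 + p.2)) f =
        (((p.2.factorial : ℂ)⁻¹ * (-1) ^ p.2) * (p.1.factorial : ℂ)⁻¹) • (N ^ k) f := by
      intro p hp
      rw [Finset.HasAntidiagonal.mem_antidiagonal.1 hp]
    rw [Finset.sum_congr rfl e1, ← Finset.sum_smul, b4_coef]
    by_cases hk0 : k = 0
    · subst hk0
      simp
    · rw [if_neg hk0, if_neg hk0, zero_smul]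
  rw [Finset.sum_congr rfl h7, ← h5] at h6
  rcases Nat.eq_zero_or_pos k0 with h0 | h0
  · subst h0
    intro m hm
    have h8 := hk (expo (-N) (expo N f) - f) m hm
    simpa using h8
  · rw [Finset.sum_ite_eq' (Finset.range (k0 + k0)) 0 fun _ => f,
      if_pos (Finset.mem_range.2 (by omega))] at h6
    have h8 := (h3.add h4).sub h6
    rw [sub_add_sub_cancel, sub_sub_sub_cancel_right] at h8
    exact h8

/-- the automorphism `exp N` of the ring of operators -/
noncomputable def autW {N : Sym d →ₗ[ℂ] Sym d} (h : WD N) : Op d ≃+* Op d where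
  toFun P := op (expo N P.sym)
  invFun P := op (expo (-N) P.sym)
  left_inv P := Op.ext (expo_neg_expo h _)
  right_inv P := Op.ext (by
    have h1 := expo_neg_expo h.neg P.sym
    rw [neg_neg] at h1
    exact h1)
  map_mul' P Q := Op.ext (expo_comp h _ _)
  map_add' P Q := Op.ext (expo_add h _ _)

/-! ## row b5: continuity: the image of a series is the sum of the images of its monomials -/

private lemma b5_zero {N : Sym d →ₗ[ℂ] Sym d} (h : WD N) : expo N (0 : Sym d) = 0 := by
  have := expo_smul h 0 0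
  rwa [zero_smul, zero_smul] at this

private lemma b5_sum {N : Sym d →ₗ[ℂ] Sym d} (h : WD N) {κ : Type} (s : Finset κ)
    (f : κ → Sym d) : expo N (∑ k ∈ s, f k) = ∑ k ∈ s, expo N (f k) := by
  classical
  induction s using Finset.induction_on with
  | empty => rw [Finset.sum_empty, Finset.sum_empty, b5_zero h]
  | insert a s ha ih => rw [Finset.sum_insert ha, Finset.sum_insert ha, expo_add h, ih]

lemma expo_coeff {N : Sym d →ₗ[ℂ] Sym d} (h : WD N) (f : Sym d) (m : Option (Var d) →₀ ℕ) :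
    coeff m (expo N f) = ∑ m' ∈ (wgt_finite (d := d) (wgt m + 1)).toFinset,
      coeff m' f * coeff m (expo N (monomial m' 1)) := by
  classical
  set S := (wgt_finite (d := d) (wgt m + 1)).toFinset with hS
  set p : Sym d := ∑ m' ∈ S, coeff m' f • monomial m' 1 with hp
  have hr : Wf (wgt m + 1) (f - p) := by
    intro k hk
    have hkS : k ∈ S := by
      rw [hS, Set.Finite.mem_toFinset]
      exact hk
    have e : coeff k p = coeff k f := by
      rw [hp, map_sum]
      simp only [coeff_smul, coeff_monomial]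
      rw [Finset.sum_eq_single k]
      · rw [if_pos rfl, mul_one]
      · intro b _ hb
        rw [if_neg (Ne.symm hb), mul_zero]
      · intro hk'
        exact absurd hkS hk'
    rw [map_sub, e, sub_self]
  have h1 : coeff m (expo N (f - p)) = 0 := Wf.expo h hr m (by omega)
  have h2 : expo N f = expo N p + expo N (f - p) := by
    rw [← expo_add h, add_sub_cancel]
  rw [h2, map_add, h1, add_zero, hp, b5_sum h, map_sum]
  refine Finset.sum_congr rfl fun m' _ => ?_
  rw [expo_smul h, coeff_smul]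

/-- a bound on the images of the monomials gives a bound on the operator -/
lemma nrm_expo_le {N : Sym d →ₗ[ℂ] Sym d} (h : WD N) {w u : (Option (Var d) →₀ ℕ) → ENNReal}
    (hm : ∀ m, nrm w (expo N (monomial m 1)) ≤ u m) (f : Sym d) :
    nrm w (expo N f) ≤ nrm u f := by
  have h1 : ∀ M : Option (Var d) →₀ ℕ, (‖coeff M (expo N f)‖₊ : ENNReal) ≤
      ∑' m, (‖coeff m f‖₊ : ENNReal) * ‖coeff M (expo N (monomial m 1))‖₊ := by
    intro M
    rw [expo_coeff h f M]
    calc ((‖∑ m ∈ (wgt_finite (d := d) (wgt M + 1)).toFinset,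
          coeff m f * coeff M (expo N (monomial m 1))‖₊ : NNReal) : ENNReal)
        ≤ ((∑ m ∈ (wgt_finite (d := d) (wgt M + 1)).toFinset,
            ‖coeff m f * coeff M (expo N (monomial m 1))‖₊ : NNReal) : ENNReal) :=
          ENNReal.coe_le_coe.2 (nnnorm_sum_le _ _)
      _ = ∑ m ∈ (wgt_finite (d := d) (wgt M + 1)).toFinset,
            (‖coeff m f‖₊ : ENNReal) * ‖coeff M (expo N (monomial m 1))‖₊ := by
          push_cast
          refine Finset.sum_congr rfl fun _ _ => ?_
          rw [nnnorm_mul]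
          push_cast
          rfl
      _ ≤ _ := ENNReal.sum_le_tsum _
  calc nrm w (expo N f) ≤ ∑' M, (∑' m, (‖coeff m f‖₊ : ENNReal) *
        ‖coeff M (expo N (monomial m 1))‖₊) * w M :=
        ENNReal.tsum_le_tsum fun M => by gcongr; exact h1 M
    _ = ∑' m, (‖coeff m f‖₊ : ENNReal) * nrm w (expo N (monomial m 1)) := by
        simp only [nrm, ← ENNReal.tsum_mul_left, ← ENNReal.tsum_mul_right]
        rw [ENNReal.tsum_comm]
        refine tsum_congr fun m => tsum_congr fun M => ?_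
        ring
    _ ≤ ∑' m, (‖coeff m f‖₊ : ENNReal) * u m := by
        refine ENNReal.tsum_le_tsum fun m => ?_
        gcongr
        exact hm m
    _ = nrm u f := rfl

private lemma b5_pderiv (v : Option (Var d)) (m : Option (Var d) →₀ ℕ) (h : m v = 0) :
    pderiv ℂ v (monomial m (1 : ℂ)) = 0 := by
  classical
  ext k
  rw [coeff_pderiv, coeff_monomial, map_zero, if_neg, zero_mul]
  intro hk
  have := congrArg (fun z : Option (Var d) →₀ ℕ => z v) hk
  simp only [Finsupp.add_apply, Finsupp.single_eq_same] at this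
  omega

/-- every monomial is the (ordered) composition of its `x`, `t`-part and its `y`, `s`-part, which
is also the product; the image of the `y`, `s`-part is a product if `exp N` maps the `y_i`, `s` to
series in `y`, `s`, see below -/
lemma monomial_comp (m m' : Option (Var d) →₀ ℕ)
    (h : (∀ i, m' (some (.x i)) = 0) ∧ m' (some .t) = 0) :
    comp (monomial m 1 : Sym d) (monomial m' 1) = monomial (m + m') 1 := by
  have hB : ∀ i, B i (monomial m' 1 : Sym d) = 0 := by
    rintro (_ | i)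
    · exact b5_pderiv _ _ h.2
    · exact b5_pderiv _ _ (h.1 i)
  rw [comp_eq_mul_right hB, monomial_mul_monomial, one_mul]

end Pool.Agent.Ep
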