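import Pool.Agent.Ep.Geb

/-!
# Generic position: the two derivations (P11, block E, helper50)
-/

set_option autoImplicit false

namespace Pool.Agent.Ep

open MvPowerSeries

variable {d : ℕ}

/-! ## row c1: the derivation `[Z, ·]` for an element `Z` with `D_i Z = q_i`, `B_i Z = 0` -/

section general

variable {A : Type} [CommRing A] [Algebra ℂ A] {ι : Type} [Fintype ι]

/-- the terms of order `n + 1` of `Z ∘ f - f ∘ Z` if `D i Z = q i` and `B i Z = 0` -/
noncomputable def brk (D B : ι → Derivation ℂ A A) (q : ι → A) (n : ℕ) (f : A) : A :=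
  ((n : ℂ) + 1)⁻¹ • ∑ i, leib D B n (q i) (B i f)

section c1

variable (D B : ι → Derivation ℂ A A) (q : ι → A)

private lemma c1_brk (n : ℕ) (f : A) :
    ((n : ℂ) + 1) • brk D B q n f = ∑ i, leib D B n (q i) (B i f) := by
  have hn : ((n : ℂ) + 1) ≠ 0 := by exact_mod_cast Nat.succ_ne_zero n
  rw [brk, smul_smul, mul_inv_cancel₀ hn, one_smul]

private lemma c1_leib (n : ℕ) (f g : A) :
    ((n : ℂ) + 1) • leib D B (n + 1) f g = ∑ i, leib D B n (D i f) (B i g) := by
  have hn : ((n : ℂ) + 1) ≠ 0 := by exact_mod_cast Nat.succ_ne_zero n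
  rw [leib_succ, smul_smul, mul_inv_cancel₀ hn, one_smul]

private lemma c1_smul (n : ℕ) (c : ℂ) (f : A) : brk D B q n (c • f) = c • brk D B q n f := by
  simp only [brk, Derivation.map_smul, leib_smul_right]
  rw [← Finset.smul_sum, smul_comm]

private lemma c1_add (n : ℕ) (f g : A) :
    brk D B q n (f + g) = brk D B q n f + brk D B q n g := by
  simp only [brk, map_add, leib_add_right, Finset.sum_add_distrib, smul_add]

private lemma c1_sum {κ : Type} (s : Finset κ) (n : ℕ) (f : κ → A) :
    brk D B q n (∑ k ∈ s, f k) = ∑ k ∈ s, brk D B q n (f k) := by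
  simp only [brk, map_sum, leib_sum_right]
  rw [Finset.sum_comm, ← Finset.smul_sum]

private lemma c1_wt (M : ℕ) (F : ℕ × ℕ → A) :
    ((M : ℂ) + 1 + 1) • ∑ p ∈ Finset.HasAntidiagonal.antidiagonal (M + 1), F p =
      ∑ p ∈ Finset.HasAntidiagonal.antidiagonal (M + 1), ((p.1 : ℂ) + 1) • F p +
      ∑ p ∈ Finset.HasAntidiagonal.antidiagonal M, ((p.2 : ℂ) + 1) • F (p.1, p.2 + 1) := by
  have h1 : ((M : ℂ) + 1 + 1) • ∑ p ∈ Finset.HasAntidiagonal.antidiagonal (M + 1), F p =
      ∑ p ∈ Finset.HasAntidiagonal.antidiagonal (M + 1), ((p.1 : ℂ) + 1) • F p +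
      ∑ p ∈ Finset.HasAntidiagonal.antidiagonal (M + 1), (p.2 : ℂ) • F p := by
    rw [Finset.smul_sum, ← Finset.sum_add_distrib]
    refine Finset.sum_congr rfl fun p hp => ?_
    rw [← add_smul]
    congr 1
    have := Finset.HasAntidiagonal.mem_antidiagonal.1 hp
    have h2 : ((p.1 + p.2 : ℕ) : ℂ) = ((M + 1 : ℕ) : ℂ) := by rw [this]
    push_cast at h2
    rw [← h2]
    ring
  rw [h1, Finset.Nat.sum_antidiagonal_succ' (f := fun p => (p.2 : ℂ) • F p)]
  simp

/-- the commutation of `B i` with `brk` -/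
private lemma c1_B (h : Com D B) (hB : ∀ i j, B i (q j) = 0) (i : ι) (n : ℕ) (f : A) :
    B i (brk D B q n f) = brk D B q n (B i f) := by
  simp only [brk, Derivation.map_smul, map_sum]
  congr 1
  refine Finset.sum_congr rfl fun j _ => ?_
  rw [der_leib D B (B i) (fun k x => (h.DB k i x).symm) (fun k x => h.BB i k x), hB,
    leib_zero_left, zero_add, h.BB]

/-- the commutation of `D i` with `brk` -/
private lemma c1_D (h : Com D B) (hq : ∀ i j, D i (q j) = D j (q i)) (i : ι) (n : ℕ) (f : A) :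
    D i (brk D B q n f) = brk D B q n (D i f) + leib D B (n + 1) (q i) f := by
  have h1 : D i (brk D B q n f) = ((n : ℂ) + 1)⁻¹ •
      ∑ j, (leib D B n (D j (q i)) (B j f) + leib D B n (q j) (B j (D i f))) := by
    simp only [brk, Derivation.map_smul, map_sum]
    congr 1
    refine Finset.sum_congr rfl fun j _ => ?_
    rw [der_leib D B (D i) (fun k x => h.DD i k x) (fun k x => h.DB i k x), hq i j, h.DB]
  rw [h1, Finset.sum_add_distrib, smul_add, add_comm]
  rfl

/-- the inductive step of `brk_leib` for one index -/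
private lemma c1_step (h : Com D B) (hq : ∀ i j, D i (q j) = D j (q i))
    (hB : ∀ i j, B i (q j) = 0) (M : ℕ)
    (ih : ∀ f g : A, ∑ p ∈ Finset.HasAntidiagonal.antidiagonal M, brk D B q p.1 (leib D B p.2 f g)
      = ∑ p ∈ Finset.HasAntidiagonal.antidiagonal M,
        (leib D B p.2 (brk D B q p.1 f) g + leib D B p.2 f (brk D B q p.1 g)))
    (f g : A) (i : ι) :
    ∑ p ∈ Finset.HasAntidiagonal.antidiagonal (M + 1),
        leib D B p.1 (q i) (B i (leib D B p.2 f g)) +
      ∑ p ∈ Finset.HasAntidiagonal.antidiagonal M, brk D B q p.1 (leib D B p.2 (D i f) (B i g)) =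
    (∑ p ∈ Finset.HasAntidiagonal.antidiagonal (M + 1),
        leib D B p.2 (leib D B p.1 (q i) (B i f)) g +
      ∑ p ∈ Finset.HasAntidiagonal.antidiagonal M, leib D B p.2 (D i (brk D B q p.1 f)) (B i g)) +
    (∑ p ∈ Finset.HasAntidiagonal.antidiagonal (M + 1),
        leib D B p.2 f (leib D B p.1 (q i) (B i g)) +
      ∑ p ∈ Finset.HasAntidiagonal.antidiagonal M,
        leib D B p.2 (D i f) (B i (brk D B q p.1 g))) := by
  -- the first sum
  have a1 : ∑ p ∈ Finset.HasAntidiagonal.antidiagonal (M + 1),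
      leib D B p.1 (q i) (B i (leib D B p.2 f g)) =
      ∑ p ∈ Finset.HasAntidiagonal.antidiagonal (M + 1),
        leib D B p.1 (leib D B p.2 (q i) (B i f)) g +
      ∑ p ∈ Finset.HasAntidiagonal.antidiagonal (M + 1),
        leib D B p.1 (leib D B p.2 (q i) f) (B i g) := by
    rw [leib_assoc D B h, leib_assoc D B h, ← Finset.sum_add_distrib]
    refine Finset.sum_congr rfl fun p _ => ?_
    rw [der_leib D B (B i) (fun k x => (h.DB k i x).symm) (fun k x => h.BB i k x),
      leib_add_right]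
  have a2 : ∑ p ∈ Finset.HasAntidiagonal.antidiagonal (M + 1),
      leib D B p.2 (leib D B p.1 (q i) (B i f)) g =
      ∑ p ∈ Finset.HasAntidiagonal.antidiagonal (M + 1),
        leib D B p.1 (leib D B p.2 (q i) (B i f)) g :=
    Finset.Nat.sum_antidiagonal_swap (f := fun p => leib D B p.1 (leib D B p.2 (q i) (B i f)) g)
  have a3 : ∑ p ∈ Finset.HasAntidiagonal.antidiagonal (M + 1),
      leib D B p.2 f (leib D B p.1 (q i) (B i g)) =
      leib D B (M + 1) (q i * f) (B i g) := by
    have e1 : ∑ p ∈ Finset.HasAntidiagonal.antidiagonal (M + 1),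
        leib D B p.2 f (leib D B p.1 (q i) (B i g)) =
        ∑ p ∈ Finset.HasAntidiagonal.antidiagonal (M + 1),
          leib D B p.1 f (leib D B p.2 (q i) (B i g)) :=
      Finset.Nat.sum_antidiagonal_swap (f := fun p => leib D B p.1 f (leib D B p.2 (q i) (B i g)))
    rw [e1, ← leib_assoc D B h,
      Finset.Nat.sum_antidiagonal_succ' (f := fun p => leib D B p.1 (leib D B p.2 f (q i)) (B i g))]
    simp only
    rw [Finset.sum_eq_zero fun p _ => by
      rw [leib_eq_zero_right D B (fun k => hB k i), leib_zero_left], add_zero, leib_zero,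
      mul_comm f]
  have a4 : ∑ p ∈ Finset.HasAntidiagonal.antidiagonal (M + 1),
      leib D B p.1 (leib D B p.2 (q i) f) (B i g) =
      ∑ p ∈ Finset.HasAntidiagonal.antidiagonal M,
        leib D B p.2 (leib D B (p.1 + 1) (q i) f) (B i g) +
      leib D B (M + 1) (q i * f) (B i g) := by
    rw [Finset.Nat.sum_antidiagonal_succ' (f := fun p =>
      leib D B p.1 (leib D B p.2 (q i) f) (B i g))]
    simp only
    rw [leib_zero, add_comm]
    congr 1
    exact (Finset.Nat.sum_antidiagonal_swap (f := fun p =>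
      leib D B p.1 (leib D B (p.2 + 1) (q i) f) (B i g))).symm
  have a5 : ∑ p ∈ Finset.HasAntidiagonal.antidiagonal M,
      leib D B p.2 (D i (brk D B q p.1 f)) (B i g) =
      ∑ p ∈ Finset.HasAntidiagonal.antidiagonal M,
        leib D B p.2 (brk D B q p.1 (D i f)) (B i g) +
      ∑ p ∈ Finset.HasAntidiagonal.antidiagonal M,
        leib D B p.2 (leib D B (p.1 + 1) (q i) f) (B i g) := by
    rw [← Finset.sum_add_distrib]
    refine Finset.sum_congr rfl fun p _ => ?_
    rw [c1_D D B q h hq, leib_add_left]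
  have a6 : ∑ p ∈ Finset.HasAntidiagonal.antidiagonal M,
      leib D B p.2 (D i f) (B i (brk D B q p.1 g)) =
      ∑ p ∈ Finset.HasAntidiagonal.antidiagonal M,
        leib D B p.2 (D i f) (brk D B q p.1 (B i g)) :=
    Finset.sum_congr rfl fun p _ => by rw [c1_B D B q h hB]
  rw [a1, a2, a3, a4, a5, a6, ih (D i f) (B i g), Finset.sum_add_distrib]
  abel

end c1

/-- Order by order, `[Z, f ∘ g] = [Z, f] ∘ g + f ∘ [Z, g]`. Proof: in `Polynomial A` with the commuting
derivations `D' i = mapCoeff (D i) + C (q i) • derivative`, `B' i = mapCoeff (B i)` (so that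
`D' i X = C (q i)`, `B' i X = 0`) one has `leib D' B' (n + 1) X (C f) = C (brk D B q n f)`,
`leib D' B' (n + 1) (C f) X = 0`, `leib D' B' 0 (C f) X = X * C f`, `leib D' B' n (C f) (C g) =
C (leib D B n f g)`; combine `leib_assoc` for `(X, f, g)`, `(f, X, g)`, `(f, g, X)`. -/
theorem brk_leib {D B : ι → Derivation ℂ A A} (h : Com D B) {q : ι → A}
    (hq : ∀ i j, D i (q j) = D j (q i)) (hB : ∀ i j, B i (q j) = 0) (N : ℕ) (f g : A) :
    ∑ p ∈ Finset.HasAntidiagonal.antidiagonal N, brk D B q p.1 (leib D B p.2 f g)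
      = ∑ p ∈ Finset.HasAntidiagonal.antidiagonal N,
        (leib D B p.2 (brk D B q p.1 f) g + leib D B p.2 f (brk D B q p.1 g)) := by
  induction N generalizing f g with
  | zero =>
    have hb : ∀ f : A, brk D B q 0 f = ∑ i, q i * B i f := by
      intro f
      rw [brk]
      simp [leib_zero]
    simp only [Finset.HasAntidiagonal.antidiagonal_zero, Finset.sum_singleton, leib_zero, hb]
    rw [Finset.sum_mul, Finset.mul_sum, ← Finset.sum_add_distrib]
    refine Finset.sum_congr rfl fun i _ => ?_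
    rw [Derivation.leibniz, smul_eq_mul, smul_eq_mul]
    ring
  | succ M ih =>
    have hM : ((M : ℂ) + 1 + 1) ≠ 0 := by exact_mod_cast Nat.succ_ne_zero (M + 1)
    have e1 : ((M : ℂ) + 1 + 1) • ∑ p ∈ Finset.HasAntidiagonal.antidiagonal (M + 1),
        brk D B q p.1 (leib D B p.2 f g) =
        ∑ i, (∑ p ∈ Finset.HasAntidiagonal.antidiagonal (M + 1),
          leib D B p.1 (q i) (B i (leib D B p.2 f g)) +
        ∑ p ∈ Finset.HasAntidiagonal.antidiagonal M,
          brk D B q p.1 (leib D B p.2 (D i f) (B i g))) := by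
      rw [c1_wt M (fun p => brk D B q p.1 (leib D B p.2 f g)), Finset.sum_add_distrib]
      simp only
      congr 1
      · rw [Finset.sum_comm]
        exact Finset.sum_congr rfl fun p _ => c1_brk D B q p.1 _
      · rw [Finset.sum_comm]
        refine Finset.sum_congr rfl fun p _ => ?_
        rw [← c1_smul, c1_leib, c1_sum]
    have e2 : ((M : ℂ) + 1 + 1) • ∑ p ∈ Finset.HasAntidiagonal.antidiagonal (M + 1),
        leib D B p.2 (brk D B q p.1 f) g =
        ∑ i, (∑ p ∈ Finset.HasAntidiagonal.antidiagonal (M + 1),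
          leib D B p.2 (leib D B p.1 (q i) (B i f)) g +
        ∑ p ∈ Finset.HasAntidiagonal.antidiagonal M,
          leib D B p.2 (D i (brk D B q p.1 f)) (B i g)) := by
      rw [c1_wt M (fun p => leib D B p.2 (brk D B q p.1 f) g), Finset.sum_add_distrib]
      simp only
      congr 1
      · rw [Finset.sum_comm]
        refine Finset.sum_congr rfl fun p _ => ?_
        rw [← leib_smul_left, c1_brk, leib_sum_left]
      · rw [Finset.sum_comm]
        exact Finset.sum_congr rfl fun p _ => c1_leib D B p.2 _ _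
    have e3 : ((M : ℂ) + 1 + 1) • ∑ p ∈ Finset.HasAntidiagonal.antidiagonal (M + 1),
        leib D B p.2 f (brk D B q p.1 g) =
        ∑ i, (∑ p ∈ Finset.HasAntidiagonal.antidiagonal (M + 1),
          leib D B p.2 f (leib D B p.1 (q i) (B i g)) +
        ∑ p ∈ Finset.HasAntidiagonal.antidiagonal M,
          leib D B p.2 (D i f) (B i (brk D B q p.1 g))) := by
      rw [c1_wt M (fun p => leib D B p.2 f (brk D B q p.1 g)), Finset.sum_add_distrib]
      simp only
      congr 1
      · rw [Finset.sum_comm]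
        refine Finset.sum_congr rfl fun p _ => ?_
        rw [← leib_smul_right, c1_brk, leib_sum_right]
      · rw [Finset.sum_comm]
        exact Finset.sum_congr rfl fun p _ => c1_leib D B p.2 _ _
    have key : ((M : ℂ) + 1 + 1) • ∑ p ∈ Finset.HasAntidiagonal.antidiagonal (M + 1),
        brk D B q p.1 (leib D B p.2 f g) =
        ((M : ℂ) + 1 + 1) • ∑ p ∈ Finset.HasAntidiagonal.antidiagonal (M + 1),
        (leib D B p.2 (brk D B q p.1 f) g + leib D B p.2 f (brk D B q p.1 g)) := by
      rw [Finset.sum_add_distrib, smul_add, e1, e2, e3, ← Finset.sum_add_distrib]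
      exact Finset.sum_congr rfl fun i _ => c1_step D B q h hq hB M ih f g i
    have := congrArg (fun u => ((M : ℂ) + 1 + 1)⁻¹ • u) key
    simpa only [smul_smul, inv_mul_cancel₀ hM, one_smul] using this

/-- Row c3. A derivation `E` with `[E, D i] = ∑ κ i j D j`, `[E, B i] = - ∑ κ j i B j` satisfies the
product rule for `leib n` (induction on `n`; compare `der_leib`). -/
theorem der_leib_lin (D B : ι → Derivation ℂ A A) (E : Derivation ℂ A A) (κ : ι → ι → ℂ)
    (hD : ∀ i f, E (D i f) = D i (E f) + ∑ j, κ i j • D j f)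
    (hB : ∀ i f, E (B i f) = B i (E f) - ∑ j, κ j i • B j f) (n : ℕ) (f g : A) :
    E (leib D B n f g) = leib D B n (E f) g + leib D B n f (E g) := by
  induction n generalizing f g with
  | zero =>
    simp only [leib_zero, Derivation.leibniz, smul_eq_mul]
    ring
  | succ n ih =>
    have key : ∀ i, E (leib D B n (D i f) (B i g)) =
        leib D B n (D i (E f)) (B i g) + leib D B n (D i f) (B i (E g)) +
        ((∑ j, κ i j • leib D B n (D j f) (B i g)) -
          ∑ j, κ j i • leib D B n (D i f) (B j g)) := by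
      intro i
      have h1 : leib D B n (D i f) (B i (E g)) =
          leib D B n (D i f) (E (B i g)) + ∑ j, κ j i • leib D B n (D i f) (B j g) := by
        have h2 : B i (E g) = E (B i g) + ∑ j, κ j i • B j g := by rw [hB]; abel
        rw [h2, leib_add_right, leib_sum_right]
        simp only [leib_smul_right]
      rw [ih, hD, leib_add_left, leib_sum_left, h1]
      simp only [leib_smul_left]
      abel
    rw [leib_succ, leib_succ, leib_succ, Derivation.map_smul, map_sum]
    simp only [key]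
    rw [Finset.sum_add_distrib, Finset.sum_add_distrib, Finset.sum_sub_distrib,
      Finset.sum_comm (f := fun i j => κ i j • leib D B n (D j f) (B i g)), sub_self, add_zero,
      smul_add]

end general

/-! ## row c2: the shear -/

/-- `q_i = D_i Q` for `Q = (1/2) ∑ a_ij ξ_i ξ_j / τ` -/
noncomputable def qf (a : Matrix (Fin d) (Fin d) ℂ) : Option (Fin d) → Sym d
  | none => -((1 / 2 : ℂ) • ∑ i, ∑ j, a i j • (vy i * vy j))
  | some i => ∑ j, a i j • vy j

/-- the derivation `[Q, ·]`, `Q = (1/2) ∑ a_ij ξ_i ξ_j / τ` -/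
noncomputable def shN (a : Matrix (Fin d) (Fin d) ℂ) : Sym d →ₗ[ℂ] Sym d where
  toFun f := fun m => ∑ n ∈ Finset.range (m none + 1), coeff m (brk D B (qf a) n f)
  map_add' f g := by
    funext m
    change ∑ n ∈ Finset.range (m none + 1), coeff m (brk D B (qf a) n (f + g)) =
      ∑ n ∈ Finset.range (m none + 1), coeff m (brk D B (qf a) n f) +
        ∑ n ∈ Finset.range (m none + 1), coeff m (brk D B (qf a) n g)
    rw [← Finset.sum_add_distrib]
    exact Finset.sum_congr rfl fun n _ => by rw [c1_add, map_add]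
  map_smul' c f := by
    funext m
    change ∑ n ∈ Finset.range (m none + 1), coeff m (brk D B (qf a) n (c • f)) =
      c • ∑ n ∈ Finset.range (m none + 1), coeff m (brk D B (qf a) n f)
    rw [Finset.smul_sum]
    exact Finset.sum_congr rfl fun n _ => by rw [c1_smul, map_smul]

private lemma c2_sum (F : ℕ → ℕ → Sym d) (hF : ∀ m n, Fil (m + n) (F m n)) (N : ℕ) :
    Fil N (∑ m ∈ Finset.range N, ∑ n ∈ Finset.range N, F m n -
      ∑ K ∈ Finset.range N, ∑ p ∈ Finset.HasAntidiagonal.antidiagonal K, F p.1 p.2) := by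
  have h1 : ∑ K ∈ Finset.range N, ∑ p ∈ Finset.HasAntidiagonal.antidiagonal K, F p.1 p.2 =
      ∑ m ∈ Finset.range N, ∑ n ∈ Finset.range (N - m), F m n := by
    rw [← Finset.sum_range_diag_flip]
    exact Finset.sum_congr rfl fun K _ => Finset.Nat.sum_antidiagonal_eq_sum_range_succ F K
  rw [h1, ← Finset.sum_sub_distrib]
  refine Fil.sum _ fun m hm => ?_
  rw [← Finset.sum_Ico_eq_sub _ (Nat.sub_le N m)]
  refine Fil.sum _ fun n hn => (hF m n).mono ?_
  have h2 := (Finset.mem_Ico.1 hn).1
  omega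

private lemma c2_brk_fil (q : Option (Fin d) → Sym d) {K : ℕ} {f : Sym d} (hf : Fil K f) (n : ℕ) :
    Fil (K + n) (brk D B q n f) := by
  unfold brk
  refine Fil.smul (Fil.sum _ fun i _ => ?_) _
  exact (Fil.lb (fil_zero (q i)) (hf.B i) n).mono (by omega)

private lemma c2_shN_fil (a : Matrix (Fin d) (Fin d) ℂ) (f : Sym d) (N : ℕ) :
    Fil N (shN a f - ∑ n ∈ Finset.range N, brk D B (qf a) n f) := by
  intro m hm
  rw [map_sub, map_sum]
  have h1 : coeff m (shN a f) =
      ∑ n ∈ Finset.range (m none + 1), coeff m (brk D B (qf a) n f) := rfl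
  rw [h1, sub_eq_zero]
  refine Finset.sum_subset (Finset.range_subset_range.2 (by omega)) fun n _ hn => ?_
  rw [Finset.mem_range, not_lt] at hn
  exact c2_brk_fil (qf a) (fil_zero f) n m (by omega)

private lemma c2_add (q : Option (Fin d) → Sym d) (m N : ℕ) (u : Sym d) (F : ℕ → Sym d) :
    brk D B q m u - ∑ n ∈ Finset.range N, brk D B q m (F n) =
      brk D B q m (u - ∑ n ∈ Finset.range N, F n) := by
  have h5 := c1_add D B q m (u - ∑ n ∈ Finset.range N, F n) (∑ n ∈ Finset.range N, F n)
  rw [sub_add_cancel, c1_sum] at h5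
  rw [h5, add_sub_cancel_right]

private lemma c2_left (m N : ℕ) (u h : Sym d) (F : ℕ → Sym d) :
    lb m u h - ∑ n ∈ Finset.range N, lb m (F n) h = lb m (u - ∑ n ∈ Finset.range N, F n) h := by
  have h5 : lb m ((u - ∑ n ∈ Finset.range N, F n) + ∑ n ∈ Finset.range N, F n) h =
      lb m (u - ∑ n ∈ Finset.range N, F n) h + lb m (∑ n ∈ Finset.range N, F n) h :=
    leib_add_left D B _ _ _ _
  have h4 : lb m (∑ n ∈ Finset.range N, F n) h = ∑ n ∈ Finset.range N, lb m (F n) h :=
    leib_sum_left D B _ _ _ _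
  rw [sub_add_cancel] at h5
  rw [h5, h4, add_sub_cancel_right]

private lemma c2_right (m N : ℕ) (f u : Sym d) (F : ℕ → Sym d) :
    lb m f u - ∑ n ∈ Finset.range N, lb m f (F n) = lb m f (u - ∑ n ∈ Finset.range N, F n) := by
  have h5 : lb m f ((u - ∑ n ∈ Finset.range N, F n) + ∑ n ∈ Finset.range N, F n) =
      lb m f (u - ∑ n ∈ Finset.range N, F n) + lb m f (∑ n ∈ Finset.range N, F n) :=
    leib_add_right D B _ _ _ _
  have h4 : lb m f (∑ n ∈ Finset.range N, F n) = ∑ n ∈ Finset.range N, lb m f (F n) :=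
    leib_sum_right D B _ _ _ _
  rw [sub_add_cancel] at h5
  rw [h5, h4, add_sub_cancel_right]

private lemma c2_qB (a : Matrix (Fin d) (Fin d) ℂ) (i j : Option (Fin d)) :
    B i (qf a j : Sym d) = 0 := by
  cases j with
  | none =>
    simp only [qf, map_neg, Derivation.map_smul, map_sum, Derivation.leibniz, B_vy, smul_zero,
      add_zero, Finset.sum_const_zero, neg_zero]
  | some j => simp only [qf, Derivation.map_smul, map_sum, B_vy, smul_zero, Finset.sum_const_zero]

private lemma c2_some (a : Matrix (Fin d) (Fin d) ℂ) (i j : Fin d) :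
    D (some i) (qf a (some j) : Sym d) = a j i • vs := by
  simp only [qf, Derivation.map_smul, map_sum, D_vy_some]
  rw [Finset.sum_eq_single i (fun k _ hk => by rw [if_neg (Ne.symm hk), smul_zero])
    (fun h => absurd (Finset.mem_univ i) h), if_pos rfl]

private lemma c2_none {a : Matrix (Fin d) (Fin d) ℂ} (ha : ∀ i j, a i j = a j i) (j : Fin d) :
    D (some j) (qf a none : Sym d) = D none (qf a (some j)) := by
  have h1 : D none (qf a (some j) : Sym d) = -∑ k, a j k • (vs * vy k) := by
    simp only [qf, Derivation.map_smul, map_sum, D_vy_none, smul_neg, Finset.sum_neg_distrib]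
  have h2 : D (some j) (qf a none : Sym d) = -((1 / 2 : ℂ) • (∑ k, ∑ l, a k l • (vy k *
      D (some j) (vy l : Sym d)) + ∑ k, ∑ l, a k l • (vy l * D (some j) (vy k : Sym d)))) := by
    simp only [qf, map_neg, Derivation.map_smul, map_sum, Derivation.leibniz, smul_eq_mul,
      smul_add, Finset.sum_add_distrib]
  have h3 : ∑ k, ∑ l, a k l • (vy k * D (some j) (vy l : Sym d)) =
      ∑ k, a j k • ((vs : Sym d) * vy k) := by
    refine Finset.sum_congr rfl fun k _ => ?_
    rw [Finset.sum_eq_single j (fun l _ hl => by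
      rw [D_vy_some, if_neg (Ne.symm hl), mul_zero, smul_zero])
      (fun h => absurd (Finset.mem_univ j) h), D_vy_some, if_pos rfl, ha k j, mul_comm]
  have h4 : ∑ k, ∑ l, a k l • (vy l * D (some j) (vy k : Sym d)) =
      ∑ k, a j k • ((vs : Sym d) * vy k) := by
    rw [Finset.sum_eq_single j (fun k _ hk => Finset.sum_eq_zero fun l _ => by
      rw [D_vy_some, if_neg (Ne.symm hk), mul_zero, smul_zero])
      (fun h => absurd (Finset.mem_univ j) h)]
    refine Finset.sum_congr rfl fun l _ => ?_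
    rw [D_vy_some, if_pos rfl, mul_comm]
  rw [h1, h2, h3, h4, ← two_smul ℂ, smul_smul]
  norm_num

private lemma c2_q {a : Matrix (Fin d) (Fin d) ℂ} (ha : ∀ i j, a i j = a j i)
    (i j : Option (Fin d)) : D i (qf a j : Sym d) = D j (qf a i) := by
  cases i with
  | none =>
    cases j with
    | none => rfl
    | some j => exact (c2_none ha j).symm
  | some i =>
    cases j with
    | none => exact c2_none ha i
    | some j => rw [c2_some, c2_some, ha]

/-- the field `leib` of `wd_shN` -/
lemma c2_wd_leib {a : Matrix (Fin d) (Fin d) ℂ} (ha : ∀ i j, a i j = a j i) (f g : Sym d) :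
    shN a (comp f g) = comp (shN a f) g + comp f (shN a g) := by
  refine eq_of_fil fun N => ?_
  have l1 := c2_shN_fil a (comp f g) N
  have l2 : Fil N (∑ m ∈ Finset.range N, brk D B (qf a) m (comp f g) -
      ∑ m ∈ Finset.range N, ∑ n ∈ Finset.range N, brk D B (qf a) m (lb n f g)) := by
    rw [← Finset.sum_sub_distrib]
    refine Fil.sum _ fun m _ => ?_
    rw [c2_add]
    exact (c2_brk_fil (qf a) (comp_fil f g N) m).mono (by omega)
  have l3 := c2_sum (fun m n => brk D B (qf a) m (lb n f g)) (fun m n =>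
    (c2_brk_fil (qf a) (Fil.lb (fil_zero f) (fil_zero g) n) m).mono (by omega)) N
  have m1 := comp_fil (shN a f) g N
  have m2 : Fil N (∑ m ∈ Finset.range N, lb m (shN a f) g -
      ∑ m ∈ Finset.range N, ∑ n ∈ Finset.range N, lb m (brk D B (qf a) n f) g) := by
    rw [← Finset.sum_sub_distrib]
    refine Fil.sum _ fun m _ => ?_
    rw [c2_left]
    exact (Fil.lb (c2_shN_fil a f N) (fil_zero g) m).mono (by omega)
  have m3 := c2_sum (fun m n => lb m (brk D B (qf a) n f) g) (fun m n =>
    (Fil.lb (c2_brk_fil (qf a) (fil_zero f) n) (fil_zero g) m).mono (by omega)) N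
  have n1 := comp_fil f (shN a g) N
  have n2 : Fil N (∑ m ∈ Finset.range N, lb m f (shN a g) -
      ∑ m ∈ Finset.range N, ∑ n ∈ Finset.range N, lb m f (brk D B (qf a) n g)) := by
    rw [← Finset.sum_sub_distrib]
    refine Fil.sum _ fun m _ => ?_
    rw [c2_right]
    exact (Fil.lb (fil_zero f) (c2_shN_fil a g N) m).mono (by omega)
  have n3 := c2_sum (fun m n => lb m f (brk D B (qf a) n g)) (fun m n =>
    (Fil.lb (fil_zero f) (c2_brk_fil (qf a) (fil_zero g) n) m).mono (by omega)) N
  have key : ∑ K ∈ Finset.range N, ∑ p ∈ Finset.HasAntidiagonal.antidiagonal K,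
      brk D B (qf a) p.1 (lb p.2 f g) =
      ∑ K ∈ Finset.range N, ∑ p ∈ Finset.HasAntidiagonal.antidiagonal K,
        lb p.1 (brk D B (qf a) p.2 f) g +
      ∑ K ∈ Finset.range N, ∑ p ∈ Finset.HasAntidiagonal.antidiagonal K,
        lb p.1 f (brk D B (qf a) p.2 g) := by
    rw [← Finset.sum_add_distrib]
    refine Finset.sum_congr rfl fun K _ => ?_
    have h1 := brk_leib (com_DB (d := d)) (q := qf a) (c2_q ha) (c2_qB a) K f g
    have h2 : ∑ p ∈ Finset.HasAntidiagonal.antidiagonal K,
        (lb p.2 (brk D B (qf a) p.1 f) g + lb p.2 f (brk D B (qf a) p.1 g)) =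
        ∑ p ∈ Finset.HasAntidiagonal.antidiagonal K,
        (lb p.1 (brk D B (qf a) p.2 f) g + lb p.1 f (brk D B (qf a) p.2 g)) :=
      Finset.Nat.sum_antidiagonal_swap (f := fun p =>
        lb p.1 (brk D B (qf a) p.2 f) g + lb p.1 f (brk D B (qf a) p.2 g))
    rw [← Finset.sum_add_distrib, ← h2]
    exact h1
  have t1 := (l1.add l2).add l3
  have t2 := (m1.add m2).add m3
  have t3 := (n1.add n2).add n3
  simp only at t1 t2 t3
  rw [key] at t1
  have t4 := t1.add (t2.add t3).neg
  refine (congrArg (Fil N) ?_).mp t4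
  abel

/-! ### row c4: private helpers -/

/-- the degree in `y`, `s` -/
private def c4_yd (m : Option (Var d) →₀ ℕ) : ℕ := (∑ i, m (some (.y i))) + m none

private lemma c4_yd_add (m m' : Option (Var d) →₀ ℕ) : c4_yd (m + m') = c4_yd m + c4_yd m' := by
  simp only [c4_yd, Finsupp.add_apply, Finset.sum_add_distrib]
  omega

private lemma c4_yd_y (i : Fin d) : c4_yd (Finsupp.single (some (.y i)) 1 : Option (Var d) →₀ ℕ) = 1 := by
  classical
  unfold c4_yd
  rw [Finset.sum_eq_single i]
  · simp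
  · intro j _ hj
    rw [Finsupp.single_apply, if_neg]
    intro h
    exact hj (by simpa using h.symm)
  · intro h
    exact absurd (Finset.mem_univ i) h

private lemma c4_yd_none : c4_yd (Finsupp.single none 1 : Option (Var d) →₀ ℕ) = 1 := by
  classical
  unfold c4_yd
  simp

/-- the filtration by the degree in `y`, `s` -/
private def c4_Yf (K : ℕ) (f : Sym d) : Prop := ∀ m, c4_yd m < K → coeff m f = 0

private lemma c4_zero (f : Sym d) : c4_Yf 0 f := fun m hm => by omega

private lemma c4_mono {K L : ℕ} (h : L ≤ K) {f : Sym d} (hf : c4_Yf K f) : c4_Yf L f :=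
  fun m hm => hf m (by omega)

private lemma c4_add {K : ℕ} {f g : Sym d} (hf : c4_Yf K f) (hg : c4_Yf K g) :
    c4_Yf K (f + g) := fun m hm => by rw [map_add, hf m hm, hg m hm, add_zero]

private lemma c4_smul {K : ℕ} {f : Sym d} (hf : c4_Yf K f) (c : ℂ) : c4_Yf K (c • f) :=
  fun m hm => by rw [map_smul, hf m hm, smul_zero]

private lemma c4_neg {K : ℕ} {f : Sym d} (hf : c4_Yf K f) : c4_Yf K (-f) :=
  fun m hm => by rw [map_neg, hf m hm, neg_zero]

private lemma c4_sum {K : ℕ} {κ : Type} (s : Finset κ) {f : κ → Sym d}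
    (hf : ∀ k ∈ s, c4_Yf K (f k)) : c4_Yf K (∑ k ∈ s, f k) := fun m hm => by
  rw [map_sum]
  exact Finset.sum_eq_zero fun k hk => hf k hk m hm

private lemma c4_mul {K L : ℕ} {f g : Sym d} (hf : c4_Yf K f) (hg : c4_Yf L g) :
    c4_Yf (K + L) (f * g) := by
  classical
  intro m hm
  rw [coeff_mul]
  refine Finset.sum_eq_zero fun p hp => ?_
  rw [Finset.HasAntidiagonal.mem_antidiagonal] at hp
  rw [← hp, c4_yd_add] at hm
  rcases lt_or_ge (c4_yd p.1) K with h | h
  · rw [hf _ h, zero_mul]
  · rw [hg _ (by omega), mul_zero]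

private lemma c4_vs : c4_Yf 1 (vs : Sym d) := by
  classical
  intro m hm
  have h : (vs : Sym d) = X none := rfl
  rw [h, coeff_X, if_neg]
  rintro rfl
  rw [c4_yd_none] at hm
  omega

private lemma c4_vy (i : Fin d) : c4_Yf 1 (vy i : Sym d) := by
  classical
  intro m hm
  have h : (vy i : Sym d) = X (some (.y i)) := rfl
  rw [h, coeff_X, if_neg]
  rintro rfl
  rw [c4_yd_y] at hm
  omega

private lemma c4_pd {K : ℕ} {f : Sym d} (hf : c4_Yf (K + 1) f) (v : Option (Var d)) :
    c4_Yf K (pderiv ℂ v f) := by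
  intro m hm
  rw [coeff_pderiv, hf, zero_mul]
  rw [c4_yd_add]
  have h : c4_yd (Finsupp.single v 1 : Option (Var d) →₀ ℕ) ≤ 1 := by
    classical
    rcases v with _ | v
    · rw [c4_yd_none]
    · cases v with
      | y i => rw [c4_yd_y]
      | x i =>
        unfold c4_yd
        simp
      | t =>
        unfold c4_yd
        simp
  omega

private lemma c4_mul_pd {K : ℕ} {f : Sym d} (hf : c4_Yf K f) {g : Sym d} (hg : c4_Yf 1 g)
    (v : Option (Var d)) : c4_Yf K (g * pderiv ℂ v f) := by
  rcases K with _ | K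
  · exact c4_zero _
  · have h := c4_mul hg (c4_pd hf v)
    rwa [add_comm] at h

private lemma c4_D {K : ℕ} {f : Sym d} (hf : c4_Yf K f) (i : Option (Fin d)) :
    c4_Yf K (D i f) := by
  cases i with
  | some i => exact c4_mul_pd hf c4_vs _
  | none =>
    have h1 : D none f = -(vs * (vs * pderiv ℂ none f +
        ∑ i, vy i * pderiv ℂ (some (.y i)) f)) := by
      have h2 := congrFun (map_sum (Derivation.coeFnAddMonoidHom (R := ℂ) (A := Sym d)
        (M := Sym d)) (fun i : Fin d => (vy i : Sym d) • pderiv ℂ (some (.y i))) Finset.univ) f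
      rw [Finset.sum_apply] at h2
      have h3 : D none f = -(vs * (vs * pderiv ℂ none f +
        (∑ i : Fin d, (vy i : Sym d) • pderiv ℂ (some (.y i))) f)) := rfl
      rw [h3]
      exact congrArg (fun z : Sym d => -(vs * (vs * pderiv ℂ none f + z))) h2
    rw [h1]
    refine c4_neg (c4_mono (Nat.le_add_left K 1) (c4_mul c4_vs (c4_add (c4_mul_pd hf c4_vs _)
      (c4_sum _ fun i _ => c4_mul_pd hf (c4_vy i) _))))

private lemma c4_B {K : ℕ} {f : Sym d} (hf : c4_Yf K f) (i : Option (Fin d)) :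
    c4_Yf K (B i f) := by
  classical
  intro m hm
  cases i with
  | some i =>
    show coeff m (pderiv ℂ (some (.x i)) f) = 0
    rw [coeff_pderiv, hf, zero_mul]
    rw [c4_yd_add]
    have h : c4_yd (Finsupp.single (some (.x i)) 1 : Option (Var d) →₀ ℕ) = 0 := by
      unfold c4_yd
      simp
    omega
  | none =>
    show coeff m (pderiv ℂ (some .t) f) = 0
    rw [coeff_pderiv, hf, zero_mul]
    rw [c4_yd_add]
    have h : c4_yd (Finsupp.single (some .t) 1 : Option (Var d) →₀ ℕ) = 0 := by
      unfold c4_yd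
      simp
    omega

private lemma c4_lb {K L : ℕ} {f g : Sym d} (hf : c4_Yf K f) (hg : c4_Yf L g) (n : ℕ) :
    c4_Yf (K + L) (leib D B n f g) := by
  induction n generalizing f g with
  | zero => exact c4_mul hf hg
  | succ n ih =>
    rw [leib_succ]
    exact c4_smul (c4_sum _ fun i _ => ih (c4_D hf i) (c4_B hg i)) _

private lemma c4_qf (a : Matrix (Fin d) (Fin d) ℂ) (i : Option (Fin d)) :
    c4_Yf 1 (qf a i) := by
  cases i with
  | some i => exact c4_sum _ fun j _ => c4_smul (c4_vy j) _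
  | none =>
    exact c4_neg (c4_smul (c4_sum _ fun i _ => c4_sum _ fun j _ => c4_smul
      (c4_mono (by omega) (c4_mul (c4_vy i) (c4_vy j))) _) _)

private lemma c4_shN_coeff (a : Matrix (Fin d) (Fin d) ℂ) (f : Sym d) (m : Option (Var d) →₀ ℕ) :
    coeff m (shN a f) = ∑ n ∈ Finset.range (m none + 1), coeff m (brk D B (qf a) n f) := rfl

private lemma c4_shN {K : ℕ} (a : Matrix (Fin d) (Fin d) ℂ) {f : Sym d} (hf : c4_Yf K f) :
    c4_Yf (K + 1) (shN a f) := by
  intro m hm
  rw [c4_shN_coeff]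
  refine Finset.sum_eq_zero fun n _ => ?_
  have h : c4_Yf (1 + K) (brk D B (qf a) n f) :=
    c4_smul (c4_sum _ fun i _ => c4_lb (c4_qf a i) (c4_B hf i) n) _
  exact h m (by omega)

private lemma c4_yd_le (m : Option (Var d) →₀ ℕ) : c4_yd m ≤ wgt m := by
  unfold c4_yd wgt
  omega

/-- row c4, second part -/
lemma shN_nil (a : Matrix (Fin d) (Fin d) ℂ) : ∀ K, ∃ k : ℕ, ∀ f : Sym d, Wf K ((shN a ^ k) f) := by
  intro K
  have h : ∀ (k : ℕ) (f : Sym d), c4_Yf k ((shN a ^ k) f) := by
    intro k
    induction k with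
    | zero => exact fun f => c4_zero _
    | succ k ih =>
      intro f
      rw [pow_succ']
      exact c4_shN a (ih f)
  exact ⟨K, fun f m hm => h K f m (lt_of_le_of_lt (c4_yd_le m) hm)⟩

private lemma c4_wf_vy (i : Fin d) : Wf 1 (vy i : Sym d) := by
  classical
  intro m hm
  have h : (vy i : Sym d) = X (some (.y i)) := rfl
  rw [h, coeff_X, if_neg]
  rintro rfl
  have h1 := c4_yd_le (Finsupp.single (some (.y i)) 1 : Option (Var d) →₀ ℕ)
  rw [c4_yd_y] at h1
  omega

/-- row c4, first part -/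
lemma shN_wf (a : Matrix (Fin d) (Fin d) ℂ) : ∀ K (f : Sym d), Wf K f → Wf K (shN a f) := by
  intro K f hf m hm
  rw [c4_shN_coeff]
  refine Finset.sum_eq_zero fun n _ => ?_
  have h : Wf K (brk D B (qf a) n f) := by
    refine Wf.smul (Wf.sum _ fun i _ => ?_) _
    cases i with
    | some i =>
      rcases K with _ | K
      · exact wf_zero _
      · have h1 : Wf 1 (qf a (some i)) := Wf.sum _ fun j _ => Wf.smul (c4_wf_vy j) _
        have h2 := Wf.lb h1 (Wf.B_some hf i) n
        rwa [add_comm] at h2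
    | none =>
      have h1 : Wf 2 (qf a none) := Wf.neg (Wf.smul (Wf.sum _ fun i _ => Wf.sum _ fun j _ =>
        Wf.smul (Wf.mul (c4_wf_vy i) (c4_wf_vy j)) _) _)
      rcases K with _ | _ | K
      · exact wf_zero _
      · exact Wf.mono (by omega) (Wf.lb h1 (wf_zero (B none f)) n)
      · have h2 := Wf.lb h1 (Wf.B_none hf) n
        rwa [add_comm] at h2
  exact h m hm

/-- row c2 (from `brk_leib`, as `comp_assoc` from `leib_assoc`; `D i (q j) = D j (q i)` by `D_vy_some`,
`D_vy_none` and the symmetry of `a`) and row c4 (`wf`: `q (some i)` has weight `1`, `q none` weight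
`2`; `nil` with `k = K`: `shN a` raises `ydeg m + m none`, which is at most `wgt m`). -/
theorem wd_shN {a : Matrix (Fin d) (Fin d) ℂ} (ha : ∀ i j, a i j = a j i) : WD (shN a) :=
  ⟨c2_wd_leib ha, shN_wf a, shN_nil a⟩

/-! ## row c5: values of the shear derivation -/

private lemma c5_coeff (a : Matrix (Fin d) (Fin d) ℂ) (f : Sym d) (m : Option (Var d) →₀ ℕ) :
    coeff m (shN a f) =
      ∑ n ∈ Finset.range (m none + 1), coeff m (brk D B (qf a) n f) := rfl

/-- if all `B i f` are constants then only the term of order `0` is left -/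
private lemma c5_const (a : Matrix (Fin d) (Fin d) ℂ) {f : Sym d} (c : Option (Fin d) → ℂ)
    (hf : ∀ i, B i f = algebraMap ℂ (Sym d) (c i)) : shN a f = ∑ i, c i • qf a i := by
  ext m
  rw [c5_coeff, Finset.sum_eq_single 0]
  · simp only [brk, Nat.cast_zero, zero_add, inv_one, one_smul, leib_zero]
    congr 1
    refine Finset.sum_congr rfl fun i _ => ?_
    rw [hf i, Algebra.smul_def, mul_comm]
  · intro n _ hn
    obtain ⟨k, rfl⟩ := Nat.exists_eq_succ_of_ne_zero hn
    have h0 : brk D B (qf a) (k + 1) f = 0 := by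
      simp only [brk, leib_succ]
      refine smul_eq_zero_of_right _ (Finset.sum_eq_zero fun i _ => ?_)
      refine smul_eq_zero_of_right _ (Finset.sum_eq_zero fun j _ => ?_)
      rw [hf i, Derivation.map_algebraMap, leib_zero_right]
    rw [h0, map_zero]
  · intro h
    exact absurd (Finset.mem_range.2 (Nat.succ_pos _)) h

lemma shN_vx (a : Matrix (Fin d) (Fin d) ℂ) (i : Fin d) :
    shN a (vx i) = ∑ j, a i j • vy j := by
  classical
  rw [c5_const a (fun k => if k = some i then 1 else 0)]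
  · rw [Finset.sum_eq_single (some i)]
    · rw [if_pos rfl, one_smul]
      rfl
    · intro k _ hk
      rw [if_neg hk, zero_smul]
    · intro h
      exact absurd (Finset.mem_univ _) h
  · intro k
    cases k with
    | none => rw [B_vx_none, if_neg (by simp), map_zero]
    | some k =>
      rw [B_vx_some]
      by_cases h : k = i
      · rw [if_pos h, if_pos (by rw [h]), map_one]
      · rw [if_neg h, if_neg (by simpa using h), map_zero]

lemma shN_vt (a : Matrix (Fin d) (Fin d) ℂ) :
    shN a vt = -((1 / 2 : ℂ) • ∑ i, ∑ j, a i j • (vy i * vy j)) := by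
  classical
  rw [c5_const a (fun k => if k = none then 1 else 0)]
  · rw [Finset.sum_eq_single none]
    · rw [if_pos rfl, one_smul]
      rfl
    · intro k _ hk
      rw [if_neg hk, zero_smul]
    · intro h
      exact absurd (Finset.mem_univ _) h
  · intro k
    cases k with
    | none => rw [B_vt_none, if_pos rfl, map_one]
    | some k => rw [B_vt_some, if_neg (by simp), map_zero]

/-- more generally for every `f` with `B i f = 0` -/
lemma shN_of_B (a : Matrix (Fin d) (Fin d) ℂ) {f : Sym d} (hf : ∀ i, B i f = 0) :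
    shN a f = 0 := by
  rw [c5_const a (fun _ => 0) (fun i => by rw [hf i, map_zero])]
  exact Finset.sum_eq_zero fun i _ => zero_smul _ _

private lemma c5_qf_neg (a : Matrix (Fin d) (Fin d) ℂ) (i : Option (Fin d)) :
    qf (-a) i = (-1 : ℂ) • qf a i := by
  cases i with
  | none =>
    simp only [qf, Matrix.neg_apply, neg_smul, Finset.sum_neg_distrib, smul_neg, one_smul]
  | some i =>
    simp only [qf, Matrix.neg_apply, neg_smul, Finset.sum_neg_distrib, one_smul]

lemma shN_neg (a : Matrix (Fin d) (Fin d) ℂ) : shN (-a) = -shN a := by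
  ext f m
  rw [LinearMap.neg_apply, map_neg, c5_coeff, c5_coeff, ← Finset.sum_neg_distrib]
  refine Finset.sum_congr rfl fun n _ => ?_
  rw [← map_neg]
  congr 1
  simp only [brk, c5_qf_neg, leib_smul_left]
  rw [← Finset.smul_sum, smul_comm, neg_one_smul]

/-- `shN a f` is divisible by `s` modulo the vector field `∑ (a y)_i ∂_{x_i} + q_0 ∂_t` -/
lemma shN_zero (a : Matrix (Fin d) (Fin d) ℂ) (f : Sym d) (m : Option (Var d) →₀ ℕ)
    (hm : m none = 0) :
    coeff m (shN a f) = coeff m (∑ i, qf a i * B i f) := by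
  rw [c5_coeff, hm, zero_add, Finset.sum_range_one]
  simp only [brk, Nat.cast_zero, zero_add, inv_one, one_smul, leib_zero]

/-! ## row c6: the linear change of the base coordinates -/

/-- the vector field `∑ b_i (t ∂_{x_i} - ξ_i ∂_τ)` in the coordinates `x, t, y, s` -/
noncomputable def lvD (b : Fin d → ℂ) : Derivation ℂ (Sym d) (Sym d) :=
  ∑ i, b i • ((vt : Sym d) • pderiv ℂ (some (.x i)) +
    (vy i : Sym d) • ((vs : Sym d) • pderiv ℂ none + ∑ j, (vy j : Sym d) • pderiv ℂ (some (.y j))))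

/-- the same as a linear map -/
noncomputable def lvN (b : Fin d → ℂ) : Sym d →ₗ[ℂ] Sym d := (lvD b).toLinearMap

private lemma c6_comm {σ : Type} (i j : σ) (f : MvPowerSeries σ ℂ) :
    pderiv ℂ i (pderiv ℂ j f) = pderiv ℂ j (pderiv ℂ i f) := by
  classical
  ext n
  rw [coeff_pderiv, coeff_pderiv, coeff_pderiv, coeff_pderiv]
  by_cases h : i = j
  · subst h; rfl
  · have h1 : (n + Finsupp.single i 1 : σ →₀ ℕ) j = n j := by
      simp [Finsupp.add_apply, h]
    have h2 : (n + Finsupp.single j 1 : σ →₀ ℕ) i = n i := by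
      simp [Finsupp.add_apply, Ne.symm h]
    have h3 : n + Finsupp.single i 1 + Finsupp.single j 1
        = n + Finsupp.single j 1 + Finsupp.single i 1 := by
      rw [add_assoc, add_assoc, add_comm (Finsupp.single i 1)]
    rw [h1, h2, h3]
    ring

/-- the Euler vector field in `s`, `y` -/
private noncomputable def c6_E (f : Sym d) : Sym d :=
  vs * pderiv ℂ none f + ∑ j : Fin d, vy j * pderiv ℂ (some (Var.y j)) f

private lemma c6_Dsome (i : Fin d) (f : Sym d) :
    D (some i) f = vs * pderiv ℂ (some (Var.y i)) f := by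
  simp [D, Derivation.smul_apply, smul_eq_mul]

private lemma c6_Dnone (f : Sym d) : D none f = -(vs * c6_E f) := by
  simp only [D, c6_E, Derivation.neg_apply, Derivation.smul_apply, Derivation.add_apply,
    smul_eq_mul]
  congr 3
  rw [← Derivation.coeFnAddMonoidHom_apply, map_sum, Finset.sum_apply]
  rfl

/-- one term of `lvD` -/
private noncomputable def c6_F (k : Fin d) (f : Sym d) : Sym d :=
  vt * pderiv ℂ (some (Var.x k)) f + vy k * c6_E f

private lemma c6_lv (b : Fin d → ℂ) (f : Sym d) : lvN b f = ∑ k, b k • c6_F k f := by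
  have h : lvN b f = lvD b f := rfl
  rw [h, lvD, ← Derivation.coeFnAddMonoidHom_apply, map_sum, Finset.sum_apply]
  refine Finset.sum_congr rfl fun k _ => ?_
  rw [Derivation.coeFnAddMonoidHom_apply, Derivation.smul_apply, Derivation.add_apply,
    Derivation.smul_apply, Derivation.smul_apply, Derivation.add_apply, Derivation.smul_apply,
    c6_F, c6_E]
  simp only [smul_eq_mul]
  congr 4
  rw [← Derivation.coeFnAddMonoidHom_apply, map_sum, Finset.sum_apply]
  rfl

private lemma c6_lvD (b : Fin d → ℂ) (f : Sym d) : lvD b f = ∑ k, b k • c6_F k f := c6_lv b f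

private lemma c6_E_mul (f g : Sym d) : c6_E (f * g) = c6_E f * g + f * c6_E g := by
  simp only [c6_E, Derivation.leibniz, smul_eq_mul, mul_add, add_mul, Finset.sum_add_distrib,
    Finset.sum_mul, Finset.mul_sum]
  have e1 : ∀ j : Fin d, vy j * (f * pderiv ℂ (some (Var.y j)) g)
      = f * (vy j * pderiv ℂ (some (Var.y j)) g) := fun j => by ring
  have e2 : ∀ j : Fin d, vy j * (g * pderiv ℂ (some (Var.y j)) f)
      = vy j * pderiv ℂ (some (Var.y j)) f * g := fun j => by ring
  simp only [e1, e2]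
  ring

private lemma c6_E_add (f g : Sym d) : c6_E (f + g) = c6_E f + c6_E g := by
  simp only [c6_E, map_add, mul_add, Finset.sum_add_distrib]
  ring

private lemma c6_E_X (v : Option (Var d)) : c6_E (X v : Sym d)
    = match v with
      | none => X v
      | some (Var.y _) => X v
      | _ => 0 := by
  classical
  have hne : ∀ u : Option (Var d), u ≠ v → pderiv ℂ u (X v : Sym d) = 0 :=
    fun u h => pderiv_X_of_ne (Ne.symm h)
  have hself : pderiv ℂ v (X v : Sym d) = 1 := pderiv_X_self
  rw [c6_E]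
  match v, hne, hself with
  | none, hne, hself =>
    rw [hself, Finset.sum_eq_zero fun j _ => by rw [hne _ (by simp), mul_zero]]
    simp [vs]
  | some (Var.y i), hne, hself =>
    rw [hne none (by simp), mul_zero, zero_add, Finset.sum_eq_single i]
    · rw [hself, mul_one]; rfl
    · intro j _ hj
      rw [hne _ (by simpa using hj), mul_zero]
    · simp
  | some (Var.x i), hne, hself =>
    rw [hne none (by simp), Finset.sum_eq_zero fun j _ => by rw [hne _ (by simp), mul_zero]]
    simp
  | some Var.t, hne, hself =>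
    rw [hne none (by simp), Finset.sum_eq_zero fun j _ => by rw [hne _ (by simp), mul_zero]]
    simp

private lemma c6_E_s : c6_E (vs : Sym d) = vs := c6_E_X none
private lemma c6_E_t : c6_E (vt : Sym d) = 0 := c6_E_X (some Var.t)
private lemma c6_E_x (i : Fin d) : c6_E (vx i : Sym d) = 0 := c6_E_X (some (Var.x i))
private lemma c6_E_y (i : Fin d) : c6_E (vy i : Sym d) = vy i := c6_E_X (some (Var.y i))

private lemma c6_p (u v : Option (Var d)) (h : u ≠ v) : pderiv ℂ u (X v : Sym d) = 0 :=
  pderiv_X_of_ne (Ne.symm h)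

private lemma c6_pE_x (i : Fin d) (f : Sym d) :
    pderiv ℂ (some (Var.x i)) (c6_E f) = c6_E (pderiv ℂ (some (Var.x i)) f) := by
  have h1 : pderiv ℂ (some (Var.x i)) (vs : Sym d) = 0 := c6_p _ _ (by simp)
  have h2 : ∀ j, pderiv ℂ (some (Var.x i)) (vy j : Sym d) = 0 := fun j => c6_p _ _ (by simp)
  simp only [c6_E, map_add, map_sum, Derivation.leibniz, smul_eq_mul, h1, h2, mul_zero, add_zero,
    c6_comm (some (Var.x i))]

private lemma c6_pE_t (f : Sym d) :
    pderiv ℂ (some Var.t) (c6_E f) = c6_E (pderiv ℂ (some Var.t) f) := by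
  have h1 : pderiv ℂ (some Var.t) (vs : Sym d) = 0 := c6_p _ _ (by simp)
  have h2 : ∀ j, pderiv ℂ (some Var.t) (vy j : Sym d) = 0 := fun j => c6_p _ _ (by simp)
  simp only [c6_E, map_add, map_sum, Derivation.leibniz, smul_eq_mul, h1, h2, mul_zero, add_zero,
    c6_comm (some Var.t)]

private lemma c6_pE_y (i : Fin d) (f : Sym d) :
    pderiv ℂ (some (Var.y i)) (c6_E f)
      = c6_E (pderiv ℂ (some (Var.y i)) f) + pderiv ℂ (some (Var.y i)) f := by
  classical
  have h1 : pderiv ℂ (some (Var.y i)) (vs : Sym d) = 0 := c6_p _ _ (by simp)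
  have h2 : ∀ j, pderiv ℂ (some (Var.y i)) (vy j : Sym d) = if j = i then 1 else 0 := by
    intro j
    split_ifs with h
    · subst h; exact pderiv_X_self
    · exact c6_p _ _ (by simpa using Ne.symm h)
  simp only [c6_E, map_add, map_sum, Derivation.leibniz, smul_eq_mul, h1, h2, mul_zero, add_zero,
    c6_comm (some (Var.y i)), Finset.sum_add_distrib, mul_ite, mul_one, Finset.sum_ite_eq',
    Finset.mem_univ, if_true]
  ring

private lemma c6_F_Dsome (k i : Fin d) (f : Sym d) : c6_F k (D (some i) f)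
    = D (some i) (c6_F k f) + if i = k then D none f else 0 := by
  classical
  have h1 : pderiv ℂ (some (Var.y i)) (vt : Sym d) = 0 := c6_p _ _ (by simp)
  have h2 : pderiv ℂ (some (Var.y i)) (vy k : Sym d) = if i = k then 1 else 0 := by
    split_ifs with h
    · subst h; exact pderiv_X_self
    · exact c6_p _ _ (by simpa using h)
  have h3 : pderiv ℂ (some (Var.x k)) (vs : Sym d) = 0 := c6_p _ _ (by simp)
  rw [c6_Dsome, c6_Dsome, c6_Dnone]
  simp only [c6_F, c6_E_mul, c6_E_s, map_add, Derivation.leibniz, smul_eq_mul, h1, h2, h3,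
    c6_pE_y, c6_comm (some (Var.y i)) (some (Var.x k))]
  split_ifs with h
  · ring
  · ring

private lemma c6_F_Dnone (k : Fin d) (f : Sym d) : c6_F k (D none f) = D none (c6_F k f) := by
  have h3 : pderiv ℂ (some (Var.x k)) (vs : Sym d) = 0 := c6_p _ _ (by simp)
  have hn : ∀ g : Sym d, c6_E (-g) = -c6_E g := by
    intro g
    simp only [c6_E, map_neg, mul_neg, Finset.sum_neg_distrib]
    ring
  rw [c6_Dnone, c6_Dnone]
  simp only [c6_F, hn, map_neg, c6_E_mul, c6_E_add, c6_E_s, c6_E_t, c6_E_y, Derivation.leibniz,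
    smul_eq_mul, h3, c6_pE_x]
  ring

private lemma c6_F_Bsome (k i : Fin d) (f : Sym d) :
    c6_F k (B (some i) f) = B (some i) (c6_F k f) := by
  have h1 : pderiv ℂ (some (Var.x i)) (vt : Sym d) = 0 := c6_p _ _ (by simp)
  have h2 : pderiv ℂ (some (Var.x i)) (vy k : Sym d) = 0 := c6_p _ _ (by simp)
  simp only [B, c6_F, map_add, Derivation.leibniz, smul_eq_mul, h1, h2, c6_pE_x,
    c6_comm (some (Var.x i)) (some (Var.x k)), mul_zero, add_zero]

private lemma c6_F_Bnone (k : Fin d) (f : Sym d) :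
    c6_F k (B none f) = B none (c6_F k f) - B (some k) f := by
  have h1 : pderiv ℂ (some Var.t) (vt : Sym d) = 1 := pderiv_X_self
  have h2 : pderiv ℂ (some Var.t) (vy k : Sym d) = 0 := c6_p _ _ (by simp)
  simp only [B, c6_F, map_add, Derivation.leibniz, smul_eq_mul, h1, h2, c6_pE_t,
    c6_comm (some Var.t) (some (Var.x k)), mul_zero, add_zero, mul_one]
  ring

private def c6_κ (b : Fin d → ℂ) : Option (Fin d) → Option (Fin d) → ℂ
  | some i, none => b i
  | _, _ => 0

private lemma c6_leib (b : Fin d → ℂ) (n : ℕ) (f g : Sym d) :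
    lvN b (lb n f g) = lb n (lvN b f) g + lb n f (lvN b g) := by
  classical
  refine der_leib_lin D B (lvD b) (c6_κ b) ?_ ?_ n f g
  · intro i f
    rw [c6_lvD, c6_lvD, map_sum, Fintype.sum_option]
    cases i with
    | none =>
      simp only [c6_κ, zero_smul, Finset.sum_const_zero, add_zero, c6_F_Dnone, Derivation.map_smul]
    | some i =>
      simp only [c6_κ, zero_smul, Finset.sum_const_zero, add_zero, c6_F_Dsome, Derivation.map_smul,
        smul_add, Finset.sum_add_distrib]
      congr 1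
      rw [Finset.sum_eq_single i]
      · rw [if_pos rfl]
      · intro j _ hj
        rw [if_neg (Ne.symm hj), smul_zero]
      · simp
  · intro i f
    rw [c6_lvD, c6_lvD, map_sum, Fintype.sum_option]
    cases i with
    | none =>
      simp only [c6_κ, zero_smul, zero_add, c6_F_Bnone, Derivation.map_smul, smul_sub,
        Finset.sum_sub_distrib]
    | some i =>
      simp only [c6_κ, zero_smul, Finset.sum_const_zero, add_zero, c6_F_Bsome, Derivation.map_smul, sub_zero]

private lemma c6_coeff (v : Option (Var d)) (f : Sym d) (m : Option (Var d) →₀ ℕ) :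
    coeff m (X v * pderiv ℂ v f) = (m v : ℂ) * coeff m f := by
  classical
  rw [X_def, coeff_monomial_mul]
  split_ifs with h
  · rw [coeff_pderiv, one_mul, tsub_add_cancel_of_le h]
    have h1 : 1 ≤ m v := by simpa using h v
    have h2 : ((m - Finsupp.single v 1 : Option (Var d) →₀ ℕ) v : ℂ) + 1 = m v := by
      rw [Finsupp.tsub_apply, Finsupp.single_eq_same, Nat.cast_sub h1]
      push_cast
      ring
    rw [h2, mul_comm]
  · have h0 : m v = 0 := by
      by_contra h0
      exact h (Finsupp.single_le_iff.2 (Nat.one_le_iff_ne_zero.2 h0))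
    rw [h0, Nat.cast_zero, zero_mul]

private lemma c6_coeff_E (f : Sym d) (m : Option (Var d) →₀ ℕ) :
    coeff m (c6_E f) = ((m none : ℂ) + ∑ j, (m (some (Var.y j)) : ℂ)) * coeff m f := by
  rw [c6_E, map_add, map_sum, add_mul, Finset.sum_mul]
  congr 1
  · exact c6_coeff _ _ _
  · exact Finset.sum_congr rfl fun j _ => c6_coeff _ _ _

private lemma c6_fil (b : Fin d → ℂ) {N : ℕ} {f : Sym d} (hf : Fil N f) : Fil N (lvN b f) := by
  rw [c6_lv]
  refine Fil.sum _ fun k _ => Fil.smul ?_ _
  have hE : Fil N (c6_E f) := by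
    intro m hm
    rw [c6_coeff_E, hf m hm, mul_zero]
  refine Fil.add ?_ ?_
  · have := (fil_zero (vt : Sym d)).mul (Fil.B hf (some k))
    rwa [zero_add] at this
  · have := (fil_zero (vy k : Sym d)).mul hE
    rwa [zero_add] at this

private lemma c6_wf (b : Fin d → ℂ) {K : ℕ} {f : Sym d} (hf : Wf K f) : Wf (K + 1) (lvN b f) := by
  classical
  rw [c6_lv]
  refine Wf.sum _ fun k _ => Wf.smul ?_ _
  have hE : Wf K (c6_E f) := by
    intro m hm
    rw [c6_coeff_E, hf m hm, mul_zero]
  have ht : Wf 2 (vt : Sym d) := by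
    intro m hm
    rw [vt, coeff_X, if_neg]
    rintro rfl
    simp [wgt] at hm
  have hy : Wf 1 (vy k : Sym d) := by
    intro m hm
    rw [vy, coeff_X, if_neg]
    rintro rfl
    simp [wgt, Finsupp.single_apply] at hm
  refine Wf.add ?_ ?_
  · cases K with
    | zero =>
      exact Wf.mono (by omega) (ht.mul (wf_zero (pderiv ℂ (some (Var.x k)) f)))
    | succ K =>
      have h1 : Wf K (pderiv ℂ (some (Var.x k)) f) := Wf.B_some hf k
      exact Wf.mono (by omega) (ht.mul h1)
  · exact Wf.mono (by omega) (hy.mul hE)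

/-- row c6: `leib` from `der_leib_lin` with `κ (some i) none = b i`, all other `κ = 0`:
`[E, D (some i)] = b_i D none`, `[E, B none] = - ∑ b_i B (some i)`; `lvN b` raises the weight, so
`nil` holds with `k = K`. -/
theorem wd_lvN (b : Fin d → ℂ) : WD (lvN b) := by
  refine ⟨fun f g => ?_, fun K f hf => Wf.mono (by omega) (c6_wf b hf), fun K => ⟨K, fun f => ?_⟩⟩
  · refine eq_of_fil fun K => ?_
    have h1 := c6_fil b (comp_fil f g K)
    have h2 := comp_fil (lvN b f) g K
    have h3 := comp_fil f (lvN b g) K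
    rw [map_sub, map_sum] at h1
    have h4 := (h1.add h2.neg).add h3.neg
    have e : lvN b (comp f g) - (comp (lvN b f) g + comp f (lvN b g))
        = lvN b (comp f g) - ∑ n ∈ Finset.range K, lvN b (lb n f g)
          + -(comp (lvN b f) g - ∑ n ∈ Finset.range K, lb n (lvN b f) g)
          + -(comp f (lvN b g) - ∑ n ∈ Finset.range K, lb n f (lvN b g)) := by
      simp only [c6_leib, Finset.sum_add_distrib]
      ring
    rw [e]
    exact h4
  · induction K generalizing f with
    | zero => exact wf_zero _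
    | succ K ih =>
      rw [pow_succ', Module.End.mul_apply]
      exact c6_wf b (ih f)

private lemma c6_px (i k : Fin d) :
    pderiv ℂ (some (Var.x k)) (vx i : Sym d) = if k = i then 1 else 0 := by
  classical
  split_ifs with h
  · subst h; exact pderiv_X_self
  · exact c6_p _ _ (by simpa using h)

lemma lvN_vx (b : Fin d → ℂ) (i : Fin d) : lvN b (vx i) = b i • vt := by
  classical
  rw [c6_lv, Finset.sum_eq_single i]
  · rw [c6_F, c6_px, if_pos rfl, c6_E_x, mul_one, mul_zero, add_zero]
  · intro k _ hk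
    rw [c6_F, c6_px, if_neg hk, c6_E_x, mul_zero, mul_zero, add_zero, smul_zero]
  · simp
lemma lvN_vt (b : Fin d → ℂ) : lvN b (vt : Sym d) = 0 := by
  have h : ∀ k : Fin d, pderiv ℂ (some (Var.x k)) (vt : Sym d) = 0 := fun k => c6_p _ _ (by simp)
  simp only [c6_lv, c6_F, c6_E_t, h, mul_zero, add_zero, smul_zero, Finset.sum_const_zero]
lemma lvN_vy (b : Fin d → ℂ) (i : Fin d) : lvN b (vy i) = (∑ j, b j • vy j) * vy i := by
  have h : ∀ k : Fin d, pderiv ℂ (some (Var.x k)) (vy i : Sym d) = 0 := fun k => c6_p _ _ (by simp)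
  simp only [c6_lv, c6_F, c6_E_y, h, mul_zero, zero_add, Finset.sum_mul, smul_mul_assoc]
lemma lvN_vs (b : Fin d → ℂ) : lvN b (vs : Sym d) = (∑ j, b j • vy j) * vs := by
  have h : ∀ k : Fin d, pderiv ℂ (some (Var.x k)) (vs : Sym d) = 0 := fun k => c6_p _ _ (by simp)
  simp only [c6_lv, c6_F, c6_E_s, h, mul_zero, zero_add, Finset.sum_mul, smul_mul_assoc]
lemma lvN_neg (b : Fin d → ℂ) : lvN (-b) = -lvN (d := d) b := by
  refine LinearMap.ext fun f => ?_
  rw [LinearMap.neg_apply, c6_lv, c6_lv, ← Finset.sum_neg_distrib]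
  exact Finset.sum_congr rfl fun k _ => by rw [Pi.neg_apply, neg_smul]

/-! ## row c7: values of the automorphisms -/

/-- the automorphism `x_i ↦ x_i + ∑ a_ij y_j`, `t ↦ t - (1/2) ∑ a_ij y_i y_j`, `y ↦ y`, `s ↦ s` -/
noncomputable def shA {a : Matrix (Fin d) (Fin d) ℂ} (ha : ∀ i j, a i j = a j i) : Op d ≃+* Op d :=
  autW (wd_shN ha)

/-- the automorphism `x_i ↦ x_i + b_i t`, `t ↦ t`, `y ↦ y / (1 - ∑ b_j y_j)`,
`s ↦ s / (1 - ∑ b_j y_j)` -/
noncomputable def lvA (b : Fin d → ℂ) : Op d ≃+* Op d := autW (wd_lvN b)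

-- BEGIN c7 (helper42)
private lemma c7_B_sum (a : Matrix (Fin d) (Fin d) ℂ) (i : Fin d) (l : Option (Fin d)) :
    B l (∑ j, a i j • (vy j : Sym d)) = 0 := by
  rw [map_sum]
  exact Finset.sum_eq_zero fun j _ => by rw [Derivation.map_smul, B_vy, smul_zero]

lemma expo_sh_vx (a : Matrix (Fin d) (Fin d) ℂ) (i : Fin d) :
    expo (shN a) (vx i) = vx i + ∑ j, a i j • vy j := by
  have h : shN a (shN a (vx i)) = 0 := by
    rw [shN_vx]
    exact shN_of_B a (c7_B_sum a i)
  rw [expo_of_two h, shN_vx]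

lemma expo_sh_vt (a : Matrix (Fin d) (Fin d) ℂ) :
    expo (shN a) vt = vt - (1 / 2 : ℂ) • ∑ i, ∑ j, a i j • (vy i * vy j) := by
  have h : shN a (shN a vt) = 0 := by
    rw [shN_vt]
    refine shN_of_B a fun l => ?_
    rw [map_neg, Derivation.map_smul, map_sum, Finset.sum_eq_zero, smul_zero, neg_zero]
    intro i _
    rw [map_sum]
    refine Finset.sum_eq_zero fun j _ => ?_
    rw [Derivation.map_smul, Derivation.leibniz, B_vy, B_vy, smul_zero, smul_zero, add_zero,
      smul_zero]
  rw [expo_of_two h, shN_vt, sub_eq_add_neg]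

lemma expo_sh_of_B (a : Matrix (Fin d) (Fin d) ℂ) {f : Sym d} (hf : ∀ i, B i f = 0) :
    expo (shN a) f = f := expo_of_zero (shN_of_B a hf)

lemma expo_lv_vx (b : Fin d → ℂ) (i : Fin d) : expo (lvN b) (vx i) = vx i + b i • vt := by
  have h : lvN b (lvN b (vx i)) = 0 := by
    rw [lvN_vx, map_smul, lvN_vt, smul_zero]
  rw [expo_of_two h, lvN_vx]

lemma expo_lv_vt (b : Fin d → ℂ) : expo (lvN b) (vt : Sym d) = vt := expo_of_zero (lvN_vt b)

/-- `N β = β²` -/
private lemma c7_beta (b : Fin d → ℂ) :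
    lvN b (∑ j, b j • (vy j : Sym d)) = (∑ j, b j • vy j) * ∑ j, b j • (vy j : Sym d) := by
  rw [map_sum, Finset.mul_sum]
  exact Finset.sum_congr rfl fun j _ => by rw [map_smul, lvN_vy, mul_smul_comm]

private lemma c7_mul (b : Fin d → ℂ) (f g : Sym d) :
    lvN b (f * g) = lvN b f * g + f * lvN b g := by
  have h := Derivation.leibniz (lvD b) f g
  rw [smul_eq_mul, smul_eq_mul] at h
  change lvD b (f * g) = lvD b f * g + f * lvD b g
  rw [h]
  ring

/-- if `N f = β f` then `N^k f = k! β^k f` -/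
private lemma c7_iter (b : Fin d → ℂ) {f : Sym d} (hf : lvN b f = (∑ j, b j • vy j) * f)
    (k : ℕ) : (lvN b ^ k) f = (k.factorial : ℂ) • ((∑ j, b j • (vy j : Sym d)) ^ k * f) := by
  have hb : ∀ k : ℕ, lvN b ((∑ j, b j • (vy j : Sym d)) ^ k) =
      (k : ℂ) • (∑ j, b j • (vy j : Sym d)) ^ (k + 1) := by
    intro k
    induction k with
    | zero =>
      rw [pow_zero, Nat.cast_zero, zero_smul]
      exact Derivation.map_one_eq_zero (lvD b)
    | succ k ih =>
      rw [pow_succ, c7_mul, ih, c7_beta, Nat.cast_succ, add_smul, one_smul]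
      simp only [Algebra.smul_def]
      ring
  induction k with
  | zero => rw [pow_zero, pow_zero, one_mul, Nat.factorial_zero, Nat.cast_one, one_smul]; rfl
  | succ k ih =>
    rw [pow_succ', Module.End.mul_apply, ih, map_smul, c7_mul, hb, hf, Nat.factorial_succ,
      Nat.cast_mul, Nat.cast_succ]
    simp only [Algebra.smul_def, map_mul, map_add, map_one]
    ring

private lemma c7_wf_beta (b : Fin d → ℂ) : Wf 1 (∑ j, b j • (vy j : Sym d)) := by
  classical
  refine Wf.sum _ fun j _ => Wf.smul (fun m hm => ?_) _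
  unfold vy
  rw [coeff_X, if_neg]
  rintro rfl
  have h1 : wgt (Finsupp.single (some (.y j)) 1 : Option (Var d) →₀ ℕ) = 1 := by
    simp [wgt, Finsupp.single_apply]
  omega

private lemma c7_wf_pow {f : Sym d} (hf : Wf 1 f) (k : ℕ) : Wf k (f ^ k) := by
  induction k with
  | zero => exact wf_zero _
  | succ k ih =>
    rw [pow_succ]
    exact ih.mul hf

private lemma c7_nil {N : Sym d →ₗ[ℂ] Sym d} (h : WD N) (K : ℕ) :
    ∃ k0, K ≤ k0 ∧ ∀ k, k0 ≤ k → ∀ f, Wf K ((N ^ k) f) := by
  obtain ⟨k1, hk1⟩ := h.nil K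
  refine ⟨k1 + K, by omega, fun k hk f => ?_⟩
  have h1 : k = k1 + (k - k1) := by omega
  rw [h1, pow_add, Module.End.mul_apply]
  exact hk1 _

/-- if `N f = β f` then `(1 - β) exp N f = f` -/
private lemma c7_geom (b : Fin d → ℂ) {f : Sym d} (hf : lvN b f = (∑ j, b j • vy j) * f) :
    (1 - ∑ j, b j • vy j) * expo (lvN b) f = f := by
  set β : Sym d := ∑ j, b j • vy j with hβ
  refine eq_of_wf fun K => ?_
  obtain ⟨k0, hK, hk⟩ := c7_nil (wd_lvN b) K
  have h1 := expo_fin (wd_lvN b) K k0 (hk k0 le_rfl) f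
  have h2 : ∑ k ∈ Finset.range k0, ((k.factorial : ℂ)⁻¹) • (lvN b ^ k) f =
      (∑ k ∈ Finset.range k0, β ^ k) * f := by
    rw [Finset.sum_mul]
    refine Finset.sum_congr rfl fun k _ => ?_
    rw [c7_iter b hf, smul_smul, inv_mul_cancel₀ (by exact_mod_cast Nat.factorial_ne_zero k),
      one_smul]
  rw [h2] at h1
  have h3 : Wf K ((1 - β) * (expo (lvN b) f - (∑ k ∈ Finset.range k0, β ^ k) * f)) := by
    have := (wf_zero (1 - β)).mul h1
    rwa [zero_add] at this
  have h4 : Wf K (β ^ k0 * f) := by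
    have := (c7_wf_pow (c7_wf_beta b) k0).mul (wf_zero f)
    exact this.mono (by omega)
  have h5 : (1 - β) * expo (lvN b) f - f =
      (1 - β) * (expo (lvN b) f - (∑ k ∈ Finset.range k0, β ^ k) * f) - β ^ k0 * f := by
    have h6 : (1 - β) * ∑ k ∈ Finset.range k0, β ^ k = 1 - β ^ k0 := mul_neg_geom_sum β k0
    calc (1 - β) * expo (lvN b) f - f
        = (1 - β) * (expo (lvN b) f - (∑ k ∈ Finset.range k0, β ^ k) * f)
          + ((1 - β) * ∑ k ∈ Finset.range k0, β ^ k) * f - f := by ring
      _ = _ := by rw [h6]; ring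
  rw [h5]
  exact h3.sub h4

/-- `∑ β^k y_i`, `β = ∑ b_j y_j` -/
lemma expo_lv_vy (b : Fin d → ℂ) (i : Fin d) :
    (1 - ∑ j, b j • vy j) * expo (lvN b) (vy i) = vy i := c7_geom b (lvN_vy b i)

lemma expo_lv_vs (b : Fin d → ℂ) :
    (1 - ∑ j, b j • vy j) * expo (lvN b) vs = (vs : Sym d) := c7_geom b (lvN_vs b)

/-- Leibniz formula -/
private lemma c7_leib (b : Fin d → ℂ) (f g : Sym d) (n : ℕ) :
    (lvN b ^ n) (f * g) = ∑ p ∈ Finset.HasAntidiagonal.antidiagonal n,
      n.choose p.1 • ((lvN b ^ p.1) f * (lvN b ^ p.2) g) := by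
  induction n with
  | zero => simp
  | succ n ih =>
    rw [Finset.sum_antidiagonal_choose_succ_nsmul
      (M := Sym d) (fun i j => (lvN b ^ i) f * (lvN b ^ j) g) n]
    simp only [pow_succ', Module.End.mul_apply, ih, map_sum, map_nsmul, c7_mul, smul_add,
      Finset.sum_add_distrib]
    rw [add_comm]
    congr 1
    refine Finset.sum_congr rfl fun p hp => ?_
    rw [n.choose_symm_of_eq_add (Finset.HasAntidiagonal.mem_antidiagonal.1 hp).symm]

private lemma c7_u (b : Fin d → ℂ) (f g : Sym d) (n : ℕ) :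
    ((n.factorial : ℂ)⁻¹) • (lvN b ^ n) (f * g) = ∑ p ∈ Finset.HasAntidiagonal.antidiagonal n,
      (((p.1.factorial : ℂ)⁻¹) • (lvN b ^ p.1) f) * (((p.2.factorial : ℂ)⁻¹) • (lvN b ^ p.2) g) := by
  rw [c7_leib, Finset.smul_sum]
  refine Finset.sum_congr rfl fun p hp => ?_
  have h1 : p.1 + p.2 = n := Finset.HasAntidiagonal.mem_antidiagonal.1 hp
  have h2 := Nat.add_choose_mul_factorial_mul_factorial p.1 p.2
  rw [h1, ← Nat.choose_symm_of_eq_add h1.symm] at h2
  have h3 : ((n.choose p.1 : ℕ) : ℂ) * (p.1.factorial : ℂ) * (p.2.factorial : ℂ) =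
      (n.factorial : ℂ) := by exact_mod_cast h2
  have h4 : (p.1.factorial : ℂ) ≠ 0 := by exact_mod_cast Nat.factorial_ne_zero p.1
  have h5 : (p.2.factorial : ℂ) ≠ 0 := by exact_mod_cast Nat.factorial_ne_zero p.2
  have h6 : (n.factorial : ℂ) ≠ 0 := by exact_mod_cast Nat.factorial_ne_zero n
  rw [smul_mul_smul_comm, ← Nat.cast_smul_eq_nsmul ℂ, smul_smul]
  congr 1
  field_simp
  rw [← h3]

private lemma c7_double (K T : ℕ) (F : ℕ → ℕ → Sym d)
    (hF : ∀ m n, T ≤ m ∨ T ≤ n → Wf K (F m n)) :
    Wf K (∑ k ∈ Finset.range (T + T), ∑ p ∈ Finset.HasAntidiagonal.antidiagonal k, F p.1 p.2 -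
      ∑ m ∈ Finset.range T, ∑ n ∈ Finset.range T, F m n) := by
  have h1 : ∑ k ∈ Finset.range (T + T), ∑ p ∈ Finset.HasAntidiagonal.antidiagonal k, F p.1 p.2 =
      ∑ m ∈ Finset.range (T + T), ∑ n ∈ Finset.range (T + T - m), F m n := by
    rw [← Finset.sum_range_diag_flip]
    exact Finset.sum_congr rfl fun K _ => Finset.Nat.sum_antidiagonal_eq_sum_range_succ F K
  have h2 : ∑ m ∈ Finset.range T, ∑ n ∈ Finset.range (T + T - m), F m n =
      ∑ m ∈ Finset.range T, ∑ n ∈ Finset.range T, F m n +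
      ∑ m ∈ Finset.range T, ∑ n ∈ Finset.range (T - m), F m (T + n) := by
    rw [← Finset.sum_add_distrib]
    refine Finset.sum_congr rfl fun m hm => ?_
    have h3 : T + T - m = T + (T - m) := by
      have := Finset.mem_range.1 hm
      omega
    rw [h3, Finset.sum_range_add]
  rw [h1, Finset.sum_range_add, h2, add_assoc, add_sub_cancel_left]
  refine Wf.add (Wf.sum _ fun m _ => Wf.sum _ fun n _ => hF _ _ (Or.inr (by omega)))
    (Wf.sum _ fun m _ => Wf.sum _ fun n _ => hF _ _ (Or.inl (by omega)))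

/-- `lvD b` is also a derivation of the commutative ring `Sym d`, so `exp` is multiplicative for the
product of symbols as well (same proof as `expo_comp`) -/
lemma expo_lv_mul (b : Fin d → ℂ) (f g : Sym d) :
    expo (lvN b) (f * g) = expo (lvN b) f * expo (lvN b) g := by
  refine eq_of_wf fun K => ?_
  obtain ⟨T, -, hk⟩ := c7_nil (wd_lvN b) K
  have h1 := expo_fin (wd_lvN b) K (T + T) (hk _ (by omega)) (f * g)
  have h2 := expo_fin (wd_lvN b) K T (hk T le_rfl) f
  have h3 := expo_fin (wd_lvN b) K T (hk T le_rfl) g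
  set Ef := ∑ k ∈ Finset.range T, ((k.factorial : ℂ)⁻¹) • (lvN b ^ k) f with hEf
  set Eg := ∑ k ∈ Finset.range T, ((k.factorial : ℂ)⁻¹) • (lvN b ^ k) g with hEg
  have h4 := c7_double K T (fun m n => (((m.factorial : ℂ)⁻¹) • (lvN b ^ m) f) *
    (((n.factorial : ℂ)⁻¹) • (lvN b ^ n) g)) (fun m n h => by
      rcases h with h | h
      · have := ((hk m h f).smul ((m.factorial : ℂ)⁻¹)).mul
          (wf_zero (((n.factorial : ℂ)⁻¹) • (lvN b ^ n) g))
        rwa [add_zero] at this
      · have := (wf_zero (((m.factorial : ℂ)⁻¹) • (lvN b ^ m) f)).mul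
          ((hk n h g).smul ((n.factorial : ℂ)⁻¹))
        rwa [zero_add] at this)
  rw [← Finset.sum_mul_sum, ← hEf, ← hEg] at h4
  simp_rw [← c7_u] at h4
  have h5 : Wf K ((expo (lvN b) f - Ef) * expo (lvN b) g) := by
    have := h2.mul (wf_zero (expo (lvN b) g))
    rwa [add_zero] at this
  have h6 : Wf K (Ef * (expo (lvN b) g - Eg)) := by
    have := (wf_zero Ef).mul h3
    rwa [zero_add] at this
  have h7 := ((h1.add h4).sub h5).sub h6
  refine (congrArg (Wf K) ?_).mp h7
  ring
-- END c7

end Pool.Agent.Ep
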