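import Pool.Agent.Ep.Gec

/-!
# Generic position: growth (P11, block E, helper50)
-/

set_option autoImplicit false

namespace Pool.Agent.Ep

open MvPowerSeries
open scoped ENNReal NNReal

variable {d : ℕ}

/-! ## row g1: the base change -/

/-! ### row g1: private helpers -/

/-- products with different weights -/
private lemma g1_mul_le {σ : Type} {w u v : (σ →₀ ℕ) → ℝ≥0∞}
    (hw : ∀ m m', w (m + m') ≤ u m * v m') (f g : MvPowerSeries σ ℂ) :
    nrm w (f * g) ≤ nrm u f * nrm v g := by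
  classical
  have h1 : ∀ m, (‖coeff m (f * g)‖₊ : ℝ≥0∞) * w m ≤
      ∑' p : Finset.HasAntidiagonal.antidiagonal m,
        ((‖coeff p.1.1 f‖₊ : ℝ≥0∞) * u p.1.1) * ((‖coeff p.1.2 g‖₊ : ℝ≥0∞) * v p.1.2) := by
    intro m
    rw [tsum_fintype, Finset.sum_coe_sort (Finset.HasAntidiagonal.antidiagonal m)
      (fun p => ((‖coeff p.1 f‖₊ : ℝ≥0∞) * u p.1) * ((‖coeff p.2 g‖₊ : ℝ≥0∞) * v p.2)), coeff_mul]
    have h2 : (‖∑ p ∈ Finset.HasAntidiagonal.antidiagonal m, coeff p.1 f * coeff p.2 g‖₊ : ℝ≥0∞) ≤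
        ∑ p ∈ Finset.HasAntidiagonal.antidiagonal m,
          (‖coeff p.1 f‖₊ : ℝ≥0∞) * (‖coeff p.2 g‖₊ : ℝ≥0∞) := by
      have h3 := nnnorm_sum_le (Finset.HasAntidiagonal.antidiagonal m)
        (fun p => coeff p.1 f * coeff p.2 g)
      simp only [nnnorm_mul] at h3
      exact_mod_cast h3
    refine (mul_le_mul_left h2 _).trans ?_
    rw [Finset.sum_mul]
    refine Finset.sum_le_sum fun p hp => ?_
    rw [Finset.HasAntidiagonal.mem_antidiagonal] at hp
    have h4 := hw p.1 p.2
    rw [hp] at h4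
    calc (‖coeff p.1 f‖₊ : ℝ≥0∞) * (‖coeff p.2 g‖₊ : ℝ≥0∞) * w m
        ≤ (‖coeff p.1 f‖₊ : ℝ≥0∞) * (‖coeff p.2 g‖₊ : ℝ≥0∞) * (u p.1 * v p.2) :=
          mul_le_mul_right h4 _
      _ = _ := by ring
  calc nrm w (f * g) ≤ ∑' m, ∑' p : Finset.HasAntidiagonal.antidiagonal m,
        ((‖coeff p.1.1 f‖₊ : ℝ≥0∞) * u p.1.1) * ((‖coeff p.1.2 g‖₊ : ℝ≥0∞) * v p.1.2) :=
        ENNReal.tsum_le_tsum h1
    _ = ∑' x : Σ m : σ →₀ ℕ, Finset.HasAntidiagonal.antidiagonal m,
        ((‖coeff x.2.1.1 f‖₊ : ℝ≥0∞) * u x.2.1.1) * ((‖coeff x.2.1.2 g‖₊ : ℝ≥0∞) * v x.2.1.2) :=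
        (ENNReal.tsum_sigma' (fun x : Σ m : σ →₀ ℕ, Finset.HasAntidiagonal.antidiagonal m =>
          ((‖coeff x.2.1.1 f‖₊ : ℝ≥0∞) * u x.2.1.1) *
            ((‖coeff x.2.1.2 g‖₊ : ℝ≥0∞) * v x.2.1.2))).symm
    _ = ∑' x : (σ →₀ ℕ) × (σ →₀ ℕ),
        ((‖coeff x.1 f‖₊ : ℝ≥0∞) * u x.1) * ((‖coeff x.2 g‖₊ : ℝ≥0∞) * v x.2) :=
        (Finset.HasAntidiagonal.sigmaAntidiagonalEquivProd (A := σ →₀ ℕ)).tsum_eq
          (fun x : (σ →₀ ℕ) × (σ →₀ ℕ) =>
            ((‖coeff x.1 f‖₊ : ℝ≥0∞) * u x.1) * ((‖coeff x.2 g‖₊ : ℝ≥0∞) * v x.2))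
    _ = ∑' m, ∑' m', ((‖coeff m f‖₊ : ℝ≥0∞) * u m) * ((‖coeff m' g‖₊ : ℝ≥0∞) * v m') :=
        ENNReal.tsum_prod'
    _ = nrm u f * nrm v g := by
        rw [nrm, nrm, ← ENNReal.tsum_mul_right]
        exact tsum_congr fun m => ENNReal.tsum_mul_left

/-- the weight for series without `s` -/
private noncomputable def g1_w (ρ : ℝ) (m : Option (Var d) →₀ ℕ) : ℝ≥0∞ :=
  if m none = 0 then ENNReal.ofReal (ρ ^ m.degree) else ∞

private lemma g1_w_add {ρ : ℝ} (hρ : 0 < ρ) (m m' : Option (Var d) →₀ ℕ) :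
    g1_w ρ (m + m') ≤ g1_w ρ m * g1_w ρ m' := by
  unfold g1_w
  have h0 : ∀ n : ℕ, ENNReal.ofReal (ρ ^ n) ≠ 0 := fun n => by
    rw [Ne, ENNReal.ofReal_eq_zero, not_le]
    positivity
  rw [Finsupp.add_apply]
  by_cases h1 : m none = 0
  · by_cases h2 : m' none = 0
    · rw [if_pos (by omega), if_pos h1, if_pos h2, ← ENNReal.ofReal_mul (by positivity), map_add,
        pow_add]
    · rw [if_pos h1, if_neg h2, ENNReal.mul_top (h0 _)]
      exact le_top
  · by_cases h2 : m' none = 0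
    · rw [if_neg h1, if_pos h2, ENNReal.top_mul (h0 _)]
      exact le_top
    · rw [if_neg h1, if_neg h2, ENNReal.top_mul_top]
      exact le_top

private lemma g1_w_wt {ρ : ℝ} (hρ : 0 < ρ) {τ : ℕ → ℝ} (hτ : ∀ e, 0 < τ e)
    (m m' : Option (Var d) →₀ ℕ) : wt ρ τ (m + m') ≤ g1_w ρ m * wt ρ τ m' := by
  unfold g1_w wt
  by_cases h1 : m none = 0
  · rw [if_pos h1, ← ENNReal.ofReal_mul (by positivity), map_add, pow_add, Finsupp.add_apply, h1,
      zero_add, mul_assoc]
  · rw [if_neg h1, ENNReal.top_mul]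
    · exact le_top
    · rw [Ne, ENNReal.ofReal_eq_zero, not_le]
      have := hτ (m' none)
      positivity

private lemma g1_wf_v (v : Option (Var d)) : Wf 1 (X v : Sym d) := by
  classical
  intro m hm
  rw [coeff_X, if_neg]
  rintro rfl
  have h : 0 < wgt (Finsupp.single v 1 : Option (Var d) →₀ ℕ) := by
    unfold wgt
    rcases v with _ | v
    · simp
    · cases v with
      | x i =>
        have h1 : (1 : ℕ) ≤ ∑ j, (Finsupp.single (some (Var.x i)) 1 : Option (Var d) →₀ ℕ)
            (some (.x j)) := by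
          refine le_trans ?_ (Finset.single_le_sum (fun j _ => Nat.zero_le _)
            (Finset.mem_univ i))
          simp
        omega
      | y i =>
        have h1 : (1 : ℕ) ≤ ∑ j, (Finsupp.single (some (Var.y i)) 1 : Option (Var d) →₀ ℕ)
            (some (.y j)) := by
          refine le_trans ?_ (Finset.single_le_sum (fun j _ => Nat.zero_le _)
            (Finset.mem_univ i))
          simp
        omega
      | t => simp
  omega

/-- a series is bounded if it agrees with bounded series on finite sets -/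
private lemma g1_of_wf {w : (Option (Var d) →₀ ℕ) → ℝ≥0∞} {f : Sym d} {C : ℝ≥0∞}
    (h : ∀ K : ℕ, ∃ g : Sym d, Wf K (f - g) ∧ nrm w g ≤ C) : nrm w f ≤ C := by
  classical
  unfold nrm
  rw [ENNReal.tsum_eq_iSup_sum]
  refine iSup_le fun s => ?_
  obtain ⟨g, hg, hgC⟩ := h (s.sup wgt + 1)
  refine le_trans (le_of_eq ?_) (le_trans (ENNReal.sum_le_tsum s) hgC)
  refine Finset.sum_congr rfl fun m hm => ?_
  have h1 := hg m (Nat.lt_succ_of_le (Finset.le_sup (f := wgt) hm))
  rw [map_sub, sub_eq_zero] at h1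
  rw [h1]

/-- `f = g + β f` with `‖β‖ ≤ 1/2` -/
private lemma g1_geo {w : (Option (Var d) →₀ ℕ) → ℝ≥0∞} (hw : ∀ m m', w (m + m') ≤ w m * w m')
    {f g β : Sym d} (h : f = g + β * f) (hβ : nrm w β ≤ ENNReal.ofReal (1 / 2)) (hβ1 : Wf 1 β) :
    nrm w f ≤ 2 * nrm w g := by
  have h1 : ∀ K : ℕ, f = ∑ k ∈ Finset.range K, β ^ k * g + β ^ K * f := by
    intro K
    induction K with
    | zero => simp
    | succ K ih =>
      rw [Finset.sum_range_succ, add_assoc, pow_succ, mul_assoc, ← mul_add, ← h]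
      exact ih
  have h2 : ∀ K : ℕ, Wf K (β ^ K) := by
    intro K
    induction K with
    | zero => exact wf_zero _
    | succ K ih =>
      rw [pow_succ]
      exact Wf.mul ih hβ1
  have h3 : ∀ k : ℕ, nrm w (β ^ k * g) ≤ ENNReal.ofReal ((1 / 2) ^ k) * nrm w g := by
    intro k
    induction k with
    | zero => simp
    | succ k ih =>
      rw [pow_succ', mul_assoc]
      refine (nrm_mul_le w hw _ _).trans ?_
      refine (mul_le_mul' hβ ih).trans (le_of_eq ?_)
      rw [← mul_assoc, ← ENNReal.ofReal_mul (by norm_num), pow_succ']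
  refine g1_of_wf fun K => ⟨∑ k ∈ Finset.range K, β ^ k * g, ?_, ?_⟩
  · have h4 : f - ∑ k ∈ Finset.range K, β ^ k * g = β ^ K * f := by
      rw [sub_eq_iff_eq_add']
      exact h1 K
    rw [h4]
    exact Wf.mono (by omega) (Wf.mul (h2 K) (wf_zero f))
  · refine (nrm_sum_le w _ _).trans ?_
    refine (Finset.sum_le_sum fun k _ => h3 k).trans ?_
    rw [← Finset.sum_mul, ← ENNReal.ofReal_sum_of_nonneg fun k _ => by positivity]
    refine mul_le_mul_left ?_ _
    have h5 : (∑ k ∈ Finset.range K, (1 / 2 : ℝ) ^ k) ≤ 2 := by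
      have h6 := geom_sum_eq (by norm_num : (1 / 2 : ℝ) ≠ 1) K
      have h7 : (0 : ℝ) ≤ (1 / 2) ^ K := by positivity
      have h8 : (((1 : ℝ) / 2) ^ K - 1) / (1 / 2 - 1) = 2 - 2 * (1 / 2) ^ K := by
        rw [div_eq_iff (by norm_num)]
        ring
      rw [h6, h8]
      linarith
    calc ENNReal.ofReal (∑ k ∈ Finset.range K, (1 / 2 : ℝ) ^ k) ≤ ENNReal.ofReal 2 :=
          ENNReal.ofReal_le_ofReal h5
      _ = 2 := by norm_num

private lemma g1_nrm_X {ρ : ℝ} (v : Var d) : nrm (g1_w ρ) (X (some v) : Sym d) = ENNReal.ofReal ρ := by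
  classical
  have h : (X (some v) : Sym d) = monomial (Finsupp.single (some v) 1) 1 := rfl
  rw [h, nrm_monomial, nnnorm_one, ENNReal.coe_one, one_mul, g1_w, if_pos (by simp),
    Finsupp.degree_single, pow_one]

/-- For small `ρ'`: `nrm (wt ρ' τ) (exp (lvN b) X^m) ≤ wt ρ τ m`. By `expo_lv_mul` the image of `X^m`
is `∏ (x_i + b_i t)^(m x_i) t^(m t) ∏ y_i^(m y_i) s^(m none) u^(ydeg m + m none)` with
`u = (1 - ∑ b_j y_j)⁻¹`, a series in `y` with norm `≤ 2` for small radius; the weight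
`f ↦ ρ'^|m|` is multiplicative, `s^(m none)` contributes exactly `τ (m none)`. -/
theorem nrm_lv {ρ : ℝ} (hρ : 0 < ρ) (b : Fin d → ℂ) : ∃ ρ' : ℝ, 0 < ρ' ∧ ρ' ≤ ρ ∧
    ∀ τ : ℕ → ℝ, (∀ e, 0 < τ e) → ∀ m : Option (Var d) →₀ ℕ,
      nrm (wt ρ' τ) (expo (lvN b) (monomial m 1)) ≤ wt ρ τ m := by
  classical
  set S : ℝ := ∑ j, ‖b j‖ with hS
  have hS0 : 0 ≤ S := Finset.sum_nonneg fun j _ => norm_nonneg _
  set C : ℝ := 2 * (1 + S) with hC
  have hC2 : 2 ≤ C := by rw [hC]; linarith
  set ρ' : ℝ := min (ρ / C) (1 / (2 * (1 + S))) with hρ'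
  have h0 : 0 < ρ' := lt_min (by positivity) (by positivity)
  have hCρ : C * ρ' ≤ ρ := by
    have h1 : ρ' ≤ ρ / C := min_le_left _ _
    rw [le_div_iff₀ (by linarith)] at h1
    linarith
  have hρρ : ρ' ≤ ρ := by nlinarith
  have hSρ : S * ρ' ≤ 1 / 2 := by
    have h1 : ρ' ≤ 1 / (2 * (1 + S)) := min_le_right _ _
    rw [le_div_iff₀ (by positivity)] at h1
    nlinarith
  refine ⟨ρ', h0, hρρ, ?_⟩
  have hWD := wd_lvN (d := d) b
  set β : Sym d := ∑ j, b j • vy j with hβ
  have hβ1 : Wf 1 β := Wf.sum _ fun j _ => Wf.smul (g1_wf_v _) _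
  have hβn : nrm (g1_w ρ') β ≤ ENNReal.ofReal (1 / 2) := by
    refine (nrm_sum_le _ _ _).trans ?_
    have h1 : ∀ j, nrm (g1_w ρ') (b j • (vy j : Sym d)) = ENNReal.ofReal (‖b j‖ * ρ') := by
      intro j
      rw [nrm_smul, ENNReal.ofReal_mul (norm_nonneg _), ofReal_norm, enorm_eq_nnnorm]
      exact congrArg _ (g1_nrm_X _)
    rw [Finset.sum_congr rfl fun j _ => h1 j, ← ENNReal.ofReal_sum_of_nonneg
      fun j _ => mul_nonneg (norm_nonneg _) h0.le, ← Finset.sum_mul]
    exact ENNReal.ofReal_le_ofReal hSρ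
  have hw := g1_w_add (d := d) h0
  -- the inverse of `1 - β`
  have hcc : constantCoeff (1 - β) = 1 := by
    have h1 : constantCoeff β = 0 := by
      rw [← coeff_zero_eq_constantCoeff_apply]
      exact hβ1 0 (by unfold wgt; simp)
    rw [map_sub, map_one, h1, sub_zero]
  obtain ⟨u, hu⟩ : ∃ u : Sym d, (1 - β) * u = 1 :=
    ⟨(1 - β)⁻¹, MvPowerSeries.mul_inv_cancel _ (by rw [hcc]; exact one_ne_zero)⟩
  have hu1 : nrm (g1_w ρ') u ≤ 2 := by
    have h1 : u = 1 + β * u := by
      rw [sub_mul, one_mul, sub_eq_iff_eq_add] at hu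
      exact hu
    refine (g1_geo hw h1 hβn hβ1).trans (le_of_eq ?_)
    have h2 : (1 : Sym d) = monomial 0 1 := rfl
    rw [h2, nrm_monomial, nnnorm_one, ENNReal.coe_one, one_mul, g1_w]
    simp
  have hs : expo (lvN b) vs = u * (vs : Sym d) := by
    have h1 := expo_lv_vs (d := d) b
    calc expo (lvN b) vs = (u * (1 - β)) * expo (lvN b) vs := by
          rw [mul_comm u, hu, one_mul]
      _ = u * ((1 - β) * expo (lvN b) vs) := by ring
      _ = u * vs := by rw [h1]
  -- the images of the variables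
  have hvar : ∀ v : Var d, nrm (g1_w ρ') (expo (lvN b) (X (some v))) ≤
      ENNReal.ofReal (C * ρ') := by
    intro v
    cases v with
    | x i =>
      have h1 : expo (lvN b) (X (some (.x i))) = vx i + b i • (vt : Sym d) := expo_lv_vx b i
      rw [h1]
      refine (nrm_add_le _ _ _).trans ?_
      have h2 : nrm (g1_w ρ') (vx i : Sym d) = ENNReal.ofReal ρ' := g1_nrm_X _
      have h3 : nrm (g1_w ρ') (b i • (vt : Sym d)) = ENNReal.ofReal (‖b i‖ * ρ') := by
        rw [nrm_smul, ENNReal.ofReal_mul (norm_nonneg _), ofReal_norm, enorm_eq_nnnorm]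
        exact congrArg _ (g1_nrm_X _)
      rw [h2, h3, ← ENNReal.ofReal_add h0.le (mul_nonneg (norm_nonneg _) h0.le)]
      refine ENNReal.ofReal_le_ofReal ?_
      have h4 : ‖b i‖ ≤ S := Finset.single_le_sum (f := fun j => ‖b j‖)
        (fun j _ => norm_nonneg _) (Finset.mem_univ i)
      have h5 : ρ' + ‖b i‖ * ρ' = (1 + ‖b i‖) * ρ' := by ring
      rw [h5]
      refine mul_le_mul_of_nonneg_right ?_ h0.le
      rw [hC]
      linarith
    | t =>
      have h1 : expo (lvN b) (X (some .t)) = (vt : Sym d) := expo_lv_vt b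
      rw [h1]
      refine (le_of_eq (g1_nrm_X _)).trans (ENNReal.ofReal_le_ofReal ?_)
      nlinarith
    | y i =>
      have h1 := expo_lv_vy (d := d) b i
      have h2 : expo (lvN b) (vy i) = vy i + β * expo (lvN b) (vy i) := by
        rw [sub_mul, one_mul, sub_eq_iff_eq_add] at h1
        exact h1
      have h3 := g1_geo hw h2 hβn hβ1
      refine h3.trans ?_
      have h4 : nrm (g1_w ρ') (vy i : Sym d) = ENNReal.ofReal ρ' := g1_nrm_X _
      rw [h4]
      calc (2 : ℝ≥0∞) * ENNReal.ofReal ρ' = ENNReal.ofReal (2 * ρ') := by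
            rw [ENNReal.ofReal_mul (by norm_num)]
            norm_num
        _ ≤ _ := ENNReal.ofReal_le_ofReal (mul_le_mul_of_nonneg_right hC2 h0.le)
  -- the images of the monomials
  have key : ∀ m : Option (Var d) →₀ ℕ, ∃ F : Sym d,
      expo (lvN b) (monomial m 1) = F * vs ^ m none ∧
      nrm (g1_w ρ') F * ENNReal.ofReal (ρ' ^ m none) ≤ ENNReal.ofReal ((C * ρ') ^ m.degree) := by
    have hadd : ∀ m m' : Option (Var d) →₀ ℕ, (∃ F : Sym d,
        expo (lvN b) (monomial m 1) = F * vs ^ m none ∧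
        nrm (g1_w ρ') F * ENNReal.ofReal (ρ' ^ m none) ≤ ENNReal.ofReal ((C * ρ') ^ m.degree)) →
        (∃ F : Sym d, expo (lvN b) (monomial m' 1) = F * vs ^ m' none ∧
        nrm (g1_w ρ') F * ENNReal.ofReal (ρ' ^ m' none) ≤
          ENNReal.ofReal ((C * ρ') ^ m'.degree)) →
        ∃ F : Sym d, expo (lvN b) (monomial (m + m') 1) = F * vs ^ (m + m') none ∧
        nrm (g1_w ρ') F * ENNReal.ofReal (ρ' ^ (m + m') none) ≤
          ENNReal.ofReal ((C * ρ') ^ (m + m').degree) := by
      rintro m m' ⟨F, hF, hFn⟩ ⟨G, hG, hGn⟩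
      refine ⟨F * G, ?_, ?_⟩
      · have h1 : (monomial (m + m') 1 : Sym d) = monomial m 1 * monomial m' 1 := by
          rw [monomial_mul_monomial, one_mul]
        rw [h1, expo_lv_mul, hF, hG, Finsupp.add_apply, pow_add]
        ring
      · rw [Finsupp.add_apply, pow_add, ENNReal.ofReal_mul (by positivity), map_add, pow_add,
          ENNReal.ofReal_mul (by positivity)]
        calc nrm (g1_w ρ') (F * G) * (ENNReal.ofReal (ρ' ^ m none) *
              ENNReal.ofReal (ρ' ^ m' none)) ≤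
              (nrm (g1_w ρ') F * nrm (g1_w ρ') G) * (ENNReal.ofReal (ρ' ^ m none) *
              ENNReal.ofReal (ρ' ^ m' none)) := mul_le_mul_left (nrm_mul_le _ hw _ _) _
          _ = (nrm (g1_w ρ') F * ENNReal.ofReal (ρ' ^ m none)) *
              (nrm (g1_w ρ') G * ENNReal.ofReal (ρ' ^ m' none)) := by ring
          _ ≤ _ := mul_le_mul' hFn hGn
    have hzero : ∃ F : Sym d, expo (lvN b) (monomial 0 1) = F * vs ^ (0 : Option (Var d) →₀ ℕ) none ∧
        nrm (g1_w ρ') F * ENNReal.ofReal (ρ' ^ (0 : Option (Var d) →₀ ℕ) none) ≤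
          ENNReal.ofReal ((C * ρ') ^ (0 : Option (Var d) →₀ ℕ).degree) := by
      refine ⟨1, ?_, ?_⟩
      · have h1 : (monomial 0 1 : Sym d) = 1 := rfl
        rw [h1, expo_of_zero hWD.one]
        simp
      · have h2 : (1 : Sym d) = monomial 0 1 := rfl
        rw [h2, nrm_monomial, nnnorm_one, ENNReal.coe_one, one_mul, g1_w]
        simp
    have hone : ∀ v : Option (Var d), ∃ F : Sym d,
        expo (lvN b) (monomial (Finsupp.single v 1) 1) = F * vs ^ (Finsupp.single v 1) none ∧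
        nrm (g1_w ρ') F * ENNReal.ofReal (ρ' ^ (Finsupp.single v 1) none) ≤
          ENNReal.ofReal ((C * ρ') ^ (Finsupp.single v 1).degree) := by
      intro v
      rw [Finsupp.degree_single, pow_one]
      rcases v with _ | v
      · refine ⟨u, ?_, ?_⟩
        · rw [Finsupp.single_eq_same, pow_one]
          exact hs
        · rw [Finsupp.single_eq_same, pow_one, ENNReal.ofReal_mul (by linarith)]
          refine mul_le_mul_left (hu1.trans ?_) _
          calc (2 : ℝ≥0∞) = ENNReal.ofReal 2 := by norm_num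
            _ ≤ _ := ENNReal.ofReal_le_ofReal hC2
      · have h1 : (Finsupp.single (some v) 1 : Option (Var d) →₀ ℕ) none = 0 := by
          simp
        rw [h1]
        refine ⟨expo (lvN b) (X (some v)), ?_, ?_⟩
        · rw [pow_zero, mul_one]
          rfl
        · rw [pow_zero, ENNReal.ofReal_one, mul_one]
          exact hvar v
    intro m
    induction m using Finsupp.induction_linear with
    | zero => exact hzero
    | add m m' h1 h2 => exact hadd m m' h1 h2
    | single v n =>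
      induction n with
      | zero =>
        rw [Finsupp.single_zero]
        exact hzero
      | succ n ih =>
        rw [Finsupp.single_add]
        exact hadd _ _ ih (hone v)
  intro τ hτ m
  obtain ⟨F, hF, hFn⟩ := key m
  rw [hF]
  refine (g1_mul_le (g1_w_wt h0 hτ) F (vs ^ m none)).trans ?_
  have h1 : (vs ^ m none : Sym d) = monomial (Finsupp.single none (m none)) 1 := by
    have h2 : (vs : Sym d) = X none := rfl
    rw [h2, X_pow_eq]
  have h3 : nrm (wt ρ' τ) (vs ^ m none : Sym d) =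
      ENNReal.ofReal (ρ' ^ m none) * ENNReal.ofReal (τ (m none)) := by
    rw [h1, nrm_monomial, nnnorm_one, ENNReal.coe_one, one_mul, wt, Finsupp.degree_single,
      Finsupp.single_eq_same, ENNReal.ofReal_mul (by positivity)]
  rw [h3, ← mul_assoc]
  refine (mul_le_mul_left hFn _).trans ?_
  rw [wt, ENNReal.ofReal_mul (by positivity)]
  refine mul_le_mul_left (ENNReal.ofReal_le_ofReal ?_) _
  exact pow_le_pow_left₀ (by positivity) hCρ _

/-! ## the shear: operators on polynomials of bounded base degree -/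

/-- all monomials have base degree `≤ n` -/
def BD (n : ℕ) (f : Sym d) : Prop := ∀ m, n < bdeg m → coeff m f = 0

/-- the weight `x, t, y ↦ r`, `s ↦ r² / n` -/
noncomputable def wn (r : ℝ) (n : ℕ) (m : Option (Var d) →₀ ℕ) : ℝ≥0∞ :=
  ENNReal.ofReal (r ^ (bdeg m + ydeg m) * (r ^ 2 / n) ^ m none)

/-! ## row g2: composition with `y_j` on the left -/

-- BEGIN g2 (helper42)
lemma BD.add {n : ℕ} {f g : Sym d} (hf : BD n f) (hg : BD n g) : BD n (f + g) := fun m hm => by
  rw [map_add, hf m hm, hg m hm, add_zero]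
lemma BD.smul {n : ℕ} {f : Sym d} (hf : BD n f) (c : ℂ) : BD n (c • f) := fun m hm => by
  rw [map_smul, hf m hm, smul_zero]
lemma BD.sum {n : ℕ} {κ : Type} (s : Finset κ) {f : κ → Sym d} (hf : ∀ k ∈ s, BD n (f k)) :
    BD n (∑ k ∈ s, f k) := fun m hm => by
  rw [map_sum]
  exact Finset.sum_eq_zero fun k hk => hf k hk m hm
lemma BD.mono {n n' : ℕ} (h : n ≤ n') {f : Sym d} (hf : BD n f) : BD n' f :=
  fun m hm => hf m (lt_of_le_of_lt h hm)

private lemma g2_D_some (i : Fin d) (a : ℕ) (f : Sym d) :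
    D (some i) ((vs : Sym d) ^ a * f) = vs ^ a * D (some i) f := by
  have h : D (some i) ((vs : Sym d) ^ a) = 0 := by
    rw [Derivation.leibniz_pow, D_vs, smul_zero, smul_zero]
  rw [Derivation.leibniz, h, smul_zero, add_zero, smul_eq_mul]

private lemma g2_D_none (a : ℕ) :
    D none ((vs : Sym d) ^ a) = (-(a : ℂ)) • vs ^ (a + 1) := by
  rcases a with _ | a
  · rw [pow_zero, Nat.cast_zero, neg_zero, zero_smul]
    exact Derivation.map_one_eq_zero _
  · rw [Derivation.leibniz_pow, D_vs_none, Nat.add_sub_cancel, smul_eq_mul, neg_smul,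
      Nat.cast_smul_eq_nsmul, mul_neg, smul_neg, ← pow_add]

/-- `D none (s^a y_j) = -(a+1) s^(a+1) y_j` -/
private lemma g2_D_none_y (j : Fin d) (a : ℕ) :
    D none ((vs : Sym d) ^ a * vy j) = (-((a : ℂ) + 1)) • (vs ^ (a + 1) * vy j) := by
  rw [Derivation.leibniz, g2_D_none, D_vy_none, smul_eq_mul, smul_eq_mul]
  simp only [Algebra.smul_def, map_neg, map_add, map_one]
  ring

private lemma g2_D_some_y (i j : Fin d) (a : ℕ) :
    D (some i) ((vs : Sym d) ^ a * vy j) = if i = j then vs ^ (a + 1) else 0 := by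
  rw [g2_D_some, D_vy_some]
  split_ifs
  · rw [pow_succ]
  · rw [mul_zero]

/-- the terms of the Leibniz formula for `s^a` -/
private lemma g2_lb_s (n a : ℕ) (g : Sym d) :
    lb n ((vs : Sym d) ^ (a + 1)) g =
      ((-1 : ℂ) ^ n * ((a + n).choose n : ℂ)) • (vs ^ (a + 1 + n) * (B none)^[n] g) := by
  induction n generalizing a g with
  | zero => simp [leib_zero]
  | succ n ih =>
    rw [lb, leib_succ, Fintype.sum_option]
    have h0 : ∑ i : Fin d, leib D B n (D (some i) ((vs : Sym d) ^ (a + 1))) (B (some i) g) = 0 := by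
      refine Finset.sum_eq_zero fun i _ => ?_
      have h : D (some i) ((vs : Sym d) ^ (a + 1)) = 0 := by
        rw [Derivation.leibniz_pow, D_vs, smul_zero, smul_zero]
      rw [h, leib_zero_left]
    rw [h0, add_zero, g2_D_none, leib_smul_left]
    have h1 := ih (a + 1) (B none g)
    rw [lb] at h1
    rw [h1, smul_smul, smul_smul, Function.iterate_succ_apply]
    have h2 : (a + 1 + n).choose (n + 1) * (n + 1) = (a + 1 + n).choose n * (a + 1) := by
      rw [Nat.choose_succ_right_eq]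
      congr 1
      omega
    have h3 : (((a + 1 + n).choose (n + 1) : ℕ) : ℂ) * ((n : ℂ) + 1) =
        (((a + 1 + n).choose n : ℕ) : ℂ) * ((a : ℂ) + 1) := by exact_mod_cast h2
    have h4 : ((n : ℂ) + 1) ≠ 0 := by exact_mod_cast Nat.succ_ne_zero n
    have h5 : a + (n + 1) = a + 1 + n := by ring
    have h6 : a + 1 + 1 + n = a + 1 + (n + 1) := by ring
    rw [h5, h6]
    congr 1
    push_cast
    field_simp
    linear_combination (-1 : ℂ) ^ n * h3

private lemma g2_choose (N n a : ℕ) (h : N = a + 1 + n) :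
    ((N.choose (n + 1) : ℕ) : ℂ) * ((n : ℂ) + 1) = ((N.choose n : ℕ) : ℂ) * ((a : ℂ) + 1) := by
  have h2 : N.choose (n + 1) * (n + 1) = N.choose n * (a + 1) := by
    rw [Nat.choose_succ_right_eq]
    congr 1
    omega
  exact_mod_cast h2

private lemma g2_sum (n : ℕ) (j : Fin d) (c g : Sym d) :
    ∑ i : Fin d, leib D B n (if i = j then c else 0) (B (some i) g) =
      leib D B n c (B (some j) g) := by
  rw [Finset.sum_eq_single j]
  · rw [if_pos rfl]
  · intro i _ hi
    rw [if_neg hi, leib_zero_left]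
  · intro h
    exact absurd (Finset.mem_univ j) h

private lemma g2_iter_comm (n : ℕ) (j : Fin d) (g : Sym d) :
    (B none)^[n] (B (some j) (B none g)) = (B none)^[n + 1] (B (some j) g) := by
  rw [Function.iterate_succ_apply, com_DB.BB (some j) none]

/-- the terms of the Leibniz formula for `s^a y_j` -/
private lemma g2_lb_y (n a : ℕ) (j : Fin d) (g : Sym d) :
    lb (n + 1) ((vs : Sym d) ^ a * vy j) g =
      ((-1 : ℂ) ^ (n + 1) * ((a + (n + 1)).choose (n + 1) : ℂ)) •
        (vs ^ (a + (n + 1)) * vy j * (B none)^[n + 1] g) +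
      ((-1 : ℂ) ^ n * ((a + n).choose n : ℂ)) •
        (vs ^ (a + (n + 1)) * (B none)^[n] (B (some j) g)) := by
  induction n generalizing a g with
  | zero =>
    rw [lb, leib_succ, Fintype.sum_option, g2_D_none_y]
    simp_rw [g2_D_some_y]
    rw [g2_sum, leib_zero, leib_zero]
    simp only [Algebra.smul_def, map_mul, map_add, map_one, map_neg, map_natCast,
      Nat.cast_zero, zero_add, Nat.choose_zero_right, Nat.choose_one_right, Nat.cast_one, pow_zero,
      pow_one, Function.iterate_zero, id_eq, Function.iterate_one, inv_one, Nat.cast_add]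
    ring
  | succ n ih =>
    rw [lb, leib_succ, Fintype.sum_option, g2_D_none_y]
    simp_rw [g2_D_some_y]
    rw [g2_sum, leib_smul_left]
    have h1 := ih (a + 1) (B none g)
    have h2 := g2_lb_s (n + 1) a (B (some j) g)
    rw [lb] at h1 h2
    rw [h1, h2, g2_iter_comm, ← Function.iterate_succ_apply (B none : Sym d → Sym d) (n + 1)]
    have e1 : a + 1 + (n + 1) = a + (n + 1 + 1) := by ring
    have e2 : a + 1 + n = a + (n + 1) := by ring
    rw [e1, e2]
    have h3 := g2_choose (a + (n + 1 + 1)) (n + 1) a (by ring)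
    have h4 := g2_choose (a + (n + 1)) n a (by ring)
    have h5 : ((n : ℂ) + 1 + 1) ≠ 0 := by exact_mod_cast Nat.succ_ne_zero (n + 1)
    simp only [smul_add, smul_smul]
    rw [add_assoc, ← add_smul]
    push_cast at h3 h4 ⊢
    congr 1
    · congr 1
      field_simp
      linear_combination (-1 : ℂ) ^ (n + 1) * h3
    · congr 1
      field_simp
      linear_combination (-1 : ℂ) ^ n * h4

/-! base degrees -/

private lemma g2_bdeg_add (m m' : Option (Var d) →₀ ℕ) : bdeg (m + m') = bdeg m + bdeg m' := by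
  simp only [bdeg, Finsupp.add_apply, Finset.sum_add_distrib]
  omega

private lemma g2_bdeg_x (i : Fin d) :
    bdeg (Finsupp.single (some (.x i)) 1 : Option (Var d) →₀ ℕ) = 1 := by
  simp [bdeg, Finsupp.single_apply]

private lemma g2_bdeg_t : bdeg (Finsupp.single (some .t) 1 : Option (Var d) →₀ ℕ) = 1 := by
  simp [bdeg, Finsupp.single_apply]

/-- a derivative in a base variable lowers the base degree -/
private lemma g2_BD_B {n : ℕ} {f : Sym d} (hf : BD (n + 1) f) (i : Option (Fin d)) :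
    BD n (B i f) := by
  intro m hm
  cases i with
  | none =>
    change coeff m (pderiv ℂ (some .t) f) = 0
    rw [coeff_pderiv, hf, zero_mul]
    rw [g2_bdeg_add, g2_bdeg_t]
    omega
  | some i =>
    change coeff m (pderiv ℂ (some (.x i)) f) = 0
    rw [coeff_pderiv, hf, zero_mul]
    rw [g2_bdeg_add, g2_bdeg_x]
    omega

private lemma g2_BD_B' {n : ℕ} {f : Sym d} (hf : BD n f) (i : Option (Fin d)) : BD n (B i f) :=
  g2_BD_B (hf.mono (by omega)) i

/-- series of base degree `0` have no derivatives -/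
private lemma g2_B_zero {f : Sym d} (hf : BD 0 f) (i : Option (Fin d)) : B i f = 0 := by
  ext m
  cases i with
  | none =>
    change coeff m (pderiv ℂ (some .t) f) = 0
    rw [coeff_pderiv, hf, zero_mul]
    rw [g2_bdeg_add, g2_bdeg_t]
    omega
  | some i =>
    change coeff m (pderiv ℂ (some (.x i)) f) = 0
    rw [coeff_pderiv, hf, zero_mul]
    rw [g2_bdeg_add, g2_bdeg_x]
    omega

private lemma g2_iter {n : ℕ} (k : ℕ) {f : Sym d} (hf : BD n f) : BD n ((B none)^[k] f) := by
  induction k with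
  | zero => exact hf
  | succ k ih =>
    rw [Function.iterate_succ_apply']
    exact g2_BD_B' ih none

private lemma g2_iter_zero {n : ℕ} {f : Sym d} (hf : BD n f) : (B none)^[n + 1] f = 0 := by
  induction n generalizing f with
  | zero => exact g2_B_zero hf none
  | succ n ih =>
    rw [Function.iterate_succ_apply]
    exact ih (g2_BD_B hf none)

private lemma g2_iter_zero' {n k : ℕ} {f : Sym d} (hf : BD n f) (hk : n < k) :
    (B none)^[k] f = 0 := by
  have h : k = (k - (n + 1)) + (n + 1) := by omega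
  rw [h, Function.iterate_add_apply, g2_iter_zero hf]
  generalize k - (n + 1) = l
  induction l with
  | zero => rfl
  | succ l ih => rw [Function.iterate_succ_apply', ih, map_zero]

/-- multiplication with `y_j` or `s` -/
private lemma g2_BD_X {n : ℕ} {f : Sym d} (hf : BD n f) (v : Option (Var d))
    (hv : bdeg (Finsupp.single v 1 : Option (Var d) →₀ ℕ) = 0) : BD n (X v * f) := by
  classical
  intro m hm
  rw [coeff_mul]
  refine Finset.sum_eq_zero fun p hp => ?_
  have h1 : p.1 + p.2 = m := Finset.HasAntidiagonal.mem_antidiagonal.1 hp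
  rw [coeff_X]
  split_ifs with h2
  · rw [hf, mul_zero]
    rw [← h1, g2_bdeg_add, h2, hv, zero_add] at hm
    exact hm
  · rw [zero_mul]

private lemma g2_BD_s {n : ℕ} (k : ℕ) {f : Sym d} (hf : BD n f) : BD n ((vs : Sym d) ^ k * f) := by
  induction k with
  | zero => rwa [pow_zero, one_mul]
  | succ k ih =>
    rw [pow_succ', mul_assoc]
    exact g2_BD_X ih none (by simp [bdeg])

private lemma g2_BD_y {n : ℕ} (j : Fin d) {f : Sym d} (hf : BD n f) :
    BD n ((vy j : Sym d) * f) := g2_BD_X hf _ (by simp [bdeg])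

private lemma g2_B_s (k : ℕ) (j : Fin d) (f : Sym d) :
    B (some j) ((vs : Sym d) ^ k * f) = vs ^ k * B (some j) f := by
  have h : B (some j) ((vs : Sym d) ^ k) = 0 := by
    rw [Derivation.leibniz_pow, B_vs, smul_zero, smul_zero]
  rw [Derivation.leibniz, h, smul_zero, add_zero, smul_eq_mul]

private lemma g2_comm (n : ℕ) (j : Fin d) (g : Sym d) :
    (B none)^[n] (B (some j) g) = B (some j) ((B none)^[n] g) := by
  induction n generalizing g with
  | zero => rfl
  | succ n ih => rw [Function.iterate_succ_apply, com_DB.BB none (some j), ih,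
      Function.iterate_succ_apply]

/-- `y_j ∘ f = ∑_k (-1)^k (y_j + s ∂_{x_j}) (s ∂_t)^k f`; the sum is finite if `f` has bounded base
degree (the term of order `n` of the Leibniz formula is
`lb n (y_j) f = (-s ∂_t)^n (y_j f) + s ∂_{x_j} (-s ∂_t)^(n-1) f`). -/
lemma comp_vy_left (j : Fin d) {n : ℕ} {f : Sym d} (hf : BD n f) :
    comp (vy j) f = ∑ k ∈ Finset.range (n + 1), (-1 : ℂ) ^ k •
      (vy j * (vs ^ k * (B none)^[k] f) + vs * B (some j) (vs ^ k * (B none)^[k] f)) := by
  set F : ℕ → Sym d := fun k => (-1 : ℂ) ^ k • (vy j * (vs ^ k * (B none)^[k] f)) with hF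
  set G : ℕ → Sym d := fun k => (-1 : ℂ) ^ k • (vs * B (some j) (vs ^ k * (B none)^[k] f)) with hG
  have h1 : ∀ k, lb (k + 1) (vy j) f = F (k + 1) + G k := by
    intro k
    have h := g2_lb_y k 0 j f
    rw [pow_zero, one_mul, zero_add, zero_add, Nat.choose_self, Nat.choose_self, Nat.cast_one,
      mul_one, mul_one] at h
    rw [h, hF, hG]
    simp only
    rw [g2_comm, g2_B_s]
    congr 2
    · ring
    · ring
  have hF0 : ∀ k, n < k → F k = 0 := fun k hk => by
    simp only [hF]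
    rw [g2_iter_zero' hf hk, mul_zero, mul_zero, smul_zero]
  have hG0 : ∀ k, n < k → G k = 0 := fun k hk => by
    simp only [hG]
    rw [g2_iter_zero' hf hk, mul_zero, map_zero, mul_zero, smul_zero]
  have h2 : ∀ N, ∑ k ∈ Finset.range (N + 1), lb k (vy j) f =
      ∑ k ∈ Finset.range (N + 1), F k + ∑ k ∈ Finset.range N, G k := by
    intro N
    rw [Finset.sum_range_succ', Finset.sum_range_succ' F]
    simp_rw [h1]
    rw [Finset.sum_add_distrib]
    have h3 : lb 0 (vy j) f = F 0 := by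
      simp [hF, leib_zero]
    rw [h3]
    ring
  have h4 : ∀ (H : ℕ → Sym d), (∀ k, n < k → H k = 0) → ∀ N, n + 1 ≤ N →
      ∑ k ∈ Finset.range N, H k = ∑ k ∈ Finset.range (n + 1), H k := by
    intro H hH N hN
    refine (Finset.sum_subset (Finset.range_mono hN) fun k _ hk => hH k ?_).symm
    rw [Finset.mem_range] at hk
    omega
  refine eq_of_fil fun N => ?_
  have h5 := comp_fil (vy j) f (N + (n + 1) + 1)
  rw [h2, h4 F hF0 _ (by omega), h4 G hG0 _ (by omega), ← Finset.sum_add_distrib] at h5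
  refine (congrArg (Fil N) ?_).mp (h5.mono (by omega : N ≤ N + (n + 1) + 1))
  congr 1
  refine Finset.sum_congr rfl fun k _ => ?_
  rw [smul_add]

lemma BD.comp_vy {n : ℕ} {f : Sym d} (hf : BD n f) (j : Fin d) : BD n (comp (vy j) f) := by
  rw [comp_vy_left j hf]
  refine BD.sum _ fun k _ => BD.smul (BD.add ?_ ?_) _
  · exact g2_BD_y j (g2_BD_s k (g2_iter k hf))
  · have h := g2_BD_s 1 (g2_BD_B' (g2_BD_s k (g2_iter k hf)) (some j))
    rwa [pow_one] at h
-- END g2

/-! ## row g3: norms of the operators on polynomials of base degree `≤ n` -/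

private lemma gq3_nrm_X (w : (Option (Var d) →₀ ℕ) → ℝ≥0∞) (v : Option (Var d)) (f : Sym d) :
    nrm w ((X v : Sym d) * f) = ∑' m, (‖coeff m f‖₊ : ℝ≥0∞) * w (m + Finsupp.single v 1) := by
  classical
  have hinj : Function.Injective fun m : Option (Var d) →₀ ℕ => m + Finsupp.single v 1 :=
    add_left_injective _
  have hc : ∀ m : Option (Var d) →₀ ℕ, coeff (m + Finsupp.single v 1) ((X v : Sym d) * f) =
      coeff m f := by
    intro m
    rw [X_def, add_comm m, coeff_add_monomial_mul, one_mul]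
  have hs : Function.support (fun M => (‖coeff M ((X v : Sym d) * f)‖₊ : ℝ≥0∞) * w M) ⊆
      Set.range fun m : Option (Var d) →₀ ℕ => m + Finsupp.single v 1 := by
    intro M hM
    by_contra hne
    apply hM
    have h0 : coeff M ((X v : Sym d) * f) = 0 := by
      rw [X_def, coeff_monomial_mul, if_neg]
      intro hle
      exact hne ⟨M - Finsupp.single v 1, tsub_add_cancel_of_le hle⟩
    simp [h0]
  rw [nrm, ← hinj.tsum_eq hs]
  exact tsum_congr fun m => by rw [hc m]

private lemma gq3_bdeg (m : Option (Var d) →₀ ℕ) (v : Option (Var d)) :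
    bdeg (m + Finsupp.single v 1) = bdeg m + bdeg (Finsupp.single v 1) := by
  simp only [bdeg, Finsupp.add_apply, Finset.sum_add_distrib]
  ring

private lemma gq3_ydeg (m : Option (Var d) →₀ ℕ) (v : Option (Var d)) :
    ydeg (m + Finsupp.single v 1) = ydeg m + ydeg (Finsupp.single v 1) := by
  simp only [ydeg, Finsupp.add_apply, Finset.sum_add_distrib]

private lemma gq3_none : bdeg (Finsupp.single none 1 : Option (Var d) →₀ ℕ) = 0 ∧
    ydeg (Finsupp.single none 1 : Option (Var d) →₀ ℕ) = 0 := by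
  constructor <;> simp [bdeg, ydeg]

private lemma gq3_some (v : Var d) : bdeg (Finsupp.single (some v) 1 : Option (Var d) →₀ ℕ) +
    ydeg (Finsupp.single (some v) 1 : Option (Var d) →₀ ℕ) = 1 := by
  cases v <;> simp [bdeg, ydeg, Finsupp.single_apply]

private lemma gq3_wn_none {r : ℝ} (hr : 0 < r) (n : ℕ) (m : Option (Var d) →₀ ℕ) :
    wn r n (m + Finsupp.single none 1) = ENNReal.ofReal (r ^ 2 / n) * wn r n m := by
  rw [wn, wn, gq3_bdeg, gq3_ydeg, gq3_none.1, gq3_none.2, ← ENNReal.ofReal_mul (by positivity)]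
  congr 1
  simp only [Finsupp.add_apply, Finsupp.single_eq_same, pow_succ, add_zero]
  ring

private lemma gq3_wn_some {r : ℝ} (hr : 0 < r) (n : ℕ) (m : Option (Var d) →₀ ℕ) (v : Var d) :
    wn r n (m + Finsupp.single (some v) 1) = ENNReal.ofReal r * wn r n m := by
  have h1 : bdeg (m + Finsupp.single (some v) 1) + ydeg (m + Finsupp.single (some v) 1) =
      bdeg m + ydeg m + 1 := by
    rw [gq3_bdeg, gq3_ydeg]
    have := gq3_some v
    omega
  rw [wn, wn, h1, ← ENNReal.ofReal_mul hr.le]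
  congr 1
  have h2 : (m + Finsupp.single (some v) 1 : Option (Var d) →₀ ℕ) none = m none := by
    simp
  rw [h2, pow_succ]
  ring

/-- the base variables -/
private def gq3_bv : Option (Fin d) → Var d
  | none => .t
  | some i => .x i

private lemma gq3_B (i : Option (Fin d)) (f : Sym d) :
    B i f = pderiv ℂ (some (gq3_bv i)) f := by
  cases i <;> rfl

private lemma gq3_bv_deg (i : Option (Fin d)) (m : Option (Var d) →₀ ℕ) :
    m (some (gq3_bv i)) ≤ bdeg m := by
  cases i with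
  | none => exact Nat.le_add_left _ _
  | some i =>
    refine le_trans ?_ (Nat.le_add_right _ _)
    exact Finset.single_le_sum (f := fun i => m (some (Var.x i))) (fun _ _ => Nat.zero_le _)
      (Finset.mem_univ i)

/-- `s ∂_t` and `s ∂_{x_j}` have norm `≤ r`: a monomial of base degree `≤ n` gets a factor
`≤ n · (r² / n) / r = r`. -/
lemma nrm_sB {r : ℝ} (hr : 0 < r) {n : ℕ} (hn : 0 < n) {f : Sym d} (hf : BD n f)
    (i : Option (Fin d)) : nrm (wn r n) (vs * B i f) ≤ ENNReal.ofReal r * nrm (wn r n) f := by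
  rw [vs, gq3_nrm_X, gq3_B]
  set v : Var d := gq3_bv i with hv
  have hinj : Function.Injective fun m : Option (Var d) →₀ ℕ => m + Finsupp.single (some v) 1 :=
    add_left_injective _
  have hn' : (0 : ℝ) < n := by exact_mod_cast hn
  calc ∑' m, (‖coeff m (pderiv ℂ (some v) f)‖₊ : ℝ≥0∞) * wn r n (m + Finsupp.single none 1)
      ≤ ∑' m, (ENNReal.ofReal r * ((‖coeff (m + Finsupp.single (some v) 1) f‖₊ : ℝ≥0∞) *
          wn r n (m + Finsupp.single (some v) 1))) := by
        refine ENNReal.tsum_le_tsum fun m => ?_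
        by_cases h0 : coeff (m + Finsupp.single (some v) 1) f = 0
        · rw [coeff_pderiv, h0]
          simp
        · have hd : bdeg (m + Finsupp.single (some v) 1) ≤ n := by
            by_contra hlt
            exact h0 (hf _ (by omega))
          have hm : m (some v) + 1 ≤ n := by
            have := gq3_bv_deg i (m + Finsupp.single (some v) 1)
            rw [← hv] at this
            simp only [Finsupp.add_apply, Finsupp.single_eq_same] at this
            omega
          have e1 : (‖coeff m (pderiv ℂ (some v) f)‖₊ : ℝ≥0∞) =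
              ‖coeff (m + Finsupp.single (some v) 1) f‖₊ *
                ENNReal.ofReal ((m (some v) + 1 : ℕ) : ℝ) := by
            have e2 : ((m (some v) : ℂ) + 1) = ((m (some v) + 1 : ℕ) : ℂ) := by push_cast; rfl
            rw [coeff_pderiv, e2, nnnorm_mul, Complex.nnnorm_natCast, ENNReal.ofReal_natCast]
            push_cast
            rfl
          rw [e1, gq3_wn_none hr, gq3_wn_some hr]
          calc (‖coeff (m + Finsupp.single (some v) 1) f‖₊ : ℝ≥0∞) *
                ENNReal.ofReal ((m (some v) + 1 : ℕ) : ℝ) *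
                (ENNReal.ofReal (r ^ 2 / n) * wn r n m)
              = (‖coeff (m + Finsupp.single (some v) 1) f‖₊ : ℝ≥0∞) *
                (ENNReal.ofReal (((m (some v) + 1 : ℕ) : ℝ) * (r ^ 2 / n))) * wn r n m := by
                rw [ENNReal.ofReal_mul (by positivity)]
                ring
            _ ≤ (‖coeff (m + Finsupp.single (some v) 1) f‖₊ : ℝ≥0∞) *
                (ENNReal.ofReal (r * r)) * wn r n m := by
                have h3 : ((m (some v) + 1 : ℕ) : ℝ) ≤ n := by exact_mod_cast hm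
                have h4 : ((m (some v) + 1 : ℕ) : ℝ) * (r ^ 2 / n) ≤ r * r := by
                  calc ((m (some v) + 1 : ℕ) : ℝ) * (r ^ 2 / n) ≤ n * (r ^ 2 / n) := by gcongr
                    _ = r * r := by field_simp
                exact mul_le_mul' (mul_le_mul' le_rfl (ENNReal.ofReal_le_ofReal h4)) le_rfl
            _ = _ := by
                rw [ENNReal.ofReal_mul hr.le]
                ring
    _ = ENNReal.ofReal r * ∑' m, ((‖coeff (m + Finsupp.single (some v) 1) f‖₊ : ℝ≥0∞) *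
          wn r n (m + Finsupp.single (some v) 1)) := ENNReal.tsum_mul_left
    _ ≤ _ := by
        gcongr
        exact ENNReal.tsum_comp_le_tsum_of_injective hinj
          (fun m => (‖coeff m f‖₊ : ℝ≥0∞) * wn r n m)

lemma nrm_vmul {r : ℝ} (hr : 0 < r) (n : ℕ) (f : Sym d) (v : Var d) :
    nrm (wn r n) (X (some v) * f) ≤ ENNReal.ofReal r * nrm (wn r n) f := by
  rw [gq3_nrm_X, nrm, ← ENNReal.tsum_mul_left]
  refine ENNReal.tsum_le_tsum fun m => le_of_eq ?_
  rw [gq3_wn_some hr]
  ring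

private lemma gq3_BD_s {n : ℕ} {f : Sym d} (hf : BD n f) : BD n (vs * f) := by
  classical
  intro m hm
  rw [vs, X_def, coeff_monomial_mul]
  split_ifs with h
  · rw [one_mul]
    apply hf
    have h1 : bdeg (m - Finsupp.single none 1 : Option (Var d) →₀ ℕ) = bdeg m := by
      have := gq3_bdeg (m - Finsupp.single none 1) none
      rw [tsub_add_cancel_of_le h, gq3_none.1] at this
      omega
    omega
  · rfl

private lemma gq3_BD_B {n : ℕ} {f : Sym d} (hf : BD n f) (i : Option (Fin d)) : BD n (B i f) := by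
  intro m hm
  rw [gq3_B, coeff_pderiv, hf, zero_mul]
  rw [gq3_bdeg]
  omega

private lemma gq3_iter (f : Sym d) (k : ℕ) :
    vs ^ (k + 1) * (B none)^[k + 1] f = vs * B none (vs ^ k * (B none)^[k] f) := by
  have h0 : ∀ k : ℕ, B none ((vs : Sym d) ^ k) = 0 := by
    intro k
    rw [Derivation.leibniz_pow, B_vs, smul_zero, smul_zero]
  rw [Derivation.leibniz, h0, smul_zero, add_zero, Function.iterate_succ_apply', smul_eq_mul]
  ring

private lemma gq3_pow {r : ℝ} (hr : 0 < r) {n : ℕ} (hn : 0 < n) {f : Sym d} (hf : BD n f) (k : ℕ) :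
    nrm (wn r n) (vs ^ k * (B none)^[k] f) ≤ ENNReal.ofReal (r ^ k) * nrm (wn r n) f ∧
      BD n (vs ^ k * (B none)^[k] f) := by
  induction k with
  | zero => simpa using hf
  | succ k ih =>
    rw [gq3_iter]
    refine ⟨(nrm_sB hr hn ih.2 none).trans ?_, gq3_BD_s (gq3_BD_B ih.2 none)⟩
    calc ENNReal.ofReal r * nrm (wn r n) (vs ^ k * (B none)^[k] f)
        ≤ ENNReal.ofReal r * (ENNReal.ofReal (r ^ k) * nrm (wn r n) f) := by
          gcongr
          exact ih.1
      _ = _ := by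
          rw [← mul_assoc, ← ENNReal.ofReal_mul hr.le, pow_succ']

/-- `‖y_j ∘ f‖ ≤ 4 r ‖f‖` for `r ≤ 1/2` (`comp_vy_left`, geometric series) -/
lemma nrm_vy {r : ℝ} (hr : 0 < r) (hr2 : r ≤ 1 / 2) {n : ℕ} (hn : 0 < n) {f : Sym d} (hf : BD n f)
    (j : Fin d) : nrm (wn r n) (comp (vy j) f) ≤ ENNReal.ofReal (4 * r) * nrm (wn r n) f := by
  rw [comp_vy_left j hf]
  refine (nrm_sum_le _ _ _).trans ?_
  have h1 : ∀ k ∈ Finset.range (n + 1), nrm (wn r n) ((-1 : ℂ) ^ k •
      (vy j * (vs ^ k * (B none)^[k] f) + vs * B (some j) (vs ^ k * (B none)^[k] f))) ≤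
      ENNReal.ofReal (2 * r * r ^ k) * nrm (wn r n) f := by
    intro k _
    obtain ⟨h2, h3⟩ := gq3_pow hr hn hf k
    rw [nrm_smul]
    have h4 : ‖(-1 : ℂ) ^ k‖₊ = 1 := by rw [nnnorm_pow, nnnorm_neg, nnnorm_one, one_pow]
    rw [h4, ENNReal.coe_one, one_mul]
    refine (nrm_add_le _ _ _).trans ?_
    calc nrm (wn r n) (vy j * (vs ^ k * (B none)^[k] f)) +
          nrm (wn r n) (vs * B (some j) (vs ^ k * (B none)^[k] f))
        ≤ ENNReal.ofReal r * (ENNReal.ofReal (r ^ k) * nrm (wn r n) f) +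
          ENNReal.ofReal r * (ENNReal.ofReal (r ^ k) * nrm (wn r n) f) := by
          refine add_le_add ?_ ?_
          · refine (nrm_vmul hr n _ (.y j)).trans ?_
            gcongr
          · refine (nrm_sB hr hn h3 (some j)).trans ?_
            gcongr
      _ = _ := by
          rw [← mul_assoc, ← ENNReal.ofReal_mul hr.le, ← add_mul,
            ← ENNReal.ofReal_add (by positivity) (by positivity)]
          congr 2
          ring
  refine (Finset.sum_le_sum h1).trans ?_
  rw [← Finset.sum_mul, ← ENNReal.ofReal_sum_of_nonneg (fun _ _ => by positivity)]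
  gcongr
  rw [← Finset.mul_sum]
  have h5 : ∑ k ∈ Finset.range (n + 1), r ^ k ≤ 2 := by
    have h6 := geom_sum_eq (by linarith : r ≠ 1) (n + 1)
    rw [h6, div_le_iff_of_neg (by linarith)]
    have h7 : 0 < r ^ (n + 1) := by positivity
    linarith
  nlinarith

/-! ## row g4: the product of the operators -/

/-- a bound for the entries of `a` -/
noncomputable def Ca (a : Matrix (Fin d) (Fin d) ℂ) : ℝ := 1 + 16 * ∑ i, ∑ j, ‖a i j‖

private lemma g4_nn (c : ℂ) : ENNReal.ofReal ‖c‖ = (‖c‖₊ : ℝ≥0∞) := by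
  rw [← coe_nnnorm, ENNReal.ofReal_coe_nnreal]

private lemma g4_Ca (a : Matrix (Fin d) (Fin d) ℂ) : 0 < Ca a := by
  have : 0 ≤ ∑ i, ∑ j, ‖a i j‖ := Finset.sum_nonneg fun i _ => Finset.sum_nonneg fun j _ =>
    norm_nonneg _
  rw [Ca]
  linarith

private lemma g4_sum {κ : Type} (s : Finset κ) (f : κ → Sym d) (g : Sym d) :
    comp (∑ k ∈ s, f k) g = ∑ k ∈ s, comp (f k) g := by
  classical
  induction s using Finset.induction_on with
  | empty => rw [Finset.sum_empty, Finset.sum_empty, comp_zero_left]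
  | insert k s hk ih => rw [Finset.sum_insert hk, Finset.sum_insert hk, comp_add_left, ih]

private lemma g4_Xi (a : Matrix (Fin d) (Fin d) ℂ) (i : Fin d) (f : Sym d) :
    comp (vx i + ∑ j, a i j • vy j) f = vx i * f + ∑ j, a i j • comp (vy j) f := by
  rw [comp_add_left, comp_vx_left, g4_sum]
  simp only [comp_smul_left]

private lemma g4_Ti (a : Matrix (Fin d) (Fin d) ℂ) (f : Sym d) :
    comp (vt - (1 / 2 : ℂ) • ∑ i, ∑ j, a i j • (vy i * vy j)) f
      = vt * f - (1 / 2 : ℂ) • ∑ i, ∑ j, a i j • comp (vy i) (comp (vy j) f) := by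
  have h : ∀ i j : Fin d, comp (vy i * vy j) f = comp (vy i) (comp (vy j) f) := by
    intro i j
    rw [← comp_vy_right, comp_assoc]
  rw [sub_eq_add_neg, ← neg_one_smul ℂ, comp_add_left, comp_vt_left, comp_smul_left,
    comp_smul_left, g4_sum]
  simp only [g4_sum, comp_smul_left, h]
  rw [neg_one_smul, sub_eq_add_neg]

private lemma g4_bdeg_add (m m' : Option (Var d) →₀ ℕ) : bdeg (m + m') = bdeg m + bdeg m' := by
  simp only [bdeg, Finsupp.add_apply, Finset.sum_add_distrib]
  ring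

private lemma g4_ydeg_add (m m' : Option (Var d) →₀ ℕ) : ydeg (m + m') = ydeg m + ydeg m' := by
  simp only [ydeg, Finsupp.add_apply, Finset.sum_add_distrib]

private lemma g4_bdeg_x (i : Fin d) :
    bdeg (Finsupp.single (some (Var.x i)) 1 : Option (Var d) →₀ ℕ) = 1 := by
  classical
  simp [bdeg, Finsupp.single_apply]

private lemma g4_bdeg_t :
    bdeg (Finsupp.single (some Var.t) 1 : Option (Var d) →₀ ℕ) = 1 := by
  classical
  simp [bdeg]

private lemma g4_bdeg_le (v : Var d) :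
    bdeg (Finsupp.single (some v) 1 : Option (Var d) →₀ ℕ) ≤ 1 := by
  classical
  cases v with
  | x i => rw [g4_bdeg_x]
  | t => rw [g4_bdeg_t]
  | y i => simp [bdeg]

private lemma g4_BD_X {k : ℕ} {f : Sym d} (hf : BD k f) (v : Var d) :
    BD (k + 1) (X (some v) * f) := by
  classical
  intro m hm
  rw [X_def, coeff_monomial_mul]
  split_ifs with h
  · obtain ⟨m', rfl⟩ := le_iff_exists_add.1 h
    rw [add_tsub_cancel_left, hf m', mul_zero]
    rw [g4_bdeg_add] at hm
    have := g4_bdeg_le v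
    omega
  · rfl

/-- `‖X_i ∘ f‖ ≤ C r ‖f‖`, `X_i = x_i + ∑ a_ij y_j` -/
lemma nrm_Xi (a : Matrix (Fin d) (Fin d) ℂ) {r : ℝ} (hr : 0 < r) (hr2 : r ≤ 1 / 2) {n : ℕ}
    (hn : 0 < n) {f : Sym d} (hf : BD n f) (i : Fin d) :
    nrm (wn r n) (comp (vx i + ∑ j, a i j • vy j) f) ≤ ENNReal.ofReal (Ca a * r) * nrm (wn r n) f := by
  rw [g4_Xi]
  refine (nrm_add_le _ _ _).trans ?_
  have h1 : nrm (wn r n) (vx i * f) ≤ ENNReal.ofReal r * nrm (wn r n) f := nrm_vmul hr n f _
  have h2 : nrm (wn r n) (∑ j, a i j • comp (vy j) f)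
      ≤ ENNReal.ofReal (∑ j, ‖a i j‖ * (4 * r)) * nrm (wn r n) f := by
    refine (nrm_sum_le _ _ _).trans ?_
    rw [ENNReal.ofReal_sum_of_nonneg fun j _ => by positivity, Finset.sum_mul]
    refine Finset.sum_le_sum fun j _ => ?_
    rw [nrm_smul, ENNReal.ofReal_mul (norm_nonneg _), g4_nn, mul_assoc]
    exact mul_le_mul_right (nrm_vy hr hr2 hn hf j) _
  refine (add_le_add h1 h2).trans ?_
  rw [← add_mul, ← ENNReal.ofReal_add hr.le (Finset.sum_nonneg fun j _ => by positivity)]
  refine mul_le_mul_left (ENNReal.ofReal_le_ofReal ?_) _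
  have h3 : ∑ j, ‖a i j‖ ≤ ∑ i, ∑ j, ‖a i j‖ :=
    Finset.single_le_sum (f := fun i => ∑ j, ‖a i j‖)
      (fun i _ => Finset.sum_nonneg fun j _ => norm_nonneg _) (Finset.mem_univ i)
  have h4 : 0 ≤ ∑ j, ‖a i j‖ := Finset.sum_nonneg fun j _ => norm_nonneg _
  rw [← Finset.sum_mul, Ca]
  nlinarith [mul_nonneg hr.le h4, mul_le_mul_of_nonneg_left h3 hr.le]

/-- `‖T ∘ f‖ ≤ C r ‖f‖`, `T = t - (1/2) ∑ a_ij y_i y_j` -/
lemma nrm_Ti (a : Matrix (Fin d) (Fin d) ℂ) {r : ℝ} (hr : 0 < r) (hr2 : r ≤ 1 / 2) {n : ℕ}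
    (hn : 0 < n) {f : Sym d} (hf : BD n f) :
    nrm (wn r n) (comp (vt - (1 / 2 : ℂ) • ∑ i, ∑ j, a i j • (vy i * vy j)) f)
      ≤ ENNReal.ofReal (Ca a * r) * nrm (wn r n) f := by
  rw [g4_Ti]
  refine (nrm_sub_le _ _ _).trans ?_
  have h1 : nrm (wn r n) (vt * f) ≤ ENNReal.ofReal r * nrm (wn r n) f := nrm_vmul hr n f _
  have h2 : nrm (wn r n) ((1 / 2 : ℂ) • ∑ i, ∑ j, a i j • comp (vy i) (comp (vy j) f))
      ≤ ENNReal.ofReal (∑ i, ∑ j, ‖a i j‖ * (16 * r)) * nrm (wn r n) f := by
    have h0 : nrm (wn r n) ((1 / 2 : ℂ) • ∑ i, ∑ j, a i j • comp (vy i) (comp (vy j) f))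
        ≤ nrm (wn r n) (∑ i, ∑ j, a i j • comp (vy i) (comp (vy j) f)) := by
      rw [nrm_smul]
      refine (mul_le_mul_left (c := (1 : ℝ≥0∞)) ?_ _).trans (one_mul _).le
      rw [← g4_nn, ← ENNReal.ofReal_one]
      exact ENNReal.ofReal_le_ofReal (by norm_num)
    refine h0.trans ((nrm_sum_le _ _ _).trans ?_)
    rw [ENNReal.ofReal_sum_of_nonneg fun i _ => Finset.sum_nonneg fun j _ => by positivity,
      Finset.sum_mul]
    refine Finset.sum_le_sum fun i _ => (nrm_sum_le _ _ _).trans ?_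
    rw [ENNReal.ofReal_sum_of_nonneg fun j _ => by positivity, Finset.sum_mul]
    refine Finset.sum_le_sum fun j _ => ?_
    rw [nrm_smul, ENNReal.ofReal_mul (norm_nonneg _), g4_nn, mul_assoc]
    refine mul_le_mul_right ((nrm_vy hr hr2 hn (hf.comp_vy j) i).trans ?_) _
    refine (mul_le_mul_right (nrm_vy hr hr2 hn hf j) _).trans ?_
    rw [← mul_assoc, ← ENNReal.ofReal_mul (by positivity)]
    refine mul_le_mul_left (ENNReal.ofReal_le_ofReal ?_) _
    nlinarith
  refine (add_le_add h1 h2).trans ?_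
  rw [← add_mul, ← ENNReal.ofReal_add hr.le
    (Finset.sum_nonneg fun i _ => Finset.sum_nonneg fun j _ => by positivity)]
  refine mul_le_mul_left (ENNReal.ofReal_le_ofReal (le_of_eq ?_)) _
  simp only [← Finset.sum_mul, Ca]
  ring

/-- The image `H` of a monomial of degree `n` in `x`, `t`: `‖H‖ ≤ (C r)^n`, base degree `≤ n`
(induction on the degree: remove one variable, `expo_comp`, `comp_eq_mul_left`). -/
theorem nrm_H {a : Matrix (Fin d) (Fin d) ℂ} (ha : ∀ i j, a i j = a j i) {r : ℝ} (hr : 0 < r)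
    (hr2 : r ≤ 1 / 2) {n : ℕ} (hn : 0 < n) (m : Option (Var d) →₀ ℕ) (hm : bdeg m ≤ n)
    (hy : ydeg m = 0) (hs : m none = 0) :
    nrm (wn r n) (expo (shN a) (monomial m 1)) ≤ ENNReal.ofReal ((Ca a * r) ^ bdeg m) ∧
      BD (bdeg m) (expo (shN a) (monomial m 1)) := by
  classical
  have hC : 0 < Ca a * r := mul_pos (g4_Ca a) hr
  have key : ∀ k : ℕ, k ≤ n → ∀ m : Option (Var d) →₀ ℕ, bdeg m = k → ydeg m = 0 → m none = 0 →
      nrm (wn r n) (expo (shN a) (monomial m 1)) ≤ ENNReal.ofReal ((Ca a * r) ^ k) ∧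
        BD k (expo (shN a) (monomial m 1)) := by
    intro k
    induction k with
    | zero =>
      intro _ m hb hy hs
      have h0 : m = 0 := by
        have h := degree_eq m
        rw [hb, hy, hs] at h
        exact (Finsupp.degree_eq_zero_iff m).1 h
      subst h0
      rw [MvPowerSeries.monomial_zero_one, expo_of_zero (WD.one (wd_shN ha))]
      constructor
      · rw [← MvPowerSeries.monomial_zero_one, nrm_monomial, pow_zero]
        simp [wn, bdeg, ydeg]
      · intro m hm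
        rw [coeff_one, if_neg]
        rintro rfl
        simp [bdeg] at hm
    | succ k ih =>
      intro hk m hb hy hs
      by_cases hx : ∃ i, m (some (.x i)) ≠ 0
      · obtain ⟨i, hi⟩ := hx
        obtain ⟨m', hm'⟩ : ∃ m', m = Finsupp.single (some (Var.x i)) 1 + m' :=
          ⟨m - Finsupp.single (some (Var.x i)) 1, (add_tsub_cancel_of_le
            (Finsupp.single_le_iff.2 (Nat.one_le_iff_ne_zero.2 hi))).symm⟩
        obtain ⟨h1, h2⟩ := ih (by omega) m'
          (by rw [hm', g4_bdeg_add, g4_bdeg_x] at hb; omega)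
          (by rw [hm', g4_ydeg_add] at hy; omega)
          (by rw [hm', Finsupp.add_apply] at hs; omega)
        have e : (monomial m 1 : Sym d) = comp (vx i) (monomial m' 1) := by
          rw [comp_vx_left, hm', vx, X_def, monomial_mul_monomial, mul_one]
        rw [e, expo_comp (wd_shN ha), expo_sh_vx]
        constructor
        · refine (nrm_Xi a hr hr2 hn (h2.mono (by omega)) i).trans ?_
          rw [pow_succ', ENNReal.ofReal_mul hC.le]
          exact mul_le_mul_right h1 _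
        · rw [g4_Xi]
          exact (g4_BD_X h2 _).add (BD.sum _ fun j _ => ((h2.comp_vy j).mono (by omega)).smul _)
      · push Not at hx
        have ht : m (some .t) ≠ 0 := by
          intro h
          simp [bdeg, hx, h] at hb
        obtain ⟨m', hm'⟩ : ∃ m', m = Finsupp.single (some Var.t) 1 + m' :=
          ⟨m - Finsupp.single (some Var.t) 1, (add_tsub_cancel_of_le
            (Finsupp.single_le_iff.2 (Nat.one_le_iff_ne_zero.2 ht))).symm⟩
        obtain ⟨h1, h2⟩ := ih (by omega) m'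
          (by rw [hm', g4_bdeg_add, g4_bdeg_t] at hb; omega)
          (by rw [hm', g4_ydeg_add] at hy; omega)
          (by rw [hm', Finsupp.add_apply] at hs; omega)
        have e : (monomial m 1 : Sym d) = comp vt (monomial m' 1) := by
          rw [comp_vt_left, hm', vt, X_def, monomial_mul_monomial, mul_one]
        rw [e, expo_comp (wd_shN ha), expo_sh_vt]
        constructor
        · refine (nrm_Ti a hr hr2 hn (h2.mono (by omega))).trans ?_
          rw [pow_succ', ENNReal.ofReal_mul hC.le]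
          exact mul_le_mul_right h1 _
        · rw [g4_Ti, sub_eq_add_neg, ← neg_one_smul ℂ]
          exact (g4_BD_X h2 _).add (BD.smul (BD.smul (BD.sum _ fun i _ => BD.sum _ fun j _ =>
            (((h2.comp_vy j).comp_vy i).mono (by omega)).smul _) _) _)
  exact key _ hm m rfl hy hs

/-! ## row g5: conclusion for the shear -/

private lemma g5_shift (w : (Option (Var d) →₀ ℕ) → ℝ≥0∞) (f : Sym d)
    (m2 : Option (Var d) →₀ ℕ) :
    nrm w (f * monomial m2 1) = nrm (fun M => w (M + m2)) f := by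
  classical
  have he : Function.Injective (fun M : Option (Var d) →₀ ℕ => M + m2) := add_left_injective m2
  have h := he.tsum_eq (f := fun m => (‖coeff m (f * monomial m2 1)‖₊ : ℝ≥0∞) * w m) (by
    intro m hm
    by_contra hne
    refine hm ?_
    simp only
    rw [coeff_mul_monomial, if_neg, nnnorm_zero, ENNReal.coe_zero, zero_mul]
    intro hle
    exact hne ⟨m - m2, tsub_add_cancel_of_le hle⟩)
  rw [nrm, nrm, ← h]
  refine tsum_congr fun M => ?_
  rw [coeff_add_mul_monomial, mul_one]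

private lemma g5_nrm_smul (c : ℝ≥0∞) (w : (Option (Var d) →₀ ℕ) → ℝ≥0∞) (f : Sym d) :
    nrm (fun M => c * w M) f = c * nrm w f := by
  rw [nrm, nrm, ← ENNReal.tsum_mul_left]
  refine tsum_congr fun M => ?_
  ring

private lemma g5_B {m : Option (Var d) →₀ ℕ} (hx : ∀ i, m (some (.x i)) = 0)
    (ht : m (some .t) = 0) (i : Option (Fin d)) : B i (monomial m (1 : ℂ)) = 0 := by
  classical
  have h : ∀ v : Option (Var d), m v = 0 → pderiv ℂ v (monomial m (1 : ℂ)) = 0 := by
    intro v hv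
    ext k
    rw [coeff_pderiv, coeff_monomial, if_neg, zero_mul, coeff_zero]
    intro hk
    have h1 := DFunLike.congr_fun hk v
    rw [Finsupp.add_apply, Finsupp.single_eq_same, hv] at h1
    omega
  rcases i with _ | i
  · exact h _ ht
  · exact h _ (hx i)

/-- the `x`, `t`-part -/
private noncomputable def g5_fst (m : Option (Var d) →₀ ℕ) : Option (Var d) →₀ ℕ :=
  Finsupp.equivFunOnFinite.symm fun v => match v with
    | some (.x i) => m (some (.x i))
    | some .t => m (some .t)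
    | some (.y _) => 0
    | none => 0

/-- the `y`, `s`-part -/
private noncomputable def g5_snd (m : Option (Var d) →₀ ℕ) : Option (Var d) →₀ ℕ :=
  Finsupp.equivFunOnFinite.symm fun v => match v with
    | some (.x _) => 0
    | some .t => 0
    | some (.y i) => m (some (.y i))
    | none => m none

private lemma g5_add (m : Option (Var d) →₀ ℕ) : g5_fst m + g5_snd m = m := by
  ext v
  rw [Finsupp.add_apply]
  rcases v with _ | (i | _ | i)
  · exact Nat.zero_add _
  · exact Nat.add_zero _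
  · exact Nat.add_zero _
  · exact Nat.zero_add _

private lemma g5_bdeg (m : Option (Var d) →₀ ℕ) : bdeg (g5_fst m) = bdeg m := rfl

private lemma g5_ydeg (m : Option (Var d) →₀ ℕ) : ydeg (g5_fst m) = 0 :=
  Finset.sum_eq_zero fun _ _ => rfl

/-- `r^(2k) / k! ≤ e^n (r²/n)^k` -/
private lemma g5_real {r A T T' : ℝ} (hr : 0 < r) (hr1 : r ≤ 1) (hA : 0 ≤ A) (hT' : 0 ≤ T')
    {n k q : ℕ} (hn : 0 < n) (hTT : T' * (k.factorial : ℝ) ≤ T) :
    (r ^ 2) ^ (q + k) * A * T' ≤ A * T * Real.exp 1 ^ n * (r ^ q * (r ^ 2 / n) ^ k) := by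
  have hn' : (0 : ℝ) < n := Nat.cast_pos.2 hn
  have hk : (0 : ℝ) < k.factorial := Nat.cast_pos.2 (Nat.factorial_pos k)
  have h1 : (n : ℝ) ^ k / k.factorial ≤ Real.exp 1 ^ n := by
    have h2 := Real.pow_div_factorial_le_exp (x := (n : ℝ)) hn'.le k
    rwa [← mul_one (n : ℝ), Real.exp_nat_mul, mul_one] at h2
  have h3 : (r ^ 2) ^ q ≤ r ^ q :=
    pow_le_pow_left₀ (by positivity) (by nlinarith) q
  have hT : 0 ≤ T := le_trans (by positivity) hTT
  have h4 : T' ≤ T * (Real.exp 1 ^ n / (n : ℝ) ^ k) := by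
    have h5 : T' ≤ T / k.factorial := (le_div_iff₀ hk).2 hTT
    have h6 : T / k.factorial ≤ T * (Real.exp 1 ^ n / (n : ℝ) ^ k) := by
      rw [div_eq_mul_inv]
      refine mul_le_mul_of_nonneg_left ?_ hT
      rw [le_div_iff₀ (by positivity)]
      calc ((k.factorial : ℝ))⁻¹ * (n : ℝ) ^ k = (n : ℝ) ^ k / k.factorial := by
            rw [div_eq_mul_inv, mul_comm]
        _ ≤ _ := h1
    exact h5.trans h6
  calc (r ^ 2) ^ (q + k) * A * T' = (r ^ 2) ^ q * ((r ^ 2) ^ k * A) * T' := by rw [pow_add]; ring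
    _ ≤ r ^ q * ((r ^ 2) ^ k * A) * (T * (Real.exp 1 ^ n / (n : ℝ) ^ k)) := by
        refine mul_le_mul (mul_le_mul_of_nonneg_right h3 (by positivity)) h4 hT' (by positivity)
    _ = A * T * Real.exp 1 ^ n * (r ^ q * (r ^ 2 / n) ^ k) := by
        rw [div_pow]
        ring

/-- `r^(2k) / k! ≤ e^n (r²/n)^k` -/
theorem nrm_sh {a : Matrix (Fin d) (Fin d) ℂ} (ha : ∀ i j, a i j = a j i) {ρ : ℝ} (hρ : 0 < ρ) :
    ∃ ρ' : ℝ, 0 < ρ' ∧ ρ' ≤ ρ ∧ ∀ τ τ' : ℕ → ℝ, (∀ e, 0 < τ e) → (∀ e, 0 < τ' e) →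
      (∀ e e', τ' (e + e') * (e'.factorial : ℝ) ≤ τ e) → ∀ m : Option (Var d) →₀ ℕ,
        nrm (wt ρ' τ') (expo (shN a) (monomial m 1)) ≤ wt ρ τ m := by
  have hCa : 1 ≤ Ca a := by
    have h1 : 0 ≤ ∑ i, ∑ j, ‖a i j‖ :=
      Finset.sum_nonneg fun i _ => Finset.sum_nonneg fun j _ => norm_nonneg _
    rw [Ca]
    linarith
  set r : ℝ := min (1 / 2) (ρ / (3 * Ca a)) with hr'
  have hr : 0 < r := lt_min (by norm_num) (by positivity)
  have hr2 : r ≤ 1 / 2 := min_le_left _ _
  have hr3 : r ≤ ρ / (3 * Ca a) := min_le_right _ _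
  have hr4 : Ca a * r * 3 ≤ ρ := by
    have h1 := (le_div_iff₀ (by positivity)).1 hr3
    linarith
  have hrr : r ≤ ρ := by nlinarith
  have hr5 : r ^ 2 ≤ ρ := by nlinarith
  have he : Real.exp 1 ≤ 3 := by
    have := Real.exp_one_lt_d9
    linarith
  refine ⟨r ^ 2, by positivity, hr5, ?_⟩
  intro τ τ' hτ hτ' hττ m
  by_cases hn : bdeg m = 0
  · have h0 : ∀ i, B i (monomial m (1 : ℂ)) = 0 := by
      rw [bdeg, Nat.add_eq_zero_iff, Finset.sum_eq_zero_iff] at hn
      exact g5_B (fun i => hn.1 i (Finset.mem_univ i)) hn.2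
    rw [expo_sh_of_B a h0, nrm_monomial, nnnorm_one, ENNReal.coe_one, one_mul, wt, wt]
    refine ENNReal.ofReal_le_ofReal ?_
    have h1 := hττ (m none) 0
    rw [add_zero, Nat.factorial_zero, Nat.cast_one, mul_one] at h1
    exact mul_le_mul (pow_le_pow_left₀ (by positivity) hr5 _) h1 (hτ' _).le (by positivity)
  · have hn' : 0 < bdeg m := Nat.pos_of_ne_zero hn
    have h0 : ∀ i, B i (monomial (g5_snd m) (1 : ℂ)) = 0 := g5_B (fun i => rfl) rfl
    obtain ⟨hH, -⟩ := nrm_H ha hr hr2 hn' (g5_fst m) (le_of_eq (g5_bdeg m)) (g5_ydeg m) rfl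
    have hsplit : expo (shN a) (monomial m 1) =
        expo (shN a) (monomial (g5_fst m) 1) * monomial (g5_snd m) 1 := by
      have h1 := monomial_comp (g5_fst m) (g5_snd m) ⟨fun i => rfl, rfl⟩
      rw [g5_add] at h1
      rw [← h1, expo_comp (wd_shN ha), expo_sh_of_B a h0, comp_eq_mul_right h0]
    rw [hsplit, g5_shift]
    have hw : ∀ M : Option (Var d) →₀ ℕ, wt (r ^ 2) τ' (M + g5_snd m) ≤
        ENNReal.ofReal ((r ^ 2) ^ (g5_snd m).degree * τ (m none) * Real.exp 1 ^ bdeg m) *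
          wn r (bdeg m) M := by
      intro M
      rw [wt, wn, ← ENNReal.ofReal_mul (by have := (hτ (m none)).le; positivity)]
      refine ENNReal.ofReal_le_ofReal ?_
      have h1 : (M + g5_snd m) none = m none + M none := by
        rw [Finsupp.add_apply, add_comm]
        rfl
      have h2 : (M + g5_snd m).degree = (bdeg M + ydeg M + M none) + (g5_snd m).degree := by
        rw [map_add, degree_eq M]
      rw [h1, h2, pow_add (r ^ 2)]
      exact g5_real hr (by linarith) (by positivity) (hτ' _).le hn' (hττ (m none) (M none))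
    refine (nrm_mono_w _ hw _).trans ?_
    rw [g5_nrm_smul]
    refine (mul_le_mul_right hH _).trans ?_
    rw [← ENNReal.ofReal_mul (by have := (hτ (m none)).le; positivity), wt, g5_bdeg]
    refine ENNReal.ofReal_le_ofReal ?_
    have hdeg : m.degree = (g5_snd m).degree + bdeg m := by
      conv_lhs => rw [← g5_add m]
      rw [map_add, degree_eq (g5_fst m), g5_bdeg, g5_ydeg]
      show bdeg m + 0 + 0 + _ = _
      ring
    have h6 : (r ^ 2) ^ (g5_snd m).degree ≤ ρ ^ (g5_snd m).degree :=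
      pow_le_pow_left₀ (by positivity) hr5 _
    have h7 : (Real.exp 1 * (Ca a * r)) ^ bdeg m ≤ ρ ^ bdeg m := by
      refine pow_le_pow_left₀ (by positivity) ?_ _
      nlinarith [mul_pos (lt_of_lt_of_le one_pos hCa) hr]
    have hT := (hτ (m none)).le
    calc (r ^ 2) ^ (g5_snd m).degree * τ (m none) * Real.exp 1 ^ bdeg m * (Ca a * r) ^ bdeg m
        = (r ^ 2) ^ (g5_snd m).degree * (Real.exp 1 * (Ca a * r)) ^ bdeg m * τ (m none) := by
          rw [mul_pow (Real.exp 1)]
          ring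
      _ ≤ ρ ^ (g5_snd m).degree * ρ ^ bdeg m * τ (m none) :=
          mul_le_mul_of_nonneg_right (mul_le_mul h6 h7 (by positivity) (by positivity)) hT
      _ = ρ ^ m.degree * τ (m none) := by rw [hdeg, pow_add]

/-! ## row g6: the automorphisms preserve the growth conditions -/

theorem isMicro_sh {a : Matrix (Fin d) (Fin d) ℂ} (ha : ∀ i j, a i j = a j i) {f : Sym d}
    (hf : IsMicro f) : IsMicro (expo (shN a) f) := by
  obtain ⟨ρ, hρ, h⟩ := (isMicro_iff f).1 hf
  obtain ⟨ρ', hρ', _, h'⟩ := nrm_sh ha hρ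
  refine (isMicro_iff _).2 ⟨ρ', hρ', lt_of_le_of_lt (nrm_expo_le (wd_shN ha) ?_ f) h⟩
  refine h' _ _ (fun e => by positivity) (fun e => by positivity) fun e e' => ?_
  rw [one_div, one_div, inv_mul_le_iff₀ (by positivity), ← div_eq_mul_inv,
    le_div_iff₀ (by positivity), mul_comm]
  exact_mod_cast Nat.le_of_dvd (Nat.factorial_pos _) (Nat.factorial_mul_factorial_dvd_factorial_add e e')
/-- `τ' e = min_{e1 + e2 = e} τ e1 / e2!` -/
theorem isFormal_sh {a : Matrix (Fin d) (Fin d) ℂ} (ha : ∀ i j, a i j = a j i) {f : Sym d}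
    (hf : IsFormal f) : IsFormal (expo (shN a) f) := by
  obtain ⟨ρ, hρ, τ, hτ, h⟩ := (isFormal_iff f).1 hf
  obtain ⟨ρ', hρ', _, h'⟩ := nrm_sh ha hρ
  have hne : ∀ e : ℕ, (Finset.range (e + 1)).Nonempty := fun e => ⟨0, by simp⟩
  set τ' : ℕ → ℝ := fun e => (Finset.range (e + 1)).inf' (hne e)
    fun k => τ k / ((e - k).factorial : ℝ) with hτ'
  have h0 : ∀ e, 0 < τ' e := fun e =>
    (Finset.lt_inf'_iff _).2 fun k _ => div_pos (hτ k) (by positivity)
  refine (isFormal_iff _).2 ⟨ρ', hρ', τ', h0, lt_of_le_of_lt (nrm_expo_le (wd_shN ha) ?_ f) h⟩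
  refine h' _ _ hτ h0 fun e e' => ?_
  have h1 : τ' (e + e') ≤ τ e / ((e + e' - e).factorial : ℝ) :=
    Finset.inf'_le _ (Finset.mem_range.2 (by omega))
  rw [Nat.add_sub_cancel_left, le_div_iff₀ (by positivity)] at h1
  exact h1
theorem isMicro_lv (b : Fin d → ℂ) {f : Sym d} (hf : IsMicro f) : IsMicro (expo (lvN b) f) := by
  obtain ⟨ρ, hρ, h⟩ := (isMicro_iff f).1 hf
  obtain ⟨ρ', hρ', _, h'⟩ := nrm_lv hρ b
  exact (isMicro_iff _).2 ⟨ρ', hρ', lt_of_le_of_lt (nrm_expo_le (wd_lvN b)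
    (h' _ fun e => by positivity) f) h⟩
theorem isFormal_lv (b : Fin d → ℂ) {f : Sym d} (hf : IsFormal f) : IsFormal (expo (lvN b) f) := by
  obtain ⟨ρ, hρ, τ, hτ, h⟩ := (isFormal_iff f).1 hf
  obtain ⟨ρ', hρ', _, h'⟩ := nrm_lv hρ b
  exact (isFormal_iff _).2 ⟨ρ', hρ', τ, hτ, lt_of_le_of_lt (nrm_expo_le (wd_lvN b)
    (h' _ hτ) f) h⟩

end Pool.Agent.Ep
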