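import Pool.Agent.Ep.Core
import Pool.Agent.Ep.Gea
import Pool.Agent.Ep.Ged
import Pool.Agent.Stf.Prj

/-!
# Generic position: modules, holonomic modules, twisting (P11, block E, helper50)
-/

set_option autoImplicit false

namespace Pool.Agent.Ep

open MvPowerSeries IsLocalRing
open Pool.Fml (Ser SymRing formal micro)

variable {d : ℕ}

/-! ## row h1: the ring of symbols of order `0` -/

lemma isFormal_mul {f g : Sym d} (hf : IsFormal f) (hg : IsFormal g) : IsFormal (f * g) := by
  have hf' : Pool.Fml.Tame fun m => ‖coeff m f‖ := hf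
  have hg' : Pool.Fml.Tame fun m => ‖coeff m g‖ := hg
  refine Pool.Fml.Tame.conv (fun _ => norm_nonneg _) (fun _ => norm_nonneg _)
    (fun _ => norm_nonneg _) hf' hg' (c := fun m => ‖coeff m (f * g)‖) fun m => ?_
  rw [coeff_mul]
  exact (norm_sum_le _ _).trans (le_of_eq (Finset.sum_congr rfl fun p _ => norm_mul _ _))

/-- The ring `ℂ{x, t, y}` of homogeneous symbols of order `0`: convergent power series which do not
contain `s`. -/
def Gr (d : ℕ) : Subalgebra ℂ (Sym d) where
  carrier := {f | IsFormal f ∧ ∀ m, m none ≠ 0 → coeff m f = 0}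
  mul_mem' := by
    classical
    rintro f g ⟨hf, hf0⟩ ⟨hg, hg0⟩
    refine ⟨isFormal_mul hf hg, fun m hm => ?_⟩
    rw [coeff_mul]
    refine Finset.sum_eq_zero fun p hp => ?_
    rw [Finset.HasAntidiagonal.mem_antidiagonal] at hp
    by_cases h : p.1 none = 0
    · have h2 : p.2 none ≠ 0 := by
        intro h3
        apply hm
        rw [← hp, Finsupp.add_apply, h, h3]
      rw [hg0 _ h2, mul_zero]
    · rw [hf0 _ h, zero_mul]
  add_mem' := by
    rintro f g ⟨hf, hf0⟩ ⟨hg, hg0⟩
    refine ⟨isFormal_add hf hg, fun m hm => ?_⟩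
    rw [map_add, hf0 m hm, hg0 m hm, add_zero]
  algebraMap_mem' := by
    classical
    intro c
    refine ⟨isFormal_C c, fun m hm => ?_⟩
    have h : algebraMap ℂ (Sym d) c = C c := rfl
    rw [h, coeff_C, if_neg]
    rintro rfl
    exact hm rfl

lemma isMicro_gr (f : Gr d) : IsMicro (f : Sym d) := by
  obtain ⟨⟨R, hR, H⟩, h0⟩ := f.2
  obtain ⟨K, hK⟩ := H 0
  refine ⟨max |K| 1 * max R 1, fun m => ?_⟩
  have h1 : (1 : ℝ) ≤ max |K| 1 := le_max_right _ _
  have h2 : (1 : ℝ) ≤ max R 1 := le_max_right _ _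
  by_cases hm : m none = 0
  · rw [hm, Nat.factorial_zero, Nat.cast_one, mul_one]
    refine (hK m hm).trans ?_
    calc K * R ^ m.degree ≤ max |K| 1 ^ (m.degree + 1) * max R 1 ^ (m.degree + 1) := by
          refine mul_le_mul ?_ ?_ (by positivity) (by positivity)
          · exact ((le_abs_self K).trans (le_max_left _ _)).trans
              (le_self_pow₀ h1 (Nat.succ_ne_zero _))
          · exact (pow_le_pow_left₀ hR.le (le_max_left _ _) _).trans
              (pow_le_pow_right₀ h2 (Nat.le_succ _))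
      _ = (max |K| 1 * max R 1) ^ (m.degree + 1) := (mul_pow _ _ _).symm
  · rw [h0 m hm, norm_zero]
    positivity

/-- the part free of `s` -/
noncomputable def sfr (f : Sym d) : Sym d := fun m => if m none = 0 then coeff m f else 0

private lemma h1_coeff (f : Sym d) (m : Option (Var d) →₀ ℕ) :
    coeff m (sfr f) = if m none = 0 then coeff m f else 0 := rfl

lemma sfr_add (f g : Sym d) : sfr (f + g) = sfr f + sfr g := by
  ext m
  rw [map_add, h1_coeff, h1_coeff, h1_coeff, map_add]
  split_ifs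
  · rfl
  · rw [add_zero]

lemma sfr_mul (f g : Sym d) : sfr (f * g) = sfr f * sfr g := by
  classical
  ext m
  rw [h1_coeff, coeff_mul, coeff_mul]
  split_ifs with h
  · refine Finset.sum_congr rfl fun p hp => ?_
    rw [Finset.HasAntidiagonal.mem_antidiagonal] at hp
    have h2 : p.1 none + p.2 none = 0 := by rw [← Finsupp.add_apply, hp, h]
    rw [h1_coeff, h1_coeff, if_pos (by omega), if_pos (by omega)]
  · symm
    refine Finset.sum_eq_zero fun p hp => ?_
    rw [Finset.HasAntidiagonal.mem_antidiagonal] at hp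
    have h2 : p.1 none + p.2 none ≠ 0 := by rw [← Finsupp.add_apply, hp]; exact h
    rw [h1_coeff, h1_coeff]
    by_cases h1 : p.1 none = 0
    · rw [if_neg (by omega : ¬ p.2 none = 0), mul_zero]
    · rw [if_neg h1, zero_mul]

lemma sfr_comp (f g : Sym d) : sfr (comp f g) = sfr f * sfr g := by
  rw [← sfr_mul]
  ext m
  rw [h1_coeff, h1_coeff]
  split_ifs with h
  · rw [coeff_comp, h, zero_add, Finset.sum_range_one]
    rfl
  · rfl

lemma sfr_one : sfr (1 : Sym d) = 1 := by
  classical
  ext m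
  rw [h1_coeff, coeff_one]
  by_cases h : m = 0
  · subst h; simp
  · simp [h]

lemma sfr_gr (f : Gr d) : sfr (f : Sym d) = f := by
  ext m
  rw [h1_coeff]
  split_ifs with h
  · rfl
  · exact (f.2.2 m h).symm

lemma sfr_vs_mul (f : Sym d) : sfr (comp vs f) = 0 := by
  classical
  have h : sfr (vs : Sym d) = 0 := by
    ext m
    rw [h1_coeff, map_zero, vs, coeff_X]
    split_ifs with h1 h2
    · rw [h2, Finsupp.single_eq_same] at h1
      exact absurd h1 one_ne_zero
    · rfl
    · rfl
  rw [sfr_comp, h, zero_mul]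

lemma sfr_formal {f : Sym d} (hf : IsFormal f) : sfr f ∈ Gr d := by
  refine ⟨?_, fun m hm => by rw [h1_coeff, if_neg hm]⟩
  obtain ⟨R, hR, H⟩ := hf
  refine ⟨R, hR, fun j => ?_⟩
  obtain ⟨K, hK⟩ := H j
  refine ⟨K, fun m hm => ?_⟩
  refine le_trans ?_ (hK m hm)
  rw [h1_coeff]
  split_ifs
  · exact le_rfl
  · rw [norm_zero]
    exact norm_nonneg _

/-- the variables as elements of `Gr d` -/
noncomputable def gv (v : Var d) : Gr d := ⟨X (some v), by
  classical
  refine ⟨isFormal_X _, fun m hm => ?_⟩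
  rw [coeff_X, if_neg]
  rintro rfl
  exact hm (Finsupp.single_eq_of_ne (by simp))⟩

/-! ## row h2: algebraic properties of `Gr d` -/

private def h2_sum (d : ℕ) : Var d ≃ (Fin d ⊕ Unit) ⊕ Fin d where
  toFun
    | .x i => .inl (.inl i)
    | .t => .inl (.inr ())
    | .y i => .inr i
  invFun
    | .inl (.inl i) => .x i
    | .inl (.inr _) => .t
    | .inr i => .y i
  left_inv v := by cases v <;> rfl
  right_inv v := by rcases v with (i | _) | i <;> rfl

private noncomputable def h2_e (d : ℕ) : Fin (2 * d + 1) ≃ Var d :=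
  Fintype.equivOfCardEq (by
    rw [Fintype.card_congr (h2_sum d)]
    simp only [Fintype.card_sum, Fintype.card_fin, Fintype.card_unit]
    omega)

private noncomputable def h2_E (d : ℕ) : Option (Fin (2 * d + 1)) ≃ Option (Var d) :=
  Equiv.optionCongr (h2_e d)

private noncomputable def h2_R (d : ℕ) : Ser (2 * d + 1) ≃ₐ[ℂ] Sym d := renameEquiv ℂ (h2_E d)

private lemma h2_coeff (f : Ser (2 * d + 1)) (m : Option (Fin (2 * d + 1)) →₀ ℕ) :
    coeff (m.embDomain (h2_E d).toEmbedding) (h2_R d f) = coeff m f :=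
  coeff_embDomain_rename (h2_E d).toEmbedding f m

private lemma h2_none (m : Option (Fin (2 * d + 1)) →₀ ℕ) :
    (m.embDomain (h2_E d).toEmbedding) none = m none :=
  Finsupp.embDomain_apply_self (h2_E d).toEmbedding m none

private lemma h2_deg (m : Option (Fin (2 * d + 1)) →₀ ℕ) :
    (m.embDomain (h2_E d).toEmbedding).degree = m.degree := by
  rw [Finsupp.degree_eq_sum, Finsupp.degree_eq_sum, ← (h2_E d).sum_comp]
  exact Finset.sum_congr rfl fun i _ => Finsupp.embDomain_apply_self (h2_E d).toEmbedding m i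

private lemma h2_emb (m : Option (Var d) →₀ ℕ) :
    ∃ m' : Option (Fin (2 * d + 1)) →₀ ℕ, m'.embDomain (h2_E d).toEmbedding = m := by
  refine ⟨m.equivMapDomain (h2_E d).symm, ?_⟩
  ext v
  obtain ⟨i, rfl⟩ := (h2_E d).surjective v
  have h := Finsupp.embDomain_apply_self (h2_E d).toEmbedding (m.equivMapDomain (h2_E d).symm) i
  rw [show (h2_E d) i = (h2_E d).toEmbedding i from rfl, h, Finsupp.equivMapDomain_apply]
  rfl

private lemma h2_formal (f : Ser (2 * d + 1)) : IsFormal (h2_R d f) ↔ Pool.Fml.IsFormal f := by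
  constructor
  · rintro ⟨R, hR, H⟩
    refine ⟨R, hR, fun j => ?_⟩
    obtain ⟨C, hC⟩ := H j
    refine ⟨C, fun m hm => ?_⟩
    have h := hC (m.embDomain (h2_E d).toEmbedding) (by rw [h2_none, hm])
    rwa [h2_coeff, h2_deg] at h
  · rintro ⟨R, hR, H⟩
    refine ⟨R, hR, fun j => ?_⟩
    obtain ⟨C, hC⟩ := H j
    refine ⟨C, fun m hm => ?_⟩
    obtain ⟨m', rfl⟩ := h2_emb m
    rw [h2_coeff, h2_deg]
    exact hC m' (by rw [← h2_none, hm])

private lemma h2_zero : sfr (0 : Sym d) = 0 := by
  ext m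
  show (if m none = 0 then coeff m (0 : Sym d) else 0) = _
  simp

private lemma h2_pres (d : ℕ) : ∃ φ : (formal (2 * d + 1)).alg →+* Gr d, Function.Surjective φ ∧
    ∀ f, coeff 0 (φ f : Sym d) = coeff 0 (f : Ser (2 * d + 1)) := by
  let φ : (formal (2 * d + 1)).alg →+* Gr d :=
    { toFun := fun f => ⟨sfr (h2_R d f), sfr_formal ((h2_formal _).2 f.2)⟩
      map_one' := by
        refine Subtype.ext ?_
        show sfr (h2_R d 1) = 1
        rw [map_one, sfr_one]
      map_mul' := fun f g => by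
        refine Subtype.ext ?_
        show sfr (h2_R d ((f : Ser (2 * d + 1)) * (g : Ser (2 * d + 1)))) = _
        rw [map_mul, sfr_mul]
        rfl
      map_zero' := by
        refine Subtype.ext ?_
        show sfr (h2_R d 0) = 0
        rw [map_zero, h2_zero]
      map_add' := fun f g => by
        refine Subtype.ext ?_
        show sfr (h2_R d ((f : Ser (2 * d + 1)) + (g : Ser (2 * d + 1)))) = _
        rw [map_add, sfr_add]
        rfl }
  refine ⟨φ, fun g => ?_, fun f => ?_⟩
  · refine ⟨⟨(h2_R d).symm (g : Sym d), ?_⟩, ?_⟩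
    · have h1 : IsFormal (h2_R d ((h2_R d).symm (g : Sym d))) := by
        rw [AlgEquiv.apply_symm_apply]
        exact g.2.1
      exact (h2_formal _).1 h1
    · refine Subtype.ext ?_
      show sfr (h2_R d ((h2_R d).symm (g : Sym d))) = g
      rw [AlgEquiv.apply_symm_apply, sfr_gr]
  · show coeff 0 (sfr (h2_R d f)) = _
    have h1 : coeff 0 (sfr (h2_R d f)) = coeff 0 (h2_R d (f : Ser (2 * d + 1))) := by
      show (if (0 : Option (Var d) →₀ ℕ) none = 0 then coeff 0 (h2_R d (f : Ser (2 * d + 1)))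
        else 0) = _
      rw [if_pos (Finsupp.zero_apply)]
    rw [h1]
    exact constantCoeff_rename _ _

/-- set `s = 0` and rename the variables (`Fin (2 d + 1) ≃ Var d`) -/
theorem exists_pres (d : ℕ) : ∃ φ : (formal (2 * d + 1)).alg →+* Gr d, Function.Surjective φ := by
  obtain ⟨φ, h, _⟩ := h2_pres d
  exact ⟨φ, h⟩

/-- from `exists_pres` and `Pool.Agent.Stf` (noetherian, local) -/
instance : IsNoetherianRing (Gr d) := by
  obtain ⟨φ, h⟩ := exists_pres d
  have := Pool.Agent.Stf.noetherian (2 * d + 1)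
  exact isNoetherianRing_of_surjective _ _ φ h
instance : IsLocalRing (Gr d) := by
  obtain ⟨φ, h⟩ := exists_pres d
  have := Pool.Agent.Stf.isLocal (2 * d + 1)
  exact IsLocalRing.of_surjective' φ h

private lemma h2_unit (f : Gr d) : IsUnit f ↔ coeff 0 (f : Sym d) ≠ 0 := by
  constructor
  · intro h h0
    obtain ⟨g, hg⟩ := h.exists_right_inv
    have h1 : (f : Sym d) * (g : Sym d) = 1 := congrArg Subtype.val hg
    have h2 : constantCoeff (f : Sym d) = 0 := h0
    have h3 := congrArg (constantCoeff (σ := Option (Var d)) (R := ℂ)) h1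
    rw [map_mul, h2, zero_mul, map_one] at h3
    exact zero_ne_one h3
  · intro h
    obtain ⟨φ, hφ, hc⟩ := h2_pres d
    obtain ⟨F, rfl⟩ := hφ f
    rw [hc] at h
    exact ((Pool.Agent.Stf.isUnit_iff F).2 h).map φ

lemma mem_max_gr (f : Gr d) : f ∈ maximalIdeal (Gr d) ↔ coeff 0 (f : Sym d) = 0 := by
  rw [mem_maximalIdeal, mem_nonunits_iff, h2_unit, not_not]

private lemma h2_dec (f : Gr d) (h0 : coeff 0 (f : Sym d) = 0) :
    ∃ g : Var d → Gr d, f = ∑ v, gv v * g v := by
  classical
  let c : (Option (Var d) →₀ ℕ) → Var d := fun m =>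
    if h : ∃ v, m (some v) ≠ 0 then h.choose else .t
  have hc : ∀ m : Option (Var d) →₀ ℕ, (∃ v, m (some v) ≠ 0) → m (some (c m)) ≠ 0 := by
    intro m h
    show m (some (if h : ∃ v, m (some v) ≠ 0 then h.choose else .t)) ≠ 0
    rw [dif_pos h]
    exact h.choose_spec
  let G : Var d → Sym d := fun v k =>
    if c (k + Finsupp.single (some v) 1) = v then
      coeff (k + Finsupp.single (some v) 1) (f : Sym d) else 0
  have hG : ∀ v k, coeff k (G v) = if c (k + Finsupp.single (some v) 1) = v then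
      coeff (k + Finsupp.single (some v) 1) (f : Sym d) else 0 := fun v k => rfl
  have hle : ∀ v k, ‖coeff k (G v)‖ ≤ ‖coeff (k + Finsupp.single (some v) 1) (f : Sym d)‖ := by
    intro v k
    rw [hG]
    split_ifs
    · exact le_rfl
    · rw [norm_zero]
      exact norm_nonneg _
  have hmem : ∀ v, G v ∈ Gr d := by
    intro v
    refine ⟨?_, fun m hm => ?_⟩
    · obtain ⟨R, hR, H⟩ := f.2.1
      refine ⟨R, hR, fun j => ?_⟩
      obtain ⟨C, hC⟩ := H j
      refine ⟨C * R, fun m hm => (hle v m).trans ((hC _ ?_).trans (le_of_eq ?_))⟩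
      · rw [Finsupp.add_apply, hm, Finsupp.single_apply, if_neg (by simp), add_zero]
      · rw [map_add, Finsupp.degree_single, pow_add, pow_one]
        ring
    · have h1 := hle v m
      rw [f.2.2 (m + Finsupp.single (some v) 1) (by
        rw [Finsupp.add_apply]
        omega), norm_zero] at h1
      exact norm_eq_zero.1 (le_antisymm h1 (norm_nonneg _))
  refine ⟨fun v => ⟨G v, hmem v⟩, Subtype.ext ?_⟩
  rw [AddSubmonoidClass.coe_finsetSum]
  show (f : Sym d) = ∑ v, X (some v) * G v
  ext m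
  rw [map_sum]
  have hX : ∀ v, coeff m (X (some v) * G v) =
      if Finsupp.single (some v) 1 ≤ m then coeff (m - Finsupp.single (some v) 1) (G v) else 0 := by
    intro v
    rw [X, coeff_monomial_mul]
    simp only [one_mul]
  rw [Finset.sum_congr rfl fun v _ => hX v]
  by_cases h : ∃ v, m (some v) ≠ 0
  · rw [Finset.sum_eq_single (c m)]
    · have h1 : Finsupp.single (some (c m)) 1 ≤ m := by
        rw [Finsupp.single_le_iff]
        exact Nat.one_le_iff_ne_zero.2 (hc m h)
      rw [if_pos h1, hG, tsub_add_cancel_of_le h1, if_pos rfl]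
    · intro v _ hv
      split_ifs with h1
      · rw [hG, tsub_add_cancel_of_le h1, if_neg (Ne.symm hv)]
      · rfl
    · intro h1
      exact absurd (Finset.mem_univ _) h1
  · rw [Finset.sum_eq_zero]
    · by_cases hm : m none = 0
      · have h1 : m = 0 := by
          ext i
          rcases i with _ | v
          · exact hm
          · by_contra h2
            exact h ⟨v, h2⟩
        rw [h1, h0]
      · exact f.2.2 m hm
    · intro v _
      rw [if_neg]
      intro h1
      rw [Finsupp.single_le_iff] at h1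
      exact h ⟨v, Nat.one_le_iff_ne_zero.1 h1⟩

/-- the maximal ideal is generated by the variables -/
lemma max_le_gr {I : Ideal (Gr d)} (h : ∀ v, gv v ∈ I) : maximalIdeal (Gr d) ≤ I := by
  intro f hf
  obtain ⟨g, hg⟩ := h2_dec f ((mem_max_gr f).1 hf)
  rw [hg]
  exact Ideal.sum_mem _ fun v _ => I.mul_mem_right _ (h v)

/-! ## row h3: the ideal of the support of `L / s L` -/

namespace OpRing

variable (A : OpRing d)

/-- a symbol of order `0` as an operator -/
noncomputable def gop (f : Gr d) : A.ring := ⟨op (f : Sym d), A.le (isMicro_gr f)⟩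

private lemma h3_mem_vs_mul {g : Sym d} (hg : op g ∈ A.ring) : op (vs * g) ∈ A.ring := by
  have h : op (vs * g) = op g * op vs := by
    apply Op.ext
    show vs * g = comp g vs
    rw [comp_vs_right, mul_comm]
  rw [h]
  exact A.ring.mul_mem hg (A.le (isMicro_X none))

private lemma h3_div {f : Sym d} (hf : op f ∈ A.ring) (h : ∀ m, m none = 0 → coeff m f = 0) :
    ∃ Q : A.ring, (⟨op f, hf⟩ : A.ring) = A.s * Q := by
  obtain ⟨g, hg⟩ := MvPowerSeries.X_dvd_iff.2 h
  have h2 : Ep.shf none f = g := by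
    apply MvPowerSeries.ext
    intro m
    show coeff (m + Finsupp.single none 1) f = coeff m g
    rw [hg, add_comm m, MvPowerSeries.X, MvPowerSeries.coeff_add_monomial_mul, one_mul]
  have h3 : op g ∈ A.ring := h2 ▸ A.shf f none hf
  refine ⟨⟨op (g + vs * B none g), ?_⟩, ?_⟩
  · rw [op_add]
    exact A.ring.add_mem h3 (h3_mem_vs_mul A (A.pd g _ h3))
  · apply Subtype.ext
    apply Op.ext
    show f = comp vs (g + vs * B none g)
    rw [rho_inv, comp_vs_right, mul_comm]
    exact hg

private lemma h3_div' (Q : A.ring) (h : ∀ m, m none = 0 → coeff m Q.1.sym = 0) :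
    ∃ Q' : A.ring, Q = A.s * Q' :=
  h3_div A (f := Q.1.sym) Q.2 h

private lemma h3_coeff_sfr (f : Sym d) {m : Option (Var d) →₀ ℕ} (hm : m none = 0) :
    coeff m (sfr f) = coeff m f := by
  show (if m none = 0 then coeff m f else 0) = coeff m f
  rw [if_pos hm]

/-- every operator is its symbol of order `0` plus `s` times an operator (`A.shf`, `A.rho`) -/
lemma exists_gop (hA : A.ring ≤ hatE d) (Q : A.ring) : ∃ (f : Gr d) (Q' : A.ring),
    (f : Sym d) = sfr Q.1.sym ∧ Q = A.gop f + A.s * Q' := by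
  let f : Gr d := ⟨sfr Q.1.sym, sfr_formal (hA Q.2)⟩
  obtain ⟨Q', h'⟩ := h3_div' A (Q - A.gop f) (fun m hm => by
    show coeff m (Q.1.sym - sfr Q.1.sym) = 0
    rw [map_sub, h3_coeff_sfr _ hm, sub_self])
  exact ⟨f, Q', rfl, by rw [← h']; abel⟩

lemma gop_mul (f g : Gr d) : ∃ Q : A.ring, A.gop f * A.gop g = A.gop (f * g) + A.s * Q := by
  obtain ⟨Q', h'⟩ := h3_div' A (A.gop f * A.gop g - A.gop (f * g)) (fun m hm => by
    show coeff m (comp (f : Sym d) (g : Sym d) - (f : Sym d) * (g : Sym d)) = 0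
    rw [map_sub, ← h3_coeff_sfr (comp (f : Sym d) (g : Sym d)) hm, sfr_comp, sfr_gr, sfr_gr,
      sub_self])
  exact ⟨Q', by rw [← h']; abel⟩

lemma gop_add (f g : Gr d) : A.gop (f + g) = A.gop f + A.gop g := Subtype.ext rfl

variable (L : Type) [AddCommGroup L] [Module A.ring L]

/-- The annihilator of `L / s L` in the ring of symbols of order `0`. -/
noncomputable def annI : Ideal (Gr d) where
  carrier := {f | A.Kills L (A.gop f)}
  add_mem' := by
    intro f g hf hg u
    obtain ⟨w, hw⟩ := hf u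
    obtain ⟨w', hw'⟩ := hg u
    exact ⟨w + w', by rw [gop_add, add_smul, hw, hw', smul_add]⟩
  zero_mem' := by
    intro u
    refine ⟨0, ?_⟩
    have h : A.gop (0 : Gr d) = 0 := Subtype.ext rfl
    rw [h, zero_smul, smul_zero]
  smul_mem' := by
    intro c f hf u
    obtain ⟨w, hw⟩ := hf u
    obtain ⟨Q, hQ⟩ := A.gop_mul c f
    obtain ⟨Q', hQ'⟩ := A.mul_s (A.gop c)
    refine ⟨Q' • w - Q • u, ?_⟩
    show A.gop (c * f) • u = _
    rw [eq_sub_of_add_eq hQ.symm, sub_smul, mul_smul, hw, ← mul_smul, hQ', smul_sub, mul_smul,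
      mul_smul]

lemma mem_annI (f : Gr d) : f ∈ A.annI L ↔ A.Kills L (A.gop f) := Iff.rfl

/-- `L / s L` is a module over the ring of symbols of order `0` with support of dimension `≤ d`:
the support of the module generated by `L` has dimension `≤ d + 1 = dim X` in the cotangent
bundle. -/
def Holonomic : Prop := ringKrullDim (Gr d ⧸ A.annI L) ≤ d

/-- a regular lattice in a holonomic module (no condition on the position of the support) -/
structure HolLattice : Prop where
  fin : Module.Finite A.ring L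
  sinj : A.SInj L
  hol : A.Holonomic L
  reg : A.Regular L

end OpRing

/-! ## row h4: from the commutative algebra to generic position -/

private lemma h4_const (a : Gr d) : a - algebraMap ℂ (Gr d) (coeff 0 (a : Sym d)) ∈
    maximalIdeal (Gr d) := by
  rw [mem_max_gr]
  show coeff 0 ((a : Sym d) - algebraMap ℂ (Sym d) (coeff 0 (a : Sym d))) = 0
  rw [map_sub, MvPowerSeries.algebraMap_apply, Algebra.algebraMap_self, RingHom.id_apply,
    coeff_zero_C, sub_self]

private lemma h4_step {N : ℕ} {T : Set (Gr d)} (hT : Ideal.span T = maximalIdeal (Gr d) ^ N)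
    (g : Gr d) (hg : g ∈ maximalIdeal (Gr d) ^ N) :
    ∃ w ∈ Submodule.span ℂ T, g - w ∈ maximalIdeal (Gr d) ^ (N + 1) := by
  rw [← hT] at hg
  refine Submodule.span_induction (p := fun g _ => ∃ w ∈ Submodule.span ℂ T,
    g - w ∈ maximalIdeal (Gr d) ^ (N + 1)) ?_ ?_ ?_ ?_ hg
  · intro t ht
    exact ⟨t, Submodule.subset_span ht, by rw [sub_self]; exact Ideal.zero_mem _⟩
  · exact ⟨0, Submodule.zero_mem _, by rw [sub_self]; exact Ideal.zero_mem _⟩
  · rintro x y _ _ ⟨w, hw, h⟩ ⟨w', hw', h'⟩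
    refine ⟨w + w', Submodule.add_mem _ hw hw', ?_⟩
    rw [add_sub_add_comm]
    exact Ideal.add_mem _ h h'
  · rintro a x hx ⟨w, hw, h⟩
    refine ⟨(coeff 0 (a : Sym d)) • w, Submodule.smul_mem _ _ hw, ?_⟩
    have hwN : w ∈ maximalIdeal (Gr d) ^ N := by
      have h1 : x ∈ maximalIdeal (Gr d) ^ N := by rw [← hT]; exact hx
      have h2 : x - w ∈ maximalIdeal (Gr d) ^ N := Ideal.pow_le_pow_right (Nat.le_succ N) h
      have h3 := Ideal.sub_mem _ h1 h2
      rwa [sub_sub_cancel] at h3
    have e : a • x - (coeff 0 (a : Sym d)) • w = a * (x - w) +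
        (a - algebraMap ℂ (Gr d) (coeff 0 (a : Sym d))) * w := by
      rw [smul_eq_mul, Algebra.smul_def]
      ring
    rw [e]
    refine Ideal.add_mem _ (Ideal.mul_mem_left _ _ h) ?_
    rw [pow_succ']
    exact Ideal.mul_mem_mul (h4_const a) hwN

private lemma h4_fin (N : ℕ) : ∃ S : Submodule ℂ (Gr d), S.FG ∧
    ∀ f : Gr d, ∃ w ∈ S, f - w ∈ maximalIdeal (Gr d) ^ N := by
  induction N with
  | zero =>
    refine ⟨⊥, Submodule.fg_bot, fun f => ⟨0, Submodule.zero_mem _, ?_⟩⟩
    rw [pow_zero, Ideal.one_eq_top]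
    exact Submodule.mem_top
  | succ N ih =>
    obtain ⟨S, hS, h⟩ := ih
    obtain ⟨T, hT⟩ := (isNoetherianRing_iff_ideal_fg (Gr d)).1 inferInstance
      (maximalIdeal (Gr d) ^ N)
    refine ⟨S ⊔ Submodule.span ℂ (T : Set (Gr d)), hS.sup ⟨T, rfl⟩, fun f => ?_⟩
    obtain ⟨w, hw, h1⟩ := h f
    obtain ⟨w', hw', h2⟩ := h4_step hT (f - w) h1
    refine ⟨w + w', Submodule.add_mem_sup hw hw', ?_⟩
    rwa [← sub_sub]

private lemma h4_gop_smul (A : OpRing d) (c : ℂ) (f : Gr d) :
    A.gop (c • f) = A.cst c * A.gop f := by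
  apply Subtype.ext
  apply Op.ext
  show c • (f : Sym d) = comp (C c) (f : Sym d)
  have h : (C c : Sym d) = c • (1 : Sym d) := by
    rw [smul_eq_C_mul, mul_one]
  rw [h, comp_smul_left, comp_one_left]

private lemma h4_gop_sum (A : OpRing d) {κ : Type} (s : Finset κ) (f : κ → Gr d) :
    A.gop (∑ k ∈ s, f k) = ∑ k ∈ s, A.gop (f k) := by
  classical
  induction s using Finset.induction_on with
  | empty => exact Subtype.ext rfl
  | insert a s ha ih => rw [Finset.sum_insert ha, Finset.sum_insert ha, A.gop_add, ih]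

/-- If the only prime which contains `annI L` and all the `x_i` is the maximal ideal then `L` is in
generic position. Proof: `𝔪^N ⊆ annI L + (x)` (`exists_pow_le`); every symbol of order `0` is a
linear combination of monomials of degree `< N` plus an element of `annI L + (x)`; a finite set of
generators `g` of `L`: `L = ∑ A g`, `A g ⊆ ∑ ℂ X^m g + x L + s L`. -/
theorem generic_of {L : Type} [AddCommGroup L] [Module (Formal d).ring L]
    (hfin : Module.Finite (Formal d).ring L)
    (h : ∀ P : PrimeSpectrum (Gr d), (Formal d).annI L ≤ P.asIdeal →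
      (∀ i, gv (.x i) ∈ P.asIdeal) → P.asIdeal = maximalIdeal (Gr d)) : (Formal d).Generic L := by
  classical
  -- the ideal of the symbols which map `L` to `x L + s L`
  let J : Ideal (Gr d) :=
    { carrier := {f | ∀ u : L, (Formal d).gop f • u ∈ (Formal d).Z L}
      add_mem' := by
        intro f g hf hg u
        rw [OpRing.gop_add, add_smul]
        exact Submodule.add_mem _ (hf u) (hg u)
      zero_mem' := by
        intro u
        have h0 : (Formal d).gop (0 : Gr d) = 0 := Subtype.ext rfl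
        rw [h0, zero_smul]
        exact Submodule.zero_mem _
      smul_mem' := by
        intro c f hf u
        obtain ⟨Q, hQ⟩ := (Formal d).gop_mul c f
        show (Formal d).gop (c * f) • u ∈ _
        rw [eq_sub_of_add_eq hQ.symm, sub_smul, mul_smul, mul_smul]
        refine Submodule.sub_mem _ (Submodule.smul_mem _ _ (hf u)) ?_
        exact ⟨0, Q • u, by simp⟩ }
  have hJ1 : (Formal d).annI L ≤ J := by
    intro f hf u
    obtain ⟨w, hw⟩ := hf u
    exact ⟨0, w, by rw [hw]; simp⟩
  have hJ2 : ∀ i, gv (.x i) ∈ J := by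
    intro i u
    have hx : (Formal d).gop (gv (.x i)) = (Formal d).x i := Subtype.ext rfl
    rw [hx]
    refine ⟨fun j => if j = i then u else 0, 0, ?_⟩
    rw [Finset.sum_eq_single i]
    · simp
    · intro j _ hj; simp [hj]
    · intro hi; exact absurd (Finset.mem_univ i) hi
  obtain ⟨N, hN⟩ := exists_pow_le J (fun P hP => h P (hJ1.trans hP) fun i => hP (hJ2 i))
  obtain ⟨S, hS, hSf⟩ := h4_fin (d := d) N
  obtain ⟨k, p, hp⟩ := Submodule.fg_iff_exists_fin_generating_family.1 hS
  obtain ⟨n, g, hg⟩ := Module.Finite.exists_fin (R := (Formal d).ring) (M := L)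
  -- one generator
  have key : ∀ (Q : (Formal d).ring) (u : L), ∃ c : Fin k → ℂ,
      Q • u - ∑ i, (Formal d).cst (c i) • ((Formal d).gop (p i) • u) ∈ (Formal d).Z L := by
    intro Q u
    obtain ⟨f, Q', -, hQ⟩ := (Formal d).exists_gop le_rfl Q
    obtain ⟨w, hw, hfw⟩ := hSf f
    rw [← hp] at hw
    obtain ⟨c, hc⟩ := (Submodule.mem_span_range_iff_exists_fun ℂ).1 hw
    refine ⟨c, ?_⟩
    have e1 : ∑ i, (Formal d).cst (c i) • ((Formal d).gop (p i) • u) = (Formal d).gop w • u := by
      rw [← hc, h4_gop_sum, Finset.sum_smul]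
      refine Finset.sum_congr rfl fun i _ => ?_
      rw [h4_gop_smul, mul_smul]
    have e2 : (Formal d).gop f = (Formal d).gop (f - w) + (Formal d).gop w := by
      rw [← OpRing.gop_add, sub_add_cancel]
    rw [e1, hQ, e2, add_smul, add_smul, add_assoc, add_comm ((Formal d).gop w • u), ← add_assoc,
      add_sub_cancel_right, mul_smul]
    refine Submodule.add_mem _ (hN hfw u) ?_
    exact ⟨0, Q' • u, by simp⟩
  refine ⟨n * k, fun q => (Formal d).gop (p (finProdFinEquiv.symm q).2) •
    g (finProdFinEquiv.symm q).1, fun u => ?_⟩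
  have hu : u ∈ Submodule.span (Formal d).ring (Set.range g) := by rw [hg]; exact Submodule.mem_top
  obtain ⟨Q, hQ⟩ := (Submodule.mem_span_range_iff_exists_fun (Formal d).ring).1 hu
  choose c hc using fun j => key (Q j) (g j)
  have h1 : u - ∑ q : Fin (n * k), (Formal d).cst (c (finProdFinEquiv.symm q).1
      (finProdFinEquiv.symm q).2) • ((Formal d).gop (p (finProdFinEquiv.symm q).2) •
      g (finProdFinEquiv.symm q).1) ∈ (Formal d).Z L := by
    rw [finProdFinEquiv.symm.sum_comp (fun q : Fin n × Fin k =>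
      (Formal d).cst (c q.1 q.2) • ((Formal d).gop (p q.2) • g q.1)), Fintype.sum_prod_type, ← hQ,
      ← Finset.sum_sub_distrib]
    exact Submodule.sum_mem _ fun j _ => hc j
  obtain ⟨v, w, hvw⟩ := h1
  refine ⟨fun q => c (finProdFinEquiv.symm q).1 (finProdFinEquiv.symm q).2, v, w, ?_⟩
  rw [add_assoc, ← hvw]
  abel

/-! ## row h5: automorphisms -/

/-- automorphisms of the ring of operators which respect the growth conditions, the constants and
the ideal generated by `s` -/
structure Aut (d : ℕ) where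
  /-- the automorphism -/
  φ : Op d ≃+* Op d
  formal : ∀ P : Op d, IsFormal (φ P).sym ↔ IsFormal P.sym
  micro : ∀ P : Op d, IsMicro (φ P).sym ↔ IsMicro P.sym
  const : ∀ c : ℂ, φ (op (C c)) = op (C c)
  hs : ∃ u v : Op d, IsMicro u.sym ∧ IsMicro v.sym ∧ u * v = 1 ∧ v * u = 1 ∧
    φ (op vs) = u * op vs

private lemma h5_C (E : Derivation ℂ (Sym d) (Sym d)) (c : ℂ) : E (C c) = 0 := by
  have h : (C c : Sym d) = algebraMap ℂ (Sym d) c := by rw [← c_eq_algebraMap]
  rw [h, Derivation.map_algebraMap]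

private lemma h5_micro_one : IsMicro (1 : Sym d) := by
  have h := isMicro_C (d := d) 1
  rwa [map_one] at h

private lemma h5_micro_smul (c : ℂ) {f : Sym d} (hf : IsMicro f) : IsMicro (c • f) := by
  have h := isMicro_comp (isMicro_C c) hf
  rw [comp_eq_mul_left (fun i => h5_C (D i) c)] at h
  rwa [smul_eq_C_mul]

private lemma h5_micro_sum (b : Fin d → ℂ) : IsMicro (∑ j, b j • vy j : Sym d) := by
  classical
  have h : ∀ s : Finset (Fin d), IsMicro (∑ j ∈ s, b j • vy j : Sym d) := by
    intro s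
    induction s using Finset.induction_on with
    | empty =>
      rw [Finset.sum_empty]
      have h := isMicro_C (d := d) 0
      rwa [map_zero] at h
    | insert j s hj ih =>
      rw [Finset.sum_insert hj]
      exact isMicro_add (h5_micro_smul _ (isMicro_X _)) ih
  exact h _

private lemma h5_coeff (f : Sym d) (m : Option (Var d) →₀ ℕ) :
    coeff (m + Finsupp.single none 1) (f * vs) = coeff m f := by
  have h := coeff_add_mul_monomial m (Finsupp.single none 1) f (1 : ℂ)
  rw [mul_one] at h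
  exact h

/-- if `f s` is a microdifferential operator then so is `f` -/
private lemma h5_micro_div {f : Sym d} (hf : IsMicro (f * vs)) : IsMicro f := by
  obtain ⟨C, hC⟩ := hf
  set K : ℝ := max |C| 1 with hK
  have hK1 : 1 ≤ K := le_max_right _ _
  refine ⟨2 * K ^ 2, fun m => ?_⟩
  have h1 := hC (m + Finsupp.single none 1)
  rw [h5_coeff, map_add, Finsupp.degree_single, Finsupp.add_apply,
    Finsupp.single_eq_same] at h1
  have h2 : C ^ (m.degree + 1 + 1) ≤ K ^ (m.degree + 1 + 1) := by
    refine (le_abs_self _).trans ?_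
    rw [abs_pow]
    exact pow_le_pow_left₀ (abs_nonneg _) (le_max_left _ _) _
  have h3 : K ^ (m.degree + 1 + 1) ≤ (K ^ 2) ^ (m.degree + 1) := by
    rw [← pow_mul]
    exact pow_le_pow_right₀ hK1 (by omega)
  have h5 : m none + 1 ≤ 2 ^ (m.degree + 1) := by
    have h6 : m none + 1 ≤ 2 ^ (m none) := by
      have := Nat.lt_two_pow_self (n := m none)
      omega
    refine h6.trans (Nat.pow_le_pow_right (by norm_num) ?_)
    have := Finsupp.le_degree none m
    omega
  have h4 : ((m none + 1).factorial : ℝ) ≤ 2 ^ (m.degree + 1) * (m none).factorial := by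
    rw [Nat.factorial_succ]
    push_cast
    refine mul_le_mul_of_nonneg_right ?_ (by positivity)
    exact_mod_cast h5
  calc ‖coeff m f‖ ≤ C ^ (m.degree + 1 + 1) * ((m none + 1).factorial : ℝ) := h1
    _ ≤ (K ^ 2) ^ (m.degree + 1) * (2 ^ (m.degree + 1) * (m none).factorial) :=
        mul_le_mul (h2.trans h3) h4 (by positivity) (by positivity)
    _ = (2 * K ^ 2) ^ (m.degree + 1) * (m none).factorial := by rw [mul_pow]; ring

private lemma h5_one_sub_B (b : Fin d → ℂ) (i : Option (Fin d)) :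
    B i (1 - ∑ j, b j • vy j : Sym d) = 0 := by
  rw [map_sub, Derivation.map_one_eq_zero, map_sum]
  have h : ∀ j ∈ (Finset.univ : Finset (Fin d)), B i (b j • vy j : Sym d) = 0 := fun j _ => by
    rw [Derivation.map_smul, B_vy, smul_zero]
  rw [Finset.sum_eq_zero h, sub_zero]

private lemma h5_const (b : Fin d → ℂ) : constantCoeff (1 - ∑ j, b j • vy j : Sym d) ≠ 0 := by
  have h : ∀ j ∈ (Finset.univ : Finset (Fin d)),
      constantCoeff (b j • vy j : Sym d) = 0 := fun j _ => by
    rw [smul_eq_C_mul, map_mul]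
    change _ * constantCoeff (X (some (.y j)) : Sym d) = 0
    rw [constantCoeff_X, mul_zero]
  rw [map_sub, map_one, map_sum, Finset.sum_eq_zero h, sub_zero]
  exact one_ne_zero

private lemma h5_symm_formal {ψ : Op d ≃+* Op d} (h1 : ∀ P : Op d, IsFormal P.sym → IsFormal (ψ P).sym)
    (h2 : ∀ P : Op d, IsFormal P.sym → IsFormal (ψ.symm P).sym) (P : Op d) :
    IsFormal (ψ P).sym ↔ IsFormal P.sym :=
  ⟨fun h => by simpa using h2 _ h, h1 P⟩

private lemma h5_symm_micro {ψ : Op d ≃+* Op d} (h1 : ∀ P : Op d, IsMicro P.sym → IsMicro (ψ P).sym)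
    (h2 : ∀ P : Op d, IsMicro P.sym → IsMicro (ψ.symm P).sym) (P : Op d) :
    IsMicro (ψ P).sym ↔ IsMicro P.sym :=
  ⟨fun h => by simpa using h2 _ h, h1 P⟩

/-- the shear -/
noncomputable def shAut {a : Matrix (Fin d) (Fin d) ℂ} (ha : ∀ i j, a i j = a j i) : Aut d where
  φ := shA ha
  formal := h5_symm_formal (fun _ h => isFormal_sh ha h) (fun P h => by
    have hn : ∀ i j, (-a) i j = (-a) j i := fun i j => by
      rw [Matrix.neg_apply, Matrix.neg_apply, ha i j]
    change IsFormal (expo (-(shN a)) P.sym)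
    rw [← shN_neg]
    exact isFormal_sh hn h)
  micro := h5_symm_micro (fun _ h => isMicro_sh ha h) (fun P h => by
    have hn : ∀ i j, (-a) i j = (-a) j i := fun i j => by
      rw [Matrix.neg_apply, Matrix.neg_apply, ha i j]
    change IsMicro (expo (-(shN a)) P.sym)
    rw [← shN_neg]
    exact isMicro_sh hn h)
  const := fun c => Op.ext (expo_sh_of_B a fun i => h5_C (B i) c)
  hs := ⟨1, 1, h5_micro_one, h5_micro_one, mul_one 1, mul_one 1, by
    rw [one_mul]
    exact Op.ext (expo_sh_of_B a fun i => B_vs i)⟩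

/-- the linear change of the base coordinates -/
noncomputable def lvAut (b : Fin d → ℂ) : Aut d where
  φ := lvA b
  formal := h5_symm_formal (fun _ h => isFormal_lv b h) (fun P h => by
    change IsFormal (expo (-(lvN b)) P.sym)
    rw [← lvN_neg]
    exact isFormal_lv (-b) h)
  micro := h5_symm_micro (fun _ h => isMicro_lv b h) (fun P h => by
    change IsMicro (expo (-(lvN b)) P.sym)
    rw [← lvN_neg]
    exact isMicro_lv (-b) h)
  const := fun c => Op.ext (expo_of_zero (N := lvN b) (h5_C (lvD b) c))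
  hs := by
    set v : Sym d := 1 - ∑ j, b j • vy j with hv
    have hc : v * v⁻¹ = 1 := MvPowerSeries.mul_inv_cancel v (h5_const b)
    have hc' : v⁻¹ * v = 1 := by rw [mul_comm, hc]
    have he : expo (lvN b) vs = v⁻¹ * (vs : Sym d) := by
      rw [← one_mul (expo (lvN b) vs), ← hc', mul_assoc, expo_lv_vs]
    have hvB : ∀ i, B i v = 0 := h5_one_sub_B b
    have huB : ∀ i, B i v⁻¹ = 0 := fun i => by
      have h1 : B i (v * v⁻¹) = 0 := by rw [hc, Derivation.map_one_eq_zero]
      rw [Derivation.leibniz, hvB, smul_zero, add_zero, smul_eq_mul] at h1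
      rw [← one_mul (B i v⁻¹), ← hc', mul_assoc, h1, mul_zero]
    refine ⟨op v⁻¹, op v, ?_, ?_, Op.ext ?_, Op.ext ?_, Op.ext ?_⟩
    · refine h5_micro_div ?_
      rw [sym_op, ← he]
      exact isMicro_lv b (isMicro_X none)
    · rw [sym_op, hv, sub_eq_add_neg]
      exact isMicro_add h5_micro_one (isMicro_neg (h5_micro_sum b))
    · rw [sym_mul, sym_op, sym_op, sym_one, comp_eq_mul_right hvB, hc']
    · rw [sym_mul, sym_op, sym_op, sym_one, comp_eq_mul_right huB, hc]
    · rw [sym_mul, sym_op, sym_op, comp_vs_right]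
      exact he

/-- composition: first `ψ`, then `χ` -/
noncomputable def Aut.trans (ψ χ : Aut d) : Aut d where
  φ := ψ.φ.trans χ.φ
  formal P := (χ.formal _).trans (ψ.formal _)
  micro P := (χ.micro _).trans (ψ.micro _)
  const c := by
    rw [RingEquiv.trans_apply, ψ.const, χ.const]
  hs := by
    obtain ⟨u, v, hu, hv, huv, hvu, h⟩ := ψ.hs
    obtain ⟨u', v', hu', hv', huv', hvu', h'⟩ := χ.hs
    refine ⟨χ.φ u * u', v' * χ.φ v, ?_, ?_, ?_, ?_, ?_⟩
    · exact isMicro_comp ((χ.micro u).2 hu) hu'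
    · exact isMicro_comp hv' ((χ.micro v).2 hv)
    · rw [mul_assoc, ← mul_assoc u', huv', one_mul, ← map_mul, huv, map_one]
    · rw [mul_assoc, ← mul_assoc (χ.φ v), ← map_mul, hvu, map_one, one_mul, hvu']
    · rw [RingEquiv.trans_apply, h, map_mul, h', mul_assoc]

/-- the automorphism of `hat E(0)` -/
noncomputable def Aut.onF (χ : Aut d) : (Formal d).ring ≃+* (Formal d).ring where
  toFun Q := ⟨χ.φ Q.1, (χ.formal Q.1).2 Q.2⟩
  invFun Q := ⟨χ.φ.symm Q.1, (χ.formal (χ.φ.symm Q.1)).1 (by
    rw [RingEquiv.apply_symm_apply]; exact Q.2)⟩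
  left_inv Q := Subtype.ext (χ.φ.symm_apply_apply Q.1)
  right_inv Q := Subtype.ext (χ.φ.apply_symm_apply Q.1)
  map_mul' P Q := Subtype.ext (map_mul χ.φ P.1 Q.1)
  map_add' P Q := Subtype.ext (map_add χ.φ P.1 Q.1)

/-- the automorphism of `E(0)` -/
noncomputable def Aut.onM (χ : Aut d) : (Micro d).ring ≃+* (Micro d).ring where
  toFun Q := ⟨χ.φ Q.1, (χ.micro Q.1).2 Q.2⟩
  invFun Q := ⟨χ.φ.symm Q.1, (χ.micro (χ.φ.symm Q.1)).1 (by
    rw [RingEquiv.apply_symm_apply]; exact Q.2)⟩
  left_inv Q := Subtype.ext (χ.φ.symm_apply_apply Q.1)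
  right_inv Q := Subtype.ext (χ.φ.apply_symm_apply Q.1)
  map_mul' P Q := Subtype.ext (map_mul χ.φ P.1 Q.1)
  map_add' P Q := Subtype.ext (map_add χ.φ P.1 Q.1)

lemma Aut.onF_iot (χ : Aut d) (Q : (Micro d).ring) : χ.onF (iot d Q) = iot d (χ.onM Q) := rfl

/-! ## row h6: the induced automorphism of the ring of symbols of order `0` -/

private lemma h6_coeff_none {f : Sym d} {m : Option (Var d) →₀ ℕ} (h : m none = 0) :
    coeff m (sfr f) = coeff m f := if_pos h

private lemma h6_sfr_idem (f : Sym d) : sfr (sfr f) = sfr f := by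
  ext m
  by_cases h : m none = 0
  · exact h6_coeff_none h
  · exact (if_neg h).trans (if_neg h).symm

private lemma h6_sfr_sub (f g : Sym d) : sfr (f - g) = sfr f - sfr g := by
  have h := sfr_add (f - g) g
  rw [sub_add_cancel] at h
  rw [h, add_sub_cancel_right]

/-- a series without part free of `s` is divisible by `s` -/
private lemma h6_div {f : Sym d} (hf : sfr f = 0) : ∃ g : Sym d, f = comp g vs := by
  classical
  obtain ⟨g, hg⟩ : ∃ g : Sym d, ∀ m, coeff m g = coeff (m + Finsupp.single none 1) f :=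
    ⟨fun m => coeff (m + Finsupp.single none 1) f, fun _ => rfl⟩
  refine ⟨g, ?_⟩
  rw [comp_vs_right]
  ext m
  by_cases h : m none = 0
  · have h1 : coeff m f = 0 := by rw [← h6_coeff_none h, hf, map_zero]
    rw [h1]
    have h2 : (vs : Sym d) = monomial (Finsupp.single none 1) 1 := rfl
    rw [h2, coeff_mul_monomial, if_neg]
    rw [Finsupp.single_le_iff]
    omega
  · have h1 : Finsupp.single none 1 ≤ m := by
      rw [Finsupp.single_le_iff]
      omega
    obtain ⟨n, rfl⟩ : ∃ n, m = n + Finsupp.single none 1 :=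
      ⟨m - Finsupp.single none 1, (tsub_add_cancel_of_le h1).symm⟩
    rw [h5_coeff, hg]

/-- a ring automorphism which maps `s` to `u s` preserves the ideal of the series divisible by `s` -/
private lemma h6_zero {ψ : Op d ≃+* Op d} {u : Op d} (hu : ψ (op vs) = u * op vs) {f : Sym d}
    (hf : sfr f = 0) : sfr (ψ (op f)).sym = 0 := by
  obtain ⟨g, rfl⟩ := h6_div hf
  have h1 : op (comp g vs) = op g * op (vs : Sym d) := rfl
  have h2 : sfr (vs : Sym d) = 0 := by
    have h3 := sfr_vs_mul (1 : Sym d)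
    rwa [comp_one_right] at h3
  rw [h1, map_mul, hu, ← mul_assoc, sym_mul, sfr_comp, sym_op, h2, mul_zero]

private lemma h6_eq {ψ : Op d ≃+* Op d} {u : Op d} (hu : ψ (op vs) = u * op vs) {f g : Sym d}
    (h : sfr f = sfr g) : sfr (ψ (op f)).sym = sfr (ψ (op g)).sym := by
  have h1 : sfr (f - g) = 0 := by rw [h6_sfr_sub, h, sub_self]
  have h2 := h6_zero hu h1
  rw [op_sub, map_sub, sym_sub, h6_sfr_sub] at h2
  exact sub_eq_zero.1 h2

/-- `f ↦` the part of `χ f` free of `s`; inverse from `χ.φ.symm` (`χ` and its inverse map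
`s A` to `s A`, by `hs`) -/
theorem exists_bar (χ : Aut d) : ∃ β : Gr d ≃+* Gr d,
    ∀ (Q : Sym d) (hQ : IsFormal Q) (f : Gr d), (f : Sym d) = sfr Q →
      ((β f : Gr d) : Sym d) = sfr (χ.φ (op Q)).sym := by
  obtain ⟨u, v, -, -, huv, hvu, hu⟩ := χ.hs
  have hv : χ.φ.symm (op vs) = χ.φ.symm v * op vs := by
    rw [← χ.φ.injective.eq_iff, map_mul, χ.φ.apply_symm_apply, χ.φ.apply_symm_apply, hu,
      ← mul_assoc, hvu, one_mul]
  have hF : ∀ f : Gr d, IsFormal (χ.φ (op (f : Sym d))).sym := fun f => (χ.formal _).2 f.2.1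
  have hF' : ∀ f : Gr d, IsFormal (χ.φ.symm (op (f : Sym d))).sym := fun f => by
    rw [← χ.formal, χ.φ.apply_symm_apply]
    exact f.2.1
  have hmul : ∀ f g : Gr d, sfr (χ.φ (op ((f * g : Gr d) : Sym d))).sym
      = sfr (χ.φ (op (f : Sym d))).sym * sfr (χ.φ (op (g : Sym d))).sym := by
    intro f g
    have h1 : sfr ((f * g : Gr d) : Sym d) = sfr (comp (f : Sym d) (g : Sym d)) := by
      rw [sfr_gr, sfr_comp, sfr_gr, sfr_gr]
      rfl
    rw [h6_eq hu h1]
    have h2 : op (comp (f : Sym d) (g : Sym d)) = op (f : Sym d) * op (g : Sym d) := rfl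
    rw [h2, map_mul, sym_mul, sfr_comp]
  refine ⟨{ toFun := fun f => ⟨sfr (χ.φ (op (f : Sym d))).sym, sfr_formal (hF f)⟩
            invFun := fun f => ⟨sfr (χ.φ.symm (op (f : Sym d))).sym, sfr_formal (hF' f)⟩
            left_inv := ?_
            right_inv := ?_
            map_mul' := fun f g => Subtype.ext (hmul f g)
            map_add' := ?_ }, ?_⟩
  · intro f
    refine Subtype.ext ?_
    have h1 := h6_eq (ψ := χ.φ.symm) hv (h6_sfr_idem (χ.φ (op (f : Sym d))).sym)
    change sfr (χ.φ.symm (op (sfr (χ.φ (op (f : Sym d))).sym))).sym = f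
    rw [h1, op_sym, χ.φ.symm_apply_apply, sym_op, sfr_gr]
  · intro f
    refine Subtype.ext ?_
    have h1 := h6_eq hu (h6_sfr_idem (χ.φ.symm (op (f : Sym d))).sym)
    change sfr (χ.φ (op (sfr (χ.φ.symm (op (f : Sym d))).sym))).sym = f
    rw [h1, op_sym, χ.φ.apply_symm_apply, sym_op, sfr_gr]
  · intro f g
    refine Subtype.ext ?_
    change sfr (χ.φ (op ((f : Sym d) + (g : Sym d)))).sym
      = sfr (χ.φ (op (f : Sym d))).sym + sfr (χ.φ (op (g : Sym d))).sym
    rw [op_add, map_add, sym_add, sfr_add]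
  · intro Q _ f hf
    change sfr (χ.φ (op (f : Sym d))).sym = _
    refine h6_eq hu ?_
    rw [sfr_gr, hf]

/-- the induced automorphism -/
noncomputable def Aut.bar (χ : Aut d) : Gr d ≃+* Gr d := Classical.choose (exists_bar χ)

lemma Aut.bar_gr (χ : Aut d) (f : Gr d) :
    ((χ.bar f : Gr d) : Sym d) = sfr (χ.φ (op (f : Sym d))).sym :=
  Classical.choose_spec (exists_bar χ) _ f.2.1 f (sfr_gr f).symm

/-! ## row h7: twisted modules -/

/-- the module `L` with the action `Q • u = χ(Q) u` -/
def Tw (_χ : Aut d) (L : Type) : Type := L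
instance {χ : Aut d} {L : Type} [h : AddCommGroup L] : AddCommGroup (Tw χ L) := h
noncomputable instance {χ : Aut d} {L : Type} [AddCommGroup L] [Module (Formal d).ring L] :
    Module (Formal d).ring (Tw χ L) := Module.compHom L χ.onF.toRingHom

/-- an element of `Tw χ L` as an element of `L` -/
def Tw.out {χ : Aut d} {L : Type} (u : Tw χ L) : L := u
/-- an element of `L` as an element of `Tw χ L` -/
def Tw.of (χ : Aut d) {L : Type} (u : L) : Tw χ L := u

lemma Tw.smul_def {χ : Aut d} {L : Type} [AddCommGroup L] [Module (Formal d).ring L]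
    (Q : (Formal d).ring) (u : Tw χ L) : Q • u = Tw.of χ (χ.onF Q • Tw.out u) := rfl

variable {L : Type} [AddCommGroup L] [Module (Formal d).ring L]

/-! ### row h7: private helpers -/

private lemma h7_kills_add (Q Q' : (Formal d).ring) :
    (Formal d).Kills L (Q + (Formal d).s * Q') ↔ (Formal d).Kills L Q := by
  constructor
  · intro h u
    obtain ⟨w, hw⟩ := h u
    refine ⟨w - Q' • u, ?_⟩
    rw [smul_sub, ← hw, add_smul, mul_smul, add_sub_cancel_right]
  · intro h u
    obtain ⟨w, hw⟩ := h u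
    refine ⟨w + Q' • u, ?_⟩
    rw [smul_add, ← hw, add_smul, mul_smul]

private lemma h7_unit (χ : Aut d) : ∃ U V : (Formal d).ring, U * V = 1 ∧ V * U = 1 ∧
    χ.onF (Formal d).s = U * (Formal d).s := by
  obtain ⟨u, v, hu, hv, h1, h2, h3⟩ := χ.hs
  exact ⟨⟨u, hu.formal⟩, ⟨v, hv.formal⟩, Subtype.ext h1, Subtype.ext h2, Subtype.ext h3⟩

/-- `Q` kills `Tw χ L` iff `χ(Q)` kills `L` (`χ(s) = u s`, `s` is normal) -/
lemma kills_tw (χ : Aut d) (Q : (Formal d).ring) :
    (Formal d).Kills (Tw χ L) Q ↔ (Formal d).Kills L (χ.onF Q) := by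
  obtain ⟨U, V, hUV, hVU, hs⟩ := h7_unit χ
  constructor
  · intro h w
    obtain ⟨w', hw'⟩ := h (Tw.of χ w)
    obtain ⟨U', hU'⟩ := (Formal d).mul_s U
    have h1 : χ.onF Q • w = χ.onF (Formal d).s • (Tw.out w' : L) := hw'
    exact ⟨U' • (Tw.out w' : L), by rw [h1, hs, hU', mul_smul]⟩
  · intro h w
    obtain ⟨w', hw'⟩ := h (Tw.out w)
    obtain ⟨V', hV'⟩ := (Formal d).mul_s V
    refine ⟨Tw.of χ (V' • w'), ?_⟩
    have h1 : χ.onF Q • (Tw.out w : L) = χ.onF (Formal d).s • (V' • w') := by
      rw [hw', hs, smul_smul, mul_assoc, ← hV', ← mul_assoc, hUV, one_mul]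
    exact h1

lemma annI_tw (χ : Aut d) : (Formal d).annI (Tw χ L) = ((Formal d).annI L).comap χ.bar.toRingHom := by
  ext f
  rw [Ideal.mem_comap, OpRing.mem_annI, OpRing.mem_annI, kills_tw]
  obtain ⟨g, Q', hg, hQ⟩ := (Formal d).exists_gop le_rfl (χ.onF ((Formal d).gop f))
  have h1 : g = χ.bar f := by
    refine Subtype.ext ?_
    rw [hg, Aut.bar_gr]
    rfl
  rw [hQ, h7_kills_add, h1]
  rfl

theorem HolLattice_tw (χ : Aut d) (h : (Formal d).HolLattice L) : (Formal d).HolLattice (Tw χ L) := by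
  obtain ⟨U, V, hUV, hVU, hs⟩ := h7_unit χ
  refine ⟨?_, ?_, ?_, ?_⟩
  · obtain ⟨S, hS⟩ := h.fin.fg_top
    refine ⟨⟨S.map ⟨Tw.of χ, fun _ _ h => h⟩, ?_⟩⟩
    rw [eq_top_iff]
    intro u _
    have h1 : (Tw.out u : L) ∈ Submodule.span (Formal d).ring (S : Set L) := by
      rw [hS]; trivial
    refine Submodule.span_induction (p := fun x _ => Tw.of χ x ∈ Submodule.span (Formal d).ring
      ((S.map ⟨Tw.of χ, fun _ _ h => h⟩ : Finset (Tw χ L)) : Set (Tw χ L))) ?_ ?_ ?_ ?_ h1
    · intro x hx
      refine Submodule.subset_span ?_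
      rw [Finset.coe_map]
      exact ⟨x, hx, rfl⟩
    · exact Submodule.zero_mem _
    · intro x y _ _ hx hy
      exact Submodule.add_mem _ hx hy
    · intro a x _ hx
      have h2 := Submodule.smul_mem _ (χ.onF.symm a) hx
      have h3 : χ.onF.symm a • (Tw.of χ x : Tw χ L) = Tw.of χ (a • x) := by
        rw [Tw.smul_def, RingEquiv.apply_symm_apply]
        rfl
      rw [h3] at h2
      exact h2
  · intro u hu
    have h1 : χ.onF (Formal d).s • (Tw.out u : L) = 0 := hu
    rw [hs] at h1
    have h2 := congrArg (fun w : L => V • w) h1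
    simp only [smul_zero, smul_smul] at h2
    rw [← mul_assoc, hVU, one_mul] at h2
    exact h.sinj _ h2
  · have h1 : (Formal d).annI L = ((Formal d).annI (Tw χ L)).map (χ.bar : Gr d →+* Gr d) := by
      rw [annI_tw]
      exact (Ideal.map_comap_of_surjective _ χ.bar.surjective _).symm
    have h2 : ringKrullDim (Gr d ⧸ (Formal d).annI (Tw χ L)) =
        ringKrullDim (Gr d ⧸ (Formal d).annI L) :=
      ringKrullDim_eq_of_ringEquiv (R := Gr d ⧸ (Formal d).annI (Tw χ L))
        (S := Gr d ⧸ (Formal d).annI L) (Ideal.quotientEquiv _ _ χ.bar h1)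
    rw [OpRing.Holonomic, h2]
    exact h.hol
  · rintro Q ⟨n, hn⟩
    refine (kills_tw χ Q).2 (h.reg (χ.onF Q) ⟨n, ?_⟩)
    rw [← map_pow]
    exact (kills_tw χ _).1 hn

/-! ## row h8: generic position after a suitable automorphism -/

lemma bar_sh_x {a : Matrix (Fin d) (Fin d) ℂ} (ha : ∀ i j, a i j = a j i) (i : Fin d) :
    (shAut ha).bar (gv (.x i)) = gv (.x i) + ∑ j, a i j • gv (.y j) := by
  refine Subtype.ext ?_
  rw [Aut.bar_gr]
  have e : ((shAut ha).φ (op ((gv (.x i) : Gr d) : Sym d))).sym =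
      ((gv (.x i) + ∑ j, a i j • gv (.y j) : Gr d) : Sym d) := by
    have e1 : ((shAut ha).φ (op ((gv (.x i) : Gr d) : Sym d))).sym = expo (shN a) (vx i) := rfl
    rw [e1, expo_sh_vx]
    push_cast
    rfl
  rw [e, sfr_gr]

lemma bar_sh_t {a : Matrix (Fin d) (Fin d) ℂ} (ha : ∀ i j, a i j = a j i) :
    (shAut ha).bar (gv .t) =
      gv .t - (1 / 2 : ℂ) • ∑ i, ∑ j, a i j • (gv (.y i) * gv (.y j)) := by
  refine Subtype.ext ?_
  rw [Aut.bar_gr]
  have e : ((shAut ha).φ (op ((gv .t : Gr d) : Sym d))).sym =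
      ((gv .t - (1 / 2 : ℂ) • ∑ i, ∑ j, a i j • (gv (.y i) * gv (.y j)) : Gr d) : Sym d) := by
    have e1 : ((shAut ha).φ (op ((gv .t : Gr d) : Sym d))).sym = expo (shN a) vt := rfl
    rw [e1, expo_sh_vt]
    push_cast
    rfl
  rw [e, sfr_gr]

lemma bar_lv_x (b : Fin d → ℂ) (i : Fin d) :
    (lvAut b).bar (gv (.x i)) = gv (.x i) + b i • gv .t := by
  refine Subtype.ext ?_
  rw [Aut.bar_gr]
  have e : ((lvAut b).φ (op ((gv (.x i) : Gr d) : Sym d))).sym =
      ((gv (.x i) + b i • gv .t : Gr d) : Sym d) := by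
    have e1 : ((lvAut b).φ (op ((gv (.x i) : Gr d) : Sym d))).sym = expo (lvN b) (vx i) := rfl
    rw [e1, expo_lv_vx]
    rfl
  rw [e, sfr_gr]


/-- the image of a prime under an automorphism -/
private noncomputable def h9_im (β : Gr d ≃+* Gr d) (P : PrimeSpectrum (Gr d)) :
    PrimeSpectrum (Gr d) := PrimeSpectrum.comap (β.symm : Gr d →+* Gr d) P

private lemma h9_mem (β : Gr d ≃+* Gr d) (P : PrimeSpectrum (Gr d)) (f : Gr d) :
    f ∈ (h9_im β P).asIdeal ↔ β.symm f ∈ P.asIdeal := Iff.rfl

private lemma h9_mem' (β : Gr d ≃+* Gr d) (P : PrimeSpectrum (Gr d)) (f : Gr d) :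
    β f ∈ (h9_im β P).asIdeal ↔ f ∈ P.asIdeal := by
  rw [h9_mem, RingEquiv.symm_apply_apply]

private lemma h9_max (β : Gr d ≃+* Gr d) (P : PrimeSpectrum (Gr d))
    (h : (h9_im β P).asIdeal = maximalIdeal (Gr d)) : P.asIdeal = maximalIdeal (Gr d) := by
  refine le_antisymm (IsLocalRing.le_maximalIdeal P.isPrime.ne_top) fun f hf => ?_
  rw [← h9_mem' β, h, mem_maximalIdeal, mem_nonunits_iff]
  rw [mem_maximalIdeal, mem_nonunits_iff] at hf
  intro hu
  exact hf ((MulEquiv.isUnit_map β).1 hu)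

private lemma h9_le (χ : Aut d) (P : PrimeSpectrum (Gr d))
    (h : (Formal d).annI (Tw χ L) ≤ P.asIdeal) :
    (Formal d).annI L ≤ (h9_im χ.bar P).asIdeal := by
  intro f hf
  rw [h9_mem]
  refine h ?_
  rw [annI_tw, Ideal.mem_comap]
  have e : χ.bar.toRingHom (χ.bar.symm f) = f := RingEquiv.apply_symm_apply _ _
  rw [e]
  exact hf

theorem exists_generic (h : (Formal d).HolLattice L) :
    ∃ χ : Aut d, (Formal d).RegLattice (Tw χ L) := by
  have hmax : ∀ v : Var d, gv v ∈ maximalIdeal (Gr d) := fun v => by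
    rw [mem_max_gr]
    change coeff 0 (X (some v) : Sym d) = 0
    rw [coeff_zero_X]
  obtain ⟨a, ha, hP⟩ := exists_shearM ((Formal d).annI L) (dimLE_of_ringKrullDim h.hol)
    (fun i => gv (.x i)) (fun i => gv (.y i)) (fun k => hmax _)
  have h' : (Formal d).HolLattice (Tw (shAut ha) L) := HolLattice_tw (shAut ha) h
  obtain ⟨b, hb⟩ := exists_base ((Formal d).annI (Tw (shAut ha) L)) (dimLE_of_ringKrullDim h'.hol)
    (fun i => gv (.x i)) (gv .t) (hmax _) (fun P hI hx ht => by
      refine h9_max (shAut ha).bar P ?_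
      set P' := h9_im (shAut ha).bar P with hP'
      have hI' : (Formal d).annI L ≤ P'.asIdeal := h9_le (shAut ha) P hI
      have hx' : ∀ i, gv (.x i) + ∑ j, a i j • gv (.y j) ∈ P'.asIdeal := fun i => by
        rw [← bar_sh_x ha, hP', h9_mem']
        exact hx i
      have hy := hP P' hI' hx'
      have hsm : ∀ (c : ℂ) (f : Gr d), f ∈ P'.asIdeal → c • f ∈ P'.asIdeal := fun c f hf => by
        rw [Algebra.smul_def]
        exact P'.asIdeal.mul_mem_left _ hf
      have hx2 : ∀ i, gv (.x i) ∈ P'.asIdeal := fun i => by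
        have e : gv (.x i) = (gv (.x i) + ∑ j, a i j • gv (.y j)) - ∑ j, a i j • gv (.y j) := by
          rw [add_sub_cancel_right]
        rw [e]
        exact sub_mem (hx' i) (sum_mem fun j _ => hsm _ _ (hy j))
      have ht' : gv .t - (1 / 2 : ℂ) • ∑ i, ∑ j, a i j • (gv (.y i) * gv (.y j)) ∈ P'.asIdeal := by
        rw [← bar_sh_t ha, hP', h9_mem']
        exact ht
      have ht2 : gv .t ∈ P'.asIdeal := by
        have e : gv .t = (gv .t - (1 / 2 : ℂ) • ∑ i, ∑ j, a i j • (gv (.y i) * gv (.y j))) +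
            (1 / 2 : ℂ) • ∑ i, ∑ j, a i j • (gv (.y i) * gv (.y j)) := by
          rw [sub_add_cancel]
        rw [e]
        exact add_mem ht' (hsm _ _ (sum_mem fun i _ => sum_mem fun j _ =>
          hsm _ _ (P'.asIdeal.mul_mem_left _ (hy j))))
      refine le_antisymm (IsLocalRing.le_maximalIdeal P'.isPrime.ne_top) (max_le_gr fun v => ?_)
      cases v with
      | x i => exact hx2 i
      | t => exact ht2
      | y i => exact hy i)
  have h'' : (Formal d).HolLattice (Tw (lvAut b) (Tw (shAut ha) L)) := HolLattice_tw (lvAut b) h'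
  have hR : (Formal d).RegLattice (Tw (lvAut b) (Tw (shAut ha) L)) :=
    { fin := h''.fin
      sinj := h''.sinj
      reg := h''.reg
      gen := generic_of h''.fin fun P hI hx => by
        refine h9_max (lvAut b).bar P (hb _ (h9_le (lvAut b) P hI) fun i => ?_)
        rw [← bar_lv_x b, h9_mem']
        exact hx i }
  exact ⟨Aut.trans (lvAut b) (shAut ha), hR⟩

/-! ## row h10: generators and relations -/

/-- generators and relations over `E(0)` (the part of `Fam` without `lat`) -/
structure GenRel (d : ℕ) (L : Type) [AddCommGroup L] [Module (Formal d).ring L] {m : ℕ}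
    (n : Fin m → L) : Prop where
  gen : ∀ u : L, ∃ f : Fin m → (Formal d).ring, u = ∑ i, f i • n i
  rel : ∀ f : Fin m → (Formal d).ring, ∑ i, f i • n i = 0 → ∃ (q : ℕ)
        (c : Fin q → (Formal d).ring) (b : Fin q → Fin m → (Micro d).ring),
        (∀ l, ∑ i, iot d (b l i) • n i = 0) ∧ ∀ i, f i = ∑ l, c l * iot d (b l i)

private lemma h10_sum (χ : Aut d) {m : ℕ} (n : Fin m → L) (f : Fin m → (Formal d).ring) :
    ∑ i, f i • Tw.of χ (n i) = Tw.of χ (∑ i, χ.onF (f i) • n i) := by
  have h : ∀ s : Finset (Fin m), ∑ i ∈ s, f i • Tw.of χ (n i)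
      = Tw.of χ (∑ i ∈ s, χ.onF (f i) • n i) := by
    classical
    intro s
    induction s using Finset.induction_on with
    | empty => rfl
    | insert a s ha ih => rw [Finset.sum_insert ha, Finset.sum_insert ha, ih]; rfl
  exact h Finset.univ

theorem GenRel.of_tw (χ : Aut d) {m : ℕ} (n : Fin m → L)
    (h : GenRel d (Tw χ L) (fun i => Tw.of χ (n i))) : GenRel d L n := by
  constructor
  · intro u
    obtain ⟨f, hf⟩ := h.gen (Tw.of χ u)
    rw [h10_sum] at hf
    exact ⟨fun i => χ.onF (f i), hf⟩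
  · intro f hf
    have h0 : ∑ i, χ.onF.symm (f i) • Tw.of χ (n i) = 0 := by
      rw [h10_sum]
      simp only [RingEquiv.apply_symm_apply]
      exact hf
    obtain ⟨q, c, b, h1, h2⟩ := h.rel (fun i => χ.onF.symm (f i)) h0
    refine ⟨q, fun l => χ.onF (c l), fun l i => χ.onM (b l i), fun l => ?_, fun i => ?_⟩
    · have h3 := h1 l
      rw [h10_sum] at h3
      simp only [Aut.onF_iot] at h3
      exact h3
    · have h3 := congrArg χ.onF (h2 i)
      rw [RingEquiv.apply_symm_apply, map_sum] at h3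
      rw [h3]
      exact Finset.sum_congr rfl fun l _ => by rw [map_mul, Aut.onF_iot]

/-- every regular holonomic lattice is presented over `E(0)` -/
theorem exists_genRel (h : (Formal d).HolLattice L) : ∃ (m : ℕ) (n : Fin m → L), GenRel d L n := by
  obtain ⟨χ, hχ⟩ := exists_generic h
  obtain ⟨m, n, hn⟩ := exists_fam hχ
  exact ⟨m, fun i => Tw.out (n i), GenRel.of_tw χ _ ⟨hn.gen, hn.rel⟩⟩

/-! ## row h11: the microdifferential lattice -/

/-! ### row h11: private helpers -/

private lemma h11_up {m : ℕ} {n : Fin m → L} (hn : GenRel d L n) (Q : (Micro d).ring)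
    (hQ : (Micro d).Kills (spn (d := d) n) Q) : (Formal d).Kills L (iot d Q) := by
  intro u
  obtain ⟨f, hf⟩ := hn.gen u
  have h1 : ∀ i, ∃ w : L, iot d Q • n i = (Formal d).s • w := by
    intro i
    obtain ⟨w, hw⟩ := hQ ⟨Res.of (n i), Submodule.subset_span ⟨i, rfl⟩⟩
    exact ⟨Res.out w.1, congrArg Subtype.val hw⟩
  choose w hw using h1
  choose S hS using fun i => (Formal d).exists_comm (iot d Q) (f i)
  choose f' hf' using fun i => (Formal d).mul_s (f i)
  refine ⟨∑ i, (f' i • w i + S i • n i), ?_⟩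
  rw [hf, Finset.smul_sum, Finset.smul_sum]
  refine Finset.sum_congr rfl fun i _ => ?_
  have h2 : iot d Q * f i = f i * iot d Q + (Formal d).s * S i := by
    rw [← hS i]; abel
  rw [smul_smul, h2, add_smul, mul_smul, hw i, smul_smul, hf' i, mul_smul, mul_smul, smul_add]

private lemma h11_down {m : ℕ} {n : Fin m → L} (hn : GenRel d L n) (Q : (Micro d).ring)
    (hQ : (Formal d).Kills L (iot d Q)) : (Micro d).Kills (spn (d := d) n) Q := by
  intro v
  obtain ⟨u, hu⟩ := hQ (Res.out v.1)
  exact sat n hn.gen hn.rel (Q • v) u hu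

/-- `N = spn n` is a regular holonomic lattice over `E(0)`: `sat`, `L = N + s L`
(`exists_level_zero`), so `N / s N = L / s L` and the annihilators agree; regularity as in
`regLattice_spn`: `Q^k N ⊆ s N` implies `Q^k L ⊆ s L`, `Q L ⊆ s L`, `Q N ⊆ s L ∩ N = s N`. -/
theorem GenRel.lat (h : (Formal d).HolLattice L) {m : ℕ} {n : Fin m → L} (hn : GenRel d L n) :
    (Micro d).HolLattice (spn (d := d) n) := by
  refine ⟨Module.Finite.span_of_finite (Micro d).ring (Set.finite_range _), ?_, ?_, ?_⟩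
  · intro u hu
    have h1 : (Formal d).s • Res.out u.1 = 0 := congrArg Subtype.val hu
    exact Subtype.ext (h.sinj _ h1)
  · have h1 : (Micro d).annI (spn (d := d) n) = (Formal d).annI L := by
      ext f
      exact ⟨fun hf => h11_up hn _ hf, fun hf => h11_down hn _ hf⟩
    have h2 := h.hol
    rw [OpRing.Holonomic, ← h1] at h2
    exact h2
  · rintro Q ⟨k, hk⟩
    refine h11_down hn Q (h.reg (iot d Q) ⟨k, ?_⟩)
    rw [← map_pow]
    exact h11_up hn _ hk

/-- the inclusion of the module generated by `n` in `L` -/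
private def h11_phi {m : ℕ} (n : Fin m → L) : spn (d := d) n →+ L where
  toFun v := Res.out v.1
  map_zero' := rfl
  map_add' _ _ := rfl

private lemma h11_inj {m : ℕ} (n : Fin m → L) {v : spn (d := d) n} (h : h11_phi n v = 0) :
    v = 0 := Subtype.ext h

/-- THE THEOREM for lattices: every regular holonomic `hat E_p(0)`-lattice, in any position, is the
extension of scalars of a regular holonomic `E_p(0)`-lattice (`ext_equiv`). -/
theorem exists_ext_hol (h : (Formal d).HolLattice L) :
    ∃ (N : Type) (_ : AddCommGroup N) (_ : Module (Micro d).ring N),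
      (Micro d).HolLattice N ∧ Nonempty (Ext (iot d) N ≃ₗ[(Formal d).ring] L) := by
  obtain ⟨m, n, hn⟩ := exists_genRel h
  refine ⟨spn (d := d) n, inferInstance, inferInstance, hn.lat h, ?_⟩
  have hφ : ∀ (a : (Micro d).ring) (v : spn (d := d) n),
      h11_phi n (a • v) = iot d a • h11_phi n v := fun _ _ => rfl
  let n' : Fin m → spn (d := d) n := fun i => ⟨Res.of (n i), Submodule.subset_span ⟨i, rfl⟩⟩
  have hn' : ∀ i, h11_phi n (n' i) = n i := fun _ => rfl
  obtain ⟨F, -⟩ := ext_equiv (iot d) (h11_phi n) hφ n' (by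
    intro v
    obtain ⟨a, ha⟩ := (Submodule.mem_span_range_iff_exists_fun (Micro d).ring).1 v.2
    refine ⟨a, Subtype.ext ?_⟩
    rw [← ha, AddSubmonoidClass.coe_finsetSum]
    rfl) hn.gen (by
    intro f hf
    obtain ⟨q, c, b, hb, hc⟩ := hn.rel f hf
    refine ⟨q, c, b, fun l => h11_inj n ?_, hc⟩
    rw [map_sum]
    simp only [hφ, hn']
    exact hb l)
  exact ⟨F⟩

/-! ## row h12: modules over `E = E(0)[1/s]` -/

/-- A regular holonomic module over `E_p = E_p(0)[∂_t]`, that is a module over `E_p(0)` on which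
`s = ∂_t⁻¹` is bijective: it contains a regular lattice which generates it. -/
structure OpRing.RegHolM (A : OpRing d) (M : Type) [AddCommGroup M] [Module A.ring M] : Prop where
  bij : Function.Bijective fun u : M => A.s • u
  lat : ∃ L : Submodule A.ring M, A.HolLattice L ∧ ∀ u : M, ∃ k : ℕ, A.s ^ k • u ∈ L

/-! ### row h12: private helpers -/

private lemma h12_s_mul_pow (A : OpRing d) (k : ℕ) (Q : A.ring) :
    ∃ Q' : A.ring, A.s ^ k * Q = Q' * A.s ^ k := by
  induction k generalizing Q with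
  | zero => exact ⟨Q, by rw [pow_zero, one_mul, mul_one]⟩
  | succ k ih =>
    obtain ⟨Q1, h1⟩ := A.s_mul Q
    obtain ⟨Q2, h2⟩ := ih Q1
    exact ⟨Q2, by rw [pow_succ, mul_assoc, h1, ← mul_assoc, h2, mul_assoc]⟩

private lemma h12_mul_s_pow (A : OpRing d) (k : ℕ) (Q : A.ring) :
    ∃ Q' : A.ring, Q * A.s ^ k = A.s ^ k * Q' := by
  induction k generalizing Q with
  | zero => exact ⟨Q, by rw [pow_zero, one_mul, mul_one]⟩
  | succ k ih =>
    obtain ⟨Q1, h1⟩ := A.mul_s Q
    obtain ⟨Q2, h2⟩ := ih Q1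
    exact ⟨Q2, by rw [pow_succ', ← mul_assoc, h1, mul_assoc, h2, ← mul_assoc]⟩

private lemma h12_s_inj (A : OpRing d) (k : ℕ) {Q Q' : A.ring} (h : A.s ^ k * Q = A.s ^ k * Q') :
    Q = Q' := by
  induction k with
  | zero => simpa using h
  | succ k ih =>
    apply ih
    rw [pow_succ', mul_assoc, mul_assoc] at h
    have h1 : A.s * (A.s ^ k * Q - A.s ^ k * Q') = 0 := by rw [mul_sub, h, sub_self]
    have h2 : (A.s ^ k * Q - A.s ^ k * Q').1.sym = 0 :=
      comp_vs_left_inj (congrArg (fun x : A.ring => x.1.sym) h1)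
    have h3 : A.s ^ k * Q - A.s ^ k * Q' = 0 := Subtype.ext h2
    exact sub_eq_zero.1 h3

/-- transport of lattices -/
private lemma h12_transport (A : OpRing d) {L L' : Type} [AddCommGroup L] [Module A.ring L]
    [AddCommGroup L'] [Module A.ring L'] (e : L ≃ₗ[A.ring] L') (h : A.HolLattice L) :
    A.HolLattice L' := by
  have hk : ∀ Q : A.ring, A.Kills L' Q → A.Kills L Q := fun Q hQ u => by
    obtain ⟨w, hw⟩ := hQ (e u)
    refine ⟨e.symm w, e.injective ?_⟩
    rw [map_smul, map_smul, hw, LinearEquiv.apply_symm_apply]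
  have hk' : ∀ Q : A.ring, A.Kills L Q → A.Kills L' Q := fun Q hQ u => by
    obtain ⟨w, hw⟩ := hQ (e.symm u)
    refine ⟨e w, ?_⟩
    rw [← map_smul, ← hw, map_smul, LinearEquiv.apply_symm_apply]
  refine ⟨?_, ?_, ?_, ?_⟩
  · have := h.fin
    exact Module.Finite.equiv e
  · intro u hu
    have h1 : A.s • e.symm u = 0 := by rw [← map_smul, hu, map_zero]
    have h2 := h.sinj _ h1
    rwa [LinearEquiv.map_eq_zero_iff] at h2
  · have h1 : A.annI L' = A.annI L := by
      ext f
      exact ⟨fun hf => hk _ hf, fun hf => hk' _ hf⟩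
    rw [OpRing.Holonomic, h1]
    exact h.hol
  · rintro Q ⟨n, hn⟩
    exact hk' Q (h.reg Q ⟨n, hk _ hn⟩)

private lemma h12_pow_inj {M : Type} [AddCommGroup M] [Module (Formal d).ring M]
    (hb : Function.Bijective fun u : M => (Formal d).s • u) (k : ℕ) {u u' : M}
    (h : (Formal d).s ^ k • u = (Formal d).s ^ k • u') : u = u' := by
  induction k generalizing u u' with
  | zero => simpa using h
  | succ k ih =>
    rw [pow_succ, mul_smul, mul_smul] at h
    exact hb.1 (ih h)

private lemma h12_pow_surj {M : Type} [AddCommGroup M] [Module (Formal d).ring M]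
    (hb : Function.Bijective fun u : M => (Formal d).s • u) (k : ℕ) (u : M) :
    ∃ w : M, (Formal d).s ^ k • w = u := by
  induction k generalizing u with
  | zero => exact ⟨u, by rw [pow_zero, one_smul]⟩
  | succ k ih =>
    obtain ⟨w, hw⟩ := ih u
    obtain ⟨w', hw'⟩ := hb.2 w
    refine ⟨w', ?_⟩
    have h1 : (Formal d).s • w' = w := hw'
    rw [pow_succ, mul_smul, h1, hw]

private lemma h12_smul_pow {M : Type} [AddCommGroup M] [Module (Formal d).ring M] (k : ℕ) (u : M) :
    (Micro d).s ^ k • (Res.of u : Res M) = Res.of ((Formal d).s ^ k • u) := by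
  rw [Res.smul_def, map_pow]
  rfl

section

variable {M : Type} [AddCommGroup M] [Module (Formal d).ring M]
  {L : Submodule (Formal d).ring M} {m : ℕ}

/-- the inclusion of the span of the family -/
private noncomputable def h12_inc (n : Fin m → L) : spn (d := d) n →ₗ[(Micro d).ring] Res M where
  toFun v := Res.of ((Res.out v.1 : L) : M)
  map_add' _ _ := rfl
  map_smul' _ _ := rfl

private lemma h12_inc_inj (n : Fin m → L) : Function.Injective (h12_inc (d := d) n) := by
  intro u v h
  exact Subtype.ext (Subtype.ext h)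

/-- the module over `E(0)[1/s]` -/
private noncomputable def h12_N (n : Fin m → L) : Submodule (Micro d).ring (Res M) where
  carrier := {u | ∃ (k : ℕ) (v : spn (d := d) n), (Micro d).s ^ k • u = h12_inc n v}
  add_mem' := by
    rintro u u' ⟨k, v, hv⟩ ⟨k', v', hv'⟩
    refine ⟨k + k', (Micro d).s ^ k' • v + (Micro d).s ^ k • v', ?_⟩
    rw [map_add, map_smul, map_smul, ← hv, ← hv', smul_add, smul_smul, smul_smul, ← pow_add,
      ← pow_add, add_comm k' k]
  zero_mem' := ⟨0, 0, by rw [smul_zero, map_zero]⟩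
  smul_mem' := by
    rintro a u ⟨k, v, hv⟩
    obtain ⟨a', ha'⟩ := h12_s_mul_pow (Micro d) k a
    refine ⟨k, a' • v, ?_⟩
    rw [smul_smul, ha', mul_smul, hv, map_smul]

private lemma h12_bij (hb : Function.Bijective fun u : M => (Formal d).s • u) (n : Fin m → L) :
    Function.Bijective fun u : h12_N (d := d) n => (Micro d).s • u := by
  constructor
  · intro u v h
    have h1 : (Formal d).s • Res.out u.1 = (Formal d).s • Res.out v.1 := congrArg Subtype.val h
    exact Subtype.ext (hb.1 h1)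
  · rintro ⟨u, k, v, hv⟩
    obtain ⟨w, hw⟩ := hb.2 (Res.out u)
    have hw' : (Micro d).s • (Res.of w : Res M) = u := hw
    refine ⟨⟨Res.of w, k + 1, v, ?_⟩, Subtype.ext hw'⟩
    rw [pow_succ, mul_smul, hw', hv]

/-- the lattice in the module -/
private noncomputable def h12_lat (n : Fin m → L) :
    spn (d := d) n →ₗ[(Micro d).ring] h12_N (d := d) n :=
  (h12_inc n).codRestrict _ fun v => ⟨0, v, by rw [pow_zero, one_smul]⟩

private lemma h12_lat_inj (n : Fin m → L) : Function.Injective (h12_lat (d := d) n) := by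
  intro u v h
  have h1 : h12_inc n u = h12_inc n v := congrArg (fun x : h12_N (d := d) n => x.1) h
  exact h12_inc_inj n h1

private lemma h12_hol (hb : Function.Bijective fun u : M => (Formal d).s • u) (n : Fin m → L)
    (h : (Micro d).HolLattice (spn (d := d) n)) : (Micro d).RegHolM (h12_N (d := d) n) := by
  refine ⟨h12_bij hb n, LinearMap.range (h12_lat n), ?_, ?_⟩
  · exact h12_transport (Micro d) (LinearEquiv.ofInjective (h12_lat n) (h12_lat_inj n)) h
  · rintro ⟨u, k, v, hv⟩
    exact ⟨k, v, Subtype.ext hv.symm⟩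

/-- the family divided by `s ^ k` -/
private lemma h12_exists_nu (hb : Function.Bijective fun u : M => (Formal d).s • u)
    (n : Fin m → L) (k : ℕ) (i : Fin m) :
    ∃ ν : h12_N (d := d) n, (Formal d).s ^ k • Res.out ν.1 = (n i : M) := by
  obtain ⟨w, hw⟩ := h12_pow_surj hb k (n i : M)
  refine ⟨⟨Res.of w, k, ⟨Res.of (n i), Submodule.subset_span ⟨i, rfl⟩⟩, ?_⟩, hw⟩
  rw [h12_smul_pow, hw]
  rfl

private lemma h12_rep (hb : Function.Bijective fun u : M => (Formal d).s • u) (n : Fin m → L)
    (ν : ℕ → Fin m → h12_N (d := d) n)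
    (hν : ∀ k i, (Formal d).s ^ k • Res.out (ν k i).1 = (n i : M)) (u : h12_N (d := d) n) :
    ∃ K : ℕ, ∀ k, K ≤ k → ∃ a : Fin m → (Micro d).ring, u = ∑ i, a i • ν k i := by
  obtain ⟨u, K, v, hv⟩ := u
  refine ⟨K, fun k hk => ?_⟩
  have h1 : (Micro d).s ^ k • u = h12_inc n ((Micro d).s ^ (k - K) • v) := by
    rw [map_smul, ← hv, smul_smul, ← pow_add, Nat.sub_add_cancel hk]
  obtain ⟨a, ha⟩ := (Submodule.mem_span_range_iff_exists_fun (Micro d).ring).1
    ((Micro d).s ^ (k - K) • v).2
  have h2 : (Micro d).s ^ k • u = ∑ i, a i • (Res.of (n i : M) : Res M) := by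
    rw [h1]
    have h3 : (h12_inc n ((Micro d).s ^ (k - K) • v) : M) =
        ((Res.out ((Micro d).s ^ (k - K) • v : spn (d := d) n).1 : L) : M) := rfl
    have h4 : ((Res.out (∑ i, a i • (Res.of (n i) : Res L)) : L) : M) =
        Res.out (∑ i, a i • (Res.of (n i : M) : Res M)) := by
      have h5 : ∀ s : Finset (Fin m), ((Res.out (∑ i ∈ s, a i • (Res.of (n i) : Res L)) : L) : M) =
          Res.out (∑ i ∈ s, a i • (Res.of (n i : M) : Res M)) := by
        intro s
        induction s using Finset.induction_on with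
        | empty => rfl
        | insert i s hi ih =>
          rw [Finset.sum_insert hi, Finset.sum_insert hi]
          exact congrArg₂ (fun x y : M => x + y) rfl ih
      exact h5 Finset.univ
    rw [ha] at h4
    exact h3.trans h4
  choose a' ha' using fun i => h12_mul_s_pow (Micro d) k (a i)
  refine ⟨a', ?_⟩
  have h6 : (Micro d).s ^ k • u = (Micro d).s ^ k • (∑ i, a' i • ν k i : h12_N (d := d) n).1 := by
    rw [h2, Submodule.coe_sum, Finset.smul_sum]
    refine Finset.sum_congr rfl fun i _ => ?_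
    have h7 : (Res.of (n i : M) : Res M) = (Micro d).s ^ k • (ν k i).1 := by
      have h8 := h12_smul_pow (d := d) k (Res.out (ν k i).1)
      rw [hν k i] at h8
      exact h8.symm
    rw [h7, smul_smul, ha', mul_smul, Submodule.coe_smul]
  have h9 := h12_smul_pow (d := d) k (Res.out u)
  have h10 := h12_smul_pow (d := d) k (Res.out (∑ i, a' i • ν k i : h12_N (d := d) n).1)
  exact Subtype.ext (h12_pow_inj hb k (h9.symm.trans (h6.trans h10)))

end

/-- THE THEOREM: every regular holonomic `hat E_p`-module is the extension of scalars of a regular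
holonomic `E_p`-module. Proof as for `exists_ext_M` (row m1 of block A). -/
theorem exists_ext_hol_M {M : Type} [AddCommGroup M] [Module (Formal d).ring M]
    (h : (Formal d).RegHolM M) : ∃ (N : Type) (_ : AddCommGroup N) (_ : Module (Micro d).ring N),
      (Micro d).RegHolM N ∧ Nonempty (Ext (iot d) N ≃ₗ[(Formal d).ring] M) := by
  classical
  obtain ⟨L, hL, hLM⟩ := h.lat
  obtain ⟨m, n, hn⟩ := exists_genRel hL
  have hb := h.bij
  choose ν hν using h12_exists_nu (d := d) hb n
  refine ⟨h12_N (d := d) n, inferInstance, inferInstance, h12_hol hb n (hn.lat hL), ?_⟩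
  let φ : h12_N (d := d) n →+ M :=
    { toFun := fun u => Res.out u.1
      map_zero' := rfl
      map_add' := fun _ _ => rfl }
  have hφ : ∀ (a : (Micro d).ring) (u : h12_N (d := d) n), φ (a • u) = iot d a • φ u :=
    fun _ _ => rfl
  obtain ⟨F, hF⟩ := exists_lift (iot d) φ hφ
  have hφν : ∀ k i, (Formal d).s ^ k • φ (ν k i) = (n i : M) := hν
  -- representation of the elements
  have hrep : ∀ z : Ext (iot d) (h12_N (d := d) n), ∃ K : ℕ, ∀ k, K ≤ k →
      ∃ f : Fin m → (Formal d).ring, z = ∑ i, tm (iot d) (f i) (ν k i) := by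
    intro z
    refine ext_induction (iot d) (p := fun z => ∃ K : ℕ, ∀ k, K ≤ k →
      ∃ f : Fin m → (Formal d).ring, z = ∑ i, tm (iot d) (f i) (ν k i)) ?_ ?_ z
    · intro b u
      obtain ⟨K, hK⟩ := h12_rep hb n ν hν u
      refine ⟨K, fun k hk => ?_⟩
      obtain ⟨a, ha⟩ := hK k hk
      refine ⟨fun i => b * iot d (a i), ?_⟩
      rw [ha, tm_sum_right]
      exact Finset.sum_congr rfl fun i _ => (tm_mul (iot d) b (a i) (ν k i)).symm
    · rintro u v ⟨K, hK⟩ ⟨K', hK'⟩
      refine ⟨max K K', fun k hk => ?_⟩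
      obtain ⟨f, hf⟩ := hK k ((le_max_left _ _).trans hk)
      obtain ⟨g, hg⟩ := hK' k ((le_max_right _ _).trans hk)
      refine ⟨fun i => f i + g i, ?_⟩
      rw [hf, hg, ← Finset.sum_add_distrib]
      exact Finset.sum_congr rfl fun i _ => (tm_add_left (iot d) (f i) (g i) (ν k i)).symm
  have hinj : Function.Injective F := by
    rw [injective_iff_map_eq_zero]
    intro z hz
    obtain ⟨k, hk⟩ := hrep z
    obtain ⟨f, hf⟩ := hk k le_rfl
    have h1 : ∑ i, f i • φ (ν k i) = 0 := by
      rw [← hz, hf, map_sum]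
      exact Finset.sum_congr rfl fun i _ => (hF (f i) (ν k i)).symm
    choose f'' hf'' using fun i => h12_s_mul_pow (Formal d) k (f i)
    have h2 : ∑ i, f'' i • n i = 0 := by
      refine Subtype.ext ?_
      rw [Submodule.coe_sum, Submodule.coe_zero]
      have h3 : ∀ i, ((f'' i • n i : L) : M) = (Formal d).s ^ k • f i • φ (ν k i) := fun i => by
        rw [Submodule.coe_smul, ← hφν k i, smul_smul, ← hf'', mul_smul]
      rw [Finset.sum_congr rfl fun i _ => h3 i, ← Finset.smul_sum, h1, smul_zero]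
    obtain ⟨q, c, b, hb0, hfb⟩ := hn.rel f'' h2
    choose b' hb' using fun l i => h12_mul_s_pow (Micro d) k (b l i)
    choose c' hc' using fun l => h12_mul_s_pow (Formal d) k (c l)
    have hib : ∀ l i, iot d (b l i) * (Formal d).s ^ k = (Formal d).s ^ k * iot d (b' l i) := by
      intro l i
      have h3 := congrArg (iot d) (hb' l i)
      rw [map_mul, map_mul, map_pow] at h3
      exact h3
    have h4 : ∀ l, ∑ i, b' l i • ν k i = 0 := by
      intro l
      refine Subtype.ext ?_
      have h5 : φ (∑ i, b' l i • ν k i) = 0 := by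
        refine h12_pow_inj hb k ?_
        rw [map_sum, smul_zero, Finset.smul_sum]
        have h6 := congrArg (fun x : L => (x : M)) (hb0 l)
        simp only [Submodule.coe_sum, Submodule.coe_zero, Submodule.coe_smul] at h6
        rw [← h6]
        refine Finset.sum_congr rfl fun i _ => ?_
        rw [hφ, smul_smul, ← hib, mul_smul, hφν]
      exact h5
    have h7 : ∀ i, f i = ∑ l, c' l * iot d (b' l i) := by
      intro i
      refine h12_s_inj (Formal d) k ?_
      rw [hf'', hfb, Finset.sum_mul, Finset.mul_sum]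
      refine Finset.sum_congr rfl fun l _ => ?_
      rw [mul_assoc, hib, ← mul_assoc, hc', mul_assoc]
    rw [hf]
    have h8 : ∀ i, tm (iot d) (f i) (ν k i) = ∑ l, tm (iot d) (c' l) (b' l i • ν k i) := by
      intro i
      rw [h7 i, tm_sum_left]
      exact Finset.sum_congr rfl fun l _ => tm_mul (iot d) (c' l) (b' l i) (ν k i)
    rw [Finset.sum_congr rfl fun i _ => h8 i, Finset.sum_comm]
    refine Finset.sum_eq_zero fun l _ => ?_
    rw [← tm_sum_right, h4, tm_zero_right]
  have hsurj : Function.Surjective F := by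
    intro u
    obtain ⟨k, hk⟩ := hLM u
    obtain ⟨f, hf⟩ := hn.gen ⟨(Formal d).s ^ k • u, hk⟩
    have hf1 : (Formal d).s ^ k • u = ∑ i, f i • (n i : M) := by
      have h3 := congrArg (fun x : L => (x : M)) hf
      simp only [Submodule.coe_sum, Submodule.coe_smul] at h3
      exact h3
    choose f' hf' using fun i => h12_mul_s_pow (Formal d) k (f i)
    refine ⟨∑ i, tm (iot d) (f' i) (ν k i), h12_pow_inj hb k ?_⟩
    rw [hf1, map_sum, Finset.smul_sum]
    refine Finset.sum_congr rfl fun i _ => ?_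
    rw [hF, ← hφν k i, smul_smul, smul_smul, hf']
  exact ⟨LinearEquiv.ofBijective F ⟨hinj, hsurj⟩⟩

end Pool.Agent.Ep
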