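import Pool.Agent.Ep.Div

/-!
# Modules over the rings of operators (P11, block A, helper39)
-/

set_option autoImplicit false

namespace Pool.Agent.Ep

open MvPowerSeries
open Pool.Fml (Ser SymRing formal micro)

variable {d : ℕ}

/-- division by a variable: `coeff m (shf v f) = coeff (m + v) f` -/
noncomputable def shf (v : Option (Var d)) (f : Sym d) : Sym d :=
  fun m => coeff (m + Finsupp.single v 1) f

/-- a ring of operators with the closure properties of `E_p(0)` and `hat E_p(0)` -/
structure OpRing (d : ℕ) where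
  /-- the operators -/
  ring : Subring (Op d)
  le : micE d ≤ ring
  solid : ∀ f g : Sym d, op f ∈ ring → (∀ m, ‖coeff m g‖ ≤ ‖coeff m f‖) → op g ∈ ring
  shf : ∀ (f : Sym d) (v : Option (Var d)), op f ∈ ring → op (shf v f) ∈ ring
  pd : ∀ (f : Sym d) (v : Option (Var d)), op f ∈ ring → op (pderiv ℂ v f) ∈ ring
  rho : ∀ f : Sym d, op f ∈ ring → op (rho f) ∈ ring

/-! ## row o1: the two rings -/

private lemma o1_pd (v : Option (Var d)) (f : Sym d) (m : Option (Var d) →₀ ℕ) :
    ‖coeff m (pderiv ℂ v f)‖ = ‖coeff (m + Finsupp.single v 1) f‖ * ((m v : ℝ) + 1) := by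
  rw [coeff_pderiv, norm_mul]
  congr 1
  have : ((m v : ℂ) + 1) = ((m v + 1 : ℕ) : ℂ) := by push_cast; rfl
  rw [this, Complex.norm_natCast]
  push_cast; rfl

private lemma o1_shf (v : Option (Var d)) (f : Sym d) (m : Option (Var d) →₀ ℕ) :
    ‖coeff m (shf v f)‖ ≤ ‖coeff (m + Finsupp.single v 1) f‖ * ((m v : ℝ) + 1) := by
  have h : coeff m (shf v f) = coeff (m + Finsupp.single v 1) f := rfl
  rw [h]
  exact le_mul_of_one_le_right (norm_nonneg _) (by linarith [(Nat.cast_nonneg (m v) : (0:ℝ) ≤ _)])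

private lemma o1_micro {f g : Sym d} (hf : IsMicro f) (i : Option (Var d))
    (hg : ∀ m, ‖coeff m g‖ ≤ ‖coeff (m + Finsupp.single i 1) f‖ * ((m i : ℝ) + 1)) :
    IsMicro g := by
  obtain ⟨C, hC⟩ := hf
  set D : ℝ := max |C| 1 with hD
  have hD1 : 1 ≤ D := le_max_right _ _
  have hD0 : 0 < D := by linarith
  have hCD : ∀ m, ‖coeff m f‖ ≤ D ^ (m.degree + 1) * (m none).factorial := fun m => by
    refine (hC m).trans (mul_le_mul_of_nonneg_right ((le_abs_self _).trans ?_) (by positivity))
    rw [abs_pow]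
    exact pow_le_pow_left₀ (abs_nonneg _) (le_max_left _ _) _
  refine ⟨4 * D ^ 2, fun m => ?_⟩
  refine (hg m).trans ?_
  have h3 : ∀ i, ((m i : ℝ) + 1) ≤ 2 ^ (m.degree + 1) := fun i => by
    have h2 : m i ≤ m.degree := by
      rw [Finsupp.degree_eq_sum]
      exact Finset.single_le_sum (f := fun i => m i) (fun _ _ => Nat.zero_le _)
        (Finset.mem_univ i)
    have h3 : m.degree + 1 < 2 ^ (m.degree + 1) := Nat.lt_two_pow_self
    have h4 : m i + 1 ≤ 2 ^ (m.degree + 1) := by omega
    exact_mod_cast h4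
  have h5 : (((m + Finsupp.single i 1 : Option (Var d) →₀ ℕ) none).factorial : ℝ)
      ≤ 2 ^ (m.degree + 1) * (m none).factorial := by
    rcases eq_or_ne i none with h | h
    · subst h
      rw [Finsupp.add_apply, Finsupp.single_eq_same, Nat.factorial_succ]
      push_cast
      exact mul_le_mul_of_nonneg_right (h3 none) (by positivity)
    · rw [Finsupp.add_apply, Finsupp.single_eq_of_ne h.symm, add_zero]
      exact le_mul_of_one_le_left (by positivity) (one_le_pow₀ (by norm_num))
  have h6 : (m + Finsupp.single i 1 : Option (Var d) →₀ ℕ).degree = m.degree + 1 := by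
    rw [map_add, Finsupp.degree_single]
  calc ‖coeff (m + Finsupp.single i 1) f‖ * ((m i : ℝ) + 1)
      ≤ (D ^ (m.degree + 1 + 1) * (2 ^ (m.degree + 1) * (m none).factorial)) * 2 ^ (m.degree + 1) := by
        refine mul_le_mul ((hCD _).trans ?_) (h3 i) (by positivity) (by positivity)
        rw [h6]
        exact mul_le_mul_of_nonneg_left h5 (by positivity)
    _ ≤ ((D ^ 2) ^ (m.degree + 1) * (2 ^ (m.degree + 1) * (m none).factorial)) * 2 ^ (m.degree + 1) := by
        refine mul_le_mul_of_nonneg_right (mul_le_mul_of_nonneg_right ?_ (by positivity))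
          (by positivity)
        rw [← pow_mul]
        exact pow_le_pow_right₀ hD1 (by omega)
    _ = (4 * D ^ 2) ^ (m.degree + 1) * (m none).factorial := by
        have : (4 : ℝ) ^ (m.degree + 1) = 2 ^ (m.degree + 1) * 2 ^ (m.degree + 1) := by
          rw [← mul_pow]; norm_num
        rw [mul_pow, this]; ring

lemma isFormal_solid {f g : Sym d} (hf : IsFormal f) (h : ∀ m, ‖coeff m g‖ ≤ ‖coeff m f‖) :
    IsFormal g := Pool.Fml.Tame.mono (ν := Var d) (b := fun m => ‖coeff m f‖) hf h
lemma isMicro_solid {f g : Sym d} (hf : IsMicro f) (h : ∀ m, ‖coeff m g‖ ≤ ‖coeff m f‖) :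
    IsMicro g := by
  obtain ⟨C, hC⟩ := hf
  exact ⟨C, fun m => (h m).trans (hC m)⟩
lemma isFormal_shf {f : Sym d} (hf : IsFormal f) (v : Option (Var d)) : IsFormal (shf v f) :=
  Pool.Fml.Tame.shift (ν := Var d) (a := fun m => ‖coeff m f‖) (fun _ => norm_nonneg _) hf v
    (o1_shf v f)
lemma isMicro_shf {f : Sym d} (hf : IsMicro f) (v : Option (Var d)) : IsMicro (shf v f) :=
  o1_micro hf v (o1_shf v f)
lemma isFormal_pd {f : Sym d} (hf : IsFormal f) (v : Option (Var d)) :
    IsFormal (pderiv ℂ v f) :=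
  Pool.Fml.Tame.shift (ν := Var d) (a := fun m => ‖coeff m f‖) (fun _ => norm_nonneg _) hf v
    fun m => (o1_pd v f m).le
lemma isMicro_pd {f : Sym d} (hf : IsMicro f) (v : Option (Var d)) : IsMicro (pderiv ℂ v f) :=
  o1_micro hf v fun m => (o1_pd v f m).le

/-- formal operators -/
def Formal (d : ℕ) : OpRing d where
  ring := hatE d
  le := micE_le
  solid _ _ hf h := isFormal_solid hf h
  shf _ v hf := isFormal_shf hf v
  pd _ v hf := isFormal_pd hf v
  rho _ hf := isFormal_rho hf

/-- microdifferential operators -/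
def Micro (d : ℕ) : OpRing d where
  ring := micE d
  le := le_rfl
  solid _ _ hf h := isMicro_solid hf h
  shf _ v hf := isMicro_shf hf v
  pd _ v hf := isMicro_pd hf v
  rho _ hf := isMicro_rho hf

/-- the inclusion of the microdifferential operators in the formal operators -/
noncomputable def iot (d : ℕ) : (Micro d).ring →+* (Formal d).ring := Subring.inclusion micE_le

namespace OpRing

variable (A : OpRing d)

/-- `s` -/
noncomputable def s : A.ring := ⟨op vs, A.le (isMicro_X none)⟩
/-- `x_i` -/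
noncomputable def x (i : Fin d) : A.ring := ⟨op (vx i), A.le (isMicro_X _)⟩
/-- `t` (for `none`) and `y_i = ∂_{x_i} ∂_t⁻¹` (for `some i`) -/
noncomputable def v (j : Option (Fin d)) : A.ring :=
  ⟨op (V j), A.le (by cases j <;> exact isMicro_X _)⟩
/-- constants -/
noncomputable def cst (c : ℂ) : A.ring := ⟨op (C c), A.le (isMicro_C c)⟩

variable (L : Type) [AddCommGroup L] [Module A.ring L]

/-- `s` is injective on `L` -/
def SInj : Prop := ∀ u : L, A.s • u = 0 → u = 0

/-- `Q L ⊆ s L` -/
def Kills (Q : A.ring) : Prop := ∀ u : L, ∃ w : L, Q • u = A.s • w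

/-- `J_Λ L ⊆ L`: if the symbol of `Q` vanishes on the support `Λ` of `L / s L`, that is if a power of
`Q` maps `L` to `s L`, then `Q` maps `L` to `s L` -/
def Regular : Prop := ∀ Q : A.ring, (∃ n : ℕ, A.Kills L (Q ^ n)) → A.Kills L Q

/-- generic position: `L / (x_1 L + … + x_d L + s L)` is a finite dimensional vector space -/
def Generic : Prop := ∃ (m : ℕ) (e : Fin m → L), ∀ u : L, ∃ (c : Fin m → ℂ) (v : Fin d → L) (w : L),
  u = ∑ i, A.cst (c i) • e i + ∑ i, A.x i • v i + A.s • w

/-- a regular lattice in generic position -/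
structure RegLattice : Prop where
  fin : Module.Finite A.ring L
  sinj : A.SInj L
  gen : A.Generic L
  reg : A.Regular L

/-! ## row p1: the submodule `x L + s L` -/

variable {L}

private lemma p1_alg (c : ℂ) : op (C c : Sym d) = algebraMap ℂ (Op d) c :=
  Op.ext (algebraMap_sym c).symm

lemma mul_x (Q : A.ring) (i : Fin d) : ∃ Q' : A.ring, Q * A.x i = A.x i * Q + Q' * A.s := by
  refine ⟨⟨op (pderiv ℂ (some (.y i)) Q.1.sym), A.pd _ _ Q.2⟩, Subtype.ext (Op.ext ?_)⟩
  show comp Q.1.sym (vx i) = comp (vx i) Q.1.sym + comp (pderiv ℂ (some (.y i)) Q.1.sym) vs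
  rw [comp_vx_right, comp_vx_left, comp_vs_right, mul_comm (vx i)]
  congr 1
  rw [mul_comm]
  rfl
lemma mul_s (Q : A.ring) : ∃ Q' : A.ring, Q * A.s = A.s * Q' := by
  refine ⟨Q + ⟨op (pderiv ℂ (some .t) Q.1.sym), A.pd _ _ Q.2⟩ * A.s, Subtype.ext (Op.ext ?_)⟩
  show comp Q.1.sym vs = comp vs (Q.1.sym + comp (pderiv ℂ (some .t) Q.1.sym) vs)
  rw [comp_vs_right (pderiv ℂ (some .t) Q.1.sym), mul_comm _ vs]
  exact (rho_inv Q.1.sym).symm
lemma s_mul (Q : A.ring) : ∃ Q' : A.ring, A.s * Q = Q' * A.s :=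
  ⟨⟨op (Ep.rho Q.1.sym), A.rho _ Q.2⟩, Subtype.ext (Op.ext (comp_vs_left Q.1.sym))⟩
lemma cst_mul (c : ℂ) (Q : A.ring) : A.cst c * Q = Q * A.cst c := by
  refine Subtype.ext ?_
  show op (C c) * Q.1 = Q.1 * op (C c)
  rw [p1_alg]
  exact Algebra.commutes c Q.1
lemma cst_add (c c' : ℂ) : A.cst (c + c') = A.cst c + A.cst c' := by
  refine Subtype.ext ?_
  show op (C (c + c')) = op (C c) + op (C c')
  rw [p1_alg, p1_alg, p1_alg, map_add]
lemma cst_mul_cst (c c' : ℂ) : A.cst c * A.cst c' = A.cst (c * c') := by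
  refine Subtype.ext ?_
  show op (C c) * op (C c') = op (C (c * c'))
  rw [p1_alg, p1_alg, p1_alg, map_mul]
lemma cst_zero : A.cst 0 = 0 := by
  refine Subtype.ext ?_
  show op (C 0) = 0
  rw [p1_alg, map_zero]
lemma cst_one : A.cst 1 = 1 := by
  refine Subtype.ext ?_
  show op (C 1) = 1
  rw [p1_alg, map_one]

variable (L)

/-- `x_1 L + … + x_d L + s L` is a submodule -/
noncomputable def Z : Submodule A.ring L where
  carrier := {u | ∃ (v : Fin d → L) (w : L), u = ∑ i, A.x i • v i + A.s • w}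
  add_mem' := by
    rintro _ _ ⟨v, w, rfl⟩ ⟨v', w', rfl⟩
    refine ⟨v + v', w + w', ?_⟩
    simp only [Pi.add_apply, smul_add, Finset.sum_add_distrib]
    abel
  zero_mem' := ⟨0, 0, by simp⟩
  smul_mem' := by
    rintro Q _ ⟨v, w, rfl⟩
    choose Q1 h1 using fun i => A.mul_x Q i
    choose Q2 h2 using fun i => A.mul_s (Q1 i)
    obtain ⟨Q3, h3⟩ := A.mul_s Q
    refine ⟨fun i => Q • v i, ∑ i, Q2 i • v i + Q3 • w, ?_⟩
    rw [smul_add, Finset.smul_sum, ← mul_smul Q A.s, h3, mul_smul, smul_add, Finset.smul_sum,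
      ← add_assoc, ← Finset.sum_add_distrib]
    congr 1
    refine Finset.sum_congr rfl fun i _ => ?_
    rw [← mul_smul Q, h1, add_smul, h2, mul_smul, mul_smul]

lemma mem_Z (u : L) : u ∈ A.Z L ↔ ∃ (v : Fin d → L) (w : L), u = ∑ i, A.x i • v i + A.s • w :=
  Iff.rfl

/-- `s L` is a submodule -/
noncomputable def sL : Submodule A.ring L where
  carrier := {u | ∃ w : L, u = A.s • w}
  add_mem' := by
    rintro _ _ ⟨w, rfl⟩ ⟨w', rfl⟩
    exact ⟨w + w', (smul_add _ _ _).symm⟩
  zero_mem' := ⟨0, (smul_zero _).symm⟩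
  smul_mem' := by
    rintro Q _ ⟨w, rfl⟩
    obtain ⟨Q', h⟩ := A.mul_s Q
    exact ⟨Q' • w, by rw [← mul_smul, h, mul_smul]⟩

/-! ## row p2: decomposition of operators -/

private lemma p2_mem_vs_mul {g : Sym d} (hg : op g ∈ A.ring) : op (vs * g) ∈ A.ring := by
  have h : op (vs * g) = op g * op vs := by
    apply Op.ext
    show vs * g = comp g vs
    rw [comp_vs_right, mul_comm]
  rw [h]
  exact A.ring.mul_mem hg (A.le (isMicro_X none))

private lemma p2_left_s {g : Sym d} (hg : op g ∈ A.ring) :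
    ∃ Q0 : A.ring, ((A.s * Q0 : A.ring) : Op d) = op (vs * g) := by
  refine ⟨⟨op (g + vs * B none g), ?_⟩, ?_⟩
  · rw [op_add]
    exact A.ring.add_mem hg (p2_mem_vs_mul A (A.pd g _ hg))
  · show op vs * op (g + vs * B none g) = _
    apply Op.ext
    show comp vs (g + vs * B none g) = vs * g
    rw [rho_inv, comp_vs_right, mul_comm]

private lemma p2_eq_mul_shf (v : Option (Var d)) {f : Sym d} (h : ∀ m, m v = 0 → coeff m f = 0) :
    f = X v * Ep.shf v f := by
  obtain ⟨g, hg⟩ := MvPowerSeries.X_dvd_iff.2 h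
  have h2 : Ep.shf v f = g := by
    apply MvPowerSeries.ext
    intro m
    show coeff (m + Finsupp.single v 1) f = coeff m g
    rw [hg, add_comm m, MvPowerSeries.X, MvPowerSeries.coeff_add_monomial_mul, one_mul]
  rw [h2, ← hg]

/-- restriction of a series to a set of exponents -/
private noncomputable def p2_rst (p : (Option (Var d) →₀ ℕ) → Prop) [DecidablePred p] (f : Sym d) :
    Sym d := fun m => if p m then coeff m f else 0

private lemma p2_coeff_rst (p : (Option (Var d) →₀ ℕ) → Prop) [DecidablePred p] (f : Sym d)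
    (m : Option (Var d) →₀ ℕ) : coeff m (p2_rst p f) = if p m then coeff m f else 0 := rfl

private lemma p2_mem_rst (p : (Option (Var d) →₀ ℕ) → Prop) [DecidablePred p] {f : Sym d}
    (hf : op f ∈ A.ring) : op (p2_rst p f) ∈ A.ring := by
  refine A.solid f _ hf fun m => ?_
  rw [p2_coeff_rst]
  split_ifs
  · exact le_rfl
  · rw [norm_zero]
    exact norm_nonneg _

/-- `Small` operators are in `∑ x_i A + s A` -/
lemma exists_of_small {f : Sym d} (hf : op f ∈ A.ring) (hs : Small f) :
    ∃ (Q : Fin d → A.ring) (Q0 : A.ring), (⟨op f, hf⟩ : A.ring) = ∑ i, A.x i * Q i + A.s * Q0 := by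
  classical
  -- the part divisible by `s`
  set f0 : Sym d := p2_rst (fun m => m none ≠ 0) f with hf0
  have h0 : f0 = vs * Ep.shf none f0 := p2_eq_mul_shf none fun m hm => by
    rw [hf0, p2_coeff_rst, if_neg (by simpa using hm)]
  have hm0 : op f0 ∈ A.ring := p2_mem_rst A _ hf
  obtain ⟨Q0, hQ0⟩ := p2_left_s A (A.shf f0 none hm0)
  -- the part free of `s`, with `x_i` the first variable `x` which occurs
  set fi : Fin d → Sym d := fun i => p2_rst (fun m => m none = 0 ∧ m (some (.x i)) ≠ 0 ∧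
    ∀ l, l < i → m (some (.x l)) = 0) f with hfi
  have hi : ∀ i, fi i = vx i * Ep.shf (some (.x i)) (fi i) := fun i =>
    p2_eq_mul_shf (some (.x i)) fun m hm => by
      show coeff m (p2_rst _ f) = 0
      rw [p2_coeff_rst, if_neg]
      rintro ⟨_, h, _⟩
      exact h hm
  have hmi : ∀ i, op (Ep.shf (some (.x i)) (fi i)) ∈ A.ring := fun i =>
    A.shf _ _ (p2_mem_rst A _ hf)
  refine ⟨fun i => ⟨_, hmi i⟩, Q0, ?_⟩
  apply Subtype.ext
  apply Op.ext
  show f = ((∑ i, A.x i * (⟨_, hmi i⟩ : A.ring) : A.ring) : Op d).sym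
    + ((A.s * Q0 : A.ring) : Op d).sym
  rw [hQ0, sym_op, ← h0, AddSubmonoidClass.coe_finsetSum, sym_sum]
  have h1 : ∀ i, ((A.x i * (⟨_, hmi i⟩ : A.ring) : A.ring) : Op d).sym = fi i := fun i => by
    show comp (vx i) (Ep.shf (some (.x i)) (fi i)) = fi i
    rw [comp_vx_left, ← hi i]
  simp_rw [h1]
  apply MvPowerSeries.ext
  intro m
  rw [map_add, map_sum]
  by_cases hn : m none = 0
  · have e0 : coeff m f0 = 0 := by rw [hf0, p2_coeff_rst, if_neg (by simpa using hn)]
    rw [e0, add_zero]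
    by_cases hx : ∀ i, m (some (.x i)) = 0
    · rw [hs m hn hx]
      symm
      apply Finset.sum_eq_zero
      intro i _
      show coeff m (p2_rst _ f) = 0
      rw [p2_coeff_rst, if_neg]
      rintro ⟨_, h, _⟩
      exact h (hx i)
    · push Not at hx
      -- the first index
      have hne : (Finset.univ.filter fun i : Fin d => m (some (.x i)) ≠ 0).Nonempty := by
        obtain ⟨i, hi⟩ := hx
        exact ⟨i, by simpa using hi⟩
      set i0 := Finset.min' _ hne with hi0
      have hi0m : m (some (.x i0)) ≠ 0 := by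
        have := Finset.min'_mem _ hne
        simpa using this
      have hi0l : ∀ l, l < i0 → m (some (.x l)) = 0 := by
        intro l hl
        by_contra h
        have := Finset.min'_le (Finset.univ.filter fun i : Fin d => m (some (.x i)) ≠ 0) l
          (by simpa using h)
        exact absurd (lt_of_lt_of_le hl this) (lt_irrefl _)
      rw [Finset.sum_eq_single i0]
      · show coeff m f = coeff m (p2_rst _ f)
        rw [p2_coeff_rst, if_pos ⟨hn, hi0m, hi0l⟩]
      · intro i _ hne'
        show coeff m (p2_rst _ f) = 0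
        rw [p2_coeff_rst, if_neg]
        rintro ⟨_, h1, h2⟩
        rcases lt_trichotomy i i0 with h | h | h
        · exact h1 (hi0l i h)
        · exact hne' h
        · exact hi0m (h2 i0 h)
      · intro h
        exact absurd (Finset.mem_univ _) h
  · have e0 : coeff m f0 = coeff m f := by rw [hf0, p2_coeff_rst, if_pos hn]
    rw [e0, Finset.sum_eq_zero, zero_add]
    intro i _
    show coeff m (p2_rst _ f) = 0
    rw [p2_coeff_rst, if_neg]
    rintro ⟨h, _, _⟩
    exact hn h

/-- conversely -/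
lemma small_of_mem (Q : Fin d → A.ring) (Q0 : A.ring) :
    Small (∑ i, A.x i * Q i + A.s * Q0 : A.ring).1.sym := by
  intro m hn hx
  have h : (∑ i, A.x i * Q i + A.s * Q0 : A.ring).1.sym
      = ∑ i, vx i * (Q i).1.sym + vs * Ep.rho Q0.1.sym := by
    show ((∑ i, A.x i * Q i : A.ring) : Op d).sym + ((A.s * Q0 : A.ring) : Op d).sym = _
    rw [AddSubmonoidClass.coe_finsetSum, sym_sum]
    congr 1
    · apply Finset.sum_congr rfl
      intro i _
      show comp (vx i) (Q i).1.sym = _
      rw [comp_vx_left]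
    · show comp vs Q0.1.sym = _
      rw [comp_vs_left, comp_vs_right, mul_comm]
  rw [h, map_add, map_sum, Finset.sum_eq_zero, zero_add]
  · exact MvPowerSeries.X_dvd_iff.1 (Dvd.intro _ rfl) m hn
  · intro i _
    exact MvPowerSeries.X_dvd_iff.1 (Dvd.intro _ rfl) m (hx i)

/-- every operator is a constant plus `∑ h_j V_j` plus a small operator -/
lemma exists_decomp (Q : A.ring) : ∃ (c : ℂ) (h : Option (Fin d) → A.ring) (f : A.ring),
    Small f.1.sym ∧ Q = A.cst c + ∑ j, h j * A.v j + f := by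
  have hq : ∀ j, op (quo j Q.1.sym) ∈ A.ring := by
    intro j
    refine A.solid _ _ (A.shf Q.1.sym (some (vV j)) Q.2) fun m => ?_
    cases j with
    | none => exact le_rfl
    | some i =>
      show ‖(if m (some .t) = 0 ∧ ∀ l, l < i → m (some (.y l)) = 0 then
        coeff (m + Finsupp.single (some (.y i)) 1) Q.1.sym else 0)‖
        ≤ ‖coeff (m + Finsupp.single (some (.y i)) 1) Q.1.sym‖
      split_ifs
      · exact le_rfl
      · rw [norm_zero]
        exact norm_nonneg _
  refine ⟨constantCoeff Q.1.sym, fun j => ⟨_, hq j⟩,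
    Q - (A.cst (constantCoeff Q.1.sym) + ∑ j, (⟨_, hq j⟩ : A.ring) * A.v j), ?_, by abel⟩
  have h : (Q - (A.cst (constantCoeff Q.1.sym) + ∑ j, (⟨_, hq j⟩ : A.ring) * A.v j) : A.ring).1.sym
      = (bas Q.1.sym - C (constantCoeff Q.1.sym)) - D none (quo none Q.1.sym) := by
    have h1 : (∑ j, (⟨_, hq j⟩ : A.ring) * A.v j : A.ring).1.sym
        = ∑ j, comp (quo j Q.1.sym) (V j) := by
      rw [AddSubmonoidClass.coe_finsetSum, sym_sum]
      rfl
    have h2 : (Q - (A.cst (constantCoeff Q.1.sym) + ∑ j, (⟨_, hq j⟩ : A.ring) * A.v j) :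
        A.ring).1.sym = Q.1.sym - (C (constantCoeff Q.1.sym)
          + (∑ j, (⟨_, hq j⟩ : A.ring) * A.v j : A.ring).1.sym) := rfl
    rw [h2, h1]
    have h3 := quo_eq Q.1.sym
    conv_lhs => enter [1]; rw [h3]
    abel
  rw [h]
  intro m hn hx
  have hD : coeff m (D none (quo none Q.1.sym)) = 0 := by
    have : D none (quo none Q.1.sym) = vs * (-((vs : Sym d) * pderiv ℂ none (quo none Q.1.sym)
        + ∑ i, vy i * pderiv ℂ (some (Var.y i)) (quo none Q.1.sym))) := by
      show (-((vs : Sym d) • ((vs : Sym d) • pderiv ℂ none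
        + ∑ i, vy i • pderiv ℂ (some (Var.y i)))) : Derivation ℂ (Sym d) (Sym d))
          (quo none Q.1.sym) = _
      rw [Derivation.neg_apply, Derivation.smul_apply, Derivation.add_apply,
        Derivation.smul_apply, smul_eq_mul, smul_eq_mul, mul_neg]
      congr 3
      have h0 : ∀ (t : Finset (Fin d)) (G : Fin d → Derivation ℂ (Sym d) (Sym d)) (u : Sym d),
          (∑ i ∈ t, G i) u = ∑ i ∈ t, G i u := by
        intro t G u
        classical
        induction t using Finset.induction_on with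
        | empty => simp
        | insert a t ha ih => rw [Finset.sum_insert ha, Finset.sum_insert ha,
            Derivation.add_apply, ih]
      rw [h0]
      rfl
    rw [this]
    exact MvPowerSeries.X_dvd_iff.1 (Dvd.intro _ rfl) m hn
  rw [map_sub, hD, sub_zero, map_sub, coeff_C]
  show (if m (some .t) = 0 ∧ ∀ i, m (some (.y i)) = 0 then coeff m Q.1.sym else 0) - _ = 0
  split_ifs with h1 h2 h2
  · rw [h2]
    exact sub_self _
  · exfalso
    apply h2
    ext v
    cases v with
    | none => exact hn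
    | some v =>
      cases v with
      | x i => exact hx i
      | t => exact h1.1
      | y i => exact h1.2 i
  · exfalso
    apply h1
    rw [h2]
    exact ⟨rfl, fun _ => rfl⟩
  · exact sub_self _

/-- commutators are divisible by `s` -/
lemma exists_comm (Q Q' : A.ring) : ∃ S : A.ring, Q * Q' - Q' * Q = A.s * S := by
  have h1 : ∀ m, m none = 0 → coeff m (Q * Q' - Q' * Q : A.ring).1.sym = 0 := by
    intro m hm
    have e : (Q * Q' - Q' * Q : A.ring).1.sym
        = (comp Q.1.sym Q'.1.sym - ∑ n ∈ Finset.range 1, lb n Q.1.sym Q'.1.sym)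
          - (comp Q'.1.sym Q.1.sym - ∑ n ∈ Finset.range 1, lb n Q'.1.sym Q.1.sym) := by
      have e1 : (Q * Q' - Q' * Q : A.ring).1.sym
        = comp Q.1.sym Q'.1.sym - comp Q'.1.sym Q.1.sym := rfl
      rw [e1, Finset.sum_range_one, Finset.sum_range_one]
      have e2 : lb 0 Q.1.sym Q'.1.sym = lb 0 Q'.1.sym Q.1.sym := by
        show Q.1.sym * Q'.1.sym = Q'.1.sym * Q.1.sym
        exact mul_comm _ _
      rw [e2]
      abel
    rw [e, map_sub, comp_fil _ _ 1 m (by omega), comp_fil _ _ 1 m (by omega), sub_zero]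
  obtain ⟨S, hS⟩ := p2_left_s A (A.shf (Q * Q' - Q' * Q : A.ring).1.sym none
    (Q * Q' - Q' * Q : A.ring).2)
  refine ⟨S, ?_⟩
  apply Subtype.ext
  rw [hS]
  apply Op.ext
  exact p2_eq_mul_shf none h1

/-! ## row p3: a basis modulo `x L + s L` -/

end OpRing

/-- an endomorphism without eigenvalues `≠ 0` is nilpotent -/
private lemma p3_nil {W : Type} [AddCommGroup W] [Module ℂ W] [FiniteDimensional ℂ W]
    (f : Module.End ℂ W) (h : ∀ c : ℂ, c ≠ 0 → ∀ w, f w = c • w → w = 0) : IsNilpotent f := by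
  have h1 := Module.End.iSup_maxGenEigenspace_eq_top f
  have h2 : ∀ μ : ℂ, μ ≠ 0 → f.maxGenEigenspace μ = ⊥ := by
    intro μ hμ
    rw [eq_bot_iff]
    intro w hw
    rw [Module.End.mem_maxGenEigenspace] at hw
    obtain ⟨k, hk⟩ := hw
    rw [Submodule.mem_bot]
    induction k with
    | zero => simpa using hk
    | succ k ih =>
      apply ih
      rw [pow_succ'] at hk
      have h3 : (f - μ • (1 : Module.End ℂ W)) (((f - μ • (1 : Module.End ℂ W)) ^ k) w) = 0 := hk
      have h4 : f (((f - μ • (1 : Module.End ℂ W)) ^ k) w) =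
          μ • (((f - μ • (1 : Module.End ℂ W)) ^ k) w) := by
        rw [LinearMap.sub_apply, LinearMap.smul_apply, Module.End.one_apply, sub_eq_zero] at h3
        exact h3
      exact h μ hμ _ h4
  have h3 : f.maxGenEigenspace 0 = ⊤ := by
    rw [eq_top_iff, ← h1]
    refine iSup_le fun μ => ?_
    by_cases hμ : μ = 0
    · rw [hμ]
    · rw [h2 μ hμ]
      exact bot_le
  rw [Module.End.maxGenEigenspace_eq_genEigenspace_finrank] at h3
  refine ⟨Module.finrank ℂ W, ?_⟩
  ext w
  have h4 : w ∈ f.genEigenspace 0 (Module.finrank ℂ W : ℕ) := by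
    rw [h3]; exact Submodule.mem_top
  rw [Module.End.mem_genEigenspace_nat, zero_smul, sub_zero, LinearMap.mem_ker] at h4
  rw [h4]
  rfl


namespace OpRing

variable (A : OpRing d) (L : Type) [AddCommGroup L] [Module A.ring L]

/-- constants as a ring homomorphism -/
private noncomputable def p3_cst : ℂ →+* A.ring where
  toFun := A.cst
  map_one' := A.cst_one
  map_mul' c c' := (A.cst_mul_cst c c').symm
  map_zero' := A.cst_zero
  map_add' := A.cst_add

/-- `L / (x L + s L)` -/
private abbrev p3_W : Type := L ⧸ A.Z L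

private noncomputable instance p3_mod : Module ℂ (p3_W A L) :=
  Module.compHom (p3_W A L) (p3_cst A)

private lemma p3_smul (c : ℂ) (w : p3_W A L) : c • w = A.cst c • w := rfl

/-- the action of an operator on `L / (x L + s L)` -/
private noncomputable def p3_T (Q : A.ring) : Module.End ℂ (p3_W A L) where
  toFun w := Q • w
  map_add' := smul_add Q
  map_smul' c w := by
    rw [RingHom.id_apply, p3_smul, p3_smul, smul_smul, smul_smul, A.cst_mul]

private lemma p3_s_smul (w : p3_W A L) : A.s • w = 0 := by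
  obtain ⟨u, rfl⟩ := Submodule.Quotient.mk_surjective _ w
  rw [← Submodule.Quotient.mk_smul, Submodule.Quotient.mk_eq_zero]
  exact ⟨0, u, by simp⟩

private lemma p3_comm (Q Q' : A.ring) : p3_T A L Q * p3_T A L Q' = p3_T A L Q' * p3_T A L Q := by
  obtain ⟨S, hS⟩ := A.exists_comm Q Q'
  refine LinearMap.ext fun w => ?_
  show Q • (Q' • w) = Q' • (Q • w)
  rw [← sub_eq_zero, smul_smul, smul_smul, ← sub_smul, hS, ← smul_smul, p3_s_smul]

private lemma p3_nilp [FiniteDimensional ℂ (p3_W A L)] (j : Option (Fin d)) :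
    IsNilpotent (p3_T A L (A.v j)) := by
  refine p3_nil _ ?_
  intro c hc w hw
  obtain ⟨g, hg, h1, -⟩ := exists_inv_V (d := d) j hc
  have h2 : (⟨op g, A.le hg⟩ : A.ring) * (A.v j - A.cst c) = 1 := by
    apply Subtype.ext
    exact Op.ext h1
  have h3 : (A.v j - A.cst c) • w = 0 := by
    rw [sub_smul, sub_eq_zero]
    exact hw
  calc w = (1 : A.ring) • w := (one_smul _ w).symm
    _ = (⟨op g, A.le hg⟩ : A.ring) • ((A.v j - A.cst c) • w) := by rw [smul_smul, h2]
    _ = 0 := by rw [h3, smul_zero]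

private lemma p3_sum {m : ℕ} (c : Fin m → ℂ) (e : Fin m → L) :
    (Submodule.Quotient.mk (∑ i, A.cst (c i) • e i) : p3_W A L) =
      ∑ i, c i • (Submodule.Quotient.mk (e i) : p3_W A L) := by
  have h : (Submodule.Quotient.mk (∑ i, A.cst (c i) • e i) : p3_W A L) =
      (A.Z L).mkQ (∑ i, A.cst (c i) • e i) := rfl
  rw [h, map_sum]
  refine Finset.sum_congr rfl fun i _ => ?_
  rw [map_smul]
  rfl

private lemma p3_fin (hg : A.Generic L) : FiniteDimensional ℂ (p3_W A L) := by
  obtain ⟨m, e, he⟩ := hg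
  refine Module.Finite.of_surjective (M := Fin m → ℂ)
    (Fintype.linearCombination ℂ fun i => (Submodule.Quotient.mk (e i) : p3_W A L)) ?_
  intro w
  obtain ⟨u, rfl⟩ := Submodule.Quotient.mk_surjective _ w
  obtain ⟨c, v, w, hu⟩ := he u
  refine ⟨c, ?_⟩
  rw [Fintype.linearCombination_apply, ← p3_sum]
  symm
  rw [Submodule.Quotient.eq]
  exact ⟨v, w, by rw [hu]; abel⟩

/-- the same with a given basis modulo `Z` -/
theorem exists_matrices (hg : A.Generic L) {m : ℕ} (e : Fin m → L)
    (h1 : ∀ u : L, ∃ c : Fin m → ℂ, u - ∑ i, A.cst (c i) • e i ∈ A.Z L)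
    (h2 : ∀ c : Fin m → ℂ, ∑ i, A.cst (c i) • e i ∈ A.Z L → c = 0) :
    ∃ N : Option (Fin d) → Matrix (Fin m) (Fin m) ℂ, (∀ i j, N i * N j = N j * N i) ∧
      (∀ i, IsNilpotent (N i)) ∧
      (∀ j i, A.v j • e i - ∑ i', A.cst (N j i i') • e i' ∈ A.Z L) := by
  have := p3_fin A L hg
  have hli : LinearIndependent ℂ fun i => (Submodule.Quotient.mk (e i) : p3_W A L) := by
    rw [Fintype.linearIndependent_iff]
    intro c hc
    rw [← p3_sum, Submodule.Quotient.mk_eq_zero] at hc
    intro i
    rw [h2 c hc]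
    rfl
  have hsp : ⊤ ≤ Submodule.span ℂ (Set.range fun i => (Submodule.Quotient.mk (e i) : p3_W A L)) := by
    intro w _
    obtain ⟨u, rfl⟩ := Submodule.Quotient.mk_surjective _ w
    obtain ⟨c, hc⟩ := h1 u
    have h3 : (Submodule.Quotient.mk u : p3_W A L) =
        ∑ i, c i • (Submodule.Quotient.mk (e i) : p3_W A L) := by
      rw [← p3_sum, Submodule.Quotient.eq]
      exact hc
    rw [h3]
    exact Submodule.sum_mem _ fun i _ =>
      Submodule.smul_mem _ _ (Submodule.subset_span ⟨i, rfl⟩)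
  let b : Module.Basis (Fin m) ℂ (p3_W A L) := Module.Basis.mk hli hsp
  have hb : ∀ i, b i = (Submodule.Quotient.mk (e i) : p3_W A L) := fun i =>
    Module.Basis.mk_apply hli hsp i
  refine ⟨fun j => (LinearMap.toMatrixAlgEquiv b (p3_T A L (A.v j))).transpose, ?_, ?_, ?_⟩
  · intro i j
    rw [← Matrix.transpose_mul, ← Matrix.transpose_mul, ← map_mul, ← map_mul, p3_comm]
  · intro i
    obtain ⟨k, hk⟩ := p3_nilp A L i
    refine ⟨k, ?_⟩
    rw [← Matrix.transpose_pow, ← map_pow, hk, map_zero, Matrix.transpose_zero]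
  · intro j i
    have h3 : (Submodule.Quotient.mk (A.v j • e i) : p3_W A L) = p3_T A L (A.v j) (b i) := by
      rw [hb]
      rfl
    rw [← Submodule.Quotient.eq, h3, p3_sum]
    conv_lhs => rw [← b.sum_repr (p3_T A L (A.v j) (b i))]
    refine Finset.sum_congr rfl fun i' _ => ?_
    show _ = (LinearMap.toMatrixAlgEquiv b (p3_T A L (A.v j))) i' i •
      (Submodule.Quotient.mk (e i') : p3_W A L)
    rw [LinearMap.toMatrixAlgEquiv_apply, ← hb i']

/-- `V_j` acts nilpotently on `L / (x L + s L)`: otherwise it has an eigenvalue `c ≠ 0`, but `V_j - c`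
is invertible (`exists_inv_V`). We get lifts `e` of a basis and the matrices `N j` of `V_j`. -/
theorem exists_basis (hg : A.Generic L) : ∃ (m : ℕ) (e : Fin m → L)
    (N : Option (Fin d) → Matrix (Fin m) (Fin m) ℂ), (∀ i j, N i * N j = N j * N i) ∧
    (∀ i, IsNilpotent (N i)) ∧ (∀ u : L, ∃ c : Fin m → ℂ, u - ∑ i, A.cst (c i) • e i ∈ A.Z L) ∧
    (∀ c : Fin m → ℂ, ∑ i, A.cst (c i) • e i ∈ A.Z L → c = 0) ∧
    (∀ j i, A.v j • e i - ∑ i', A.cst (N j i i') • e i' ∈ A.Z L) := by
  have := p3_fin A L hg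
  let b := Module.finBasis ℂ (p3_W A L)
  choose e he using fun i => Submodule.Quotient.mk_surjective (A.Z L) (b i)
  have h1 : ∀ u : L, ∃ c : Fin (Module.finrank ℂ (p3_W A L)) → ℂ,
      u - ∑ i, A.cst (c i) • e i ∈ A.Z L := by
    intro u
    refine ⟨fun i => b.repr (Submodule.Quotient.mk u) i, ?_⟩
    rw [← Submodule.Quotient.eq, p3_sum]
    conv_lhs => rw [← b.sum_repr (Submodule.Quotient.mk u)]
    exact Finset.sum_congr rfl fun i _ => by rw [he i]
  have h2 : ∀ c : Fin (Module.finrank ℂ (p3_W A L)) → ℂ,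
      ∑ i, A.cst (c i) • e i ∈ A.Z L → c = 0 := by
    intro c hc
    rw [← Submodule.Quotient.mk_eq_zero, p3_sum] at hc
    funext i
    refine (Fintype.linearIndependent_iff.1 b.linearIndependent) c ?_ i
    rw [← hc]
    exact Finset.sum_congr rfl fun i _ => by rw [he i]
  obtain ⟨N, h3, h4, h5⟩ := A.exists_matrices L hg e h1 h2
  exact ⟨_, e, N, h3, h4, h1, h2, h5⟩

end OpRing

/-! ## row p4: a finitely generated `hat E(0)`-module in generic position is finitely generated over
the ring of formal symbols in `x`, `s` -/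

/-- symbols in `x`, `s` as operators -/
noncomputable def fe (f : (formal d).alg) : (Formal d).ring :=
  ⟨op (emb (f : Ser d)), isFormal_emb.2 f.2⟩
/-- symbols in `x`, `s` as operators -/
noncomputable def me (f : (micro d).alg) : (Micro d).ring :=
  ⟨op (emb (f : Ser d)), isMicro_emb.2 f.2⟩

private lemma p4_cst_coe (c : ℂ) : (((Formal d).cst c : (Formal d).ring) : Op d)
    = algebraMap ℂ (Op d) c := by
  apply Op.ext
  rw [algebraMap_sym]
  rfl

private lemma p4_cst_mul (c : ℂ) (Q : (Formal d).ring) :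
    (((Formal d).cst c * Q : (Formal d).ring) : Op d) = c • (Q : Op d) := by
  rw [Subring.coe_mul, p4_cst_coe, Algebra.smul_def]

private lemma p4_mul_cst (c : ℂ) (Q : (Formal d).ring) :
    ((Q * (Formal d).cst c : (Formal d).ring) : Op d) = c • (Q : Op d) := by
  rw [Subring.coe_mul, p4_cst_coe, Algebra.smul_def, Algebra.commutes]

/-- an element of the ring from a formal symbol -/
private def p4_mk (f : Sym d) (h : IsFormal f) : (Formal d).ring := ⟨op f, h⟩

private lemma p4_mk_coe (f : Sym d) (h : IsFormal f) : ((p4_mk f h : (Formal d).ring) : Op d) = op f :=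
  rfl

private lemma p4_fe_res {f : Sym d} (h : IsFormal f) (hb : Base f) :
    fe (⟨res f, isFormal_res h⟩ : (formal d).alg) = p4_mk f h := by
  apply Subtype.ext
  show op (emb (res f)) = op f
  rw [emb_res hb]

private lemma p4_mem_Z {L : Type} [AddCommGroup L] [Module (Formal d).ring L] {q : ℕ}
    (g : Fin q → L) (hg : ∀ v : L, ∃ b : Fin q → (Formal d).ring, v = ∑ k, b k • g k)
    {z : L} (hz : z ∈ (Formal d).Z L) : ∃ K : Fin q → (Formal d).ring,
      (∀ k, Small (K k).1.sym) ∧ z = ∑ k, K k • g k := by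
  obtain ⟨v, w, rfl⟩ := ((Formal d).mem_Z L z).1 hz
  choose b hb using hg
  refine ⟨fun k => ∑ i, (Formal d).x i * b (v i) k + (Formal d).s * b w k,
    fun k => (Formal d).small_of_mem _ _, ?_⟩
  have h1 : ∀ k, (∑ i, (Formal d).x i * b (v i) k + (Formal d).s * b w k) • g k
      = ∑ i, (Formal d).x i • b (v i) k • g k + (Formal d).s • b w k • g k := by
    intro k
    rw [add_smul, Finset.sum_smul]
    congr 1
    · exact Finset.sum_congr rfl fun i _ => mul_smul _ _ _
    · exact mul_smul _ _ _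
  simp_rw [h1]
  rw [Finset.sum_add_distrib, Finset.sum_comm]
  congr 1
  · apply Finset.sum_congr rfl
    intro i _
    rw [← Finset.smul_sum, ← hb]
  · rw [← Finset.smul_sum, ← hb]

/-- From `fd`: `g` generators of `L` over `hat E(0)`, `e` a basis modulo `Z`;
`V_j e_i = ∑ N_j e + ∑ K g`, `g = c e + Θ g` with `K`, `Θ` small (`exists_of_small` is not needed:
elements of `Z` are `∑ x_i v_i + s w` with `v_i, w ∈ ∑ hat E(0) g`, use `small_of_mem`). -/
theorem exists_fe {L : Type} [AddCommGroup L] [Module (Formal d).ring L]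
    (hf : Module.Finite (Formal d).ring L) (hg : (Formal d).Generic L) {m : ℕ} (e : Fin m → L)
    (h1 : ∀ u : L, ∃ c : Fin m → ℂ, u - ∑ i, (Formal d).cst (c i) • e i ∈ (Formal d).Z L)
    (h2 : ∀ c : Fin m → ℂ, ∑ i, (Formal d).cst (c i) • e i ∈ (Formal d).Z L → c = 0) (u : L) :
    ∃ r : Fin m → (formal d).alg, u = ∑ i, fe (r i) • e i := by
  classical
  obtain ⟨q, g, hspan⟩ := Module.Finite.exists_fin (R := (Formal d).ring) (M := L)
  have hgen : ∀ v : L, ∃ b : Fin q → (Formal d).ring, v = ∑ k, b k • g k := by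
    intro v
    have hv : v ∈ Submodule.span (Formal d).ring (Set.range g) := by
      rw [hspan]; exact Submodule.mem_top
    obtain ⟨b, hb⟩ := (Submodule.mem_span_range_iff_exists_fun _).1 hv
    exact ⟨b, hb.symm⟩
  obtain ⟨N, hc, hn, hN⟩ := (Formal d).exists_matrices L hg e h1 h2
  have hK : ∀ j i, ∃ K : Fin q → (Formal d).ring, (∀ k, Small (K k).1.sym) ∧
      (Formal d).v j • e i - ∑ i', (Formal d).cst (N j i i') • e i' = ∑ k, K k • g k :=
    fun j i => p4_mem_Z g hgen (hN j i)
  choose K hKs hKe using hK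
  have hΘ : ∀ k, ∃ (c : Fin m → ℂ) (Θ : Fin q → (Formal d).ring), (∀ l, Small (Θ l).1.sym) ∧
      g k - ∑ i, (Formal d).cst (c i) • e i = ∑ l, Θ l • g l := by
    intro k
    obtain ⟨c, hcz⟩ := h1 (g k)
    obtain ⟨Θ, h3, h4⟩ := p4_mem_Z g hgen hcz
    exact ⟨c, Θ, h3, h4⟩
  choose c Θ hΘs hΘe using hΘ
  obtain ⟨f, hfu⟩ := hgen u
  obtain ⟨r, H, G, hr, hH, hG, hA, hB⟩ := fd N hc hn (fun k i => c k i)
    (fun j i k => (K j i k).1.sym) (fun k l => (Θ k l).1.sym)
    (fun j i k => ⟨(K j i k).2, hKs j i k⟩) (fun k l => ⟨(Θ k l).2, hΘs k l⟩)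
    (fun k => (f k).1.sym) (fun k => (f k).2)
  refine ⟨fun i => ⟨res (r i), isFormal_res (hr i).1⟩, ?_⟩
  have hfe : ∀ i, fe (⟨res (r i), isFormal_res (hr i).1⟩ : (formal d).alg)
      = p4_mk (r i) (hr i).1 := fun i => p4_fe_res (hr i).1 (hr i).2
  simp_rw [hfe]
  -- the identities in the ring
  have hA' : ∀ i', p4_mk (r i') (hr i').1 = -∑ j, p4_mk (H j i') (hH j i') * (Formal d).v j
      + ∑ j, ∑ i, p4_mk (H j i) (hH j i) * (Formal d).cst (N j i i')
      + ∑ k, p4_mk (G k) (hG k) * (Formal d).cst (c k i') := by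
    intro i'
    apply Subtype.ext
    simp only [Subring.coe_add, Subring.coe_neg, AddSubmonoidClass.coe_finsetSum, p4_mul_cst]
    apply Op.ext
    have h := hA i'
    rw [Finset.sum_sub_distrib] at h
    have h' : r i' = -∑ j, comp (H j i') (V j) + ∑ j, ∑ i, N j i i' • H j i
        + ∑ k, c k i' • G k := by
      linear_combination h
    exact h'
  have hB' : ∀ k', f k' = p4_mk (G k') (hG k') - ∑ j, ∑ i, p4_mk (H j i) (hH j i) * K j i k'
      - ∑ k, p4_mk (G k) (hG k) * Θ k k' := by
    intro k'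
    apply Subtype.ext
    simp only [AddSubgroupClass.coe_sub, AddSubmonoidClass.coe_finsetSum]
    apply Op.ext
    exact (hB k').symm
  -- the sum
  have e1 : u = ∑ k, p4_mk (G k) (hG k) • g k
      - ∑ j, ∑ i, p4_mk (H j i) (hH j i) • (∑ k, K j i k • g k)
      - ∑ k, p4_mk (G k) (hG k) • (∑ l, Θ k l • g l) := by
    rw [hfu]
    have : ∀ k', f k' • g k' = p4_mk (G k') (hG k') • g k'
        - ∑ j, ∑ i, p4_mk (H j i) (hH j i) • K j i k' • g k'
        - ∑ k, p4_mk (G k) (hG k) • Θ k k' • g k' := by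
      intro k'
      rw [hB' k', sub_smul, sub_smul, Finset.sum_smul, Finset.sum_smul]
      congr 1
      · congr 1
        apply Finset.sum_congr rfl
        intro j _
        rw [Finset.sum_smul]
        exact Finset.sum_congr rfl fun i _ => mul_smul _ _ _
      · exact Finset.sum_congr rfl fun i _ => mul_smul _ _ _
    rw [Finset.sum_congr rfl fun k' _ => this k', Finset.sum_sub_distrib, Finset.sum_sub_distrib]
    congr 1
    · congr 1
      rw [Finset.sum_comm]
      apply Finset.sum_congr rfl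
      intro j _
      rw [Finset.sum_comm]
      apply Finset.sum_congr rfl
      intro i _
      rw [Finset.smul_sum]
    · rw [Finset.sum_comm]
      apply Finset.sum_congr rfl
      intro k _
      rw [Finset.smul_sum]
  rw [e1]
  have e2 : ∀ j i, p4_mk (H j i) (hH j i) • (∑ k, K j i k • g k)
      = (p4_mk (H j i) (hH j i) * (Formal d).v j) • e i
        - ∑ i', (p4_mk (H j i) (hH j i) * (Formal d).cst (N j i i')) • e i' := by
    intro j i
    rw [← hKe j i, smul_sub, ← mul_smul, Finset.smul_sum]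
    congr 1
    exact Finset.sum_congr rfl fun i' _ => (mul_smul _ _ _).symm
  have e3 : ∀ k, p4_mk (G k) (hG k) • (∑ l, Θ k l • g l)
      = p4_mk (G k) (hG k) • g k - ∑ i, (p4_mk (G k) (hG k) * (Formal d).cst (c k i)) • e i := by
    intro k
    rw [← hΘe k, smul_sub, Finset.smul_sum]
    congr 1
    exact Finset.sum_congr rfl fun i' _ => (mul_smul _ _ _).symm
  simp_rw [e2, e3, hA']
  simp_rw [add_smul, neg_smul, Finset.sum_smul, Finset.sum_add_distrib, Finset.sum_sub_distrib,
    Finset.sum_neg_distrib]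
  rw [Finset.sum_comm (f := fun (j : Option (Fin d)) (i : Fin m) =>
    (p4_mk (H j i) (hH j i) * (Formal d).v j) • e i)]
  have e4 : ∑ j : Option (Fin d), ∑ i : Fin m, ∑ i' : Fin m,
      (p4_mk (H j i) (hH j i) * (Formal d).cst (N j i i')) • e i'
      = ∑ i' : Fin m, ∑ j : Option (Fin d), ∑ i : Fin m,
      (p4_mk (H j i) (hH j i) * (Formal d).cst (N j i i')) • e i' := by
    rw [Finset.sum_comm (s := (Finset.univ : Finset (Fin m))) (t := (Finset.univ : Finset (Option (Fin d))))
      (f := fun i' j => ∑ i : Fin m, (p4_mk (H j i) (hH j i) * (Formal d).cst (N j i i')) • e i')]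
    apply Finset.sum_congr rfl
    intro j _
    rw [Finset.sum_comm]
  have e5 : ∑ k : Fin q, ∑ i : Fin m, (p4_mk (G k) (hG k) * (Formal d).cst (c k i)) • e i
      = ∑ i : Fin m, ∑ k : Fin q, (p4_mk (G k) (hG k) * (Formal d).cst (c k i)) • e i :=
    Finset.sum_comm
  rw [e4, e5]
  abel

private lemma p4_small_emb (f : (formal d).alg) (n : ℂ)
    (h : MvPowerSeries.constantCoeff (f : Ser d) = n) : Small (emb (f : Ser d) - C n) := by
  intro m hm hx
  rw [map_sub, coeff_C]
  show (if m (some .t) = 0 ∧ ∀ i, m (some (.y i)) = 0 then coeff (mres m) (f : Ser d) else 0) - _ = 0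
  have hr : mres m = 0 := by
    ext v
    cases v with
    | none => exact hm
    | some i => exact hx i
  split_ifs with h1 h2 h2
  · rw [hr, ← h]
    exact sub_self _
  · exfalso
    apply h2
    ext v
    cases v with
    | none => exact hm
    | some v =>
      cases v with
      | x i => exact hx i
      | t => exact h1.1
      | y i => exact h1.2 i
  · exfalso
    apply h1
    rw [h2]
    exact ⟨rfl, fun _ => rfl⟩
  · exact sub_self _

/-- Formal division by the relations of a family `n` with `V_j n_i = ∑ A_j n`, `A_j` matrices over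
the formal symbols in `x`, `s` (from `fd` with `q = m`, `c = 1`, `Θ = 0`, adding the two identities):
every `f ∈ hat E(0)^m` is `r + ∑ H_j (V_j - A_j)` with `r` in the symbols in `x`, `s`. -/
theorem exists_div {m : ℕ} (a : Option (Fin d) → Matrix (Fin m) (Fin m) (formal d).alg)
    (N : Option (Fin d) → Matrix (Fin m) (Fin m) ℂ)
    (hN : ∀ j i i', MvPowerSeries.constantCoeff (a j i i' : Ser d) = N j i i')
    (hc : ∀ i j, N i * N j = N j * N i) (hn : ∀ i, IsNilpotent (N i))
    (f : Fin m → (Formal d).ring) :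
    ∃ (r : Fin m → (formal d).alg) (H : Option (Fin d) → Fin m → (Formal d).ring),
      ∀ i', f i' = fe (r i') + ∑ j, (H j i' * (Formal d).v j - ∑ i, H j i * fe (a j i i')) := by
  classical
  have hK : ∀ j i k, IsFormal (emb (a j i k : Ser d) - C (N j i k)) := by
    intro j i k
    rw [sub_eq_add_neg]
    exact isFormal_add (isFormal_emb.2 (a j i k).2) (isFormal_neg (isFormal_C _))
  have h0 : IsFormal (0 : Sym d) := by
    have h := isFormal_C (d := d) 0
    rwa [map_zero] at h
  obtain ⟨r, H, G, hr, hH, hG, hA, hB⟩ := fd N hc hn (1 : Matrix (Fin m) (Fin m) ℂ)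
    (fun j i k => emb (a j i k : Ser d) - C (N j i k)) (0 : Matrix (Fin m) (Fin m) (Sym d))
    (fun j i k => ⟨hK j i k, p4_small_emb _ _ (hN j i k)⟩)
    (fun k l => ⟨h0, fun _ _ _ => by simp⟩)
    (fun k => (f k).1.sym) (fun k => (f k).2)
  refine ⟨fun i => ⟨res (r i), isFormal_res (hr i).1⟩, fun j i => p4_mk (H j i) (hH j i), ?_⟩
  intro i'
  rw [p4_fe_res (hr i').1 (hr i').2]
  apply Subtype.ext
  simp only [Subring.coe_add, AddSubgroupClass.coe_sub, AddSubmonoidClass.coe_finsetSum, Subring.coe_mul]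
  apply Op.ext
  have h1 := hA i'
  have h2 := hB i'
  have h3 : ∑ k, (1 : Matrix (Fin m) (Fin m) ℂ) k i' • G k = G i' := by
    rw [Finset.sum_eq_single i']
    · rw [Matrix.one_apply_eq, one_smul]
    · intro k _ hk
      rw [Matrix.one_apply_ne hk, zero_smul]
    · intro h
      exact absurd (Finset.mem_univ _) h
  have h4 : ∑ k, comp (G k) ((0 : Matrix (Fin m) (Fin m) (Sym d)) k i') = 0 :=
    Finset.sum_eq_zero fun k _ => comp_zero_right _
  have h5 : ∀ j i, comp (H j i) (emb (a j i i' : Ser d) - C (N j i i'))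
      = comp (H j i) (emb (a j i i' : Ser d)) - N j i i' • H j i := by
    intro j i
    have h6 : comp (H j i) (C (N j i i')) = N j i i' • H j i := by
      have := congrArg Op.sym (p4_mul_cst (N j i i') (p4_mk (H j i) (hH j i)))
      exact this
    rw [sub_eq_add_neg, comp_add_right]
    have h7 : comp (H j i) (-(C (N j i i') : Sym d)) = -comp (H j i) (C (N j i i')) := by
      have := comp_smul_right (-1 : ℂ) (H j i) (C (N j i i'))
      rwa [neg_one_smul, neg_one_smul] at this
    rw [h7, h6, sub_eq_add_neg]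
  rw [h3] at h1
  rw [h4] at h2
  simp_rw [h5, Finset.sum_sub_distrib] at h2
  rw [Finset.sum_sub_distrib] at h1
  show (f i').1.sym = r i' + ∑ j, (comp (H j i') (V j) - ∑ i, comp (H j i) (emb (a j i i' : Ser d)))
  rw [Finset.sum_sub_distrib]
  linear_combination -h1 - h2

end Pool.Agent.Ep
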