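import Pool.Agent.Ep.Defs
import Pool.Agent.Fml.Tame

/-!
# Weighted `ℓ¹` norms and closure of the growth conditions (P11, block A, helper39)
-/

set_option autoImplicit false

namespace Pool.Agent.Ep

open MvPowerSeries
open scoped ENNReal NNReal

/-- weighted `ℓ¹` norm of a power series -/
noncomputable def nrm {σ : Type} (w : (σ →₀ ℕ) → ℝ≥0∞) (f : MvPowerSeries σ ℂ) : ℝ≥0∞ :=
  ∑' m, (‖coeff m f‖₊ : ℝ≥0∞) * w m

section basic

variable {σ : Type} (w : (σ →₀ ℕ) → ℝ≥0∞)

/-! ## row n1: general facts on `nrm` -/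

lemma nrm_zero : nrm w (0 : MvPowerSeries σ ℂ) = 0 := by
  simp [nrm]

lemma nrm_add_le (f g : MvPowerSeries σ ℂ) : nrm w (f + g) ≤ nrm w f + nrm w g := by
  rw [nrm, nrm, nrm, ← ENNReal.tsum_add]
  refine ENNReal.tsum_le_tsum fun m => ?_
  rw [map_add, ← add_mul]
  exact mul_le_mul_left (by exact_mod_cast nnnorm_add_le (coeff m f) (coeff m g)) _

lemma nrm_smul (c : ℂ) (f : MvPowerSeries σ ℂ) : nrm w (c • f) = ‖c‖₊ * nrm w f := by
  rw [nrm, nrm, ← ENNReal.tsum_mul_left]
  refine tsum_congr fun m => ?_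
  rw [MvPowerSeries.coeff_smul, nnnorm_mul, ENNReal.coe_mul, mul_assoc]

lemma nrm_neg (f : MvPowerSeries σ ℂ) : nrm w (-f) = nrm w f := by
  rw [nrm, nrm]
  refine tsum_congr fun m => ?_
  rw [map_neg, nnnorm_neg]

lemma nrm_sub_le (f g : MvPowerSeries σ ℂ) : nrm w (f - g) ≤ nrm w f + nrm w g := by
  rw [sub_eq_add_neg]
  exact (nrm_add_le w f (-g)).trans (by rw [nrm_neg])

lemma nrm_sum_le {κ : Type} (s : Finset κ) (f : κ → MvPowerSeries σ ℂ) :
    nrm w (∑ k ∈ s, f k) ≤ ∑ k ∈ s, nrm w (f k) := by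
  classical
  induction s using Finset.induction_on with
  | empty => simp [nrm_zero]
  | insert a s ha ih =>
    rw [Finset.sum_insert ha, Finset.sum_insert ha]
    exact (nrm_add_le w _ _).trans (add_le_add le_rfl ih)

lemma nrm_mono_w {w' : (σ →₀ ℕ) → ℝ≥0∞} (h : ∀ m, w m ≤ w' m) (f : MvPowerSeries σ ℂ) :
    nrm w f ≤ nrm w' f :=
  ENNReal.tsum_le_tsum fun m => mul_le_mul_right (h m) _

/-- comparison of coefficients -/
lemma nrm_le_of_coeff {f g : MvPowerSeries σ ℂ} (h : ∀ m, ‖coeff m f‖ ≤ ‖coeff m g‖) :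
    nrm w f ≤ nrm w g :=
  ENNReal.tsum_le_tsum fun m => mul_le_mul_left (by exact_mod_cast h m) _

lemma nrm_monomial (m : σ →₀ ℕ) (c : ℂ) : nrm w (monomial m c) = ‖c‖₊ * w m := by
  classical
  rw [nrm, tsum_eq_single m]
  · rw [coeff_monomial_same]
  · intro b hb
    rw [coeff_monomial_ne hb, nnnorm_zero, ENNReal.coe_zero, zero_mul]

lemma coeff_le_nrm (f : MvPowerSeries σ ℂ) (m : σ →₀ ℕ) :
    (‖coeff m f‖₊ : ℝ≥0∞) * w m ≤ nrm w f :=
  ENNReal.le_tsum (f := fun m => (‖coeff m f‖₊ : ℝ≥0∞) * w m) m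

/-- submultiplicativity -/
lemma nrm_mul_le (hw : ∀ m m', w (m + m') ≤ w m * w m') (f g : MvPowerSeries σ ℂ) :
    nrm w (f * g) ≤ nrm w f * nrm w g := by
  classical
  have h1 : ∀ m, (‖coeff m (f * g)‖₊ : ℝ≥0∞) * w m ≤
      ∑' p : Finset.HasAntidiagonal.antidiagonal m,
        ((‖coeff p.1.1 f‖₊ : ℝ≥0∞) * w p.1.1) * ((‖coeff p.1.2 g‖₊ : ℝ≥0∞) * w p.1.2) := by
    intro m
    rw [tsum_fintype, Finset.sum_coe_sort (Finset.HasAntidiagonal.antidiagonal m)
      (fun p => ((‖coeff p.1 f‖₊ : ℝ≥0∞) * w p.1) * ((‖coeff p.2 g‖₊ : ℝ≥0∞) * w p.2)), coeff_mul]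
    have h2 : (‖∑ p ∈ Finset.HasAntidiagonal.antidiagonal m, coeff p.1 f * coeff p.2 g‖₊ : ℝ≥0∞) ≤
        ∑ p ∈ Finset.HasAntidiagonal.antidiagonal m,
          (‖coeff p.1 f‖₊ : ℝ≥0∞) * (‖coeff p.2 g‖₊ : ℝ≥0∞) := by
      have h3 := nnnorm_sum_le (Finset.HasAntidiagonal.antidiagonal m)
        (fun p => coeff p.1 f * coeff p.2 g)
      simp only [nnnorm_mul] at h3
      exact_mod_cast h3
    refine (mul_le_mul_left h2 _).trans ?_
    rw [Finset.sum_mul]
    refine Finset.sum_le_sum fun p hp => ?_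
    rw [Finset.HasAntidiagonal.mem_antidiagonal] at hp
    have h4 := hw p.1 p.2
    rw [hp] at h4
    calc (‖coeff p.1 f‖₊ : ℝ≥0∞) * (‖coeff p.2 g‖₊ : ℝ≥0∞) * w m
        ≤ (‖coeff p.1 f‖₊ : ℝ≥0∞) * (‖coeff p.2 g‖₊ : ℝ≥0∞) * (w p.1 * w p.2) :=
          mul_le_mul_right h4 _
      _ = _ := by ring
  calc nrm w (f * g) ≤ ∑' m, ∑' p : Finset.HasAntidiagonal.antidiagonal m,
        ((‖coeff p.1.1 f‖₊ : ℝ≥0∞) * w p.1.1) * ((‖coeff p.1.2 g‖₊ : ℝ≥0∞) * w p.1.2) :=
        ENNReal.tsum_le_tsum h1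
    _ = ∑' x : Σ m : σ →₀ ℕ, Finset.HasAntidiagonal.antidiagonal m,
        ((‖coeff x.2.1.1 f‖₊ : ℝ≥0∞) * w x.2.1.1) * ((‖coeff x.2.1.2 g‖₊ : ℝ≥0∞) * w x.2.1.2) :=
        (ENNReal.tsum_sigma' (fun x : Σ m : σ →₀ ℕ, Finset.HasAntidiagonal.antidiagonal m =>
          ((‖coeff x.2.1.1 f‖₊ : ℝ≥0∞) * w x.2.1.1) *
            ((‖coeff x.2.1.2 g‖₊ : ℝ≥0∞) * w x.2.1.2))).symm
    _ = ∑' x : (σ →₀ ℕ) × (σ →₀ ℕ),
        ((‖coeff x.1 f‖₊ : ℝ≥0∞) * w x.1) * ((‖coeff x.2 g‖₊ : ℝ≥0∞) * w x.2) :=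
        (Finset.HasAntidiagonal.sigmaAntidiagonalEquivProd (A := σ →₀ ℕ)).tsum_eq
          (fun x : (σ →₀ ℕ) × (σ →₀ ℕ) =>
            ((‖coeff x.1 f‖₊ : ℝ≥0∞) * w x.1) * ((‖coeff x.2 g‖₊ : ℝ≥0∞) * w x.2))
    _ = ∑' m, ∑' m', ((‖coeff m f‖₊ : ℝ≥0∞) * w m) * ((‖coeff m' g‖₊ : ℝ≥0∞) * w m') :=
        ENNReal.tsum_prod'
    _ = nrm w f * nrm w g := by
        rw [nrm, nrm, ← ENNReal.tsum_mul_right]
        exact tsum_congr fun m => ENNReal.tsum_mul_left

/-- an operator which moves monomials: `coeff (e m) (T f) = a m * coeff m f` for an injective `e`,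
and `T f` has no other coefficients -/
lemma nrm_shift_le {T : MvPowerSeries σ ℂ → MvPowerSeries σ ℂ} {c : ℝ≥0∞} (f : MvPowerSeries σ ℂ)
    (e : (σ →₀ ℕ) → (σ →₀ ℕ)) (he : Function.Injective e) (a : (σ →₀ ℕ) → ℂ)
    (h1 : ∀ m, coeff (e m) (T f) = a m * coeff m f) (h2 : ∀ m, m ∉ Set.range e → coeff m (T f) = 0)
    (h3 : ∀ m, (‖a m‖₊ : ℝ≥0∞) * w (e m) ≤ c * w m) : nrm w (T f) ≤ c * nrm w f := by
  have h4 : nrm w (T f) = ∑' m, (‖coeff (e m) (T f)‖₊ : ℝ≥0∞) * w (e m) := by
    rw [nrm]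
    refine (he.tsum_eq (f := fun m => (‖coeff m (T f)‖₊ : ℝ≥0∞) * w m) ?_).symm
    intro m hm
    by_contra hne
    refine hm ?_
    simp only
    rw [h2 m hne, nnnorm_zero, ENNReal.coe_zero, zero_mul]
  rw [h4, nrm, ← ENNReal.tsum_mul_left]
  refine ENNReal.tsum_le_tsum fun m => ?_
  rw [h1 m, nnnorm_mul, ENNReal.coe_mul]
  calc (‖a m‖₊ : ℝ≥0∞) * (‖coeff m f‖₊ : ℝ≥0∞) * w (e m)
      = (‖coeff m f‖₊ : ℝ≥0∞) * ((‖a m‖₊ : ℝ≥0∞) * w (e m)) := by ring
    _ ≤ (‖coeff m f‖₊ : ℝ≥0∞) * (c * w m) := mul_le_mul_right (h3 m) _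
    _ = _ := by ring

end basic

variable {d : ℕ}

/-- degree in `x`, `t` -/
def bdeg (m : Option (Var d) →₀ ℕ) : ℕ := (∑ i, m (some (.x i))) + m (some .t)
/-- degree in `y` -/
def ydeg (m : Option (Var d) →₀ ℕ) : ℕ := ∑ i, m (some (.y i))

/-! ## row g1: `lb` and finite sets of coefficients -/

private lemma g1_sum_var (F : Var d → ℕ) :
    ∑ v, F v = (∑ i, F (.x i)) + F .t + ∑ i, F (.y i) := by
  let e : (Fin d ⊕ Unit) ⊕ Fin d ≃ Var d :=
    { toFun := fun v => match v with
        | .inl (.inl i) => .x i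
        | .inl (.inr _) => .t
        | .inr i => .y i
      invFun := fun v => match v with
        | .x i => .inl (.inl i)
        | .t => .inl (.inr ())
        | .y i => .inr i
      left_inv := by rintro ((i | i) | i) <;> rfl
      right_inv := by rintro (i | _ | i) <;> rfl }
  rw [← e.sum_comp, Fintype.sum_sum_type, Fintype.sum_sum_type]
  simp [e]

lemma degree_eq (m : Option (Var d) →₀ ℕ) : m.degree = bdeg m + ydeg m + m none := by
  rw [Finsupp.degree_eq_sum, Fintype.sum_option, g1_sum_var, bdeg, ydeg]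
  omega

/-- no coefficients up to `N` -/
private def G1Low (N : Option (Var d) →₀ ℕ) (f : Sym d) : Prop := ∀ m ≤ N, coeff m f = 0

private lemma g1_low_add {N : Option (Var d) →₀ ℕ} {f g : Sym d} (hf : G1Low N f)
    (hg : G1Low N g) : G1Low N (f + g) := fun m hm => by
  rw [map_add, hf m hm, hg m hm, add_zero]

private lemma g1_low_sum {N : Option (Var d) →₀ ℕ} {κ : Type} (s : Finset κ) {f : κ → Sym d}
    (hf : ∀ k ∈ s, G1Low N (f k)) : G1Low N (∑ k ∈ s, f k) := fun m hm => by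
  rw [map_sum]
  exact Finset.sum_eq_zero fun k hk => hf k hk m hm

private lemma g1_low_neg {N : Option (Var d) →₀ ℕ} {f : Sym d} (hf : G1Low N f) :
    G1Low N (-f) := fun m hm => by
  rw [map_neg, hf m hm, neg_zero]

private lemma g1_low_smul {N : Option (Var d) →₀ ℕ} {f : Sym d} (hf : G1Low N f) (c : ℂ) :
    G1Low N (c • f) := fun m hm => by
  rw [MvPowerSeries.coeff_smul, hf m hm, mul_zero]

private lemma g1_low_mul_left {N : Option (Var d) →₀ ℕ} {f : Sym d} (hf : G1Low N f)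
    (g : Sym d) : G1Low N (f * g) := fun m hm => by
  classical
  rw [coeff_mul]
  refine Finset.sum_eq_zero fun p hp => ?_
  rw [Finset.HasAntidiagonal.mem_antidiagonal] at hp
  have h1 : p.1 ≤ m := by
    rw [← hp]
    exact le_self_add
  rw [hf p.1 (h1.trans hm), zero_mul]

private lemma g1_low_mul_right {N : Option (Var d) →₀ ℕ} {g : Sym d} (hg : G1Low N g)
    (f : Sym d) : G1Low N (f * g) := by
  rw [mul_comm]
  exact g1_low_mul_left hg f

private lemma g1_low_pderiv {N K : Option (Var d) →₀ ℕ} (v : Option (Var d)) {f : Sym d}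
    (hK : ∀ u, K u = N u + 1) (hf : G1Low K f) : G1Low N (pderiv ℂ v f) := fun m hm => by
  classical
  rw [coeff_pderiv, hf, zero_mul]
  intro u
  rw [Finsupp.add_apply, hK u]
  refine add_le_add (hm u) ?_
  rw [Finsupp.single_apply]
  split_ifs <;> simp

private lemma g1_low_D {N K : Option (Var d) →₀ ℕ} (i : Option (Fin d)) {f : Sym d}
    (hK : ∀ u, K u = N u + 1) (hf : G1Low K f) : G1Low N (D i f) := by
  rcases i with _ | i
  · have h1 : D none f = -((vs : Sym d) * ((vs : Sym d) * pderiv ℂ none f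
        + ∑ i, vy i * pderiv ℂ (some (.y i)) f)) := by
      have h2 : (∑ i : Fin d, vy i • pderiv ℂ (some (.y i)) : Derivation ℂ (Sym d) (Sym d)) f =
          ∑ i : Fin d, vy i * pderiv ℂ (some (.y i)) f := by
        have h3 := congrFun (map_sum (Derivation.coeFnAddMonoidHom (R := ℂ) (A := Sym d)
          (M := Sym d)) (fun i : Fin d => vy i • pderiv ℂ (some (.y i))) Finset.univ) f
        rw [Derivation.coeFnAddMonoidHom_apply, Finset.sum_apply] at h3
        exact h3
      simp only [D, Derivation.neg_apply, Derivation.smul_apply, Derivation.add_apply, h2,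
        smul_eq_mul]
    rw [h1]
    exact g1_low_neg (g1_low_mul_right (g1_low_add (g1_low_mul_right (g1_low_pderiv _ hK hf) _)
      (g1_low_sum _ fun i _ => g1_low_mul_right (g1_low_pderiv _ hK hf) _)) _)
  · have h1 : D (some i) f = (vs : Sym d) * pderiv ℂ (some (.y i)) f := by
      simp [D]
    rw [h1]
    exact g1_low_mul_right (g1_low_pderiv _ hK hf) _

private lemma g1_low_B {N K : Option (Var d) →₀ ℕ} (i : Option (Fin d)) {f : Sym d}
    (hK : ∀ u, K u = N u + 1) (hf : G1Low K f) : G1Low N (B i f) := by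
  rcases i with _ | i
  · exact g1_low_pderiv _ hK hf
  · exact g1_low_pderiv _ hK hf

private lemma g1_low_lb_left (n : ℕ) : ∀ (f g : Sym d) (M K : Option (Var d) →₀ ℕ),
    (∀ v, K v = M v + n) → G1Low K f → G1Low M (lb n f g) := by
  induction n with
  | zero =>
    intro f g M K hK hf
    have h : K = M := Finsupp.ext fun v => by simp [hK v]
    subst h
    exact g1_low_mul_left hf g
  | succ n ih =>
    intro f g M K hK hf
    rw [lb, leib_succ]
    refine g1_low_smul (g1_low_sum _ fun i _ => ?_) _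
    set K' : Option (Var d) →₀ ℕ := Finsupp.equivFunOnFinite.symm fun v => M v + n with hK'
    refine ih (D i f) (B i g) M K' (fun v => rfl) (g1_low_D i (fun v => ?_) hf)
    rw [hK v]
    rfl

private lemma g1_low_lb_right (n : ℕ) : ∀ (f g : Sym d) (M K : Option (Var d) →₀ ℕ),
    (∀ v, K v = M v + n) → G1Low K g → G1Low M (lb n f g) := by
  induction n with
  | zero =>
    intro f g M K hK hg
    have h : K = M := Finsupp.ext fun v => by simp [hK v]
    subst h
    exact g1_low_mul_right hg f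
  | succ n ih =>
    intro f g M K hK hg
    rw [lb, leib_succ]
    refine g1_low_smul (g1_low_sum _ fun i _ => ?_) _
    set K' : Option (Var d) →₀ ℕ := Finsupp.equivFunOnFinite.symm fun v => M v + n with hK'
    refine ih (D i f) (B i g) M K' (fun v => rfl) (g1_low_B i (fun v => ?_) hg)
    rw [hK v]
    rfl

private lemma g1_low_rest (f : Sym d) (K : Option (Var d) →₀ ℕ) :
    G1Low K (f - ∑ m ∈ Finset.Iic K, coeff m f • monomial m (1 : ℂ)) := fun m hm => by
  classical
  rw [map_sub, map_sum, Finset.sum_eq_single m]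
  · rw [MvPowerSeries.coeff_smul, coeff_monomial_same, mul_one, sub_self]
  · intro b _ hb
    rw [MvPowerSeries.coeff_smul, coeff_monomial_ne hb.symm, mul_zero]
  · intro h
    exact absurd (Finset.mem_Iic.2 hm) h

/-- a coefficient of `lb n f g` depends on finitely many coefficients of `f` and `g` only.
Proof: by induction on `n`, if `f` (or `g`) has no coefficients in `Iic (M + n • 1)` then
`coeff M (lb n f g) = 0`; then split `f` and `g` in finite sums of monomials and a rest. -/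
theorem coeff_lb (n : ℕ) (f g : Sym d) (M K : Option (Var d) →₀ ℕ)
    (hK : ∀ v, K v = M v + n) :
    coeff M (lb n f g) = ∑ m ∈ Finset.Iic K, ∑ m' ∈ Finset.Iic K,
      coeff m f * coeff m' g * coeff M (lb n (monomial m 1) (monomial m' 1)) := by
  set f0 : Sym d := ∑ m ∈ Finset.Iic K, coeff m f • monomial m (1 : ℂ) with hf0
  set g0 : Sym d := ∑ m ∈ Finset.Iic K, coeff m g • monomial m (1 : ℂ) with hg0
  have hf : f = f0 + (f - f0) := by ring
  have hg : g = g0 + (g - g0) := by ring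
  have h1 : coeff M (lb n f g) = coeff M (lb n f0 g) := by
    conv_lhs => rw [hf]
    rw [lb, leib_add_left, map_add,
      g1_low_lb_left n (f - f0) g M K hK (g1_low_rest f K) M le_rfl, add_zero]
  have h2 : coeff M (lb n f0 g) = coeff M (lb n f0 g0) := by
    conv_lhs => rw [hg]
    rw [lb, leib_add_right, map_add,
      g1_low_lb_right n f0 (g - g0) M K hK (g1_low_rest g K) M le_rfl, add_zero]
  rw [h1, h2, hf0, lb, leib_sum_left, map_sum]
  refine Finset.sum_congr rfl fun m _ => ?_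
  rw [leib_smul_left, hg0, leib_sum_right, MvPowerSeries.coeff_smul, map_sum, Finset.mul_sum]
  refine Finset.sum_congr rfl fun m' _ => ?_
  rw [leib_smul_right, MvPowerSeries.coeff_smul, mul_assoc]

/-! ## row g2: a bound on monomials gives a bound in general -/

theorem nrm_lb_le {w u v : (Option (Var d) →₀ ℕ) → ℝ≥0∞} {K : ℝ≥0∞} (n : ℕ)
    (h : ∀ m m', nrm w (lb n (monomial m 1) (monomial m' 1)) ≤ K * (u m * v m')) (f g : Sym d) :
    nrm w (lb n f g) ≤ K * (nrm u f * nrm v g) := by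
  have h1 : ∀ M : Option (Var d) →₀ ℕ, (‖coeff M (lb n f g)‖₊ : ℝ≥0∞) ≤
      ∑' m, ∑' m', (‖coeff m f‖₊ : ℝ≥0∞) * ‖coeff m' g‖₊ *
        ‖coeff M (lb n (monomial m 1) (monomial m' 1))‖₊ := by
    intro M
    rw [coeff_lb n f g M (Finsupp.equivFunOnFinite.symm fun v => M v + n) (fun v => rfl)]
    calc ((‖∑ m ∈ Finset.Iic _, ∑ m' ∈ Finset.Iic _, coeff m f * coeff m' g *
            coeff M (lb n (monomial m 1) (monomial m' 1))‖₊ : ℝ≥0) : ℝ≥0∞)
        ≤ ((∑ m ∈ Finset.Iic (Finsupp.equivFunOnFinite.symm fun v => M v + n),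
            ∑ m' ∈ Finset.Iic (Finsupp.equivFunOnFinite.symm fun v => M v + n),
            ‖coeff m f * coeff m' g *
            coeff M (lb n (monomial m 1) (monomial m' 1))‖₊ : ℝ≥0) : ℝ≥0∞) := by
          refine ENNReal.coe_le_coe.2 ((nnnorm_sum_le _ _).trans ?_)
          exact Finset.sum_le_sum fun _ _ => nnnorm_sum_le _ _
      _ = ∑ m ∈ Finset.Iic (Finsupp.equivFunOnFinite.symm fun v => M v + n),
            ∑ m' ∈ Finset.Iic (Finsupp.equivFunOnFinite.symm fun v => M v + n),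
            (‖coeff m f‖₊ : ℝ≥0∞) * ‖coeff m' g‖₊ *
            ‖coeff M (lb n (monomial m 1) (monomial m' 1))‖₊ := by
          push_cast
          refine Finset.sum_congr rfl fun _ _ => Finset.sum_congr rfl fun _ _ => ?_
          rw [nnnorm_mul, nnnorm_mul]
          push_cast
          rfl
      _ ≤ _ := by
          refine le_trans ?_ (ENNReal.sum_le_tsum
            (Finset.Iic (Finsupp.equivFunOnFinite.symm fun v => M v + n)))
          exact Finset.sum_le_sum fun _ _ => ENNReal.sum_le_tsum _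
  calc nrm w (lb n f g) ≤ ∑' M, (∑' m, ∑' m', (‖coeff m f‖₊ : ℝ≥0∞) * ‖coeff m' g‖₊ *
        ‖coeff M (lb n (monomial m 1) (monomial m' 1))‖₊) * w M :=
        ENNReal.tsum_le_tsum fun M => by gcongr; exact h1 M
    _ = ∑' m, ∑' m', (‖coeff m f‖₊ : ℝ≥0∞) * ‖coeff m' g‖₊ *
        nrm w (lb n (monomial m 1) (monomial m' 1)) := by
        simp only [nrm, ← ENNReal.tsum_mul_left, ← ENNReal.tsum_mul_right]
        rw [ENNReal.tsum_comm]
        refine tsum_congr fun m => ?_
        rw [ENNReal.tsum_comm]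
        refine tsum_congr fun m' => tsum_congr fun M => ?_
        ring
    _ ≤ ∑' m, ∑' m', (‖coeff m f‖₊ : ℝ≥0∞) * ‖coeff m' g‖₊ * (K * (u m * v m')) := by
        refine ENNReal.tsum_le_tsum fun m => ENNReal.tsum_le_tsum fun m' => ?_
        gcongr
        exact h m m'
    _ = K * (nrm u f * nrm v g) := by
        rw [ENNReal.tsum_comm]
        simp only [nrm, ← ENNReal.tsum_mul_left, ← ENNReal.tsum_mul_right]
        refine tsum_congr fun m => tsum_congr fun m' => ?_
        ring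

/-! ## row g3: the bound on monomials -/

private lemma g3_pderiv (v : Option (Var d)) (m : Option (Var d) →₀ ℕ) :
    pderiv ℂ v (monomial m (1 : ℂ)) = (m v : ℂ) • monomial (m - Finsupp.single v 1) (1 : ℂ) := by
  classical
  ext k
  rw [coeff_pderiv, coeff_smul, coeff_monomial, coeff_monomial]
  by_cases h : k + Finsupp.single v 1 = m
  · have h2 : k = m - Finsupp.single v 1 := by rw [← h, add_tsub_cancel_right]
    have h3 : m v = k v + 1 := by rw [← h]; simp
    rw [if_pos h, if_pos h2, h3]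
    push_cast
    ring
  · rw [if_neg h, zero_mul]
    by_cases h2 : k = m - Finsupp.single v 1
    · have h0 : m v = 0 := by
        by_contra hne
        apply h
        rw [h2]
        exact tsub_add_cancel_of_le (Finsupp.single_le_iff.2 (Nat.one_le_iff_ne_zero.2 hne))
      rw [h0]; simp
    · rw [if_neg h2, mul_zero]

private lemma g3_Xmul (v : Option (Var d)) (m : Option (Var d) →₀ ℕ) :
    (X v : Sym d) * monomial m (1 : ℂ) = monomial (m + Finsupp.single v 1) (1 : ℂ) := by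
  rw [X_def, monomial_mul_monomial, one_mul, add_comm]

private lemma g3_euler (v : Option (Var d)) (m : Option (Var d) →₀ ℕ) :
    (X v : Sym d) * pderiv ℂ v (monomial m (1 : ℂ)) = (m v : ℂ) • monomial m (1 : ℂ) := by
  rw [g3_pderiv, mul_smul_comm, g3_Xmul]
  rcases Nat.eq_zero_or_pos (m v) with h | h
  · rw [h]; simp
  · rw [tsub_add_cancel_of_le (Finsupp.single_le_iff.2 h)]

private lemma g3_Dsome (i : Fin d) (m : Option (Var d) →₀ ℕ) :
    D (some i) (monomial m (1 : ℂ)) = (m (some (.y i)) : ℂ) •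
      (monomial (m - Finsupp.single (some (.y i)) 1 + Finsupp.single none 1) (1 : ℂ) : Sym d) := by
  change (vs : Sym d) • pderiv ℂ (some (Var.y i)) (monomial m (1 : ℂ)) = _
  rw [g3_pderiv, smul_eq_mul, mul_smul_comm, vs, g3_Xmul]

private lemma g3_Dnone (m : Option (Var d) →₀ ℕ) :
    D none (monomial m (1 : ℂ)) = (-((ydeg m + m none : ℕ) : ℂ)) •
      (monomial (m + Finsupp.single none 1) (1 : ℂ) : Sym d) := by
  have h : D none (monomial m (1 : ℂ)) = -((vs : Sym d) * ((vs : Sym d) * pderiv ℂ none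
      (monomial m (1 : ℂ)) + ∑ i, vy i * pderiv ℂ (some (.y i)) (monomial m (1 : ℂ)))) := by
    have h2 : (∑ i, vy i • pderiv ℂ (some (Var.y i)) : Derivation ℂ (Sym d) (Sym d))
        (monomial m (1 : ℂ)) = ∑ i, vy i * pderiv ℂ (some (.y i)) (monomial m (1 : ℂ)) := by
      have := congrFun (map_sum (Derivation.coeFnAddMonoidHom (R := ℂ) (A := Sym d) (M := Sym d))
        (fun i : Fin d => (vy i : Sym d) • pderiv ℂ (some (Var.y i))) Finset.univ)
        (monomial m (1 : ℂ))
      rw [Finset.sum_apply] at this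
      exact this
    change -((vs : Sym d) * ((vs : Sym d) * pderiv ℂ none (monomial m (1 : ℂ)) +
      (∑ i, vy i • pderiv ℂ (some (Var.y i)) : Derivation ℂ (Sym d) (Sym d))
        (monomial m (1 : ℂ)))) = _
    rw [h2]
  rw [h, vs, g3_euler]
  simp only [vy, g3_euler]
  rw [← Finset.sum_smul, ← add_smul, mul_smul_comm, g3_Xmul, neg_smul, ydeg]
  congr 2
  push_cast
  ring

private lemma g3_Bsome (i : Fin d) (m : Option (Var d) →₀ ℕ) :
    B (some i) (monomial m (1 : ℂ)) = (m (some (.x i)) : ℂ) •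
      (monomial (m - Finsupp.single (some (.x i)) 1) (1 : ℂ) : Sym d) := g3_pderiv _ _

private lemma g3_Bnone (m : Option (Var d) →₀ ℕ) :
    B none (monomial m (1 : ℂ)) = (m (some .t) : ℂ) •
      (monomial (m - Finsupp.single (some .t) 1) (1 : ℂ) : Sym d) := g3_pderiv _ _

private lemma g3_bdeg_add (m m' : Option (Var d) →₀ ℕ) : bdeg (m + m') = bdeg m + bdeg m' := by
  simp only [bdeg, Finsupp.add_apply, Finset.sum_add_distrib]
  ring

private lemma g3_ydeg_add (m m' : Option (Var d) →₀ ℕ) : ydeg (m + m') = ydeg m + ydeg m' := by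
  simp only [ydeg, Finsupp.add_apply, Finset.sum_add_distrib]

private lemma g3_bdeg_none : bdeg (Finsupp.single none 1 : Option (Var d) →₀ ℕ) = 0 := by
  simp [bdeg]

private lemma g3_ydeg_none : ydeg (Finsupp.single none 1 : Option (Var d) →₀ ℕ) = 0 := by
  simp [ydeg]

private lemma g3_bdeg_t : bdeg (Finsupp.single (some .t) 1 : Option (Var d) →₀ ℕ) = 1 := by
  simp [bdeg, Finsupp.single_apply]

private lemma g3_ydeg_t : ydeg (Finsupp.single (some .t) 1 : Option (Var d) →₀ ℕ) = 0 := by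
  simp [ydeg, Finsupp.single_apply]

private lemma g3_bdeg_x (i : Fin d) :
    bdeg (Finsupp.single (some (.x i)) 1 : Option (Var d) →₀ ℕ) = 1 := by
  simp [bdeg, Finsupp.single_apply]

private lemma g3_ydeg_x (i : Fin d) :
    ydeg (Finsupp.single (some (.x i)) 1 : Option (Var d) →₀ ℕ) = 0 := by
  simp [ydeg, Finsupp.single_apply]

private lemma g3_bdeg_y (i : Fin d) :
    bdeg (Finsupp.single (some (.y i)) 1 : Option (Var d) →₀ ℕ) = 0 := by
  simp [bdeg, Finsupp.single_apply]

private lemma g3_ydeg_y (i : Fin d) :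
    ydeg (Finsupp.single (some (.y i)) 1 : Option (Var d) →₀ ℕ) = 1 := by
  simp [ydeg, Finsupp.single_apply]

private lemma g3_split (v : Option (Var d)) {m : Option (Var d) →₀ ℕ} (h : m v ≠ 0) :
    ∃ p, m = p + Finsupp.single v 1 := ⟨m - Finsupp.single v 1,
      (tsub_add_cancel_of_le (Finsupp.single_le_iff.2 (Nat.one_le_iff_ne_zero.2 h))).symm⟩

private lemma g3_scal (a c : ℂ) (a' c' : ℕ) (ha : ‖a‖₊ = a') (hc : ‖c‖₊ = c') (b : ℝ≥0∞) (n : ℕ)
    (w : (Option (Var d) →₀ ℕ) → ℝ≥0∞) (f g : Sym d) (x y : ℕ)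
    (h : a' ≠ 0 → c' ≠ 0 → nrm w (lb n f g) ≤ b * ENNReal.ofReal ((x : ℕ) / (n.factorial : ℝ)))
    (hy : a' * c' * x ≤ y) :
    nrm w (lb n (a • f) (c • g)) ≤ b * ENNReal.ofReal ((y : ℕ) / (n.factorial : ℝ)) := by
  change nrm w (leib D B n (a • f) (c • g)) ≤ _
  rw [leib_smul_left, leib_smul_right, nrm_smul, nrm_smul, ha, hc]
  by_cases h1 : a' = 0
  · rw [h1]; simp
  by_cases h2 : c' = 0
  · rw [h2]; simp
  have h3 := h h1 h2
  calc ((a' : ℝ≥0) : ℝ≥0∞) * (((c' : ℝ≥0) : ℝ≥0∞) * nrm w (lb n f g))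
      ≤ ((a' : ℝ≥0) : ℝ≥0∞) * (((c' : ℝ≥0) : ℝ≥0∞) *
        (b * ENNReal.ofReal ((x : ℕ) / (n.factorial : ℝ)))) := by gcongr
    _ = b * (ENNReal.ofReal (a' : ℝ) * (ENNReal.ofReal (c' : ℝ) *
        ENNReal.ofReal ((x : ℕ) / (n.factorial : ℝ)))) := by
        rw [ENNReal.ofReal_natCast, ENNReal.ofReal_natCast]
        push_cast
        ring
    _ = b * ENNReal.ofReal ((a' : ℝ) * ((c' : ℝ) * ((x : ℕ) / (n.factorial : ℝ)))) := by
        rw [ENNReal.ofReal_mul (by positivity), ENNReal.ofReal_mul (by positivity)]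
    _ ≤ b * ENNReal.ofReal ((y : ℕ) / (n.factorial : ℝ)) := by
        gcongr
        rw [← mul_assoc, ← mul_div_assoc]
        gcongr
        exact_mod_cast hy

/-- With `N = ydeg m + m none`: the sum of the absolute values of the coefficients of
`lb n X^m X^{m'}` is at most `N (N+1) … (N+n-1) · b (b-1) … (b-n+1) / n!`, `b = bdeg m'`, and the
monomials `M` which occur satisfy the conditions in `hb`.
Proof: induction on `n` (for all `m`, `m'`): `D (some i) X^m = (m y_i) X^(m - y_i + s)`,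
`D none X^m = - N X^(m + s)`, `B (some i) X^m' = (m' x_i) X^(m' - x_i)`,
`B none X^m' = (m' t) X^(m' - t)`; `N` is unchanged by `D (some i)` and becomes `N + 1` by `D none`;
use `m y_i ≤ N`, `∑ m' x_i + m' t = b` and
`N * (N+1).ascFactorial n = N.ascFactorial (n+1)`. -/
theorem nrm_lb_monomial (w : (Option (Var d) →₀ ℕ) → ℝ≥0∞) (b : ℝ≥0∞) (n : ℕ)
    (m m' : Option (Var d) →₀ ℕ)
    (hb : ∀ M : Option (Var d) →₀ ℕ, M none = m none + m' none + n →
      bdeg M + n = bdeg m + bdeg m' → (∀ v, M (some v) ≤ m (some v) + m' (some v)) →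
      (∀ v, m (some v) + m' (some v) ≤ M (some v) + n) → ydeg m + ydeg m' ≤ ydeg M + n →
      w M ≤ b) :
    nrm w (lb n (monomial m 1) (monomial m' 1))
      ≤ b * ENNReal.ofReal (((ydeg m + m none).ascFactorial n * (bdeg m').descFactorial n : ℕ)
        / (n.factorial : ℝ)) := by
  induction n generalizing m m' with
  | zero =>
    have h0 : lb 0 (monomial m 1) (monomial m' 1) = (monomial (m + m') 1 : Sym d) := by
      change (monomial m 1 : Sym d) * monomial m' 1 = _
      rw [monomial_mul_monomial, one_mul]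
    rw [h0, nrm_monomial]
    simp only [nnnorm_one, ENNReal.coe_one, one_mul, Nat.ascFactorial_zero,
      Nat.descFactorial_zero, mul_one, Nat.factorial_zero, Nat.cast_one, div_one,
      ENNReal.ofReal_one]
    refine hb _ ?_ ?_ ?_ ?_ ?_
    · simp
    · rw [g3_bdeg_add, add_zero]
    · intro v; simp
    · intro v; simp
    · rw [g3_ydeg_add, add_zero]
  | succ n ih =>
    set N := ydeg m + m none with hN
    set b' := bdeg m' with hb'
    have hsome : ∀ i : Fin d, nrm w (lb n (D (some i) (monomial m 1)) (B (some i) (monomial m' 1)))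
        ≤ b * ENNReal.ofReal (((m' (some (.x i)) * (N.ascFactorial (n + 1) *
          (b' - 1).descFactorial n) : ℕ) : ℝ) / (n.factorial : ℝ)) := by
      intro i
      rw [g3_Dsome, g3_Bsome]
      refine g3_scal _ _ (m (some (.y i))) (m' (some (.x i))) (Complex.nnnorm_natCast _)
        (Complex.nnnorm_natCast _) b n w _ _ (N.ascFactorial n * (b' - 1).descFactorial n) _
        ?_ ?_
      · intro h1 h2
        obtain ⟨p, rfl⟩ := g3_split _ h1
        obtain ⟨p', rfl⟩ := g3_split _ h2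
        rw [add_tsub_cancel_right, add_tsub_cancel_right]
        have h3 : N = ydeg (p + Finsupp.single none 1) +
            (p + Finsupp.single none 1 : Option (Var d) →₀ ℕ) none := by
          rw [hN, g3_ydeg_add, g3_ydeg_add, g3_ydeg_y, g3_ydeg_none]
          simp
          ring
        have h4 : b' - 1 = bdeg p' := by
          rw [hb', g3_bdeg_add, g3_bdeg_x, Nat.add_sub_cancel]
        rw [h3, h4]
        refine ih _ _ fun M e1 e2 e3 e4 e5 => hb M ?_ ?_ ?_ ?_ ?_
        · simp at e1 ⊢; omega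
        · rw [g3_bdeg_add, g3_bdeg_none] at e2
          rw [hb', g3_bdeg_add, g3_bdeg_add, g3_bdeg_x, g3_bdeg_y]
          omega
        · intro v
          have := e3 v
          simp only [Finsupp.add_apply] at this ⊢
          rw [Finsupp.single_apply, if_neg (by simp)] at this
          omega
        · intro v
          have := e4 v
          simp only [Finsupp.add_apply] at this ⊢
          rw [Finsupp.single_apply, if_neg (by simp)] at this
          have h5 : (Finsupp.single (some (Var.y i)) 1 : Option (Var d) →₀ ℕ) (some v) +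
              (Finsupp.single (some (Var.x i)) 1 : Option (Var d) →₀ ℕ) (some v) ≤ 1 := by
            rw [Finsupp.single_apply, Finsupp.single_apply]
            by_cases h6 : some (Var.y i) = some v
            · simp [← h6]
            · rw [if_neg h6]; split_ifs <;> simp
          omega
        · rw [g3_ydeg_add, g3_ydeg_none] at e5
          rw [g3_ydeg_add, g3_ydeg_add, g3_ydeg_x, g3_ydeg_y]
          omega
      · have h1 : m (some (.y i)) ≤ N := by
          have := Finset.single_le_sum (f := fun i => m (some (Var.y i)))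
            (fun _ _ => Nat.zero_le _) (Finset.mem_univ i)
          have h7 : m (some (.y i)) ≤ ydeg m := this
          omega
        have h2 : N * N.ascFactorial n ≤ N.ascFactorial (n + 1) := by
          rw [Nat.ascFactorial_succ]
          exact Nat.mul_le_mul_right _ (by omega)
        calc m (some (.y i)) * m' (some (.x i)) * (N.ascFactorial n * (b' - 1).descFactorial n)
            = m' (some (.x i)) * ((m (some (.y i)) * N.ascFactorial n) *
              (b' - 1).descFactorial n) := by ring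
          _ ≤ m' (some (.x i)) * ((N * N.ascFactorial n) * (b' - 1).descFactorial n) := by gcongr
          _ ≤ _ := by gcongr
    have hnone : nrm w (lb n (D none (monomial m 1)) (B none (monomial m' 1)))
        ≤ b * ENNReal.ofReal (((m' (some .t) * (N.ascFactorial (n + 1) *
          (b' - 1).descFactorial n) : ℕ) : ℝ) / (n.factorial : ℝ)) := by
      rw [g3_Dnone, g3_Bnone]
      refine g3_scal _ _ N (m' (some .t)) (by rw [nnnorm_neg]; exact Complex.nnnorm_natCast _)
        (Complex.nnnorm_natCast _) b n w _ _ ((N + 1).ascFactorial n * (b' - 1).descFactorial n) _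
        ?_ ?_
      · intro h1 h2
        obtain ⟨p', rfl⟩ := g3_split _ h2
        rw [add_tsub_cancel_right]
        have h3 : N + 1 = ydeg (m + Finsupp.single none 1) +
            (m + Finsupp.single none 1 : Option (Var d) →₀ ℕ) none := by
          rw [hN, g3_ydeg_add, g3_ydeg_none]
          simp
          ring
        have h4 : b' - 1 = bdeg p' := by
          rw [hb', g3_bdeg_add, g3_bdeg_t, Nat.add_sub_cancel]
        rw [h3, h4]
        refine ih _ _ fun M e1 e2 e3 e4 e5 => hb M ?_ ?_ ?_ ?_ ?_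
        · simp at e1 ⊢; omega
        · rw [g3_bdeg_add, g3_bdeg_none] at e2
          rw [hb', g3_bdeg_add, g3_bdeg_t]
          omega
        · intro v
          have := e3 v
          simp only [Finsupp.add_apply] at this ⊢
          rw [Finsupp.single_apply, if_neg (by simp)] at this
          omega
        · intro v
          have := e4 v
          simp only [Finsupp.add_apply] at this ⊢
          rw [Finsupp.single_apply, if_neg (by simp)] at this
          have h5 : (Finsupp.single (some Var.t) 1 : Option (Var d) →₀ ℕ) (some v) ≤ 1 := by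
            rw [Finsupp.single_apply]; split_ifs <;> simp
          omega
        · rw [g3_ydeg_add, g3_ydeg_none] at e5
          rw [g3_ydeg_add, g3_ydeg_t]
          omega
      · have h2 : N * (N + 1).ascFactorial n = N.ascFactorial (n + 1) := by
          rw [Nat.ascFactorial_succ, Nat.succ_ascFactorial]
        rw [← h2]
        apply le_of_eq
        ring
    have hk : ((‖((n : ℂ) + 1)⁻¹‖₊ : ℝ≥0) : ℝ≥0∞) = ENNReal.ofReal (((n : ℝ) + 1)⁻¹) := by
      have h1 : ‖((n : ℂ) + 1)⁻¹‖ = ((n : ℝ) + 1)⁻¹ := by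
        rw [norm_inv]
        congr 1
        exact_mod_cast Complex.norm_natCast (n + 1)
      rw [← h1]
      exact (ofReal_norm _).symm
    have hdesc : (∑ i, m' (some (.x i)) + m' (some .t)) * (b' - 1).descFactorial n =
        b'.descFactorial (n + 1) := by
      change b' * _ = _
      rcases Nat.eq_zero_or_pos b' with h | h
      · rw [h]; simp
      · obtain ⟨c, hc⟩ : ∃ c, b' = c + 1 := ⟨b' - 1, by omega⟩
        rw [hc, Nat.succ_descFactorial_succ]
        simp
    calc nrm w (lb (n + 1) (monomial m 1) (monomial m' 1))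
        = ENNReal.ofReal (((n : ℝ) + 1)⁻¹) * nrm w (∑ i, lb n (D i (monomial m 1))
          (B i (monomial m' 1))) := by
          rw [← hk, ← nrm_smul]
          rfl
      _ ≤ ENNReal.ofReal (((n : ℝ) + 1)⁻¹) * ∑ i, nrm w (lb n (D i (monomial m 1))
          (B i (monomial m' 1))) := by
          gcongr
          exact nrm_sum_le _ _ _
      _ ≤ ENNReal.ofReal (((n : ℝ) + 1)⁻¹) * (b * ENNReal.ofReal (((m' (some .t) *
            (N.ascFactorial (n + 1) * (b' - 1).descFactorial n) : ℕ) : ℝ) / (n.factorial : ℝ)) +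
          ∑ i, b * ENNReal.ofReal (((m' (some (.x i)) * (N.ascFactorial (n + 1) *
          (b' - 1).descFactorial n) : ℕ) : ℝ) / (n.factorial : ℝ))) := by
          rw [Fintype.sum_option]
          gcongr with i
          exact hsome i
      _ = b * ENNReal.ofReal (((n : ℝ) + 1)⁻¹ * ((((m' (some .t) *
            (N.ascFactorial (n + 1) * (b' - 1).descFactorial n) : ℕ) : ℝ) / (n.factorial : ℝ)) +
          ∑ i, (((m' (some (.x i)) * (N.ascFactorial (n + 1) *
          (b' - 1).descFactorial n) : ℕ) : ℝ) / (n.factorial : ℝ)))) := by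
          rw [← Finset.mul_sum, ← mul_add, ENNReal.ofReal_mul (by positivity),
            ENNReal.ofReal_add (by positivity) (Finset.sum_nonneg fun _ _ => by positivity),
            ENNReal.ofReal_sum_of_nonneg (fun _ _ => by positivity)]
          ring
      _ = _ := by
          congr 2
          rw [← Finset.sum_div, ← add_div, ← Nat.cast_sum, ← Nat.cast_add, ← Finset.sum_mul,
            ← add_mul]
          have h9 : (m' (some Var.t) + ∑ i, m' (some (Var.x i))) *
              (N.ascFactorial (n + 1) * (b' - 1).descFactorial n) =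
              N.ascFactorial (n + 1) * b'.descFactorial (n + 1) := by
            rw [← hdesc]; ring
          rw [h9, Nat.factorial_succ]
          push_cast
          field_simp

/-! ## row g4: growth -/

/-- the weight `ρ ^ |m| τ (m none)` -/
noncomputable def wt (ρ : ℝ) (τ : ℕ → ℝ) (m : Option (Var d) →₀ ℕ) : ℝ≥0∞ :=
  ENNReal.ofReal (ρ ^ m.degree * τ (m none))

private lemma g4_term {ρ : ℝ} {τ : ℕ → ℝ} (f : Sym d) (m : Option (Var d) →₀ ℕ) :
    (‖coeff m f‖₊ : ℝ≥0∞) * wt ρ τ m = ENNReal.ofReal (‖coeff m f‖ * Pool.Fml.om ρ τ m) := by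
  rw [wt, ENNReal.ofReal_mul (norm_nonneg _), Pool.Fml.om]
  congr 1
  rw [ofReal_norm]
  rfl

private lemma g4_lt_top {ρ : ℝ} {τ : ℕ → ℝ} (hρ : 0 < ρ) (hτ : ∀ e, 0 < τ e) (f : Sym d) :
    nrm (wt ρ τ) f < ∞ ↔ Summable fun m => ‖coeff m f‖ * Pool.Fml.om ρ τ m := by
  have h0 : ∀ m : Option (Var d) →₀ ℕ, 0 ≤ ‖coeff m f‖ * Pool.Fml.om ρ τ m := fun m =>
    mul_nonneg (norm_nonneg _) (mul_nonneg (pow_pos hρ _).le (hτ _).le)
  rw [nrm, tsum_congr fun m => g4_term f m]
  constructor
  · intro h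
    have h1 := ENNReal.summable_toReal h.ne
    exact h1.congr fun m => ENNReal.toReal_ofReal (h0 m)
  · intro h
    exact h.tsum_ofReal_lt_top

private lemma g4_exp_iff {a : (Option (Var d) →₀ ℕ) → ℝ} (ha : ∀ m, 0 ≤ a m) :
    (∃ C : ℝ, ∀ m, a m ≤ C ^ (m.degree + 1)) ↔
      ∃ ρ : ℝ, 0 < ρ ∧ Summable fun m => a m * Pool.Fml.om ρ (fun _ => 1) m := by
  constructor
  · rintro ⟨C, hC⟩
    set D : ℝ := max |C| 1 with hD
    have hD1 : 1 ≤ D := le_max_right _ _
    have hD0 : 0 < D := by linarith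
    have hCD : ∀ m, a m ≤ D * D ^ m.degree := fun m => by
      rw [← pow_succ']
      refine (hC m).trans ((le_abs_self _).trans ?_)
      rw [abs_pow]
      exact pow_le_pow_left₀ (abs_nonneg _) (le_max_left _ _) _
    refine ⟨1 / (2 * D), by positivity, ?_⟩
    refine Summable.of_nonneg_of_le (fun m => mul_nonneg (ha m) (by rw [Pool.Fml.om]; positivity))
      (fun m => ?_) ((Pool.Fml.summable_deg (ι := Option (Var d)) (1 / 2) (by norm_num)
        (by norm_num)).mul_left D)
    have e : D ^ m.degree * (1 / (2 * D)) ^ m.degree = (1 / 2) ^ m.degree := by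
      rw [← mul_pow]; congr 1; field_simp
    calc a m * Pool.Fml.om (1 / (2 * D)) (fun _ => 1) m
        ≤ D * D ^ m.degree * Pool.Fml.om (1 / (2 * D)) (fun _ => 1) m :=
          mul_le_mul_of_nonneg_right (hCD m) (by rw [Pool.Fml.om]; positivity)
      _ = D * (1 / 2) ^ m.degree := by rw [Pool.Fml.om, mul_one, mul_assoc, e]
  · rintro ⟨ρ, hρ, h⟩
    set S := ∑' m, a m * Pool.Fml.om ρ (fun _ => 1) m with hS
    have hS0 : 0 ≤ S :=
      tsum_nonneg fun m => mul_nonneg (ha m) (by rw [Pool.Fml.om]; positivity)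
    refine ⟨max S 1 * max (1 / ρ) 1, fun m => ?_⟩
    have h1 : a m * Pool.Fml.om ρ (fun _ => 1) m ≤ S :=
      h.le_tsum m fun m _ => mul_nonneg (ha m) (by rw [Pool.Fml.om]; positivity)
    have e : ρ ^ m.degree * (1 / ρ) ^ m.degree = 1 := by
      rw [← mul_pow, mul_one_div_cancel hρ.ne', one_pow]
    have h2 : a m = a m * Pool.Fml.om ρ (fun _ => 1) m * (1 / ρ) ^ m.degree := by
      rw [Pool.Fml.om, mul_one, mul_assoc, e, mul_one]
    have h3 : S ≤ max S 1 ^ (m.degree + 1) :=
      (le_max_left S 1).trans (le_self_pow₀ (le_max_right _ _) (by omega))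
    have h4 : (1 / ρ) ^ m.degree ≤ max (1 / ρ) 1 ^ (m.degree + 1) :=
      (pow_le_pow_left₀ (by positivity) (le_max_left _ _) _).trans
        (pow_le_pow_right₀ (le_max_right _ _) (by omega))
    rw [h2, mul_pow]
    exact mul_le_mul (h1.trans h3) h4 (by positivity) (by positivity)

/-- compare `isMicro_iff`, `exp_iff` in `Pool/Agent/Fml/Defs.lean` (you may import `Pool.Agent.Fml.Tame`) -/
lemma isMicro_iff (f : Sym d) : IsMicro f ↔ ∃ ρ : ℝ, 0 < ρ ∧
    nrm (wt ρ fun e => 1 / (e.factorial : ℝ)) f < ∞ := by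
  have h1 : IsMicro f ↔ ∃ C : ℝ, ∀ m : Option (Var d) →₀ ℕ,
      ‖coeff m f‖ / (m none).factorial ≤ C ^ (m.degree + 1) :=
    exists_congr fun C => forall_congr' fun m => (div_le_iff₀ (by positivity)).symm
  rw [h1, g4_exp_iff fun m => by positivity]
  refine exists_congr fun ρ => and_congr_right fun hρ => ?_
  rw [g4_lt_top hρ fun e => by positivity]
  refine summable_congr fun m => ?_
  rw [Pool.Fml.om, Pool.Fml.om]
  ring

/-- compare `Tame.summable`, `tame_of_summable` in `Pool/Agent/Fml/Tame.lean` (general index type) -/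
lemma isFormal_iff (f : Sym d) : IsFormal f ↔ ∃ ρ : ℝ, 0 < ρ ∧ ∃ τ : ℕ → ℝ, (∀ e, 0 < τ e) ∧
    nrm (wt ρ τ) f < ∞ := by
  constructor
  · intro h
    have h' : Pool.Fml.Tame (ν := Var d) fun m => ‖coeff m f‖ := h
    obtain ⟨ρ, hρ, τ, hτ, -, hs⟩ := h'.summable fun m => norm_nonneg _
    exact ⟨ρ, hρ, τ, hτ, (g4_lt_top hρ hτ f).2 hs⟩
  · rintro ⟨ρ, hρ, τ, hτ, hs⟩
    exact Pool.Fml.tame_of_summable (ν := Var d) (a := fun m => ‖coeff m f‖)
      (fun m => norm_nonneg _) hρ hτ ((g4_lt_top hρ hτ f).1 hs)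

/-- smaller radius, smaller norm -/
lemma nrm_wt_mono {ρ ρ' : ℝ} (h0 : 0 < ρ) (h : ρ ≤ ρ') {τ τ' : ℕ → ℝ} (h1 : ∀ e, 0 < τ e)
    (h2 : ∀ e, τ e ≤ τ' e) (f : Sym d) : nrm (wt ρ τ) f ≤ nrm (wt ρ' τ') f := by
  rw [nrm, nrm]
  refine ENNReal.tsum_le_tsum fun m => mul_le_mul_right ?_ _
  exact ENNReal.ofReal_le_ofReal (mul_le_mul (pow_le_pow_left₀ h0.le h _) (h2 _) (h1 _).le
    (pow_nonneg (h0.le.trans h) _))

/-! ## row g5: closure under composition -/

private lemma g5_fac (N n b T1 T2 : ℕ) (hN : N ≤ T1) (hb : b ≤ T2) :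
    ((N.ascFactorial n * b.descFactorial n : ℕ) : ℝ) / (n.factorial : ℝ)
      ≤ (n.factorial : ℝ) * 2 ^ (T1 + T2 + n) := by
  have hf : (0 : ℝ) < n.factorial := by exact_mod_cast Nat.factorial_pos n
  rw [div_le_iff₀ hf]
  have h1 : N.ascFactorial n ≤ n.factorial * 2 ^ (N + n) := by
    rw [Nat.ascFactorial_eq_factorial_mul_choose']
    apply Nat.mul_le_mul_left
    exact le_trans (Nat.choose_le_two_pow _ _) (Nat.pow_le_pow_right (by norm_num) (by omega))
  have h2 : b.descFactorial n ≤ n.factorial * 2 ^ b := by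
    rw [Nat.descFactorial_eq_factorial_mul_choose]
    apply Nat.mul_le_mul_left
    exact Nat.choose_le_two_pow _ _
  have h3 : N.ascFactorial n * b.descFactorial n
      ≤ n.factorial * 2 ^ (T1 + T2 + n) * n.factorial := by
    calc N.ascFactorial n * b.descFactorial n
        ≤ (n.factorial * 2 ^ (N + n)) * (n.factorial * 2 ^ b) := Nat.mul_le_mul h1 h2
      _ = n.factorial * 2 ^ (N + n + b) * n.factorial := by rw [pow_add 2 (N + n) b]; ring
      _ ≤ n.factorial * 2 ^ (T1 + T2 + n) * n.factorial := by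
          apply Nat.mul_le_mul_right
          apply Nat.mul_le_mul_left
          exact Nat.pow_le_pow_right (by norm_num) (by omega)
  calc ((N.ascFactorial n * b.descFactorial n : ℕ) : ℝ)
      ≤ ((n.factorial * 2 ^ (T1 + T2 + n) * n.factorial : ℕ) : ℝ) := by exact_mod_cast h3
    _ = _ := by push_cast; ring

private lemma g5_pow {ρ : ℝ} (hρ : 0 < ρ) {q n T : ℕ} (h1 : T ≤ 2 * q) (h2 : n ≤ q) :
    ((min ρ 1) ^ 2 / 16) ^ q ≤ ρ ^ T / 2 ^ (T + 2 * n) := by
  set r := min ρ 1 with hr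
  have hr0 : 0 < r := lt_min hρ one_pos
  have hr1 : r ≤ 1 := min_le_right _ _
  have hrρ : r ≤ ρ := min_le_left _ _
  rw [le_div_iff₀ (by positivity)]
  calc (r ^ 2 / 16) ^ q * 2 ^ (T + 2 * n) ≤ (r ^ 2 / 16) ^ q * 2 ^ (4 * q) := by
        apply mul_le_mul_of_nonneg_left _ (by positivity)
        exact pow_le_pow_right₀ (by norm_num) (by omega)
    _ = r ^ (2 * q) := by
        rw [div_pow, ← pow_mul, pow_mul (2 : ℝ) 4 q]
        norm_num
    _ ≤ r ^ T := pow_le_pow_of_le_one hr0.le hr1 h1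
    _ ≤ ρ ^ T := pow_le_pow_left₀ hr0.le hrρ T

private lemma g5_comp_le (w : (Option (Var d) →₀ ℕ) → ℝ≥0∞) (f g : Sym d) :
    nrm w (comp f g) ≤ ∑' n, nrm w (lb n f g) := by
  unfold nrm
  rw [ENNReal.tsum_comm]
  apply ENNReal.tsum_le_tsum
  intro m
  rw [ENNReal.tsum_mul_right]
  apply mul_le_mul_left
  rw [coeff_comp]
  calc ((‖∑ n ∈ Finset.range (m none + 1), coeff m (lb n f g)‖₊ : ℝ≥0) : ℝ≥0∞)
      ≤ ((∑ n ∈ Finset.range (m none + 1), ‖coeff m (lb n f g)‖₊ : ℝ≥0) : ℝ≥0∞) := by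
        exact_mod_cast nnnorm_sum_le _ _
    _ = ∑ n ∈ Finset.range (m none + 1), ((‖coeff m (lb n f g)‖₊ : ℝ≥0) : ℝ≥0∞) := by
        push_cast; rfl
    _ ≤ _ := ENNReal.sum_le_tsum _

private lemma g5_tsum : ∑' n : ℕ, ENNReal.ofReal (1 / 2 ^ n) = 2 := by
  have h : ∀ n : ℕ, ENNReal.ofReal (1 / 2 ^ n) = (2⁻¹ : ℝ≥0∞) ^ n := by
    intro n
    rw [ENNReal.ofReal_div_of_pos (by positivity), ENNReal.ofReal_one,
      ENNReal.ofReal_pow (by norm_num), ← ENNReal.inv_pow, one_div]
    norm_num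
  simp_rw [h]
  rw [ENNReal.tsum_geometric, ENNReal.one_sub_inv_two, inv_inv]

theorem nrm_comp_growth {ρ : ℝ} (hρ : 0 < ρ) : ∃ ρ' : ℝ, 0 < ρ' ∧ ρ' ≤ ρ ∧
    ∀ τ τ' : ℕ → ℝ, (∀ e, 0 < τ e) → (∀ e, 0 < τ' e) →
      (∀ e e' n, τ' (e + e' + n) * (n.factorial : ℝ) ≤ τ e * τ e') → ∀ f g : Sym d,
        nrm (wt ρ' τ') (comp f g) ≤ 2 * (nrm (wt ρ τ) f * nrm (wt ρ τ) g) := by
  have hr0 : 0 < min ρ 1 := lt_min hρ one_pos
  have hr1 : min ρ 1 ≤ 1 := min_le_right _ _
  refine ⟨(min ρ 1) ^ 2 / 16, by positivity, ?_, ?_⟩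
  · calc (min ρ 1) ^ 2 / 16 ≤ (min ρ 1) ^ 2 := by
          have : 0 ≤ (min ρ 1) ^ 2 := by positivity
          linarith
      _ ≤ min ρ 1 := by nlinarith
      _ ≤ ρ := min_le_left _ _
  intro τ τ' hτ hτ' hh f g
  refine (g5_comp_le _ f g).trans ?_
  have key : ∀ n, nrm (wt ((min ρ 1) ^ 2 / 16) τ') (lb n f g)
      ≤ ENNReal.ofReal (1 / 2 ^ n) * (nrm (wt ρ τ) f * nrm (wt ρ τ) g) := by
    intro n
    apply nrm_lb_le
    intro m m'
    refine (nrm_lb_monomial _ (ENNReal.ofReal (ρ ^ (m.degree + m'.degree)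
      * τ' (m none + m' none + n) / 2 ^ (m.degree + m'.degree + 2 * n))) n m m' ?_).trans ?_
    · intro M h1 h2 h3 h4 h5
      unfold wt
      apply ENNReal.ofReal_le_ofReal
      rw [h1]
      have e1 := degree_eq M
      have e2 := degree_eq m
      have e3 := degree_eq m'
      have hn : n ≤ M.degree := by omega
      have hT : m.degree + m'.degree ≤ 2 * M.degree := by omega
      have hp := g5_pow hρ hT hn
      have hp' := mul_le_mul_of_nonneg_right hp (hτ' (m none + m' none + n)).le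
      calc _ ≤ _ := hp'
        _ = _ := by ring
    · unfold wt
      have hA := (hτ' (m none + m' none + n)).le
      rw [← ENNReal.ofReal_mul (by positivity), ← ENNReal.ofReal_mul (by
        have := (hτ (m none)).le; positivity), ← ENNReal.ofReal_mul (by positivity)]
      apply ENNReal.ofReal_le_ofReal
      have e2 := degree_eq m
      have e3 := degree_eq m'
      have hfac := g5_fac (ydeg m + m none) n (bdeg m') m.degree m'.degree (by omega) (by omega)
      have hh' := hh (m none) (m' none) n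
      calc ρ ^ (m.degree + m'.degree) * τ' (m none + m' none + n)
            / 2 ^ (m.degree + m'.degree + 2 * n)
            * ((((ydeg m + m none).ascFactorial n * (bdeg m').descFactorial n : ℕ) : ℝ)
              / (n.factorial : ℝ))
          ≤ ρ ^ (m.degree + m'.degree) * τ' (m none + m' none + n)
            / 2 ^ (m.degree + m'.degree + 2 * n)
            * ((n.factorial : ℝ) * 2 ^ (m.degree + m'.degree + n)) := by
            apply mul_le_mul_of_nonneg_left hfac
            positivity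
        _ = 1 / 2 ^ n * (ρ ^ (m.degree + m'.degree)
              * (τ' (m none + m' none + n) * (n.factorial : ℝ))) := by
            have : (2 : ℝ) ^ (m.degree + m'.degree + 2 * n)
                = 2 ^ (m.degree + m'.degree + n) * 2 ^ n := by rw [← pow_add]; congr 1; ring
            rw [this]
            field_simp
        _ ≤ 1 / 2 ^ n * (ρ ^ (m.degree + m'.degree) * (τ (m none) * τ (m' none))) := by
            apply mul_le_mul_of_nonneg_left _ (by positivity)
            apply mul_le_mul_of_nonneg_left hh' (by positivity)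
        _ = _ := by rw [pow_add]; ring
  calc ∑' n, nrm (wt ((min ρ 1) ^ 2 / 16) τ') (lb n f g)
      ≤ ∑' n : ℕ, ENNReal.ofReal (1 / 2 ^ n) * (nrm (wt ρ τ) f * nrm (wt ρ τ) g) :=
        ENNReal.tsum_le_tsum key
    _ = _ := by rw [ENNReal.tsum_mul_right, g5_tsum]

/-! ## row g6 -/

theorem isMicro_comp {f g : Sym d} (hf : IsMicro f) (hg : IsMicro g) : IsMicro (comp f g) := by
  obtain ⟨ρ₁, h1, hf'⟩ := (isMicro_iff f).1 hf
  obtain ⟨ρ₂, h2, hg'⟩ := (isMicro_iff g).1 hg
  have hpos : ∀ e : ℕ, 0 < (fun e : ℕ => 1 / (e.factorial : ℝ)) e := fun e => by positivity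
  have h0 : 0 < min ρ₁ ρ₂ := lt_min h1 h2
  have hf2 := lt_of_le_of_lt (nrm_wt_mono h0 (min_le_left ρ₁ ρ₂) hpos (fun e => le_refl _) f) hf'
  have hg2 := lt_of_le_of_lt (nrm_wt_mono h0 (min_le_right ρ₁ ρ₂) hpos (fun e => le_refl _) g) hg'
  obtain ⟨ρ', h3, -, h4⟩ := nrm_comp_growth (d := d) h0
  refine (isMicro_iff _).2 ⟨ρ', h3, lt_of_le_of_lt (h4 _ _ hpos hpos (fun e e' n => ?_) f g) ?_⟩
  · have h5 : e.factorial * e'.factorial * n.factorial ≤ (e + e' + n).factorial :=
      (Nat.mul_le_mul_right _ (Nat.le_of_dvd (Nat.factorial_pos _)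
        (Nat.factorial_mul_factorial_dvd_factorial_add e e'))).trans
        (Nat.le_of_dvd (Nat.factorial_pos _)
          (Nat.factorial_mul_factorial_dvd_factorial_add (e + e') n))
    have h6 : (e.factorial : ℝ) * e'.factorial * n.factorial ≤ ((e + e' + n).factorial : ℝ) := by
      exact_mod_cast h5
    have e1 : (0 : ℝ) < e.factorial := by positivity
    have e2 : (0 : ℝ) < e'.factorial := by positivity
    have e3 : (0 : ℝ) < (e + e' + n).factorial := by positivity
    rw [one_div_mul_eq_div, one_div_mul_one_div, div_le_div_iff₀ e3 (mul_pos e1 e2), one_mul]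
    linarith
  · exact ENNReal.mul_lt_top (by norm_num) (ENNReal.mul_lt_top hf2 hg2)

/-- given `τ` one finds `τ' > 0` with `τ' (e + e' + n) n! ≤ τ e τ e'` -/
theorem isFormal_comp {f g : Sym d} (hf : IsFormal f) (hg : IsFormal g) : IsFormal (comp f g) := by
  obtain ⟨ρ₁, h1, τ₁, t1, hf'⟩ := (isFormal_iff f).1 hf
  obtain ⟨ρ₂, h2, τ₂, t2, hg'⟩ := (isFormal_iff g).1 hg
  have h0 : 0 < min ρ₁ ρ₂ := lt_min h1 h2
  have hpos : ∀ e : ℕ, 0 < (fun e : ℕ => min (τ₁ e) (τ₂ e)) e := fun e => lt_min (t1 e) (t2 e)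
  have hf2 := lt_of_le_of_lt
    (nrm_wt_mono h0 (min_le_left ρ₁ ρ₂) hpos (fun e => min_le_left _ _) f) hf'
  have hg2 := lt_of_le_of_lt
    (nrm_wt_mono h0 (min_le_right ρ₁ ρ₂) hpos (fun e => min_le_right _ _) g) hg'
  obtain ⟨ρ', h3, -, h4⟩ := nrm_comp_growth (d := d) h0
  have hne : ∀ k : ℕ, (Finset.range (k + 1)).Nonempty := fun k => ⟨0, by simp⟩
  obtain ⟨μ, hμ0, hμ⟩ : ∃ μ : ℕ → ℝ, (∀ k, 0 < μ k) ∧
      ∀ k e, e ≤ k → μ k ≤ min (τ₁ e) (τ₂ e) := by
    refine ⟨fun k => (Finset.range (k + 1)).inf' (hne k) (fun e => min (τ₁ e) (τ₂ e)),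
      fun k => ?_, fun k e he => ?_⟩
    · exact (Finset.lt_inf'_iff _).2 fun e _ => hpos e
    · exact Finset.inf'_le _ (Finset.mem_range.2 (by omega))
  refine (isFormal_iff _).2 ⟨ρ', h3, fun k => μ k * μ k / (k.factorial : ℝ), fun k => ?_,
    lt_of_le_of_lt (h4 _ _ hpos (fun k => ?_) (fun e e' n => ?_) f g) ?_⟩
  · have := hμ0 k
    positivity
  · have := hμ0 k
    positivity
  · have a1 := hμ (e + e' + n) e (by omega)
    have a2 := hμ (e + e' + n) e' (by omega)
    have a3 := hμ0 (e + e' + n)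
    have a4 : (n.factorial : ℝ) ≤ ((e + e' + n).factorial : ℝ) := by
      exact_mod_cast Nat.factorial_le (by omega)
    have a5 : (0 : ℝ) < (e + e' + n).factorial := by positivity
    have a6 : μ (e + e' + n) * μ (e + e' + n) ≤ min (τ₁ e) (τ₂ e) * min (τ₁ e') (τ₂ e') :=
      mul_le_mul a1 a2 a3.le (hpos e).le
    refine le_trans ?_ a6
    rw [div_mul_eq_mul_div, div_le_iff₀ a5]
    exact mul_le_mul_of_nonneg_left a4 (by positivity)
  · exact ENNReal.mul_lt_top (by norm_num) (ENNReal.mul_lt_top hf2 hg2)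

end Pool.Agent.Ep
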