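import Pool.Agent.Ep.Nrm
import Pool.Agent.Fml.Defs

/-!
# Symbols in `x`, `s` and the commutation relations (P11, block A, helper39)
-/

set_option autoImplicit false

namespace Pool.Agent.Ep

open MvPowerSeries
open Pool.Fml (Ser SymRing formal micro)

variable {d : ℕ}

/-- the variables of `Ser d` as variables of `Sym d` -/
def vmap : Option (Fin d) → Option (Var d)
  | none => none
  | some i => some (.x i)

/-- `f` contains only the variables `x_i` and `s` -/
def Base (f : Sym d) : Prop :=
  ∀ m, (m (some .t) ≠ 0 ∨ ∃ i, m (some (.y i)) ≠ 0) → coeff m f = 0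

/-- the exponent of the variables `x`, `s` as an exponent of `Ser d` -/
noncomputable def mres (m : Option (Var d) →₀ ℕ) : Option (Fin d) →₀ ℕ :=
  Finsupp.equivFunOnFinite.symm fun v => m (vmap v)

/-- a symbol in `x`, `s` as a total symbol -/
noncomputable def emb (f : Ser d) : Sym d := fun m =>
  if m (some .t) = 0 ∧ ∀ i, m (some (.y i)) = 0 then coeff (mres m) f else 0

/-- the part of a total symbol which contains only `x`, `s`, as an element of `Ser d` -/
noncomputable def res (f : Sym d) : Ser d := fun m =>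
  coeff (Finsupp.equivFunOnFinite.symm fun v => match v with
    | none => m none | some (.x i) => m (some i) | some .t => 0 | some (.y _) => 0) f

/-! ## row e1: `emb` -/

private def e1_P (m : Option (Var d) →₀ ℕ) : Prop := m (some .t) = 0 ∧ ∀ i, m (some (.y i)) = 0

private noncomputable def e1_ext (n : Option (Fin d) →₀ ℕ) : Option (Var d) →₀ ℕ :=
  Finsupp.equivFunOnFinite.symm fun v => match v with
    | none => n none | some (.x i) => n (some i) | some .t => 0 | some (.y _) => 0

private lemma e1_coeff (f : Ser d) (m : Option (Var d) →₀ ℕ) : coeff m (emb f) =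
    if m (some .t) = 0 ∧ ∀ i, m (some (.y i)) = 0 then coeff (mres m) f else 0 := rfl

private lemma e1_pos (f : Ser d) {m : Option (Var d) →₀ ℕ} (h : e1_P m) :
    coeff m (emb f) = coeff (mres m) f := by
  rw [e1_coeff]
  exact if_pos h

private lemma e1_neg (f : Ser d) {m : Option (Var d) →₀ ℕ} (h : ¬ e1_P m) :
    coeff m (emb f) = 0 := by
  rw [e1_coeff]
  exact if_neg h

private lemma e1_res (f : Sym d) (n : Option (Fin d) →₀ ℕ) :
    coeff n (res f) = coeff (e1_ext n) f := rfl

private lemma e1_extP (n : Option (Fin d) →₀ ℕ) : e1_P (e1_ext n) := ⟨rfl, fun _ => rfl⟩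

private lemma e1_mres_ext (n : Option (Fin d) →₀ ℕ) : mres (e1_ext n) = n := by
  refine Finsupp.ext fun v => ?_
  rcases v with _ | v <;> rfl

private lemma e1_ext_mres {m : Option (Var d) →₀ ℕ} (h : e1_P m) : e1_ext (mres m) = m := by
  refine Finsupp.ext fun v => ?_
  rcases v with _ | v
  · rfl
  · cases v with
    | x i => rfl
    | t => exact h.1.symm
    | y i => exact (h.2 i).symm

private lemma e1_mres_add (a b : Option (Var d) →₀ ℕ) : mres (a + b) = mres a + mres b := by
  refine Finsupp.ext fun v => ?_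
  rcases v with _ | v <;> rfl

private lemma e1_P_add {a b : Option (Var d) →₀ ℕ} : e1_P (a + b) ↔ e1_P a ∧ e1_P b := by
  unfold e1_P
  constructor
  · rintro ⟨h1, h2⟩
    rw [Finsupp.add_apply] at h1
    refine ⟨⟨by omega, fun i => ?_⟩, ⟨by omega, fun i => ?_⟩⟩
    all_goals
      have h3 := h2 i
      rw [Finsupp.add_apply] at h3
      omega
  · rintro ⟨⟨h1, h2⟩, ⟨h3, h4⟩⟩
    refine ⟨?_, fun i => ?_⟩
    · rw [Finsupp.add_apply, h1, h3]
    · rw [Finsupp.add_apply, h2, h4]

private lemma e1_deg (n : Option (Fin d) →₀ ℕ) : (e1_ext n).degree = n.degree := by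
  rw [degree_eq, Finsupp.degree_eq_sum, Fintype.sum_option, bdeg, ydeg]
  change (∑ i, n (some i)) + 0 + ∑ _i : Fin d, 0 + n none = _
  rw [Finset.sum_const_zero]
  omega

lemma emb_add (f g : Ser d) : emb (f + g) = emb f + emb g := by
  ext m
  rw [map_add]
  by_cases h : e1_P m
  · rw [e1_pos _ h, e1_pos _ h, e1_pos _ h, map_add]
  · rw [e1_neg _ h, e1_neg _ h, e1_neg _ h, add_zero]

lemma emb_mul (f g : Ser d) : emb (f * g) = emb f * emb g := by
  classical
  ext m
  by_cases h : e1_P m
  · rw [e1_pos _ h, coeff_mul, coeff_mul]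
    symm
    refine Finset.sum_nbij' (fun p => (mres p.1, mres p.2)) (fun p => (e1_ext p.1, e1_ext p.2))
      ?_ ?_ ?_ ?_ ?_
    · intro p hp
      rw [Finset.HasAntidiagonal.mem_antidiagonal] at hp ⊢
      rw [← hp, e1_mres_add]
    · intro p hp
      rw [Finset.HasAntidiagonal.mem_antidiagonal] at hp ⊢
      have h1 : e1_P (e1_ext p.1 + e1_ext p.2) := e1_P_add.2 ⟨e1_extP _, e1_extP _⟩
      change e1_ext p.1 + e1_ext p.2 = m
      rw [← e1_ext_mres h1, e1_mres_add, e1_mres_ext, e1_mres_ext, hp, e1_ext_mres h]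
    · intro p hp
      rw [Finset.HasAntidiagonal.mem_antidiagonal] at hp
      rw [← hp, e1_P_add] at h
      exact Prod.ext (e1_ext_mres h.1) (e1_ext_mres h.2)
    · intro p _
      exact Prod.ext (e1_mres_ext _) (e1_mres_ext _)
    · intro p hp
      rw [Finset.HasAntidiagonal.mem_antidiagonal] at hp
      rw [← hp, e1_P_add] at h
      rw [e1_pos _ h.1, e1_pos _ h.2]
  · rw [e1_neg _ h, coeff_mul]
    symm
    refine Finset.sum_eq_zero fun p hp => ?_
    rw [Finset.HasAntidiagonal.mem_antidiagonal] at hp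
    by_cases h1 : e1_P p.1
    · have h2 : ¬ e1_P p.2 := fun h2 => h (hp ▸ e1_P_add.2 ⟨h1, h2⟩)
      rw [e1_neg _ h2, mul_zero]
    · rw [e1_neg _ h1, zero_mul]

private lemma e1_ext_inj {n n' : Option (Fin d) →₀ ℕ} (h : e1_ext n = e1_ext n') : n = n' := by
  rw [← e1_mres_ext n, h, e1_mres_ext]

private lemma e1_monomial (n : Option (Fin d) →₀ ℕ) (c : ℂ) :
    emb (monomial n c : Ser d) = monomial (e1_ext n) c := by
  classical
  ext m
  rw [coeff_monomial]
  by_cases h : e1_P m
  · rw [e1_pos _ h, coeff_monomial]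
    refine if_congr ⟨fun h1 => ?_, fun h1 => ?_⟩ rfl rfl
    · rw [← h1, e1_ext_mres h]
    · rw [h1, e1_mres_ext]
  · rw [e1_neg _ h, if_neg]
    intro h1
    exact h (h1 ▸ e1_extP n)

lemma emb_C (c : ℂ) : emb (C c : Ser d) = C c := by
  have h := e1_monomial (0 : Option (Fin d) →₀ ℕ) c
  have h1 : e1_ext (0 : Option (Fin d) →₀ ℕ) = 0 := by
    refine Finsupp.ext fun v => ?_
    rcases v with _ | v
    · rfl
    · cases v <;> rfl
  rw [h1] at h
  exact h

lemma emb_smul (c : ℂ) (f : Ser d) : emb (c • f) = c • emb f := by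
  ext m
  rw [map_smul]
  by_cases h : e1_P m
  · rw [e1_pos _ h, e1_pos _ h, map_smul]
  · rw [e1_neg _ h, e1_neg _ h, smul_zero]

lemma emb_X (v : Option (Fin d)) : emb (X v : Ser d) = X (vmap v) := by
  classical
  have h := e1_monomial (Finsupp.single v 1 : Option (Fin d) →₀ ℕ) 1
  have h1 : e1_ext (Finsupp.single v 1 : Option (Fin d) →₀ ℕ) = Finsupp.single (vmap v) 1 := by
    refine Finsupp.ext fun w => ?_
    rw [Finsupp.single_apply]
    rcases w with _ | w
    · change (Finsupp.single v 1 : Option (Fin d) →₀ ℕ) none = _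
      rw [Finsupp.single_apply]
      rcases v with _ | v
      · rfl
      · rw [if_neg (by simp), if_neg (by simp [vmap])]
    · cases w with
      | x i =>
        change (Finsupp.single v 1 : Option (Fin d) →₀ ℕ) (some i) = _
        rw [Finsupp.single_apply]
        rcases v with _ | v
        · rw [if_neg (by simp), if_neg (by simp [vmap])]
        · simp [vmap]
      | t =>
        change 0 = _
        rcases v with _ | v <;> simp [vmap]
      | y i =>
        change 0 = _
        rcases v with _ | v <;> simp [vmap]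
  rw [h1] at h
  exact h

lemma emb_base (f : Ser d) : Base (emb f) := by
  intro m hm
  refine e1_neg _ fun h => ?_
  rcases hm with hm | ⟨i, hi⟩
  · exact hm h.1
  · exact hi (h.2 i)

lemma res_emb (f : Ser d) : res (emb f) = f := by
  ext n
  rw [e1_res, e1_pos _ (e1_extP n), e1_mres_ext]

lemma emb_res {f : Sym d} (hf : Base f) : emb (res f) = f := by
  ext m
  by_cases h : e1_P m
  · rw [e1_pos _ h, e1_res, e1_ext_mres h]
  · rw [e1_neg _ h, hf]
    by_contra h1
    rw [not_or, not_not, not_exists] at h1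
    exact h ⟨h1.1, fun i => not_not.1 (h1.2 i)⟩

lemma emb_inj {f g : Ser d} (h : emb f = emb g) : f = g := by
  rw [← res_emb f, h, res_emb]

private lemma e1_isFormal_res {f : Sym d} (hf : IsFormal f) : Pool.Fml.IsFormal (res f) := by
  obtain ⟨R, hR, hf⟩ := hf
  refine ⟨R, hR, fun j => ?_⟩
  obtain ⟨C, hC⟩ := hf j
  refine ⟨C, fun n hn => ?_⟩
  rw [e1_res, ← e1_deg n]
  exact hC _ hn

private lemma e1_isMicro_res {f : Sym d} (hf : IsMicro f) : Pool.Fml.IsMicro (res f) := by
  obtain ⟨C, hC⟩ := hf
  refine ⟨C, fun n => ?_⟩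
  rw [e1_res, ← e1_deg n]
  exact hC (e1_ext n)

private lemma e1_deg' {m : Option (Var d) →₀ ℕ} (h : e1_P m) : (mres m).degree = m.degree := by
  rw [← e1_deg, e1_ext_mres h]

lemma isFormal_emb {f : Ser d} : IsFormal (emb f) ↔ Pool.Fml.IsFormal f := by
  constructor
  · intro h
    have h1 := e1_isFormal_res h
    rwa [res_emb] at h1
  · rintro ⟨R, hR, hf⟩
    refine ⟨R, hR, fun j => ?_⟩
    obtain ⟨C, hC⟩ := hf j
    refine ⟨|C|, fun m hm => ?_⟩
    by_cases h : e1_P m
    · rw [e1_pos _ h, ← e1_deg' h]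
      refine (hC _ hm).trans (mul_le_mul_of_nonneg_right (le_abs_self _) (by positivity))
    · rw [e1_neg _ h, norm_zero]
      positivity

lemma isMicro_emb {f : Ser d} : IsMicro (emb f) ↔ Pool.Fml.IsMicro f := by
  constructor
  · intro h
    have h1 := e1_isMicro_res h
    rwa [res_emb] at h1
  · rintro ⟨C, hC⟩
    have h0 : 0 ≤ C := by
      have h1 := (norm_nonneg _).trans (hC 0)
      simpa using h1
    refine ⟨C, fun m => ?_⟩
    by_cases h : e1_P m
    · rw [e1_pos _ h, ← e1_deg' h]
      exact hC (mres m)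
    · rw [e1_neg _ h, norm_zero]
      positivity

lemma isFormal_res {f : Sym d} (hf : IsFormal f) : Pool.Fml.IsFormal (res f) :=
  e1_isFormal_res hf

lemma isMicro_res {f : Sym d} (hf : IsMicro f) : Pool.Fml.IsMicro (res f) := e1_isMicro_res hf

/-! ## row e2: derivatives -/

private lemma e2_D_none (f : Sym d) : D none f =
    -(vs * (vs * pderiv ℂ none f + ∑ i, vy i * pderiv ℂ (some (.y i)) f)) := by
  have h : (∑ i : Fin d, vy i • pderiv ℂ (some (Var.y i)) : Derivation ℂ (Sym d) (Sym d)) f =
      ∑ i : Fin d, vy i * pderiv ℂ (some (Var.y i)) f := by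
    rw [← Derivation.coeFnAddMonoidHom_apply, map_sum, Finset.sum_apply]
    rfl
  show -((vs : Sym d) • ((vs : Sym d) • pderiv ℂ none f +
    (∑ i : Fin d, vy i • pderiv ℂ (some (Var.y i)) : Derivation ℂ (Sym d) (Sym d)) f)) = _
  rw [h]
  rfl

private lemma e2_D_some (i : Fin d) (f : Sym d) :
    D (some i) f = vs * pderiv ℂ (some (.y i)) f := rfl

private lemma e2_coeff_emb (f : Ser d) (m : Option (Var d) →₀ ℕ) : coeff m (emb f) =
    if m (some .t) = 0 ∧ ∀ i, m (some (.y i)) = 0 then coeff (mres m) f else 0 := rfl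

private lemma e2_vmap_ne_t (w : Option (Fin d)) : vmap w ≠ some .t := by
  cases w <;> simp [vmap]

private lemma e2_vmap_ne_y (w : Option (Fin d)) (i : Fin d) : vmap w ≠ some (.y i) := by
  cases w <;> simp [vmap]

private lemma e2_vmap_inj {v w : Option (Fin d)} (h : vmap v = vmap w) : v = w := by
  cases v <;> cases w <;> simp_all [vmap]

private lemma e2_mres (m : Option (Var d) →₀ ℕ) (w : Option (Fin d)) :
    mres (m + Finsupp.single (vmap w) 1) = mres m + Finsupp.single w 1 := by
  ext v
  show (m + Finsupp.single (vmap w) 1 : Option (Var d) →₀ ℕ) (vmap v) =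
    m (vmap v) + (Finsupp.single w 1 : Option (Fin d) →₀ ℕ) v
  rw [Finsupp.add_apply]
  congr 1
  by_cases h : w = v
  · rw [h, Finsupp.single_eq_same, Finsupp.single_eq_same]
  · rw [Finsupp.single_eq_of_ne (fun h' => h (e2_vmap_inj h'.symm)),
      Finsupp.single_eq_of_ne (fun h' => h h'.symm)]

/-- derivative of `emb f` with respect to a variable of `Ser d` -/
private lemma e2_pderiv_emb (w : Option (Fin d)) (f : Ser d) :
    pderiv ℂ (vmap w) (emb f) = emb (pderiv ℂ w f) := by
  ext m
  rw [coeff_pderiv, e2_coeff_emb, e2_coeff_emb, coeff_pderiv, e2_mres]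
  have h1 : (m + Finsupp.single (vmap w) 1 : Option (Var d) →₀ ℕ) (some .t) = m (some .t) := by
    rw [Finsupp.add_apply, Finsupp.single_eq_of_ne (e2_vmap_ne_t w).symm, add_zero]
  have h2 : ∀ i, (m + Finsupp.single (vmap w) 1 : Option (Var d) →₀ ℕ) (some (.y i)) =
      m (some (.y i)) := by
    intro i
    rw [Finsupp.add_apply, Finsupp.single_eq_of_ne (e2_vmap_ne_y w i).symm, add_zero]
  simp only [h1, h2]
  have h3 : mres m w = m (vmap w) := rfl
  rw [h3]
  split_ifs
  · rfl
  · rw [zero_mul]

private lemma e2_pderiv_t (f : Ser d) : pderiv ℂ (some .t) (emb f) = 0 := by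
  ext m
  rw [coeff_pderiv, e2_coeff_emb, if_neg, zero_mul, map_zero]
  rintro ⟨h, -⟩
  rw [Finsupp.add_apply, Finsupp.single_eq_same] at h
  omega

private lemma e2_pderiv_y (i : Fin d) (f : Ser d) : pderiv ℂ (some (.y i)) (emb f) = 0 := by
  ext m
  rw [coeff_pderiv, e2_coeff_emb, if_neg, zero_mul, map_zero]
  rintro ⟨-, h⟩
  have := h i
  rw [Finsupp.add_apply, Finsupp.single_eq_same] at this
  omega

lemma D_emb_some (i : Fin d) (f : Ser d) : D (some i) (emb f) = 0 := by
  rw [e2_D_some, e2_pderiv_y, mul_zero]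
lemma D_emb_none (f : Ser d) : D none (emb f) = -(vs ^ 2 * emb (pderiv ℂ none f)) := by
  have h : pderiv ℂ none (emb f) = emb (pderiv ℂ none f) := e2_pderiv_emb none f
  rw [e2_D_none, h, Finset.sum_eq_zero fun i _ => by rw [e2_pderiv_y, mul_zero], add_zero,
    ← mul_assoc, sq]
lemma B_emb_some (i : Fin d) (f : Ser d) : B (some i) (emb f) = emb (pderiv ℂ (some i) f) :=
  e2_pderiv_emb (some i) f
lemma B_emb_none (f : Ser d) : B none (emb f : Sym d) = 0 := e2_pderiv_t f
lemma D_vs (i : Fin d) : D (some i) (vs : Sym d) = 0 := by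
  rw [e2_D_some]
  nth_rewrite 2 [vs]
  rw [pderiv_X_of_ne (by simp), mul_zero]
lemma D_vs_none : D none (vs : Sym d) = -vs ^ 2 := by
  rw [e2_D_none]
  have h1 : pderiv ℂ none (vs : Sym d) = 1 := pderiv_X_self
  have h2 : ∀ i : Fin d, pderiv ℂ (some (.y i)) (vs : Sym d) = 0 := fun i =>
    pderiv_X_of_ne (by simp)
  rw [h1, Finset.sum_eq_zero fun i _ => by rw [h2, mul_zero], add_zero, mul_one, sq]
lemma D_vx (i : Option (Fin d)) (j : Fin d) : D i (vx j : Sym d) = 0 := by
  have h1 : pderiv ℂ none (vx j : Sym d) = 0 := pderiv_X_of_ne (by simp)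
  have h2 : ∀ i : Fin d, pderiv ℂ (some (.y i)) (vx j : Sym d) = 0 := fun i =>
    pderiv_X_of_ne (by simp)
  cases i with
  | none =>
    rw [e2_D_none, h1, Finset.sum_eq_zero fun i _ => by rw [h2, mul_zero], mul_zero, add_zero,
      mul_zero, neg_zero]
  | some i => rw [e2_D_some, h2, mul_zero]
lemma D_vt (i : Option (Fin d)) : D i (vt : Sym d) = 0 := by
  have h1 : pderiv ℂ none (vt : Sym d) = 0 := pderiv_X_of_ne (by simp)
  have h2 : ∀ i : Fin d, pderiv ℂ (some (.y i)) (vt : Sym d) = 0 := fun i =>
    pderiv_X_of_ne (by simp)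
  cases i with
  | none =>
    rw [e2_D_none, h1, Finset.sum_eq_zero fun i _ => by rw [h2, mul_zero], mul_zero, add_zero,
      mul_zero, neg_zero]
  | some i => rw [e2_D_some, h2, mul_zero]
lemma D_vy_some (i j : Fin d) : D (some i) (vy j : Sym d) = if i = j then vs else 0 := by
  rw [e2_D_some]
  by_cases h : i = j
  · rw [if_pos h, h]
    have h1 : pderiv ℂ (some (.y j)) (vy j : Sym d) = 1 := pderiv_X_self
    rw [h1, mul_one]
  · rw [if_neg h]
    have h1 : pderiv ℂ (some (.y i)) (vy j : Sym d) = 0 :=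
      pderiv_X_of_ne fun h' => h (by simpa using h'.symm)
    rw [h1, mul_zero]
lemma D_vy_none (j : Fin d) : D none (vy j : Sym d) = -(vs * vy j) := by
  rw [e2_D_none]
  have h1 : pderiv ℂ none (vy j : Sym d) = 0 := pderiv_X_of_ne (by simp)
  have h2 : ∀ i : Fin d, i ≠ j → pderiv ℂ (some (.y i)) (vy j : Sym d) = 0 := fun i h =>
    pderiv_X_of_ne fun h' => h (by simpa using h'.symm)
  have h3 : pderiv ℂ (some (.y j)) (vy j : Sym d) = 1 := pderiv_X_self
  rw [h1, Finset.sum_eq_single j, h3, mul_zero, zero_add, mul_one]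
  · intro i _ h
    rw [h2 i h, mul_zero]
  · intro h
    exact absurd (Finset.mem_univ j) h
lemma B_vs (i : Option (Fin d)) : B i (vs : Sym d) = 0 := by
  cases i with
  | none => exact pderiv_X_of_ne (by simp)
  | some i => exact pderiv_X_of_ne (by simp)
lemma B_vy (i : Option (Fin d)) (j : Fin d) : B i (vy j : Sym d) = 0 := by
  cases i with
  | none => exact pderiv_X_of_ne (by simp)
  | some i => exact pderiv_X_of_ne (by simp)
lemma B_vt_none : B none (vt : Sym d) = 1 := pderiv_X_self
lemma B_vt_some (i : Fin d) : B (some i) (vt : Sym d) = 0 := pderiv_X_of_ne (by simp)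
lemma B_vx_some (i j : Fin d) : B (some i) (vx j : Sym d) = if i = j then 1 else 0 := by
  by_cases h : i = j
  · rw [if_pos h, h]
    exact pderiv_X_self
  · rw [if_neg h]
    exact pderiv_X_of_ne fun h' => h (by simpa using h'.symm)
lemma B_vx_none (j : Fin d) : B none (vx j : Sym d) = 0 := pderiv_X_of_ne (by simp)

/-! ## row e3: products with the variables -/

/-- private helper of row e3 -/
private lemma e3_comp_one {f g : Sym d} (h : ∀ n, lb (n + 1) f g = 0) : comp f g = f * g := by
  refine eq_of_fil fun N => ?_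
  have h1 := (comp_fil f g (N + 1)).mono (Nat.le_succ N)
  rwa [Finset.sum_range_succ', Finset.sum_eq_zero fun n _ => h n, zero_add, lb, leib_zero] at h1

/-- private helper of row e3 -/
private lemma e3_comp_two {f g : Sym d} (h : ∀ n, lb (n + 2) f g = 0) :
    comp f g = f * g + ∑ i, D i f * B i g := by
  refine eq_of_fil fun N => ?_
  have h1 := (comp_fil f g (N + 2)).mono (show N ≤ N + 2 by omega)
  have h2 : lb 1 f g = ∑ i, D i f * B i g := by
    rw [lb, leib_succ]
    simp only [leib_zero, Nat.cast_zero, zero_add, inv_one, one_smul]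
  rw [Finset.sum_range_succ', Finset.sum_range_succ', Finset.sum_eq_zero fun n _ => h n,
    zero_add, zero_add, h2, lb, leib_zero, add_comm] at h1
  exact h1

/-- private helper of row e3 -/
private lemma e3_B_const {c : ℂ} (i j : Option (Fin d)) {g : Sym d} (h : B i g = C c) :
    B j (B i g) = 0 := by
  have h1 : (C c : Sym d) = algebraMap ℂ (Sym d) c := rfl
  rw [h, h1, Derivation.map_algebraMap]

/-- private helper of row e3 -/
private lemma e3_lb_const {f g : Sym d} (h : ∀ i, ∃ c : ℂ, B i g = C c) (n : ℕ) :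
    lb (n + 2) f g = 0 := by
  rw [lb, leib_succ, Finset.sum_eq_zero, smul_zero]
  intro i _
  obtain ⟨c, hc⟩ := h i
  exact leib_eq_zero_right D B (fun j => e3_B_const i j hc) n _

lemma comp_vx_left (i : Fin d) (f : Sym d) : comp (vx i) f = vx i * f :=
  comp_eq_mul_left (fun j => D_vx j i) f
lemma comp_vt_left (f : Sym d) : comp (vt : Sym d) f = vt * f :=
  comp_eq_mul_left (fun j => D_vt j) f
lemma comp_vy_right (f : Sym d) (i : Fin d) : comp f (vy i) = f * vy i :=
  comp_eq_mul_right (fun j => B_vy j i) f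
lemma comp_vs_right (f : Sym d) : comp f vs = f * vs :=
  comp_eq_mul_right (fun j => B_vs j) f
lemma comp_vt_right (f : Sym d) : comp f vt = f * vt + D none f := by
  rw [e3_comp_two (e3_lb_const fun i => ?_)]
  · rw [Fintype.sum_option, B_vt_none, mul_one,
      Finset.sum_eq_zero fun i _ => by rw [B_vt_some, mul_zero], add_zero]
  · cases i with
    | none => exact ⟨1, by rw [B_vt_none, map_one]⟩
    | some i => exact ⟨0, by rw [B_vt_some, map_zero]⟩
lemma comp_vx_right (f : Sym d) (i : Fin d) : comp f (vx i) = f * vx i + D (some i) f := by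
  classical
  rw [e3_comp_two (e3_lb_const fun j => ?_)]
  · rw [Fintype.sum_option, B_vx_none, mul_zero, zero_add,
      Finset.sum_eq_single i (fun j _ hj => by rw [B_vx_some, if_neg hj, mul_zero])
        (fun h => absurd (Finset.mem_univ i) h), B_vx_some, if_pos rfl, mul_one]
  · cases j with
    | none => exact ⟨0, by rw [B_vx_none, map_zero]⟩
    | some j =>
      refine ⟨if j = i then 1 else 0, ?_⟩
      rw [B_vx_some]
      split_ifs <;> simp
lemma comp_emb_emb (f g : Ser d) : comp (emb f) (emb g) = emb (f * g) := by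
  rw [e3_comp_one fun n => ?_, emb_mul]
  rw [lb, leib_succ, Finset.sum_eq_zero, smul_zero]
  intro i _
  cases i with
  | none => rw [B_emb_none, leib_zero_right]
  | some i => rw [D_emb_some, leib_zero_left]

/-- `[t, f] = s² ∂f/∂s` -/
lemma rel_T (f : Ser d) :
    op (vt : Sym d) * op (emb f) = op (emb f) * op vt + op (emb (X none ^ 2 * pderiv ℂ none f)) := by
  apply Op.ext
  have h1 : emb (X none ^ 2 * pderiv ℂ none f) = vs ^ 2 * emb (pderiv ℂ none f) := by
    rw [emb_mul, pow_two, emb_mul, emb_X, ← pow_two]; rfl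
  simp only [sym_add, sym_mul, sym_op]
  rw [comp_vt_left, comp_vt_right, D_emb_none, h1]
  ring
/-- `[P_i, f] = s ∂f/∂x_i` -/
lemma rel_P (i : Fin d) (f : Ser d) :
    op (vy i) * op (emb f) = op (emb f) * op (vy i) + op (emb (X none * pderiv ℂ (some i) f)) := by
  classical
  apply Op.ext
  have h1 : emb (X none * pderiv ℂ (some i) f) = vs * emb (pderiv ℂ (some i) f) := by
    rw [emb_mul, emb_X]; rfl
  have h2 : ∀ (n : ℕ) (g : Ser d), lb (n + 1) (vs : Sym d) (emb g) = 0 := fun n g => by
    rw [lb, leib_succ, Finset.sum_eq_zero, smul_zero]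
    intro j _
    cases j with
    | none => rw [B_emb_none, leib_zero_right]
    | some j => rw [D_vs, leib_zero_left]
  simp only [sym_add, sym_mul, sym_op]
  rw [comp_vy_right, h1, e3_comp_two fun n => ?_]
  · rw [Fintype.sum_option, B_emb_none, mul_zero, zero_add,
      Finset.sum_eq_single i (fun j _ hj => by rw [D_vy_some, if_neg hj, zero_mul])
        (fun h => absurd (Finset.mem_univ i) h), D_vy_some, if_pos rfl, B_emb_some]
    ring
  · rw [lb, leib_succ, Finset.sum_eq_zero, smul_zero]
    intro j _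
    cases j with
    | none => rw [B_emb_none, leib_zero_right]
    | some j =>
      rw [D_vy_some, B_emb_some]
      split_ifs
      · exact h2 n _
      · rw [leib_zero_left]
/-- `[P_i, t] = - s P_i` -/
lemma rel_PT (i : Fin d) :
    op (vy i) * op (vt : Sym d) - op vt * op (vy i) = -(op (vs : Sym d) * op (vy i)) := by
  apply Op.ext
  simp only [sym_sub, sym_neg, sym_mul, sym_op]
  rw [comp_vt_right, comp_vt_left, comp_vy_right, D_vy_none]
  ring
lemma rel_PP (i j : Fin d) : op (vy i) * op (vy j) = op (vy j) * op (vy i) := by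
  apply Op.ext
  simp only [sym_mul, sym_op]
  rw [comp_vy_right, comp_vy_right, mul_comm]

/-! ## row e4: `s` is normal -/

/-- `s ∘ f = rho f ∘ s`, `rho f = ∑ (-s ∂_t)^k f` -/
noncomputable def rho (f : Sym d) : Sym d := fun m =>
  ∑ k ∈ Finset.range (m none + 1), coeff m ((-vs) ^ k * (B none)^[k] f)

/-- private helper of row e4 -/
private lemma e4_fil_pow (k : ℕ) (g : Sym d) : Fil k ((-vs : Sym d) ^ k * g) := by
  have h1 : Fil 1 (-vs : Sym d) := by
    refine Fil.neg fun m hm => ?_
    classical
    rw [vs, coeff_X, if_neg]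
    rintro rfl
    simp at hm
  have h : ∀ k : ℕ, Fil k ((-vs : Sym d) ^ k) := by
    intro k
    induction k with
    | zero => exact fil_zero _
    | succ k ih => rw [pow_succ]; exact Fil.mul ih h1
  exact Fil.mul (h k) (fil_zero g)

/-- private helper of row e4 -/
private lemma e4_rho_fil (f : Sym d) (N : ℕ) :
    Fil N (rho f - ∑ k ∈ Finset.range N, (-vs : Sym d) ^ k * (B none)^[k] f) := by
  intro m hm
  rw [map_sub, map_sum]
  have h1 : coeff m (rho f) = ∑ k ∈ Finset.range (m none + 1),
      coeff m ((-vs : Sym d) ^ k * (B none)^[k] f) := rfl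
  rw [h1, sub_eq_zero]
  refine Finset.sum_subset (Finset.range_mono (by omega)) fun k _ hk => ?_
  rw [Finset.mem_range, not_lt] at hk
  exact e4_fil_pow k _ m (by omega)

/-- private helper of row e4 -/
private lemma e4_B_vs_mul (k : ℕ) (g : Sym d) : B none ((-vs : Sym d) ^ k * g) =
    (-vs : Sym d) ^ k * B none g := by
  have h : B none ((-vs : Sym d) ^ k) = 0 := by
    rw [Derivation.leibniz_pow, map_neg, B_vs, neg_zero, smul_zero, smul_zero]
  rw [Derivation.leibniz, h, smul_zero, add_zero, smul_eq_mul]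

/-- private helper of row e4: `rho f + s ∂_t (rho f) = f` -/
private lemma e4_rho_eq (f : Sym d) : rho f + vs * B none (rho f) = f := by
  refine eq_of_fil fun N => ?_
  set S : Sym d := ∑ k ∈ Finset.range N, (-vs : Sym d) ^ k * (B none)^[k] f with hS
  have h1 : S + vs * B none S = f - (-vs : Sym d) ^ N * (B none)^[N] f := by
    rw [hS, map_sum, Finset.mul_sum]
    have h2 : ∀ k ∈ Finset.range N, vs * B none ((-vs : Sym d) ^ k * (B none)^[k] f) =
        -((-vs : Sym d) ^ (k + 1) * (B none)^[k + 1] f) := fun k _ => by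
      rw [e4_B_vs_mul, Function.iterate_succ_apply', pow_succ]
      ring
    rw [Finset.sum_congr rfl h2, Finset.sum_neg_distrib, ← sub_eq_add_neg,
      ← Finset.sum_sub_distrib, Finset.sum_range_sub', pow_zero, one_mul,
      Function.iterate_zero, id]
  have h3 : rho f + vs * B none (rho f) - f = (rho f - S) + vs * B none (rho f - S)
      + -((-vs : Sym d) ^ N * (B none)^[N] f) := by
    rw [map_sub, mul_sub]
    linear_combination h1
  rw [h3]
  refine Fil.add (Fil.add (e4_rho_fil f N) ?_) (e4_fil_pow N _).neg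
  have h4 := Fil.mul (fil_zero (vs : Sym d)) ((e4_rho_fil f N).B none)
  rwa [zero_add] at h4

/-- private helper of row e4 -/
private lemma e4_lb (n : ℕ) : ∀ (a : ℕ) (f : Sym d), lb n (vs ^ (a + 1)) f =
    ((a + n).choose n : ℂ) • ((-1 : Sym d) ^ n * vs ^ (a + 1 + n) * (B none)^[n] f) := by
  induction n with
  | zero =>
    intro a f
    rw [lb, leib_zero, add_zero, Nat.choose_zero_right, Nat.cast_one, one_smul, pow_zero, one_mul,
      add_zero, Function.iterate_zero, id]
  | succ n ih =>
    intro a f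
    have hD : ∀ i : Fin d, D (some i) (vs ^ (a + 1) : Sym d) = 0 := fun i => by
      rw [Derivation.leibniz_pow, D_vs, smul_zero, smul_zero]
    have hN : D none (vs ^ (a + 1) : Sym d) = (-((a : ℂ) + 1)) • vs ^ (a + 1 + 1) := by
      rw [Derivation.leibniz_pow, D_vs_none, Nat.add_sub_cancel, smul_eq_mul, nsmul_eq_mul,
        Algebra.smul_def]
      have : ((a + 1 : ℕ) : Sym d) = algebraMap ℂ (Sym d) ((a : ℂ) + 1) := by
        rw [map_add, map_natCast, map_one]; push_cast; rfl
      rw [this, map_neg]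
      ring
    rw [lb, leib_succ, Fintype.sum_option, Finset.sum_eq_zero fun i _ => by
      rw [hD, leib_zero_left], add_zero, hN, leib_smul_left]
    have h1 := ih (a + 1) (B none f)
    rw [lb] at h1
    rw [h1, smul_smul, smul_smul, ← Function.iterate_succ_apply, pow_succ (-1 : Sym d),
      show a + 1 + 1 + n = a + 1 + (n + 1) by omega, show a + (n + 1) = a + n + 1 by omega]
    have h2 : ((n : ℂ) + 1)⁻¹ * -((a : ℂ) + 1) * ((a + 1 + n).choose n : ℂ) =
        -(((a + n + 1).choose (n + 1) : ℕ) : ℂ) := by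
      have h3 : (n + 1) * (a + n + 1).choose (n + 1) = (a + 1) * (a + 1 + n).choose n := by
        have h4 := Nat.choose_succ_right_eq (a + n + 1) n
        rw [show a + 1 + n = a + n + 1 by omega, mul_comm, h4, mul_comm]
        congr 1
        omega
      have h5 : ((n : ℂ) + 1) * ((a + n + 1).choose (n + 1) : ℂ) =
          ((a : ℂ) + 1) * ((a + 1 + n).choose n : ℂ) := by exact_mod_cast h3
      have h6 : ((n : ℂ) + 1) ≠ 0 := by exact_mod_cast Nat.succ_ne_zero n
      field_simp
      linear_combination h5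
    rw [h2, neg_smul, ← smul_neg]
    congr 1
    ring

lemma comp_vs_left (f : Sym d) : comp vs f = comp (rho f) vs := by
  rw [comp_vs_right]
  refine eq_of_fil fun N => ?_
  have h1 := comp_fil vs f N
  have h2 : ∑ n ∈ Finset.range N, lb n vs f =
      (∑ k ∈ Finset.range N, (-vs : Sym d) ^ k * (B none)^[k] f) * vs := by
    rw [Finset.sum_mul]
    refine Finset.sum_congr rfl fun n _ => ?_
    have h3 := e4_lb n 0 f
    rw [zero_add, pow_one, zero_add, Nat.choose_self, Nat.cast_one, one_smul] at h3
    rw [h3, neg_pow (vs : Sym d), pow_add]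
    ring
  rw [h2] at h1
  have h4 := (Fil.mul (e4_rho_fil f N) (fil_zero (vs : Sym d))).neg
  rw [add_zero] at h4
  have h5 : comp vs f - rho f * vs = (comp vs f -
      (∑ k ∈ Finset.range N, (-vs : Sym d) ^ k * (B none)^[k] f) * vs) +
      -((rho f - ∑ k ∈ Finset.range N, (-vs : Sym d) ^ k * (B none)^[k] f) * vs) := by ring
  rw [h5]
  exact Fil.add h1 h4

/-- private helper of row e4 -/
private lemma e4_coeff_vs_mul (f : Sym d) (m : Option (Var d) →₀ ℕ) :
    coeff (m + Finsupp.single none 1) (f * vs) = coeff m f := by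
  have h := coeff_add_mul_monomial m (Finsupp.single (none : Option (Var d)) 1) f (1 : ℂ)
  rw [mul_one] at h
  exact h

/-- private helper of row e4 -/
private lemma e4_vs_inj {f : Sym d} (h : f * vs = 0) : f = 0 := by
  ext m
  rw [← e4_coeff_vs_mul, h, map_zero, map_zero]

/-- the inverse of `rho` -/
lemma rho_inv (f : Sym d) : comp vs (f + vs * B none f) = comp f vs := by
  rw [comp_vs_left, comp_vs_right, comp_vs_right]
  congr 1
  -- `rho g = f` for `g = f + s ∂_t f`
  set g : Sym d := f + vs * B none f with hg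
  have h1 := e4_rho_eq g
  have h2 : (rho g - f) + vs * B none (rho g - f) = 0 := by
    rw [map_sub, mul_sub]
    linear_combination h1 + hg
  have h3 : ∀ N, Fil N (rho g - f) := by
    intro N
    induction N with
    | zero => exact fil_zero _
    | succ N ih =>
      have h4 : rho g - f = (-vs : Sym d) ^ 1 * B none (rho g - f) := by
        linear_combination h2
      rw [h4, add_comm N 1]
      have h5 := e4_fil_pow 1 (1 : Sym d)
      rw [mul_one] at h5
      exact Fil.mul h5 (ih.B none)
  exact eq_of_fil h3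

lemma isFormal_rho {f : Sym d} (hf : IsFormal f) : IsFormal (rho f) := by
  have h : IsFormal (comp vs f) := isFormal_comp (isFormal_X none) hf
  rw [comp_vs_left, comp_vs_right] at h
  obtain ⟨R, hR, h⟩ := h
  refine ⟨R, hR, fun j => ?_⟩
  obtain ⟨C, hC⟩ := h (j + 1)
  refine ⟨C * R, fun m hm => ?_⟩
  have h1 := hC (m + Finsupp.single none 1) (by
    rw [Finsupp.add_apply, hm, Finsupp.single_eq_same])
  rw [e4_coeff_vs_mul, map_add, Finsupp.degree_single, pow_succ] at h1
  refine h1.trans (le_of_eq ?_)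
  ring

/-- private helper of row e4 -/
private lemma e4_two_pow (n : ℕ) : ((n : ℝ) + 1) ≤ 2 ^ n := by
  exact_mod_cast Nat.lt_two_pow_self (n := n)

lemma isMicro_rho {f : Sym d} (hf : IsMicro f) : IsMicro (rho f) := by
  have h : IsMicro (comp vs f) := isMicro_comp (isMicro_X none) hf
  rw [comp_vs_left, comp_vs_right] at h
  obtain ⟨C, hC⟩ := h
  set K : ℝ := max |C| 1 with hK
  have hK1 : 1 ≤ K := le_max_right _ _
  refine ⟨2 * K ^ 2, fun m => ?_⟩
  have h1 := hC (m + Finsupp.single none 1)
  rw [e4_coeff_vs_mul, map_add, Finsupp.degree_single, Finsupp.add_apply,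
    Finsupp.single_eq_same] at h1
  have h2 : C ^ (m.degree + 1 + 1) ≤ K ^ (m.degree + 1 + 1) := by
    refine (le_abs_self _).trans ?_
    rw [abs_pow]
    exact pow_le_pow_left₀ (abs_nonneg _) (le_max_left _ _) _
  have h3 : K ^ (m.degree + 1 + 1) ≤ (K ^ 2) ^ (m.degree + 1) := by
    rw [← pow_mul]
    exact pow_le_pow_right₀ hK1 (by omega)
  have h4 : ((m none + 1).factorial : ℝ) ≤ 2 ^ (m.degree + 1) * (m none).factorial := by
    rw [Nat.factorial_succ]
    push_cast
    refine mul_le_mul_of_nonneg_right ((e4_two_pow _).trans ?_) (by positivity)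
    refine pow_le_pow_right₀ (by norm_num) ?_
    have := Finsupp.le_degree none m
    omega
  calc ‖coeff m (rho f)‖ ≤ C ^ (m.degree + 1 + 1) * ((m none + 1).factorial : ℝ) := h1
    _ ≤ (K ^ 2) ^ (m.degree + 1) * (2 ^ (m.degree + 1) * (m none).factorial) :=
        mul_le_mul (h2.trans h3) h4 (by positivity) (by positivity)
    _ = (2 * K ^ 2) ^ (m.degree + 1) * (m none).factorial := by rw [mul_pow]; ring

/-- private helper of row e4 -/
private lemma e4_coeff_sB (f : Sym d) (m : Option (Var d) →₀ ℕ) (h : 1 ≤ m none) :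
    ∃ m' : Option (Var d) →₀ ℕ, m'.degree = m.degree ∧ m' none + 1 = m none ∧
      ‖coeff m (vs * B none f)‖ ≤ ‖coeff m' f‖ * 2 ^ m.degree := by
  obtain ⟨n, hn⟩ : ∃ n, m = n + Finsupp.single none 1 := by
    refine ⟨m - Finsupp.single none 1, ?_⟩
    rw [tsub_add_cancel_of_le]
    rwa [Finsupp.single_le_iff]
  refine ⟨n + Finsupp.single (some .t) 1, ?_, ?_, ?_⟩
  · rw [hn, map_add, map_add, Finsupp.degree_single, Finsupp.degree_single]
  · rw [hn, Finsupp.add_apply, Finsupp.add_apply, Finsupp.single_eq_same,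
      Finsupp.single_eq_of_ne (by simp), add_zero]
  · have h1 : coeff m (vs * B none f) = coeff n (pderiv ℂ (some .t) f) := by
      rw [mul_comm, hn, e4_coeff_vs_mul]; rfl
    rw [h1, coeff_pderiv, norm_mul]
    refine mul_le_mul_of_nonneg_left ?_ (norm_nonneg _)
    have h2 : ((n (some .t) : ℂ) + 1) = ((n (some .t) + 1 : ℕ) : ℂ) := by push_cast; rfl
    rw [h2, Complex.norm_natCast]
    push_cast
    refine (e4_two_pow _).trans (pow_le_pow_right₀ (by norm_num) ?_)
    have h3 := Finsupp.le_degree (some (.t : Var d)) n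
    rw [hn, map_add, Finsupp.degree_single]
    omega

/-- private helper of row e4 -/
private lemma e4_coeff_sB_zero (f : Sym d) (m : Option (Var d) →₀ ℕ) (h : m none = 0) :
    coeff m (vs * B none f) = 0 := by
  have h1 := e4_fil_pow 1 (1 : Sym d)
  have h2 := (Fil.mul h1 (fil_zero (B none f))).neg
  have h3 := h2 m (by omega)
  rw [pow_one, mul_one, neg_mul, neg_neg] at h3
  exact h3

lemma isFormal_rho_inv {f : Sym d} (hf : IsFormal f) : IsFormal (f + vs * B none f) := by
  refine isFormal_add hf ?_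
  obtain ⟨R, hR, h⟩ := hf
  refine ⟨2 * R, by positivity, fun j => ?_⟩
  obtain ⟨C, hC⟩ := h (j - 1)
  refine ⟨|C|, fun m hm => ?_⟩
  rcases Nat.eq_zero_or_pos (m none) with h0 | h0
  · rw [e4_coeff_sB_zero f m h0, norm_zero]; positivity
  · obtain ⟨m', h1, h2, h3⟩ := e4_coeff_sB f m h0
    refine h3.trans ?_
    have h4 := hC m' (by omega)
    rw [h1] at h4
    calc ‖coeff m' f‖ * 2 ^ m.degree ≤ (|C| * R ^ m.degree) * 2 ^ m.degree :=
          mul_le_mul_of_nonneg_right (h4.trans
            (mul_le_mul_of_nonneg_right (le_abs_self C) (by positivity))) (by positivity)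
      _ = |C| * (2 * R) ^ m.degree := by rw [mul_pow]; ring

lemma isMicro_rho_inv {f : Sym d} (hf : IsMicro f) : IsMicro (f + vs * B none f) := by
  refine isMicro_add hf ?_
  obtain ⟨C, hC⟩ := hf
  refine ⟨2 * max |C| 1, fun m => ?_⟩
  rcases Nat.eq_zero_or_pos (m none) with h0 | h0
  · rw [e4_coeff_sB_zero f m h0, norm_zero]; positivity
  · obtain ⟨m', h1, h2, h3⟩ := e4_coeff_sB f m h0
    refine h3.trans ?_
    have h4 := hC m'
    rw [h1] at h4
    have h5 : C ^ (m.degree + 1) ≤ max |C| 1 ^ (m.degree + 1) := by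
      refine (le_abs_self _).trans ?_
      rw [abs_pow]
      exact pow_le_pow_left₀ (abs_nonneg _) (le_max_left _ _) _
    have h6 : ((m' none).factorial : ℝ) ≤ (m none).factorial := by
      exact_mod_cast Nat.factorial_le (by omega)
    calc ‖coeff m' f‖ * 2 ^ m.degree
        ≤ (max |C| 1 ^ (m.degree + 1) * (m none).factorial) * 2 ^ (m.degree + 1) :=
          mul_le_mul (h4.trans (mul_le_mul h5 h6 (by positivity) (by positivity)))
            (pow_le_pow_right₀ (by norm_num) (by omega)) (by positivity) (by positivity)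
      _ = (2 * max |C| 1) ^ (m.degree + 1) * (m none).factorial := by rw [mul_pow]; ring

/-- `s` is not a zero divisor -/
lemma comp_vs_right_inj {f : Sym d} (h : comp f vs = 0) : f = 0 :=
  e4_vs_inj (by rw [← comp_vs_right, h])
lemma comp_vs_left_inj {f : Sym d} (h : comp vs f = 0) : f = 0 := by
  rw [comp_vs_left] at h
  have h1 := comp_vs_right_inj h
  have h2 := e4_rho_eq f
  rw [h1, map_zero, mul_zero, add_zero] at h2
  exact h2.symm

/-! ## row e5: units -/

/-- `V none = t`, `V (some i) = y_i` -/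
noncomputable def V : Option (Fin d) → Sym d
  | none => vt
  | some i => vy i

/-- the inverse of `X v - c` -/
private noncomputable def e5_g (v : Option (Var d)) (c : ℂ) : Sym d := fun m =>
  if m = Finsupp.single v (m v) then -(c⁻¹) ^ (m v + 1) else 0

private lemma e5_coeff (v : Option (Var d)) (c : ℂ) (m : Option (Var d) →₀ ℕ) :
    coeff m (e5_g v c) = if m = Finsupp.single v (m v) then -(c⁻¹) ^ (m v + 1) else 0 := rfl

private lemma e5_mul (v : Option (Var d)) {c : ℂ} (hc : c ≠ 0) :
    (X v - C c) * e5_g v c = 1 := by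
  ext m
  rw [sub_mul, map_sub, coeff_C_mul, X_def, coeff_monomial_mul, coeff_one, e5_coeff, e5_coeff]
  by_cases h : m = Finsupp.single v (m v)
  · generalize m v = n at h
    subst h
    rcases n with _ | n
    · have h1 : ¬ (Finsupp.single v 1 ≤ Finsupp.single v 0) := by
        intro h2
        have := h2 v
        simp at this
      rw [if_neg h1]
      simp
      field_simp
    · have h1 : Finsupp.single v 1 ≤ Finsupp.single v (n + 1) := by
        intro w
        by_cases hw : v = w
        · subst hw; simp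
        · simp [hw]
      have h2 : Finsupp.single v (n + 1) - Finsupp.single v 1 = Finsupp.single v n := by
        rw [← Finsupp.single_tsub]
        simp
      have h3 : Finsupp.single v (n + 1) ≠ 0 := by simp
      rw [if_pos h1, h2, if_neg h3]
      simp only [Finsupp.single_eq_same, if_true]
      rw [pow_succ (c⁻¹) (n + 1)]
      field_simp
      ring
  · have hm0 : m ≠ 0 := by
      rintro rfl
      simp at h
    rw [if_neg h, if_neg hm0]
    split_ifs with h1 h2
    · exfalso
      apply h
      have h3 : m = Finsupp.single v ((m - (Finsupp.single v 1 : Option (Var d) →₀ ℕ)) v) + Finsupp.single v 1 := by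
        rw [← h2, tsub_add_cancel_of_le h1]
      rw [← Finsupp.single_add] at h3
      have h4 : m v = (m - (Finsupp.single v 1 : Option (Var d) →₀ ℕ)) v + 1 := by
        conv_lhs => rw [h3]
        simp
      rw [h4]
      exact h3
    · simp
    · simp

private lemma e5_micro (v : Option (Var d)) (hv : v ≠ none) (c : ℂ) : IsMicro (e5_g v c) := by
  refine ⟨‖c⁻¹‖, fun m => ?_⟩
  rw [e5_coeff]
  split_ifs with h
  · generalize m v = n at h
    subst h
    rw [Finsupp.degree_single, Finsupp.single_apply, if_neg hv, Nat.factorial_zero, norm_neg,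
      norm_pow, Nat.cast_one, mul_one]
  · simp only [norm_zero]
    positivity

private lemma e5_der {f g : Sym d} (h : f * g = 1) (E : Derivation ℂ (Sym d) (Sym d))
    (hf : E f = 0) : E g = 0 := by
  have h1 := congrArg E h
  rw [Derivation.leibniz, hf, smul_zero, add_zero, smul_eq_mul, Derivation.map_one_eq_zero] at h1
  have h2 : g * (f * E g) = 0 := by rw [h1, mul_zero]
  rw [← mul_assoc, mul_comm g f, h, one_mul] at h2
  exact h2

private lemma e5_C (E : Derivation ℂ (Sym d) (Sym d)) (c : ℂ) : E (C c) = 0 := by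
  have h : (C c : Sym d) = algebraMap ℂ (Sym d) c := by rw [← c_eq_algebraMap]
  rw [h, Derivation.map_algebraMap]

/-- `V j - c` is invertible for `c ≠ 0`: the inverse is `- ∑ c^(-n-1) (V j)^n`, all products
involved are commutative products of series in one variable -/
lemma exists_inv_V (j : Option (Fin d)) {c : ℂ} (hc : c ≠ 0) :
    ∃ g : Sym d, IsMicro g ∧ comp g (V j - C c) = 1 ∧ comp (V j - C c) g = 1 := by
  rcases j with _ | i
  · have hV : (V none - C c) * e5_g (some .t) c = 1 := e5_mul (d := d) (some .t) hc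
    have hD : ∀ k, D k (V none - C c : Sym d) = 0 := fun k => by
      rw [map_sub, e5_C, sub_zero]
      exact D_vt k
    refine ⟨e5_g (some .t) c, e5_micro _ (by simp) c, ?_, ?_⟩
    · rw [comp_eq_mul_left (fun k => e5_der hV (D k) (hD k)), mul_comm, hV]
    · rw [comp_eq_mul_left hD, hV]
  · have hV : (V (some i) - C c) * e5_g (some (.y i)) c = 1 := e5_mul (d := d) (some (.y i)) hc
    have hB : ∀ k, B k (V (some i) - C c : Sym d) = 0 := fun k => by
      rw [map_sub, e5_C, sub_zero]
      exact B_vy k i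
    refine ⟨e5_g (some (.y i)) c, e5_micro _ (by simp) c, ?_, ?_⟩
    · rw [comp_eq_mul_right hB, mul_comm, hV]
    · rw [comp_eq_mul_right (fun k => e5_der hV (B k) (hB k)), hV]

end Pool.Agent.Ep
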