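import Mathlib

/-!
# Uniqueness of the microdifferential form: growth of power series (P11, block U, helper69)

`O` is a commutative ring with a submultiplicative seminorm `p : O → [0, ∞]`. A power series
`f = ∑ f_j s^j` has Gevrey growth, `GV p f`, if `p (f_j) ≤ C^(j+1) j!`.
-/

set_option autoImplicit false

namespace Pool.Agent.Ep

open scoped ENNReal NNReal

section growth

variable {O : Type} [CommRing O]

/-- a submultiplicative seminorm with values in `[0, ∞]` -/
structure SMN (p : O → ℝ≥0∞) : Prop where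
  zero : p 0 = 0
  one : p 1 ≠ ∞
  add : ∀ a b, p (a + b) ≤ p a + p b
  neg : ∀ a, p (-a) = p a
  mul : ∀ a b, p (a * b) ≤ p a * p b
  nat : ∀ (n : ℕ) a, p ((n : O) * a) = n * p a

/-- division estimate: `p a ≤ C p (h a)` -/
def DE (p : O → ℝ≥0∞) (h : O) : Prop := ∃ C : ℝ≥0, ∀ a, p a ≠ ∞ → p a ≤ C * p (h * a)

/-- all coefficients have finite norm -/
def FN (p : O → ℝ≥0∞) (f : PowerSeries O) : Prop := ∀ j, p (PowerSeries.coeff j f) ≠ ∞

/-- Gevrey growth -/
def GV (p : O → ℝ≥0∞) (f : PowerSeries O) : Prop :=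
  ∃ C : ℝ, 0 ≤ C ∧ ∀ j, p (PowerSeries.coeff j f) ≤ ENNReal.ofReal (C ^ (j + 1) * j.factorial)

/-! ## row g1: closure properties -/

variable {p : O → ℝ≥0∞} (hp : SMN p)

include hp

-- BEGIN g1
lemma SMN.sum {κ : Type} (s : Finset κ) (f : κ → O) : p (∑ k ∈ s, f k) ≤ ∑ k ∈ s, p (f k) := by
  classical
  induction s using Finset.induction_on with
  | empty =>
    rw [Finset.sum_empty, Finset.sum_empty, hp.zero]
  | insert a s ha ih =>
    rw [Finset.sum_insert ha, Finset.sum_insert ha]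
    exact (hp.add _ _).trans (add_le_add le_rfl ih)

/-- if `h h'` has a division estimate and `h'` has finite norm then `h` has a division estimate -/
lemma DE.left {h h' : O} (H : DE p (h * h')) (hf : p h' ≠ ∞) : DE p h := by
  obtain ⟨C, hC⟩ := H
  refine ⟨C * (p h').toNNReal, fun a ha => (hC a ha).trans ?_⟩
  rw [ENNReal.coe_mul, ENNReal.coe_toNNReal hf, mul_assoc (C : ℝ≥0∞)]
  refine mul_le_mul' le_rfl ?_
  have e : h * h' * a = h' * (h * a) := by ring
  rw [e]
  exact hp.mul _ _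

omit hp in
lemma GV.fn {f : PowerSeries O} (h : GV p f) : FN p f := fun j =>
  ne_top_of_le_ne_top ENNReal.ofReal_ne_top (h.choose_spec.2 j)

omit hp in
/-- one may take a bigger constant -/
private lemma g1_mono {f : PowerSeries O} {C D : ℝ} (hC : 0 ≤ C) (h : C ≤ D)
    (hf : ∀ j, p (PowerSeries.coeff j f) ≤ ENNReal.ofReal (C ^ (j + 1) * j.factorial)) (j : ℕ) :
    p (PowerSeries.coeff j f) ≤ ENNReal.ofReal (D ^ (j + 1) * j.factorial) := by
  refine (hf j).trans (ENNReal.ofReal_le_ofReal ?_)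
  have := pow_le_pow_left₀ hC h (j + 1)
  gcongr

omit hp in
/-- a common constant `≥ 1` -/
private lemma g1_two {f g : PowerSeries O} (hf : GV p f) (hg : GV p g) :
    ∃ C : ℝ, 1 ≤ C ∧ (∀ j, p (PowerSeries.coeff j f) ≤ ENNReal.ofReal (C ^ (j + 1) * j.factorial)) ∧
      ∀ j, p (PowerSeries.coeff j g) ≤ ENNReal.ofReal (C ^ (j + 1) * j.factorial) := by
  obtain ⟨C, hC, h1⟩ := hf
  obtain ⟨D, hD, h2⟩ := hg
  refine ⟨max 1 (max C D), le_max_left _ _, g1_mono hC ((le_max_left _ _).trans (le_max_right _ _)) h1,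
    g1_mono hD ((le_max_right _ _).trans (le_max_right _ _)) h2⟩

lemma GV.zero : GV p (0 : PowerSeries O) := by
  refine ⟨0, le_rfl, fun j => ?_⟩
  rw [map_zero, hp.zero]
  exact zero_le

lemma GV.add {f g : PowerSeries O} (hf : GV p f) (hg : GV p g) : GV p (f + g) := by
  obtain ⟨C, hC, h1, h2⟩ := g1_two hf hg
  have hC0 : 0 ≤ C := zero_le_one.trans hC
  refine ⟨2 * C, by positivity, fun j => ?_⟩
  rw [map_add]
  refine (hp.add _ _).trans ((add_le_add (h1 j) (h2 j)).trans ?_)
  rw [← ENNReal.ofReal_add (by positivity) (by positivity)]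
  refine ENNReal.ofReal_le_ofReal ?_
  have h3 : (2 : ℝ) ≤ 2 ^ (j + 1) := by
    calc (2 : ℝ) = 2 ^ 1 := by norm_num
      _ ≤ 2 ^ (j + 1) := pow_le_pow_right₀ (by norm_num) (by omega)
  have h4 : 0 ≤ C ^ (j + 1) * (j.factorial : ℝ) := by positivity
  calc C ^ (j + 1) * (j.factorial : ℝ) + C ^ (j + 1) * (j.factorial : ℝ)
      = 2 * (C ^ (j + 1) * (j.factorial : ℝ)) := by ring
    _ ≤ 2 ^ (j + 1) * (C ^ (j + 1) * (j.factorial : ℝ)) := mul_le_mul_of_nonneg_right h3 h4
    _ = (2 * C) ^ (j + 1) * (j.factorial : ℝ) := by rw [mul_pow]; ring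

lemma GV.neg {f : PowerSeries O} (hf : GV p f) : GV p (-f) := by
  obtain ⟨C, hC, h⟩ := hf
  refine ⟨C, hC, fun j => ?_⟩
  rw [map_neg, hp.neg]
  exact h j

lemma GV.sub {f g : PowerSeries O} (hf : GV p f) (hg : GV p g) : GV p (f - g) := by
  rw [sub_eq_add_neg]
  exact GV.add hp hf (GV.neg hp hg)

lemma GV.sum {κ : Type} (s : Finset κ) {f : κ → PowerSeries O} (hf : ∀ k ∈ s, GV p (f k)) :
    GV p (∑ k ∈ s, f k) := by
  classical
  induction s using Finset.induction_on with
  | empty =>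
    rw [Finset.sum_empty]
    exact GV.zero hp
  | insert a s ha ih =>
    rw [Finset.sum_insert ha]
    exact GV.add hp (hf a (Finset.mem_insert_self a s))
      (ih fun k hk => hf k (Finset.mem_insert_of_mem hk))

omit [CommRing O] hp in
private lemma g1_lin (j : ℕ) : ((j : ℝ) + 1) ≤ 2 ^ (j + 1) := by
  have h : j + 1 ≤ 2 ^ (j + 1) := (Nat.lt_two_pow_self (n := j + 1)).le
  exact_mod_cast h

/-- `∑_(a+b=j) a! b! ≤ (j+1) j!` -/
lemma GV.mul {f g : PowerSeries O} (hf : GV p f) (hg : GV p g) : GV p (f * g) := by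
  obtain ⟨C, hC, h1, h2⟩ := g1_two hf hg
  have hC0 : 0 ≤ C := zero_le_one.trans hC
  refine ⟨2 * C ^ 2, by positivity, fun j => ?_⟩
  rw [PowerSeries.coeff_mul]
  have h3 : ∀ q ∈ Finset.HasAntidiagonal.antidiagonal j, p (PowerSeries.coeff q.1 f * PowerSeries.coeff q.2 g) ≤
      ENNReal.ofReal (C ^ (2 * (j + 1)) * j.factorial) := by
    intro q hq
    have hq := Finset.HasAntidiagonal.mem_antidiagonal.1 hq
    refine (hp.mul _ _).trans ((mul_le_mul' (h1 q.1) (h2 q.2)).trans ?_)
    rw [← ENNReal.ofReal_mul (by positivity)]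
    refine ENNReal.ofReal_le_ofReal ?_
    have h4 : (q.1.factorial : ℝ) * q.2.factorial ≤ j.factorial := by
      have h5 := Nat.le_of_dvd (Nat.factorial_pos _) (Nat.factorial_mul_factorial_dvd_factorial_add q.1 q.2)
      rw [hq] at h5
      exact_mod_cast h5
    have h5 : C ^ (q.1 + 1) * C ^ (q.2 + 1) ≤ C ^ (2 * (j + 1)) := by
      rw [← pow_add]
      exact pow_le_pow_right₀ hC (by omega)
    calc C ^ (q.1 + 1) * (q.1.factorial : ℝ) * (C ^ (q.2 + 1) * (q.2.factorial : ℝ))
        = C ^ (q.1 + 1) * C ^ (q.2 + 1) * ((q.1.factorial : ℝ) * q.2.factorial) := by ring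
      _ ≤ C ^ (2 * (j + 1)) * j.factorial := by
          apply mul_le_mul h5 h4 (by positivity) (by positivity)
  refine (SMN.sum hp _ _).trans ((Finset.sum_le_sum h3).trans ?_)
  rw [Finset.sum_const, Finset.Nat.card_antidiagonal, nsmul_eq_mul, ← ENNReal.ofReal_natCast,
    ← ENNReal.ofReal_mul (by positivity)]
  refine ENNReal.ofReal_le_ofReal ?_
  rw [mul_pow, ← pow_mul, Nat.cast_add, Nat.cast_one, ← mul_assoc]
  have h6 := g1_lin j
  gcongr

lemma GV.X : GV p (PowerSeries.X : PowerSeries O) := by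
  refine ⟨max 1 (p 1).toReal, zero_le_one.trans (le_max_left _ _), fun j => ?_⟩
  rw [PowerSeries.coeff_X]
  split_ifs with h
  · subst h
    refine (ENNReal.ofReal_toReal hp.one).ge.trans (ENNReal.ofReal_le_ofReal ?_)
    rw [Nat.factorial_one, Nat.cast_one, mul_one]
    have h1 : (1 : ℝ) ≤ max 1 (p 1).toReal := le_max_left _ _
    have h2 : (p 1).toReal ≤ max 1 (p 1).toReal := le_max_right _ _
    calc (p 1).toReal ≤ max 1 (p 1).toReal := h2
      _ = max 1 (p 1).toReal ^ 1 := (pow_one _).symm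
      _ ≤ max 1 (p 1).toReal ^ (1 + 1) := pow_le_pow_right₀ h1 (by norm_num)
  · rw [hp.zero]
    exact zero_le

lemma GV.C {a : O} (ha : p a ≠ ∞) : GV p (PowerSeries.C a) := by
  refine ⟨(p a).toReal, ENNReal.toReal_nonneg, fun j => ?_⟩
  rw [PowerSeries.coeff_C]
  split_ifs with h
  · subst h
    rw [zero_add, pow_one, Nat.factorial_zero, Nat.cast_one, mul_one, ENNReal.ofReal_toReal ha]
  · rw [hp.zero]
    exact zero_le

lemma GV.pow {f : PowerSeries O} (hf : GV p f) (n : ℕ) : GV p (f ^ n) := by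
  induction n with
  | zero =>
    rw [pow_zero, ← map_one (PowerSeries.C (R := O))]
    exact GV.C hp hp.one
  | succ n ih =>
    rw [pow_succ]
    exact GV.mul hp ih hf

/-- `(j+1)^2 ≤ 4^(j+1)` -/
lemma GV.deriv {f : PowerSeries O} (hf : GV p f) : GV p (PowerSeries.derivative O f) := by
  obtain ⟨C, hC, h1, -⟩ := g1_two hf hf
  have hC0 : 0 ≤ C := zero_le_one.trans hC
  refine ⟨4 * C ^ 2, by positivity, fun j => ?_⟩
  have e : PowerSeries.coeff j (PowerSeries.derivative O f) =
      ((j + 1 : ℕ) : O) * PowerSeries.coeff (j + 1) f := by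
    rw [PowerSeries.coeff_derivative, mul_comm]
    push_cast
    ring
  rw [e, hp.nat]
  refine (mul_le_mul' le_rfl (h1 (j + 1))).trans ?_
  rw [← ENNReal.ofReal_natCast, ← ENNReal.ofReal_mul (by positivity)]
  refine ENNReal.ofReal_le_ofReal ?_
  have h2 := g1_lin j
  have h3 : C ^ (j + 1 + 1) ≤ C ^ (2 * (j + 1)) := pow_le_pow_right₀ hC (by omega)
  rw [Nat.factorial_succ]
  push_cast
  have h4 : ((j : ℝ) + 1) * ((j : ℝ) + 1) ≤ 4 ^ (j + 1) := by
    calc ((j : ℝ) + 1) * ((j : ℝ) + 1) ≤ 2 ^ (j + 1) * 2 ^ (j + 1) :=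
          mul_le_mul h2 h2 (by positivity) (by positivity)
      _ = 4 ^ (j + 1) := by rw [← mul_pow]; norm_num
  calc ((j : ℝ) + 1) * (C ^ (j + 1 + 1) * (((j : ℝ) + 1) * (j.factorial : ℝ)))
      = (((j : ℝ) + 1) * ((j : ℝ) + 1)) * C ^ (j + 1 + 1) * (j.factorial : ℝ) := by ring
    _ ≤ 4 ^ (j + 1) * C ^ (2 * (j + 1)) * (j.factorial : ℝ) := by
        have := mul_le_mul h4 h3 (by positivity) (by positivity)
        exact mul_le_mul_of_nonneg_right this (by positivity)
    _ = (4 * C ^ 2) ^ (j + 1) * (j.factorial : ℝ) := by rw [mul_pow, ← pow_mul]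

lemma FN.add {f g : PowerSeries O} (hf : FN p f) (hg : FN p g) : FN p (f + g) := by
  intro j
  rw [map_add]
  exact ne_top_of_le_ne_top (ENNReal.add_ne_top.2 ⟨hf j, hg j⟩) (hp.add _ _)

lemma FN.mul {f g : PowerSeries O} (hf : FN p f) (hg : FN p g) : FN p (f * g) := by
  intro j
  rw [PowerSeries.coeff_mul]
  refine ne_top_of_le_ne_top ?_ (SMN.sum hp _ _)
  refine ENNReal.sum_ne_top.2 fun q _ => ?_
  exact ne_top_of_le_ne_top (ENNReal.mul_ne_top (hf q.1) (hg q.2)) (hp.mul _ _)

/-! ## row g2: division by a series whose constant coefficient has a division estimate -/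

-- BEGIN g2
omit hp in
private lemma g2_real {c G K M : ℝ} (hc : 0 ≤ c) (hG : 1 ≤ G) (hK : K = 4 * c * G + 2)
    (hM : M = 2 * c * G) (j : ℕ) :
    c * (G ^ (j + 1) * j.factorial + ∑ k ∈ Finset.range j, (G ^ (k + 1 + 1) * (k + 1).factorial) *
      (M * (K * G) ^ (j - (k + 1)) * (j - (k + 1)).factorial)) ≤ M * (K * G) ^ j * j.factorial := by
  have hG0 : 0 ≤ G := zero_le_one.trans hG
  have hM0 : 0 ≤ M := by rw [hM]; positivity
  have hcG : 0 ≤ c * G := mul_nonneg hc hG0
  have hK1 : 1 ≤ K := by rw [hK]; nlinarith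
  have hK0 : 0 ≤ K := zero_le_one.trans hK1
  have hterm : ∀ k ∈ Finset.range j, (G ^ (k + 1 + 1) * ((k + 1).factorial : ℝ)) *
      (M * (K * G) ^ (j - (k + 1)) * ((j - (k + 1)).factorial : ℝ)) ≤
      G ^ (j + 1) * j.factorial * M * K ^ (j - 1 - k) := by
    intro k hk
    rw [Finset.mem_range] at hk
    have h1 : ((k + 1).factorial : ℝ) * ((j - (k + 1)).factorial : ℝ) ≤ j.factorial := by
      have h5 := Nat.le_of_dvd (Nat.factorial_pos _)
        (Nat.factorial_mul_factorial_dvd_factorial_add (k + 1) (j - (k + 1)))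
      have e : k + 1 + (j - (k + 1)) = j := by omega
      rw [e] at h5
      exact_mod_cast h5
    have h2 : G ^ (k + 1 + 1) * (K * G) ^ (j - (k + 1)) = G ^ (j + 1) * K ^ (j - 1 - k) := by
      have e1 : j - (k + 1) = j - 1 - k := by omega
      have e2 : j + 1 = (k + 1 + 1) + (j - 1 - k) := by omega
      rw [e1, mul_pow, e2, pow_add]
      ring
    calc (G ^ (k + 1 + 1) * ((k + 1).factorial : ℝ)) *
          (M * (K * G) ^ (j - (k + 1)) * ((j - (k + 1)).factorial : ℝ))
        = (G ^ (k + 1 + 1) * (K * G) ^ (j - (k + 1))) * M *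
          (((k + 1).factorial : ℝ) * ((j - (k + 1)).factorial : ℝ)) := by ring
      _ ≤ (G ^ (k + 1 + 1) * (K * G) ^ (j - (k + 1))) * M * j.factorial := by
          refine mul_le_mul_of_nonneg_left h1 (by positivity)
      _ = G ^ (j + 1) * j.factorial * M * K ^ (j - 1 - k) := by rw [h2]; ring
  have hsum := Finset.sum_le_sum hterm
  rw [← Finset.mul_sum, Finset.sum_range_reflect (fun i => K ^ i) j] at hsum
  set s : ℝ := ∑ i ∈ Finset.range j, K ^ i with hs
  have hgeo : s * (K - 1) = K ^ j - 1 := geom_sum_mul K j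
  have hs0 : 0 ≤ s := Finset.sum_nonneg fun i _ => pow_nonneg hK0 i
  have hKj : 1 ≤ K ^ j := one_le_pow₀ hK1
  have h4 : 4 * (c * G) * s ≤ K ^ j := by
    have : s * (K - 1) = 4 * (c * G) * s + s := by rw [hK]; ring
    nlinarith
  have hGj : 0 ≤ G ^ j * (j.factorial : ℝ) := by positivity
  calc c * (G ^ (j + 1) * j.factorial + ∑ k ∈ Finset.range j, (G ^ (k + 1 + 1) * (k + 1).factorial) *
        (M * (K * G) ^ (j - (k + 1)) * (j - (k + 1)).factorial))
      ≤ c * (G ^ (j + 1) * j.factorial + G ^ (j + 1) * j.factorial * M * s) :=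
        mul_le_mul_of_nonneg_left (add_le_add le_rfl hsum) hc
    _ = G ^ j * j.factorial * (c * G + M * ((c * G) * s)) := by rw [pow_succ]; ring
    _ ≤ G ^ j * j.factorial * (M * K ^ j) := by
        refine mul_le_mul_of_nonneg_left ?_ hGj
        have h5 : M * ((c * G) * s) ≤ M * (K ^ j / 4) := mul_le_mul_of_nonneg_left (by linarith) hM0
        have h6 : c * G = M / 2 := by rw [hM]; ring
        have h7 : M ≤ M * K ^ j := le_mul_of_one_le_right hM0 hKj
        nlinarith
    _ = M * (K * G) ^ j * j.factorial := by rw [mul_pow]; ring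

/-- `g_0 f_j = (g f)_j - ∑_{l ≥ 1} g_l f_(j-l)`, so
`p (f_j) ≤ C (p ((g f)_j) + ∑_{l ≥ 1} p (g_l) p (f_(j-l)))`; induction with
`p (f_j) ≤ M Λ^j j!`, `l! (j-l)! ≤ j!`. -/
theorem GV.div {f g : PowerSeries O} (hg : GV p g) (h0 : DE p (PowerSeries.constantCoeff g))
    (hf : FN p f) (h : GV p (g * f)) : GV p f := by
  obtain ⟨G, hG, h1, h2⟩ := g1_two hg h
  obtain ⟨c, hc⟩ := h0
  have hG0 : 0 ≤ G := zero_le_one.trans hG
  set K : ℝ := 4 * (c : ℝ) * G + 2 with hK
  set M : ℝ := 2 * (c : ℝ) * G with hM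
  have hM0 : 0 ≤ M := by positivity
  have hK0 : 0 ≤ K := by positivity
  have key : ∀ j, p (PowerSeries.coeff j f) ≤ ENNReal.ofReal (M * (K * G) ^ j * j.factorial) := by
    intro j
    induction j using Nat.strong_induction_on with
    | _ j ih =>
      have e1 : PowerSeries.coeff j (g * f) = ∑ k ∈ Finset.range (j + 1),
          PowerSeries.coeff k g * PowerSeries.coeff (j - k) f := by
        rw [PowerSeries.coeff_mul]
        exact Finset.Nat.sum_antidiagonal_eq_sum_range_succ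
          (fun a b => PowerSeries.coeff a g * PowerSeries.coeff b f) j
      rw [Finset.sum_range_succ'] at e1
      have e2 : PowerSeries.constantCoeff g * PowerSeries.coeff j f = PowerSeries.coeff j (g * f) +
          -∑ k ∈ Finset.range j, PowerSeries.coeff (k + 1) g * PowerSeries.coeff (j - (k + 1)) f := by
        rw [e1, PowerSeries.coeff_zero_eq_constantCoeff_apply, Nat.sub_zero]
        ring
      have h3 : p (PowerSeries.constantCoeff g * PowerSeries.coeff j f) ≤
          ENNReal.ofReal (G ^ (j + 1) * j.factorial) + ∑ k ∈ Finset.range j,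
            ENNReal.ofReal ((G ^ (k + 1 + 1) * (k + 1).factorial) *
              (M * (K * G) ^ (j - (k + 1)) * (j - (k + 1)).factorial)) := by
        rw [e2]
        refine (hp.add _ _).trans (add_le_add (h2 j) ?_)
        rw [hp.neg]
        refine (SMN.sum hp _ _).trans (Finset.sum_le_sum fun k hk => ?_)
        rw [Finset.mem_range] at hk
        refine (hp.mul _ _).trans ((mul_le_mul' (h1 (k + 1)) (ih (j - (k + 1)) (by omega))).trans ?_)
        rw [← ENNReal.ofReal_mul (by positivity)]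
      rw [← ENNReal.ofReal_sum_of_nonneg (fun k _ => by positivity),
        ← ENNReal.ofReal_add (by positivity) (Finset.sum_nonneg fun k _ => by positivity)] at h3
      refine (hc _ (hf j)).trans ((mul_le_mul' le_rfl h3).trans ?_)
      rw [← ENNReal.ofReal_coe_nnreal, ← ENNReal.ofReal_mul c.coe_nonneg]
      exact ENNReal.ofReal_le_ofReal (g2_real c.coe_nonneg hG hK hM j)
  refine ⟨max M (K * G), hM0.trans (le_max_left _ _), fun j => (key j).trans ?_⟩
  refine ENNReal.ofReal_le_ofReal ?_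
  have h5 : M ≤ max M (K * G) := le_max_left _ _
  have h6 : K * G ≤ max M (K * G) := le_max_right _ _
  have h7 : (K * G) ^ j ≤ max M (K * G) ^ j := pow_le_pow_left₀ (by positivity) h6 j
  rw [pow_succ']
  refine mul_le_mul_of_nonneg_right ?_ (by positivity)
  exact mul_le_mul h5 h7 (by positivity) (hM0.trans h5)

-- END g2

omit hp in
private lemma g3_fac (a b : ℕ) : a.factorial * b.factorial ≤ (a + b).factorial :=
  Nat.le_of_dvd (Nat.factorial_pos _) (Nat.factorial_mul_factorial_dvd_factorial_add a b)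

omit hp in
private lemma g3_geom {C Λ : ℝ} (hC : 1 ≤ C) (hΛ : 2 * C ≤ Λ) (j : ℕ) :
    Λ * ∑ l ∈ Finset.range j, C ^ l * Λ ^ (j - 1 - l) ≤ 2 * Λ ^ j := by
  have hC0 : 0 ≤ C := by linarith
  have hΛ0 : 0 ≤ Λ := by linarith
  have h := geom_sum₂_mul Λ C j
  have hG : ∑ l ∈ Finset.range j, C ^ l * Λ ^ (j - 1 - l)
      = ∑ i ∈ Finset.range j, Λ ^ i * C ^ (j - 1 - i) := by
    rw [← Finset.sum_range_reflect]
    refine Finset.sum_congr rfl fun l hl => ?_
    have := Finset.mem_range.mp hl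
    have e : j - 1 - (j - 1 - l) = l := by omega
    rw [e]; ring
  rw [hG]
  set G := ∑ i ∈ Finset.range j, Λ ^ i * C ^ (j - 1 - i)
  have hG0 : 0 ≤ G := Finset.sum_nonneg fun i _ => by positivity
  have hCj : 0 ≤ C ^ j := by positivity
  nlinarith [mul_le_mul_of_nonneg_left (show Λ / 2 ≤ Λ - C by linarith) hG0]

omit hp in
private lemma g3_S1 {x : ℕ → ℝ} {C M Λ : ℝ} (hC : 1 ≤ C) (hM : 0 ≤ M) (hΛ : 0 ≤ Λ)
    (_hx : ∀ j, 0 ≤ x j) (j : ℕ)
    (ih : ∀ i, i < j → x i ≤ M * Λ ^ i * i.factorial) :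
    ∑ l ∈ Finset.range j,
      (C ^ (l + 1) * l.factorial * ((j - 1 - l : ℕ) : ℝ) + C ^ (l + 2) * (l + 1).factorial)
        * x (j - 1 - l) ≤ 2 * C ^ 2 * M * j.factorial *
          ∑ l ∈ Finset.range j, C ^ l * Λ ^ (j - 1 - l) := by
  rw [Finset.mul_sum]
  refine Finset.sum_le_sum fun l hl => ?_
  have hlj := Finset.mem_range.mp hl
  obtain ⟨i, rfl⟩ : ∃ i, j = l + 1 + i := ⟨j - (l + 1), by omega⟩
  have e : l + 1 + i - 1 - l = i := by omega
  rw [e]
  have hxi := ih i (by omega)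
  have f1 : ((l.factorial * i.factorial : ℕ) : ℝ) * (i : ℝ) ≤ ((l + 1 + i).factorial : ℕ) := by
    have : l.factorial * i.factorial * i ≤ (l + 1 + i).factorial := by
      have h1 : l.factorial * i.factorial ≤ (l + i).factorial := g3_fac _ _
      have h2 : (l + 1 + i).factorial = (l + i + 1) * (l + i).factorial := by
        rw [show l + 1 + i = (l + i) + 1 by omega, Nat.factorial_succ]
      rw [h2]
      calc l.factorial * i.factorial * i ≤ (l + i).factorial * (l + i + 1) :=
            Nat.mul_le_mul h1 (by omega)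
        _ = _ := by ring
    exact_mod_cast this
  have f2 : (((l + 1).factorial * i.factorial : ℕ) : ℝ) ≤ ((l + 1 + i).factorial : ℕ) := by
    exact_mod_cast g3_fac (l + 1) i
  push_cast at f1 f2
  have hA : 0 ≤ C ^ (l + 1) * l.factorial * (i : ℝ) + C ^ (l + 2) * (l + 1).factorial := by
    positivity
  calc (C ^ (l + 1) * l.factorial * (i : ℝ) + C ^ (l + 2) * (l + 1).factorial) * x i
      ≤ (C ^ (l + 1) * l.factorial * (i : ℝ) + C ^ (l + 2) * (l + 1).factorial)
          * (M * Λ ^ i * i.factorial) := mul_le_mul_of_nonneg_left hxi hA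
    _ = (M * Λ ^ i) * (C ^ (l + 1) * (l.factorial * i.factorial * i)
          + C ^ (l + 2) * ((l + 1).factorial * i.factorial)) := by ring
    _ ≤ (M * Λ ^ i) * (C ^ (l + 2) * (l + 1 + i).factorial
          + C ^ (l + 2) * (l + 1 + i).factorial) := by
        have hpow : C ^ (l + 1) ≤ C ^ (l + 2) := pow_le_pow_right₀ hC (by omega)
        have h0 : 0 ≤ M * Λ ^ i := by positivity
        refine mul_le_mul_of_nonneg_left (add_le_add ?_ ?_) h0
        · exact mul_le_mul hpow f1 (by positivity) (by positivity)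
        · exact mul_le_mul_of_nonneg_left f2 (by positivity)
    _ = 2 * C ^ 2 * M * (l + 1 + i).factorial * (C ^ l * Λ ^ i) := by ring

omit hp in
private lemma g3_S2 {x : ℕ → ℝ} {C M Λ : ℝ} (hC : 1 ≤ C) (hM : 0 ≤ M) (hΛ : 0 ≤ Λ)
    (_hx : ∀ j, 0 ≤ x j) (j : ℕ)
    (ih : ∀ i, i < j → x i ≤ M * Λ ^ i * i.factorial) :
    ∑ l ∈ Finset.range j,
      (C ^ (l + 2) * (l + 1).factorial * ((j - 1 - l : ℕ) : ℝ) + C ^ (l + 3) * (l + 2).factorial)
        * x (j - 1 - l) ≤ 3 * C ^ 3 * M * (j * j.factorial) *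
          ∑ l ∈ Finset.range j, C ^ l * Λ ^ (j - 1 - l) := by
  rw [Finset.mul_sum]
  refine Finset.sum_le_sum fun l hl => ?_
  have hlj := Finset.mem_range.mp hl
  obtain ⟨i, rfl⟩ : ∃ i, j = l + 1 + i := ⟨j - (l + 1), by omega⟩
  have e : l + 1 + i - 1 - l = i := by omega
  rw [e]
  have hxi := ih i (by omega)
  have f1 : (((l + 1).factorial * i.factorial : ℕ) : ℝ) * (i : ℝ)
      ≤ ((l + 1 + i : ℕ) : ℝ) * ((l + 1 + i).factorial : ℕ) := by
    have : (l + 1).factorial * i.factorial * i ≤ (l + 1 + i) * (l + 1 + i).factorial := by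
      have h1 : (l + 1).factorial * i.factorial ≤ (l + 1 + i).factorial :=
        g3_fac _ _
      calc (l + 1).factorial * i.factorial * i ≤ (l + 1 + i).factorial * (l + 1 + i) :=
            Nat.mul_le_mul h1 (by omega)
        _ = _ := by ring
    exact_mod_cast this
  have f2 : (((l + 2).factorial * i.factorial : ℕ) : ℝ)
      ≤ 2 * ((l + 1 + i : ℕ) : ℝ) * ((l + 1 + i).factorial : ℕ) := by
    have : (l + 2).factorial * i.factorial ≤ 2 * (l + 1 + i) * (l + 1 + i).factorial := by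
      have h1 : (l + 2).factorial * i.factorial ≤ (l + 2 + i).factorial :=
        g3_fac _ _
      have h2 : (l + 2 + i).factorial = (l + 1 + i + 1) * (l + 1 + i).factorial := by
        rw [show l + 2 + i = (l + 1 + i) + 1 by omega, Nat.factorial_succ]
      rw [h2] at h1
      exact h1.trans (Nat.mul_le_mul_right _ (by omega))
    exact_mod_cast this
  push_cast at f1 f2 ⊢
  have hA : 0 ≤ C ^ (l + 2) * (l + 1).factorial * (i : ℝ) + C ^ (l + 3) * (l + 2).factorial := by
    positivity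
  calc (C ^ (l + 2) * (l + 1).factorial * (i : ℝ) + C ^ (l + 3) * (l + 2).factorial) * x i
      ≤ (C ^ (l + 2) * (l + 1).factorial * (i : ℝ) + C ^ (l + 3) * (l + 2).factorial)
          * (M * Λ ^ i * i.factorial) := mul_le_mul_of_nonneg_left hxi hA
    _ = (M * Λ ^ i) * (C ^ (l + 2) * ((l + 1).factorial * i.factorial * i)
          + C ^ (l + 3) * ((l + 2).factorial * i.factorial)) := by ring
    _ ≤ (M * Λ ^ i) * (C ^ (l + 3) * ((l + 1 + i) * (l + 1 + i).factorial)
          + C ^ (l + 3) * (2 * (l + 1 + i) * (l + 1 + i).factorial)) := by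
        have hpow : C ^ (l + 2) ≤ C ^ (l + 3) := pow_le_pow_right₀ hC (by omega)
        have h0 : 0 ≤ M * Λ ^ i := by positivity
        refine mul_le_mul_of_nonneg_left (add_le_add ?_ ?_) h0
        · exact mul_le_mul hpow f1 (by positivity) (by positivity)
        · exact mul_le_mul_of_nonneg_left f2 (by positivity)
    _ = 3 * C ^ 3 * M * ((l + 1 + i) * (l + 1 + i).factorial) * (C ^ l * Λ ^ i) := by ring

omit hp in
/-- Row g3. Two sequences of real numbers, `κ l = C^(l+1) l!`. Proof: if `x i ≤ M₀ Λ^i i!` for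
`i < j` then the first sum is `≤ M₀ j! Λ^j (4 C² / Λ)` and the second sum divided by `j` is
`≤ M₀ j! Λ^j (6 C³ / Λ)` (use `l! (j-1-l)! ≤ (j-1)!`, `(l+1)! (j-1-l)! ≤ j!`,
`(l+2)! (j-1-l)! ≤ (j+1)! ≤ 2 j j!`, geometric series, `Λ ≥ 2 C`). For `j ≥ 2 c` the second
inequality gives `y j ≤ (2 c / j) (…)`. Take `Λ = 40 c² C³` and `M₀` to cover all `j ≤ 2 c`. -/
theorem rl_real {x y : ℕ → ℝ} {c C : ℝ} (hc : 1 ≤ c) (hC : 1 ≤ C) (hx : ∀ j, 0 ≤ x j)
    (hy : ∀ j, 0 ≤ y j)
    (h1 : ∀ j, x j ≤ c * (y j + ∑ l ∈ Finset.range j,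
      (C ^ (l + 1) * l.factorial * ((j - 1 - l : ℕ) : ℝ) + C ^ (l + 2) * (l + 1).factorial)
        * x (j - 1 - l)))
    (h2 : ∀ j : ℕ, j * y j ≤ c * (y j + ∑ l ∈ Finset.range j,
      (C ^ (l + 1) * l.factorial * ((j - 1 - l : ℕ) : ℝ) + C ^ (l + 2) * (l + 1).factorial)
        * x (j - 1 - l) + ∑ l ∈ Finset.range j,
      (C ^ (l + 2) * (l + 1).factorial * ((j - 1 - l : ℕ) : ℝ) + C ^ (l + 3) * (l + 2).factorial)
        * x (j - 1 - l))) :
    ∃ M : ℝ, 0 ≤ M ∧ ∀ j, x j ≤ M ^ (j + 1) * j.factorial := by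
  obtain ⟨N, hN⟩ := exists_nat_ge (2 * c)
  set M₀ : ℝ := ∑ j ∈ Finset.range N, x j with hM₀
  set Λ : ℝ := 24 * c ^ 2 * C ^ 3 with hΛ
  have hM0 : 0 ≤ M₀ := Finset.sum_nonneg fun i _ => hx i
  have hc2 : 1 ≤ c ^ 2 := one_le_pow₀ hc
  have hC2 : 1 ≤ C ^ 2 := one_le_pow₀ hC
  have hC3 : C ≤ C ^ 3 := by nlinarith
  have hΛ1 : 2 * C ≤ Λ := by
    have : C ^ 3 ≤ c ^ 2 * C ^ 3 := le_mul_of_one_le_left (by positivity) hc2
    rw [hΛ]; nlinarith
  have hΛ2 : 1 ≤ Λ := by linarith
  have key : ∀ j, x j ≤ M₀ * Λ ^ j * j.factorial := by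
    intro j
    induction j using Nat.strong_induction_on with
    | _ j ih =>
      by_cases hj : j < N
      · have a1 : x j ≤ M₀ :=
          Finset.single_le_sum (f := x) (fun i _ => hx i) (Finset.mem_range.mpr hj)
        have a2 : 1 ≤ Λ ^ j := one_le_pow₀ hΛ2
        have a3 : (1 : ℝ) ≤ j.factorial := by exact_mod_cast Nat.factorial_pos j
        have a4 : M₀ ≤ M₀ * Λ ^ j := le_mul_of_one_le_right hM0 a2
        have a5 : M₀ * Λ ^ j ≤ M₀ * Λ ^ j * j.factorial :=
          le_mul_of_one_le_right (by positivity) a3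
        linarith
      · have hjc : 2 * c ≤ j := hN.trans (by exact_mod_cast not_lt.mp hj)
        have s1 := g3_S1 (x := x) hC hM0 (by linarith : (0 : ℝ) ≤ Λ) hx j ih
        have s2 := g3_S2 (x := x) hC hM0 (by linarith : (0 : ℝ) ≤ Λ) hx j ih
        have hg := g3_geom hC hΛ1 j
        have e1 := h1 j
        have e2 := h2 j
        set S1 := ∑ l ∈ Finset.range j,
          (C ^ (l + 1) * l.factorial * ((j - 1 - l : ℕ) : ℝ) + C ^ (l + 2) * (l + 1).factorial)
            * x (j - 1 - l)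
        set S2 := ∑ l ∈ Finset.range j,
          (C ^ (l + 2) * (l + 1).factorial * ((j - 1 - l : ℕ) : ℝ)
            + C ^ (l + 3) * (l + 2).factorial) * x (j - 1 - l)
        set G := ∑ l ∈ Finset.range j, C ^ l * Λ ^ (j - 1 - l) with hGdef
        have hG0 : 0 ≤ G := Finset.sum_nonneg fun i _ => by positivity
        set T : ℝ := M₀ * j.factorial * G with hT
        have hT0 : 0 ≤ T := by positivity
        have hj0 : (2 : ℝ) ≤ j := by linarith
        have t1 : S1 ≤ 2 * C ^ 2 * T := by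
          rw [hT]; calc S1 ≤ _ := s1
            _ = _ := by ring
        have t2 : S2 ≤ 3 * C ^ 3 * j * T := by
          rw [hT]; calc S2 ≤ _ := s2
            _ = _ := by ring
        have hC23 : C ^ 2 ≤ C ^ 3 := pow_le_pow_right₀ hC (by omega)
        -- bound for y
        have t3 : y j ≤ 10 * c * C ^ 3 * T := by
          have b1 : (j : ℝ) * y j ≤ c * y j + c * (S1 + S2) := by
            calc (j : ℝ) * y j ≤ _ := e2
              _ = _ := by ring
          have b2 : c * y j ≤ (j : ℝ) / 2 * y j :=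
            mul_le_mul_of_nonneg_right (by linarith) (hy j)
          have b3 : S1 + S2 ≤ 5 * C ^ 3 * j * T := by
            have : 2 * C ^ 2 * T ≤ 2 * C ^ 3 * j * T := by
              have : C ^ 2 * T ≤ C ^ 3 * T := mul_le_mul_of_nonneg_right hC23 hT0
              have h' : C ^ 3 * T ≤ C ^ 3 * T * j :=
                le_mul_of_one_le_right (by positivity) (by linarith)
              nlinarith
            nlinarith
          have b4 : c * (S1 + S2) ≤ c * (5 * C ^ 3 * j * T) :=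
            mul_le_mul_of_nonneg_left b3 (by linarith)
          have b5 : (j : ℝ) / 2 * y j ≤ (j : ℝ) / 2 * (10 * c * C ^ 3 * T) := by
            have : (j : ℝ) / 2 * (10 * c * C ^ 3 * T) = c * (5 * C ^ 3 * j * T) := by ring
            rw [this]; linarith
          exact le_of_mul_le_mul_left b5 (by linarith)
        have t4 : x j ≤ 12 * c ^ 2 * C ^ 3 * T := by
          have b1 : x j ≤ c * (10 * c * C ^ 3 * T + 2 * C ^ 2 * T) :=
            e1.trans (mul_le_mul_of_nonneg_left (add_le_add t3 t1) (by linarith))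
          have b2 : c * (2 * C ^ 2 * T) ≤ 2 * c ^ 2 * C ^ 3 * T := by
            have q1 : c ≤ c ^ 2 := by nlinarith
            have q2 : c * (C ^ 2 * T) ≤ c ^ 2 * (C ^ 3 * T) :=
              mul_le_mul q1 (mul_le_mul_of_nonneg_right hC23 hT0) (by positivity) (by positivity)
            linarith
          calc x j ≤ _ := b1
            _ = 10 * c ^ 2 * C ^ 3 * T + c * (2 * C ^ 2 * T) := by ring
            _ ≤ _ := by linarith
        have t5 : 12 * c ^ 2 * C ^ 3 * T = M₀ * j.factorial * (Λ * G / 2) := by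
          rw [hT, hΛ]; ring
        have t6 : Λ * G / 2 ≤ Λ ^ j := by linarith
        calc x j ≤ _ := t4
          _ = M₀ * j.factorial * (Λ * G / 2) := t5
          _ ≤ M₀ * j.factorial * Λ ^ j := mul_le_mul_of_nonneg_left t6 (by positivity)
          _ = M₀ * Λ ^ j * j.factorial := by ring
  refine ⟨M₀ + Λ, by linarith, fun j => (key j).trans ?_⟩
  refine mul_le_mul_of_nonneg_right ?_ (by positivity)
  calc M₀ * Λ ^ j ≤ (M₀ + Λ) * (M₀ + Λ) ^ j := by
        refine mul_le_mul (by linarith) (pow_le_pow_left₀ (by linarith) (by linarith) _)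
          (by positivity) (by linarith)
    _ = (M₀ + Λ) ^ (j + 1) := by ring

omit hp in
private lemma g4_coeff (f : PowerSeries O) (n : ℕ) :
    PowerSeries.coeff n (PowerSeries.X ^ 2 * PowerSeries.derivative O f)
      = ((n - 1 : ℕ) : O) * PowerSeries.coeff (n - 1) f := by
  rcases n with _ | _ | m
  · simp [PowerSeries.coeff_X_pow_mul']
  · simp [PowerSeries.coeff_X_pow_mul']
  · rw [show m + 1 + 1 = m + 2 from rfl, PowerSeries.coeff_X_pow_mul]
    have : m + 2 - 1 = m + 1 := rfl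
    rw [this, PowerSeries.coeff_derivative]
    push_cast
    ring

omit hp in
private lemma g4_eta (η f : PowerSeries O) (j : ℕ) :
    PowerSeries.coeff j (η * (PowerSeries.X ^ 2 * PowerSeries.derivative O f))
      = ∑ l ∈ Finset.range j, PowerSeries.coeff l η
          * (((j - 1 - l : ℕ) : O) * PowerSeries.coeff (j - 1 - l) f) := by
  rw [PowerSeries.coeff_mul, Finset.Nat.sum_antidiagonal_eq_sum_range_succ
    (fun a b => PowerSeries.coeff a η
      * PowerSeries.coeff b (PowerSeries.X ^ 2 * PowerSeries.derivative O f)) j,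
    Finset.sum_range_succ]
  have h0 : PowerSeries.coeff (j - j) (PowerSeries.X ^ 2 * PowerSeries.derivative O f) = 0 := by
    rw [g4_coeff]; simp
  rw [h0, mul_zero, add_zero]
  refine Finset.sum_congr rfl fun l _ => ?_
  rw [g4_coeff, show j - l - 1 = j - 1 - l by omega]

omit hp in
private lemma g4_mul (a f : PowerSeries O) (j : ℕ) :
    PowerSeries.coeff j (a * f) = PowerSeries.constantCoeff a * PowerSeries.coeff j f
      + ∑ l ∈ Finset.range j, PowerSeries.coeff (l + 1) a * PowerSeries.coeff (j - 1 - l) f := by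
  rw [PowerSeries.coeff_mul, Finset.Nat.sum_antidiagonal_eq_sum_range_succ
    (fun a' b => PowerSeries.coeff a' a * PowerSeries.coeff b f) j,
    Finset.sum_range_succ']
  rw [add_comm]
  refine congrArg₂ (· + ·) ?_ (Finset.sum_congr rfl fun l _ => ?_)
  · rw [Nat.sub_zero, PowerSeries.coeff_zero_eq_constantCoeff]
  · rw [show j - (l + 1) = j - 1 - l by omega]

omit hp in
/-- the level `j` of the equation -/
private lemma g4_level {I : Type} [Fintype I] [DecidableEq I] (x : I → PowerSeries O)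
    (K : Matrix I I (PowerSeries O)) (η : PowerSeries O)
    (heq : ∀ i, η * (PowerSeries.X ^ 2 * PowerSeries.derivative O (x i)) + (K.mulVec x) i = 0)
    (j : ℕ) (i : I) :
    (K.map PowerSeries.constantCoeff).mulVec (fun i' => PowerSeries.coeff j (x i')) i
      + ∑ l ∈ Finset.range j, (PowerSeries.coeff l η
          * (((j - 1 - l : ℕ) : O) * PowerSeries.coeff (j - 1 - l) (x i))
          + ∑ i', PowerSeries.coeff (l + 1) (K i i') * PowerSeries.coeff (j - 1 - l) (x i'))
      = 0 := by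
  have h := congrArg (PowerSeries.coeff j) (heq i)
  rw [map_add, map_zero, g4_eta, Matrix.mulVec, dotProduct, map_sum] at h
  simp only [g4_mul] at h
  rw [Finset.sum_add_distrib, ← add_assoc, add_comm] at h
  rw [Finset.sum_add_distrib, Matrix.mulVec, dotProduct]
  simp only [Matrix.map_apply]
  rw [Finset.sum_comm (s := Finset.univ) (t := Finset.range j)] at h
  linear_combination h

/-- bound of the rest term -/
private lemma g4_bound {I : Type} [Fintype I] (x : I → PowerSeries O) (a : ℕ → O)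
    (b : ℕ → I → I → O) (α β : ℕ → ℝ≥0∞) (ha : ∀ l, p (a l) ≤ α l)
    (hb : ∀ l i i', p (b l i i') ≤ β l) (j : ℕ) (i : I) :
    p (∑ l ∈ Finset.range j, (a l * (((j - 1 - l : ℕ) : O) * PowerSeries.coeff (j - 1 - l) (x i))
          + ∑ i', b l i i' * PowerSeries.coeff (j - 1 - l) (x i')))
      ≤ ∑ l ∈ Finset.range j, (α l * ((j - 1 - l : ℕ) : ℝ≥0∞) + β l)
          * ∑ i', p (PowerSeries.coeff (j - 1 - l) (x i')) := by
  refine (SMN.sum hp _ _).trans (Finset.sum_le_sum fun l _ => ?_)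
  refine (hp.add _ _).trans ?_
  rw [add_mul]
  refine add_le_add ?_ ?_
  · refine (hp.mul _ _).trans ?_
    rw [hp.nat, mul_assoc]
    refine mul_le_mul' (ha l) (mul_le_mul' le_rfl ?_)
    exact Finset.single_le_sum (f := fun i' => p (PowerSeries.coeff (j - 1 - l) (x i')))
      (fun _ _ => zero_le) (Finset.mem_univ i)
  · refine (SMN.sum hp _ _).trans ?_
    rw [Finset.mul_sum]
    exact Finset.sum_le_sum fun i' _ => (hp.mul _ _).trans (mul_le_mul' (hb l i i') le_rfl)

private lemma g4_mulVec {I : Type} [Fintype I] (P : Matrix I I O) (v : I → O) (i : I) :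
    p (P.mulVec v i) ≤ (∑ a, ∑ b, p (P a b)) * ∑ b, p (v b) := by
  rw [Matrix.mulVec, dotProduct]
  refine (SMN.sum hp _ _).trans ?_
  rw [Finset.mul_sum]
  refine Finset.sum_le_sum fun b _ => (hp.mul _ _).trans (mul_le_mul' ?_ le_rfl)
  refine le_trans ?_ (Finset.single_le_sum (f := fun a => ∑ b, p (P a b))
    (fun _ _ => zero_le) (Finset.mem_univ i))
  exact Finset.single_le_sum (f := fun b => p (P i b)) (fun _ _ => zero_le) (Finset.mem_univ b)

private lemma g4_mulVec' {I : Type} [Fintype I] (P : Matrix I I O) (v : I → O) (S : ℝ≥0∞)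
    (hv : ∀ b, p (v b) ≤ S) (i : I) :
    p (P.mulVec v i) ≤ (∑ a, ∑ b, p (P a b)) * S := by
  rw [Matrix.mulVec, dotProduct]
  refine (SMN.sum hp _ _).trans ?_
  have h1 : ∑ b, p (P i b * v b) ≤ (∑ b, p (P i b)) * S := by
    rw [Finset.sum_mul]
    exact Finset.sum_le_sum fun b _ => (hp.mul _ _).trans (mul_le_mul' le_rfl (hv b))
  exact h1.trans (mul_le_mul' (Finset.single_le_sum (f := fun a => ∑ b, p (P a b))
    (fun _ _ => zero_le) (Finset.mem_univ i)) le_rfl)

omit hp in
private lemma g4_conv (X : ℕ → ℝ≥0∞) (hX : ∀ j, X j ≠ ∞) (A B : ℕ → ℝ) (hA : ∀ l, 0 ≤ A l)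
    (hB : ∀ l, 0 ≤ B l) (j : ℕ) :
    ∑ l ∈ Finset.range j, (ENNReal.ofReal (A l) * ((j - 1 - l : ℕ) : ℝ≥0∞)
        + ENNReal.ofReal (B l)) * X (j - 1 - l)
      = ENNReal.ofReal (∑ l ∈ Finset.range j, (A l * ((j - 1 - l : ℕ) : ℝ) + B l)
        * (X (j - 1 - l)).toReal) := by
  rw [ENNReal.ofReal_sum_of_nonneg (fun l _ => by
    have := hA l; have := hB l; positivity)]
  refine Finset.sum_congr rfl fun l _ => ?_
  have h1 := hA l
  have h2 := hB l
  rw [ENNReal.ofReal_mul (by positivity), ENNReal.ofReal_add (by positivity) h2,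
    ENNReal.ofReal_mul h1, ENNReal.ofReal_natCast, ENNReal.ofReal_toReal (hX _)]

/-- Row g4. THE RECURSION LEMMA. A solution `x` (a vector of power series with coefficients of
finite norm) of `η s² x' + K x = 0`, where `η`, `K` have Gevrey growth and `K_0` is semisimple in
the eigenvalue `0` in the sense that `h = P + Q K_0`, `P K_0 = 0`, has Gevrey growth.
Proof: with `X j = ∑ p (x_j i)`, `Y j = ∑ p ((P x_j) i)`. Level `j` of the equation:
`K_0 x_j = - ∑_{l < j} (j-1-l) η_l x_(j-1-l) - ∑_{l < j} K_(l+1) x_(j-1-l)`; `h x_j = P x_j + Q K_0 x_j` and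
`DE p h` give the first inequality of `rl_real`. `P` applied to level `j + 1`:
`j η_0 P x_j = - P K_1 x_j - P (∑_{l < j} (j-1-l) η_(l+1) x_(j-1-l) + ∑_{l < j} K_(l+2) x_(j-1-l))`;
multiply by `h` and write `h x_j = P x_j + Q K_0 x_j` in the first term; `DE p h`, `DE p η_0`. -/
theorem rl {I : Type} [Fintype I] [DecidableEq I] (x : I → PowerSeries O)
    (K : Matrix I I (PowerSeries O)) (η : PowerSeries O) (P Q : Matrix I I O) (h : O)
    (hx : ∀ i, FN p (x i)) (hK : ∀ i i', GV p (K i i')) (hη : GV p η)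
    (hP : ∀ i i', p (P i i') ≠ ∞) (hQ : ∀ i i', p (Q i i') ≠ ∞)
    (hPQ : P + Q * K.map PowerSeries.constantCoeff = h • (1 : Matrix I I O))
    (hPK : P * K.map PowerSeries.constantCoeff = 0)
    (hh : DE p h) (hη0 : DE p (PowerSeries.constantCoeff η)) (hhf : p h ≠ ∞)
    (heq : ∀ i, η * (PowerSeries.X ^ 2 * PowerSeries.derivative O (x i)) + (K.mulVec x) i = 0) :
    ∀ i, GV p (x i) := by
  classical
  -- constants
  obtain ⟨Cη, hCη, hη'⟩ := hη
  choose CK hCK hK' using hK
  obtain ⟨Ch, hCh⟩ := hh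
  obtain ⟨Ce, hCe⟩ := hη0
  set C : ℝ := 1 + Cη + ∑ a, ∑ b, CK a b with hCdef
  have hC1 : 1 ≤ C := by
    have : 0 ≤ ∑ a, ∑ b, CK a b := Finset.sum_nonneg fun a _ => Finset.sum_nonneg fun b _ => hCK a b
    linarith
  have hCη' : Cη ≤ C := by
    have : 0 ≤ ∑ a, ∑ b, CK a b := Finset.sum_nonneg fun a _ => Finset.sum_nonneg fun b _ => hCK a b
    linarith
  have hCK' : ∀ i i', CK i i' ≤ C := fun i i' => by
    have h1 : CK i i' ≤ ∑ b, CK i b :=
      Finset.single_le_sum (f := fun b => CK i b) (fun b _ => hCK i b) (Finset.mem_univ i')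
    have h2 : ∑ b, CK i b ≤ ∑ a, ∑ b, CK a b :=
      Finset.single_le_sum (f := fun a => ∑ b, CK a b)
        (fun a _ => Finset.sum_nonneg fun b _ => hCK a b) (Finset.mem_univ i)
    linarith
  have hηb : ∀ l, p (PowerSeries.coeff l η) ≤ ENNReal.ofReal (C ^ (l + 1) * l.factorial) :=
    fun l => (hη' l).trans (ENNReal.ofReal_le_ofReal (mul_le_mul_of_nonneg_right
      (pow_le_pow_left₀ hCη hCη' _) (by positivity)))
  have hKb : ∀ l i i', p (PowerSeries.coeff l (K i i'))
      ≤ ENNReal.ofReal (C ^ (l + 1) * l.factorial) :=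
    fun l i i' => (hK' i i' l).trans (ENNReal.ofReal_le_ofReal (mul_le_mul_of_nonneg_right
      (pow_le_pow_left₀ (hCK i i') (hCK' i i') _) (by positivity)))
  set K0 : Matrix I I O := K.map PowerSeries.constantCoeff with hK0
  set K1 : Matrix I I O := K.map (PowerSeries.coeff 1) with hK1
  set xc : ℕ → I → O := fun j i => PowerSeries.coeff j (x i) with hxc
  set R : ℕ → I → O := fun j i => ∑ l ∈ Finset.range j, (PowerSeries.coeff l η
          * (((j - 1 - l : ℕ) : O) * PowerSeries.coeff (j - 1 - l) (x i))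
          + ∑ i', PowerSeries.coeff (l + 1) (K i i') * PowerSeries.coeff (j - 1 - l) (x i'))
    with hR
  set R' : ℕ → I → O := fun j i => ∑ l ∈ Finset.range j, (PowerSeries.coeff (l + 1) η
          * (((j - 1 - l : ℕ) : O) * PowerSeries.coeff (j - 1 - l) (x i))
          + ∑ i', PowerSeries.coeff (l + 2) (K i i') * PowerSeries.coeff (j - 1 - l) (x i'))
    with hR'
  set NP : ℝ≥0∞ := ∑ a, ∑ b, p (P a b) with hNP
  set NQ : ℝ≥0∞ := ∑ a, ∑ b, p (Q a b) with hNQ
  set NK : ℝ≥0∞ := ∑ a, ∑ b, p ((P * K1) a b) with hNK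
  have hNPf : NP ≠ ∞ := ENNReal.sum_ne_top.mpr fun a _ => ENNReal.sum_ne_top.mpr fun b _ => hP a b
  have hNQf : NQ ≠ ∞ := ENNReal.sum_ne_top.mpr fun a _ => ENNReal.sum_ne_top.mpr fun b _ => hQ a b
  have hfin1 : ∀ a b, p (K1 a b) ≠ ∞ := fun a b => by
    rw [hK1, Matrix.map_apply]
    exact ne_top_of_le_ne_top ENNReal.ofReal_ne_top (hKb 1 a b)
  have hNKf : NK ≠ ∞ := by
    refine ENNReal.sum_ne_top.mpr fun a _ => ENNReal.sum_ne_top.mpr fun b _ => ?_
    rw [Matrix.mul_apply]
    refine ne_top_of_le_ne_top ?_ (SMN.sum hp _ _)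
    refine ENNReal.sum_ne_top.mpr fun k _ => ?_
    exact ne_top_of_le_ne_top (ENNReal.mul_ne_top (hP a k) (hfin1 k b)) (hp.mul _ _)
  set X : ℕ → ℝ≥0∞ := fun j => ∑ i, p (xc j i) with hXdef
  set Y : ℕ → ℝ≥0∞ := fun j => ∑ i, p (P.mulVec (xc j) i) with hYdef
  have hXf : ∀ j, X j ≠ ∞ := fun j => ENNReal.sum_ne_top.mpr fun i _ => hx i j
  have hYf : ∀ j, Y j ≠ ∞ := fun j => ENNReal.sum_ne_top.mpr fun i _ =>
    ne_top_of_le_ne_top (ENNReal.mul_ne_top hNPf (hXf j)) (g4_mulVec hp P (xc j) i)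
  set S1 : ℕ → ℝ≥0∞ := fun j => ∑ l ∈ Finset.range j,
    (ENNReal.ofReal (C ^ (l + 1) * l.factorial) * ((j - 1 - l : ℕ) : ℝ≥0∞)
      + ENNReal.ofReal (C ^ (l + 2) * (l + 1).factorial)) * X (j - 1 - l) with hS1
  set S2 : ℕ → ℝ≥0∞ := fun j => ∑ l ∈ Finset.range j,
    (ENNReal.ofReal (C ^ (l + 2) * (l + 1).factorial) * ((j - 1 - l : ℕ) : ℝ≥0∞)
      + ENNReal.ofReal (C ^ (l + 3) * (l + 2).factorial)) * X (j - 1 - l) with hS2
  have hRb : ∀ j i, p (R j i) ≤ S1 j := fun j i =>
    g4_bound hp x (fun l => PowerSeries.coeff l η) (fun l i i' => PowerSeries.coeff (l + 1) (K i i'))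
      _ _ hηb (fun l i i' => hKb (l + 1) i i') j i
  have hR'b : ∀ j i, p (R' j i) ≤ S2 j := fun j i =>
    g4_bound hp x (fun l => PowerSeries.coeff (l + 1) η)
      (fun l i i' => PowerSeries.coeff (l + 2) (K i i'))
      _ _ (fun l => hηb (l + 1)) (fun l i i' => hKb (l + 2) i i') j i
  have hlev : ∀ j, K0.mulVec (xc j) = - R j := fun j => by
    funext i
    rw [Pi.neg_apply]
    exact eq_neg_of_add_eq_zero_left (g4_level x K η heq j i)
  -- `h x_j = P x_j - Q R_j`
  have hhx : ∀ j i, h * xc j i = P.mulVec (xc j) i - Q.mulVec (R j) i := fun j i => by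
    have e := congrArg (fun M : Matrix I I O => M.mulVec (xc j) i) hPQ
    simp only [Matrix.add_mulVec, Pi.add_apply, ← Matrix.mulVec_mulVec, hlev,
      Matrix.mulVec_neg, Pi.neg_apply, Matrix.smul_mulVec, Matrix.one_mulVec, Pi.smul_apply,
      smul_eq_mul] at e
    rw [← e]; ring
  -- `R_(j+1) = j η_0 x_j + K_1 x_j + R'_j`
  have hRs : ∀ (j : ℕ) (i : I), R (j + 1) i = (j : O) * (PowerSeries.constantCoeff η * xc j i)
      + K1.mulVec (xc j) i + R' j i := fun j i => by
    simp only [hR, hR', hxc, hK1]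
    rw [Finset.sum_range_succ']
    rw [add_comm]
    simp only [Nat.sub_zero, Nat.add_sub_cancel, zero_add, Matrix.mulVec, dotProduct,
      Matrix.map_apply, PowerSeries.coeff_zero_eq_constantCoeff]
    congr 1
    · ring
    · refine Finset.sum_congr rfl fun l _ => ?_
      rw [show j - (l + 1) = j - 1 - l by omega]
  -- `j η_0 P x_j = - P K_1 x_j - P R'_j`
  have hPR : ∀ (j : ℕ) (i : I), (j : O) * (PowerSeries.constantCoeff η * P.mulVec (xc j) i)
      = - (P * K1).mulVec (xc j) i - P.mulVec (R' j) i := fun j i => by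
    have e0 : P.mulVec (R (j + 1)) i = 0 := by
      have e1 : R (j + 1) = - K0.mulVec (xc (j + 1)) := by rw [hlev, neg_neg]
      rw [e1, Matrix.mulVec_neg, Matrix.mulVec_mulVec, hPK, Matrix.zero_mulVec]
      simp
    have e2 : R (j + 1) = ((j : O) * PowerSeries.constantCoeff η) • xc j + K1.mulVec (xc j)
        + R' j := by
      funext i
      rw [hRs j i]
      simp only [Pi.add_apply, Pi.smul_apply, smul_eq_mul]
      ring
    rw [e2, Matrix.mulVec_add, Matrix.mulVec_add, Matrix.mulVec_smul, Matrix.mulVec_mulVec] at e0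
    simp only [Pi.add_apply, Pi.smul_apply, smul_eq_mul] at e0
    linear_combination e0
  -- first inequality
  set n : ℝ≥0∞ := (Fintype.card I : ℝ≥0∞) with hn
  have I1 : ∀ j, X j ≤ Ch * (Y j + n * (NQ * S1 j)) := fun j => by
    have e : ∀ i, p (xc j i) ≤ Ch * (p (P.mulVec (xc j) i) + NQ * S1 j) := fun i => by
      refine (hCh _ (hx i j)).trans (mul_le_mul' le_rfl ?_)
      have e1 := hhx j i
      simp only [hxc] at e1
      rw [e1, sub_eq_add_neg]
      refine (hp.add _ _).trans (add_le_add le_rfl ?_)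
      rw [hp.neg]
      exact g4_mulVec' hp Q (R j) (S1 j) (hRb j) i
    refine (Finset.sum_le_sum fun i _ => e i).trans ?_
    rw [← Finset.mul_sum, Finset.sum_add_distrib, Finset.sum_const, Finset.card_univ,
      nsmul_eq_mul]
  -- second inequality
  have I2 : ∀ j : ℕ, (j : ℝ≥0∞) * Y j ≤ n * (Ch * (Ce * (NK * (Y j + n * (NQ * S1 j))
      + p h * (NP * S2 j)))) := fun j => by
    have e : ∀ i, (j : ℝ≥0∞) * p (P.mulVec (xc j) i) ≤ Ch * (Ce * (NK * (Y j + n * (NQ * S1 j))
      + p h * (NP * S2 j))) := fun i => by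
      have hf0 : p (P.mulVec (xc j) i) ≠ ∞ :=
        ne_top_of_le_ne_top (ENNReal.mul_ne_top hNPf (hXf j)) (g4_mulVec hp P (xc j) i)
      have hf1 : p ((j : O) * P.mulVec (xc j) i) ≠ ∞ := by
        rw [hp.nat]; exact ENNReal.mul_ne_top (ENNReal.natCast_ne_top j) hf0
      have hf2 : p (h * ((j : O) * P.mulVec (xc j) i)) ≠ ∞ :=
        ne_top_of_le_ne_top (ENNReal.mul_ne_top hhf hf1) (hp.mul _ _)
      rw [← hp.nat]
      refine (hCh _ hf1).trans (mul_le_mul' le_rfl ?_)
      refine (hCe _ hf2).trans (mul_le_mul' le_rfl ?_)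
      have e1 : PowerSeries.constantCoeff η * (h * ((j : O) * P.mulVec (xc j) i))
          = - (P * K1).mulVec (h • xc j) i + (- (h * P.mulVec (R' j) i)) := by
        rw [Matrix.mulVec_smul, Pi.smul_apply, smul_eq_mul]
        linear_combination h * hPR j i
      rw [e1]
      refine (hp.add _ _).trans (add_le_add ?_ ?_)
      · rw [hp.neg]
        refine (g4_mulVec hp (P * K1) (h • xc j) i).trans (mul_le_mul' le_rfl ?_)
        have e2 : ∀ b, p ((h • xc j) b) ≤ p (P.mulVec (xc j) b) + NQ * S1 j := fun b => by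
          rw [Pi.smul_apply, smul_eq_mul, hhx j b, sub_eq_add_neg]
          refine (hp.add _ _).trans (add_le_add le_rfl ?_)
          rw [hp.neg]
          exact g4_mulVec' hp Q (R j) (S1 j) (hRb j) b
        refine (Finset.sum_le_sum fun b _ => e2 b).trans ?_
        rw [Finset.sum_add_distrib, Finset.sum_const, Finset.card_univ, nsmul_eq_mul]
      · rw [hp.neg]
        refine (hp.mul _ _).trans (mul_le_mul' le_rfl ?_)
        exact g4_mulVec' hp P (R' j) (S2 j) (hR'b j) i
    rw [hYdef]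
    simp only
    rw [Finset.mul_sum]
    refine (Finset.sum_le_sum fun i _ => e i).trans ?_
    rw [Finset.sum_const, Finset.card_univ, nsmul_eq_mul]
  -- one constant
  set c0 : ℝ≥0∞ := 1 + Ch * (1 + n * NQ) + n * (Ch * (Ce * (NK * (1 + n * NQ) + p h * NP)))
    with hc0
  have hnf : n ≠ ∞ := ENNReal.natCast_ne_top _
  have hc0f : c0 ≠ ∞ := by
    refine ENNReal.add_ne_top.mpr ⟨ENNReal.add_ne_top.mpr ⟨ENNReal.one_ne_top, ?_⟩, ?_⟩
    · exact ENNReal.mul_ne_top ENNReal.coe_ne_top (ENNReal.add_ne_top.mpr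
        ⟨ENNReal.one_ne_top, ENNReal.mul_ne_top hnf hNQf⟩)
    · exact ENNReal.mul_ne_top hnf (ENNReal.mul_ne_top ENNReal.coe_ne_top
        (ENNReal.mul_ne_top ENNReal.coe_ne_top (ENNReal.add_ne_top.mpr
          ⟨ENNReal.mul_ne_top hNKf (ENNReal.add_ne_top.mpr
            ⟨ENNReal.one_ne_top, ENNReal.mul_ne_top hnf hNQf⟩),
            ENNReal.mul_ne_top hhf hNPf⟩)))
  have J1 : ∀ j, X j ≤ c0 * (Y j + S1 j) := fun j => by
    refine (I1 j).trans ?_
    calc (Ch : ℝ≥0∞) * (Y j + n * (NQ * S1 j))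
        ≤ Ch * ((1 + n * NQ) * (Y j + S1 j)) := by
          refine mul_le_mul' le_rfl ?_
          have : (1 + n * NQ) * (Y j + S1 j)
              = (Y j + n * (NQ * S1 j)) + (S1 j + n * NQ * Y j) := by ring
          rw [this]; exact le_self_add
      _ = (Ch * (1 + n * NQ)) * (Y j + S1 j) := by ring
      _ ≤ c0 * (Y j + S1 j) := by
          refine mul_le_mul' ?_ le_rfl
          rw [hc0]
          exact (le_add_self).trans le_self_add
  have J2 : ∀ j : ℕ, (j : ℝ≥0∞) * Y j ≤ c0 * (Y j + S1 j + S2 j) := fun j => by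
    refine (I2 j).trans ?_
    calc n * (Ch * (Ce * (NK * (Y j + n * (NQ * S1 j)) + p h * (NP * S2 j))))
        ≤ n * (Ch * (Ce * ((NK * (1 + n * NQ) + p h * NP) * (Y j + S1 j + S2 j)))) := by
          refine mul_le_mul' le_rfl (mul_le_mul' le_rfl (mul_le_mul' le_rfl ?_))
          have : (NK * (1 + n * NQ) + p h * NP) * (Y j + S1 j + S2 j)
              = (NK * (Y j + n * (NQ * S1 j)) + p h * (NP * S2 j))
                + (NK * (S1 j + S2 j + n * NQ * (Y j + S2 j)) + p h * NP * (Y j + S1 j)) := by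
            ring
          rw [this]; exact le_self_add
      _ = (n * (Ch * (Ce * (NK * (1 + n * NQ) + p h * NP)))) * (Y j + S1 j + S2 j) := by ring
      _ ≤ c0 * (Y j + S1 j + S2 j) := by
          refine mul_le_mul' ?_ le_rfl
          rw [hc0]
          exact le_add_self
  -- to real numbers
  set c : ℝ := c0.toReal with hc
  have hc0r : c0 = ENNReal.ofReal c := (ENNReal.ofReal_toReal hc0f).symm
  have hc1 : 1 ≤ c := by
    rw [hc, ← ENNReal.toReal_one]
    refine ENNReal.toReal_mono hc0f ?_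
    rw [hc0, add_assoc]
    exact le_self_add
  have hS1r : ∀ j, S1 j = ENNReal.ofReal (∑ l ∈ Finset.range j,
      (C ^ (l + 1) * l.factorial * ((j - 1 - l : ℕ) : ℝ) + C ^ (l + 2) * (l + 1).factorial)
        * (X (j - 1 - l)).toReal) := fun j =>
    g4_conv X hXf (fun l => C ^ (l + 1) * l.factorial) (fun l => C ^ (l + 2) * (l + 1).factorial)
      (fun l => by positivity) (fun l => by positivity) j
  have hS2r : ∀ j, S2 j = ENNReal.ofReal (∑ l ∈ Finset.range j,
      (C ^ (l + 2) * (l + 1).factorial * ((j - 1 - l : ℕ) : ℝ) + C ^ (l + 3) * (l + 2).factorial)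
        * (X (j - 1 - l)).toReal) := fun j =>
    g4_conv X hXf (fun l => C ^ (l + 2) * (l + 1).factorial)
      (fun l => C ^ (l + 3) * (l + 2).factorial)
      (fun l => by positivity) (fun l => by positivity) j
  have n1 : ∀ j, 0 ≤ ∑ l ∈ Finset.range j,
      (C ^ (l + 1) * l.factorial * ((j - 1 - l : ℕ) : ℝ) + C ^ (l + 2) * (l + 1).factorial)
        * (X (j - 1 - l)).toReal := fun j => Finset.sum_nonneg fun l _ => by positivity
  have n2 : ∀ j, 0 ≤ ∑ l ∈ Finset.range j,
      (C ^ (l + 2) * (l + 1).factorial * ((j - 1 - l : ℕ) : ℝ) + C ^ (l + 3) * (l + 2).factorial)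
        * (X (j - 1 - l)).toReal := fun j => Finset.sum_nonneg fun l _ => by positivity
  obtain ⟨M, hM, hMx⟩ := rl_real (x := fun j => (X j).toReal) (y := fun j => (Y j).toReal)
    hc1 hC1 (fun j => ENNReal.toReal_nonneg) (fun j => ENNReal.toReal_nonneg)
    (fun j => by
      have e := J1 j
      have hy0 : (0 : ℝ) ≤ (Y j).toReal := ENNReal.toReal_nonneg
      rw [hc0r, hS1r, ← ENNReal.ofReal_toReal (hYf j), ← ENNReal.ofReal_add hy0 (n1 j),
        ← ENNReal.ofReal_mul (by linarith)] at e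
      exact ENNReal.toReal_le_of_le_ofReal
        (mul_nonneg (by linarith) (add_nonneg hy0 (n1 j))) e)
    (fun j => by
      have e := J2 j
      have hy0 : (0 : ℝ) ≤ (Y j).toReal := ENNReal.toReal_nonneg
      rw [hc0r, hS1r, hS2r, ← ENNReal.ofReal_toReal (hYf j), ← ENNReal.ofReal_add hy0 (n1 j),
        ← ENNReal.ofReal_add (add_nonneg hy0 (n1 j)) (n2 j),
        ← ENNReal.ofReal_mul (by linarith), ← ENNReal.ofReal_natCast,
        ← ENNReal.ofReal_mul (by positivity)] at e
      exact (ENNReal.ofReal_le_ofReal_iff (mul_nonneg (by linarith)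
        (add_nonneg (add_nonneg hy0 (n1 j)) (n2 j)))).mp e)
  intro i
  refine ⟨M, hM, fun j => ?_⟩
  calc p (PowerSeries.coeff j (x i)) ≤ X j :=
        Finset.single_le_sum (f := fun i => p (xc j i)) (fun _ _ => zero_le) (Finset.mem_univ i)
    _ = ENNReal.ofReal (X j).toReal := (ENNReal.ofReal_toReal (hXf j)).symm
    _ ≤ _ := ENNReal.ofReal_le_ofReal (hMx j)

end growth

end Pool.Agent.Ep
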