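import Mathlib

/-!
# Uniqueness: the semisimple operator `Y ↦ A Y - Y B` (P11, block U, helper69)
-/

set_option autoImplicit false

namespace Pool.Agent.Ep

open Polynomial Matrix

open scoped Kronecker

section ss

variable {O : Type} [CommRing O] {m n : Type} [Fintype m] [DecidableEq m] [Fintype n]
  [DecidableEq n]

/-- the matrix of `Y ↦ A Y - Y B` -/
def KK (A : Matrix m m O) (B : Matrix n n O) : Matrix (m × n) (m × n) O :=
  A ⊗ₖ (1 : Matrix n n O) - (1 : Matrix m m O) ⊗ₖ Bᵀ

/-- Row s1. -/
lemma KK_mulVec (A : Matrix m m O) (B : Matrix n n O) (Y : m × n → O) (i : m) (j : n) :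
    (KK A B).mulVec Y (i, j) = ∑ k, A i k * Y (k, j) - ∑ k, Y (i, k) * B k j := by
  unfold KK
  rw [Matrix.sub_mulVec, Pi.sub_apply]
  congr 1
  · simp only [Matrix.mulVec, dotProduct, Matrix.kroneckerMap_apply, Matrix.one_apply]
    rw [Fintype.sum_prod_type]
    refine Finset.sum_congr rfl fun k _ => ?_
    rw [Finset.sum_eq_single j]
    · simp
    · intro b _ hb
      simp [Ne.symm hb]
    · intro h
      exact absurd (Finset.mem_univ j) h
  · simp only [Matrix.mulVec, dotProduct, Matrix.kroneckerMap_apply, Matrix.one_apply,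
      Matrix.transpose_apply]
    rw [Fintype.sum_prod_type, Finset.sum_eq_single i]
    · refine Finset.sum_congr rfl fun k _ => ?_
      simp [mul_comm]
    · intro b _ hb
      simp [Ne.symm hb]
    · intro h
      exact absurd (Finset.mem_univ i) h

/-- the first two terms of the expansion of a polynomial at `b` -/
private lemma s2_taylor {F S : Type} [CommRing F] [Ring S] [Algebra F S] {a b : S}
    (hab : Commute a b) (p : F[X]) : ∃ D E : S, Commute (a - b) D ∧ Commute (a - b) E ∧
      (a - b) * D = aeval a p - aeval b p ∧ D = aeval b (derivative p) + (a - b) * E := by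
  induction p using Polynomial.induction_on' with
  | add p q hp hq =>
    obtain ⟨D, E, h1, h2, h3, h4⟩ := hp
    obtain ⟨D', E', h1', h2', h3', h4'⟩ := hq
    refine ⟨D + D', E + E', h1.add_right h1', h2.add_right h2', ?_, ?_⟩
    · rw [mul_add, h3, h3', map_add, map_add]
      abel
    · rw [mul_add, map_add, map_add]
      conv_lhs => rw [h4, h4']
      abel
  | monomial k c =>
    have hc : Commute (a - b) a := (Commute.refl a).sub_left hab.symm
    have hc' : Commute (a - b) b := hab.sub_left (Commute.refl b)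
    have hg : ∀ i : ℕ, Commute (a - b) (∑ j ∈ Finset.range i, a ^ j * b ^ (i - 1 - j)) := fun i =>
      Commute.sum_right _ _ _ fun j _ => (hc.pow_right j).mul_right (hc'.pow_right _)
    refine ⟨c • ∑ i ∈ Finset.range k, a ^ i * b ^ (k - 1 - i),
      c • ∑ i ∈ Finset.range k, (∑ j ∈ Finset.range i, a ^ j * b ^ (i - 1 - j)) * b ^ (k - 1 - i),
      (hg k).smul_right c, (Commute.sum_right _ _ _ fun i _ =>
        (hg i).mul_right (hc'.pow_right _)).smul_right c, ?_, ?_⟩
    · rw [mul_smul_comm, hab.mul_geom_sum₂, aeval_monomial, aeval_monomial, smul_sub,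
        Algebra.smul_def, Algebra.smul_def]
    · rw [derivative_monomial, aeval_monomial, mul_smul_comm, Finset.mul_sum, map_mul,
        map_natCast, mul_assoc, ← Algebra.smul_def, ← smul_add]
      congr 1
      have h1 : ∀ i ∈ Finset.range k, a ^ i * b ^ (k - 1 - i) = b ^ (k - 1) + (a - b) *
          ((∑ j ∈ Finset.range i, a ^ j * b ^ (i - 1 - j)) * b ^ (k - 1 - i)) := by
        intro i hi
        rw [Finset.mem_range] at hi
        rw [← mul_assoc, hab.mul_geom_sum₂, sub_mul, ← pow_add]
        have h2 : i + (k - 1 - i) = k - 1 := by omega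
        rw [h2]
        abel
      rw [Finset.sum_congr rfl h1, Finset.sum_add_distrib, Finset.sum_const, Finset.card_range,
        nsmul_eq_mul]

private lemma s2_split {F S : Type} [CommRing F] [Ring S] [Algebra F S] (q β : F[X]) (Δ : F)
    {a b : S} (hab : Commute a b) (ha : aeval a q = 0) (hb : aeval b q = 0)
    (hβ : aeval b (β * derivative q) = algebraMap F S Δ) :
    ∃ P Q : S, P + Q * (a - b) = algebraMap F S Δ ∧ P * (a - b) = 0 := by
  obtain ⟨D, E, h1, h2, h3, h4⟩ := s2_taylor hab q
  refine ⟨aeval b β * D, -(aeval b β * E), ?_, ?_⟩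
  · rw [← hβ, map_mul, neg_mul, mul_assoc, ← h2.eq]
    conv_lhs => rw [h4]
    rw [mul_add]
    abel
  · rw [mul_assoc, ← h1.eq, h3, ha, hb, sub_zero, mul_zero]

theorem exists_split [IsDomain O] (q α β : O[X]) (Δ : O) (hΔ : Δ ≠ 0)
    (hq : α * q + β * derivative q = C Δ) (η : O) (hη : η ≠ 0) (D : ℕ) (hD : q.natDegree ≤ D)
    (A : Matrix m m O) (B : Matrix n n O)
    (hA : ∑ k ∈ Finset.range (D + 1), (q.coeff k * η ^ (D - k)) • A ^ k = 0)
    (hB : ∑ k ∈ Finset.range (D + 1), (q.coeff k * η ^ (D - k)) • B ^ k = 0) :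
    ∃ (h : O) (P Q : Matrix (m × n) (m × n) O), h ≠ 0 ∧
      P + Q * KK A B = h • (1 : Matrix (m × n) (m × n) O) ∧ P * KK A B = 0 := by
  classical
  let F := FractionRing O
  let ι : O →+* F := algebraMap O F
  have hι : Function.Injective ι := IsFractionRing.injective O F
  have hη' : ι η ≠ 0 := fun h => hη (hι (by rw [h, map_zero]))
  have hz : ∀ (l : Type) [Fintype l] [DecidableEq l] (X : Matrix l l O),
      ∑ k ∈ Finset.range (D + 1), (q.coeff k * η ^ (D - k)) • X ^ k = 0 →
        aeval ((ι η)⁻¹ • X.map ι) (q.map ι) = 0 := by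
    intro l _ _ X hX
    rw [aeval_eq_sum_range' (n := D + 1) (by
      rw [natDegree_map_eq_of_injective hι]
      omega)]
    have h1 : ∀ k ∈ Finset.range (D + 1), (q.map ι).coeff k • ((ι η)⁻¹ • X.map ι) ^ k =
        ((ι η)⁻¹) ^ D • ((q.coeff k * η ^ (D - k)) • X ^ k).map ι := by
      intro k hk
      rw [Finset.mem_range] at hk
      have h2 : ((q.coeff k * η ^ (D - k)) • X ^ k).map ι =
          (ι (q.coeff k) * ι η ^ (D - k)) • (X.map ι) ^ k := by
        rw [← map_pow, ← map_mul]
        ext i j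
        have h3 : (X.map ι) ^ k = (X ^ k).map ι := (ι.mapMatrix.map_pow X k).symm
        rw [h3, Matrix.map_apply, Matrix.smul_apply, Matrix.smul_apply, Matrix.map_apply,
          smul_eq_mul, smul_eq_mul, map_mul]
      rw [h2, _root_.smul_pow, smul_smul, smul_smul, coeff_map]
      congr 1
      have h3 : (ι η)⁻¹ ^ D * ι η ^ (D - k) = (ι η)⁻¹ ^ k := by
        have h4 : D = k + (D - k) := by omega
        conv_lhs => rw [h4, pow_add, ← h4]
        rw [mul_assoc, ← mul_pow, inv_mul_cancel₀ hη', one_pow, mul_one]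
      rw [← h3]
      ring
    rw [Finset.sum_congr rfl h1, ← Finset.smul_sum]
    have h5 : ∑ k ∈ Finset.range (D + 1), ((q.coeff k * η ^ (D - k)) • X ^ k).map ι = 0 := by
      have h6 := congrArg (ι.mapMatrix (m := l)) hX
      rw [map_sum, map_zero] at h6
      exact h6
    rw [h5, smul_zero]
  have hAz := hz m A hA
  have hBz := hz n Bᵀ (by
    have h1 := congrArg Matrix.transpose hB
    rw [Matrix.transpose_sum, Matrix.transpose_zero] at h1
    rw [← h1]
    refine Finset.sum_congr rfl fun k _ => ?_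
    rw [Matrix.transpose_smul, Matrix.transpose_pow])
  set A' : Matrix m m F := (ι η)⁻¹ • A.map ι with hA'
  set B' : Matrix n n F := (ι η)⁻¹ • (Bᵀ).map ι with hB'
  let φ : Matrix m m F →ₐ[F] Matrix (m × n) (m × n) F :=
    (kroneckerAlgEquiv m n F).toAlgHom.comp Algebra.TensorProduct.includeLeft
  let ψ : Matrix n n F →ₐ[F] Matrix (m × n) (m × n) F :=
    (kroneckerAlgEquiv m n F).toAlgHom.comp Algebra.TensorProduct.includeRight
  have hφ : ∀ X, φ X = X ⊗ₖ (1 : Matrix n n F) := fun X => by simp [φ]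
  have hψ : ∀ X, ψ X = (1 : Matrix m m F) ⊗ₖ X := fun X => by simp [ψ]
  have ha0 : aeval (φ A') (q.map ι) = 0 := by
    rw [aeval_algHom_apply, hAz, map_zero]
  have hb0 : aeval (ψ B') (q.map ι) = 0 := by
    rw [aeval_algHom_apply, hBz, map_zero]
  have hab : Commute (φ A') (ψ B') := by
    change φ A' * ψ B' = ψ B' * φ A'
    rw [hφ, hψ, ← Matrix.mul_kronecker_mul, ← Matrix.mul_kronecker_mul, Matrix.mul_one,
      Matrix.one_mul, Matrix.mul_one, Matrix.one_mul]
  obtain ⟨P', Q', h1, h2⟩ := s2_split (q.map ι) (β.map ι) (ι Δ) hab ha0 hb0 (by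
    have h3 := congrArg (fun p => aeval (ψ B') (p.map ι)) hq
    simp only [Polynomial.map_add, Polynomial.map_mul, Polynomial.map_C, map_add, map_mul,
      aeval_C] at h3
    rw [hb0, mul_zero, zero_add, ← derivative_map, ← map_mul] at h3
    exact h3)
  have hK : (KK A B).map ι = ι η • (φ A' - ψ B') := by
    rw [hφ, hψ, KK]
    ext ⟨i, j⟩ ⟨k, l⟩
    simp only [Matrix.map_apply, Matrix.sub_apply, Matrix.kroneckerMap_apply, Matrix.smul_apply,
      Matrix.transpose_apply, smul_eq_mul, map_sub, map_mul, hA', hB', Matrix.one_apply]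
    rw [mul_sub]
    congr 1
    · rw [mul_assoc, ← mul_assoc (ι η), mul_inv_cancel₀ hη', one_mul]
      split_ifs <;> simp
    · rw [mul_left_comm, ← mul_assoc (ι η), mul_inv_cancel₀ hη', one_mul]
      split_ifs <;> simp
  obtain ⟨b0, hb0'⟩ := IsLocalization.exist_integer_multiples_of_finite (nonZeroDivisors O)
    (fun x : Bool × (m × n) × (m × n) => if x.1 then P' x.2.1 x.2.2 else (ι η)⁻¹ * Q' x.2.1 x.2.2)
  choose g hg using hb0'
  have hb1 : (b0 : O) ≠ 0 := nonZeroDivisors.ne_zero b0.2
  have hP : (Matrix.of fun i j => g (true, i, j) : Matrix (m × n) (m × n) O).map ι =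
      ι b0 • P' := by
    ext i j
    have h3 := hg (true, i, j)
    simp only [if_true] at h3
    rw [Matrix.map_apply, Matrix.of_apply, Matrix.smul_apply, smul_eq_mul]
    exact h3.trans (Algebra.smul_def _ _)
  have hQ : (Matrix.of fun i j => g (false, i, j) : Matrix (m × n) (m × n) O).map ι =
      (ι b0 * (ι η)⁻¹) • Q' := by
    ext i j
    have h3 := hg (false, i, j)
    simp only [Bool.false_eq_true, if_false] at h3
    rw [Matrix.map_apply, Matrix.of_apply, Matrix.smul_apply, smul_eq_mul, mul_assoc]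
    exact h3.trans (Algebra.smul_def _ _)
  have hinj : Function.Injective fun X : Matrix (m × n) (m × n) O => X.map ι := by
    intro X Y h
    ext i j
    exact hι (congrFun (congrFun h i) j)
  refine ⟨b0 * Δ, Matrix.of fun i j => g (true, i, j), Matrix.of fun i j => g (false, i, j),
    mul_ne_zero hb1 hΔ, hinj ?_, hinj ?_⟩
  · change (_ + _ * _ : Matrix (m × n) (m × n) O).map ι = Matrix.map _ ι
    rw [Matrix.map_add ι (map_add ι), Matrix.map_mul, hP, hQ, hK, Matrix.smul_mul, Matrix.mul_smul,
      smul_smul, mul_assoc, inv_mul_cancel₀ hη', mul_one, ← smul_add, h1]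
    ext i j
    simp only [Matrix.smul_apply, Matrix.map_apply, smul_eq_mul, map_mul, Algebra.algebraMap_eq_smul_one,
      Matrix.one_apply]
    split_ifs <;> simp
  · change (_ * _ : Matrix (m × n) (m × n) O).map ι = Matrix.map _ ι
    rw [Matrix.map_mul, hP, hK, Matrix.smul_mul, Matrix.mul_smul, h2, smul_zero, smul_zero,
      Matrix.map_zero ι (map_zero ι)]

end ss

end Pool.Agent.Ep
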