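import Pool.Agent.Ep.Una

import Pool.Agent.Ep.Nrm

import Pool.Agent.Fbc.NGh

/-!
# Uniqueness: convergent power series in `x` and the expansion in powers of `s`
(P11, block U, helper69)
-/

set_option autoImplicit false

namespace Pool.Agent.Ep

open scoped ENNReal NNReal

open MvPowerSeries

open Pool.Fml (Ser SymRing formal micro)

variable {d : ℕ}

/-! ## row c1: convergent power series, the expansion in powers of `s` -/

/-- power series in `x_1, …, x_d` -/
abbrev Bs (d : ℕ) : Type := MvPowerSeries (Fin d) ℂ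

/-- the convergent power series in `x` (as `CvZ` in NGe.lean) -/
noncomputable def CvB (d : ℕ) : Subalgebra ℂ (Bs d) :=
  (formal d).alg.comap (MvPowerSeries.rename (R := ℂ) (some : Fin d → Option (Fin d)))

-- BEGIN c1

private lemma c1_mem (f : Bs d) : f ∈ CvB d ↔
    Pool.Fml.IsFormal (MvPowerSeries.rename (R := ℂ) (some : Fin d → Option (Fin d)) f) := Iff.rfl

private lemma c1_coeff (f : Bs d) (m : Fin d →₀ ℕ) :
    coeff (Finsupp.mapDomain (some : Fin d → Option (Fin d)) m)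
      (MvPowerSeries.rename (R := ℂ) (some : Fin d → Option (Fin d)) f) = coeff m f := by
  have h := MvPowerSeries.coeff_embDomain_rename (R := ℂ)
    (Function.Embedding.some : Fin d ↪ Option (Fin d)) f m
  rw [Finsupp.embDomain_eq_mapDomain] at h
  exact h

private lemma c1_none (m : Fin d →₀ ℕ) :
    Finsupp.mapDomain (some : Fin d → Option (Fin d)) m none = 0 :=
  Finsupp.mapDomain_of_notMem_range _ _ (by simp)

private lemma c1_deg (m : Fin d →₀ ℕ) :
    (Finsupp.mapDomain (some : Fin d → Option (Fin d)) m).degree = m.degree := by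
  rw [Finsupp.degree_eq_sum, Finsupp.degree_eq_sum, Fintype.sum_option, c1_none, zero_add]
  exact Finset.sum_congr rfl fun i _ => Finsupp.mapDomain_apply (Option.some_injective _) _ _

private lemma c1_opt (m : Fin d →₀ ℕ) :
    Finsupp.mapDomain (some : Fin d → Option (Fin d)) m = m.optionElim 0 := by
  ext v
  cases v with
  | none => rw [c1_none]; simp
  | some i => rw [Finsupp.mapDomain_apply (Option.some_injective _)]; simp

private lemma c1_degE (n : ℕ) (x : Fin d →₀ ℕ) : (x.optionElim n).degree = n + x.degree := by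
  rw [Finsupp.degree_eq_sum, Finsupp.degree_eq_sum, Fintype.sum_option]
  simp

private lemma c1_some (m : Option (Fin d) →₀ ℕ) : m = m.some.optionElim (m none) := by
  ext v
  cases v with
  | none => simp
  | some i => simp

/-- as `mem_CvZ` in NGe.lean -/
lemma mem_CvB (f : Bs d) : f ∈ CvB d ↔ ∃ C R : ℝ, ∀ m, ‖coeff m f‖ ≤ C * R ^ m.degree := by
  rw [c1_mem]
  constructor
  · rintro ⟨R, hR, h⟩
    obtain ⟨C, hC⟩ := h 0
    refine ⟨C, R, fun m => ?_⟩
    have h1 := hC _ (c1_none m)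
    rwa [c1_coeff, c1_deg] at h1
  · rintro ⟨C, R, h⟩
    refine ⟨max |R| 1, lt_of_lt_of_le one_pos (le_max_right _ _), fun j => ⟨|C|, fun m _ => ?_⟩⟩
    by_cases hm : m ∈ Set.range (Finsupp.mapDomain (some : Fin d → Option (Fin d)))
    · obtain ⟨m', rfl⟩ := hm
      rw [c1_coeff, c1_deg]
      refine (h m').trans ((le_abs_self _).trans ?_)
      rw [abs_mul, abs_pow]
      exact mul_le_mul_of_nonneg_left (pow_le_pow_left₀ (abs_nonneg _) (le_max_left _ _) _)
        (abs_nonneg _)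
    · rw [MvPowerSeries.coeff_rename_eq_zero _ _ hm, norm_zero]
      positivity


instance : IsDomain (CvB d) :=
  haveI : IsDomain (Bs d) := NoZeroDivisors.to_isDomain _
  Subalgebra.isDomain (CvB d)

private lemma c1_cc (f : Ser d) (n : ℕ) (x : Fin d →₀ ℕ) :
    coeff x (PowerSeries.coeff n (MvPowerSeries.optionEquivLeft (Fin d) ℂ f)) =
      coeff (x.optionElim n) f :=
  MvPowerSeries.coeff_coeff_optionEquivLeft f n x

private lemma c1_sl (f : (formal d).alg) (n : ℕ) :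
    PowerSeries.coeff n (MvPowerSeries.optionEquivLeft (Fin d) ℂ (f : Ser d)) ∈ CvB d := by
  obtain ⟨R, hR, h⟩ := f.2
  obtain ⟨C, hC⟩ := h n
  refine (mem_CvB _).2 ⟨C * R ^ n, R, fun m => ?_⟩
  rw [c1_cc, mul_assoc, ← pow_add, ← c1_degE]
  exact hC _ (by simp)

/-- the expansion of a formal symbol in powers of `s` (as `sl` in NGe.lean, with
`MvPowerSeries.optionEquivLeft`) -/
noncomputable def slc (d : ℕ) : (formal d).alg →+* PowerSeries (CvB d) where
  toFun f := PowerSeries.mk fun n =>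
    ⟨PowerSeries.coeff n (MvPowerSeries.optionEquivLeft (Fin d) ℂ (f : Ser d)), by
      exact c1_sl f n⟩
  map_one' := by
    ext n : 1
    rw [PowerSeries.coeff_mk]
    apply Subtype.ext
    have h1 : MvPowerSeries.optionEquivLeft (Fin d) ℂ ((1 : (formal d).alg) : Ser d) = 1 :=
      map_one (MvPowerSeries.optionEquivLeft (Fin d) ℂ)
    change PowerSeries.coeff n (MvPowerSeries.optionEquivLeft (Fin d) ℂ
      ((1 : (formal d).alg) : Ser d)) = ((PowerSeries.coeff n (1 : PowerSeries (CvB d)) : CvB d) : Bs d)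
    rw [h1, PowerSeries.coeff_one, PowerSeries.coeff_one]
    split_ifs <;> rfl
  map_mul' f g := by
    ext n : 1
    rw [PowerSeries.coeff_mk, PowerSeries.coeff_mul]
    apply Subtype.ext
    have h1 : MvPowerSeries.optionEquivLeft (Fin d) ℂ ((f * g : (formal d).alg) : Ser d) =
      MvPowerSeries.optionEquivLeft (Fin d) ℂ (f : Ser d) *
        MvPowerSeries.optionEquivLeft (Fin d) ℂ (g : Ser d) :=
      map_mul (MvPowerSeries.optionEquivLeft (Fin d) ℂ) _ _
    rw [AddSubmonoidClass.coe_finsetSum]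
    change PowerSeries.coeff n (MvPowerSeries.optionEquivLeft (Fin d) ℂ
      ((f * g : (formal d).alg) : Ser d)) = _
    rw [h1, PowerSeries.coeff_mul]
    refine Finset.sum_congr rfl fun p _ => ?_
    rw [PowerSeries.coeff_mk, PowerSeries.coeff_mk]
    rfl
  map_zero' := by
    ext n : 1
    rw [PowerSeries.coeff_mk]
    apply Subtype.ext
    have h1 : MvPowerSeries.optionEquivLeft (Fin d) ℂ ((0 : (formal d).alg) : Ser d) = 0 :=
      map_zero (MvPowerSeries.optionEquivLeft (Fin d) ℂ)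
    change PowerSeries.coeff n (MvPowerSeries.optionEquivLeft (Fin d) ℂ
      ((0 : (formal d).alg) : Ser d)) = _
    rw [h1, map_zero, map_zero]
    rfl
  map_add' f g := by
    ext n : 1
    rw [PowerSeries.coeff_mk, map_add]
    apply Subtype.ext
    have h1 : MvPowerSeries.optionEquivLeft (Fin d) ℂ ((f + g : (formal d).alg) : Ser d) =
      MvPowerSeries.optionEquivLeft (Fin d) ℂ (f : Ser d) +
        MvPowerSeries.optionEquivLeft (Fin d) ℂ (g : Ser d) :=
      map_add (MvPowerSeries.optionEquivLeft (Fin d) ℂ) _ _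
    change PowerSeries.coeff n (MvPowerSeries.optionEquivLeft (Fin d) ℂ
      ((f + g : (formal d).alg) : Ser d)) = _
    rw [h1, map_add, PowerSeries.coeff_mk, PowerSeries.coeff_mk]
    rfl

lemma coeff_slc (f : (formal d).alg) (n : ℕ) (x : Fin d →₀ ℕ) :
    coeff x ((PowerSeries.coeff n (slc d f) : CvB d) : Bs d) = coeff (x.optionElim n) (f : Ser d) := by
  have h1 : ((PowerSeries.coeff n (slc d f) : CvB d) : Bs d) =
      PowerSeries.coeff n (MvPowerSeries.optionEquivLeft (Fin d) ℂ (f : Ser d)) := by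
    change ((PowerSeries.coeff n (PowerSeries.mk _) : CvB d) : Bs d) = _
    rw [PowerSeries.coeff_mk]
  rw [h1, c1_cc]

private lemma c1_ext {f g : PowerSeries (CvB d)}
    (h : ∀ (n : ℕ) (x : Fin d →₀ ℕ), coeff x ((PowerSeries.coeff n f : CvB d) : Bs d) =
      coeff x ((PowerSeries.coeff n g : CvB d) : Bs d)) : f = g := by
  ext n : 1
  exact Subtype.ext (MvPowerSeries.ext fun x => h n x)

lemma slc_injective : Function.Injective (slc d) := by
  intro f g h
  apply Subtype.ext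
  refine MvPowerSeries.ext fun m => ?_
  rw [c1_some m, ← coeff_slc, ← coeff_slc, h]

lemma slc_var : slc d ((formal d).var none) = PowerSeries.X := by
  classical
  refine c1_ext fun n x => ?_
  rw [coeff_slc, PowerSeries.coeff_X]
  change coeff _ (MvPowerSeries.X none : Ser d) = _
  rw [MvPowerSeries.coeff_X]
  by_cases hn : n = 1
  · rw [if_pos hn]
    subst hn
    change _ = coeff x (1 : Bs d)
    rw [MvPowerSeries.coeff_one]
    refine if_congr ⟨fun h => ?_, fun h => ?_⟩ rfl rfl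
    · ext i
      have h1 := DFunLike.congr_fun h (some i)
      simpa using h1
    · subst h
      ext v
      cases v <;> simp
  · rw [if_neg hn, if_neg, Subalgebra.coe_zero, map_zero]
    intro h
    have h1 := DFunLike.congr_fun h none
    rw [Finsupp.optionElim_apply_none, Finsupp.single_eq_same] at h1
    exact hn h1

lemma slc_pd (f : (formal d).alg) :
    slc d ((formal d).pd none f) = PowerSeries.derivative (CvB d) (slc d f) := by
  refine c1_ext fun n x => ?_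
  rw [coeff_slc]
  change coeff _ (pderiv ℂ none (f : Ser d)) = _
  rw [MvPowerSeries.coeff_pderiv, PowerSeries.coeff_derivative]
  have h1 : x.optionElim n + Finsupp.single none 1 = x.optionElim (n + 1) := by
    ext v
    cases v <;> simp
  have h2 : (((PowerSeries.coeff (n + 1) (slc d f)) * ((n : CvB d) + 1) : CvB d) : Bs d) =
      ((n : ℂ) + 1) • ((PowerSeries.coeff (n + 1) (slc d f) : CvB d) : Bs d) := by
    rw [add_smul, one_smul, MulMemClass.coe_mul, AddMemClass.coe_add, OneMemClass.coe_one, mul_add,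
      mul_one]
    congr 1
    rw [mul_comm, Algebra.smul_def]
    congr 1
  rw [h1, h2, MvPowerSeries.coeff_smul, coeff_slc, Finsupp.optionElim_apply_none]
  ring

/-- the part free of `s` -/
noncomputable def bar (d : ℕ) : (formal d).alg →+* CvB d :=
  (PowerSeries.constantCoeff (R := CvB d)).comp (slc d)

private lemma c1_bar (f : (formal d).alg) (x : Fin d →₀ ℕ) :
    coeff x ((bar d f : CvB d) : Bs d) = coeff (x.optionElim 0) (f : Ser d) := by
  rw [← coeff_slc, PowerSeries.coeff_zero_eq_constantCoeff_apply]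
  rfl

/-- a series without constant coefficient in `s` is divisible by `s` -/
lemma exists_of_bar {f : (formal d).alg} (h : bar d f = 0) :
    ∃ g, f = (formal d).var none * g := by
  classical
  obtain ⟨R, hR, hC⟩ := f.2
  set g : Ser d := fun m => coeff (m + Finsupp.single none 1) (f : Ser d) with hg
  have hgc : ∀ m, coeff m g = coeff (m + Finsupp.single none 1) (f : Ser d) := fun _ => rfl
  have hgF : Pool.Fml.IsFormal g := by
    refine ⟨R, hR, fun j => ?_⟩
    obtain ⟨C, hC⟩ := hC (j + 1)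
    refine ⟨C * R, fun m hm => ?_⟩
    have h1 := hC (m + Finsupp.single none 1) (by simp [hm])
    rw [map_add, Finsupp.degree_single, pow_succ] at h1
    rw [hgc]
    exact h1.trans (le_of_eq (by ring))
  refine ⟨⟨g, hgF⟩, ?_⟩
  apply Subtype.ext
  refine MvPowerSeries.ext fun m => ?_
  change _ = coeff m ((MvPowerSeries.X none : Ser d) * g)
  by_cases hm : m none = 0
  · have h1 : m = m.some.optionElim 0 := by
      conv_lhs => rw [c1_some m, hm]
    have h2 : coeff m (f : Ser d) = 0 := by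
      rw [h1, ← c1_bar, h, Subalgebra.coe_zero, map_zero]
    rw [h2, MvPowerSeries.X, MvPowerSeries.coeff_monomial_mul, if_neg]
    intro h3
    have h4 := h3 none
    rw [Finsupp.single_eq_same, hm] at h4
    omega
  · obtain ⟨m', rfl⟩ : ∃ m', m = Finsupp.single none 1 + m' := by
      refine ⟨m - Finsupp.single none 1, ?_⟩
      rw [add_tsub_cancel_of_le]
      rw [Finsupp.single_le_iff]
      omega
    rw [MvPowerSeries.X, MvPowerSeries.coeff_add_monomial_mul, one_mul, hgc, add_comm]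

private lemma c1_micro {f : Ser d} (hf : Pool.Fml.IsFormal f)
    (h0 : ∀ m, m none ≠ 0 → coeff m f = 0) : Pool.Fml.IsMicro f := by
  obtain ⟨R, hR, hC⟩ := hf
  obtain ⟨C, hC⟩ := hC 0
  set D : ℝ := max (max |C| R) 1 with hD
  have hD1 : 1 ≤ D := le_max_right _ _
  have hDC : |C| ≤ D := (le_max_left _ _).trans (le_max_left _ _)
  have hDR : R ≤ D := (le_max_right _ _).trans (le_max_left _ _)
  refine ⟨D, fun m => ?_⟩
  by_cases hm : m none = 0
  · rw [hm, Nat.factorial_zero, Nat.cast_one, mul_one, pow_succ']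
    refine (hC m hm).trans (mul_le_mul ((le_abs_self _).trans hDC)
      (pow_le_pow_left₀ hR.le hDR _) (by positivity) (by positivity))
  · rw [h0 m hm, norm_zero]
    positivity

/-- every formal symbol is a microdifferential symbol free of `s` plus a multiple of `s` -/
lemma exists_bar_split (f : (formal d).alg) : ∃ (f0 : (micro d).alg) (f1 : (formal d).alg),
    f = Pool.Fml.Lattice.inc d f0 + (formal d).var none * f1 ∧
      bar d (Pool.Fml.Lattice.inc d f0) = bar d f := by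
  classical
  set ρ := MvPowerSeries.rename (R := ℂ) (some : Fin d → Option (Fin d)) with hρ
  have h1 : Pool.Fml.IsFormal (ρ ((bar d f : CvB d) : Bs d)) := (bar d f).2
  have h2 : ∀ m, m none ≠ 0 → coeff m (ρ ((bar d f : CvB d) : Bs d)) = 0 := by
    intro m hm
    refine MvPowerSeries.coeff_rename_eq_zero _ _ ?_
    rintro ⟨m', rfl⟩
    exact hm (c1_none m')
  set f0 : (micro d).alg := ⟨ρ ((bar d f : CvB d) : Bs d), c1_micro h1 h2⟩ with hf0
  have h3 : bar d (Pool.Fml.Lattice.inc d f0) = bar d f := by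
    apply Subtype.ext
    refine MvPowerSeries.ext fun x => ?_
    rw [c1_bar, ← c1_opt]
    change coeff _ (ρ ((bar d f : CvB d) : Bs d)) = _
    rw [hρ, c1_coeff]
  have h4 : bar d (f - Pool.Fml.Lattice.inc d f0) = 0 := by
    rw [map_sub, h3, sub_self]
  obtain ⟨f1, hf1⟩ := exists_of_bar h4
  exact ⟨f0, f1, by rw [← hf1]; ring, h3⟩

/-- the convergent power series in `x` as symbols free of `s` -/
lemma bar_cvi_injective : Function.Injective fun f : Pool.Agent.Fbc.CvS d =>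
    bar d (Pool.Agent.Fbc.cvi d f) := by
  intro f g h
  apply Subtype.ext
  refine MvPowerSeries.ext fun m => ?_
  by_cases hm : m none = 0
  · have h1 : m = m.some.optionElim 0 := by
      conv_lhs => rw [c1_some m, hm]
    have h2 := congrArg (fun y : CvB d => coeff m.some (y : Bs d)) h
    simp only [c1_bar] at h2
    rw [← h1] at h2
    exact h2
  · rw [f.2.2 m hm, g.2.2 m hm]

/-! ## row c2: the norms -/

/-- the weight `β ↦ ∏ ρ_i^(β_i)` -/
noncomputable def wb (ρ : Fin d → ℝ) (m : Fin d →₀ ℕ) : ℝ≥0∞ := ENNReal.ofReal (∏ i, ρ i ^ m i)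

/-- the norm `∑ |f_β| ρ^β` -/
noncomputable def pc (ρ : Fin d → ℝ) (f : CvB d) : ℝ≥0∞ := nrm (wb ρ) (f : Bs d)

-- BEGIN c2

private lemma c2_prod_nonneg {ρ : Fin d → ℝ} (hρ : ∀ i, 0 < ρ i) (m : Fin d →₀ ℕ) :
    0 ≤ ∏ i, ρ i ^ m i :=
  Finset.prod_nonneg fun i _ => pow_nonneg (hρ i).le _

private lemma c2_wb_add {ρ : Fin d → ℝ} (hρ : ∀ i, 0 < ρ i) (m m' : Fin d →₀ ℕ) :
    wb ρ (m + m') = wb ρ m * wb ρ m' := by
  rw [wb, wb, wb, ← ENNReal.ofReal_mul (c2_prod_nonneg hρ m), ← Finset.prod_mul_distrib]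
  congr 1
  refine Finset.prod_congr rfl fun i _ => ?_
  rw [Finsupp.add_apply, pow_add]

lemma smn_pc {ρ : Fin d → ℝ} (hρ : ∀ i, 0 < ρ i) : SMN (pc ρ) where
  zero := nrm_zero _
  one := by
    have h1 : pc ρ (1 : CvB d) = 1 := by
      have h2 := nrm_monomial (wb ρ) (0 : Fin d →₀ ℕ) 1
      rw [show (monomial (0 : Fin d →₀ ℕ) (1 : ℂ) : Bs d) = 1 from rfl] at h2
      change nrm (wb ρ) (1 : Bs d) = 1
      rw [h2]
      simp [wb]
    rw [h1]
    exact ENNReal.one_ne_top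
  add a b := nrm_add_le _ _ _
  neg a := nrm_neg _ _
  mul a b := nrm_mul_le _ (fun m m' => (c2_wb_add hρ m m').le) _ _
  nat n a := by
    have h1 := nrm_smul (wb ρ) (n : ℂ) (a : Bs d)
    have h2 : (((n : CvB d) * a : CvB d) : Bs d) = (n : ℂ) • (a : Bs d) := by
      rw [MulMemClass.coe_mul, Algebra.smul_def]
      congr 1
    have h3 : ((‖(n : ℂ)‖₊ : ℝ≥0) : ℝ≥0∞) = n := by
      simp
    rw [h3] at h1
    change nrm (wb ρ) (((n : CvB d) * a : CvB d) : Bs d) = n * nrm (wb ρ) (a : Bs d)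
    rw [h2, h1]

/-- the estimate behind `exists_pc_fin`, `exists_fn`, `exists_gv` -/
private lemma c2_bound {f : Bs d} {C R : ℝ} (hR : 1 ≤ R) (hC : 0 ≤ C)
    (h : ∀ m, ‖coeff m f‖ ≤ C * R ^ m.degree) {ρ : Fin d → ℝ}
    (hρ : ∀ i, 0 < ρ i ∧ ρ i ≤ 1 / (2 * R)) :
    nrm (wb ρ) f ≤ ENNReal.ofReal (C * ∑' m : Fin d →₀ ℕ, (1 / 2 : ℝ) ^ m.degree) := by
  have hs := Pool.Fml.summable_deg (ι := Fin d) (1 / 2) (by norm_num) (by norm_num)
  have h1 : ∀ m : Fin d →₀ ℕ, (‖coeff m f‖₊ : ℝ≥0∞) * wb ρ m ≤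
      ENNReal.ofReal (C * (1 / 2 : ℝ) ^ m.degree) := by
    intro m
    have e1 : (‖coeff m f‖₊ : ℝ≥0∞) = ENNReal.ofReal ‖coeff m f‖ := by
      rw [← enorm_eq_nnnorm, ofReal_norm]
    rw [e1, wb, ← ENNReal.ofReal_mul (norm_nonneg _)]
    refine ENNReal.ofReal_le_ofReal ?_
    have h2 : ∏ i, ρ i ^ m i ≤ (1 / (2 * R)) ^ m.degree := by
      rw [Finsupp.degree_eq_sum, ← Finset.prod_pow_eq_pow_sum]
      exact Finset.prod_le_prod (fun i _ => pow_nonneg (hρ i).1.le _)
        fun i _ => pow_le_pow_left₀ (hρ i).1.le (hρ i).2 _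
    calc ‖coeff m f‖ * ∏ i, ρ i ^ m i ≤ (C * R ^ m.degree) * (1 / (2 * R)) ^ m.degree :=
          mul_le_mul (h m) h2 (c2_prod_nonneg (fun i => (hρ i).1) m) (by positivity)
      _ = C * (1 / 2 : ℝ) ^ m.degree := by
          rw [mul_assoc, ← mul_pow]
          congr 2
          field_simp
  rw [← tsum_mul_left, ENNReal.ofReal_tsum_of_nonneg (fun m => by positivity) (hs.mul_left C)]
  exact ENNReal.tsum_le_tsum h1

private lemma c2_S : (0 : ℝ) ≤ ∑' m : Fin d →₀ ℕ, (1 / 2 : ℝ) ^ m.degree :=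
  tsum_nonneg fun m => by positivity

private lemma c2_max {f : Bs d} {C R : ℝ} (h : ∀ m, ‖coeff m f‖ ≤ C * R ^ m.degree)
    {R' : ℝ} (h1 : |R| ≤ R') : ∀ m, ‖coeff m f‖ ≤ |C| * R' ^ m.degree := fun m => by
  refine (h m).trans ((le_abs_self _).trans ?_)
  rw [abs_mul, abs_pow]
  exact mul_le_mul_of_nonneg_left (pow_le_pow_left₀ (abs_nonneg _) h1 _) (abs_nonneg _)

lemma exists_pc_fin (f : CvB d) : ∃ ρ₀ : ℝ, 0 < ρ₀ ∧ ∀ ρ : Fin d → ℝ, (∀ i, 0 < ρ i ∧ ρ i ≤ ρ₀) →
    pc ρ f ≠ ∞ := by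
  obtain ⟨C, R, h⟩ := (mem_CvB (f : Bs d)).1 f.2
  have hR : 1 ≤ max |R| 1 := le_max_right _ _
  refine ⟨1 / (2 * max |R| 1), by positivity, fun ρ hρ => ?_⟩
  exact ne_top_of_le_ne_top ENNReal.ofReal_ne_top
    (c2_bound hR (abs_nonneg C) (c2_max h (le_max_left _ _)) hρ)

/-- all levels of a formal symbol have finite norm for small radii -/
lemma exists_fn (f : (formal d).alg) : ∃ ρ₀ : ℝ, 0 < ρ₀ ∧ ∀ ρ : Fin d → ℝ,
    (∀ i, 0 < ρ i ∧ ρ i ≤ ρ₀) → FN (pc ρ) (slc d f) := by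
  obtain ⟨R, hR0, h⟩ := f.2
  have hR : 1 ≤ max |R| 1 := le_max_right _ _
  refine ⟨1 / (2 * max |R| 1), by positivity, fun ρ hρ j => ?_⟩
  obtain ⟨C, hC⟩ := h j
  have h1 : ∀ m, ‖coeff m ((PowerSeries.coeff j (slc d f) : CvB d) : Bs d)‖ ≤
      (C * R ^ j) * R ^ m.degree := by
    intro m
    rw [coeff_slc, mul_assoc, ← pow_add, ← c1_degE]
    exact hC _ (by simp)
  exact ne_top_of_le_ne_top ENNReal.ofReal_ne_top
    (c2_bound hR (abs_nonneg _) (c2_max h1 (le_max_left _ _)) hρ)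

/-- microdifferential symbols have Gevrey growth for small radii -/
lemma exists_gv (f : (micro d).alg) : ∃ ρ₀ : ℝ, 0 < ρ₀ ∧ ∀ ρ : Fin d → ℝ,
    (∀ i, 0 < ρ i ∧ ρ i ≤ ρ₀) → GV (pc ρ) (slc d (Pool.Fml.Lattice.inc d f)) := by
  obtain ⟨C, hC⟩ := f.2
  set D : ℝ := max |C| 1 with hD
  have hD1 : 1 ≤ D := le_max_right _ _
  set S : ℝ := ∑' m : Fin d →₀ ℕ, (1 / 2 : ℝ) ^ m.degree with hS
  have hS0 : 0 ≤ S := c2_S
  refine ⟨1 / (2 * D), by positivity, fun ρ hρ => ⟨D * max S 1, by positivity, fun j => ?_⟩⟩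
  have h1 : ∀ m, ‖coeff m ((PowerSeries.coeff j (slc d (Pool.Fml.Lattice.inc d f)) : CvB d) :
      Bs d)‖ ≤ (D ^ (j + 1) * j.factorial) * D ^ m.degree := by
    intro m
    rw [coeff_slc, Pool.Fml.Lattice.coe_inc]
    refine (hC _).trans ?_
    rw [c1_degE, Finsupp.optionElim_apply_none]
    have h2 : C ^ (j + m.degree + 1) ≤ D ^ (j + m.degree + 1) := by
      refine (le_abs_self _).trans ?_
      rw [abs_pow]
      exact pow_le_pow_left₀ (abs_nonneg _) (le_max_left _ _) _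
    refine (mul_le_mul_of_nonneg_right h2 (by positivity)).trans (le_of_eq ?_)
    ring
  refine (c2_bound hD1 (by positivity) h1 hρ).trans (ENNReal.ofReal_le_ofReal ?_)
  rw [mul_pow]
  have h3 : S ≤ max S 1 ^ (j + 1) :=
    (le_max_left S 1).trans (le_self_pow₀ (le_max_right _ _) (by omega))
  calc D ^ (j + 1) * j.factorial * S ≤ D ^ (j + 1) * j.factorial * max S 1 ^ (j + 1) :=
        mul_le_mul_of_nonneg_left h3 (by positivity)
    _ = _ := by ring

/-- and conversely -/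
lemma isMicro_of_gv {ρ : Fin d → ℝ} (hρ : ∀ i, 0 < ρ i) {f : (formal d).alg}
    (h : GV (pc ρ) (slc d f)) : Pool.Fml.IsMicro (f : Ser d) := by
  obtain ⟨C, hC0, hC⟩ := h
  set r : ℝ := 1 + ∑ i, 1 / ρ i with hr
  have hs : 0 ≤ ∑ i, 1 / ρ i := Finset.sum_nonneg fun i _ => by
    have := hρ i
    positivity
  have hr1 : 1 ≤ r := by linarith
  have hri : ∀ i, 1 / ρ i ≤ r := fun i => by
    have := Finset.single_le_sum (f := fun i => 1 / ρ i) (fun i _ => by
      have := hρ i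
      positivity) (Finset.mem_univ i)
    linarith
  have hinv : ∀ m : Fin d →₀ ℕ, (∏ i, ρ i ^ m i) * r ^ m.degree ≥ 1 := by
    intro m
    rw [Finsupp.degree_eq_sum, ← Finset.prod_pow_eq_pow_sum, ← Finset.prod_mul_distrib]
    refine Finset.one_le_prod fun i _ => ?_
    rw [← mul_pow]
    refine one_le_pow₀ ?_
    have h1 := mul_le_mul_of_nonneg_left (hri i) (hρ i).le
    rwa [mul_one_div_cancel (hρ i).ne'] at h1
  refine ⟨max C 1 * r, fun m => ?_⟩
  have hm := c1_some m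
  set x := m.some with hx
  set j := m none with hj
  have h1 := coeff_le_nrm (wb ρ) ((PowerSeries.coeff j (slc d f) : CvB d) : Bs d) x
  have h2 := h1.trans (hC j)
  rw [coeff_slc, ← hm] at h2
  have e1 : (‖coeff m (f : Ser d)‖₊ : ℝ≥0∞) = ENNReal.ofReal ‖coeff m (f : Ser d)‖ := by
    rw [← enorm_eq_nnnorm, ofReal_norm]
  rw [e1, wb, ← ENNReal.ofReal_mul (norm_nonneg _), ENNReal.ofReal_le_ofReal_iff (by positivity)] at h2
  have hdeg : m.degree = j + x.degree := by
    conv_lhs => rw [hm]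
    exact c1_degE j x
  have h3 : ‖coeff m (f : Ser d)‖ ≤ C ^ (j + 1) * j.factorial * r ^ x.degree := by
    calc ‖coeff m (f : Ser d)‖ = ‖coeff m (f : Ser d)‖ * 1 := (mul_one _).symm
      _ ≤ ‖coeff m (f : Ser d)‖ * ((∏ i, ρ i ^ x i) * r ^ x.degree) :=
          mul_le_mul_of_nonneg_left (hinv x) (norm_nonneg _)
      _ = (‖coeff m (f : Ser d)‖ * ∏ i, ρ i ^ x i) * r ^ x.degree := by ring
      _ ≤ _ := mul_le_mul_of_nonneg_right h2 (by positivity)
  refine h3.trans ?_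
  have h4 : C ^ (j + 1) ≤ max C 1 ^ (m.degree + 1) :=
    (pow_le_pow_left₀ hC0 (le_max_left _ _) _).trans
      (pow_le_pow_right₀ (le_max_right _ _) (by omega))
  have h5 : r ^ x.degree ≤ r ^ (m.degree + 1) := pow_le_pow_right₀ hr1 (by omega)
  calc C ^ (j + 1) * j.factorial * r ^ x.degree = (C ^ (j + 1) * r ^ x.degree) * j.factorial := by
        ring
    _ ≤ (max C 1 ^ (m.degree + 1) * r ^ (m.degree + 1)) * j.factorial :=
        mul_le_mul_of_nonneg_right (mul_le_mul h4 h5 (by positivity) (by positivity)) (by positivity)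
    _ = _ := by rw [mul_pow]

/-! ## row c3: the dominant monomial -/

private lemma c3_inj : ∃ lam : Fin d → ℝ, (∀ i, 0 < lam i) ∧
    ∀ m m' : Fin d →₀ ℕ, ∑ i, lam i * m i = ∑ i, lam i * m' i → m = m' := by
  obtain ⟨lam, hw⟩ := Pool.Agent.Stf.exists_wt d
  refine ⟨lam, hw.pos, fun m m' h => ?_⟩
  have h1 := hw.inj (m.optionElim 0) (m'.optionElim 0) (by simp) (by
    simpa [Pool.Agent.Stf.lv] using h)
  ext i
  have h2 := DFunLike.congr_fun h1 (some i)
  simpa using h2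

private lemma c3_fin (lam : Fin d → ℝ) (hl : ∀ i, 0 < lam i) (T : ℝ) :
    {m : Fin d →₀ ℕ | ∑ i, lam i * m i ≤ T}.Finite := by
  refine (Set.finite_Iic (Finsupp.equivFunOnFinite.symm fun i => ⌈T / lam i⌉₊)).subset ?_
  intro m hm
  rw [Set.mem_Iic, Finsupp.le_def]
  intro i
  have h1 : lam i * m i ≤ T := by
    refine le_trans ?_ hm
    exact Finset.single_le_sum (f := fun i => lam i * (m i : ℝ))
      (fun j _ => mul_nonneg (hl j).le (Nat.cast_nonneg _)) (Finset.mem_univ i)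
  have h2 : (m i : ℝ) ≤ T / lam i := by
    rw [le_div_iff₀ (hl i)]; linarith
  have h3 : (m i : ℝ) ≤ (⌈T / lam i⌉₊ : ℝ) := h2.trans (Nat.le_ceil _)
  simpa using (by exact_mod_cast h3 : m i ≤ ⌈T / lam i⌉₊)

private lemma c3_gap (lam : Fin d → ℝ) (hl : ∀ i, 0 < lam i)
    (hi : ∀ m m' : Fin d →₀ ℕ, ∑ i, lam i * m i = ∑ i, lam i * m' i → m = m')
    (S : Set (Fin d →₀ ℕ)) (hS : S.Nonempty) :
    ∃ α ∈ S, ∃ δ : ℝ, 0 < δ ∧ ∀ β ∈ S, β ≠ α →
      ∑ i, lam i * α i + δ ≤ ∑ i, lam i * β i := by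
  obtain ⟨β₀, hβ₀⟩ := hS
  obtain ⟨α, ⟨hα1, hα2⟩, hα3⟩ := Set.exists_min_image
    (S ∩ {m | ∑ i, lam i * m i ≤ ∑ i, lam i * β₀ i}) (fun m => ∑ i, lam i * (m i : ℝ))
    ((c3_fin lam hl _).subset Set.inter_subset_right) ⟨β₀, hβ₀, le_refl (∑ i, lam i * (β₀ i : ℝ))⟩
  have hmin : ∀ β ∈ S, ∑ i, lam i * (α i : ℝ) ≤ ∑ i, lam i * (β i : ℝ) := by
    intro β hβ
    by_cases h : ∑ i, lam i * (β i : ℝ) ≤ ∑ i, lam i * (β₀ i : ℝ)
    · exact hα3 β ⟨hβ, h⟩
    · exact hα2.trans (not_le.mp h).le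
  have hlt : ∀ β ∈ S, β ≠ α → ∑ i, lam i * (α i : ℝ) < ∑ i, lam i * (β i : ℝ) := by
    intro β hβ hne
    exact lt_of_le_of_ne (hmin β hβ) fun h => hne (hi _ _ h.symm)
  refine ⟨α, hα1, ?_⟩
  by_cases hF : (S ∩ {m | ∑ i, lam i * m i ≤ ∑ i, lam i * (α i : ℝ) + 1} ∩ {m | m ≠ α}).Nonempty
  · obtain ⟨β₁, ⟨⟨h1, h2⟩, h3⟩, h4⟩ := Set.exists_min_image _
      (fun m : Fin d →₀ ℕ => ∑ i, lam i * (m i : ℝ))
      ((c3_fin lam hl _).subset (Set.inter_subset_left.trans Set.inter_subset_right)) hF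
    have hg := hlt β₁ h1 h3
    refine ⟨∑ i, lam i * (β₁ i : ℝ) - ∑ i, lam i * (α i : ℝ), by linarith, fun β hβ hne => ?_⟩
    by_cases h : ∑ i, lam i * (β i : ℝ) ≤ ∑ i, lam i * (α i : ℝ) + 1
    · have := h4 β ⟨⟨hβ, h⟩, hne⟩
      linarith
    · have h2' : ∑ i, lam i * (β₁ i : ℝ) ≤ ∑ i, lam i * (α i : ℝ) + 1 := h2
      rw [not_le] at h
      linarith
  · refine ⟨1, one_pos, fun β hβ hne => ?_⟩
    by_contra h
    exact hF ⟨β, ⟨hβ, (not_le.mp h).le⟩, hne⟩

private lemma c3_wb (lam : Fin d → ℝ) (τ : ℝ) (m : Fin d →₀ ℕ) :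
    wb (fun i => Real.exp (-(τ * lam i))) m
      = ENNReal.ofReal (Real.exp (-(τ * ∑ i, lam i * m i))) := by
  rw [wb]
  congr 1
  simp only [← Real.exp_nat_mul]
  rw [← Real.exp_sum]
  congr 1
  rw [Finset.mul_sum, ← Finset.sum_neg_distrib]
  exact Finset.sum_congr rfl fun i _ => by ring

private lemma c3_mono (w : (Fin d →₀ ℕ) → ℝ≥0∞) (hw : ∀ m m', w (m + m') = w m * w m')
    (α : Fin d →₀ ℕ) (c : ℂ) (a : Bs d) :
    (‖c‖₊ : ℝ≥0∞) * w α * nrm w a ≤ nrm w (monomial α c * a) := by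
  rw [nrm, nrm, ← ENNReal.tsum_mul_left]
  have h1 : ∀ m, (‖c‖₊ : ℝ≥0∞) * w α * ((‖coeff m a‖₊ : ℝ≥0∞) * w m)
      = (fun n => (‖coeff n (monomial α c * a)‖₊ : ℝ≥0∞) * w n) (α + m) := by
    intro m
    simp only
    rw [MvPowerSeries.coeff_add_monomial_mul, nnnorm_mul, ENNReal.coe_mul, hw]
    ring
  rw [tsum_congr h1]
  exact ENNReal.tsum_comp_le_tsum_of_injective (add_right_injective α) _

/-- For every `H ≠ 0` there are arbitrarily small radii with a division estimate. Proof: let `lam` be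
positive weights, injective on exponents (`Pool.Agent.Stf.exists_wt`, or `lam_i = 1 + ε_i` with
`1, ε_1, …` independent over `ℚ`; or take the radii one after the other, `ρ_1 ≪ ρ_2 ≪ …`, with the
lexicographic order); `α` the exponent of `H` with the smallest `lam · α`; `ρ_i = r^(lam_i)`, `r → 0`:
`∑_{β ≠ α} |H_β| ρ^β ≤ |H_α| ρ^α / 2` (only finitely many `β` have `lam · β ≤ lam · α + 1`). Then
`pc (H a) ≥ |H_α| pc (x^α a) - pc ((H - H_α x^α) a) ≥ |H_α| ρ^α pc a - (1/2) |H_α| ρ^α pc a`. -/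
theorem exists_radii {H : CvB d} (hH : H ≠ 0) {ρ₀ : ℝ} (h0 : 0 < ρ₀) :
    ∃ ρ : Fin d → ℝ, (∀ i, 0 < ρ i ∧ ρ i ≤ ρ₀) ∧ DE (pc ρ) H := by
  obtain ⟨lam, hl, hi⟩ := c3_inj (d := d)
  obtain ⟨ρ₁, h1, hf⟩ := exists_pc_fin H
  have hS : {m : Fin d →₀ ℕ | coeff m (H : Bs d) ≠ 0}.Nonempty := by
    by_contra hne
    rw [Set.not_nonempty_iff_eq_empty] at hne
    apply hH
    apply Subtype.ext
    ext m
    by_contra hm
    have : m ∈ {m : Fin d →₀ ℕ | coeff m (H : Bs d) ≠ 0} := hm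
    rw [hne] at this
    exact this
  obtain ⟨α, hα, δ, hδ, hgap⟩ := c3_gap lam hl hi _ hS
  have ev : ∀ r : ℝ, 0 < r → ∀ᶠ τ : ℝ in Filter.atTop, ∀ i : Fin d,
      Real.exp (-(τ * lam i)) ≤ r := by
    intro r hr
    rw [Filter.eventually_all]
    intro i
    have ht : Filter.Tendsto (fun τ : ℝ => Real.exp (-(τ * lam i))) Filter.atTop (nhds 0) :=
      Real.tendsto_exp_neg_atTop_nhds_zero.comp
        (Filter.Tendsto.atTop_mul_const (hl i) Filter.tendsto_id)
    exact (ht.eventually (gt_mem_nhds hr)).mono fun τ h => h.le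
  obtain ⟨τ₁, hτ₁⟩ := (ev ρ₁ h1).exists
  set L : (Fin d →₀ ℕ) → ℝ := fun m => ∑ i, lam i * m i with hL
  set w₁ := wb (fun i => Real.exp (-(τ₁ * lam i))) with hw₁
  have hN : nrm w₁ (H : Bs d) ≠ ∞ := hf _ fun i => ⟨Real.exp_pos _, hτ₁ i⟩
  set N : ℝ := (nrm w₁ (H : Bs d)).toReal with hNdef
  set g : ℝ := ‖coeff α (H : Bs d)‖ * Real.exp (-(τ₁ * L α)) with hg
  have hg0 : 0 < g := mul_pos (norm_pos_iff.mpr hα) (Real.exp_pos _)
  have ev2 : ∀ᶠ v : ℝ in Filter.atTop, N * Real.exp (-(v * δ)) ≤ g / 2 := by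
    have ht : Filter.Tendsto (fun v : ℝ => N * Real.exp (-(v * δ))) Filter.atTop (nhds (N * 0)) :=
      (Real.tendsto_exp_neg_atTop_nhds_zero.comp
        (Filter.Tendsto.atTop_mul_const hδ Filter.tendsto_id)).const_mul N
    rw [mul_zero] at ht
    exact (ht.eventually (gt_mem_nhds (half_pos hg0))).mono fun τ h => h.le
  have ev3 : ∀ᶠ v : ℝ in Filter.atTop, ∀ i : Fin d, Real.exp (-((τ₁ + v) * lam i)) ≤ ρ₀ :=
    (Filter.tendsto_atTop_add_const_left _ τ₁ Filter.tendsto_id).eventually (ev ρ₀ h0)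
  obtain ⟨v, hv1, hv2, hv0⟩ := (ev2.and (ev3.and (Filter.eventually_ge_atTop (0 : ℝ)))).exists
  refine ⟨fun i => Real.exp (-((τ₁ + v) * lam i)), fun i => ⟨Real.exp_pos _, hv2 i⟩, ?_⟩
  set w := wb (fun i => Real.exp (-((τ₁ + v) * lam i))) with hw
  have hwm : ∀ m m', w (m + m') = w m * w m' := by
    intro m m'
    rw [hw, c3_wb, c3_wb, c3_wb, ← ENNReal.ofReal_mul (Real.exp_pos _).le, ← Real.exp_add]
    congr 2
    simp only [Finsupp.add_apply]
    push_cast
    simp only [mul_add, Finset.sum_add_distrib]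
    ring
  -- the dominant term
  set G : ℝ≥0∞ := (‖coeff α (H : Bs d)‖₊ : ℝ≥0∞) * w α with hG
  have hGr : G = ENNReal.ofReal (g * Real.exp (-(v * L α))) := by
    rw [hG, hw, c3_wb, hg, mul_assoc, ENNReal.ofReal_mul (norm_nonneg _), ← Real.exp_add]
    congr 1
    · rw [ENNReal.ofReal, norm_toNNReal]
    · congr 2
      simp only [hL]
      ring
  have hG0 : G ≠ 0 := by
    rw [hGr]
    exact (ENNReal.ofReal_pos.mpr (mul_pos hg0 (Real.exp_pos _))).ne'
  have hGt : G ≠ ∞ := by rw [hGr]; exact ENNReal.ofReal_ne_top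
  set H' : Bs d := (H : Bs d) - monomial α (coeff α (H : Bs d)) with hH'
  have hrest : nrm w H' ≤ G / 2 := by
    have t1 : nrm w H' ≤ ENNReal.ofReal (Real.exp (-(v * (L α + δ)))) * nrm w₁ (H : Bs d) := by
      rw [nrm, nrm, ← ENNReal.tsum_mul_left]
      refine ENNReal.tsum_le_tsum fun m => ?_
      by_cases hm : m = α
      · subst hm
        rw [hH', map_sub, coeff_monomial_same, sub_self, nnnorm_zero]
        simp
      by_cases hc : coeff m (H : Bs d) = 0
      · rw [hH', map_sub, coeff_monomial_ne hm, hc, sub_zero, nnnorm_zero]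
        simp
      have e1 : coeff m H' = coeff m (H : Bs d) := by
        rw [hH', map_sub, coeff_monomial_ne hm, sub_zero]
      have e2 := hgap m hc hm
      rw [e1, hw, hw₁, c3_wb, c3_wb]
      calc (‖coeff m (H : Bs d)‖₊ : ℝ≥0∞) * ENNReal.ofReal (Real.exp (-((τ₁ + v) * L m)))
          ≤ (‖coeff m (H : Bs d)‖₊ : ℝ≥0∞) * ENNReal.ofReal
              (Real.exp (-(v * (L α + δ))) * Real.exp (-(τ₁ * L m))) := by
            refine mul_le_mul' le_rfl (ENNReal.ofReal_le_ofReal ?_)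
            rw [← Real.exp_add]
            refine Real.exp_le_exp.mpr ?_
            have : v * (L α + δ) ≤ v * L m := mul_le_mul_of_nonneg_left e2 hv0
            linarith
        _ = _ := by
            rw [ENNReal.ofReal_mul (Real.exp_pos _).le]
            ring
    refine t1.trans ?_
    rw [hGr, ← ENNReal.ofReal_toReal hN, ← ENNReal.ofReal_mul (Real.exp_pos _).le,
      show (2 : ℝ≥0∞) = ENNReal.ofReal 2 by norm_num, ← ENNReal.ofReal_div_of_pos two_pos]
    refine ENNReal.ofReal_le_ofReal ?_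
    have e3 : Real.exp (-(v * (L α + δ))) = Real.exp (-(v * L α)) * Real.exp (-(v * δ)) := by
      rw [← Real.exp_add]; congr 1; ring
    rw [e3]
    calc Real.exp (-(v * L α)) * Real.exp (-(v * δ)) * N
        = Real.exp (-(v * L α)) * (N * Real.exp (-(v * δ))) := by ring
      _ ≤ Real.exp (-(v * L α)) * (g / 2) := mul_le_mul_of_nonneg_left hv1 (Real.exp_pos _).le
      _ = _ := by ring
  refine ⟨((G / 2)⁻¹).toNNReal, fun a ha => ?_⟩
  have hG2 : G / 2 ≠ 0 := by
    rw [Ne, ENNReal.div_eq_zero_iff]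
    exact fun h => h.elim hG0 (by norm_num)
  have hG2t : G / 2 ≠ ∞ := ENNReal.div_ne_top hGt (by norm_num)
  have hC : (((G / 2)⁻¹).toNNReal : ℝ≥0∞) = (G / 2)⁻¹ :=
    ENNReal.coe_toNNReal (ENNReal.inv_ne_top.mpr hG2)
  rw [hC]
  have hpa : pc (fun i => Real.exp (-((τ₁ + v) * lam i))) a = nrm w (a : Bs d) := rfl
  have hpHa : pc (fun i => Real.exp (-((τ₁ + v) * lam i))) (H * a)
      = nrm w ((H : Bs d) * (a : Bs d)) := rfl
  rw [hpa] at ha ⊢
  rw [hpHa]
  have s1 := c3_mono w hwm α (coeff α (H : Bs d)) (a : Bs d)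
  have s2 : nrm w (monomial α (coeff α (H : Bs d)) * (a : Bs d))
      ≤ nrm w ((H : Bs d) * (a : Bs d)) + nrm w (H' * (a : Bs d)) := by
    have : monomial α (coeff α (H : Bs d)) * (a : Bs d)
        = (H : Bs d) * (a : Bs d) - H' * (a : Bs d) := by
      rw [hH']; ring
    rw [this]
    exact nrm_sub_le w _ _
  have s3 : nrm w (H' * (a : Bs d)) ≤ G / 2 * nrm w (a : Bs d) :=
    (nrm_mul_le w (fun m m' => (hwm m m').le) _ _).trans (mul_le_mul' hrest le_rfl)
  have s4 : G / 2 * nrm w (a : Bs d) + G / 2 * nrm w (a : Bs d)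
      ≤ nrm w ((H : Bs d) * (a : Bs d)) + G / 2 * nrm w (a : Bs d) := by
    rw [← add_mul, ENNReal.add_halves]
    exact s1.trans (s2.trans (add_le_add le_rfl s3))
  have s5 : G / 2 * nrm w (a : Bs d) ≤ nrm w ((H : Bs d) * (a : Bs d)) :=
    (ENNReal.add_le_add_iff_right (ENNReal.mul_ne_top hG2t ha)).mp s4
  calc nrm w (a : Bs d) = (G / 2)⁻¹ * (G / 2 * nrm w (a : Bs d)) := by
        rw [← mul_assoc, ENNReal.inv_mul_cancel hG2 hG2t, one_mul]
    _ ≤ _ := mul_le_mul' le_rfl s5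

end Pool.Agent.Ep
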