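import Pool.Agent.Ep.Una

import Pool.Agent.Ep.Unb

import Pool.Agent.Ep.Unc

import Pool.Agent.Stf.GrdM

/-!
# Uniqueness: frames in a lattice (P11, block U, helper69; the descent `lin_descend`, `cancel` is
due to helper49)

`L` is a finite module over the formal symbols in `x`, `s`, without torsion, `T` an operator with
`T (f u) = f T u + s² f' u`. A family `e` generating `L` is microdifferential if `T` maps its span
`N = MSp d e` over the microdifferential symbols to itself and `N ∩ s L = s N`.
-/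

set_option autoImplicit false

namespace Pool.Agent.Ep

open Pool.Fml (Ser SymRing formal micro)

open Pool.Fml.Lattice (inc)

section

variable (d : ℕ) {L : Type} [AddCommGroup L] [Module (formal d).alg L]

/-- the properties of `L`, `T` -/
structure TMod (T : AddMonoid.End L) : Prop where
  fin : Module.Finite (formal d).alg L
  sinj : ∀ u : L, (formal d).var none • u = 0 → u = 0
  tf : ∀ (f : (formal d).alg) (u : L), f • u = 0 → f = 0 ∨ u = 0
  T_smul : ∀ (f : (formal d).alg) (u : L),
    T (f • u) = f • T u + ((formal d).var none ^ 2 * (formal d).pd none f) • u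

/-- the module over the microdifferential symbols generated by a family -/
def MSp {μ : ℕ} (e : Fin μ → L) : AddSubgroup L where
  carrier := {u | ∃ a : Fin μ → (micro d).alg, u = ∑ j, inc d (a j) • e j}
  add_mem' := by
    rintro _ _ ⟨a, rfl⟩ ⟨b, rfl⟩
    refine ⟨a + b, ?_⟩
    rw [← Finset.sum_add_distrib]
    refine Finset.sum_congr rfl fun j _ => ?_
    rw [Pi.add_apply, map_add, add_smul]
  zero_mem' := ⟨0, by simp⟩
  neg_mem' := by
    rintro _ ⟨a, rfl⟩
    refine ⟨-a, ?_⟩
    rw [← Finset.sum_neg_distrib]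
    refine Finset.sum_congr rfl fun j _ => ?_
    rw [Pi.neg_apply, map_neg, neg_smul]

/-- a microdifferential family of generators -/
structure MFam (T : AddMonoid.End L) {μ : ℕ} (e : Fin μ → L) : Prop where
  span : ∀ u : L, ∃ y : Fin μ → (formal d).alg, u = ∑ k, y k • e k
  stab : ∀ i, T (e i) ∈ MSp d e
  sat : ∀ u : L, (formal d).var none • u ∈ MSp d e → u ∈ MSp d e

/-- independence modulo `s` over the convergent power series in `x` -/
def Ind {r : ℕ} (n : Fin r → L) : Prop := ∀ c : Fin r → (formal d).alg,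
  (∃ u : L, ∑ i, c i • n i = (formal d).var none • u) → ∀ i, bar d (c i) = 0

/-- A frame `n` of the family `e`, with denominator `Δ`. -/
structure Frm {μ : ℕ} (e : Fin μ → L) {r : ℕ} (n : Fin r → L) (Δ : (micro d).alg) : Prop where
  mem : ∀ i, ∃ j, n i = e j
  ne : bar d (inc d Δ) ≠ 0
  G : ∀ j, inc d Δ • e j ∈ MSp d n
  ind : Ind d n

end

variable {d : ℕ} {L : Type} [AddCommGroup L] [Module (formal d).alg L] {T : AddMonoid.End L}

lemma MSp.mem_iff {μ : ℕ} {e : Fin μ → L} {u : L} :
    u ∈ MSp d e ↔ ∃ a : Fin μ → (micro d).alg, u = ∑ j, inc d (a j) • e j := Iff.rfl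

lemma MSp.self {μ : ℕ} (e : Fin μ → L) (j : Fin μ) : e j ∈ MSp d e := by
  classical
  refine ⟨Pi.single j 1, ?_⟩
  rw [Finset.sum_eq_single j]
  · rw [Pi.single_eq_same, map_one, one_smul]
  · intro b _ h
    rw [Pi.single_eq_of_ne h, map_zero, zero_smul]
  · intro h
    exact absurd (Finset.mem_univ j) h

lemma MSp.smul {μ : ℕ} {e : Fin μ → L} (a : (micro d).alg) {u : L} (h : u ∈ MSp d e) :
    inc d a • u ∈ MSp d e := by
  obtain ⟨b, rfl⟩ := h
  refine ⟨fun j => a * b j, ?_⟩
  rw [Finset.smul_sum]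
  refine Finset.sum_congr rfl fun j _ => ?_
  rw [map_mul, mul_smul]

lemma MSp.le {μ ν : ℕ} {e : Fin μ → L} {w : Fin ν → L} (h : ∀ j, e j ∈ MSp d w) :
    MSp d e ≤ MSp d w := by
  rintro _ ⟨a, rfl⟩
  exact sum_mem fun j _ => MSp.smul _ (h j)

/-- `A`: the operator `Δ T` on a frame -/
lemma Frm.A {μ : ℕ} {e : Fin μ → L} (he : MFam d T e) {r : ℕ} {n : Fin r → L}
    {Δ : (micro d).alg} (h : Frm d e n Δ) (i : Fin r) : inc d Δ • T (n i) ∈ MSp d n := by
  obtain ⟨j, hj⟩ := h.mem i
  rw [hj]
  obtain ⟨a, ha⟩ := he.stab j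
  rw [ha, Finset.smul_sum]
  refine sum_mem fun k _ => ?_
  rw [smul_comm]
  exact MSp.smul _ (h.G k)

/-! ## row fa: descent of linear systems -/

/-- division by a power of `s` -/
private lemma fa_div (n : ℕ) {f : Ser d} {g : Ser d} (hf : Pool.Fml.IsMicro f)
    (h : f = (Pool.Agent.Fbc.sS : Ser d) ^ n * g) : Pool.Fml.IsMicro g := by
  induction n generalizing f with
  | zero => rwa [h, pow_zero, one_mul] at hf
  | succ n ih =>
    refine ih (f := (Pool.Agent.Fbc.sS : Ser d) ^ n * g) ?_ rfl
    refine Pool.Fml.IsMicro.div hf ?_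
    rw [h, pow_succ', mul_assoc]
    rfl

/-- A linear system with microdifferential coefficients which is soluble in formal symbols is
soluble in microdifferential symbols: modulo `s^k` formal symbols are microdifferential
(`exists_bar_split`, iterated), so `c` is in `B + s^k E^m` for all `k`, `B` the submodule of `E^m`
generated by the `b l`; Krull's intersection theorem in `E^m / B` over the noetherian local ring
`E = (micro d).alg` (`Stf.GrdM`: `noetherian_micro`, `isLocal_micro`; `Ideal.iInf_pow_smul_eq_bot_of_isLocalRing`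
or `Ideal.isHausdorff_of_le_jacobson`). -/
theorem lin_descend {m n : ℕ} (c : Fin m → (micro d).alg) (b : Fin n → Fin m → (micro d).alg)
    (e : Fin n → (formal d).alg) (h : ∀ i, inc d (c i) = ∑ l, e l * inc d (b l i)) :
    ∃ e' : Fin n → (micro d).alg, ∀ i, c i = ∑ l, e' l * b l i := by
  classical
  have : IsNoetherianRing (micro d).alg := Pool.Agent.Stf.noetherian_micro d
  have : IsLocalRing (micro d).alg := Pool.Agent.Stf.isLocal_micro d
  set N : Submodule (micro d).alg (Fin m → (micro d).alg) := Submodule.span _ (Set.range b) with hN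
  suffices hc : c ∈ N by
    obtain ⟨e', he'⟩ := (Submodule.mem_span_range_iff_exists_fun _).1 hc
    refine ⟨e', fun j => ?_⟩
    rw [← he', Finset.sum_apply]
    rfl
  set s : (micro d).alg := (micro d).var none with hs
  have hsu : ¬ IsUnit s := by
    rw [Pool.Agent.Stf.isUnit_iff_micro, not_not]
    exact MvPowerSeries.coeff_zero_X _
  have hI : Ideal.span {s} ≠ ⊤ := by
    rw [Ne, Ideal.span_singleton_eq_top]
    exact hsu
  -- `c` is in `N + s^n`
  have h1 : ∀ n : ℕ, ∃ v : Fin m → (micro d).alg, c - s ^ n • v ∈ N := by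
    intro n
    choose e₀ e₁ he using fun l => Pool.Agent.Fbc.Cof.split n (e l)
    have h2 : ∀ j, inc d (c j - ∑ l, e₀ l * b l j) =
        (formal d).var none ^ n * ∑ l, e₁ l * inc d (b l j) := by
      intro j
      rw [map_sub, map_sum, h j, Finset.mul_sum, ← Finset.sum_sub_distrib]
      refine Finset.sum_congr rfl fun l _ => ?_
      rw [map_mul, he l]
      ring
    have h3 : ∀ j, Pool.Fml.IsMicro ((∑ l, e₁ l * inc d (b l j) : (formal d).alg) : Ser d) :=
      fun j => fa_div n (c j - ∑ l, e₀ l * b l j).2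
        (congrArg (fun x : (formal d).alg => (x : Ser d)) (h2 j))
    refine ⟨fun j => ⟨_, h3 j⟩, ?_⟩
    have h4 : c - s ^ n • (fun j => (⟨_, h3 j⟩ : (micro d).alg)) = ∑ l, e₀ l • b l := by
      funext j
      apply Pool.Fml.Lattice.inc_inj
      rw [Pi.sub_apply, Pi.smul_apply, smul_eq_mul, map_sub, map_mul, map_pow, Finset.sum_apply]
      have h5 : inc d (⟨_, h3 j⟩ : (micro d).alg) = ∑ l, e₁ l * inc d (b l j) := rfl
      have h6 : inc d s = (formal d).var none := rfl
      rw [h5, h6, ← h2 j, map_sub]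
      simp only [Pi.smul_apply, smul_eq_mul]
      ring
    rw [h4]
    exact Submodule.sum_mem _ fun l _ => Submodule.smul_mem _ _ (Submodule.subset_span ⟨l, rfl⟩)
  have h2 : N.mkQ c ∈ (⨅ i : ℕ, Ideal.span {s} ^ i •
      (⊤ : Submodule (micro d).alg ((Fin m → (micro d).alg) ⧸ N))) := by
    rw [Submodule.mem_iInf]
    intro n
    obtain ⟨v, hv⟩ := h1 n
    have h3 : N.mkQ c = s ^ n • N.mkQ v := by
      rw [← map_smul, ← sub_eq_zero, ← map_sub]
      exact (Submodule.Quotient.mk_eq_zero N).2 hv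
    rw [h3, Ideal.span_singleton_pow]
    exact Submodule.smul_mem_smul (Ideal.mem_span_singleton_self _) trivial
  rw [Ideal.iInf_pow_smul_eq_bot_of_isLocalRing _ hI, Submodule.mem_bot] at h2
  exact (Submodule.Quotient.mk_eq_zero N).1 h2

/-! ## row fb: the relations -/

private lemma fb_unit (d : ℕ) : ¬ IsUnit ((formal d).var none) := by
  rw [Pool.Agent.Stf.isUnit_iff, not_not]
  exact MvPowerSeries.coeff_zero_X none

private lemma fb_var (d : ℕ) : inc d ((micro d).var none) = (formal d).var none := rfl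

/-- The relations of a microdifferential family are generated by the microdifferential relations.
`R` the submodule of the relations in `F^μ`, `R₀` the submodule generated by the microdifferential
relations (finitely many of them generate: `F = (formal d).alg` is noetherian,
`Pool.Agent.Stf.noetherian`). For `r ∈ R`, `r = r_0 + s r'` (`exists_bar_split`), `∑ r_0 e = - s ∑ r' e`,
so by `sat` `- ∑ r' e = ∑ b e` with `b` microdifferential, `r_0 - s b` is a microdifferential relation and
`r - (r_0 - s b) = s (r' + b)`, `r' + b ∈ R` by `sinj`. So `R ≤ R₀ + s R`, Nakayama. -/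
theorem MFam.rel (hT : TMod d T) {μ : ℕ} {e : Fin μ → L} (h : MFam d T e)
    (r : Fin μ → (formal d).alg) (hr : ∑ j, r j • e j = 0) :
    ∃ (q : ℕ) (c : Fin q → (formal d).alg) (b : Fin q → Fin μ → (micro d).alg),
      (∀ l, ∑ j, inc d (b l j) • e j = 0) ∧ ∀ j, r j = ∑ l, c l * inc d (b l j) := by
  classical
  have : IsNoetherianRing (formal d).alg := Pool.Agent.Stf.noetherian d
  have : IsLocalRing (formal d).alg := Pool.Agent.Stf.isLocal d
  let R : Submodule (formal d).alg (Fin μ → (formal d).alg) :=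
    LinearMap.ker (Fintype.linearCombination (formal d).alg e)
  let S : Set (Fin μ → (formal d).alg) :=
    {v | ∃ b : Fin μ → (micro d).alg, (∑ j, inc d (b j) • e j = 0) ∧ v = fun j => inc d (b j)}
  have key : R ≤ Submodule.span (formal d).alg S := by
    refine Submodule.le_of_le_smul_of_le_jacobson_bot (I := Ideal.span {(formal d).var none})
      (IsNoetherian.noetherian R) ?_ ?_
    · rw [IsLocalRing.jacobson_eq_maximalIdeal (⊥ : Ideal (formal d).alg) bot_ne_top,
        Ideal.span_singleton_le_iff_mem]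
      exact (IsLocalRing.mem_maximalIdeal _).2 (fb_unit d)
    · intro r hr
      have hr' : ∑ j, r j • e j = 0 := by
        have := LinearMap.mem_ker.1 hr
        rwa [Fintype.linearCombination_apply] at this
      choose f0 f1 hf using fun j => exists_bar_split (r j)
      have hs1 : (∑ j, inc d (f0 j) • e j) + (formal d).var none • ∑ j, f1 j • e j = 0 := by
        rw [← hr', Finset.smul_sum, ← Finset.sum_add_distrib]
        refine Finset.sum_congr rfl fun j _ => ?_
        rw [(hf j).1, add_smul, mul_smul]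
      obtain ⟨b, hb⟩ := h.sat (-(∑ j, f1 j • e j)) ⟨f0, by
        rw [smul_neg]
        exact (eq_neg_of_add_eq_zero_left hs1).symm⟩
      have hfb : ∑ j, (f1 j + inc d (b j)) • e j = 0 := by
        simp only [add_smul, Finset.sum_add_distrib]
        rw [← hb, add_neg_cancel]
      have hb0 : ∑ j, inc d (f0 j - (micro d).var none * b j) • e j = 0 := by
        have h1 : ∑ j, inc d (f0 j - (micro d).var none * b j) • e j =
            (∑ j, inc d (f0 j) • e j) - (formal d).var none • ∑ j, inc d (b j) • e j := by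
          rw [Finset.smul_sum, ← Finset.sum_sub_distrib]
          refine Finset.sum_congr rfl fun j _ => ?_
          rw [map_sub, map_mul, fb_var, sub_smul, mul_smul]
        rw [h1, ← hb, smul_neg, sub_neg_eq_add, hs1]
      have hdec : r = (fun j => inc d (f0 j - (micro d).var none * b j)) +
          (formal d).var none • fun j => f1 j + inc d (b j) := by
        funext j
        rw [Pi.add_apply, Pi.smul_apply, smul_eq_mul, map_sub, map_mul, fb_var, (hf j).1]
        ring
      rw [hdec]
      refine Submodule.add_mem_sup (Submodule.subset_span ⟨_, hb0, rfl⟩)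
        (Submodule.smul_mem_smul (Ideal.mem_span_singleton_self _) ?_)
      exact LinearMap.mem_ker.2 (by rw [Fintype.linearCombination_apply]; exact hfb)
  have hrR : r ∈ R := LinearMap.mem_ker.2 (by rw [Fintype.linearCombination_apply]; exact hr)
  obtain ⟨q, c, g, hg⟩ := (Submodule.mem_span_set').1 (key hrR)
  choose b hb1 hb2 using fun l => (g l).2
  refine ⟨q, c, b, hb1, fun j => ?_⟩
  rw [← hg, Finset.sum_apply]
  refine Finset.sum_congr rfl fun l _ => ?_
  rw [Pi.smul_apply, smul_eq_mul, hb2 l]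

/-! ## row fc: cancellation -/

/-- `u = ∑ y_k e_k`, `δ u = ∑ a_k e_k`; `δ y - a` is a relation, so `a = δ y - ∑ c_l b_l`; by
`lin_descend` one may replace `y`, `c` by microdifferential symbols `y'`, `c'`; then
`δ ∑ y'_k e_k = ∑ a_k e_k = δ u`, and `L` has no torsion. -/
theorem MFam.cancel (hT : TMod d T) {μ : ℕ} {e : Fin μ → L} (h : MFam d T e) {δ : (micro d).alg}
    (hδ : δ ≠ 0) {u : L} (hu : inc d δ • u ∈ MSp d e) : u ∈ MSp d e := by
  classical
  obtain ⟨a, ha⟩ := hu
  obtain ⟨c, hc⟩ := h.span u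
  obtain ⟨q, y, b, hb, he⟩ := h.rel hT (fun j => inc d (a j) - inc d δ * c j) (by
    have h1 : ∑ j, (inc d (a j) - inc d δ * c j) • e j =
        ∑ j, inc d (a j) • e j - inc d δ • ∑ j, c j • e j := by
      rw [Finset.smul_sum, ← Finset.sum_sub_distrib]
      exact Finset.sum_congr rfl fun j _ => by rw [sub_smul, mul_smul]
    rw [h1, ← hc, ha, sub_self])
  -- the linear system `a = δ c + ∑ y_l b_l`
  obtain ⟨e', he'⟩ := lin_descend a (Fin.append (fun i : Fin μ => Pi.single i δ) b)
    (Fin.append c y) (fun j => by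
      rw [Fin.sum_univ_add]
      simp only [Fin.append_left, Fin.append_right]
      rw [Finset.sum_eq_single j, Pi.single_eq_same, ← he j]
      · ring
      · intro i _ hi
        rw [Pi.single_eq_of_ne hi.symm, map_zero, mul_zero]
      · intro h'
        exact absurd (Finset.mem_univ _) h')
  set c' : Fin μ → (micro d).alg := fun i => e' (Fin.castAdd q i) with hc'
  have h2 : inc d δ • u = inc d δ • ∑ j, inc d (c' j) • e j := by
    rw [ha]
    have h3 : ∀ j, a j = δ * c' j + ∑ l, e' (Fin.natAdd μ l) * b l j := by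
      intro j
      rw [he' j, Fin.sum_univ_add]
      simp only [Fin.append_left, Fin.append_right]
      rw [Finset.sum_eq_single j, Pi.single_eq_same, mul_comm]
      · intro i _ hi
        rw [Pi.single_eq_of_ne hi.symm, mul_zero]
      · intro h'
        exact absurd (Finset.mem_univ _) h'
    have h4 : ∑ j, inc d (a j) • e j = inc d δ • ∑ j, inc d (c' j) • e j +
        ∑ l, inc d (e' (Fin.natAdd μ l)) • ∑ j, inc d (b l j) • e j := by
      simp only [h3, map_add, map_mul, map_sum, add_smul, Finset.sum_add_distrib, Finset.sum_smul,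
        Finset.smul_sum, mul_smul]
      rw [Finset.sum_comm]
    have h8 : ∑ l, inc d (e' (Fin.natAdd μ l)) • ∑ j, inc d (b l j) • e j = 0 :=
      Finset.sum_eq_zero (fun l _ => by rw [hb l, smul_zero])
    rw [h4, h8, add_zero]
  have h5 : inc d δ • (u - ∑ j, inc d (c' j) • e j) = 0 := by rw [smul_sub, h2, sub_self]
  have h6 := hT.tf (inc d δ) _ h5
  have h7 : inc d δ ≠ 0 := fun h0 =>
    hδ (Pool.Fml.Lattice.inc_inj (h0.trans (map_zero _).symm))
  refine ⟨c', ?_⟩
  exact sub_eq_zero.1 (h6.resolve_left h7)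

/-! ## row f1 -/

/-- independence modulo `s` of the subfamily with indices in `S` -/
private def f1_Ind (d : ℕ) {L : Type} [AddCommGroup L] [Module (formal d).alg L] {μ : ℕ}
    (e : Fin μ → L) (S : Finset (Fin μ)) : Prop :=
  ∀ c : Fin μ → (formal d).alg,
    (∃ u : L, ∑ i ∈ S, c i • e i = (formal d).var none • u) → ∀ i ∈ S, bar d (c i) = 0

private lemma f1_max {μ : ℕ} (e : Fin μ → L) : ∃ S : Finset (Fin μ), f1_Ind d e S ∧
    ∀ j ∉ S, ¬ f1_Ind d e (insert j S) := by
  classical
  obtain ⟨S, hS⟩ := (Set.toFinite {S : Finset (Fin μ) | f1_Ind d e S}).exists_maximal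
    ⟨∅, fun c _ i hi => absurd hi (Finset.notMem_empty i)⟩
  refine ⟨S, hS.1, fun j hj h => hj ?_⟩
  exact hS.2 h (Finset.subset_insert j S) (Finset.mem_insert_self j S)

private lemma f1_bar {μ : ℕ} {e : Fin μ → L} {S : Finset (Fin μ)} (hS : f1_Ind d e S)
    {j : Fin μ} (hj : j ∉ S) (h : ¬ f1_Ind d e (insert j S)) :
    ∃ (c : Fin μ → (formal d).alg) (u : L),
      c j • e j + ∑ i ∈ S, c i • e i = (formal d).var none • u ∧ bar d (c j) ≠ 0 := by
  classical
  unfold f1_Ind at h
  push Not at h
  obtain ⟨c, ⟨u, hu⟩, i, hi, hb⟩ := h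
  rw [Finset.sum_insert hj] at hu
  refine ⟨c, u, hu, fun h0 => ?_⟩
  obtain ⟨g, hg⟩ := exists_of_bar h0
  have h1 : ∑ i ∈ S, c i • e i = (formal d).var none • (u - g • e j) := by
    rw [smul_sub, ← hu, hg, mul_smul]
    abel
  rcases Finset.mem_insert.1 hi with rfl | hi
  · exact hb h0
  · exact hb (hS c ⟨_, h1⟩ i hi)

private lemma f1_sum {μ : ℕ} (e : Fin μ → L) (S : Finset (Fin μ)) (c : Fin μ → (formal d).alg) :
    ∑ k : Fin S.card, c (S.equivFin.symm k : Fin μ) • e (S.equivFin.symm k : Fin μ)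
      = ∑ i ∈ S, c i • e i := by
  rw [← Finset.sum_coe_sort S]
  exact Equiv.sum_comp S.equivFin.symm fun i : S => c (i : Fin μ) • e (i : Fin μ)

/-- Take a maximal subset of the family which is independent modulo `s` (`Ind`). A further element
`e j` has a relation `∑ c_i n_i + c_j e_j ∈ s L` with not all `bar (c)` equal to `0`; then
`bar (c_j) ≠ 0` (otherwise subtract the `s`-multiples, contradiction to `Ind n`). By
`exists_bar_split` the coefficients may be taken microdifferential, then `sat`. -/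
theorem exists_ind {μ : ℕ} {e : Fin μ → L} (h : MFam d T e) : ∃ (r : ℕ) (n : Fin r → L),
    (∀ i, ∃ j, n i = e j) ∧ Ind d n ∧ ∀ j, ∃ (δ : (micro d).alg) (u v : L),
      bar d (inc d δ) ≠ 0 ∧ u ∈ MSp d n ∧ v ∈ MSp d e ∧
        inc d δ • e j = u + (formal d).var none • v := by
  classical
  obtain ⟨S, hS, hmax⟩ := f1_max (d := d) e
  refine ⟨S.card, fun k => e (S.equivFin.symm k : Fin μ), fun k => ⟨_, rfl⟩, ?_, ?_⟩
  · intro c hc k
    obtain ⟨u, hu⟩ := hc
    let c' : Fin μ → (formal d).alg := fun i => if hi : i ∈ S then c (S.equivFin ⟨i, hi⟩) else 0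
    have hc' : ∀ k, c' (S.equivFin.symm k : Fin μ) = c k := by
      intro k
      simp only [c', Finset.coe_mem, dite_true, Subtype.coe_eta, Equiv.apply_symm_apply]
    have h1 := hS c' ⟨u, by rw [← hu, ← f1_sum]; exact Finset.sum_congr rfl fun k _ => by rw [hc']⟩
      (S.equivFin.symm k : Fin μ) (S.equivFin.symm k).2
    rwa [hc'] at h1
  · intro j
    by_cases hj : j ∈ S
    · refine ⟨1, e j, 0, ?_, ?_, (MSp d e).zero_mem, ?_⟩
      · rw [map_one, map_one]
        exact one_ne_zero
      · have h1 : e j = (fun k => e (S.equivFin.symm k : Fin μ)) (S.equivFin ⟨j, hj⟩) := by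
          simp only [Equiv.symm_apply_apply]
        rw [h1]
        exact MSp.self _ _
      · rw [map_one, one_smul, smul_zero, add_zero]
    · obtain ⟨c, u, hu, hb⟩ := f1_bar hS hj (hmax j hj)
      choose f0 f1 hf hfb using fun i => exists_bar_split (c i)
      set w : L := u - f1 j • e j - ∑ i ∈ S, f1 i • e i with hw
      have hsw : inc d (f0 j) • e j + ∑ i ∈ S, inc d (f0 i) • e i = (formal d).var none • w := by
        rw [hw, smul_sub, smul_sub, ← hu, Finset.smul_sum, hf j, add_smul, mul_smul]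
        have h2 : ∑ i ∈ S, c i • e i = ∑ i ∈ S, inc d (f0 i) • e i
            + ∑ i ∈ S, (formal d).var none • f1 i • e i := by
          rw [← Finset.sum_add_distrib]
          exact Finset.sum_congr rfl fun i _ => by rw [← mul_smul, ← add_smul, ← hf i]
        rw [h2]
        abel
      have hwm : w ∈ MSp d e := by
        refine h.sat w ?_
        rw [← hsw]
        exact add_mem (MSp.smul _ (MSp.self e j)) (sum_mem fun i _ => MSp.smul _ (MSp.self e i))
      refine ⟨f0 j, - ∑ i ∈ S, inc d (f0 i) • e i, w, ?_, ?_, hwm, ?_⟩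
      · rw [hfb j]
        exact hb
      · refine neg_mem (sum_mem fun i hi => MSp.smul _ ?_)
        have h1 : e i = (fun k => e (S.equivFin.symm k : Fin μ)) (S.equivFin ⟨i, hi⟩) := by
          simp only [Equiv.symm_apply_apply]
        rw [h1]
        exact MSp.self _ _
      · rw [← hsw]
        abel

/-! ## row f2 -/

-- BEGIN f2
private lemma f2_inc_var : inc d ((micro d).var none) = (formal d).var none := rfl

private lemma f2_bar_var : bar d ((formal d).var none) = 0 := by
  rw [bar, RingHom.comp_apply, slc_var, PowerSeries.constantCoeff_X]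

/-- With `W = diag δ - s M` one has `W e = G n`; multiply by the adjugate: `Δ = det W`,
`bar Δ = ∏ bar δ_j`. -/
theorem exists_frm {μ : ℕ} {e : Fin μ → L} (h : MFam d T e) :
    ∃ (r : ℕ) (n : Fin r → L) (Δ : (micro d).alg), Frm d e n Δ := by
  classical
  obtain ⟨r, n, hm, hi, hj⟩ := exists_ind h
  choose δ u v hδ hu hv he using hj
  choose M hM using fun j => MSp.mem_iff.1 (hv j)
  let W : Matrix (Fin μ) (Fin μ) (micro d).alg :=
    Matrix.diagonal δ - Matrix.of fun j k => (micro d).var none * M j k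
  have hW : ∀ j, ∑ k, inc d (W j k) • e k = u j := by
    intro j
    have h1 : ∀ k, inc d (W j k) • e k =
        inc d ((Matrix.diagonal δ : Matrix (Fin μ) (Fin μ) (micro d).alg) j k) • e k -
          (formal d).var none • inc d (M j k) • e k := by
      intro k
      have h2 : W j k = (Matrix.diagonal δ : Matrix (Fin μ) (Fin μ) (micro d).alg) j k -
        (micro d).var none * M j k := rfl
      rw [h2, map_sub, map_mul, f2_inc_var, sub_smul, mul_smul]
    rw [Finset.sum_congr rfl fun k _ => h1 k, Finset.sum_sub_distrib, ← Finset.smul_sum, ← hM j,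
      Finset.sum_eq_single j]
    · rw [Matrix.diagonal_apply_eq, he j, add_sub_cancel_right]
    · intro k _ hk
      rw [Matrix.diagonal_apply_ne' _ hk, map_zero, zero_smul]
    · intro h2
      exact absurd (Finset.mem_univ j) h2
  refine ⟨r, n, W.det, hm, ?_, fun j => ?_, hi⟩
  · let φ : (micro d).alg →+* CvB d := (bar d).comp (inc d : (micro d).alg →+* (formal d).alg)
    have hφ : ∀ a, φ a = bar d (inc d a) := fun _ => rfl
    have h1 : bar d (inc d W.det) = (φ.mapMatrix W).det := by
      rw [← RingHom.map_det, hφ]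
    have h2 : φ.mapMatrix W = Matrix.diagonal fun j => bar d (inc d (δ j)) := by
      ext1 j k
      rw [RingHom.mapMatrix_apply, Matrix.map_apply]
      have h3 : W j k = (Matrix.diagonal δ : Matrix (Fin μ) (Fin μ) (micro d).alg) j k -
        (micro d).var none * M j k := rfl
      have h4 : φ ((micro d).var none) = 0 := by
        rw [hφ, f2_inc_var, f2_bar_var]
      rw [h3, map_sub, map_mul, h4, zero_mul, sub_zero]
      by_cases hjk : j = k
      · subst hjk
        rw [Matrix.diagonal_apply_eq, Matrix.diagonal_apply_eq, hφ]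
      · rw [Matrix.diagonal_apply_ne _ hjk, Matrix.diagonal_apply_ne _ hjk, map_zero]
    rw [h1, h2, Matrix.det_diagonal]
    exact Finset.prod_ne_zero_iff.2 fun j _ => hδ j
  · have h1 : inc d W.det • e j = ∑ k, inc d (W.adjugate j k) • u k := by
      have h2 : ∀ k, inc d (W.adjugate j k) • u k =
          ∑ l, inc d (W.adjugate j k * W k l) • e l := by
        intro k
        rw [← hW k, Finset.smul_sum]
        exact Finset.sum_congr rfl fun l _ => by rw [map_mul, mul_smul]
      rw [Finset.sum_congr rfl fun k _ => h2 k, Finset.sum_comm]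
      have h3 : ∀ l, ∑ k, inc d (W.adjugate j k * W k l) • e l =
          inc d ((W.adjugate * W) j l) • e l := by
        intro l
        rw [Matrix.mul_apply, map_sum, Finset.sum_smul]
      rw [Finset.sum_congr rfl fun l _ => h3 l, Matrix.adjugate_mul, Finset.sum_eq_single j]
      · rw [Matrix.smul_apply, Matrix.one_apply_eq, smul_eq_mul, mul_one]
      · intro l _ hl
        rw [Matrix.smul_apply, Matrix.one_apply_ne' hl, smul_zero, map_zero, zero_smul]
      · intro h4
        exact absurd (Finset.mem_univ j) h4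
    rw [h1]
    exact sum_mem fun k _ => MSp.smul _ (hu k)

/-! ## row f3 -/

/-- `n` is linearly independent: if `∑ c_i n_i = 0`, all `c_i` are divisible by `s` (`Ind`,
`exists_of_bar`), divide by `s` (`sinj`), repeat. -/
-- BEGIN f3 (helper42)
theorem Ind.lin (hT : TMod d T) {r : ℕ} {n : Fin r → L} (h : Ind d n) {c : Fin r → (formal d).alg}
    (hc : ∑ i, c i • n i = 0) (i : Fin r) : c i = 0 := by
  have key : ∀ (k : ℕ) (c : Fin r → (formal d).alg), ∑ i, c i • n i = 0 →
      ∀ i, PowerSeries.coeff k (slc d (c i)) = 0 := by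
    intro k
    induction k with
    | zero =>
      intro c hc i
      have h1 : bar d (c i) = 0 := h c ⟨0, by rw [hc, smul_zero]⟩ i
      rw [PowerSeries.coeff_zero_eq_constantCoeff_apply]
      exact h1
    | succ k ih =>
      intro c hc i
      have h1 : ∀ i, ∃ g, c i = (formal d).var none * g := fun i =>
        exists_of_bar (h c ⟨0, by rw [hc, smul_zero]⟩ i)
      choose g hg using h1
      have h2 : ∑ i, g i • n i = 0 := by
        apply hT.sinj
        rw [Finset.smul_sum, ← hc]
        refine Finset.sum_congr rfl fun j _ => ?_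
        rw [hg j, mul_smul]
      rw [hg i, map_mul, slc_var, PowerSeries.coeff_succ_X_mul]
      exact ih g h2 i
  apply slc_injective
  rw [map_zero]
  refine PowerSeries.ext fun k => ?_
  rw [key k c hc i, map_zero]

/-! ## row f4: the equation of the base change matrix -/

/-- `Δ n'_j = ∑_i X_ij n_i` (`w` generates `L`, `h.G`); apply `T`, multiply by `Δ Δ'`, compare the
coefficients with `Ind.lin`. -/
-- BEGIN f4
theorem frm_eq (hT : TMod d T) {ν r r' : ℕ} {w : Fin ν → L} {n : Fin r → L}
    {n' : Fin r' → L} {Δ Δ' : (micro d).alg} (h : Frm d w n Δ) (hw : MFam d T w)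
    (A : Matrix (Fin r) (Fin r) (micro d).alg) (hA : ∀ i, inc d Δ • T (n i) =
      ∑ k, inc d (A k i) • n k)
    (A' : Matrix (Fin r') (Fin r') (micro d).alg) (hA' : ∀ j, inc d Δ' • T (n' j) =
      ∑ k, inc d (A' k j) • n' k) :
    ∃ X : Matrix (Fin r) (Fin r') (formal d).alg,
      (∀ j, inc d Δ • n' j = ∑ i, X i j • n i) ∧ ∀ i j,
        inc d Δ * inc d Δ' * ((formal d).var none ^ 2 * (formal d).pd none (X i j))
          - inc d Δ' * ((formal d).var none ^ 2 * (formal d).pd none (inc d Δ)) * X i j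
          + inc d Δ' * ∑ k, inc d (A i k) * X k j
          - inc d Δ * ∑ k, X i k * inc d (A' k j) = 0 := by
  classical
  choose y hy using fun j => hw.span (n' j)
  choose G hG using h.G
  obtain ⟨X, hX⟩ : ∃ X : Matrix (Fin r) (Fin r') (formal d).alg,
      ∀ j, inc d Δ • n' j = ∑ i, X i j • n i := by
    refine ⟨fun i j => ∑ k, y j k * inc d (G k i), fun j => ?_⟩
    rw [hy j, Finset.smul_sum]
    calc ∑ k, inc d Δ • y j k • w k = ∑ k, ∑ i, (y j k * inc d (G k i)) • n i := by
          refine Finset.sum_congr rfl fun k _ => ?_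
          rw [smul_comm, hG k, Finset.smul_sum]
          exact Finset.sum_congr rfl fun i _ => by rw [mul_smul]
      _ = ∑ i, (∑ k, y j k * inc d (G k i)) • n i := by
          rw [Finset.sum_comm]
          exact Finset.sum_congr rfl fun i _ => by rw [← Finset.sum_smul]
  refine ⟨X, hX, ?_⟩
  intro i j
  refine Ind.lin hT h.ind (c := fun i =>
        inc d Δ * inc d Δ' * ((formal d).var none ^ 2 * (formal d).pd none (X i j))
          - inc d Δ' * ((formal d).var none ^ 2 * (formal d).pd none (inc d Δ)) * X i j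
          + inc d Δ' * ∑ k, inc d (A i k) * X k j
          - inc d Δ * ∑ k, X i k * inc d (A' k j)) ?_ i
  have e1 : ∑ i, (inc d Δ * inc d Δ' *
      ((formal d).var none ^ 2 * (formal d).pd none (X i j))) • n i =
      (inc d Δ * inc d Δ') • ∑ i, ((formal d).var none ^ 2 * (formal d).pd none (X i j)) • n i := by
    rw [Finset.smul_sum]
    exact Finset.sum_congr rfl fun i _ => by rw [mul_smul _ _ (n i)]
  have e2 : ∑ i, (inc d Δ' * ((formal d).var none ^ 2 * (formal d).pd none (inc d Δ)) *
      X i j) • n i =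
      (inc d Δ * inc d Δ') • ((formal d).var none ^ 2 * (formal d).pd none (inc d Δ)) • n' j := by
    have : ∑ i, (inc d Δ' * ((formal d).var none ^ 2 * (formal d).pd none (inc d Δ)) *
        X i j) • n i =
        (inc d Δ' * ((formal d).var none ^ 2 * (formal d).pd none (inc d Δ))) •
          ∑ i, X i j • n i := by
      rw [Finset.smul_sum]
      exact Finset.sum_congr rfl fun i _ => by rw [mul_smul _ _ (n i)]
    rw [this, ← hX j, ← mul_smul, ← mul_smul]
    congr 1
    ring
  have e3 : ∑ i, (inc d Δ' * ∑ k, inc d (A i k) * X k j) • n i =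
      (inc d Δ * inc d Δ') • ∑ k, X k j • T (n k) := by
    have h1 : (inc d Δ * inc d Δ') • ∑ k, X k j • T (n k) =
        ∑ k, ∑ i, (inc d Δ' * (inc d (A i k) * X k j)) • n i := by
      rw [Finset.smul_sum]
      refine Finset.sum_congr rfl fun k _ => ?_
      rw [← mul_smul, show inc d Δ * inc d Δ' * X k j = (inc d Δ' * X k j) * inc d Δ by ring,
        mul_smul, hA k, Finset.smul_sum]
      refine Finset.sum_congr rfl fun i _ => ?_
      rw [← mul_smul]
      congr 1
      ring
    rw [h1, Finset.sum_comm]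
    refine Finset.sum_congr rfl fun i _ => ?_
    rw [Finset.mul_sum, Finset.sum_smul]
  have e4 : ∑ i, (inc d Δ * ∑ k, X i k * inc d (A' k j)) • n i =
      (inc d Δ * inc d Δ') • inc d Δ • T (n' j) := by
    have h1 : (inc d Δ * inc d Δ') • inc d Δ • T (n' j) =
        ∑ k, ∑ i, (inc d Δ * (X i k * inc d (A' k j))) • n i := by
      rw [← mul_smul, show inc d Δ * inc d Δ' * inc d Δ = (inc d Δ * inc d Δ) * inc d Δ' by ring,
        mul_smul, hA' j, Finset.smul_sum]
      refine Finset.sum_congr rfl fun k _ => ?_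
      rw [← mul_smul, show inc d Δ * inc d Δ * inc d (A' k j) =
        (inc d Δ * inc d (A' k j)) * inc d Δ by ring, mul_smul, hX k, Finset.smul_sum]
      refine Finset.sum_congr rfl fun i _ => ?_
      rw [← mul_smul]
      congr 1
      ring
    rw [h1, Finset.sum_comm]
    refine Finset.sum_congr rfl fun i _ => ?_
    rw [Finset.mul_sum, Finset.sum_smul]
  have e5 : T (∑ i, X i j • n i) = ∑ i, X i j • T (n i) +
      ∑ i, ((formal d).var none ^ 2 * (formal d).pd none (X i j)) • n i := by
    rw [map_sum, ← Finset.sum_add_distrib]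
    exact Finset.sum_congr rfl fun i _ => hT.T_smul _ _
  have e6 : T (∑ i, X i j • n i) = inc d Δ • T (n' j) +
      ((formal d).var none ^ 2 * (formal d).pd none (inc d Δ)) • n' j := by
    rw [← hX j]
    exact hT.T_smul _ _
  have e7 := congrArg (fun u => (inc d Δ * inc d Δ') • u) (e5.symm.trans e6)
  simp only [smul_add] at e7
  simp only [sub_smul, add_smul, Finset.sum_sub_distrib, Finset.sum_add_distrib]
  rw [e1, e2, e3, e4]
  refine Eq.trans ?_ (sub_eq_zero.mpr e7)
  abel

/-! ## row f5: the polynomial relation modulo `s` -/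

private lemma f5_pow (hT : TMod d T) {r : ℕ} {n : Fin r → L} {Δ : (micro d).alg}
    (A : Matrix (Fin r) (Fin r) (micro d).alg)
    (hA : ∀ i, inc d Δ • T (n i) = ∑ k, inc d (A k i) • n k) (k : ℕ) (i : Fin r) :
    ∃ w : L, inc d Δ ^ k • (T ^ k) (n i) =
      ∑ l, inc d ((A ^ k) l i) • n l + (formal d).var none • w := by
  classical
  induction k with
  | zero =>
    refine ⟨0, ?_⟩
    rw [pow_zero, pow_zero, pow_zero, one_smul, smul_zero, add_zero]
    rw [Finset.sum_eq_single i]
    · rw [Matrix.one_apply_eq, map_one, one_smul]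
      rfl
    · intro b _ hb
      rw [Matrix.one_apply_ne hb, map_zero, zero_smul]
    · intro hi
      exact absurd (Finset.mem_univ i) hi
  | succ k ih =>
    obtain ⟨w, hw⟩ := ih
    set s := (formal d).var none with hs
    have e1 : T (inc d Δ ^ k • (T ^ k) (n i)) = inc d Δ ^ k • (T ^ (k + 1)) (n i)
        + (s ^ 2 * (formal d).pd none (inc d Δ ^ k)) • (T ^ k) (n i) := by
      rw [hT.T_smul, pow_succ' T k]
      rfl
    have e2 : T (∑ l, inc d ((A ^ k) l i) • n l + s • w) =
        ∑ l, (inc d ((A ^ k) l i) • T (n l) +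
          (s ^ 2 * (formal d).pd none (inc d ((A ^ k) l i))) • n l)
        + (s • T w + (s ^ 2 * (formal d).pd none s) • w) := by
      rw [map_add, map_sum, hT.T_smul]
      congr 1
      exact Finset.sum_congr rfl fun l _ => hT.T_smul _ _
    rw [hw] at e1
    have e3 : inc d Δ ^ (k + 1) • (T ^ (k + 1)) (n i) =
        inc d Δ • (∑ l, (inc d ((A ^ k) l i) • T (n l) +
          (s ^ 2 * (formal d).pd none (inc d ((A ^ k) l i))) • n l)
        + (s • T w + (s ^ 2 * (formal d).pd none s) • w)
        - (s ^ 2 * (formal d).pd none (inc d Δ ^ k)) • (T ^ k) (n i)) := by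
      rw [← e2, e1, add_sub_cancel_right, smul_smul, ← pow_succ']
    rw [e3]
    refine ⟨inc d Δ • (∑ l, (s * (formal d).pd none (inc d ((A ^ k) l i))) • n l
      + (T w + (s * (formal d).pd none s) • w)
      - (s * (formal d).pd none (inc d Δ ^ k)) • (T ^ k) (n i)), ?_⟩
    have e4 : ∑ l, inc d ((A ^ (k + 1)) l i) • n l =
        inc d Δ • ∑ l, inc d ((A ^ k) l i) • T (n l) := by
      rw [Finset.smul_sum]
      have : ∀ l, inc d Δ • inc d ((A ^ k) l i) • T (n l) =
          ∑ m, inc d (A m l * (A ^ k) l i) • n m := by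
        intro l
        rw [smul_comm, hA, Finset.smul_sum]
        refine Finset.sum_congr rfl fun m _ => ?_
        rw [smul_smul, map_mul, mul_comm]
      rw [Finset.sum_congr rfl fun l _ => this l, Finset.sum_comm]
      refine Finset.sum_congr rfl fun m _ => ?_
      rw [pow_succ', Matrix.mul_apply, map_sum, Finset.sum_smul]
    rw [e4, Finset.sum_add_distrib]
    have e5 : ∑ l, (s ^ 2 * (formal d).pd none (inc d ((A ^ k) l i))) • n l =
        s • ∑ l, (s * (formal d).pd none (inc d ((A ^ k) l i))) • n l := by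
      rw [Finset.smul_sum]
      refine Finset.sum_congr rfl fun l _ => ?_
      rw [smul_smul, ← mul_assoc, ← pow_two]
    rw [e5]
    have e6 : (s ^ 2 * (formal d).pd none s) • w = s • (s * (formal d).pd none s) • w := by
      rw [smul_smul, ← mul_assoc, ← pow_two]
    have e7 : (s ^ 2 * (formal d).pd none (inc d Δ ^ k)) • (T ^ k) (n i) =
        s • (s * (formal d).pd none (inc d Δ ^ k)) • (T ^ k) (n i) := by
      rw [smul_smul, ← mul_assoc, ← pow_two]
    rw [e6, e7]
    rw [smul_comm s (inc d Δ)]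
    rw [← smul_add]
    simp only [smul_add, smul_sub]
    abel

private lemma f5_bar_var : bar d ((formal d).var none) = 0 := by
  unfold bar
  rw [RingHom.comp_apply, slc_var]
  exact PowerSeries.constantCoeff_X

/-- Modulo `s L`: `T` is linear, `Δ^k T^k n_i = ∑_l (A^k)_li n_l` (induction on `k`), so
`Δ^D ∑_k q_k T^k n_i = ∑_l (∑_k q_k Δ^(D-k) (A^k)_li) n_l ∈ s L`; `Ind`. -/
theorem frm_poly (hT : TMod d T) {r : ℕ} {n : Fin r → L} {Δ : (micro d).alg}
    (h : Ind d n) (A : Matrix (Fin r) (Fin r) (micro d).alg)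
    (hA : ∀ i, inc d Δ • T (n i) = ∑ k, inc d (A k i) • n k)
    (D : ℕ) (q : ℕ → (formal d).alg)
    (hq : ∀ u : L, ∃ v : L, ∑ k ∈ Finset.range (D + 1), q k • (T ^ k) u =
      (formal d).var none • v) :
    ∑ k ∈ Finset.range (D + 1), (bar d (q k) * bar d (inc d Δ) ^ (D - k)) •
      (A.map fun a => bar d (inc d a)) ^ k = 0 := by
  classical
  have hmap : ∀ k : ℕ, (A.map fun a => bar d (inc d a)) ^ k =
      (A ^ k).map fun a => bar d (inc d a) := by
    intro k
    exact (map_pow ((bar d).comp (inc d)).mapMatrix A k).symm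
  choose w hw using fun (k : ℕ) (i : Fin r) => f5_pow hT A hA k i
  refine Matrix.ext fun l i => ?_
  simp only [Matrix.sum_apply, Matrix.smul_apply, smul_eq_mul, Matrix.zero_apply, hmap,
    Matrix.map_apply]
  obtain ⟨v, hv⟩ := hq (n i)
  have key : ∑ l, (∑ k ∈ Finset.range (D + 1), q k * inc d Δ ^ (D - k) *
      inc d ((A ^ k) l i)) • n l = (formal d).var none • (inc d Δ ^ D • v -
        ∑ k ∈ Finset.range (D + 1), (q k * inc d Δ ^ (D - k)) • w k i) := by
    have h1 : ∀ k ∈ Finset.range (D + 1), inc d Δ ^ D • q k • (T ^ k) (n i) =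
        (q k * inc d Δ ^ (D - k)) • (∑ l, inc d ((A ^ k) l i) • n l
          + (formal d).var none • w k i) := by
      intro k hk
      rw [← hw, smul_smul, smul_smul]
      congr 1
      have hk' : k ≤ D := Nat.lt_succ_iff.mp (Finset.mem_range.mp hk)
      rw [mul_assoc, ← pow_add, Nat.sub_add_cancel hk', mul_comm]
    have h2 : inc d Δ ^ D • ∑ k ∈ Finset.range (D + 1), q k • (T ^ k) (n i) =
        ∑ k ∈ Finset.range (D + 1), ((q k * inc d Δ ^ (D - k)) • (∑ l, inc d ((A ^ k) l i) • n l
          + (formal d).var none • w k i)) := by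
      rw [Finset.smul_sum]
      exact Finset.sum_congr rfl h1
    rw [hv] at h2
    have h3 : ∑ k ∈ Finset.range (D + 1), ((q k * inc d Δ ^ (D - k)) •
        (∑ l, inc d ((A ^ k) l i) • n l + (formal d).var none • w k i)) =
        ∑ l, (∑ k ∈ Finset.range (D + 1), q k * inc d Δ ^ (D - k) *
          inc d ((A ^ k) l i)) • n l + (formal d).var none •
            ∑ k ∈ Finset.range (D + 1), (q k * inc d Δ ^ (D - k)) • w k i := by
      rw [Finset.smul_sum]
      simp only [Finset.sum_smul]
      rw [Finset.sum_comm, ← Finset.sum_add_distrib]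
      refine Finset.sum_congr rfl fun k _ => ?_
      rw [smul_add, Finset.smul_sum]
      congr 1
      · refine Finset.sum_congr rfl fun l _ => ?_
        rw [smul_smul]
      · rw [smul_comm]
    rw [h3] at h2
    rw [smul_sub, smul_comm, h2, add_sub_cancel_right]
  have h4 := h (fun l => ∑ k ∈ Finset.range (D + 1), q k * inc d Δ ^ (D - k) *
      inc d ((A ^ k) l i)) ⟨_, key⟩ l
  have h5 : bar d (∑ k ∈ Finset.range (D + 1), q k * inc d Δ ^ (D - k) *
      inc d ((A ^ k) l i)) = 0 := h4
  rw [map_sum (bar d)] at h5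
  refine Eq.trans (Finset.sum_congr rfl fun k _ => ?_) h5
  rw [map_mul (bar d), map_mul (bar d), map_pow (bar d)]

/-! ## row f6: THE MAIN THEOREM of this file -/

/-- properties which hold for all small radii -/
private def f6_Sm (d : ℕ) (S : (Fin d → ℝ) → Prop) : Prop := ∃ ρ₀ : ℝ, 0 < ρ₀ ∧
  ∀ ρ : Fin d → ℝ, (∀ i, 0 < ρ i ∧ ρ i ≤ ρ₀) → S ρ

private lemma f6_Sm.and {S S' : (Fin d → ℝ) → Prop} (h : f6_Sm d S) (h' : f6_Sm d S') :
    f6_Sm d fun ρ => S ρ ∧ S' ρ := by
  obtain ⟨a, ha, hS⟩ := h
  obtain ⟨b, hb, hS'⟩ := h'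
  exact ⟨min a b, lt_min ha hb, fun ρ hρ =>
    ⟨hS ρ fun i => ⟨(hρ i).1, (hρ i).2.trans (min_le_left _ _)⟩,
      hS' ρ fun i => ⟨(hρ i).1, (hρ i).2.trans (min_le_right _ _)⟩⟩⟩

private lemma f6_Sm.all {I : Type} [Fintype I] {S : I → (Fin d → ℝ) → Prop}
    (h : ∀ i, f6_Sm d (S i)) : f6_Sm d fun ρ => ∀ i, S i ρ := by
  classical
  have : ∀ s : Finset I, f6_Sm d fun ρ => ∀ i ∈ s, S i ρ := by
    intro s
    induction s using Finset.induction_on with
    | empty => exact ⟨1, one_pos, fun ρ _ i hi => absurd hi (Finset.notMem_empty i)⟩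
    | insert a s _ ih =>
      obtain ⟨r, hr, hS⟩ := (h a).and ih
      refine ⟨r, hr, fun ρ hρ i hi => ?_⟩
      rcases Finset.mem_insert.mp hi with rfl | hi
      · exact (hS ρ hρ).1
      · exact (hS ρ hρ).2 i hi
  obtain ⟨r, hr, hS⟩ := this Finset.univ
  exact ⟨r, hr, fun ρ hρ i => hS ρ hρ i (Finset.mem_univ i)⟩

private lemma f6_KK_map {R S : Type} [CommRing R] [CommRing S] (f : R →+* S) {r r' : ℕ}
    (A : Matrix (Fin r) (Fin r) R) (B : Matrix (Fin r') (Fin r') R) :
    (KK A B).map f = KK (A.map f) (B.map f) := by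
  refine Matrix.ext fun x y => ?_
  simp only [KK, Matrix.map_apply, Matrix.sub_apply, Matrix.kroneckerMap_apply, Matrix.one_apply,
    Matrix.transpose_apply, map_sub, map_mul, apply_ite f, map_one, map_zero]

private lemma f6_gv_KK {p : CvB d → ENNReal} (hp : SMN p) {r r' : ℕ}
    (A : Matrix (Fin r) (Fin r) (PowerSeries (CvB d)))
    (B : Matrix (Fin r') (Fin r') (PowerSeries (CvB d)))
    (hA : ∀ i k, GV p (A i k)) (hB : ∀ i k, GV p (B i k)) (x y : Fin r × Fin r') :
    GV p (KK A B x y) := by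
  have h1 : GV p (1 : PowerSeries (CvB d)) := by
    have := GV.C hp hp.one
    rwa [map_one] at this
  have h01 : ∀ c : Prop, [Decidable c] → GV p (if c then (1 : PowerSeries (CvB d)) else 0) := by
    intro c _
    split_ifs
    · exact h1
    · exact GV.zero hp
  simp only [KK, Matrix.sub_apply, Matrix.kroneckerMap_apply, Matrix.one_apply,
    Matrix.transpose_apply]
  exact GV.sub hp (GV.mul hp (hA _ _) (h01 _)) (GV.mul hp (h01 _) (hB _ _))

private lemma f6_scale {q : Polynomial (formal d).alg} {r : ℕ} {Δ Δ' : (micro d).alg}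
    (A : Matrix (Fin r) (Fin r) (micro d).alg)
    (h : ∑ k ∈ Finset.range (q.natDegree + 1), (bar d (q.coeff k) *
      bar d (inc d Δ) ^ (q.natDegree - k)) • (A.map fun a => bar d (inc d a)) ^ k = 0) :
    ∑ k ∈ Finset.range (q.natDegree + 1), ((q.map (bar d)).coeff k *
      (bar d (inc d Δ) * bar d (inc d Δ')) ^ (q.natDegree - k)) •
        (bar d (inc d Δ') • A.map fun a => bar d (inc d a)) ^ k = 0 := by
  have h2 := congrArg (fun M => bar d (inc d Δ') ^ q.natDegree • M) h
  simp only [smul_zero] at h2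
  rw [← h2, Finset.smul_sum]
  refine Finset.sum_congr rfl fun k hk => ?_
  have hk' : k ≤ q.natDegree := Nat.lt_succ_iff.mp (Finset.mem_range.mp hk)
  rw [smul_pow, smul_smul, smul_smul, Polynomial.coeff_map, mul_pow]
  congr 1
  have : bar d (inc d Δ') ^ q.natDegree = bar d (inc d Δ') ^ (q.natDegree - k) *
      bar d (inc d Δ') ^ k := by
    rw [← pow_add, Nat.sub_add_cancel hk']
  rw [this]
  ring

/-- The base change matrix of two frames is microdifferential, if `q(T) L ⊆ s L` with a polynomial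
`q` which is separable over the field of fractions of the convergent power series.
Proof. `X` from `frm_eq`. Expand in powers of `s` (`slc`): `x (i,j) = slc (X i j)` solves
`η s² x' + K x = 0` with `η = slc (Δ Δ')`,
`K = slc(Δ' A) ⊗ 1 - 1 ⊗ slc(Δ A')ᵀ - slc(Δ') s² (slc Δ)'`, `K_0 = KK (bar(Δ' A)) (bar (Δ A'))`.
`exists_split` over `CvB d` with `η_0 = bar (Δ Δ')`; the hypothesis `∑ q_k η_0^(D-k) (bar (Δ' A))^k
= bar(Δ')^D ∑ q_k bar(Δ)^(D-k) (bar A)^k = 0` by `frm_poly`. It gives `h`, `P`, `Q`. Radii with a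
division estimate for `h bar(Δ) bar(Δ')` (`exists_radii`, `DE.left`) and small enough for all the
finitely many symbols (`exists_pc_fin`, `exists_fn`, `exists_gv`). `rl`: the `X i j` have Gevrey
growth, `isMicro_of_gv`. -/
theorem micro_of_frm (hT : TMod d T) {ν μ r r' : ℕ} {w : Fin ν → L} {e : Fin μ → L}
    (hw : MFam d T w) (he : MFam d T e) {n : Fin r → L} {n' : Fin r' → L} {Δ Δ' : (micro d).alg}
    (h : Frm d w n Δ) (h' : Frm d e n' Δ')
    (q : Polynomial (formal d).alg)
    (hq : ∀ u : L, ∃ v : L, ∑ k ∈ Finset.range (q.natDegree + 1), q.coeff k • (T ^ k) u =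
      (formal d).var none • v)
    (α β : Polynomial (CvB d)) (δ : CvB d) (hδ : δ ≠ 0)
    (hb : α * q.map (bar d) + β * Polynomial.derivative (q.map (bar d)) = Polynomial.C δ)
    (j : Fin r') : inc d Δ • n' j ∈ MSp d n := by
  classical
  choose A0 hA0 using fun i => h.A hw i
  choose A0' hA0' using fun i => h'.A he i
  obtain ⟨X, hX1, hX2⟩ := frm_eq hT h hw (Matrix.of fun k i => A0 i k) (fun i => hA0 i)
    (Matrix.of fun k i => A0' i k) (fun i => hA0' i)
  set A : Matrix (Fin r) (Fin r) (micro d).alg := Matrix.of fun k i => A0 i k with hAdef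
  set A' : Matrix (Fin r') (Fin r') (micro d).alg := Matrix.of fun k i => A0' i k with hA'def
  have hp1 := frm_poly hT h.ind A (fun i => hA0 i) q.natDegree q.coeff hq
  have hp2 := frm_poly hT h'.ind A' (fun i => hA0' i) q.natDegree q.coeff hq
  have hs1 := f6_scale (Δ' := Δ') A hp1
  have hs2 := f6_scale (Δ' := Δ) A' hp2
  rw [show (bar d (inc d Δ')) * (bar d (inc d Δ)) = bar d (inc d Δ) * bar d (inc d Δ') from
    mul_comm _ _] at hs2
  have hη : bar d (inc d Δ) * bar d (inc d Δ') ≠ 0 := mul_ne_zero h.ne h'.ne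
  obtain ⟨g, P, Q, hg, hPQ, hPK⟩ := exists_split (q.map (bar d)) α β δ hδ hb
    (bar d (inc d Δ) * bar d (inc d Δ')) hη q.natDegree Polynomial.natDegree_map_le _ _ hs1 hs2
  -- radii
  have t1 : f6_Sm d fun ρ => ∀ (i : Fin r) (j : Fin r'), FN (pc ρ) (slc d (X i j)) :=
    f6_Sm.all fun i => f6_Sm.all fun j => exists_fn (X i j)
  have t2 : f6_Sm d fun ρ => ∀ (i j : Fin r), GV (pc ρ) (slc d (inc d (A i j))) :=
    f6_Sm.all fun i => f6_Sm.all fun j => exists_gv (A i j)
  have t3 : f6_Sm d fun ρ => ∀ (i j : Fin r'), GV (pc ρ) (slc d (inc d (A' i j))) :=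
    f6_Sm.all fun i => f6_Sm.all fun j => exists_gv (A' i j)
  have t4 : f6_Sm d fun ρ => ∀ (i j : Fin r × Fin r'), pc ρ (P i j) ≠ ⊤ :=
    f6_Sm.all fun i => f6_Sm.all fun j => exists_pc_fin (P i j)
  have t5 : f6_Sm d fun ρ => ∀ (i j : Fin r × Fin r'), pc ρ (Q i j) ≠ ⊤ :=
    f6_Sm.all fun i => f6_Sm.all fun j => exists_pc_fin (Q i j)
  have t6 : f6_Sm d fun ρ => GV (pc ρ) (slc d (inc d Δ)) := exists_gv Δ
  have t7 : f6_Sm d fun ρ => GV (pc ρ) (slc d (inc d Δ')) := exists_gv Δ'
  have t8 : f6_Sm d fun ρ => pc ρ g ≠ ⊤ := exists_pc_fin g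
  have t9 : f6_Sm d fun ρ => pc ρ (bar d (inc d Δ) * bar d (inc d Δ')) ≠ ⊤ := exists_pc_fin _
  obtain ⟨ρ₀, hρ₀, hall⟩ := (t1.and (t2.and t3)).and ((t4.and t5).and ((t6.and t7).and (t8.and t9)))
  obtain ⟨ρ, hρ, hDE⟩ := exists_radii (mul_ne_zero hg hη) hρ₀
  obtain ⟨⟨hXf, hAg, hA'g⟩, ⟨hPf, hQf⟩, ⟨hΔg, hΔ'g⟩, hgf, hηf⟩ := hall ρ hρ
  have hp : SMN (pc ρ) := smn_pc fun i => (hρ i).1
  have hDg : DE (pc ρ) g := DE.left hp hDE hηf
  have hDη : DE (pc ρ) (bar d (inc d Δ) * bar d (inc d Δ')) := by
    rw [mul_comm] at hDE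
    exact DE.left hp hDE hgf
  -- the system
  let c : (micro d).alg → PowerSeries (CvB d) := fun a => slc d (inc d a)
  have hc : ∀ a, c a = slc d (inc d a) := fun a => rfl
  let K : Matrix (Fin r × Fin r') (Fin r × Fin r') (PowerSeries (CvB d)) :=
    KK (c Δ' • A.map c) (c Δ • A'.map c) -
      (c Δ' * (PowerSeries.X ^ 2 * PowerSeries.derivative (CvB d) (c Δ))) • 1
  have hK0 : K.map PowerSeries.constantCoeff =
      KK (bar d (inc d Δ') • A.map fun a => bar d (inc d a))
        (bar d (inc d Δ) • A'.map fun a => bar d (inc d a)) := by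
    have e1 : K.map (PowerSeries.constantCoeff (R := CvB d)) =
        (KK (c Δ' • A.map c) (c Δ • A'.map c)).map (PowerSeries.constantCoeff (R := CvB d)) := by
      refine Matrix.ext fun x y => ?_
      simp only [K, Matrix.map_apply, Matrix.sub_apply, Matrix.smul_apply, smul_eq_mul, map_sub,
        map_mul, map_pow, PowerSeries.constantCoeff_X]
      rw [zero_pow two_ne_zero, zero_mul, mul_zero, zero_mul, sub_zero]
    rw [e1, f6_KK_map]
    congr 1
    · refine Matrix.ext fun x y => ?_
      simp only [Matrix.map_apply, Matrix.smul_apply, smul_eq_mul, map_mul]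
      rfl
    · refine Matrix.ext fun x y => ?_
      simp only [Matrix.map_apply, Matrix.smul_apply, smul_eq_mul, map_mul]
      rfl
  have hsmul : ∀ (a : PowerSeries (CvB d)) {m : ℕ} (B : Matrix (Fin m) (Fin m)
      (PowerSeries (CvB d))), GV (pc ρ) a → (∀ i k, GV (pc ρ) (B i k)) →
      ∀ i k, GV (pc ρ) ((a • B) i k) := by
    intro a m B ha hB i k
    rw [Matrix.smul_apply, smul_eq_mul]
    exact GV.mul hp ha (hB i k)
  have hKg : ∀ x y, GV (pc ρ) (K x y) := by
    intro x y
    refine GV.sub hp (f6_gv_KK hp _ _ (hsmul _ _ hΔ'g fun i k => hAg i k)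
      (hsmul _ _ hΔg fun i k => hA'g i k) x y) ?_
    rw [Matrix.smul_apply, smul_eq_mul, Matrix.one_apply]
    have h1 : GV (pc ρ) (1 : PowerSeries (CvB d)) := by
      have := GV.C hp hp.one
      rwa [map_one] at this
    have h2 : GV (pc ρ) (if x = y then (1 : PowerSeries (CvB d)) else 0) := by
      split_ifs
      · exact h1
      · exact GV.zero hp
    exact GV.mul hp (GV.mul hp hΔ'g (GV.mul hp (GV.pow hp (GV.X hp) 2) (GV.deriv hp hΔg))) h2
  have hrl := rl hp (I := Fin r × Fin r') (fun x => slc d (X x.1 x.2)) K (c Δ * c Δ') P Q g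
    (fun x => hXf x.1 x.2) hKg (GV.mul hp hΔg hΔ'g) hPf hQf (by rw [hK0]; exact hPQ)
    (by rw [hK0]; exact hPK) hDg (by rw [map_mul]; exact hDη) hgf (by
      rintro ⟨i, k⟩
      have h2 := congrArg (slc d) (hX2 i k)
      rw [map_zero] at h2
      rw [← h2]
      simp only [K, Matrix.sub_mulVec, Pi.sub_apply, KK_mulVec, Matrix.smul_mulVec,
        Matrix.one_mulVec, Pi.smul_apply, smul_eq_mul, Matrix.smul_apply, Matrix.map_apply,
        map_sub, map_add, map_mul, map_pow, map_sum, slc_var, slc_pd, hc, Finset.mul_sum]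
      have e1 : ∀ x : Fin r', slc d (X i x) * (slc d (inc d Δ) * slc d (inc d (A' x k))) =
          slc d (inc d Δ) * (slc d (X i x) * slc d (inc d (A' x k))) := fun x => by ring
      have e2 : ∀ x : Fin r, slc d (inc d Δ') * slc d (inc d (A i x)) * slc d (X x k) =
          slc d (inc d Δ') * (slc d (inc d (A i x)) * slc d (X x k)) := fun x => by ring
      rw [Finset.sum_congr rfl fun x _ => e1 x, Finset.sum_congr rfl fun x _ => e2 x]
      ring)
  have hmic : ∀ i, ∃ a : (micro d).alg, inc d a = X i j := by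
    intro i
    have := isMicro_of_gv (fun i => (hρ i).1) (hrl (i, j))
    exact ⟨⟨(X i j : Ser d), this⟩, Subtype.ext rfl⟩
  choose a ha using hmic
  refine ⟨a, ?_⟩
  rw [hX1]
  exact Finset.sum_congr rfl fun i _ => by rw [ha]

/-! ## row f7 -/

/-- Uniqueness: frames `(n, Δ)` of `w`, `(n', Δ')` of `e` (`exists_frm`); `Δ n'_j ∈ MSp n ⊆ MSp w` by
`micro_of_frm`, so `n'_j ∈ MSp w` (`cancel`); `Δ' e_k ∈ MSp n' ⊆ MSp w` (`h'.G`), so `e_k ∈ MSp w`. -/
-- BEGIN f7 (helper42)
theorem MFam.le (hT : TMod d T) {ν μ : ℕ} {w : Fin ν → L} {e : Fin μ → L}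
    (hw : MFam d T w) (he : MFam d T e) (q : Polynomial (formal d).alg)
    (hq : ∀ u : L, ∃ v : L, ∑ k ∈ Finset.range (q.natDegree + 1), q.coeff k • (T ^ k) u =
      (formal d).var none • v)
    (α β : Polynomial (CvB d)) (δ : CvB d) (hδ : δ ≠ 0)
    (hb : α * q.map (bar d) + β * Polynomial.derivative (q.map (bar d)) = Polynomial.C δ) :
    MSp d e ≤ MSp d w := by
  obtain ⟨r, n, Δ, h⟩ := exists_frm hw
  obtain ⟨r', n', Δ', h'⟩ := exists_frm he
  have h0 : ∀ {D : (micro d).alg}, bar d (inc d D) ≠ 0 → D ≠ 0 := by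
    intro D hD h1
    exact hD (by rw [h1, map_zero, map_zero])
  have hnw : MSp d n ≤ MSp d w := MSp.le fun i => by
    obtain ⟨j, hj⟩ := h.mem i
    rw [hj]
    exact MSp.self w j
  have h1 : ∀ j, n' j ∈ MSp d w := fun j =>
    hw.cancel hT (h0 h.ne) (hnw (micro_of_frm hT hw he h h' q hq α β δ hδ hb j))
  have hnw' : MSp d n' ≤ MSp d w := MSp.le h1
  exact MSp.le fun k => hw.cancel hT (h0 h'.ne) (hnw' (h'.G k))

end Pool.Agent.Ep
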