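import Pool.Agent.Ep.Mod

/-!
# Uniqueness: microdifferential Weierstrass division (P11, block U, helper69)

One norm: the weight `mw a b c` is `a ^ deg_x m * b ^ deg_(t,y) m * c ^ e / max(g, e) ^ e` with
`g = ydeg m`, `e = m none`. It is submultiplicative, and the derivations `D none`, `D (some i)` are
BOUNDED operators with norms `≤ 2 c`, `≤ 3 c / b`.
-/

set_option autoImplicit false

namespace Pool.Agent.Ep

open MvPowerSeries

open scoped ENNReal NNReal

open Pool.Fml (Ser SymRing formal micro)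

variable {d : ℕ}

/-- the weight -/
noncomputable def mw (a b c : ℝ) (m : Option (Var d) →₀ ℕ) : ℝ≥0∞ :=
  ENNReal.ofReal (a ^ (∑ i, m (some (.x i))) * b ^ (m (some .t) + ydeg m) *
    (c ^ (m none) / ((max (ydeg m) (m none) : ℕ) : ℝ) ^ (m none)))

/-! ## row d1 -/

lemma sn_mw (a b c : ℝ) : SN (nrm (mw a b c) : Sym d → ℝ≥0∞) :=
  ⟨nrm_zero _, nrm_add_le _, nrm_smul _⟩

-- row d1 (helper36): private helpers d1_*
private lemma d1_maxpow (g g' e e' : ℕ) :
    ((max g e : ℕ) : ℝ) ^ e * ((max g' e' : ℕ) : ℝ) ^ e' ≤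
      ((max (g + g') (e + e') : ℕ) : ℝ) ^ (e + e') := by
  rw [pow_add]
  have h1 : ((max g e : ℕ) : ℝ) ≤ ((max (g + g') (e + e') : ℕ) : ℝ) := by
    exact_mod_cast max_le_max (Nat.le_add_right g g') (Nat.le_add_right e e')
  have h2 : ((max g' e' : ℕ) : ℝ) ≤ ((max (g + g') (e + e') : ℕ) : ℝ) := by
    exact_mod_cast max_le_max (Nat.le_add_left g' g) (Nat.le_add_left e' e)
  gcongr

private lemma d1_maxpos (g e : ℕ) : (0 : ℝ) < ((max g e : ℕ) : ℝ) ^ e := by
  rcases Nat.eq_zero_or_pos e with h1 | h1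
  · rw [h1, pow_zero]; exact one_pos
  · have : 0 < max g e := lt_of_lt_of_le h1 (le_max_right _ _)
    positivity

/-- `max (g + g') (e + e') ^ (e + e') ≥ max g e ^ e * max g' e' ^ e'` -/
lemma mw_add_le {a b c : ℝ} (ha : 0 < a) (hb : 0 < b) (hc : 0 < c) (m m' : Option (Var d) →₀ ℕ) :
    mw a b c (m + m') ≤ mw a b c m * mw a b c m' := by
  unfold mw
  rw [← ENNReal.ofReal_mul (by positivity)]
  apply ENNReal.ofReal_le_ofReal
  have hX : ∑ i : Fin d, (m + m') (some (Var.x i)) =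
      (∑ i, m (some (Var.x i))) + ∑ i, m' (some (Var.x i)) := by
    simp only [Finsupp.add_apply, Finset.sum_add_distrib]
  have hY : ydeg (m + m') = ydeg m + ydeg m' := by
    unfold ydeg
    simp only [Finsupp.add_apply, Finset.sum_add_distrib]
  have hT : (m + m') (some Var.t) = m (some .t) + m' (some .t) := Finsupp.add_apply _ _ _
  have hE : (m + m') none = m none + m' none := Finsupp.add_apply _ _ _
  rw [hX, hY, hT, hE]
  generalize (∑ i, m (some (Var.x i))) = X
  generalize (∑ i, m' (some (Var.x i))) = X'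
  generalize m (some .t) = T
  generalize m' (some .t) = T'
  generalize ydeg m = g
  generalize ydeg m' = g'
  generalize m none = e
  generalize m' none = e'
  have h1 := d1_maxpow g g' e e'
  have h2 := mul_pos (d1_maxpos g e) (d1_maxpos g' e')
  calc a ^ (X + X') * b ^ (T + T' + (g + g')) *
        (c ^ (e + e') / ((max (g + g') (e + e') : ℕ) : ℝ) ^ (e + e'))
      ≤ a ^ (X + X') * b ^ (T + T' + (g + g')) *
        (c ^ (e + e') / (((max g e : ℕ) : ℝ) ^ e * ((max g' e' : ℕ) : ℝ) ^ e')) := by gcongr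
    _ = _ := by
        rw [pow_add a, pow_add c, show T + T' + (g + g') = (T + g) + (T' + g') by ring, pow_add b,
          mul_div_mul_comm]
        ring

lemma nrm_mw_mul_le {a b c : ℝ} (ha : 0 < a) (hb : 0 < b) (hc : 0 < c) (f g : Sym d) :
    nrm (mw a b c) (f * g) ≤ nrm (mw a b c) f * nrm (mw a b c) g :=
  nrm_mul_le _ (mw_add_le ha hb hc) f g

/-! ## row d2: the derivations are bounded -/

-- row d2 (helper36): private helpers d2_*
private lemma d2_euler (v : Option (Var d)) (f : Sym d) (m : Option (Var d) →₀ ℕ) :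
    coeff m (X v * pderiv ℂ v f) = (m v : ℂ) * coeff m f := by
  classical
  change coeff m (monomial (Finsupp.single v 1) 1 * pderiv ℂ v f) = _
  rw [coeff_monomial_mul]
  by_cases h : m v = 0
  · rw [if_neg, h, Nat.cast_zero, zero_mul]
    intro h1
    have h2 := h1 v
    rw [Finsupp.single_eq_same] at h2
    omega
  · have h1 : Finsupp.single v 1 ≤ m := by
      rw [Finsupp.single_le_iff]
      omega
    rw [if_pos h1, coeff_pderiv, tsub_add_cancel_of_le h1, one_mul, mul_comm]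
    congr 1
    rw [Finsupp.tsub_apply, Finsupp.single_eq_same]
    have h2 : m v - 1 + 1 = m v := by omega
    exact_mod_cast h2

private lemma d2_sum {κ : Type} (s : Finset κ) (F : κ → Derivation ℂ (Sym d) (Sym d))
    (f : Sym d) : (∑ i ∈ s, F i) f = ∑ i ∈ s, F i f := by
  have h := congrFun (map_sum (Derivation.coeFnAddMonoidHom :
    Derivation ℂ (Sym d) (Sym d) →+ _) F s) f
  rw [Finset.sum_apply] at h
  exact h

private lemma d2_D (f : Sym d) : D none f =
    monomial (Finsupp.single none 1) 1 *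
      -(X none * pderiv ℂ none f + ∑ i, X (some (.y i)) * pderiv ℂ (some (.y i)) f) := by
  have h4 : D none f =
      -(vs * (vs * pderiv ℂ none f + ∑ i, vy i * pderiv ℂ (some (.y i)) f)) := by
    change (-((vs : Sym d) • ((vs : Sym d) • pderiv ℂ none +
      ∑ i : Fin d, vy i • pderiv ℂ (some (Var.y i)))) : Derivation ℂ (Sym d) (Sym d)) f = _
    rw [Derivation.neg_apply, Derivation.smul_apply, Derivation.add_apply,
      Derivation.smul_apply, d2_sum]
    rfl
  rw [h4, mul_neg]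
  rfl

private lemma d2_coeff (f : Sym d) (m : Option (Var d) →₀ ℕ) :
    coeff (m + Finsupp.single none 1) (D none f) = -((m none + ydeg m : ℕ) : ℂ) * coeff m f := by
  rw [d2_D, add_comm, coeff_add_monomial_mul, one_mul, map_neg, map_add, map_sum, d2_euler]
  simp only [d2_euler]
  rw [← Finset.sum_mul, ← add_mul, neg_mul]
  unfold ydeg
  push_cast
  rfl

private lemma d2_coeff0 (f : Sym d) (m : Option (Var d) →₀ ℕ)
    (h : m ∉ Set.range fun m : Option (Var d) →₀ ℕ => m + Finsupp.single none 1) :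
    coeff m (D none f) = 0 := by
  classical
  rw [d2_D, coeff_monomial_mul, if_neg]
  intro h1
  exact h ⟨m - Finsupp.single none 1, tsub_add_cancel_of_le h1⟩

private lemma d2_Ds (i : Fin d) (f : Sym d) : D (some i) f =
    monomial (Finsupp.single none 1) 1 * pderiv ℂ (some (.y i)) f := rfl

private lemma d2_coeffs (i : Fin d) (f : Sym d) (m : Option (Var d) →₀ ℕ) :
    coeff (m + Finsupp.single none 1) (D (some i) f) =
      coeff (m + Finsupp.single (some (Var.y i)) 1) f * ((m (some (.y i)) : ℂ) + 1) := by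
  rw [d2_Ds, add_comm, coeff_add_monomial_mul, one_mul, coeff_pderiv]

private lemma d2_coeffs0 (i : Fin d) (f : Sym d) (m : Option (Var d) →₀ ℕ)
    (h : m ∉ Set.range fun m : Option (Var d) →₀ ℕ => m + Finsupp.single none 1) :
    coeff m (D (some i) f) = 0 := by
  classical
  rw [d2_Ds, coeff_monomial_mul, if_neg]
  intro h1
  exact h ⟨m - Finsupp.single none 1, tsub_add_cancel_of_le h1⟩

private lemma d2_x (v : Option (Var d)) (m : Option (Var d) →₀ ℕ) (h : ∀ i, v ≠ some (Var.x i)) :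
    ∑ i : Fin d, (m + Finsupp.single v 1 : Option (Var d) →₀ ℕ) (some (Var.x i)) =
      ∑ i, m (some (Var.x i)) := by
  refine Finset.sum_congr rfl fun i _ => ?_
  rw [Finsupp.add_apply, Finsupp.single_eq_of_ne (h i).symm, add_zero]

private lemma d2_ydeg_s (m : Option (Var d) →₀ ℕ) :
    ydeg (m + Finsupp.single none 1 : Option (Var d) →₀ ℕ) = ydeg m := by
  unfold ydeg
  refine Finset.sum_congr rfl fun i _ => ?_
  rw [Finsupp.add_apply, Finsupp.single_eq_of_ne (by simp), add_zero]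

private lemma d2_ydeg_y (k : Fin d) (m : Option (Var d) →₀ ℕ) :
    ydeg (m + Finsupp.single (some (Var.y k)) 1 : Option (Var d) →₀ ℕ) = ydeg m + 1 := by
  classical
  unfold ydeg
  simp only [Finsupp.add_apply, Finset.sum_add_distrib]
  congr 1
  rw [Finset.sum_eq_single k]
  · simp
  · intro i _ hi
    rw [Finsupp.single_eq_of_ne]
    simpa using hi
  · intro h; exact absurd (Finset.mem_univ k) h

/-- `mw` at `m + s` -/
private lemma d2_mw_s (a b c : ℝ) (m : Option (Var d) →₀ ℕ) :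
    mw a b c (m + Finsupp.single none 1) =
      ENNReal.ofReal (a ^ (∑ i, m (some (.x i))) * b ^ (m (some .t) + ydeg m) *
        (c ^ (m none + 1) / ((max (ydeg m) (m none + 1) : ℕ) : ℝ) ^ (m none + 1))) := by
  unfold mw
  rw [d2_x none m (by simp), d2_ydeg_s]
  have h0 : (m + Finsupp.single none 1 : Option (Var d) →₀ ℕ) none = m none + 1 := by
    rw [Finsupp.add_apply, Finsupp.single_eq_same]
  have h1 : (m + Finsupp.single none 1 : Option (Var d) →₀ ℕ) (some .t) = m (some .t) := by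
    rw [Finsupp.add_apply, Finsupp.single_eq_of_ne (by simp), add_zero]
  rw [h0, h1]

/-- `mw` at `m + y_i` -/
private lemma d2_mw_y (a b c : ℝ) (i : Fin d) (m : Option (Var d) →₀ ℕ) :
    mw a b c (m + Finsupp.single (some (Var.y i)) 1) =
      ENNReal.ofReal (a ^ (∑ i, m (some (.x i))) * b ^ (m (some .t) + (ydeg m + 1)) *
        (c ^ (m none) / ((max (ydeg m + 1) (m none) : ℕ) : ℝ) ^ (m none))) := by
  unfold mw
  rw [d2_x (some (Var.y i)) m (by simp), d2_ydeg_y]
  have h0 : (m + Finsupp.single (some (Var.y i)) 1 : Option (Var d) →₀ ℕ) none = m none := by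
    rw [Finsupp.add_apply, Finsupp.single_eq_of_ne (by simp), add_zero]
  have h1 : (m + Finsupp.single (some (Var.y i)) 1 : Option (Var d) →₀ ℕ) (some .t) =
      m (some .t) := by
    rw [Finsupp.add_apply, Finsupp.single_eq_of_ne (by simp), add_zero]
  rw [h0, h1]

private lemma d2_pos (g e : ℕ) : (0 : ℝ) < ((max g (e + 1) : ℕ) : ℝ) := by
  have : 0 < max g (e + 1) := lt_of_lt_of_le (Nat.succ_pos e) (le_max_right _ _)
  positivity

private lemma d2_pos' (g e : ℕ) : (0 : ℝ) < ((max g e : ℕ) : ℝ) ^ e := by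
  rcases Nat.eq_zero_or_pos e with h1 | h1
  · rw [h1, pow_zero]; exact one_pos
  · have : 0 < max g e := lt_of_lt_of_le h1 (le_max_right _ _)
    positivity

private lemma d2_real (g e : ℕ) : ((e + g : ℕ) : ℝ) * ((max g e : ℕ) : ℝ) ^ e ≤
    2 * ((max g (e + 1) : ℕ) : ℝ) ^ (e + 1) := by
  have h1 : ((e + g : ℕ) : ℝ) ≤ 2 * ((max g (e + 1) : ℕ) : ℝ) := by
    have : e + g ≤ 2 * max g (e + 1) := by omega
    exact_mod_cast this
  have h2 : ((max g e : ℕ) : ℝ) ≤ ((max g (e + 1) : ℕ) : ℝ) := by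
    have : max g e ≤ max g (e + 1) := by omega
    exact_mod_cast this
  calc ((e + g : ℕ) : ℝ) * ((max g e : ℕ) : ℝ) ^ e
      ≤ (2 * ((max g (e + 1) : ℕ) : ℝ)) * ((max g (e + 1) : ℕ) : ℝ) ^ e := by gcongr
    _ = _ := by rw [pow_succ]; ring

private lemma d2_real' (g e : ℕ) : ((g + 1 : ℕ) : ℝ) * ((max (g + 1) e : ℕ) : ℝ) ^ e ≤
    3 * ((max g (e + 1) : ℕ) : ℝ) ^ (e + 1) := by
  rcases Nat.lt_or_ge e g with h | h
  · rw [max_eq_left (by omega : e ≤ g + 1), max_eq_left (by omega : e + 1 ≤ g), ← pow_succ']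
    have h0 : 0 < g := by omega
    have hg : (0 : ℝ) < g := by exact_mod_cast h0
    have h1 : (1 + 1 / (g : ℝ)) ^ (e + 1) ≤ 3 := by
      calc (1 + 1 / (g : ℝ)) ^ (e + 1) ≤ (1 + 1 / (g : ℝ)) ^ g := by
            refine pow_le_pow_right₀ ?_ h
            have : 0 ≤ 1 / (g : ℝ) := by positivity
            linarith
        _ ≤ (Real.exp (1 / (g : ℝ))) ^ g := by
            refine pow_le_pow_left₀ (by positivity) ?_ _
            have := Real.add_one_le_exp (1 / (g : ℝ))
            linarith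
        _ = Real.exp 1 := by
            rw [← Real.exp_nat_mul]; congr 1; field_simp
        _ ≤ 3 := by linarith [Real.exp_one_lt_d9]
    have h2 : ((g + 1 : ℕ) : ℝ) = (1 + 1 / (g : ℝ)) * g := by
      push_cast; field_simp
    rw [h2, mul_pow]
    exact mul_le_mul_of_nonneg_right h1 (by positivity)
  · rw [max_eq_right (by omega : g ≤ e + 1)]
    have h1 : ((g + 1 : ℕ) : ℝ) ≤ ((e + 1 : ℕ) : ℝ) := by exact_mod_cast Nat.succ_le_succ h
    have h2 : ((max (g + 1) e : ℕ) : ℝ) ≤ ((e + 1 : ℕ) : ℝ) := by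
      have : max (g + 1) e ≤ e + 1 := by omega
      exact_mod_cast this
    calc ((g + 1 : ℕ) : ℝ) * ((max (g + 1) e : ℕ) : ℝ) ^ e
        ≤ ((e + 1 : ℕ) : ℝ) * ((e + 1 : ℕ) : ℝ) ^ e := by gcongr
      _ = ((e + 1 : ℕ) : ℝ) ^ (e + 1) := by rw [pow_succ]; ring
      _ ≤ 3 * ((e + 1 : ℕ) : ℝ) ^ (e + 1) := by
          have : (0 : ℝ) ≤ ((e + 1 : ℕ) : ℝ) ^ (e + 1) := by positivity
          linarith

/-- `D none` maps the monomial `m` to `-(e + g)` times the monomial `m + s`;
`(e + g) max(g,e)^e ≤ 2 max(g,e+1)^(e+1)` -/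
lemma nrm_mw_D_none {a b c : ℝ} (ha : 0 < a) (hb : 0 < b) (hc : 0 < c) (f : Sym d) :
    nrm (mw a b c) (D none f) ≤ ENNReal.ofReal (2 * c) * nrm (mw a b c) f := by
  refine nrm_shift_le (T := fun f => D none f) (mw a b c) f
    (fun m => m + Finsupp.single none 1) (add_left_injective _)
    (fun m => -((m none + ydeg m : ℕ) : ℂ)) (fun m => d2_coeff f m)
    (fun m hm => d2_coeff0 f m hm) fun m => ?_
  have h3 : ((‖(-((m none + ydeg m : ℕ) : ℂ))‖₊ : ℝ≥0) : ℝ≥0∞) =
      ENNReal.ofReal ((m none + ydeg m : ℕ) : ℝ) := by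
    rw [← ENNReal.ofReal_coe_nnreal, coe_nnnorm, norm_neg, Complex.norm_natCast]
  rw [h3, d2_mw_s, mw, ← ENNReal.ofReal_mul (Nat.cast_nonneg _),
    ← ENNReal.ofReal_mul (by positivity)]
  apply ENNReal.ofReal_le_ofReal
  have h4 := d2_real (ydeg m) (m none)
  have h5 := d2_pos' (ydeg m) (m none)
  have h6 := d2_pos (ydeg m) (m none)
  have h7 : ((m none + ydeg m : ℕ) : ℝ) / ((max (ydeg m) (m none + 1) : ℕ) : ℝ) ^ (m none + 1) ≤
      2 / ((max (ydeg m) (m none) : ℕ) : ℝ) ^ (m none) := by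
    rw [div_le_div_iff₀ (by positivity) h5]
    exact h4
  calc ((m none + ydeg m : ℕ) : ℝ) * (a ^ (∑ i, m (some (.x i))) * b ^ (m (some .t) + ydeg m) *
        (c ^ (m none + 1) / ((max (ydeg m) (m none + 1) : ℕ) : ℝ) ^ (m none + 1)))
      = a ^ (∑ i, m (some (.x i))) * b ^ (m (some .t) + ydeg m) * (c ^ (m none + 1) *
        (((m none + ydeg m : ℕ) : ℝ) /
          ((max (ydeg m) (m none + 1) : ℕ) : ℝ) ^ (m none + 1))) := by ring
    _ ≤ a ^ (∑ i, m (some (.x i))) * b ^ (m (some .t) + ydeg m) * (c ^ (m none + 1) *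
        (2 / ((max (ydeg m) (m none) : ℕ) : ℝ) ^ (m none))) := by gcongr
    _ = _ := by rw [pow_succ]; ring

/-- `D (some i)` maps the monomial `m` to `m (y_i)` times the monomial `m + s - y_i`;
`g max(g,e)^e ≤ 3 max(g-1,e+1)^(e+1)`: for `g ≤ e + 1` clear, for `g ≥ e + 2` it is
`(g/(g-1))^(e+1) ≤ (1 + 1/(g-1))^(g-1) ≤ 3` -/
lemma nrm_mw_D_some {a b c : ℝ} (ha : 0 < a) (hb : 0 < b) (hc : 0 < c) (i : Fin d) (f : Sym d) :
    nrm (mw a b c) (D (some i) f) ≤ ENNReal.ofReal (3 * c / b) * nrm (mw a b c) f := by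
  have hinj : Function.Injective
      fun m : Option (Var d) →₀ ℕ => m + Finsupp.single none 1 := add_left_injective _
  have hinj' : Function.Injective
      fun m : Option (Var d) →₀ ℕ => m + Finsupp.single (some (Var.y i)) 1 := add_left_injective _
  have h4 : nrm (mw a b c) (D (some i) f) =
      ∑' m, (‖coeff (m + Finsupp.single none 1) (D (some i) f)‖₊ : ℝ≥0∞) *
        mw a b c (m + Finsupp.single none 1) := by
    rw [nrm]
    refine (hinj.tsum_eq (f := fun m => (‖coeff m (D (some i) f)‖₊ : ℝ≥0∞) * mw a b c m) ?_).symm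
    intro m hm
    by_contra hne
    refine hm ?_
    simp only
    rw [d2_coeffs0 i f m hne, nnnorm_zero, ENNReal.coe_zero, zero_mul]
  rw [h4]
  calc ∑' m, (‖coeff (m + Finsupp.single none 1) (D (some i) f)‖₊ : ℝ≥0∞) *
        mw a b c (m + Finsupp.single none 1)
      ≤ ∑' m, ENNReal.ofReal (3 * c / b) *
          ((‖coeff (m + Finsupp.single (some (Var.y i)) 1) f‖₊ : ℝ≥0∞) *
            mw a b c (m + Finsupp.single (some (Var.y i)) 1)) := by
        refine ENNReal.tsum_le_tsum fun m => ?_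
        have h5 : ((‖((m (some (Var.y i)) : ℂ) + 1)‖₊ : ℝ≥0) : ℝ≥0∞) ≤
            ENNReal.ofReal ((ydeg m + 1 : ℕ) : ℝ) := by
          rw [← ENNReal.ofReal_coe_nnreal, coe_nnnorm]
          apply ENNReal.ofReal_le_ofReal
          have h6 : ((m (some (Var.y i)) : ℂ) + 1) = ((m (some (Var.y i)) + 1 : ℕ) : ℂ) := by
            push_cast; rfl
          rw [h6, Complex.norm_natCast]
          have h7 : m (some (Var.y i)) ≤ ydeg m :=
            Finset.single_le_sum (f := fun i => m (some (Var.y i))) (fun _ _ => Nat.zero_le _)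
              (Finset.mem_univ i)
          exact_mod_cast Nat.succ_le_succ h7
        rw [d2_coeffs, nnnorm_mul, ENNReal.coe_mul, d2_mw_s, d2_mw_y]
        have key : ENNReal.ofReal ((ydeg m + 1 : ℕ) : ℝ) *
            ENNReal.ofReal (a ^ (∑ i, m (some (.x i))) * b ^ (m (some .t) + ydeg m) *
              (c ^ (m none + 1) / ((max (ydeg m) (m none + 1) : ℕ) : ℝ) ^ (m none + 1))) ≤
            ENNReal.ofReal (3 * c / b) *
            ENNReal.ofReal (a ^ (∑ i, m (some (.x i))) * b ^ (m (some .t) + (ydeg m + 1)) *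
              (c ^ (m none) / ((max (ydeg m + 1) (m none) : ℕ) : ℝ) ^ (m none))) := by
          rw [← ENNReal.ofReal_mul (Nat.cast_nonneg _), ← ENNReal.ofReal_mul (by positivity)]
          apply ENNReal.ofReal_le_ofReal
          have h8 := d2_real' (ydeg m) (m none)
          have h9 := d2_pos' (ydeg m + 1) (m none)
          have h10 := d2_pos (ydeg m) (m none)
          have h11 : ((ydeg m + 1 : ℕ) : ℝ) /
              ((max (ydeg m) (m none + 1) : ℕ) : ℝ) ^ (m none + 1) ≤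
              3 / ((max (ydeg m + 1) (m none) : ℕ) : ℝ) ^ (m none) := by
            rw [div_le_div_iff₀ (by positivity) h9]
            exact h8
          calc ((ydeg m + 1 : ℕ) : ℝ) *
                (a ^ (∑ i, m (some (.x i))) * b ^ (m (some .t) + ydeg m) *
                (c ^ (m none + 1) / ((max (ydeg m) (m none + 1) : ℕ) : ℝ) ^ (m none + 1)))
              = a ^ (∑ i, m (some (.x i))) * b ^ (m (some .t) + ydeg m) * (c ^ (m none + 1) *
                (((ydeg m + 1 : ℕ) : ℝ) /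
                  ((max (ydeg m) (m none + 1) : ℕ) : ℝ) ^ (m none + 1))) := by ring
            _ ≤ a ^ (∑ i, m (some (.x i))) * b ^ (m (some .t) + ydeg m) * (c ^ (m none + 1) *
                (3 / ((max (ydeg m + 1) (m none) : ℕ) : ℝ) ^ (m none))) := by gcongr
            _ = _ := by
                rw [pow_succ c, ← add_assoc, pow_succ b]
                field_simp
        calc (‖coeff (m + Finsupp.single (some (Var.y i)) 1) f‖₊ : ℝ≥0∞) *
              (‖((m (some (Var.y i)) : ℂ) + 1)‖₊ : ℝ≥0∞) *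
              ENNReal.ofReal (a ^ (∑ i, m (some (.x i))) * b ^ (m (some .t) + ydeg m) *
              (c ^ (m none + 1) / ((max (ydeg m) (m none + 1) : ℕ) : ℝ) ^ (m none + 1)))
            ≤ (‖coeff (m + Finsupp.single (some (Var.y i)) 1) f‖₊ : ℝ≥0∞) *
              (ENNReal.ofReal ((ydeg m + 1 : ℕ) : ℝ) *
              ENNReal.ofReal (a ^ (∑ i, m (some (.x i))) * b ^ (m (some .t) + ydeg m) *
              (c ^ (m none + 1) / ((max (ydeg m) (m none + 1) : ℕ) : ℝ) ^ (m none + 1)))) := by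
              rw [mul_assoc]
              gcongr
          _ ≤ _ := mul_le_mul_right key _
          _ = _ := by ring
    _ = ENNReal.ofReal (3 * c / b) *
          ∑' m, ((‖coeff (m + Finsupp.single (some (Var.y i)) 1) f‖₊ : ℝ≥0∞) *
            mw a b c (m + Finsupp.single (some (Var.y i)) 1)) := ENNReal.tsum_mul_left
    _ ≤ ENNReal.ofReal (3 * c / b) * nrm (mw a b c) f :=
        mul_le_mul' le_rfl (ENNReal.tsum_comp_le_tsum_of_injective hinj'
          (fun m => (‖coeff m f‖₊ : ℝ≥0∞) * mw a b c m))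

/-! ## row d3: the composition -/

-- BEGIN d3

private lemma d3_pderiv (v : Option (Var d)) (m : Option (Var d) →₀ ℕ) :
    pderiv ℂ v (monomial m (1 : ℂ)) = (m v : ℂ) • monomial (m - Finsupp.single v 1) (1 : ℂ) := by
  classical
  ext k
  rw [coeff_pderiv, coeff_smul, coeff_monomial, coeff_monomial]
  by_cases h : k + Finsupp.single v 1 = m
  · have h2 : k = m - Finsupp.single v 1 := by rw [← h, add_tsub_cancel_right]
    have h3 : m v = k v + 1 := by rw [← h]; simp
    rw [if_pos h, if_pos h2, h3]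
    push_cast
    ring
  · rw [if_neg h, zero_mul]
    by_cases h2 : k = m - Finsupp.single v 1
    · have h0 : m v = 0 := by
        by_contra hne
        apply h
        rw [h2]
        exact tsub_add_cancel_of_le (Finsupp.single_le_iff.2 (Nat.one_le_iff_ne_zero.2 hne))
      rw [h0]; simp
    · rw [if_neg h2, mul_zero]

/-- the base variable of the index `j` -/
private def d3_bv : Option (Fin d) → Var d
  | none => .t
  | some i => .x i

private lemma d3_B (j : Option (Fin d)) (m : Option (Var d) →₀ ℕ) :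
    B j (monomial m (1 : ℂ)) = (m (some (d3_bv j)) : ℂ) •
      (monomial (m - Finsupp.single (some (d3_bv j)) 1) (1 : ℂ) : Sym d) := by
  cases j <;> exact d3_pderiv _ _

private lemma d3_bdeg (j : Option (Fin d)) (p : Option (Var d) →₀ ℕ) :
    bdeg (p + Finsupp.single (some (d3_bv j)) 1) = bdeg p + 1 := by
  cases j with
  | none => simp [bdeg, d3_bv]; omega
  | some i => simp [bdeg, d3_bv, Finsupp.single_apply, Finset.sum_add_distrib]; omega

private lemma d3_sum (m : Option (Var d) →₀ ℕ) : ∑ j, m (some (d3_bv j)) = bdeg m := by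
  rw [Fintype.sum_option, bdeg, add_comm]
  rfl

/-- the weight of a product with the base variable -/
private lemma d3_mw {a b c : ℝ} (ha : 0 < a) (hb : 0 < b) (j : Option (Fin d))
    (p : Option (Var d) →₀ ℕ) : mw a b c (p + Finsupp.single (some (d3_bv j)) 1) =
      ENNReal.ofReal (match j with | none => b | some _ => a) * mw a b c p := by
  cases j with
  | none =>
    have h1 : ydeg (p + Finsupp.single (some (d3_bv (none : Option (Fin d)))) 1) = ydeg p := by
      simp [ydeg, d3_bv]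
    have h2 : ∑ i, (p + Finsupp.single (some (d3_bv (none : Option (Fin d)))) 1 :
        Option (Var d) →₀ ℕ) (some (.x i)) = ∑ i, p (some (.x i)) := by
      simp [d3_bv]
    have h3 : (p + Finsupp.single (some (d3_bv (none : Option (Fin d)))) 1 :
        Option (Var d) →₀ ℕ) (some .t) = p (some .t) + 1 := by
      simp [d3_bv]
    have h4 : (p + Finsupp.single (some (d3_bv (none : Option (Fin d)))) 1 :
        Option (Var d) →₀ ℕ) none = p none := by
      simp [d3_bv]
    unfold mw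
    rw [h1, h2, h3, h4, ← ENNReal.ofReal_mul hb.le]
    congr 1
    ring
  | some i =>
    have h1 : ydeg (p + Finsupp.single (some (d3_bv (some i))) 1) = ydeg p := by
      simp [ydeg, d3_bv]
    have h2 : ∑ l, (p + Finsupp.single (some (d3_bv (some i))) 1 :
        Option (Var d) →₀ ℕ) (some (.x l)) = (∑ l, p (some (.x l))) + 1 := by
      simp [d3_bv, Finsupp.single_apply, Finset.sum_add_distrib]
    have h3 : (p + Finsupp.single (some (d3_bv (some i))) 1 :
        Option (Var d) →₀ ℕ) (some .t) = p (some .t) := by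
      simp [d3_bv]
    have h4 : (p + Finsupp.single (some (d3_bv (some i))) 1 :
        Option (Var d) →₀ ℕ) none = p none := by
      simp [d3_bv]
    unfold mw
    rw [h1, h2, h3, h4, ← ENNReal.ofReal_mul ha.le]
    congr 1
    ring

/-- one step: the loss in `D j` against the gain in the base variable -/
private lemma d3_step {a b c : ℝ} (ha : 0 < a) (ha1 : a ≤ 1) (hb : 0 < b) (hc : 0 < c)
    (j : Option (Fin d)) (p : Option (Var d) →₀ ℕ) (f : Sym d) :
    mw a b c p * nrm (mw a b c) (D j f) ≤ ENNReal.ofReal (3 * c / (a * b)) *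
      (mw a b c (p + Finsupp.single (some (d3_bv j)) 1) * nrm (mw a b c) f) := by
  rw [d3_mw ha hb]
  cases j with
  | none =>
    calc mw a b c p * nrm (mw a b c) (D none f)
        ≤ mw a b c p * (ENNReal.ofReal (2 * c) * nrm (mw a b c) f) := by
          gcongr
          exact nrm_mw_D_none ha hb hc f
      _ = ENNReal.ofReal (2 * c) * (mw a b c p * nrm (mw a b c) f) := by ring
      _ ≤ ENNReal.ofReal (3 * c / (a * b) * b) * (mw a b c p * nrm (mw a b c) f) := by
          refine mul_le_mul' (ENNReal.ofReal_le_ofReal ?_) le_rfl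
          have h : 3 * c / (a * b) * b = 3 * c / a := by field_simp
          rw [h, le_div_iff₀ ha]
          nlinarith
      _ = _ := by
          rw [ENNReal.ofReal_mul (by positivity)]
          ring
  | some i =>
    calc mw a b c p * nrm (mw a b c) (D (some i) f)
        ≤ mw a b c p * (ENNReal.ofReal (3 * c / b) * nrm (mw a b c) f) := by
          gcongr
          exact nrm_mw_D_some ha hb hc i f
      _ = ENNReal.ofReal (3 * c / (a * b) * a) * (mw a b c p * nrm (mw a b c) f) := by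
          have h : 3 * c / (a * b) * a = 3 * c / b := by field_simp
          rw [h]
          ring
      _ = _ := by
          rw [ENNReal.ofReal_mul (by positivity)]
          ring

/-- `nrm (lb n f X^m') ≤ θ^n (bdeg m' choose n) w m' nrm f` -/
private lemma d3_lb {a b c : ℝ} (ha : 0 < a) (ha1 : a ≤ 1) (hb : 0 < b) (hc : 0 < c) (n : ℕ) :
    ∀ (f : Sym d) (m' : Option (Var d) →₀ ℕ),
      nrm (mw a b c) (lb n f (monomial m' 1)) ≤
        ENNReal.ofReal (3 * c / (a * b)) ^ n * ((bdeg m').choose n : ℝ≥0∞) *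
          (mw a b c m' * nrm (mw a b c) f) := by
  induction n with
  | zero =>
    intro f m'
    change nrm (mw a b c) (f * monomial m' 1) ≤ _
    refine (nrm_mw_mul_le ha hb hc _ _).trans ?_
    rw [nrm_monomial]
    simp [mul_comm]
  | succ n ih =>
    intro f m'
    set θ := ENNReal.ofReal (3 * c / (a * b)) with hθ
    have key : ∀ j : Option (Fin d),
        nrm (mw a b c) (lb n (D j f) (B j (monomial m' 1))) ≤ (m' (some (d3_bv j)) : ℝ≥0∞) *
          (θ ^ (n + 1) * ((bdeg m' - 1).choose n : ℝ≥0∞) * (mw a b c m' * nrm (mw a b c) f)) := by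
      intro j
      rw [d3_B]
      change nrm _ (leib D B n _ _) ≤ _
      rw [leib_smul_right, nrm_smul]
      have hk : ((‖((m' (some (d3_bv j)) : ℕ) : ℂ)‖₊ : ℝ≥0) : ℝ≥0∞)
          = (m' (some (d3_bv j)) : ℝ≥0∞) := by
        rw [Complex.nnnorm_natCast]
        simp
      rw [hk]
      rcases Nat.eq_zero_or_pos (m' (some (d3_bv j))) with h0 | h0
      · rw [h0]; simp
      · gcongr
        obtain ⟨p, rfl⟩ : ∃ p, m' = p + Finsupp.single (some (d3_bv j)) 1 :=
          ⟨m' - Finsupp.single (some (d3_bv j)) 1,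
            (tsub_add_cancel_of_le (Finsupp.single_le_iff.2 h0)).symm⟩
        rw [add_tsub_cancel_right, d3_bdeg, Nat.add_sub_cancel]
        calc nrm (mw a b c) (leib D B n (D j f) (monomial p 1))
            ≤ θ ^ n * ((bdeg p).choose n : ℝ≥0∞) *
              (mw a b c p * nrm (mw a b c) (D j f)) := ih _ _
          _ ≤ θ ^ n * ((bdeg p).choose n : ℝ≥0∞) * (θ *
              (mw a b c (p + Finsupp.single (some (d3_bv j)) 1) * nrm (mw a b c) f)) :=
              mul_le_mul' le_rfl (d3_step ha ha1 hb hc j p f)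
          _ = _ := by ring
    have hk : ((‖((n : ℂ) + 1)⁻¹‖₊ : ℝ≥0) : ℝ≥0∞) = ((n : ℝ≥0∞) + 1)⁻¹ := by
      rw [nnnorm_inv]
      have h1 : ‖((n : ℂ) + 1)‖₊ = (n : ℝ≥0) + 1 := by
        have := Complex.nnnorm_natCast (n + 1)
        push_cast at this
        exact this
      rw [h1, ENNReal.coe_inv (by positivity)]
      push_cast
      rfl
    calc nrm (mw a b c) (lb (n + 1) f (monomial m' 1))
        = ((n : ℝ≥0∞) + 1)⁻¹ * nrm (mw a b c) (∑ j, lb n (D j f) (B j (monomial m' 1))) := by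
          rw [← hk, ← nrm_smul]
          rfl
      _ ≤ ((n : ℝ≥0∞) + 1)⁻¹ * ∑ j, nrm (mw a b c) (lb n (D j f) (B j (monomial m' 1))) := by
          gcongr
          exact nrm_sum_le _ _ _
      _ ≤ ((n : ℝ≥0∞) + 1)⁻¹ * ∑ j : Option (Fin d), (m' (some (d3_bv j)) : ℝ≥0∞) *
          (θ ^ (n + 1) * ((bdeg m' - 1).choose n : ℝ≥0∞) *
            (mw a b c m' * nrm (mw a b c) f)) := by
          gcongr with j
          exact key j
      _ = ((n : ℝ≥0∞) + 1)⁻¹ * (((bdeg m' * (bdeg m' - 1).choose n : ℕ) : ℝ≥0∞) *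
          (θ ^ (n + 1) * (mw a b c m' * nrm (mw a b c) f))) := by
          rw [← Finset.sum_mul, ← Nat.cast_sum, d3_sum]
          push_cast
          ring
      _ = ((n : ℝ≥0∞) + 1)⁻¹ * ((((n + 1) * (bdeg m').choose (n + 1) : ℕ) : ℝ≥0∞) *
          (θ ^ (n + 1) * (mw a b c m' * nrm (mw a b c) f))) := by
          congr 3
          rcases Nat.eq_zero_or_pos (bdeg m') with h | h
          · rw [h]; simp
          · obtain ⟨e, he⟩ : ∃ e, bdeg m' = e + 1 := ⟨bdeg m' - 1, by omega⟩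
            rw [he, Nat.add_sub_cancel, Nat.add_one_mul_choose_eq, mul_comm]
      _ = (((n : ℝ≥0∞) + 1)⁻¹ * ((n : ℝ≥0∞) + 1)) * (θ ^ (n + 1) *
          ((bdeg m').choose (n + 1) : ℝ≥0∞) * (mw a b c m' * nrm (mw a b c) f)) := by
          push_cast
          ring
      _ = _ := by
          rw [ENNReal.inv_mul_cancel (by positivity) (by finiteness), one_mul]

private lemma d3_comp_le (w : (Option (Var d) →₀ ℕ) → ℝ≥0∞) (f g : Sym d) :
    nrm w (comp f g) ≤ ∑' n, nrm w (lb n f g) := by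
  unfold nrm
  rw [ENNReal.tsum_comm]
  apply ENNReal.tsum_le_tsum
  intro m
  rw [ENNReal.tsum_mul_right]
  apply mul_le_mul_left
  rw [coeff_comp]
  calc ((‖∑ n ∈ Finset.range (m none + 1), coeff m (lb n f g)‖₊ : ℝ≥0) : ℝ≥0∞)
      ≤ ((∑ n ∈ Finset.range (m none + 1), ‖coeff m (lb n f g)‖₊ : ℝ≥0) : ℝ≥0∞) := by
        exact_mod_cast nnnorm_sum_le _ _
    _ = ∑ n ∈ Finset.range (m none + 1), ((‖coeff m (lb n f g)‖₊ : ℝ≥0) : ℝ≥0∞) := by
        push_cast; rfl
    _ ≤ _ := ENNReal.sum_le_tsum _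

/-- `2 ^ bdeg m w m ≤ w₂ m` -/
private lemma d3_two {a b c : ℝ} (ha : 0 < a) (hb : 0 < b) (hc : 0 < c)
    (m : Option (Var d) →₀ ℕ) : 2 ^ bdeg m * mw a b c m ≤ mw (2 * a) (2 * b) c m := by
  have h2 : (2 : ℝ≥0∞) ^ bdeg m = ENNReal.ofReal (2 ^ bdeg m) := by
    rw [ENNReal.ofReal_pow (by norm_num)]
    norm_num
  unfold mw
  rw [h2, ← ENNReal.ofReal_mul (by positivity)]
  apply ENNReal.ofReal_le_ofReal
  rw [← mul_assoc]
  apply mul_le_mul_of_nonneg_right _ (by positivity)
  rw [mul_pow, mul_pow]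
  have h3 : (2 : ℝ) ^ bdeg m ≤ 2 ^ (∑ i, m (some (.x i))) * 2 ^ (m (some .t) + ydeg m) := by
    rw [← pow_add]
    apply pow_le_pow_right₀ (by norm_num)
    unfold bdeg
    omega
  calc (2 : ℝ) ^ bdeg m * (a ^ (∑ i, m (some (.x i))) * b ^ (m (some .t) + ydeg m))
      ≤ (2 ^ (∑ i, m (some (.x i))) * 2 ^ (m (some .t) + ydeg m)) *
        (a ^ (∑ i, m (some (.x i))) * b ^ (m (some .t) + ydeg m)) := by gcongr
    _ = _ := by ring

/-- With `θ = 3 c / (a b) ≤ 1`: `nrm (lb n X^m X^m') ≤ θ^n (bdeg m' choose n) w m w m'` by induction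
on `n` (`(n+1) lb (n+1) f X^m' = ∑_i m'_i lb n (D i f) X^(m' - i)`, with the left factor arbitrary:
prove `nrm (lb n f X^m') ≤ θ^n (bdeg m' choose n) w m' nrm f`), and `∑_n θ^n (N choose n) = (1+θ)^N
≤ 2^N`. -/
theorem nrm_mw_comp {a b c : ℝ} (ha : 0 < a) (ha1 : a ≤ 1) (hb : 0 < b) (hb1 : b ≤ 1) (hc : 0 < c)
    (h : 3 * c ≤ a * b) (f g : Sym d) :
    nrm (mw a b c) (comp f g) ≤ nrm (mw a b c) f * nrm (mw (2 * a) (2 * b) c) g := by
  set θ := ENNReal.ofReal (3 * c / (a * b)) with hθ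
  have hθ1 : θ ≤ 1 := by
    rw [hθ, ← ENNReal.ofReal_one]
    apply ENNReal.ofReal_le_ofReal
    rw [div_le_one (by positivity)]
    exact h
  have key : ∀ n, nrm (mw a b c) (lb n f g) ≤ nrm (mw a b c) f *
      nrm (fun m => ((bdeg m).choose n : ℝ≥0∞) * mw a b c m) g := by
    intro n
    have := nrm_lb_le (w := mw a b c) (u := mw a b c)
      (v := fun m => ((bdeg m).choose n : ℝ≥0∞) * mw a b c m) (K := 1) n (fun m m' => by
        refine (d3_lb ha ha1 hb hc n (monomial m 1) m').trans ?_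
        rw [nrm_monomial]
        simp only [nnnorm_one, ENNReal.coe_one, one_mul]
        calc θ ^ n * ((bdeg m').choose n : ℝ≥0∞) * (mw a b c m' * mw a b c m)
            ≤ 1 * ((bdeg m').choose n : ℝ≥0∞) * (mw a b c m' * mw a b c m) := by
              gcongr
              exact pow_le_one' hθ1 n
          _ = _ := by ring) f g
    rwa [one_mul] at this
  calc nrm (mw a b c) (comp f g) ≤ ∑' n, nrm (mw a b c) (lb n f g) := d3_comp_le _ _ _
    _ ≤ ∑' n, nrm (mw a b c) f * nrm (fun m => ((bdeg m).choose n : ℝ≥0∞) * mw a b c m) g :=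
        ENNReal.tsum_le_tsum key
    _ = nrm (mw a b c) f * ∑' n, nrm (fun m => ((bdeg m).choose n : ℝ≥0∞) * mw a b c m) g := by
        rw [ENNReal.tsum_mul_left]
    _ ≤ _ := by
        gcongr
        unfold nrm
        rw [ENNReal.tsum_comm]
        apply ENNReal.tsum_le_tsum
        intro m
        rw [ENNReal.tsum_mul_left, ENNReal.tsum_mul_right]
        gcongr
        refine le_trans ?_ (d3_two ha hb hc m)
        gcongr
        rw [tsum_eq_sum (s := Finset.range (bdeg m + 1)) (fun n hn => by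
          rw [Finset.mem_range, not_lt] at hn
          rw [Nat.choose_eq_zero_of_lt (by omega), Nat.cast_zero]), ← Nat.cast_sum,
          Nat.sum_range_choose]
        push_cast
        rfl

/-! ## row d4: division by `t`, `y_i` -/

-- row d4 (helper36): private helpers d4_*
private lemma d4_pow (g e : ℕ) :
    ((max (g + 1) e : ℕ) : ℝ) ^ e ≤ 3 * ((max g e : ℕ) : ℝ) ^ e := by
  rcases Nat.lt_or_ge g e with h | h
  · rw [max_eq_right (by omega : g + 1 ≤ e), max_eq_right (by omega : g ≤ e)]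
    have : (0 : ℝ) ≤ (e : ℝ) ^ e := by positivity
    linarith
  · rw [max_eq_left (by omega : e ≤ g + 1), max_eq_left h]
    rcases Nat.eq_zero_or_pos g with h0 | h0
    · subst h0
      have : e = 0 := by omega
      subst this
      norm_num
    · have hg : (0 : ℝ) < g := by exact_mod_cast h0
      have h1 : (1 + 1 / (g : ℝ)) ^ e ≤ 3 := by
        calc (1 + 1 / (g : ℝ)) ^ e ≤ (1 + 1 / (g : ℝ)) ^ g := by
              refine pow_le_pow_right₀ ?_ h
              have : 0 ≤ 1 / (g : ℝ) := by positivity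
              linarith
          _ ≤ (Real.exp (1 / (g : ℝ))) ^ g := by
              refine pow_le_pow_left₀ (by positivity) ?_ _
              have := Real.add_one_le_exp (1 / (g : ℝ))
              linarith
          _ = Real.exp 1 := by
              rw [← Real.exp_nat_mul]; congr 1; field_simp
          _ ≤ 3 := by linarith [Real.exp_one_lt_d9]
      have h2 : ((g + 1 : ℕ) : ℝ) = (1 + 1 / (g : ℝ)) * g := by
        push_cast; field_simp
      rw [h2, mul_pow]
      exact mul_le_mul_of_nonneg_right h1 (by positivity)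

private lemma d4_w {a b c : ℝ} (ha : 0 < a) (hb : 0 < b) (hc : 0 < c) (j : Option (Fin d))
    (m : Option (Var d) →₀ ℕ) : mw a b c m ≤
      ENNReal.ofReal (3 / b) * mw a b c (m + Finsupp.single (some (vV j)) 1) := by
  classical
  unfold mw
  rw [← ENNReal.ofReal_mul (by positivity)]
  apply ENNReal.ofReal_le_ofReal
  have h0 : (m + Finsupp.single (some (vV j)) 1 : Option (Var d) →₀ ℕ) none = m none := by
    rw [Finsupp.add_apply, Finsupp.single_eq_of_ne (by simp), add_zero]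
  have hM : ∀ g : ℕ, (0 : ℝ) < ((max g (m none) : ℕ) : ℝ) ^ (m none) := by
    intro g
    rcases Nat.eq_zero_or_pos (m none) with h1 | h1
    · rw [h1, pow_zero]; exact one_pos
    · have : 0 < max g (m none) := lt_of_lt_of_le h1 (le_max_right _ _)
      positivity
  rw [h0]
  cases j with
  | none =>
    have h1 : ∀ i : Fin d, (m + Finsupp.single (some (vV none)) 1 : Option (Var d) →₀ ℕ)
        (some (Var.x i)) = m (some (Var.x i)) := fun i => by
      rw [Finsupp.add_apply, Finsupp.single_eq_of_ne (by simp [vV]), add_zero]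
    have h2 : (m + Finsupp.single (some (vV none)) 1 : Option (Var d) →₀ ℕ)
        (some .t) = m (some .t) + 1 := by
      rw [Finsupp.add_apply]; simp [vV]
    have h3 : ydeg (m + Finsupp.single (some (vV none)) 1 : Option (Var d) →₀ ℕ) = ydeg m := by
      unfold ydeg
      refine Finset.sum_congr rfl fun i _ => ?_
      rw [Finsupp.add_apply, Finsupp.single_eq_of_ne (by simp [vV]), add_zero]
    simp only [h1]
    rw [h2, h3]
    have h4 : (0 : ℝ) ≤ a ^ (∑ i, m (some (Var.x i))) * b ^ (m (some .t) + ydeg m) *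
        (c ^ (m none) / ((max (ydeg m) (m none) : ℕ) : ℝ) ^ (m none)) := by positivity
    calc _ ≤ 3 * (a ^ (∑ i, m (some (Var.x i))) * b ^ (m (some .t) + ydeg m) *
        (c ^ (m none) / ((max (ydeg m) (m none) : ℕ) : ℝ) ^ (m none))) := by linarith
      _ = _ := by
        rw [show m (some .t) + 1 + ydeg m = (m (some .t) + ydeg m) + 1 by ring, pow_succ]
        field_simp
  | some k =>
    have h1 : ∀ i : Fin d, (m + Finsupp.single (some (vV (some k))) 1 : Option (Var d) →₀ ℕ)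
        (some (Var.x i)) = m (some (Var.x i)) := fun i => by
      rw [Finsupp.add_apply, Finsupp.single_eq_of_ne (by simp [vV]), add_zero]
    have h2 : (m + Finsupp.single (some (vV (some k))) 1 : Option (Var d) →₀ ℕ)
        (some .t) = m (some .t) := by
      rw [Finsupp.add_apply, Finsupp.single_eq_of_ne (by simp [vV]), add_zero]
    have h3 : ydeg (m + Finsupp.single (some (vV (some k))) 1 : Option (Var d) →₀ ℕ)
        = ydeg m + 1 := by
      unfold ydeg
      simp only [Finsupp.add_apply, Finset.sum_add_distrib]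
      congr 1
      rw [Finset.sum_eq_single k]
      · simp [vV]
      · intro i _ hi
        rw [Finsupp.single_eq_of_ne]
        simpa [vV] using hi
      · intro h; exact absurd (Finset.mem_univ k) h
    simp only [h1]
    rw [h2, h3]
    have h4 := d4_pow (ydeg m) (m none)
    have h5 : 1 / ((max (ydeg m) (m none) : ℕ) : ℝ) ^ (m none) ≤
        3 / ((max (ydeg m + 1) (m none) : ℕ) : ℝ) ^ (m none) := by
      rw [div_le_div_iff₀ (hM _) (hM _), one_mul]
      exact h4
    calc a ^ (∑ i, m (some (Var.x i))) * b ^ (m (some .t) + ydeg m) *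
          (c ^ (m none) / ((max (ydeg m) (m none) : ℕ) : ℝ) ^ (m none))
        = a ^ (∑ i, m (some (Var.x i))) * b ^ (m (some .t) + ydeg m) *
          (c ^ (m none) * (1 / ((max (ydeg m) (m none) : ℕ) : ℝ) ^ (m none))) := by ring
      _ ≤ a ^ (∑ i, m (some (Var.x i))) * b ^ (m (some .t) + ydeg m) *
          (c ^ (m none) * (3 / ((max (ydeg m + 1) (m none) : ℕ) : ℝ) ^ (m none))) := by gcongr
      _ = _ := by
        rw [show m (some .t) + (ydeg m + 1) = (m (some .t) + ydeg m) + 1 by ring, pow_succ]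
        field_simp

/-- for `y_i`: `max(g,e)^e ≤ 3 max(g-1,e)^e` for `g ≥ 1` -/
lemma nrm_mw_quo {a b c : ℝ} (ha : 0 < a) (hb : 0 < b) (hc : 0 < c) (j : Option (Fin d))
    (f : Sym d) : nrm (mw a b c) (quo j f) ≤ ENNReal.ofReal (3 / b) * nrm (mw a b c) f := by
  have hq : ∀ m, ‖coeff m (quo j f)‖ ≤ ‖coeff (m + Finsupp.single (some (vV j)) 1) f‖ := by
    intro m
    cases j with
    | none => exact le_rfl
    | some i =>
      have h1 : coeff m (quo (some i) f) =
          if m (some .t) = 0 ∧ ∀ l, l < i → m (some (.y l)) = 0 then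
            coeff (m + Finsupp.single (some (.y i)) 1) f else 0 := rfl
      rw [h1]
      split_ifs
      · exact le_rfl
      · rw [norm_zero]; exact norm_nonneg _
  have hinj : Function.Injective
      fun m : Option (Var d) →₀ ℕ => m + Finsupp.single (some (vV j)) 1 :=
    add_left_injective _
  calc nrm (mw a b c) (quo j f) = ∑' m, (‖coeff m (quo j f)‖₊ : ℝ≥0∞) * mw a b c m := rfl
    _ ≤ ∑' m, ENNReal.ofReal (3 / b) *
          ((‖coeff (m + Finsupp.single (some (vV j)) 1) f‖₊ : ℝ≥0∞) *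
            mw a b c (m + Finsupp.single (some (vV j)) 1)) := by
        refine ENNReal.tsum_le_tsum fun m => ?_
        have h1 : (‖coeff m (quo j f)‖₊ : ℝ≥0∞) ≤
            ‖coeff (m + Finsupp.single (some (vV j)) 1) f‖₊ := by
          exact_mod_cast hq m
        calc (‖coeff m (quo j f)‖₊ : ℝ≥0∞) * mw a b c m
            ≤ ‖coeff (m + Finsupp.single (some (vV j)) 1) f‖₊ *
              (ENNReal.ofReal (3 / b) * mw a b c (m + Finsupp.single (some (vV j)) 1)) :=
              mul_le_mul' h1 (d4_w ha hb hc j m)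
          _ = _ := by ring
    _ = ENNReal.ofReal (3 / b) *
          ∑' m, ((‖coeff (m + Finsupp.single (some (vV j)) 1) f‖₊ : ℝ≥0∞) *
            mw a b c (m + Finsupp.single (some (vV j)) 1)) := ENNReal.tsum_mul_left
    _ ≤ ENNReal.ofReal (3 / b) * nrm (mw a b c) f :=
        mul_le_mul' le_rfl (ENNReal.tsum_comp_le_tsum_of_injective hinj
          (fun m => (‖coeff m f‖₊ : ℝ≥0∞) * mw a b c m))

/-! ## row d5: the norms and the growth condition -/

-- row d5 (helper36): private helpers d5_*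
private lemma d5_nrm_le {w w' : (Option (Var d) →₀ ℕ) → ℝ≥0∞} {f : Sym d}
    (h : ∀ m, w m ≤ w' m) : nrm w f ≤ nrm w' f := nrm_mono_w w h f

private lemma d5_deg (m : Option (Var d) →₀ ℕ) :
    m.degree = (∑ i, m (some (Var.x i))) + m (some .t) + ydeg m + m none := by
  rw [degree_eq, bdeg]

/-- `e! ≤ max(g,e)^e` -/
lemma exists_mw_fin {f : Sym d} (hf : IsMicro f) : ∃ R : ℝ, 0 < R ∧ R ≤ 1 ∧ ∀ a b c : ℝ,
    0 < a → a ≤ R → 0 < b → b ≤ R → 0 < c → c ≤ R → nrm (mw a b c) f < ∞ := by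
  obtain ⟨ρ, hρ, hN⟩ := (isMicro_iff f).1 hf
  refine ⟨min 1 ρ, lt_min one_pos hρ, min_le_left _ _, fun a b c ha haR hb hbR hc hcR => ?_⟩
  refine lt_of_le_of_lt (d5_nrm_le fun m => ?_) hN
  unfold mw wt
  apply ENNReal.ofReal_le_ofReal
  have haρ := haR.trans (min_le_right _ _)
  have hbρ := hbR.trans (min_le_right _ _)
  have hcρ := hcR.trans (min_le_right _ _)
  have h1 : ((m none).factorial : ℝ) ≤ ((max (ydeg m) (m none) : ℕ) : ℝ) ^ (m none) := by
    exact_mod_cast (Nat.factorial_le_pow (m none)).trans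
      (Nat.pow_le_pow_left (le_max_right (ydeg m) (m none)) (m none))
  have h0 : (0 : ℝ) < (m none).factorial := by exact_mod_cast Nat.factorial_pos (m none)
  rw [d5_deg m]
  calc a ^ (∑ i, m (some (Var.x i))) * b ^ (m (some .t) + ydeg m) *
        (c ^ (m none) / ((max (ydeg m) (m none) : ℕ) : ℝ) ^ (m none))
      ≤ ρ ^ (∑ i, m (some (Var.x i))) * ρ ^ (m (some .t) + ydeg m) *
        (ρ ^ (m none) / ((m none).factorial : ℝ)) := by gcongr
    _ = _ := by rw [pow_add, pow_add, pow_add, pow_add]; ring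

private lemma d5_exp (g e : ℕ) : ((max g e : ℕ) : ℝ) ^ e ≤ 3 ^ (g + e) * (e.factorial : ℝ) := by
  have h0 : (0 : ℝ) < e.factorial := by exact_mod_cast Nat.factorial_pos e
  have h1 := Real.pow_div_factorial_le_exp ((max g e : ℕ) : ℝ) (by positivity) e
  rw [div_le_iff₀ h0] at h1
  refine h1.trans (mul_le_mul_of_nonneg_right ?_ h0.le)
  calc Real.exp ((max g e : ℕ) : ℝ) = Real.exp 1 ^ (max g e) := by
        rw [← Real.exp_nat_mul]; congr 1; ring
    _ ≤ 3 ^ (max g e) := by
        refine pow_le_pow_left₀ (Real.exp_pos 1).le ?_ _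
        linarith [Real.exp_one_lt_d9]
    _ ≤ 3 ^ (g + e) := pow_le_pow_right₀ (by norm_num) (by omega)

/-- `max(g,e)^e ≤ exp(max(g,e)) e!` (`Real.pow_div_factorial_le_exp`) -/
lemma isMicro_of_mw {a b c : ℝ} (ha : 0 < a) (hb : 0 < b) (hc : 0 < c) {f : Sym d}
    (h : nrm (mw a b c) f < ∞) : IsMicro f := by
  rw [isMicro_iff]
  have hr : 0 < min a (min b c) := lt_min ha (lt_min hb hc)
  refine ⟨min a (min b c) / 3, by positivity, lt_of_le_of_lt (d5_nrm_le fun m => ?_) h⟩
  unfold mw wt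
  apply ENNReal.ofReal_le_ofReal
  have hra : min a (min b c) / 3 ≤ a := by have := min_le_left a (min b c); linarith
  have hrb : min a (min b c) ≤ b := (min_le_right _ _).trans (min_le_left _ _)
  have hrc : min a (min b c) ≤ c := (min_le_right _ _).trans (min_le_right _ _)
  set r := min a (min b c) with hrdef
  have h0 : (0 : ℝ) < (m none).factorial := by exact_mod_cast Nat.factorial_pos (m none)
  have hM : (0 : ℝ) < ((max (ydeg m) (m none) : ℕ) : ℝ) ^ (m none) := by
    rcases Nat.eq_zero_or_pos (m none) with h1 | h1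
    · rw [h1, pow_zero]; exact one_pos
    · have : 0 < max (ydeg m) (m none) := lt_of_lt_of_le h1 (le_max_right _ _)
      positivity
  have h1 : 1 / ((m none).factorial : ℝ) ≤
      3 ^ (ydeg m + m none) / ((max (ydeg m) (m none) : ℕ) : ℝ) ^ (m none) := by
    rw [div_le_div_iff₀ h0 hM, one_mul]
    exact d5_exp _ _
  rw [d5_deg m]
  calc (r / 3) ^ ((∑ i, m (some (Var.x i))) + m (some .t) + ydeg m + m none) *
        (1 / ((m none).factorial : ℝ))
      ≤ (r / 3) ^ ((∑ i, m (some (Var.x i))) + m (some .t) + ydeg m + m none) *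
        (3 ^ (ydeg m + m none) / ((max (ydeg m) (m none) : ℕ) : ℝ) ^ (m none)) := by gcongr
    _ = (r / 3) ^ (∑ i, m (some (Var.x i))) * ((r / 3) ^ (m (some .t)) * r ^ ydeg m) *
        (r ^ (m none) / ((max (ydeg m) (m none) : ℕ) : ℝ) ^ (m none)) := by
        have e1 : r ^ ydeg m = (r / 3) ^ ydeg m * 3 ^ ydeg m := by
          rw [← mul_pow]; congr 1; ring
        have e2 : r ^ (m none) = (r / 3) ^ (m none) * 3 ^ (m none) := by
          rw [← mul_pow]; congr 1; ring
        rw [e1, e2, pow_add, pow_add, pow_add, pow_add]; ring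
    _ ≤ a ^ (∑ i, m (some (Var.x i))) * (b ^ (m (some .t)) * b ^ ydeg m) *
        (c ^ (m none) / ((max (ydeg m) (m none) : ℕ) : ℝ) ^ (m none)) := by
        have h3 : r / 3 ≤ b := by linarith
        gcongr
    _ = _ := by rw [pow_add]

/-! ## row d6: `Small` symbols have small norms -/

-- row d6 (helper36): replaces exists_mw_small in Une.lean; private helpers d6_*
private lemma d6_nrm_le {w w' : (Option (Var d) →₀ ℕ) → ℝ≥0∞} {c : ℝ≥0∞} {f : Sym d}
    (h : ∀ m, coeff m f ≠ 0 → w m ≤ c * w' m) : nrm w f ≤ c * nrm w' f := by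
  unfold nrm
  rw [← ENNReal.tsum_mul_left]
  refine ENNReal.tsum_le_tsum fun m => ?_
  by_cases hm : coeff m f = 0
  · simp [hm]
  · calc (‖coeff m f‖₊ : ℝ≥0∞) * w m ≤ (‖coeff m f‖₊ : ℝ≥0∞) * (c * w' m) := by
          gcongr; exact h m hm
      _ = c * ((‖coeff m f‖₊ : ℝ≥0∞) * w' m) := by ring

private lemma d6_real {ρ η A B c : ℝ} (hρ : 0 < ρ) (hη : 0 < η) (hη1 : η ≤ 1) (hA : 0 < A)
    (hAρ : A ≤ η * ρ) (hB : 0 < B) (hBρ : B ≤ ρ) (hc : 0 < c) (hcρ : c ≤ η * ρ)
    (X T g e : ℕ) (h : 1 ≤ X + e) :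
    A ^ X * B ^ (T + g) * (c ^ e / ((max g e : ℕ) : ℝ) ^ e) ≤
      η * (ρ ^ (X + T + g + e) * (1 / (e.factorial : ℝ))) := by
  have h1 : (e.factorial : ℝ) ≤ ((max g e : ℕ) : ℝ) ^ e := by
    exact_mod_cast (Nat.factorial_le_pow e).trans (Nat.pow_le_pow_left (le_max_right g e) e)
  have h0 : (0 : ℝ) < e.factorial := by exact_mod_cast Nat.factorial_pos e
  calc A ^ X * B ^ (T + g) * (c ^ e / ((max g e : ℕ) : ℝ) ^ e)
      ≤ (η * ρ) ^ X * ρ ^ (T + g) * ((η * ρ) ^ e / (e.factorial : ℝ)) := by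
        gcongr
    _ = η ^ (X + e) * (ρ ^ (X + T + g + e) * (1 / (e.factorial : ℝ))) := by
        rw [mul_pow, mul_pow, pow_add, pow_add, pow_add, pow_add, pow_add]; ring
    _ ≤ η * (ρ ^ (X + T + g + e) * (1 / (e.factorial : ℝ))) := by
        refine mul_le_mul_of_nonneg_right ?_ (by positivity)
        exact pow_le_of_le_one hη.le hη1 (by omega)

private lemma d6_key {f : Sym d} (hs : Small f) {ρ η A B c : ℝ} (hρ : 0 < ρ) (hη : 0 < η)
    (hη1 : η ≤ 1) (hA : 0 < A) (hAρ : A ≤ η * ρ) (hB : 0 < B) (hBρ : B ≤ ρ) (hc : 0 < c)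
    (hcρ : c ≤ η * ρ) (m : Option (Var d) →₀ ℕ) (hm : coeff m f ≠ 0) :
    mw A B c m ≤ ENNReal.ofReal η * wt ρ (fun e => 1 / (e.factorial : ℝ)) m := by
  have hX : 1 ≤ (∑ i, m (some (Var.x i))) + m none := by
    by_contra hcon
    refine hm (hs m (by omega) fun i => ?_)
    have h1 : ∑ i, m (some (Var.x i)) = 0 := by omega
    exact Finset.sum_eq_zero_iff.1 h1 i (Finset.mem_univ i)
  unfold mw wt
  rw [← ENNReal.ofReal_mul hη.le]
  apply ENNReal.ofReal_le_ofReal
  have h2 := d6_real hρ hη hη1 hA hAρ hB hBρ hc hcρ (∑ i, m (some (Var.x i))) (m (some .t))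
    (ydeg m) (m none) hX
  have h3 : m.degree = (∑ i, m (some (Var.x i))) + m (some .t) + ydeg m + m none := by
    rw [degree_eq, bdeg]
  rw [h3]
  exact h2

/-- every monomial of `f` contains some `x_i` or `s` -/
lemma exists_mw_small {f : Sym d} (hf : IsMicro f) (hs : Small f) : ∃ R : ℝ, 0 < R ∧
    ∀ b : ℝ, 0 < b → b ≤ R → ∀ ε : ℝ, 0 < ε → ∃ δ : ℝ, 0 < δ ∧ ∀ a c : ℝ, 0 < a → a ≤ δ →
      0 < c → c ≤ δ → nrm (mw (2 * a) (2 * b) c) f ≤ ENNReal.ofReal ε := by
  obtain ⟨ρ, hρ, hN⟩ := (isMicro_iff f).1 hf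
  set N := nrm (wt ρ fun e => 1 / (e.factorial : ℝ)) f with hNdef
  refine ⟨ρ / 2, by positivity, fun b hb hbR ε hε => ?_⟩
  have hN0 : 0 ≤ N.toReal := ENNReal.toReal_nonneg
  set η : ℝ := min 1 (ε / (N.toReal + 1)) with hηdef
  have hη : 0 < η := lt_min one_pos (div_pos hε (by positivity))
  have hη1 : η ≤ 1 := min_le_left _ _
  refine ⟨η * ρ / 2, by positivity, fun a c ha haδ hc hcδ => ?_⟩
  have hηρ : 0 < η * ρ := mul_pos hη hρ
  calc nrm (mw (2 * a) (2 * b) c) f ≤ ENNReal.ofReal η * N :=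
        d6_nrm_le fun m hm => d6_key hs hρ hη hη1 (by positivity) (by linarith) (by positivity)
          (by linarith) hc (by linarith) m hm
    _ = ENNReal.ofReal η * ENNReal.ofReal N.toReal := by rw [ENNReal.ofReal_toReal hN.ne]
    _ = ENNReal.ofReal (η * N.toReal) := (ENNReal.ofReal_mul hη.le).symm
    _ ≤ ENNReal.ofReal ε := by
        apply ENNReal.ofReal_le_ofReal
        have h1 : η ≤ ε / (N.toReal + 1) := min_le_right _ _
        calc η * N.toReal ≤ ε / (N.toReal + 1) * (N.toReal + 1) :=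
              mul_le_mul h1 (by linarith) hN0 (by positivity)
          _ = ε := div_mul_cancel₀ _ (by positivity)

/-! ## row d7: the contraction -/

section d7

open Filter Topology

private lemma d7_ev {P : ℝ → Prop} (h : ∃ R : ℝ, 0 < R ∧ ∀ x, 0 < x → x ≤ R → P x) :
    ∀ᶠ x in 𝓝[>] (0:ℝ), P x := by
  obtain ⟨R, hR, h⟩ := h
  filter_upwards [Ioc_mem_nhdsGT hR] with x hx using h x hx.1 hx.2

/-- the conclusion of `exists_mw_small` for a given `b` -/
private def d7_Q (f : Sym d) (b : ℝ) : Prop :=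
  ∀ ε : ℝ, 0 < ε → ∃ δ : ℝ, 0 < δ ∧ ∀ a c : ℝ, 0 < a → a ≤ δ →
      0 < c → c ≤ δ → nrm (mw (2 * a) (2 * b) c) f ≤ ENNReal.ofReal ε

private lemma d7_Q_ev {f : Sym d} (hf : IsMicro f ∧ Small f) : ∀ᶠ b in 𝓝[>] (0:ℝ), d7_Q f b := by
  obtain ⟨R, hR, h⟩ := exists_mw_small hf.1 hf.2
  exact d7_ev ⟨R, hR, fun b h1 h2 => h b h1 h2⟩

private lemma d7_F_ev {f : Sym d} (hf : IsMicro f) : ∀ᶠ b in 𝓝[>] (0:ℝ),
    ∀ a c : ℝ, 0 < a → a ≤ b → 0 < c → c ≤ b → nrm (mw a b c) f < ∞ := by
  obtain ⟨R, hR, -, h⟩ := exists_mw_fin hf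
  exact d7_ev ⟨R, hR, fun b h1 h2 a c h3 h4 h5 h6 =>
    h a b c h3 (h4.trans h2) h1 h2 h5 (h6.trans h2)⟩

private lemma d7_stepI {m q : ℕ} (N : Option (Fin d) → Matrix (Fin m) (Fin m) ℂ)
    (c : Matrix (Fin q) (Fin m) ℂ) {p : Sym d → ℝ≥0∞} (hp : SN p) {ε τ δ C : ℝ} (hε : 0 < ε)
    {L : ℕ} (hL : ∀ F : Fin m → Sym d, sn p N L F = 0)
    (hq : ∀ j (f : Sym d), p (quo j f) ≤ ENNReal.ofReal τ * p f)
    (hD : ∀ f : Sym d, p (D none f) ≤ ENNReal.ofReal δ * p f)
    (hC : ∀ F : Fin m → Sym d, vn p N ε L F ≤ ENNReal.ofReal C * ∑ i, p (F i))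
    (F : Fin m → Sym d) (G : Fin q → Sym d) :
    vn p N ε L (stepI N c F G) ≤
      ((d + 1 : ℕ) : ℝ≥0∞) * (ENNReal.ofReal ε * (ENNReal.ofReal τ * vn p N ε L F))
        + ENNReal.ofReal δ * (ENNReal.ofReal τ * vn p N ε L F)
        + ENNReal.ofReal C * ((∑ i, ∑ k, (‖c k i‖₊ : ℝ≥0∞)) * ∑ k, p (G k)) := by
  have hsplit : stepI N c F G = (∑ j, rmul (fun i => quo j (F i)) (N j))
      + (-1 : ℂ) • (fun i' => D none (quo none (F i'))) + (fun i' => ∑ k, c k i' • G k) := by
    funext i'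
    simp only [stepI, Pi.add_apply, Pi.neg_apply, Finset.sum_apply, neg_smul, one_smul]
    rw [sub_eq_add_neg]
  rw [hsplit]
  refine (vn_add_le hp N ε L _ _).trans (add_le_add ((vn_add_le hp N ε L _ _).trans
    (add_le_add ?_ ?_)) ?_)
  · refine (vn_sum_le hp N ε L _ _).trans ?_
    have h1 : ∀ j : Option (Fin d), vn p N ε L (rmul (fun i => quo j (F i)) (N j)) ≤
        ENNReal.ofReal ε * (ENNReal.ofReal τ * vn p N ε L F) := by
      intro j
      refine (vn_rmul_le hp N hε hL j _).trans (mul_le_mul_right ?_ _)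
      exact vn_map_le hp N ε L (quo j) (hq j) F
    calc ∑ j, vn p N ε L (rmul (fun i => quo j (F i)) (N j))
        ≤ ∑ _j : Option (Fin d), ENNReal.ofReal ε * (ENNReal.ofReal τ * vn p N ε L F) :=
          Finset.sum_le_sum fun j _ => h1 j
      _ = _ := by
          rw [Finset.sum_const, Finset.card_univ, Fintype.card_option, Fintype.card_fin,
            nsmul_eq_mul]
  · rw [vn_smul hp]
    have h2 : (‖(-1 : ℂ)‖₊ : ℝ≥0∞) = 1 := by simp
    rw [h2, one_mul]
    have h3 : vn p N ε L (fun i' => ((D none).toLinearMap ∘ₗ quo none) (F i')) ≤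
        (ENNReal.ofReal δ * ENNReal.ofReal τ) * vn p N ε L F := by
      refine vn_map_le hp N ε L _ ?_ F
      intro a
      rw [mul_assoc]
      exact (hD _).trans (mul_le_mul_right (hq none a) _)
    rw [mul_assoc] at h3
    exact h3
  · refine (hC _).trans (mul_le_mul_right ?_ _)
    have h4 : ∀ i, p (∑ k, c k i • G k) ≤ ∑ k, (‖c k i‖₊ : ℝ≥0∞) * p (G k) := by
      intro i
      have : ∀ s : Finset (Fin q), p (∑ k ∈ s, c k i • G k) ≤ ∑ k ∈ s, (‖c k i‖₊ : ℝ≥0∞) * p (G k) := by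
        intro s
        induction s using Finset.induction_on with
        | empty => simp [hp.zero]
        | insert a s ha ih =>
          rw [Finset.sum_insert ha, Finset.sum_insert ha]
          exact (hp.add _ _).trans (add_le_add (hp.smul _ _).le ih)
      exact this _
    calc ∑ i, p (∑ k, c k i • G k) ≤ ∑ i, ∑ k, (‖c k i‖₊ : ℝ≥0∞) * p (G k) :=
          Finset.sum_le_sum fun i _ => h4 i
      _ ≤ ∑ i, ∑ k, (‖c k i‖₊ : ℝ≥0∞) * ∑ k, p (G k) := by
          refine Finset.sum_le_sum fun i _ => Finset.sum_le_sum fun k _ => mul_le_mul_right ?_ _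
          exact Finset.single_le_sum (f := fun k => p (G k)) (fun _ _ => zero_le) (Finset.mem_univ k)
      _ = _ := by
          rw [Finset.sum_mul]
          refine Finset.sum_congr rfl fun i _ => ?_
          rw [Finset.sum_mul]

private lemma d7_stepJ {m q : ℕ} (K : Option (Fin d) → Matrix (Fin m) (Fin q) (Sym d))
    (Θ : Matrix (Fin q) (Fin q) (Sym d)) {p p' : Sym d → ℝ≥0∞} (hp : SN p) {τ ε' : ℝ}
    (hq : ∀ j (f : Sym d), p (quo j f) ≤ ENNReal.ofReal τ * p f)
    (hcomp : ∀ f g : Sym d, p (comp f g) ≤ p f * p' g)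
    (hK : ∀ j i k, p' (K j i k) ≤ ENNReal.ofReal ε') (hΘ : ∀ k l, p' (Θ k l) ≤ ENNReal.ofReal ε')
    (F : Fin m → Sym d) (G : Fin q → Sym d) :
    ∑ i, p (stepJ K Θ F G i) ≤
      (q : ℝ≥0∞) * ((((d + 1 : ℕ) : ℝ≥0∞) * (ENNReal.ofReal τ * ENNReal.ofReal ε')
          * ∑ i, p (F i))
        + ENNReal.ofReal ε' * ∑ k, p (G k)) := by
  have hsum : ∀ {α : Type} (s : Finset α) (f : α → Sym d), p (∑ k ∈ s, f k) ≤ ∑ k ∈ s, p (f k) := by
    intro α s f
    classical
    induction s using Finset.induction_on with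
    | empty => simp [hp.zero]
    | insert a s ha ih =>
      rw [Finset.sum_insert ha, Finset.sum_insert ha]
      exact (hp.add _ _).trans (add_le_add le_rfl ih)
  have h1 : ∀ k', p (stepJ K Θ F G k') ≤
      (((d + 1 : ℕ) : ℝ≥0∞) * (ENNReal.ofReal τ * ENNReal.ofReal ε')
          * ∑ i, p (F i))
        + ENNReal.ofReal ε' * ∑ k, p (G k) := by
    intro k'
    refine (hp.add _ _).trans (add_le_add ?_ ?_)
    · refine (hsum _ _).trans ?_
      have h2 : ∀ j, p (∑ i, comp (quo j (F i)) (K j i k')) ≤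
          (ENNReal.ofReal τ * ENNReal.ofReal ε') * ∑ i, p (F i) := by
        intro j
        refine (hsum _ _).trans ?_
        rw [Finset.mul_sum]
        refine Finset.sum_le_sum fun i _ => ?_
        calc p (comp (quo j (F i)) (K j i k')) ≤ p (quo j (F i)) * p' (K j i k') := hcomp _ _
          _ ≤ (ENNReal.ofReal τ * p (F i)) * ENNReal.ofReal ε' :=
              mul_le_mul' (hq j _) (hK j i k')
          _ = _ := by ring
      calc ∑ j, p (∑ i, comp (quo j (F i)) (K j i k')) ≤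
          ∑ _j : Option (Fin d), (ENNReal.ofReal τ * ENNReal.ofReal ε') * ∑ i, p (F i) :=
            Finset.sum_le_sum fun j _ => h2 j
        _ = _ := by
          rw [Finset.sum_const, Finset.card_univ, Fintype.card_option, Fintype.card_fin,
            nsmul_eq_mul]
          ring
    · refine (hsum _ _).trans ?_
      rw [Finset.mul_sum]
      refine Finset.sum_le_sum fun k _ => ?_
      calc p (comp (G k) (Θ k k')) ≤ p (G k) * p' (Θ k k') := hcomp _ _
        _ ≤ p (G k) * ENNReal.ofReal ε' := mul_le_mul_right (hΘ k k') _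
        _ = _ := by ring
  calc ∑ i, p (stepJ K Θ F G i) ≤ ∑ _i : Fin q, ((((d + 1 : ℕ) : ℝ≥0∞) *
        (ENNReal.ofReal τ * ENNReal.ofReal ε') * ∑ i, p (F i))
        + ENNReal.ofReal ε' * ∑ k, p (G k)) := Finset.sum_le_sum fun k _ => h1 k
    _ = _ := by
      rw [Finset.sum_const, Finset.card_univ, Fintype.card_fin, nsmul_eq_mul]

/-- As `contraction` in Div.lean (with one norm instead of the levels): order of the choices: `L`
(`sn_eq_zero`); `b` below all radii; `ε = b / (24 (d+1))`; `C` from `vn_le`; `Λ` large; then `a`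
small and `c` small (`3 c ≤ a b`, `2 c (3 / b) ≤ 1/8`, `exists_mw_small`). -/
theorem contraction_m {m q : ℕ} (N : Option (Fin d) → Matrix (Fin m) (Fin m) ℂ)
    (hc : ∀ i j, N i * N j = N j * N i) (hn : ∀ i, IsNilpotent (N i))
    (c : Matrix (Fin q) (Fin m) ℂ) (K : Option (Fin d) → Matrix (Fin m) (Fin q) (Sym d))
    (Θ : Matrix (Fin q) (Fin q) (Sym d)) (hK : ∀ j i k, IsMicro (K j i k) ∧ Small (K j i k))
    (hΘ : ∀ k l, IsMicro (Θ k l) ∧ Small (Θ k l)) (f : Fin q → Sym d) (hf : ∀ k, IsMicro (f k)) :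
    ∃ (α β γ ε : ℝ) (L : ℕ) (Λ : ℝ), 0 < α ∧ 0 < β ∧ 0 < γ ∧ 3 * γ ≤ α * β ∧ α ≤ 1 ∧ β ≤ 1 ∧
      0 < ε ∧ 0 < L ∧ 0 < Λ ∧ (∀ i, nrm (mw α β γ) (f i) < ∞) ∧
      (∀ j i k, nrm (mw (2 * α) (2 * β) γ) (K j i k) < ∞) ∧
      (∀ k l, nrm (mw (2 * α) (2 * β) γ) (Θ k l) < ∞) ∧
      ∀ (F : Fin m → Sym d) (G : Fin q → Sym d),
        vn (nrm (mw α β γ)) N ε L (stepI N c F G)
            + ENNReal.ofReal Λ * ∑ i, nrm (mw α β γ) (stepJ K Θ F G i)
          ≤ 1 / 2 * (vn (nrm (mw α β γ)) N ε L F + ENNReal.ofReal Λ * ∑ i, nrm (mw α β γ) (G i)) := by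
  obtain ⟨L, hL0, hL⟩ := sn_eq_zero (E := Sym d) N hc hn
  -- choice of `β`
  have e1 : ∀ᶠ b in 𝓝[>] (0:ℝ), ∀ j i k, d7_Q (K j i k) b := by
    simp only [eventually_all]
    exact fun j i k => d7_Q_ev (hK j i k)
  have e2 : ∀ᶠ b in 𝓝[>] (0:ℝ), ∀ k l, d7_Q (Θ k l) b := by
    simp only [eventually_all]
    exact fun k l => d7_Q_ev (hΘ k l)
  have e3 : ∀ᶠ b in 𝓝[>] (0:ℝ), ∀ i, ∀ a c : ℝ, 0 < a → a ≤ b → 0 < c → c ≤ b →
      nrm (mw a b c) (f i) < ∞ := by
    rw [eventually_all]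
    exact fun i => d7_F_ev (hf i)
  have e4 : ∀ᶠ b in 𝓝[>] (0:ℝ), 0 < b ∧ b ≤ 1 := d7_ev ⟨1, one_pos, fun x h1 h2 => ⟨h1, h2⟩⟩
  obtain ⟨β, hσK, hσΘ, hσf, hβ0, hβ1⟩ := (e1.and (e2.and (e3.and e4))).exists
  clear e1 e2 e3 e4
  set τ : ℝ := 3 / β with hτdef
  have hτ0 : 0 < τ := by positivity
  -- `ε`, `Λ`
  set ε : ℝ := 1 / (8 * (d + 1) * τ) with hεdef
  have hε : 0 < ε := by positivity
  obtain ⟨C, hC0, hC⟩ := vn_le (E := Sym d) N ε L
  set c' : ℝ := ∑ i, ∑ k, ‖c k i‖ with hc'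
  have hc'0 : 0 ≤ c' := Finset.sum_nonneg fun i _ => Finset.sum_nonneg fun k _ => norm_nonneg _
  set Λ : ℝ := 8 * (C * c') + 1 with hΛ
  have hCc : 0 ≤ C * c' := mul_nonneg hC0.le hc'0
  have hΛ0 : 0 < Λ := by positivity
  -- `ε'`
  set ε' : ℝ := min (1 / (8 * (q + 1))) (1 / (8 * Λ * (q + 1) * (d + 1) * τ)) with hε'
  have hε'0 : 0 < ε' := lt_min (by positivity) (by positivity)
  have hε'1 : (q : ℝ) * ε' ≤ 1 / 8 := by
    have h1 : ε' ≤ 1 / (8 * (q + 1)) := min_le_left _ _
    have h2 : (0 : ℝ) < 8 * (q + 1) := by positivity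
    have h3 : ε' * (8 * (q + 1)) ≤ 1 := by
      rwa [le_div_iff₀ h2] at h1
    nlinarith
  have hε'2 : Λ * (q * ((d + 1) * (τ * ε'))) ≤ 1 / 8 := by
    have h1 : ε' ≤ 1 / (8 * Λ * (q + 1) * (d + 1) * τ) := min_le_right _ _
    have h2 : (0 : ℝ) < 8 * Λ * (q + 1) * (d + 1) * τ := by positivity
    have h3 : ε' * (8 * Λ * (q + 1) * (d + 1) * τ) ≤ 1 := by
      rwa [le_div_iff₀ h2] at h1
    have h5 : (Λ * (d + 1) * τ * ε') * q ≤ (Λ * (d + 1) * τ * ε') * (q + 1) :=
      mul_le_mul_of_nonneg_left (by linarith) (by positivity)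
    calc Λ * (q * ((d + 1) * (τ * ε'))) = (Λ * (d + 1) * τ * ε') * q := by ring
      _ ≤ (Λ * (d + 1) * τ * ε') * (q + 1) := h5
      _ = ε' * (8 * Λ * (q + 1) * (d + 1) * τ) / 8 := by ring
      _ ≤ 1 / 8 := by linarith
  -- choice of `α`
  have e1 : ∀ᶠ x in 𝓝[>] (0:ℝ), ∀ j i l, ∀ a c : ℝ, 0 < a → a ≤ x → 0 < c → c ≤ x →
      nrm (mw (2 * a) (2 * β) c) (K j i l) ≤ ENNReal.ofReal ε' := by
    simp only [eventually_all (ι := Option (Fin d)), eventually_all (ι := Fin m),
      eventually_all (ι := Fin q)]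
    intro j i l
    obtain ⟨δ, h1, h2⟩ := hσK j i l ε' hε'0
    exact d7_ev ⟨δ, h1, fun x _ hx a c h3 h4 h5 h6 => h2 a c h3 (h4.trans hx) h5 (h6.trans hx)⟩
  have e2 : ∀ᶠ x in 𝓝[>] (0:ℝ), ∀ i l, ∀ a c : ℝ, 0 < a → a ≤ x → 0 < c → c ≤ x →
      nrm (mw (2 * a) (2 * β) c) (Θ i l) ≤ ENNReal.ofReal ε' := by
    simp only [eventually_all (ι := Fin q)]
    intro i l
    obtain ⟨δ, h1, h2⟩ := hσΘ i l ε' hε'0
    exact d7_ev ⟨δ, h1, fun x _ hx a c h3 h4 h5 h6 => h2 a c h3 (h4.trans hx) h5 (h6.trans hx)⟩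
  have e3 : ∀ᶠ x in 𝓝[>] (0:ℝ), 0 < x ∧ x ≤ β := d7_ev ⟨β, hβ0, fun x h1 h2 => ⟨h1, h2⟩⟩
  obtain ⟨α, hαK, hαΘ, hα0, hαβ⟩ := (e1.and (e2.and e3)).exists
  clear e1 e2 e3
  -- choice of `γ`
  set γ : ℝ := min α (min (α * β / 3) (1 / (16 * τ))) with hγdef
  have hγ0 : 0 < γ := lt_min hα0 (lt_min (by positivity) (by positivity))
  have hγα : γ ≤ α := min_le_left _ _
  have hγ1 : 3 * γ ≤ α * β := by
    have : γ ≤ α * β / 3 := (min_le_right _ _).trans (min_le_left _ _)
    linarith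
  have hγ2 : 2 * γ * τ ≤ 1 / 8 := by
    have h1 : γ ≤ 1 / (16 * τ) := (min_le_right _ _).trans (min_le_right _ _)
    rw [le_div_iff₀ (by positivity)] at h1
    linarith
  have hKb : ∀ j i l, nrm (mw (2 * α) (2 * β) γ) (K j i l) ≤ ENNReal.ofReal ε' := fun j i l =>
    hαK j i l α γ hα0 le_rfl hγ0 hγα
  have hΘb : ∀ i l, nrm (mw (2 * α) (2 * β) γ) (Θ i l) ≤ ENNReal.ofReal ε' := fun i l =>
    hαΘ i l α γ hα0 le_rfl hγ0 hγα
  refine ⟨α, β, γ, ε, L, Λ, hα0, hβ0, hγ0, hγ1, hαβ.trans hβ1, hβ1, hε, hL0, hΛ0,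
    fun i => hσf i α γ hα0 hαβ hγ0 (hγα.trans hαβ),
    fun j i k => (hKb j i k).trans_lt ENNReal.ofReal_lt_top,
    fun k l => (hΘb k l).trans_lt ENNReal.ofReal_lt_top, fun F G => ?_⟩
  have hcomp : ∀ f g : Sym d, nrm (mw α β γ) (comp f g) ≤
      nrm (mw α β γ) f * nrm (mw (2 * α) (2 * β) γ) g := fun f g =>
    nrm_mw_comp hα0 (hαβ.trans hβ1) hβ0 hβ1 hγ0 hγ1 f g
  have hp : SN (nrm (mw α β γ) : Sym d → ℝ≥0∞) := sn_mw α β γ
  have hq : ∀ j (g : Sym d), nrm (mw α β γ) (quo j g) ≤ ENNReal.ofReal τ * nrm (mw α β γ) g :=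
    fun j g => nrm_mw_quo hα0 hβ0 hγ0 j g
  have hDn : ∀ g : Sym d, nrm (mw α β γ) (D none g) ≤ ENNReal.ofReal (2 * γ) * nrm (mw α β γ) g :=
    fun g => nrm_mw_D_none hα0 hβ0 hγ0 g
  have hI := d7_stepI N c hp (τ := τ) (δ := 2 * γ) (C := C) hε (hL hp) hq hDn (hC hp) F G
  have hJ := d7_stepJ K Θ hp (τ := τ) (ε' := ε') hq hcomp hKb hΘb F G
  have hb : ∑ i, nrm (mw α β γ) (F i) ≤ vn (nrm (mw α β γ)) N ε L F := le_vn hp N hL0 F
  clear hσK hσΘ hσf hαK hαΘ hKb hΘb hcomp hDn hq
  set p : Sym d → ℝ≥0∞ := nrm (mw α β γ) with hpdef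
  generalize hv : vn p N ε L F = v at *
  generalize hg : ∑ i, p (G i) = g at *
  generalize hvI : vn p N ε L (stepI N c F G) = vI at *
  generalize hgJ : ∑ i, p (stepJ K Θ F G i) = gJ at *
  generalize hbb : ∑ i, p (F i) = b at *
  have hd1 : ((d + 1 : ℕ) : ℝ≥0∞) = ENNReal.ofReal (d + 1) := by
    rw [← ENNReal.ofReal_natCast]; push_cast; rfl
  have hq1 : (q : ℝ≥0∞) = ENNReal.ofReal q := by
    rw [← ENNReal.ofReal_natCast]
  have hcc : (∑ i, ∑ k, (‖c k i‖₊ : ℝ≥0∞)) = ENNReal.ofReal c' := by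
    rw [hc', ENNReal.ofReal_sum_of_nonneg fun i _ => Finset.sum_nonneg fun k _ => norm_nonneg _]
    refine Finset.sum_congr rfl fun i _ => ?_
    rw [ENNReal.ofReal_sum_of_nonneg fun k _ => norm_nonneg _]
    refine Finset.sum_congr rfl fun k _ => ?_
    rw [← enorm_eq_nnnorm, ofReal_norm]
  -- the bound for `vI`
  have hI2 : vI ≤ ENNReal.ofReal (1 / 4) * v + ENNReal.ofReal (Λ / 8) * g := by
    refine hI.trans (add_le_add ?_ ?_)
    · rw [hd1]
      have : ENNReal.ofReal (d + 1) * (ENNReal.ofReal ε * (ENNReal.ofReal τ * v))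
          + ENNReal.ofReal (2 * γ) * (ENNReal.ofReal τ * v)
          = ENNReal.ofReal ((d + 1) * (ε * τ) + 2 * γ * τ) * v := by
        rw [ENNReal.ofReal_add (p := (d + 1) * (ε * τ)) (q := 2 * γ * τ)
            (by positivity) (by positivity), ENNReal.ofReal_mul (p := (d : ℝ) + 1) (by positivity),
          ENNReal.ofReal_mul (p := ε) (by positivity), ENNReal.ofReal_mul (p := 2 * γ) (by positivity)]
        ring
      rw [this]
      refine mul_le_mul_left (ENNReal.ofReal_le_ofReal ?_) _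
      have h3 : (d + 1) * (ε * τ) = 1 / 8 := by
        rw [hεdef]
        have hd : (0 : ℝ) < (d : ℝ) + 1 := by positivity
        field_simp
      rw [h3]; linarith
    · rw [hcc, ← mul_assoc, ← ENNReal.ofReal_mul hC0.le]
      refine mul_le_mul_left (ENNReal.ofReal_le_ofReal ?_) _
      rw [hΛ]; linarith
  have hJ2 : ENNReal.ofReal Λ * gJ ≤ ENNReal.ofReal (1 / 8) * v + ENNReal.ofReal (Λ / 8) * g := by
    calc ENNReal.ofReal Λ * gJ ≤ ENNReal.ofReal Λ * (ENNReal.ofReal q *
          ((ENNReal.ofReal (d + 1) * (ENNReal.ofReal τ *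
            ENNReal.ofReal ε') * v) + ENNReal.ofReal ε' * g)) := by
          refine mul_le_mul_right (hJ.trans ?_) _
          rw [hq1, hd1]
          exact mul_le_mul_right (add_le_add (mul_le_mul_right hb _) le_rfl) _
      _ = ENNReal.ofReal (Λ * (q * ((d + 1) * (τ * ε')))) * v
          + ENNReal.ofReal (Λ * (q * ε')) * g := by
          rw [ENNReal.ofReal_mul hΛ0.le, ENNReal.ofReal_mul (Nat.cast_nonneg q),
            ENNReal.ofReal_mul (p := (d : ℝ) + 1) (by positivity),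
            ENNReal.ofReal_mul (p := τ) (q := ε') (by positivity),
            ENNReal.ofReal_mul (p := Λ) hΛ0.le, ENNReal.ofReal_mul (p := (q : ℝ)) (Nat.cast_nonneg q)]
          ring
      _ ≤ _ := by
          refine add_le_add (mul_le_mul_left (ENNReal.ofReal_le_ofReal hε'2) _)
            (mul_le_mul_left (ENNReal.ofReal_le_ofReal ?_) _)
          calc Λ * (q * ε') ≤ Λ * (1 / 8) := mul_le_mul_of_nonneg_left hε'1 hΛ0.le
            _ = Λ / 8 := by ring
  calc vI + ENNReal.ofReal Λ * gJ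
      ≤ (ENNReal.ofReal (1 / 4) * v + ENNReal.ofReal (Λ / 8) * g)
        + (ENNReal.ofReal (1 / 8) * v + ENNReal.ofReal (Λ / 8) * g) := add_le_add hI2 hJ2
    _ = ENNReal.ofReal (3 / 8) * v + ENNReal.ofReal (Λ / 4) * g := by
        have h3 : (3 / 8 : ℝ) = 1 / 4 + 1 / 8 := by norm_num
        have h4 : Λ / 4 = Λ / 8 + Λ / 8 := by ring
        rw [h3, h4, ENNReal.ofReal_add (by norm_num) (by norm_num),
          ENNReal.ofReal_add (by positivity) (by positivity)]
        ring
    _ ≤ ENNReal.ofReal (1 / 2) * v + ENNReal.ofReal (Λ / 2) * g :=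
        add_le_add (mul_le_mul_left (ENNReal.ofReal_le_ofReal (by norm_num)) _)
          (mul_le_mul_left (ENNReal.ofReal_le_ofReal (by linarith)) _)
    _ = 1 / 2 * (v + ENNReal.ofReal Λ * g) := by
        have h5 : ENNReal.ofReal (1 / 2) = 1 / 2 := by
          rw [ENNReal.ofReal_div_of_pos (by norm_num)]; norm_num
        have h6 : Λ / 2 = 1 / 2 * Λ := by ring
        rw [h6, ENNReal.ofReal_mul (by norm_num), h5]
        ring

end d7

/-! ## row d8 -/

/-- geometric series -/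
lemma exists_sum_m {w : (Option (Var d) →₀ ℕ) → ℝ≥0∞} (hw : ∀ m, w m ≠ 0) (F : ℕ → Sym d) {C : ℝ}
    (h : ∀ n, nrm w (F n) ≤ ENNReal.ofReal (C * (1 / 2) ^ n)) :
    ∃ S : Sym d, (∀ m, HasSum (fun n => coeff m (F n)) (coeff m S)) ∧ nrm w S < ∞ := by
  have hfin : ∑' n, nrm w (F n) ≠ ∞ := by
    refine ne_top_of_le_ne_top ?_ (ENNReal.tsum_le_tsum fun n => (h n).trans
      (ENNReal.ofReal_le_ofReal (mul_le_mul_of_nonneg_right (le_abs_self C) (by positivity))))
    rw [← ENNReal.ofReal_tsum_of_nonneg (fun n => by positivity)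
      (summable_geometric_two.mul_left |C|)]
    exact ENNReal.ofReal_ne_top
  have hsum : ∀ m, Summable fun n => ‖coeff m (F n)‖₊ := by
    intro m
    rw [← ENNReal.tsum_coe_ne_top_iff_summable]
    have h1 : (∑' n, (‖coeff m (F n)‖₊ : ℝ≥0∞)) * w m ≤ ∑' n, nrm w (F n) := by
      rw [← ENNReal.tsum_mul_right]
      refine ENNReal.tsum_le_tsum fun n => ?_
      exact ENNReal.le_tsum (f := fun m => (‖coeff m (F n)‖₊ : ℝ≥0∞) * w m) m
    intro h2
    rw [h2, ENNReal.top_mul (hw m), top_le_iff] at h1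
    exact hfin h1
  have hs : ∀ m, Summable fun n => coeff m (F n) := fun m =>
    Summable.of_nnnorm (hsum m)
  refine ⟨fun m => ∑' n, coeff m (F n), fun m => (hs m).hasSum, ?_⟩
  refine lt_of_le_of_lt ?_ (lt_top_iff_ne_top.2 hfin)
  have h1 : ∀ m, ((‖coeff m ((fun m => ∑' n, coeff m (F n)) : Sym d)‖₊ : ℝ≥0∞) * w m) ≤
      ∑' n, (‖coeff m (F n)‖₊ : ℝ≥0∞) * w m := by
    intro m
    rw [ENNReal.tsum_mul_right]
    refine mul_le_mul_left ?_ _
    have h2 : ‖coeff m ((fun m => ∑' n, coeff m (F n)) : Sym d)‖₊ ≤ ∑' n, ‖coeff m (F n)‖₊ :=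
      nnnorm_tsum_le (hsum m)
    rw [← ENNReal.coe_tsum (hsum m)]
    exact_mod_cast h2
  refine (ENNReal.tsum_le_tsum h1).trans ?_
  rw [ENNReal.tsum_comm]
  exact le_rfl

/-! ## row d9: the division theorem -/

/-- the iteration -/
private noncomputable def d9_seq {m q : ℕ} (N : Option (Fin d) → Matrix (Fin m) (Fin m) ℂ)
    (c : Matrix (Fin q) (Fin m) ℂ) (K : Option (Fin d) → Matrix (Fin m) (Fin q) (Sym d))
    (Θ : Matrix (Fin q) (Fin q) (Sym d)) (f : Fin q → Sym d) :
    ℕ → (Fin m → Sym d) × (Fin q → Sym d)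
  | 0 => (0, f)
  | n + 1 => (stepI N c (d9_seq N c K Θ f n).1 (d9_seq N c K Θ f n).2,
      stepJ K Θ (d9_seq N c K Θ f n).1 (d9_seq N c K Θ f n).2)

private lemma d9_tele {a : ℕ → ℂ} {A : ℂ} (h : HasSum a A) :
    HasSum (fun n => a n - a (n + 1)) (a 0) := by
  have h1 : HasSum (fun n => a (n + 1)) (A - a 0) := by
    have := (hasSum_nat_add_iff' 1).2 h
    simpa using this
  have h2 := h.sub h1
  simpa using h2

private lemma d9_mw_ne {a b c : ℝ} (ha : 0 < a) (hb : 0 < b) (hc : 0 < c)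
    (m : Option (Var d) →₀ ℕ) : mw a b c m ≠ 0 := by
  have h1 : 0 < ((max (ydeg m) (m none) : ℕ) : ℝ) ^ (m none) := by
    rcases Nat.eq_zero_or_pos (m none) with h | h
    · rw [h, pow_zero]
      exact one_pos
    · have h2 : 0 < max (ydeg m) (m none) := lt_of_lt_of_le h (le_max_right _ _)
      positivity
  rw [mw]
  refine (ENNReal.ofReal_pos.2 ?_).ne'
  positivity

/-- Microdifferential Weierstrass division: as `fd` in Div.lean, with `contraction_m`,
`exists_sum_m`, `isMicro_of_mw` (`hasSum_comp_left`, `quo_eq` of Div.lean). -/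
theorem fdm {m q : ℕ} (N : Option (Fin d) → Matrix (Fin m) (Fin m) ℂ)
    (hc : ∀ i j, N i * N j = N j * N i) (hn : ∀ i, IsNilpotent (N i))
    (c : Matrix (Fin q) (Fin m) ℂ) (K : Option (Fin d) → Matrix (Fin m) (Fin q) (Sym d))
    (Θ : Matrix (Fin q) (Fin q) (Sym d)) (hK : ∀ j i k, IsMicro (K j i k) ∧ Small (K j i k))
    (hΘ : ∀ k l, IsMicro (Θ k l) ∧ Small (Θ k l)) (f : Fin q → Sym d) (hf : ∀ k, IsMicro (f k)) :
    ∃ (r : Fin m → Sym d) (H : Option (Fin d) → Fin m → Sym d) (G : Fin q → Sym d),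
      (∀ i, IsMicro (r i) ∧ Base (r i)) ∧ (∀ j i, IsMicro (H j i)) ∧ (∀ k, IsMicro (G k)) ∧
      (∀ i', r i' + ∑ j, (comp (H j i') (V j) - ∑ i, N j i i' • H j i) - ∑ k, c k i' • G k = 0) ∧
      (∀ k', G k' - (∑ j, ∑ i, comp (H j i) (K j i k')) - ∑ k, comp (G k) (Θ k k') = f k') := by
  obtain ⟨α, β, γ, ε, L, Λ, hα, hβ, hγ, -, -, -, hε, hL, hΛ, hfin, -, -, hstep⟩ :=
    contraction_m N hc hn c K Θ hK hΘ f hf
  set S := d9_seq N c K Θ f with hS
  set p : Sym d → ℝ≥0∞ := nrm (mw α β γ) with hp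
  have hsn : SN p := sn_mw α β γ
  -- the norms decrease geometrically
  obtain ⟨C, hC0, hC⟩ : ∃ C : ℝ, 0 ≤ C ∧ ∀ n,
      (∀ i, p ((S n).1 i) ≤ ENNReal.ofReal (C * (1 / 2) ^ n)) ∧
      (∀ i, p ((S n).2 i) ≤ ENNReal.ofReal (C / Λ * (1 / 2) ^ n)) := by
    set Φ : ℕ → ℝ≥0∞ := fun n => vn p N ε L (S n).1 + ENNReal.ofReal Λ * ∑ i, p ((S n).2 i) with hΦ
    have h0 : vn p N ε L (0 : Fin m → Sym d) = 0 := by
      have := vn_smul hsn N ε L 0 (0 : Fin m → Sym d)
      simpa using this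
    have hΦ0 : Φ 0 ≠ ∞ := by
      have : Φ 0 = ENNReal.ofReal Λ * ∑ i, p (f i) := by
        simp only [hΦ, hS, d9_seq, h0, zero_add]
      rw [this]
      exact ENNReal.mul_ne_top ENNReal.ofReal_ne_top
        (ENNReal.sum_ne_top.2 fun i _ => (hfin i).ne)
    have hΦs : ∀ n, Φ (n + 1) ≤ 1 / 2 * Φ n := fun n => hstep (S n).1 (S n).2
    have hΦn : ∀ n, Φ n ≤ ENNReal.ofReal ((Φ 0).toReal * (1 / 2) ^ n) := by
      intro n
      induction n with
      | zero => simp [ENNReal.ofReal_toReal hΦ0]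
      | succ n ih =>
        calc Φ (n + 1) ≤ 1 / 2 * Φ n := hΦs n
          _ ≤ 1 / 2 * ENNReal.ofReal ((Φ 0).toReal * (1 / 2) ^ n) := mul_le_mul_right ih _
          _ = ENNReal.ofReal ((Φ 0).toReal * (1 / 2) ^ (n + 1)) := by
            have h5 : (1 / 2 : ℝ≥0∞) = ENNReal.ofReal (1 / 2) := by
              rw [ENNReal.ofReal_div_of_pos (by norm_num)]; norm_num
            rw [h5, ← ENNReal.ofReal_mul (by norm_num)]
            congr 1
            ring
    refine ⟨(Φ 0).toReal, ENNReal.toReal_nonneg, fun n => ⟨fun i => ?_, fun i => ?_⟩⟩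
    · calc p ((S n).1 i) ≤ ∑ i, p ((S n).1 i) :=
            Finset.single_le_sum (f := fun i => p ((S n).1 i)) (fun _ _ => zero_le)
              (Finset.mem_univ i)
        _ ≤ vn p N ε L (S n).1 := le_vn hsn N hL _
        _ ≤ Φ n := le_self_add
        _ ≤ _ := hΦn n
    · have h1 : ENNReal.ofReal Λ * p ((S n).2 i) ≤ ENNReal.ofReal ((Φ 0).toReal * (1 / 2) ^ n) :=
        calc ENNReal.ofReal Λ * p ((S n).2 i) ≤ ENNReal.ofReal Λ * ∑ i, p ((S n).2 i) :=
              mul_le_mul_right (Finset.single_le_sum (f := fun i => p ((S n).2 i))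
                (fun _ _ => zero_le) (Finset.mem_univ i)) _
          _ ≤ Φ n := le_add_self
          _ ≤ _ := hΦn n
      have h2 : (Φ 0).toReal / Λ * (1 / 2) ^ n = ((Φ 0).toReal * (1 / 2) ^ n) / Λ := by ring
      rw [h2, ENNReal.ofReal_div_of_pos hΛ, ENNReal.le_div_iff_mul_le
        (Or.inl (by simpa using hΛ)) (Or.inl ENNReal.ofReal_ne_top), mul_comm]
      exact h1
  -- the sums
  have hex : ∀ (F : ℕ → Sym d) (C' : ℝ), (∀ n, p (F n) ≤ ENNReal.ofReal (C' * (1 / 2) ^ n)) →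
      ∃ T : Sym d, IsMicro T ∧ ∀ m', HasSum (fun n => coeff m' (F n)) (coeff m' T) := by
    intro F C' hF
    obtain ⟨T, hT1, hT2⟩ := exists_sum_m (d9_mw_ne hα hβ hγ) F hF
    exact ⟨T, isMicro_of_mw hα hβ hγ hT2, hT1⟩
  have hF : ∀ i, ∃ T : Sym d, IsMicro T ∧
      ∀ m', HasSum (fun n => coeff m' ((S n).1 i)) (coeff m' T) :=
    fun i => hex (fun n => (S n).1 i) C fun n => (hC n).1 i
  have hr : ∀ i, ∃ T : Sym d, IsMicro T ∧
      ∀ m', HasSum (fun n => coeff m' (bas ((S n).1 i))) (coeff m' T) :=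
    fun i => hex (fun n => bas ((S n).1 i)) C fun n => (nrm_bas_le _ _).trans ((hC n).1 i)
  have hH : ∀ j i, ∃ T : Sym d, IsMicro T ∧
      ∀ m', HasSum (fun n => coeff m' (quo j ((S n).1 i))) (coeff m' T) := by
    intro j i
    refine hex (fun n => quo j ((S n).1 i)) (3 / β * C) fun n =>
      (nrm_mw_quo hα hβ hγ j _).trans ?_
    have h4 : 0 ≤ 3 / β := by positivity
    rw [mul_assoc, ENNReal.ofReal_mul h4]
    exact mul_le_mul_right ((hC n).1 i) _
  have hG : ∀ i, ∃ T : Sym d, IsMicro T ∧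
      ∀ m', HasSum (fun n => coeff m' ((S n).2 i)) (coeff m' T) :=
    fun i => hex (fun n => (S n).2 i) (C / Λ) fun n => (hC n).2 i
  choose Fs hFs hFs' using hF
  choose r hr1 hr2 using hr
  choose H hH1 hH2 using hH
  choose G hG1 hG2 using hG
  refine ⟨r, H, G, fun i => ⟨hr1 i, fun m' hm' => ?_⟩, hH1, hG1, fun i' => ?_, fun k' => ?_⟩
  · have h1 : (fun n => coeff m' (bas ((S n).1 i))) = fun _ => (0 : ℂ) := by
      funext n
      exact base_bas _ m' hm'
    have h2 := hr2 i m'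
    rw [h1] at h2
    exact h2.unique hasSum_zero
  · ext m'
    have h1 : ∀ n, coeff m' (bas ((S n).1 i')) + ∑ j, (coeff m' (comp (quo j ((S n).1 i')) (V j))
          - ∑ i, N j i i' * coeff m' (quo j ((S n).1 i))) - ∑ k, c k i' * coeff m' ((S n).2 k)
        = coeff m' ((S n).1 i') - coeff m' ((S (n + 1)).1 i') := by
      intro n
      have h2 : (S (n + 1)).1 i' = (∑ j, ∑ i, N j i i' • quo j ((S n).1 i))
          - D none (quo none ((S n).1 i')) + ∑ k, c k i' • (S n).2 k := rfl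
      have h3 := congrArg (coeff m') (quo_eq ((S n).1 i'))
      have h4 := congrArg (coeff m') h2
      simp only [map_add, map_sub, map_sum, map_smul, smul_eq_mul] at h3 h4
      rw [h4, Finset.sum_sub_distrib]
      rw [h3]
      ring
    have h5 : HasSum (fun n => coeff m' (bas ((S n).1 i'))
          + ∑ j, (coeff m' (comp (quo j ((S n).1 i')) (V j))
          - ∑ i, N j i i' * coeff m' (quo j ((S n).1 i))) - ∑ k, c k i' * coeff m' ((S n).2 k))
        (coeff m' (r i') + ∑ j, (coeff m' (comp (H j i') (V j))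
          - ∑ i, N j i i' * coeff m' (H j i)) - ∑ k, c k i' * coeff m' (G k)) := by
      refine ((hr2 i' m').add (hasSum_sum fun j _ => (hasSum_comp_left (hH2 j i') (V j) m').sub
        (hasSum_sum fun i _ => (hH2 j i m').mul_left _))).sub
        (hasSum_sum fun k _ => (hG2 k m').mul_left _)
    have h6 := d9_tele (hFs' i' m')
    simp only [h1] at h5
    have h7 := h5.unique h6
    have h8 : coeff m' ((S 0).1 i') = 0 := by
      simp [hS, d9_seq]
    rw [h8] at h7
    simpa only [map_add, map_sub, map_sum, map_smul, smul_eq_mul, map_zero] using h7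
  · ext m'
    have h1 : ∀ n, coeff m' ((S n).2 k')
          - (∑ j, ∑ i, coeff m' (comp (quo j ((S n).1 i)) (K j i k')))
          - ∑ k, coeff m' (comp ((S n).2 k) (Θ k k'))
        = coeff m' ((S n).2 k') - coeff m' ((S (n + 1)).2 k') := by
      intro n
      have h2 : (S (n + 1)).2 k' = (∑ j, ∑ i, comp (quo j ((S n).1 i)) (K j i k'))
          + ∑ k, comp ((S n).2 k) (Θ k k') := rfl
      rw [h2, map_add, map_sum, map_sum]
      simp only [map_sum]
      ring
    have h5 : HasSum (fun n => coeff m' ((S n).2 k')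
          - (∑ j, ∑ i, coeff m' (comp (quo j ((S n).1 i)) (K j i k')))
          - ∑ k, coeff m' (comp ((S n).2 k) (Θ k k')))
        (coeff m' (G k') - (∑ j, ∑ i, coeff m' (comp (H j i) (K j i k')))
          - ∑ k, coeff m' (comp (G k) (Θ k k'))) := by
      refine ((hG2 k' m').sub (hasSum_sum fun j _ => hasSum_sum fun i _ =>
        hasSum_comp_left (hH2 j i) (K j i k') m')).sub
        (hasSum_sum fun k _ => hasSum_comp_left (hG2 k) (Θ k k') m')
    have h6 := d9_tele (hG2 k' m')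
    simp only [h1] at h5
    have h7 := h5.unique h6
    have h8 : coeff m' ((S 0).2 k') = coeff m' (f k') := rfl
    rw [h8] at h7
    simpa only [map_add, map_sub, map_sum] using h7

/-! ## row d10: a microdifferential lattice in generic position is finitely generated over the
symbols in `x`, `s` -/

private lemma d10_cst_coe (c : ℂ) : (((Micro d).cst c : (Micro d).ring) : Op d)
    = algebraMap ℂ (Op d) c := by
  apply Op.ext
  rw [algebraMap_sym]
  rfl

private lemma d10_cst_mul (c : ℂ) (Q : (Micro d).ring) :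
    (((Micro d).cst c * Q : (Micro d).ring) : Op d) = c • (Q : Op d) := by
  rw [Subring.coe_mul, d10_cst_coe, Algebra.smul_def]

private lemma d10_mul_cst (c : ℂ) (Q : (Micro d).ring) :
    ((Q * (Micro d).cst c : (Micro d).ring) : Op d) = c • (Q : Op d) := by
  rw [Subring.coe_mul, d10_cst_coe, Algebra.smul_def, Algebra.commutes]

/-- an element of the ring from a symbol -/
private def d10_mk (f : Sym d) (h : IsMicro f) : (Micro d).ring := ⟨op f, h⟩

private lemma d10_mk_coe (f : Sym d) (h : IsMicro f) : ((d10_mk f h : (Micro d).ring) : Op d) = op f :=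
  rfl

private lemma d10_me_res {f : Sym d} (h : IsMicro f) (hb : Base f) :
    me (⟨res f, isMicro_res h⟩ : (micro d).alg) = d10_mk f h := by
  apply Subtype.ext
  show op (emb (res f)) = op f
  rw [emb_res hb]

private lemma d10_mem_Z {L : Type} [AddCommGroup L] [Module (Micro d).ring L] {q : ℕ}
    (g : Fin q → L) (hg : ∀ v : L, ∃ b : Fin q → (Micro d).ring, v = ∑ k, b k • g k)
    {z : L} (hz : z ∈ (Micro d).Z L) : ∃ K : Fin q → (Micro d).ring,
      (∀ k, Small (K k).1.sym) ∧ z = ∑ k, K k • g k := by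
  obtain ⟨v, w, rfl⟩ := ((Micro d).mem_Z L z).1 hz
  choose b hb using hg
  refine ⟨fun k => ∑ i, (Micro d).x i * b (v i) k + (Micro d).s * b w k,
    fun k => (Micro d).small_of_mem _ _, ?_⟩
  have h1 : ∀ k, (∑ i, (Micro d).x i * b (v i) k + (Micro d).s * b w k) • g k
      = ∑ i, (Micro d).x i • b (v i) k • g k + (Micro d).s • b w k • g k := by
    intro k
    rw [add_smul, Finset.sum_smul]
    congr 1
    · exact Finset.sum_congr rfl fun i _ => mul_smul _ _ _
    · exact mul_smul _ _ _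
  simp_rw [h1]
  rw [Finset.sum_add_distrib, Finset.sum_comm]
  congr 1
  · apply Finset.sum_congr rfl
    intro i _
    rw [← Finset.smul_sum, ← hb]
  · rw [← Finset.smul_sum, ← hb]

/-- As `exists_fe` in Mod.lean (row p4a), with `Micro d`, `me`, `fdm`. -/
theorem exists_me {N : Type} [AddCommGroup N] [Module (Micro d).ring N]
    (hf : Module.Finite (Micro d).ring N) (hg : (Micro d).Generic N) {m : ℕ} (e : Fin m → N)
    (h1 : ∀ u : N, ∃ c : Fin m → ℂ, u - ∑ i, (Micro d).cst (c i) • e i ∈ (Micro d).Z N)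
    (h2 : ∀ c : Fin m → ℂ, ∑ i, (Micro d).cst (c i) • e i ∈ (Micro d).Z N → c = 0) (u : N) :
    ∃ r : Fin m → (micro d).alg, u = ∑ i, me (r i) • e i := by
  classical
  obtain ⟨q, g, hspan⟩ := Module.Finite.exists_fin (R := (Micro d).ring) (M := N)
  have hgen : ∀ v : N, ∃ b : Fin q → (Micro d).ring, v = ∑ k, b k • g k := by
    intro v
    have hv : v ∈ Submodule.span (Micro d).ring (Set.range g) := by
      rw [hspan]; exact Submodule.mem_top
    obtain ⟨b, hb⟩ := (Submodule.mem_span_range_iff_exists_fun _).1 hv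
    exact ⟨b, hb.symm⟩
  obtain ⟨W, hc, hn, hW⟩ := (Micro d).exists_matrices N hg e h1 h2
  have hK : ∀ j i, ∃ K : Fin q → (Micro d).ring, (∀ k, Small (K k).1.sym) ∧
      (Micro d).v j • e i - ∑ i', (Micro d).cst (W j i i') • e i' = ∑ k, K k • g k :=
    fun j i => d10_mem_Z g hgen (hW j i)
  choose K hKs hKe using hK
  have hΘ : ∀ k, ∃ (c : Fin m → ℂ) (Θ : Fin q → (Micro d).ring), (∀ l, Small (Θ l).1.sym) ∧
      g k - ∑ i, (Micro d).cst (c i) • e i = ∑ l, Θ l • g l := by
    intro k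
    obtain ⟨c, hcz⟩ := h1 (g k)
    obtain ⟨Θ, h3, h4⟩ := d10_mem_Z g hgen hcz
    exact ⟨c, Θ, h3, h4⟩
  choose c Θ hΘs hΘe using hΘ
  obtain ⟨f, hfu⟩ := hgen u
  obtain ⟨r, H, G, hr, hH, hG, hA, hB⟩ := fdm W hc hn (fun k i => c k i)
    (fun j i k => (K j i k).1.sym) (fun k l => (Θ k l).1.sym)
    (fun j i k => ⟨(K j i k).2, hKs j i k⟩) (fun k l => ⟨(Θ k l).2, hΘs k l⟩)
    (fun k => (f k).1.sym) (fun k => (f k).2)
  refine ⟨fun i => ⟨res (r i), isMicro_res (hr i).1⟩, ?_⟩
  have hme : ∀ i, me (⟨res (r i), isMicro_res (hr i).1⟩ : (micro d).alg)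
      = d10_mk (r i) (hr i).1 := fun i => d10_me_res (hr i).1 (hr i).2
  simp_rw [hme]
  -- the identities in the ring
  have hA' : ∀ i', d10_mk (r i') (hr i').1 = -∑ j, d10_mk (H j i') (hH j i') * (Micro d).v j
      + ∑ j, ∑ i, d10_mk (H j i) (hH j i) * (Micro d).cst (W j i i')
      + ∑ k, d10_mk (G k) (hG k) * (Micro d).cst (c k i') := by
    intro i'
    apply Subtype.ext
    simp only [Subring.coe_add, Subring.coe_neg, AddSubmonoidClass.coe_finsetSum, d10_mul_cst]
    apply Op.ext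
    have h := hA i'
    rw [Finset.sum_sub_distrib] at h
    have h' : r i' = -∑ j, comp (H j i') (V j) + ∑ j, ∑ i, W j i i' • H j i
        + ∑ k, c k i' • G k := by
      linear_combination h
    exact h'
  have hB' : ∀ k', f k' = d10_mk (G k') (hG k') - ∑ j, ∑ i, d10_mk (H j i) (hH j i) * K j i k'
      - ∑ k, d10_mk (G k) (hG k) * Θ k k' := by
    intro k'
    apply Subtype.ext
    simp only [AddSubgroupClass.coe_sub, AddSubmonoidClass.coe_finsetSum]
    apply Op.ext
    exact (hB k').symm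
  -- the sum
  have e1 : u = ∑ k, d10_mk (G k) (hG k) • g k
      - ∑ j, ∑ i, d10_mk (H j i) (hH j i) • (∑ k, K j i k • g k)
      - ∑ k, d10_mk (G k) (hG k) • (∑ l, Θ k l • g l) := by
    rw [hfu]
    have : ∀ k', f k' • g k' = d10_mk (G k') (hG k') • g k'
        - ∑ j, ∑ i, d10_mk (H j i) (hH j i) • K j i k' • g k'
        - ∑ k, d10_mk (G k) (hG k) • Θ k k' • g k' := by
      intro k'
      rw [hB' k', sub_smul, sub_smul, Finset.sum_smul, Finset.sum_smul]
      congr 1
      · congr 1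
        apply Finset.sum_congr rfl
        intro j _
        rw [Finset.sum_smul]
        exact Finset.sum_congr rfl fun i _ => mul_smul _ _ _
      · exact Finset.sum_congr rfl fun i _ => mul_smul _ _ _
    rw [Finset.sum_congr rfl fun k' _ => this k', Finset.sum_sub_distrib, Finset.sum_sub_distrib]
    congr 1
    · congr 1
      rw [Finset.sum_comm]
      apply Finset.sum_congr rfl
      intro j _
      rw [Finset.sum_comm]
      apply Finset.sum_congr rfl
      intro i _
      rw [Finset.smul_sum]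
    · rw [Finset.sum_comm]
      apply Finset.sum_congr rfl
      intro k _
      rw [Finset.smul_sum]
  rw [e1]
  have e2 : ∀ j i, d10_mk (H j i) (hH j i) • (∑ k, K j i k • g k)
      = (d10_mk (H j i) (hH j i) * (Micro d).v j) • e i
        - ∑ i', (d10_mk (H j i) (hH j i) * (Micro d).cst (W j i i')) • e i' := by
    intro j i
    rw [← hKe j i, smul_sub, ← mul_smul, Finset.smul_sum]
    congr 1
    exact Finset.sum_congr rfl fun i' _ => (mul_smul _ _ _).symm
  have e3 : ∀ k, d10_mk (G k) (hG k) • (∑ l, Θ k l • g l)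
      = d10_mk (G k) (hG k) • g k - ∑ i, (d10_mk (G k) (hG k) * (Micro d).cst (c k i)) • e i := by
    intro k
    rw [← hΘe k, smul_sub, Finset.smul_sum]
    congr 1
    exact Finset.sum_congr rfl fun i' _ => (mul_smul _ _ _).symm
  simp_rw [e2, e3, hA']
  simp_rw [add_smul, neg_smul, Finset.sum_smul, Finset.sum_add_distrib, Finset.sum_sub_distrib,
    Finset.sum_neg_distrib]
  rw [Finset.sum_comm (f := fun (j : Option (Fin d)) (i : Fin m) =>
    (d10_mk (H j i) (hH j i) * (Micro d).v j) • e i)]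
  have e4 : ∑ j : Option (Fin d), ∑ i : Fin m, ∑ i' : Fin m,
      (d10_mk (H j i) (hH j i) * (Micro d).cst (W j i i')) • e i'
      = ∑ i' : Fin m, ∑ j : Option (Fin d), ∑ i : Fin m,
      (d10_mk (H j i) (hH j i) * (Micro d).cst (W j i i')) • e i' := by
    rw [Finset.sum_comm (s := (Finset.univ : Finset (Fin m))) (t := (Finset.univ : Finset (Option (Fin d))))
      (f := fun i' j => ∑ i : Fin m, (d10_mk (H j i) (hH j i) * (Micro d).cst (W j i i')) • e i')]
    apply Finset.sum_congr rfl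
    intro j _
    rw [Finset.sum_comm]
  have e5 : ∑ k : Fin q, ∑ i : Fin m, (d10_mk (G k) (hG k) * (Micro d).cst (c k i)) • e i
      = ∑ i : Fin m, ∑ k : Fin q, (d10_mk (G k) (hG k) * (Micro d).cst (c k i)) • e i :=
    Finset.sum_comm
  rw [e4, e5]
  abel

end Pool.Agent.Ep
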