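import Pool.Agent.Ep.Gee

import Pool.Agent.Ep.Und

import Pool.Agent.Ep.Une

/-!
# Uniqueness of the microdifferential form of a regular holonomic lattice (P11, block U, helper69)

`spn_unique`: two families `n`, `n'` with generators and relations over `E(0)` (`GenRel`) in a regular
holonomic lattice `L` over `hat E(0)` generate the same `E(0)`-module.
-/

set_option autoImplicit false

namespace Pool.Agent.Ep

open Pool.Fml (Ser SymRing formal micro)

open Pool.Fml.Lattice (inc)

section generic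

variable {d : ℕ} {L : Type} [AddCommGroup L] [Module (Formal d).ring L]

/-- `L` as a module over the formal symbols in `x`, `s` -/
@[reducible] noncomputable def fmod (d : ℕ) (L : Type) [AddCommGroup L]
    [Module (Formal d).ring L] : Module (formal d).alg L := Module.compHom L (feHom d)

attribute [local instance] fmod

lemma fmod_smul (f : (formal d).alg) (u : L) : f • u = fe f • u := rfl

lemma fe_inc (a : (micro d).alg) : fe (inc d a) = iot d (me a) := rfl

lemma fe_var : fe ((formal d).var none) = (Formal d).s := by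
  apply Subtype.ext
  apply Op.ext
  change emb (MvPowerSeries.X none : Ser d) = vs
  rw [emb_X]
  rfl

variable {m : ℕ} {n : Fin m → L}

/-! ## row v1 -/

/-- `L = N + s L` (`GenRel.gen`, `exists_level_zero`) -/
lemma GenRel.level (hn : GenRel d L n) (u : L) :
    ∃ (v : spn (d := d) n) (w : L), u = Res.out v.1 + (Formal d).s • w := by
  obtain ⟨f, hf⟩ := hn.gen u
  choose f0 f1 hf01 using fun i => exists_level_zero (f i)
  refine ⟨⟨∑ i, f0 i • (Res.of (n i) : Res L), Submodule.sum_mem _ fun i _ =>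
    Submodule.smul_mem _ _ (Submodule.subset_span ⟨i, rfl⟩)⟩, ∑ i, f1 i • n i, ?_⟩
  have h1 : Res.out (∑ i, f0 i • (Res.of (n i) : Res L)) = ∑ i, iot d (f0 i) • n i := rfl
  rw [h1, hf, Finset.smul_sum, ← Finset.sum_add_distrib]
  refine Finset.sum_congr rfl fun i _ => ?_
  rw [hf01 i, add_smul, mul_smul]

/-- a basis of `L` modulo `Z L` in `N`: `exists_basis`, then `GenRel.level` -/
lemma GenRel.exists_basis (h : (Formal d).RegLattice L) (hn : GenRel d L n) :
    ∃ (μ : ℕ) (e : Fin μ → spn (d := d) n),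
      (∀ u : L, ∃ c : Fin μ → ℂ,
        u - ∑ i, (Formal d).cst (c i) • (Res.out (e i).1 : L) ∈ (Formal d).Z L) ∧
      (∀ c : Fin μ → ℂ, ∑ i, (Formal d).cst (c i) • (Res.out (e i).1 : L) ∈ (Formal d).Z L → c = 0) := by
  obtain ⟨μ, e, N, -, -, h1, h2, -⟩ := (Formal d).exists_basis L h.gen
  choose v w hv using fun i => hn.level (e i)
  have h3 : ∀ c : Fin μ → ℂ, ∑ i, (Formal d).cst (c i) • e i -
      ∑ i, (Formal d).cst (c i) • (Res.out (v i).1 : L) ∈ (Formal d).Z L := by
    intro c
    rw [← Finset.sum_sub_distrib]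
    refine Submodule.sum_mem _ fun i _ => ?_
    rw [← smul_sub]
    refine Submodule.smul_mem _ _ ?_
    have h4 : e i - (Res.out (v i).1 : L) = (Formal d).s • w i := by
      rw [sub_eq_iff_eq_add, add_comm]
      exact hv i
    rw [h4]
    exact ⟨0, w i, by simp⟩
  refine ⟨μ, v, fun u => ?_, fun c hc => ?_⟩
  · obtain ⟨c, hc⟩ := h1 u
    refine ⟨c, ?_⟩
    have h4 := Submodule.add_mem _ hc (h3 c)
    rwa [sub_add_sub_cancel] at h4
  · refine h2 c ?_
    have h4 := Submodule.add_mem _ (h3 c) hc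
    rwa [sub_add_cancel] at h4

/-! ## row v2 -/

/-- `Z L ∩ N = Z N`: replace the `v_i` in `∑ x_i v_i + s w` by elements of `N` (`GenRel.level`,
`x_i s = s x_i`), the rest is in `s L ∩ N = s N` (`sat`). -/
lemma GenRel.mem_Z (hn : GenRel d L n) (v : spn (d := d) n)
    (hv : (Res.out v.1 : L) ∈ (Formal d).Z L) : v ∈ (Micro d).Z (spn (d := d) n) := by
  obtain ⟨f, w, hw⟩ := hv
  choose g z hg using fun i => hn.level (f i)
  have h1 : ∀ i, (Formal d).x i * (Formal d).s = (Formal d).s * (Formal d).x i := fun i => by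
    refine Subtype.ext (Op.ext ?_)
    change comp (vx i) vs = comp vs (vx i)
    rw [comp_vs_right, comp_vx_right, D_vs, add_zero, mul_comm]
  obtain ⟨y, hy⟩ := sat n hn.gen hn.rel (v - ∑ i, (Micro d).x i • g i)
    (w + ∑ i, (Formal d).x i • z i) (by
      have h2 : (Res.out ((v - ∑ i, (Micro d).x i • g i : spn (d := d) n)).1 : L) =
          Res.out v.1 - ∑ i, (Formal d).x i • (Res.out (g i).1 : L) := by
        rw [Submodule.coe_sub, Submodule.coe_sum]
        rfl
      have h3 : ∀ i, (Formal d).x i • f i = (Formal d).s • (Formal d).x i • z i +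
          (Formal d).x i • (Res.out (g i).1 : L) := fun i => by
        conv_lhs => rw [hg i]
        rw [smul_add, ← mul_smul, h1, mul_smul, add_comm]
      rw [h2, hw, smul_add, Finset.smul_sum, Finset.sum_congr rfl fun i _ => h3 i,
        Finset.sum_add_distrib]
      abel)
  refine ⟨g, y, ?_⟩
  rw [← hy, add_sub_cancel]

/-! ## row v3: `N` is finitely generated over the microdifferential symbols -/

/-- `exists_me` for `N = spn n` with the basis of `GenRel.exists_basis`; the hypotheses by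
`GenRel.mem_Z`. -/
lemma GenRel.exists_gens (h : (Formal d).RegLattice L) (hn : GenRel d L n) :
    ∃ (μ : ℕ) (e : Fin μ → spn (d := d) n),
      (∀ v : spn (d := d) n, ∃ r : Fin μ → (micro d).alg, v = ∑ i, me (r i) • e i) ∧
      (∀ u : L, ∃ r : Fin μ → (formal d).alg, u = ∑ i, fe (r i) • (Res.out (e i).1 : L)) := by
  obtain ⟨μ, e, h1, h2⟩ := hn.exists_basis h
  have h3 : ∀ c : Fin μ → ℂ, (Res.out (∑ i, (Micro d).cst (c i) • e i : spn (d := d) n).1 : L) =
      ∑ i, (Formal d).cst (c i) • (Res.out (e i).1 : L) := fun c => by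
    rw [Submodule.coe_sum]
    rfl
  have h4 : ∀ u : spn (d := d) n, ∃ c : Fin μ → ℂ,
      u - ∑ i, (Micro d).cst (c i) • e i ∈ (Micro d).Z (spn (d := d) n) := by
    intro u
    obtain ⟨c, hc⟩ := h1 (Res.out u.1)
    refine ⟨c, hn.mem_Z _ ?_⟩
    have h5 : (Res.out (u - ∑ i, (Micro d).cst (c i) • e i : spn (d := d) n).1 : L) =
        Res.out u.1 - ∑ i, (Formal d).cst (c i) • (Res.out (e i).1 : L) := by
      rw [← h3]
      rfl
    rw [h5]
    exact hc
  have hfin : Module.Finite (Micro d).ring (spn (d := d) n) :=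
    Module.Finite.iff_fg.2 (Submodule.fg_span (Set.finite_range _))
  have hgen : (Micro d).Generic (spn (d := d) n) := by
    refine ⟨μ, e, fun u => ?_⟩
    obtain ⟨c, v, w, hc⟩ := h4 u
    refine ⟨c, v, w, ?_⟩
    rw [add_assoc, ← hc, add_sub_cancel]
  refine ⟨μ, e, exists_me hfin hgen e h4 fun c hc => h2 c ?_,
    exists_fe h.fin h.gen (fun i => (Res.out (e i).1 : L)) h1 h2⟩
  obtain ⟨v, w, hvw⟩ := hc
  refine ⟨fun i => Res.out (v i).1, Res.out w.1, ?_⟩
  rw [← h3, hvw, Submodule.coe_add, Submodule.coe_sum]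
  rfl

/-! ## row v4: the family is microdifferential -/

/-- `MSp d e = N` by `fe_inc`; `stab` since `N` is stable under `(Micro d).v none`; `sat`. -/
lemma GenRel.exists_mfam (h : (Formal d).RegLattice L) (hn : GenRel d L n) :
    ∃ (μ : ℕ) (e : Fin μ → L), MFam d (vEnd (d := d) L none) e ∧
      ∀ u : L, u ∈ MSp d e ↔ Res.of u ∈ spn (d := d) n := by
  obtain ⟨μ, e, h1, h2⟩ := hn.exists_gens h
  have h3 : ∀ a : Fin μ → (micro d).alg,
      (Res.out (∑ i, me (a i) • e i : spn (d := d) n).1 : L) =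
        ∑ i, inc d (a i) • (Res.out (e i).1 : L) := fun a => by
    rw [Submodule.coe_sum]
    rfl
  have h4 : ∀ u : L, u ∈ MSp d (fun i => (Res.out (e i).1 : L)) ↔ Res.of u ∈ spn (d := d) n := by
    intro u
    constructor
    · rintro ⟨a, ha⟩
      rw [ha, ← h3]
      exact (∑ i, me (a i) • e i : spn (d := d) n).2
    · intro hu
      obtain ⟨a, ha⟩ := h1 ⟨Res.of u, hu⟩
      refine ⟨a, ?_⟩
      rw [← h3, ← ha]
      rfl
  refine ⟨μ, fun i => (Res.out (e i).1 : L), ⟨h2, fun i => ?_, fun u hu => ?_⟩, h4⟩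
  · rw [h4]
    exact Submodule.smul_mem _ ((Micro d).v none) (e i).2
  · rw [h4] at hu ⊢
    have h5 : (Res.out (⟨Res.of ((formal d).var none • u), hu⟩ : spn (d := d) n).1 : L) =
        (Formal d).s • u := by
      rw [← fe_var]
      rfl
    obtain ⟨w, hw⟩ := sat n hn.gen hn.rel _ u h5
    have h6 : (Formal d).s • u = (Formal d).s • (Res.out w.1 : L) := by
      rw [← h5, hw]
      rfl
    have h7 : u = Res.out w.1 := by
      rw [← sub_eq_zero]
      refine h.sinj _ ?_
      rw [smul_sub, h6, sub_self]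
    rw [h7]
    exact w.2

/-! ## row v5: the properties of the lattice -/

-- BEGIN v5
/-- from `fl_of_lattice` and `Pool.Agent.Stf.torsion_free` -/
lemma tmod_of_lattice (h : (Formal d).RegLattice L) : TMod d (vEnd (d := d) L none) := by
  obtain ⟨h1, -⟩ := fl_of_lattice L h
  have hfin : Module.Finite (formal d).alg L := h1.fin
  exact ⟨h1.fin, h1.sinj, fun f u hf => Pool.Agent.Stf.torsion_free L h1.sinj
    (fun i => vEnd (d := d) L (some i)) h1.P_smul f u hf, h1.T_smul⟩

/-- the lattice in the form of block B -/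
private noncomputable def v5_F (h1 : FL (formal d) L (vEnd (d := d) L none) (fun i => vEnd (d := d) L (some i))) :
    Pool.Agent.Fbc.FLat (formal d) :=
  { L := L, fin := h1.fin, sinj := h1.sinj, T := vEnd (d := d) L none,
    P := fun i => vEnd (d := d) L (some i), T_smul := h1.T_smul,
    P_smul := h1.P_smul, P_T := h1.P_T, P_P := h1.P_P }

private lemma v5_sum {L : Type} [AddCommGroup L] (s : Finset ℕ) (F : ℕ → AddMonoid.End L) (u : L) :
    (∑ k ∈ s, F k) u = ∑ k ∈ s, F k u := by
  induction s using Finset.induction_on with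
  | empty => rw [Finset.sum_empty, Finset.sum_empty]; rfl
  | insert a s ha ih => rw [Finset.sum_insert ha, Finset.sum_insert ha, ← ih]; rfl

private lemma v5_evT (M : Pool.Agent.Fbc.FLat (formal d)) (q : Polynomial (formal d).alg) (u : M.L) :
    M.evT q u = ∑ k ∈ Finset.range (q.natDegree + 1), q.coeff k • (M.T ^ k) u := by
  rw [Pool.Agent.Fbc.FLat.evT, v5_sum]
  rfl

/-- The polynomial: `FLat.exists_q` and `FLat.kills` (Fbc/NGd.lean) for the lattice
`⟨L, …⟩ : FLat (formal d)` given by `fl_of_lattice` (its regularity: see the glue of block B in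
Core.lean, helper49); `q = q₀.map (cvi d)`, `δ = bar (cvi Δ) ≠ 0` by `bar_cvi_injective`. -/
lemma exists_sep (h : (Formal d).RegLattice L) : ∃ (q : Polynomial (formal d).alg)
    (α β : Polynomial (CvB d)) (δ : CvB d), δ ≠ 0 ∧
      α * q.map (bar d) + β * Polynomial.derivative (q.map (bar d)) = Polynomial.C δ ∧
      ∀ u : L, ∃ v : L, ∑ k ∈ Finset.range (q.natDegree + 1),
        q.coeff k • ((vEnd (d := d) L none) ^ k) u = (formal d).var none • v := by
  obtain ⟨h1, h2⟩ := fl_of_lattice L h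
  obtain ⟨q₀, α₀, β₀, Δ, hΔ, hq, hv⟩ := Pool.Agent.Fbc.FLat.exists_q (v5_F h1)
  obtain ⟨hk, -⟩ := Pool.Agent.Fbc.FLat.kills (v5_F h1) h2 q₀ hv
  refine ⟨q₀.map (Pool.Agent.Fbc.cvi d), α₀.map ((bar d).comp (Pool.Agent.Fbc.cvi d)),
    β₀.map ((bar d).comp (Pool.Agent.Fbc.cvi d)), bar d (Pool.Agent.Fbc.cvi d Δ), ?_, ?_, fun u => ?_⟩
  · intro h0
    apply hΔ
    apply bar_cvi_injective (d := d)
    show bar d (Pool.Agent.Fbc.cvi d Δ) = bar d (Pool.Agent.Fbc.cvi d 0)
    rw [h0, map_zero, map_zero]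
  · rw [Polynomial.map_map, Polynomial.derivative_map, ← Polynomial.map_mul, ← Polynomial.map_mul,
      ← Polynomial.map_add, hq, Polynomial.map_C]
    rfl
  · obtain ⟨v, hv'⟩ := hk u
    refine ⟨v, ?_⟩
    rw [v5_evT (v5_F h1)] at hv'
    exact hv'

/-! ## row v6: uniqueness in generic position -/

theorem spn_unique_gen (h : (Formal d).RegLattice L) {m m' : ℕ} {n : Fin m → L} {n' : Fin m' → L}
    (hn : GenRel d L n) (hn' : GenRel d L n') : spn (d := d) n = spn (d := d) n' := by
  obtain ⟨μ, e, he, h1⟩ := hn.exists_mfam h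
  obtain ⟨μ', e', he', h1'⟩ := hn'.exists_mfam h
  obtain ⟨q, α, β, δ, hδ, hb, hq⟩ := exists_sep h
  have hT := tmod_of_lattice h
  have h2 := MFam.le hT he he' q hq α β δ hδ hb
  have h3 := MFam.le hT he' he q hq α β δ hδ hb
  refine Submodule.ext fun u => ?_
  exact ((h1 u).symm.trans ⟨fun hu => h3 hu, fun hu => h2 hu⟩).trans (h1' u)

end generic

/-! ## row v7: twisting -/

variable {d : ℕ} {L : Type} [AddCommGroup L] [Module (Formal d).ring L]

private lemma v7_sum (χ : Aut d) {m : ℕ} (n : Fin m → L) (f : Fin m → (Formal d).ring) :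
    ∑ i, f i • Tw.of χ (n i) = Tw.of χ (∑ i, χ.onF (f i) • n i) := by
  have h : ∀ s : Finset (Fin m), ∑ i ∈ s, f i • Tw.of χ (n i)
      = Tw.of χ (∑ i ∈ s, χ.onF (f i) • n i) := by
    classical
    intro s
    induction s using Finset.induction_on with
    | empty => rfl
    | insert a s ha ih => rw [Finset.sum_insert ha, Finset.sum_insert ha, ih]; rfl
  exact h Finset.univ

private lemma v7_symm_iot (χ : Aut d) (a : (Micro d).ring) :
    χ.onF.symm (iot d a) = iot d (χ.onM.symm a) := by
  rw [RingEquiv.symm_apply_eq, Aut.onF_iot, RingEquiv.apply_symm_apply]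

/-- converse of `GenRel.of_tw` -/
lemma GenRel.to_tw (χ : Aut d) {m : ℕ} {n : Fin m → L} (h : GenRel d L n) :
    GenRel d (Tw χ L) (fun i => Tw.of χ (n i)) := by
  constructor
  · intro u
    obtain ⟨f, hf⟩ := h.gen (Tw.out u)
    refine ⟨fun i => χ.onF.symm (f i), ?_⟩
    rw [v7_sum]
    simp only [RingEquiv.apply_symm_apply]
    rw [← hf]
    rfl
  · intro f hf
    rw [v7_sum] at hf
    obtain ⟨q, c, b, h1, h2⟩ := h.rel (fun i => χ.onF (f i)) hf
    refine ⟨q, fun l => χ.onF.symm (c l), fun l i => χ.onM.symm (b l i), fun l => ?_,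
      fun i => ?_⟩
    · rw [v7_sum]
      simp only [Aut.onF_iot, RingEquiv.apply_symm_apply]
      rw [h1 l]
      rfl
    · have h3 := congrArg χ.onF.symm (h2 i)
      rw [RingEquiv.symm_apply_apply, map_sum] at h3
      rw [h3]
      exact Finset.sum_congr rfl fun l _ => by rw [map_mul, v7_symm_iot]

/-- the module generated over `E(0)` does not change -/
lemma mem_spn_tw (χ : Aut d) {m : ℕ} {n : Fin m → L} (u : L) :
    Res.of (Tw.of χ u) ∈ spn (d := d) (fun i => Tw.of χ (n i)) ↔ Res.of u ∈ spn (d := d) n := by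
  constructor
  · intro h
    refine Submodule.span_induction (p := fun x _ => Res.of (Tw.out (Res.out x)) ∈ spn (d := d) n)
      ?_ ?_ ?_ ?_ h
    · rintro _ ⟨i, rfl⟩
      exact Submodule.subset_span ⟨i, rfl⟩
    · exact (spn (d := d) n).zero_mem
    · intro x y _ _ hx hy
      exact (spn (d := d) n).add_mem hx hy
    · intro a x _ hx
      have h1 := (spn (d := d) n).smul_mem (χ.onM a) hx
      rw [Res.smul_def, ← Aut.onF_iot] at h1
      exact h1
  · intro h
    refine Submodule.span_induction (p := fun x _ => Res.of (Tw.of χ (Res.out x)) ∈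
      spn (d := d) (fun i => Tw.of χ (n i))) ?_ ?_ ?_ ?_ h
    · rintro _ ⟨i, rfl⟩
      exact Submodule.subset_span ⟨i, rfl⟩
    · exact (spn (d := d) (fun i => Tw.of χ (n i))).zero_mem
    · intro x y _ _ hx hy
      exact (spn (d := d) (fun i => Tw.of χ (n i))).add_mem hx hy
    · intro a x _ hx
      have h1 := (spn (d := d) (fun i => Tw.of χ (n i))).smul_mem (χ.onM.symm a) hx
      have h2 : iot d (χ.onM.symm a) • (Tw.of χ (Res.out x) : Tw χ L)
          = Tw.of χ (iot d a • Res.out x) := by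
        rw [← v7_symm_iot, Tw.smul_def, RingEquiv.apply_symm_apply]
        rfl
      rw [Res.smul_def] at h1
      have h3 : (iot d (χ.onM.symm a) • Res.out (Res.of (Tw.of χ (Res.out x))) : Tw χ L)
        = Tw.of χ (iot d a • Res.out x) := h2
      rw [h3] at h1
      exact h1

/-- UNIQUENESS. -/
theorem spn_unique (h : (Formal d).HolLattice L) {m m' : ℕ} {n : Fin m → L} {n' : Fin m' → L}
    (hn : GenRel d L n) (hn' : GenRel d L n') : spn (d := d) n = spn (d := d) n' := by
  obtain ⟨χ, hχ⟩ := exists_generic h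
  have h1 := spn_unique_gen hχ (hn.to_tw χ) (hn'.to_tw χ)
  refine Submodule.ext fun u => ?_
  have h2 := mem_spn_tw χ (n := n) (Res.out u)
  have h3 := mem_spn_tw χ (n := n') (Res.out u)
  rw [h1] at h2
  exact h2.symm.trans h3

end Pool.Agent.Ep
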