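import Pool.Agent.Ep.Unf

/-!
# Descent of the relations over `E(0)` (P11, block U, helper69)

`rel_descent`: if microdifferential relations `b` of a family `n` in a regular holonomic lattice over
`hat E(0)` generate all the relations over `hat E(0)`, they generate all the microdifferential
relations over `E(0)`.
-/

set_option autoImplicit false

namespace Pool.Agent.Ep

open Pool.Fml (Ser SymRing formal micro)

section

variable {d : ℕ}

/-! ## row w1 -/

/-- `me` is a homomorphism of rings (as `feHom` in Core.lean) -/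
noncomputable def meHom (d : ℕ) : (micro d).alg →+* (Micro d).ring where
  toFun := me
  map_one' := by
    apply Subtype.ext
    apply Op.ext
    change emb (1 : Ser d) = 1
    have h := emb_C (d := d) 1
    rwa [map_one, map_one] at h
  map_mul' f g := by
    apply Subtype.ext
    apply Op.ext
    change emb ((f : Ser d) * (g : Ser d)) = comp (emb (f : Ser d)) (emb (g : Ser d))
    rw [comp_emb_emb]
  map_zero' := by
    apply Subtype.ext
    apply Op.ext
    change emb (0 : Ser d) = 0
    have h := emb_add (d := d) 0 0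
    rw [add_zero] at h
    exact left_eq_add.1 h
  map_add' f g := by
    apply Subtype.ext
    apply Op.ext
    change emb ((f : Ser d) + (g : Ser d)) = emb (f : Ser d) + emb (g : Ser d)
    rw [emb_add]

lemma me_var : me ((micro d).var none) = (Micro d).s := by
  apply Subtype.ext
  apply Op.ext
  change emb (MvPowerSeries.X none : Ser d) = vs
  rw [emb_X]
  rfl

/-! ## row w2 -/

/-- A module over `E(0)` in generic position, finitely generated: if `K = s K` for a submodule `K`
then `K = 0`. Proof: `(Micro d).exists_basis`, `exists_me`: the module is finitely generated over the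
noetherian ring `(micro d).alg` (`noetherian_micro` in Stf/GrdM.lean, module structure by `meHom`), so
`K` is; `s` is in the Jacobson radical (`isLocal_micro`); Nakayama. -/
theorem eq_bot_of_s {Q : Type} [AddCommGroup Q] [Module (Micro d).ring Q]
    (hf : Module.Finite (Micro d).ring Q) (hg : (Micro d).Generic Q)
    (K : Submodule (Micro d).ring Q) (hK : ∀ u ∈ K, ∃ v ∈ K, u = (Micro d).s • v) : K = ⊥ := by
  classical
  letI : Module (micro d).alg Q := Module.compHom Q (meHom d)
  obtain ⟨m, e, N, -, -, h1, h2, -⟩ := (Micro d).exists_basis Q hg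
  have h3 := exists_me hf hg e h1 h2
  have hfin : Module.Finite (micro d).alg Q := by
    refine ⟨⟨Finset.univ.image e, ?_⟩⟩
    rw [eq_top_iff]
    intro u _
    obtain ⟨r, hr⟩ := h3 u
    rw [hr]
    refine Submodule.sum_mem _ fun i _ => ?_
    exact Submodule.smul_mem _ (r i) (Submodule.subset_span (by simp))
  have hno : IsNoetherian (micro d).alg Q := isNoetherian_of_isNoetherianRing_of_finite _ _
  let K' : Submodule (micro d).alg Q :=
    { carrier := K
      add_mem' := K.add_mem
      zero_mem' := K.zero_mem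
      smul_mem' := fun c _ hu => K.smul_mem (meHom d c) hu }
  have hK' : K' = ⊥ := by
    refine Submodule.eq_bot_of_le_smul_of_le_jacobson_bot (Ideal.span {(micro d).var none}) K'
      (IsNoetherian.noetherian K') ?_ ?_
    · intro u hu
      obtain ⟨v, hv, hu'⟩ := hK u hu
      have h4 : u = (micro d).var none • v := by
        rw [hu', ← me_var]
        rfl
      rw [h4]
      exact Submodule.smul_mem_smul (Ideal.subset_span rfl) hv
    · rw [Ideal.span_singleton_le_iff_mem]
      rw [IsLocalRing.jacobson_eq_maximalIdeal ⊥ bot_ne_top, IsLocalRing.mem_maximalIdeal,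
        mem_nonunits_iff, Pool.Agent.Stf.isUnit_iff_micro]
      intro h4
      apply h4
      exact MvPowerSeries.coeff_zero_X _
  rw [Submodule.eq_bot_iff]
  intro u hu
  have h5 : u ∈ K' := hu
  rw [hK'] at h5
  exact h5

/-! ## row w3 -/

variable {L : Type} [AddCommGroup L] [Module (Formal d).ring L]

/-- `Q = E(0)^m / ∑ E(0) b_l` is in generic position: `e_i = ∑ a_ij n_j` a basis of `L` modulo `Z L`
in `spn n` (`GenRel.exists_basis`); for `a ∈ E(0)^m` write
`∑ a_j n_j = ∑ c_i e_i + ∑ x_i v_i + s w`, `v_i = ∑ v0_ij n_j + s (…)` (`GenRel.level`),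
`w = ∑ f_j n_j`; the difference `a - ∑ c_i a_i - ∑ x_i v0_i - s f'` is a relation, so it is
`∑ g_l b_l`, `g_l = g0_l + s g1_l` (`exists_level_zero`); so `a - ∑ c_i a_i - ∑ x_i v0_i - ∑ g0_l b_l`
is in `s hat E(0)^m`, by `exists_div_s` in `s E(0)^m`. -/
theorem generic_quot (h : (Formal d).RegLattice L) {m : ℕ} {n : Fin m → L} (hn : GenRel d L n)
    {c : ℕ} (b : Fin c → Fin m → (Micro d).ring)
    (hg : ∀ f : Fin m → (Formal d).ring, ∑ i, f i • n i = 0 →
      ∃ g : Fin c → (Formal d).ring, ∀ i, f i = ∑ l, g l * iot d (b l i)) :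
    (Micro d).Generic ((Fin m → (Micro d).ring) ⧸ Submodule.span (Micro d).ring (Set.range b)) := by
  obtain ⟨μ, e, h1, -⟩ := hn.exists_basis h
  have hspn : ∀ v : spn (d := d) n, ∃ a : Fin m → (Micro d).ring,
      (Res.out v.1 : L) = ∑ j, iot d (a j) • n j := by
    intro v
    obtain ⟨a, ha⟩ := (Submodule.mem_span_range_iff_exists_fun (Micro d).ring).1 v.2
    exact ⟨a, ha.symm⟩
  choose a ha using fun i => hspn (e i)
  refine ⟨μ, fun i => Submodule.Quotient.mk (a i), fun u => ?_⟩
  obtain ⟨a0, rfl⟩ := Submodule.Quotient.mk_surjective _ u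
  obtain ⟨c0, v, w, hvw⟩ := h1 (∑ j, iot d (a0 j) • n j)
  choose v0 z hz using fun i => hn.level (v i)
  choose p hp using fun i => hspn (v0 i)
  choose g hgz using fun i => hn.gen (z i)
  obtain ⟨f, hf⟩ := hn.gen w
  have hxs : ∀ i, (Formal d).x i * (Formal d).s = (Formal d).s * (Formal d).x i := fun i => by
    refine Subtype.ext (Op.ext ?_)
    change comp (vx i) vs = comp vs (vx i)
    rw [comp_vs_right, comp_vx_right, D_vs, add_zero, mul_comm]
  obtain ⟨G, hG⟩ := hg (fun j => iot d (a0 j) - ∑ i, (Formal d).cst (c0 i) * iot d (a i j)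
      - ∑ i, (Formal d).x i * iot d (p i j) - (Formal d).s * (∑ i, (Formal d).x i * g i j + f j))
    (by
      simp only [sub_smul, Finset.sum_sub_distrib, Finset.sum_smul, mul_smul, add_smul,
        Finset.smul_sum, smul_add, Finset.sum_add_distrib]
      have e1 : ∑ j, ∑ i, (Formal d).cst (c0 i) • iot d (a i j) • n j =
          ∑ i, (Formal d).cst (c0 i) • (Res.out (e i).1 : L) := by
        rw [Finset.sum_comm]
        refine Finset.sum_congr rfl fun i _ => ?_
        rw [ha i, Finset.smul_sum]
      have e2 : ∑ j, ∑ i, (Formal d).x i • iot d (p i j) • n j =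
          ∑ i, (Formal d).x i • (Res.out (v0 i).1 : L) := by
        rw [Finset.sum_comm]
        refine Finset.sum_congr rfl fun i _ => ?_
        rw [hp i, Finset.smul_sum]
      have e3 : ∑ j, ∑ i, (Formal d).s • (Formal d).x i • g i j • n j =
          ∑ i, (Formal d).x i • (Formal d).s • z i := by
        rw [Finset.sum_comm]
        refine Finset.sum_congr rfl fun i _ => ?_
        conv_rhs => rw [hgz i]
        rw [Finset.smul_sum, Finset.smul_sum]
        refine Finset.sum_congr rfl fun j _ => ?_
        rw [← mul_smul, ← mul_smul ((Formal d).x i), hxs]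
      have e4 : ∑ j, (Formal d).s • f j • n j = (Formal d).s • w := by
        rw [← Finset.smul_sum, ← hf]
      have e5 : ∑ i, (Formal d).x i • v i = ∑ i, (Formal d).x i • (Res.out (v0 i).1 : L) +
          ∑ i, (Formal d).x i • (Formal d).s • z i := by
        rw [← Finset.sum_add_distrib]
        refine Finset.sum_congr rfl fun i _ => ?_
        conv_lhs => rw [hz i]
        rw [smul_add]
      rw [e1, e2, e3, e4]
      rw [e5] at hvw
      rw [sub_sub, sub_sub, sub_eq_zero]
      rw [sub_eq_iff_eq_add] at hvw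
      rw [hvw]
      abel)
  choose G0 G1 hG01 using fun l => exists_level_zero (G l)
  have hdiv : ∀ j, iot d (a0 j - ∑ i, (Micro d).cst (c0 i) * a i j - ∑ i, (Micro d).x i * p i j
      - ∑ l, G0 l * b l j) =
      (Formal d).s * (∑ i, (Formal d).x i * g i j + f j + ∑ l, G1 l * iot d (b l j)) := by
    intro j
    have h3 := hG j
    have e1 : iot d (∑ i, (Micro d).cst (c0 i) * a i j) =
        ∑ i, (Formal d).cst (c0 i) * iot d (a i j) := by
      rw [map_sum]
      exact Finset.sum_congr rfl fun i _ => map_mul _ _ _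
    have e2 : iot d (∑ i, (Micro d).x i * p i j) = ∑ i, (Formal d).x i * iot d (p i j) := by
      rw [map_sum]
      exact Finset.sum_congr rfl fun i _ => map_mul _ _ _
    have e3 : ∑ l, G l * iot d (b l j) = iot d (∑ l, G0 l * b l j) +
        (Formal d).s * ∑ l, G1 l * iot d (b l j) := by
      rw [map_sum, Finset.mul_sum, ← Finset.sum_add_distrib]
      refine Finset.sum_congr rfl fun l _ => ?_
      rw [hG01 l, add_mul, map_mul, mul_assoc]
    rw [map_sub, map_sub, map_sub, e1, e2]
    rw [e3] at h3
    rw [mul_add (Formal d).s _ (∑ l, G1 l * iot d (b l j))]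
    rw [sub_eq_iff_eq_add] at h3 ⊢
    rw [h3]
    abel
  choose y hy using fun j => exists_div_s (hdiv j)
  have ha0 : a0 = ∑ i, (Micro d).cst (c0 i) • a i + ∑ i, (Micro d).x i • p i + (Micro d).s • y +
      ∑ l, G0 l • b l := by
    funext j
    simp only [Pi.add_apply, Finset.sum_apply, Pi.smul_apply, smul_eq_mul]
    rw [← hy j]
    abel
  refine ⟨c0, fun i => Submodule.Quotient.mk (p i), Submodule.Quotient.mk y, ?_⟩
  have hq := congrArg (Submodule.span (Micro d).ring (Set.range b)).mkQ ha0
  rw [map_add, map_add, map_add, map_sum, map_sum, map_sum] at hq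
  simp only [map_smul] at hq
  have hb0 : ∑ l, G0 l • (Submodule.span (Micro d).ring (Set.range b)).mkQ (b l) = 0 := by
    refine Finset.sum_eq_zero fun l _ => ?_
    have h4 : (Submodule.span (Micro d).ring (Set.range b)).mkQ (b l) = 0 := by
      rw [Submodule.mkQ_apply, Submodule.Quotient.mk_eq_zero]
      exact Submodule.subset_span ⟨l, rfl⟩
    rw [h4, smul_zero]
  rw [hb0, add_zero] at hq
  exact hq

/-! ## row w4 -/

/-- `K` the image of the microdifferential relations in `Q = E(0)^m / ∑ E(0) b_l`. If `a` is a relation,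
`a = ∑ g_l b_l`, `g_l = g0_l + s g1_l`, then `a - ∑ g0_l b_l = s a'` (`exists_div_s`), `a'` is a relation
(`sinj`): `K = s K`, `eq_bot_of_s`. -/
-- BEGIN w4 (helper42)
theorem rel_descent_gen (h : (Formal d).RegLattice L) {m : ℕ} {n : Fin m → L} (hn : GenRel d L n)
    {c : ℕ} (b : Fin c → Fin m → (Micro d).ring) (hb : ∀ l, ∑ i, iot d (b l i) • n i = 0)
    (hg : ∀ f : Fin m → (Formal d).ring, ∑ i, f i • n i = 0 →
      ∃ g : Fin c → (Formal d).ring, ∀ i, f i = ∑ l, g l * iot d (b l i))
    (a : Fin m → (Micro d).ring) (ha : ∑ i, iot d (a i) • n i = 0) :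
    ∃ g : Fin c → (Micro d).ring, ∀ i, a i = ∑ l, g l * b l i := by
  let R : Submodule (Micro d).ring (Fin m → (Micro d).ring) :=
    { carrier := {a | ∑ i, iot d (a i) • n i = 0}
      add_mem' := by
        intro a a' ha ha'
        change ∑ i, iot d (a i + a' i) • n i = 0
        simp only [map_add, add_smul, Finset.sum_add_distrib]
        rw [show ∑ i, iot d (a i) • n i = 0 from ha, show ∑ i, iot d (a' i) • n i = 0 from ha',
          add_zero]
      zero_mem' := by
        change ∑ i, iot d 0 • n i = 0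
        simp
      smul_mem' := by
        intro q a ha
        change ∑ i, iot d (q * a i) • n i = 0
        simp only [map_mul, mul_smul]
        rw [← Finset.smul_sum, show ∑ i, iot d (a i) • n i = 0 from ha, smul_zero] }
  set N : Submodule (Micro d).ring (Fin m → (Micro d).ring) :=
    Submodule.span (Micro d).ring (Set.range b) with hN
  have hK : ∀ u ∈ R.map N.mkQ, ∃ v ∈ R.map N.mkQ, u = (Micro d).s • v := by
    rintro _ ⟨a, ha, rfl⟩
    obtain ⟨g, hgl⟩ := hg (fun i => iot d (a i)) ha
    choose g0 g1 hg01 using fun l => exists_level_zero (g l)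
    have e2 : ∀ i, iot d (a i - ∑ l, g0 l * b l i) =
        (Formal d).s * ∑ l, g1 l * iot d (b l i) := by
      intro i
      rw [map_sub, map_sum, Finset.mul_sum, sub_eq_iff_eq_add]
      rw [show iot d (a i) = ∑ l, g l * iot d (b l i) from hgl i, ← Finset.sum_add_distrib]
      refine Finset.sum_congr rfl fun l _ => ?_
      conv_lhs => rw [hg01 l]
      rw [add_mul, map_mul, ← mul_assoc, add_comm]
    choose w hw using fun i => exists_div_s (e2 i)
    have e3 : ∀ i, a i = (Micro d).s * w i + ∑ l, g0 l * b l i := fun i => by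
      rw [← hw i, sub_add_cancel]
    have hs : iot d (Micro d).s = (Formal d).s := rfl
    have hwR : w ∈ R := by
      change ∑ i, iot d (w i) • n i = 0
      apply h.sinj
      have e4 : ∑ i, iot d (∑ l, g0 l * b l i) • n i = 0 := by
        simp only [map_sum, map_mul, Finset.sum_smul, mul_smul]
        rw [Finset.sum_comm]
        refine Finset.sum_eq_zero fun l _ => ?_
        rw [← Finset.smul_sum, hb l, smul_zero]
      have e5 : ∑ i, iot d (a i) • n i = 0 := ha
      simp only [e3, map_add, map_mul, add_smul, Finset.sum_add_distrib, mul_smul] at e5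
      rw [e4, add_zero, ← Finset.smul_sum, hs] at e5
      exact e5
    refine ⟨N.mkQ w, ⟨w, hwR, rfl⟩, ?_⟩
    rw [← map_smul, ← sub_eq_zero, ← map_sub]
    have e6 : a - (Micro d).s • w = ∑ l, g0 l • b l := by
      funext i
      rw [Pi.sub_apply, Finset.sum_apply, e3 i]
      change (Micro d).s * w i + _ - (Micro d).s * w i = ∑ l, g0 l * b l i
      rw [add_sub_cancel_left]
    rw [e6]
    rw [Submodule.mkQ_apply, Submodule.Quotient.mk_eq_zero]
    exact Submodule.sum_mem _ fun l _ =>
      Submodule.smul_mem _ _ (Submodule.subset_span ⟨l, rfl⟩)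
  have h1 := eq_bot_of_s (Q := (Fin m → (Micro d).ring) ⧸ N) inferInstance
    (generic_quot h hn b hg) (R.map N.mkQ) hK
  have h2 : N.mkQ a ∈ R.map N.mkQ := ⟨a, ha, rfl⟩
  rw [h1, Submodule.mem_bot, Submodule.mkQ_apply, Submodule.Quotient.mk_eq_zero] at h2
  obtain ⟨g, hg'⟩ := (Submodule.mem_span_range_iff_exists_fun (Micro d).ring).1 h2
  refine ⟨g, fun i => ?_⟩
  rw [← hg', Finset.sum_apply]
  rfl

/-! ## row w5 -/

-- BEGIN w5
private lemma w5_sum (χ : Aut d) {m : ℕ} (n : Fin m → L) (f : Fin m → (Formal d).ring) :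
    ∑ i, f i • Tw.of χ (n i) = Tw.of χ (∑ i, χ.onF (f i) • n i) := by
  have h : ∀ s : Finset (Fin m), ∑ i ∈ s, f i • Tw.of χ (n i)
      = Tw.of χ (∑ i ∈ s, χ.onF (f i) • n i) := by
    classical
    intro s
    induction s using Finset.induction_on with
    | empty => rfl
    | insert a s ha ih => rw [Finset.sum_insert ha, Finset.sum_insert ha, ih]; rfl
  exact h Finset.univ

private lemma w5_symm (χ : Aut d) (Q : (Micro d).ring) :
    χ.onF.symm (iot d Q) = iot d (χ.onM.symm Q) := rfl

private lemma w5_rel (χ : Aut d) {m : ℕ} {n : Fin m → L} (a : Fin m → (Micro d).ring)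
    (ha : ∑ i, iot d (a i) • n i = 0) :
    ∑ i, iot d (χ.onM.symm (a i)) • Tw.of χ (n i) = 0 := by
  rw [w5_sum]
  simp only [← w5_symm, RingEquiv.apply_symm_apply]
  exact ha

/-- E2 of helper39: in any position. `exists_generic`, `GenRel.to_tw`, `rel_descent_gen` in `Tw χ L` with
`b' l i = χ.onM.symm (b l i)`, `a' i = χ.onM.symm (a i)` (as in `GenRel.of_tw`, Gee.lean). -/
theorem rel_descent (h : (Formal d).HolLattice L) {m : ℕ} {n : Fin m → L} (hn : GenRel d L n)
    {c : ℕ} (b : Fin c → Fin m → (Micro d).ring) (hb : ∀ l, ∑ i, iot d (b l i) • n i = 0)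
    (hg : ∀ f : Fin m → (Formal d).ring, ∑ i, f i • n i = 0 →
      ∃ g : Fin c → (Formal d).ring, ∀ i, f i = ∑ l, g l * iot d (b l i))
    (a : Fin m → (Micro d).ring) (ha : ∑ i, iot d (a i) • n i = 0) :
    ∃ g : Fin c → (Micro d).ring, ∀ i, a i = ∑ l, g l * b l i := by
  obtain ⟨χ, hχ⟩ := exists_generic h
  have hg' : ∀ f : Fin m → (Formal d).ring, ∑ i, f i • Tw.of χ (n i) = 0 →
      ∃ g : Fin c → (Formal d).ring,
        ∀ i, f i = ∑ l, g l * iot d (χ.onM.symm (b l i)) := by
    intro f hf
    rw [w5_sum] at hf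
    obtain ⟨g, hgi⟩ := hg (fun i => χ.onF (f i)) hf
    refine ⟨fun l => χ.onF.symm (g l), fun i => ?_⟩
    have h3 := congrArg χ.onF.symm (hgi i)
    rw [RingEquiv.symm_apply_apply, map_sum] at h3
    rw [h3]
    exact Finset.sum_congr rfl fun l _ => by rw [map_mul, w5_symm]
  obtain ⟨g, hgi⟩ := rel_descent_gen hχ (hn.to_tw χ) (fun l i => χ.onM.symm (b l i))
    (fun l => w5_rel χ (b l) (hb l)) hg' (fun i => χ.onM.symm (a i)) (w5_rel χ a ha)
  refine ⟨fun l => χ.onM (g l), fun i => ?_⟩
  have h3 := congrArg χ.onM (hgi i)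
  rw [RingEquiv.apply_symm_apply, map_sum] at h3
  rw [h3]
  exact Finset.sum_congr rfl fun l _ => by rw [map_mul, RingEquiv.apply_symm_apply]

end

end Pool.Agent.Ep
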