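import Mathlib

/-!
# Total symbols of microdifferential operators of order `≤ 0` at `p = (0; dt)` (P11, helper39)

`X = ℂ^d × ℂ`, coordinates `x_1, …, x_d, t`, dual coordinates `ξ_i`, `τ`. Near `p = (0; dt)` a
homogeneous function of degree `-j` is `a(x, t, y) s^j` with `s = 1/τ`, `y_i = ξ_i/τ`. An operator
of order `≤ 0` is given by its total symbol `f = ∑_j a_j(x, t, y) s^j`, a power series in `x, t, y, s`.
-/

set_option autoImplicit false

namespace Pool.Agent.Ep

open MvPowerSeries

/-- the coordinates `x_i`, `t`, `y_i = ξ_i / τ` near `p = (0; dt)` -/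
inductive Var (d : ℕ) : Type where
  | x (i : Fin d) : Var d
  | t : Var d
  | y (i : Fin d) : Var d
  deriving DecidableEq, Fintype

/-- total symbols: power series in `x_i`, `t`, `y_i` and `s = 1 / τ` (the variable `none`) -/
abbrev Sym (d : ℕ) : Type := MvPowerSeries (Option (Var d)) ℂ

variable {d : ℕ}

/-- the variable `s = 1/τ` -/
noncomputable def vs : Sym d := X none
/-- the variable `x_i` -/
noncomputable def vx (i : Fin d) : Sym d := X (some (.x i))
/-- the variable `t` -/
noncomputable def vt : Sym d := X (some .t)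
/-- the variable `y_i = ξ_i / τ` -/
noncomputable def vy (i : Fin d) : Sym d := X (some (.y i))

/-- formal operators: all `a_j` converge on a common polydisc -/
def IsFormal (f : Sym d) : Prop :=
  ∃ R : ℝ, 0 < R ∧ ∀ j : ℕ, ∃ C : ℝ, ∀ m : Option (Var d) →₀ ℕ, m none = j →
    ‖coeff m f‖ ≤ C * R ^ m.degree

/-- microdifferential operators: on a common polydisc `|a_j| ≤ C ^ (j+1) j!` -/
def IsMicro (f : Sym d) : Prop :=
  ∃ C : ℝ, ∀ m : Option (Var d) →₀ ℕ, ‖coeff m f‖ ≤ C ^ (m.degree + 1) * (m none).factorial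

end Pool.Agent.Ep
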